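import Pool.Agent.Helper21.EN.Defs

set_option autoImplicit false
set_option linter.unusedVariables false

/-!
# Decomposition of an integer by the exponents of its primes (project EN)
-/

namespace Pool.Agent.Helper21.EN

open Finset

lemma pc_pos (i n : ℕ) : 0 < pc i n :=
  Finset.prod_pos (fun _ hp => (Nat.prime_of_mem_primeFactors (Finset.mem_filter.1 hp).1).pos)

lemma rad_pos (n : ℕ) : 0 < rad n :=
  Finset.prod_pos (fun _ hp => (Nat.prime_of_mem_primeFactors hp).pos)

lemma cf_pos (n : ℕ) : 0 < cf n :=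
  Finset.prod_pos (fun _ hp => pow_pos
    (Nat.prime_of_mem_primeFactors (Finset.mem_filter.1 hp).1).pos _)

/-- A product of distinct primes is squarefree. -/
lemma squarefree_prod_primes (s : Finset ℕ) (hs : ∀ p ∈ s, p.Prime) :
    Squarefree (∏ p ∈ s, p) := by
  classical
  induction s using Finset.induction_on with
  | empty => simp
  | insert a s ha ih =>
    rw [Finset.prod_insert ha]
    have h1 : a.Prime := hs a (Finset.mem_insert_self a s)
    have h2 : ∀ p ∈ s, p.Prime := fun p hp => hs p (Finset.mem_insert_of_mem hp)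
    rw [Nat.squarefree_mul]
    · exact ⟨h1.squarefree, ih h2⟩
    · rw [Nat.coprime_prod_right_iff]
      intro p hp
      rw [Nat.coprime_primes h1 (h2 p hp)]
      intro h
      exact ha (h ▸ hp)

lemma pc_squarefree (i n : ℕ) : Squarefree (pc i n) :=
  squarefree_prod_primes _ (fun _ hp => Nat.prime_of_mem_primeFactors (Finset.mem_filter.1 hp).1)

lemma rad_squarefree (n : ℕ) : Squarefree (rad n) :=
  squarefree_prod_primes _ (fun _ hp => Nat.prime_of_mem_primeFactors hp)

lemma prime_dvd_pc {i n p : ℕ} (hp : p.Prime) :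
    p ∣ pc i n ↔ p ∈ n.primeFactors ∧ n.factorization p = i := by
  unfold pc
  rw [Prime.dvd_finsetProd_iff hp.prime]
  constructor
  · rintro ⟨q, hq, hpq⟩
    rw [Finset.mem_filter] at hq
    have hqp := Nat.prime_of_mem_primeFactors hq.1
    rw [Nat.prime_dvd_prime_iff_eq hp hqp] at hpq
    rw [hpq]; exact hq
  · intro h
    exact ⟨p, Finset.mem_filter.2 h, dvd_rfl⟩

lemma pc_coprime {i j n : ℕ} (hij : i ≠ j) : Nat.Coprime (pc i n) (pc j n) := by
  rw [Nat.coprime_iff_gcd_eq_one]
  by_contra hne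
  obtain ⟨p, hp, hpd⟩ := Nat.exists_prime_and_dvd hne
  have h1 := (prime_dvd_pc hp).1 (hpd.trans (Nat.gcd_dvd_left _ _))
  have h2 := (prime_dvd_pc hp).1 (hpd.trans (Nat.gcd_dvd_right _ _))
  exact hij (h1.2.symm.trans h2.2)

lemma pc_dvd_rad (i n : ℕ) : pc i n ∣ rad n := by
  unfold pc rad
  exact Finset.prod_dvd_prod_of_subset _ _ _ (Finset.filter_subset _ _)

lemma rad_dvd (n : ℕ) : rad n ∣ n := Nat.prod_primeFactors_dvd n

lemma pc_dvd (i n : ℕ) : pc i n ∣ n := (pc_dvd_rad i n).trans (rad_dvd n)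

lemma rad_le {n : ℕ} (hn : 0 < n) : rad n ≤ n := Nat.le_of_dvd hn (rad_dvd n)

lemma pc_le {i n : ℕ} (hn : 0 < n) : pc i n ≤ n := Nat.le_of_dvd hn (pc_dvd i n)

lemma pc_le_rad (i n : ℕ) : pc i n ≤ rad n := Nat.le_of_dvd (rad_pos n) (pc_dvd_rad i n)

lemma prime_dvd_rad {n p : ℕ} (hp : p.Prime) : p ∣ rad n ↔ p ∈ n.primeFactors := by
  unfold rad
  rw [Prime.dvd_finsetProd_iff hp.prime]
  constructor
  · rintro ⟨q, hq, hpq⟩
    have hqp := Nat.prime_of_mem_primeFactors hq
    rw [Nat.prime_dvd_prime_iff_eq hp hqp] at hpq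
    rw [hpq]; exact hq
  · intro h
    exact ⟨p, h, dvd_rfl⟩

/-- The part of `n` whose primes have exponent outside `S`. -/
def rest (S : Finset ℕ) (n : ℕ) : ℕ :=
  ∏ p ∈ n.primeFactors.filter (fun p => n.factorization p ∉ S), p ^ n.factorization p

lemma rest_pos (S : Finset ℕ) (n : ℕ) : 0 < rest S n :=
  Finset.prod_pos (fun _ hp => pow_pos
    (Nat.prime_of_mem_primeFactors (Finset.mem_filter.1 hp).1).pos _)

lemma prod_pc_pow (S : Finset ℕ) (n : ℕ) : ∏ i ∈ S, pc i n ^ i =
    ∏ p ∈ n.primeFactors.filter (fun p => n.factorization p ∈ S), p ^ n.factorization p := by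
  classical
  rw [← Finset.prod_fiberwise_of_maps_to (s := n.primeFactors.filter
    (fun p => n.factorization p ∈ S)) (t := S) (g := fun p => n.factorization p)
    (fun p hp => (Finset.mem_filter.1 hp).2)]
  apply Finset.prod_congr rfl
  intro i hi
  unfold pc
  rw [← Finset.prod_pow, Finset.filter_filter]
  have : n.primeFactors.filter (fun p => n.factorization p ∈ S ∧ n.factorization p = i) =
      n.primeFactors.filter (fun p => n.factorization p = i) := by
    apply Finset.filter_congr
    intro p _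
    constructor
    · exact fun h => h.2
    · exact fun h => ⟨h ▸ hi, h⟩
  rw [this]
  apply Finset.prod_congr rfl
  intro p hp
  rw [(Finset.mem_filter.1 hp).2]

lemma prod_pc (S : Finset ℕ) (n : ℕ) : ∏ i ∈ S, pc i n =
    ∏ p ∈ n.primeFactors.filter (fun p => n.factorization p ∈ S), p := by
  classical
  rw [← Finset.prod_fiberwise_of_maps_to (s := n.primeFactors.filter
    (fun p => n.factorization p ∈ S)) (t := S) (g := fun p => n.factorization p)
    (fun p hp => (Finset.mem_filter.1 hp).2)]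
  apply Finset.prod_congr rfl
  intro i hi
  unfold pc
  rw [Finset.filter_filter]
  have : n.primeFactors.filter (fun p => n.factorization p ∈ S ∧ n.factorization p = i) =
      n.primeFactors.filter (fun p => n.factorization p = i) := by
    apply Finset.filter_congr
    intro p _
    constructor
    · exact fun h => h.2
    · exact fun h => ⟨h ▸ hi, h⟩
  rw [this]

/-- `n = rest S n * ∏ (pc i n) ^ i`. -/
lemma rest_mul {n : ℕ} (hn : 0 < n) (S : Finset ℕ) : n = rest S n * ∏ i ∈ S, pc i n ^ i := by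
  classical
  rw [prod_pc_pow, mul_comm]
  unfold rest
  rw [Finset.prod_filter_mul_prod_filter_not]
  conv_lhs => rw [← Nat.prod_factorization_pow_eq_self hn.ne']
  rfl

lemma primeFactors_rest (S : Finset ℕ) (n : ℕ) : (rest S n).primeFactors =
    n.primeFactors.filter (fun p => n.factorization p ∉ S) := by
  classical
  ext p
  rw [Nat.mem_primeFactors]
  constructor
  · rintro ⟨hp, hd, _⟩
    unfold rest at hd
    rw [Prime.dvd_finsetProd_iff hp.prime] at hd
    obtain ⟨q, hq, hpq⟩ := hd
    have hqp := Nat.prime_of_mem_primeFactors (Finset.mem_filter.1 hq).1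
    have := (Nat.prime_dvd_prime_iff_eq hp hqp).1 (hp.dvd_of_dvd_pow hpq)
    rw [this]; exact hq
  · intro h
    have hp := Nat.prime_of_mem_primeFactors (Finset.mem_filter.1 h).1
    have hn := (Finset.mem_filter.1 h).1
    rw [Nat.mem_primeFactors] at hn
    refine ⟨hp, ?_, (rest_pos S n).ne'⟩
    unfold rest
    apply dvd_trans _ (Finset.dvd_prod_of_mem _ h)
    apply dvd_pow_self
    exact (hp.factorization_pos_of_dvd hn.2.2 hn.2.1).ne'

/-- `rad n = rad (rest S n) * ∏ pc i n`. -/
lemma rad_rest_mul (S : Finset ℕ) (n : ℕ) : rad n = rad (rest S n) * ∏ i ∈ S, pc i n := by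
  classical
  rw [prod_pc, mul_comm]
  unfold rad
  rw [primeFactors_rest, Finset.prod_filter_mul_prod_filter_not]

lemma rest_dvd {n : ℕ} (hn : 0 < n) (S : Finset ℕ) : rest S n ∣ n :=
  ⟨_, rest_mul hn S⟩

lemma rest_le {n : ℕ} (hn : 0 < n) (S : Finset ℕ) : rest S n ≤ n :=
  Nat.le_of_dvd hn (rest_dvd hn S)

lemma prod_pc_pow_dvd {n : ℕ} (hn : 0 < n) (S : Finset ℕ) : (∏ i ∈ S, pc i n ^ i) ∣ n :=
  ⟨rest S n, by rw [mul_comm]; exact rest_mul hn S⟩

lemma pc_pow_dvd {n : ℕ} (hn : 0 < n) (i : ℕ) : pc i n ^ i ∣ n := by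
  have := prod_pc_pow_dvd hn {i}
  rwa [Finset.prod_singleton] at this

lemma pc_pow_le {n : ℕ} (hn : 0 < n) (i : ℕ) : pc i n ^ i ≤ n :=
  Nat.le_of_dvd hn (pc_pow_dvd hn i)

/-- One class: `n = rest {i} n * (pc i n) ^ i`. -/
lemma rest_mul_one {n : ℕ} (hn : 0 < n) (i : ℕ) : n = rest {i} n * pc i n ^ i := by
  have := rest_mul hn {i}
  rwa [Finset.prod_singleton] at this

lemma rad_rest_mul_one (i n : ℕ) : rad n = rad (rest {i} n) * pc i n := by
  have := rad_rest_mul {i} n
  rwa [Finset.prod_singleton] at this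

/-- The vector of the classes in `S`. -/
def pvec (S : Finset (Fin 9)) (n : ℕ) : Vec := fun i => if i ∈ S then pc i n else 1

lemma pvec_pos (S : Finset (Fin 9)) (n : ℕ) (i : Fin 9) : 0 < pvec S n i := by
  unfold pvec; split_ifs
  · exact pc_pos _ _
  · exact one_pos

lemma pvec_squarefree (S : Finset (Fin 9)) (n : ℕ) (i : Fin 9) : Squarefree (pvec S n i) := by
  unfold pvec; split_ifs
  · exact pc_squarefree _ _
  · exact squarefree_one

lemma pvec_coprime (S : Finset (Fin 9)) (n : ℕ) {i j : Fin 9} (hij : i ≠ j) :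
    Nat.Coprime (pvec S n i) (pvec S n j) := by
  unfold pvec
  split_ifs
  · exact pc_coprime (fun h => hij (Fin.ext h))
  · exact Nat.coprime_one_right _
  · exact Nat.coprime_one_left _
  · exact Nat.coprime_one_left _

lemma pvec_dvd (S : Finset (Fin 9)) (n : ℕ) (i : Fin 9) : pvec S n i ∣ n := by
  unfold pvec; split_ifs
  · exact pc_dvd _ _
  · exact one_dvd _

/-- The complementary factor for a set of classes in `Fin 9`. -/
def vrest (S : Finset (Fin 9)) (n : ℕ) : ℕ := rest (S.image (fun i : Fin 9 => (i : ℕ))) n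

lemma vrest_pos (S : Finset (Fin 9)) (n : ℕ) : 0 < vrest S n := rest_pos _ _

lemma prod_image_val (S : Finset (Fin 9)) (f : ℕ → ℕ) :
    ∏ i ∈ S.image (fun i : Fin 9 => (i : ℕ)), f i = ∏ i ∈ S, f i :=
  Finset.prod_image (fun _ _ _ _ h => Fin.ext h)

lemma mon_pvec (S : Finset (Fin 9)) (n : ℕ) : mon (pvec S n) = ∏ i ∈ S, pc i n ^ (i : ℕ) := by
  classical
  unfold mon pvec
  have : ∀ i : Fin 9, (if i ∈ S then pc i n else 1) ^ (i : ℕ) =
      if i ∈ S then pc i n ^ (i : ℕ) else 1 := by
    intro i; split_ifs <;> simp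
  rw [Finset.prod_congr rfl (fun i _ => this i), Finset.prod_ite_mem, Finset.univ_inter]

/-- `n = vrest S n * mon (pvec S n)`. -/
lemma vrest_mul {n : ℕ} (hn : 0 < n) (S : Finset (Fin 9)) :
    n = vrest S n * mon (pvec S n) := by
  rw [mon_pvec]
  unfold vrest
  have := rest_mul hn (S.image (fun i : Fin 9 => (i : ℕ)))
  rwa [prod_image_val S (fun i => pc i n ^ i)] at this

/-- `rad n = rad (vrest S n) * ∏ pc i n`. -/
lemma rad_vrest_mul (S : Finset (Fin 9)) (n : ℕ) :
    rad n = rad (vrest S n) * ∏ i ∈ S, pc i n := by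
  have := rad_rest_mul (S.image (fun i : Fin 9 => (i : ℕ))) n
  rwa [prod_image_val S (fun i => pc i n)] at this

lemma vrest_dvd {n : ℕ} (hn : 0 < n) (S : Finset (Fin 9)) : vrest S n ∣ n := rest_dvd hn _

lemma vrest_le {n : ℕ} (hn : 0 < n) (S : Finset (Fin 9)) : vrest S n ≤ n := rest_le hn _

lemma mon_pos {x : Vec} (hx : ∀ i, 0 < x i) : 0 < mon x :=
  Finset.prod_pos (fun i _ => pow_pos (hx i) _)

/-- The exponents of `mon x` when the coordinates are squarefree and pairwise coprime. -/
lemma mon_factorization {x : Vec} (hx : ∀ i, Squarefree (x i))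
    (hc : ∀ i j, i ≠ j → Nat.Coprime (x i) (x j)) {p : ℕ} (hp : p.Prime) {i : Fin 9}
    (hpi : p ∣ x i) : (mon x).factorization p = i := by
  classical
  have hne : ∀ j, x j ≠ 0 := fun j => (hx j).ne_zero
  unfold mon
  rw [Nat.factorization_prod (fun j _ => pow_ne_zero _ (hne j)), Finset.sum_apply']
  rw [Finset.sum_eq_single i]
  · rw [Nat.factorization_pow, Finsupp.smul_apply, smul_eq_mul]
    have h1 : (x i).factorization p ≤ 1 := (Nat.squarefree_iff_factorization_le_one (hne i)).1
      (hx i) p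
    have h2 : 0 < (x i).factorization p := hp.factorization_pos_of_dvd (hne i) hpi
    have h3 : (x i).factorization p = 1 := by omega
    rw [h3, mul_one]
  · intro j _ hji
    rw [Nat.factorization_pow, Finsupp.smul_apply, smul_eq_mul]
    have : (x j).factorization p = 0 := by
      apply Nat.factorization_eq_zero_of_not_dvd
      intro h
      have := Nat.dvd_gcd hpi h
      rw [(hc i j (Ne.symm hji)).gcd_eq_one] at this
      exact hp.one_lt.ne' (Nat.dvd_one.1 this)
    rw [this, mul_zero]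
  · intro h; exact absurd (Finset.mem_univ _) h

/-- Uniqueness of the vector. -/
lemma mon_inj {x y : Vec} (hx : ∀ i, Squarefree (x i)) (hy : ∀ i, Squarefree (y i))
    (hcx : ∀ i j, i ≠ j → Nat.Coprime (x i) (x j)) (hcy : ∀ i j, i ≠ j → Nat.Coprime (y i) (y j))
    (h : mon x = mon y) {i : Fin 9} (hi : i ≠ 0) : x i = y i := by
  classical
  have key : ∀ u v : Vec, (∀ i, Squarefree (u i)) → (∀ i, Squarefree (v i)) →
      (∀ i j, i ≠ j → Nat.Coprime (u i) (u j)) → (∀ i j, i ≠ j → Nat.Coprime (v i) (v j)) →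
      mon u = mon v → u i ∣ v i := by
    intro u v hu hv hcu hcv huv
    have hne : ∀ j, v j ≠ 0 := fun j => (hv j).ne_zero
    rw [← Nat.prod_primeFactors_of_squarefree (hu i)]
    apply Finset.prod_primes_dvd
    · intro p hp
      exact (Nat.prime_of_mem_primeFactors hp).prime
    · intro p hp
      have hpp := Nat.prime_of_mem_primeFactors hp
      have h1 := mon_factorization hu hcu hpp (Nat.dvd_of_mem_primeFactors hp)
      rw [huv] at h1
      have hi0 : (i : ℕ) ≠ 0 := fun h => hi (Fin.ext h)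
      have h2 : p ∣ mon v := by
        by_contra hnd
        rw [Nat.factorization_eq_zero_of_not_dvd hnd] at h1
        exact hi0 h1.symm
      unfold mon at h2
      rw [Prime.dvd_finsetProd_iff hpp.prime] at h2
      obtain ⟨j, _, hj⟩ := h2
      have hj' := hpp.dvd_of_dvd_pow hj
      have h3 := mon_factorization hv hcv hpp hj'
      have : j = i := Fin.ext (h3.symm.trans h1)
      rwa [this] at hj'
  exact Nat.dvd_antisymm (key x y hx hy hcx hcy h) (key y x hy hx hcy hcx h.symm)

end Pool.Agent.Helper21.EN
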