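import Pool.Agent.Helper21.EN.Stmts
import Pool.Agent.Helper21.EN.Dec

set_option autoImplicit false

/-!
# Project EN, piece C1

The statement is in EN/Stmts. Paper: /team-store/EN_paper.md.

Proof. t = (p,q,r). Decomposition: EN/Dec rest_mul_one, rad_rest_mul_one: p = U x^i, x = pc i p, U = rest {i} p, rad U rad q <= W/x <= W/x0. So at most C X^eps W/x0 pairs (U,q) (hrp, Y = W/x0 >= 1). For fixed (U,q) and fixed one of the three forms of Tri.rel: the possible p lie in an interval of length rho: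
q + r = p: p in (q, q+rho]; p + r = q: p in [q-rho, q); p + q = r: p in (0, rho]. p >= X/4. For two solutions x < x' : x'^i - x^i >= (x'-x) x'^(i-1) so x' - x <= (rho/U)/x'^(i-1) = rho x'/p' <= 4 rho x1/X: at most 1 + 4 rho x1/X values of x (Pool-free: a finite set of naturals with all differences <= D has at most D+1 elements),
and p, q and the form determine r. Total 3 (1 + 4 x1 rho/X) C X^eps W/x0.
-/

namespace Pool.Agent.Helper21.EN

open Finset

theorem c1_card {A : Finset ℕ} {D : ℝ} (hD : 0 ≤ D)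
    (h : ∀ a ∈ A, ∀ b ∈ A, a < b → ((b : ℝ) - a) ≤ D) : (A.card : ℝ) ≤ D + 1 := by
  rcases A.eq_empty_or_nonempty with h0 | h0
  · subst h0
    simp
    linarith
  · have hsub : A ⊆ Finset.Icc (A.min' h0) (A.min' h0 + ⌊D⌋₊) := by
      intro b hb
      rw [Finset.mem_Icc]
      refine ⟨A.min'_le b hb, ?_⟩
      rcases eq_or_lt_of_le (A.min'_le b hb) with h1 | h1
      · omega
      · have h2 := h _ (A.min'_mem h0) b hb h1
        have h3 : b - A.min' h0 ≤ ⌊D⌋₊ := by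
          apply Nat.le_floor
          rw [Nat.cast_sub h1.le]
          exact h2
        omega
    have h1 := Finset.card_le_card hsub
    rw [Nat.card_Icc] at h1
    have h2 : A.card ≤ ⌊D⌋₊ + 1 := by omega
    have h3 : ((⌊D⌋₊ : ℕ) : ℝ) ≤ D := Nat.floor_le hD
    have h4 : (A.card : ℝ) ≤ ((⌊D⌋₊ : ℕ) : ℝ) + 1 := by exact_mod_cast h2
    linarith

theorem c1_diff {U x x' i : ℕ} (hi : 1 ≤ i) (hx : x < x') :
    U * ((x' - x) * x' ^ (i - 1)) ≤ U * x' ^ i - U * x ^ i := by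
  obtain ⟨j, rfl⟩ : ∃ j, i = j + 1 := ⟨i - 1, by omega⟩
  rw [Nat.add_sub_cancel, ← Nat.mul_sub]
  apply Nat.mul_le_mul_left
  have h1 : x ^ (j + 1) ≤ x * x' ^ j := by
    rw [pow_succ, mul_comm]
    exact Nat.mul_le_mul_left _ (Nat.pow_le_pow_left hx.le j)
  have h2 : x' ^ (j + 1) = x' * x' ^ j := by ring
  rw [Nat.sub_mul, h2]
  omega

/-- the form of the relation -/
def c1_form (t : ℕ × ℕ × ℕ) : ℕ :=
  if t.1 + t.2.1 = t.2.2 then 0 else if t.2.1 + t.2.2 = t.1 then 1 else 2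

theorem c1_form_lt (t : ℕ × ℕ × ℕ) : c1_form t < 3 := by
  unfold c1_form
  split_ifs <;> omega

theorem c1_gap {X : ℕ} {t t' : ℕ × ℕ × ℕ} (ht : Tri X t.1 t.2.1 t.2.2)
    (ht' : Tri X t'.1 t'.2.1 t'.2.2) (hq : t.2.1 = t'.2.1) (hf : c1_form t = c1_form t') :
    t'.1 ≤ t.1 + max t.2.2 t'.2.2 ∧ (t.1 = t'.1 → t = t') := by
  have h1 := ht.rel
  have h2 := ht'.rel
  obtain ⟨p, q, r⟩ := t
  obtain ⟨p', q', r'⟩ := t'
  simp only at h1 h2 hq ⊢
  subst hq
  have hp := ht.hp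
  have hr := ht.hr
  have hp' := ht'.hp
  have hr' := ht'.hr
  have hq0 := ht.hq
  simp only at hp hr hp' hr' hq0
  unfold c1_form at hf
  simp only at hf
  have hm1 : r ≤ max r r' := le_max_left _ _
  have hm2 : r' ≤ max r r' := le_max_right _ _
  constructor
  · split_ifs at hf <;> omega
  · intro h
    subst h
    have : r = r' := by
      split_ifs at hf <;> omega
    rw [this]

theorem c1_thm (hrp : RPStmt) : C1Stmt := by
  intro ε hε
  obtain ⟨C0, hC0, hC⟩ := hrp ε hε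
  refine ⟨12 * C0, by linarith, ?_⟩
  intro X i x0 x1 W ρ TT hX hi hi8 hx0 hx01 hx0W hρ hTT
  have hX0 : (0 : ℝ) < X := by
    have : 0 < X := by omega
    exact_mod_cast this
  have hx0' : 0 < x0 := by linarith
  have hx1' : 0 < x1 := by linarith
  set F : Finset (ℕ × ℕ) := TT.image (fun t => (rest {i} t.1, t.2.1)) with hF
  have hFc : (F.card : ℝ) ≤ C0 * (X : ℝ) ^ ε * (W / x0) := by
    apply hC X (W / x0) F (by omega) (by rw [le_div_iff₀ hx0']; linarith)
    intro s hs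
    rw [hF, Finset.mem_image] at hs
    obtain ⟨t, ht, rfl⟩ := hs
    obtain ⟨htri, h4, hr, hx, hx1, hW⟩ := hTT t ht
    refine ⟨rest_pos _ _, (rest_le htri.hp _).trans htri.pX, htri.hq, htri.qX, ?_⟩
    simp only
    rw [le_div_iff₀ hx0']
    have h1 : (rad t.1 : ℝ) = rad (rest {i} t.1) * pc i t.1 := by
      exact_mod_cast rad_rest_mul_one i t.1
    rw [h1] at hW
    have h2 : (0 : ℝ) ≤ (rad (rest {i} t.1) : ℝ) * rad t.2.1 := by positivity
    calc (rad (rest {i} t.1) : ℝ) * rad t.2.1 * x0 ≤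
        (rad (rest {i} t.1) : ℝ) * rad t.2.1 * pc i t.1 := mul_le_mul_of_nonneg_left hx h2
      _ = (rad (rest {i} t.1) : ℝ) * pc i t.1 * rad t.2.1 := by ring
      _ ≤ W := hW
  set D : ℝ := 4 * ρ * x1 / X with hD
  have hD0 : 0 ≤ D := by positivity
  set g : ℕ × ℕ × ℕ → (ℕ × ℕ) × ℕ := fun t => ((rest {i} t.1, t.2.1), c1_form t) with hg
  have hfib : ∀ a ∈ TT.image g, (TT.filter fun t => g t = a).card ≤ ⌊D + 1⌋₊ := by
    intro a _
    apply Nat.le_floor
    set B := (TT.filter fun t => g t = a) with hB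
    have hBm : ∀ t ∈ B, t ∈ TT ∧ rest {i} t.1 = a.1.1 ∧ t.2.1 = a.1.2 ∧ c1_form t = a.2 := by
      intro t ht
      rw [hB, Finset.mem_filter] at ht
      refine ⟨ht.1, ?_, ?_, ?_⟩
      · rw [← ht.2]
      · rw [← ht.2]
      · rw [← ht.2]
    have hinj : Set.InjOn (fun t : ℕ × ℕ × ℕ => pc i t.1) (B : Set (ℕ × ℕ × ℕ)) := by
      intro t ht t' ht' hpc
      obtain ⟨m1, m2, m3, m4⟩ := hBm t (Finset.mem_coe.1 ht)
      obtain ⟨m1', m2', m3', m4'⟩ := hBm t' (Finset.mem_coe.1 ht')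
      have e1 := rest_mul_one (hTT t m1).1.hp i
      have e2 := rest_mul_one (hTT t' m1').1.hp i
      have hpp : t.1 = t'.1 := by
        rw [e1, e2, m2, m2']
        simp only at hpc
        rw [hpc]
      exact (c1_gap (hTT t m1).1 (hTT t' m1').1 (m3.trans m3'.symm) (m4.trans m4'.symm)).2 hpp
    rw [← Finset.card_image_of_injOn hinj]
    apply c1_card hD0
    intro x hx x' hx' hlt
    rw [Finset.mem_image] at hx hx'
    obtain ⟨t, ht, rfl⟩ := hx
    obtain ⟨t', ht', rfl⟩ := hx'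
    obtain ⟨m1, m2, m3, m4⟩ := hBm t ht
    obtain ⟨m1', m2', m3', m4'⟩ := hBm t' ht'
    have e1 := rest_mul_one (hTT t m1).1.hp i
    have e2 := rest_mul_one (hTT t' m1').1.hp i
    have hgap := (c1_gap (hTT t m1).1 (hTT t' m1').1 (m3.trans m3'.symm)
      (m4.trans m4'.symm)).1
    have hdiff := c1_diff (U := a.1.1) hi hlt
    rw [m2] at e1
    rw [m2'] at e2
    obtain ⟨htri, h4, hr, hxx, hx1, hW⟩ := hTT t m1
    obtain ⟨htri', h4', hr', hxx', hx1', hW'⟩ := hTT t' m1'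
    have hmax : ((max t.2.2 t'.2.2 : ℕ) : ℝ) ≤ ρ := by
      rw [Nat.cast_max]; exact max_le hr hr'
    have hnat : a.1.1 * ((pc i t'.1 - pc i t.1) * pc i t'.1 ^ (i - 1)) ≤ max t.2.2 t'.2.2 := by
      refine hdiff.trans ?_
      rw [← e1, ← e2]
      omega
    have hreal : (a.1.1 : ℝ) * (((pc i t'.1 : ℝ) - pc i t.1) * (pc i t'.1 : ℝ) ^ (i - 1)) ≤ ρ := by
      refine le_trans ?_ hmax
      have h5 : ((a.1.1 * ((pc i t'.1 - pc i t.1) * pc i t'.1 ^ (i - 1)) : ℕ) : ℝ) ≤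
          ((max t.2.2 t'.2.2 : ℕ) : ℝ) := by exact_mod_cast hnat
      rw [Nat.cast_mul, Nat.cast_mul, Nat.cast_sub hlt.le, Nat.cast_pow] at h5
      exact h5
    have hp' : (t'.1 : ℝ) = a.1.1 * (pc i t'.1 : ℝ) ^ i := by exact_mod_cast e2
    have hpx : ((pc i t'.1 : ℝ) - pc i t.1) * t'.1 ≤ ρ * pc i t'.1 := by
      have h6 : (pc i t'.1 : ℝ) ^ i = (pc i t'.1 : ℝ) ^ (i - 1) * pc i t'.1 := by
        rw [← pow_succ]; congr 1; omega
      rw [hp', h6]
      calc ((pc i t'.1 : ℝ) - pc i t.1) * (a.1.1 * ((pc i t'.1 : ℝ) ^ (i - 1) * pc i t'.1)) =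
          (a.1.1 : ℝ) * (((pc i t'.1 : ℝ) - pc i t.1) * (pc i t'.1 : ℝ) ^ (i - 1)) *
            pc i t'.1 := by ring
        _ ≤ ρ * pc i t'.1 := mul_le_mul_of_nonneg_right hreal (by positivity)
    have hpos : (0 : ℝ) ≤ (pc i t'.1 : ℝ) - pc i t.1 := by
      have : (pc i t.1 : ℝ) < pc i t'.1 := by exact_mod_cast hlt
      linarith
    rw [hD, le_div_iff₀ hX0]
    calc ((pc i t'.1 : ℝ) - pc i t.1) * X ≤ ((pc i t'.1 : ℝ) - pc i t.1) * (4 * t'.1) :=
          mul_le_mul_of_nonneg_left h4' hpos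
      _ = 4 * (((pc i t'.1 : ℝ) - pc i t.1) * t'.1) := by ring
      _ ≤ 4 * (ρ * pc i t'.1) := by linarith
      _ ≤ 4 * (ρ * x1) := by
          have : ρ * (pc i t'.1 : ℝ) ≤ ρ * x1 := mul_le_mul_of_nonneg_left hx1' (by linarith)
          linarith
      _ = 4 * ρ * x1 := by ring
  have hcard := Finset.card_le_mul_card_image TT _ hfib
  have himg : (TT.image g).card ≤ F.card * 3 := by
    have hsub : TT.image g ⊆ F ×ˢ Finset.range 3 := by
      intro a ha
      rw [Finset.mem_image] at ha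
      obtain ⟨t, ht, rfl⟩ := ha
      rw [Finset.mem_product, Finset.mem_range]
      exact ⟨Finset.mem_image_of_mem _ ht, c1_form_lt t⟩
    have := Finset.card_le_card hsub
    rwa [Finset.card_product, Finset.card_range] at this
  have h1 : (TT.card : ℝ) ≤ (D + 1) * (F.card * 3) := by
    have h2 : (TT.card : ℝ) ≤ ((⌊D + 1⌋₊ : ℕ) : ℝ) * (TT.image g).card := by
      exact_mod_cast hcard
    have h3 : ((⌊D + 1⌋₊ : ℕ) : ℝ) ≤ D + 1 := Nat.floor_le (by linarith)
    have h4 : ((TT.image g).card : ℝ) ≤ F.card * 3 := by exact_mod_cast himg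
    refine h2.trans ?_
    exact mul_le_mul h3 h4 (by positivity) (by linarith)
  have h5 : D + 1 ≤ 4 * (1 + x1 * ρ / X) := by
    have h6 : D = 4 * (x1 * ρ / X) := by rw [hD]; ring
    rw [h6]
    have h7 : 0 ≤ x1 * ρ / X := by positivity
    linarith
  calc (TT.card : ℝ) ≤ (D + 1) * (F.card * 3) := h1
    _ ≤ (4 * (1 + x1 * ρ / X)) * ((C0 * (X : ℝ) ^ ε * (W / x0)) * 3) := by
        apply mul_le_mul h5 _ (by positivity) (by positivity)
        linarith
    _ = 12 * C0 * (X : ℝ) ^ ε * (W / x0) * (1 + x1 * ρ / X) := by ring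

end Pool.Agent.Helper21.EN
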