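import Pool.Agent.Helper21.EN.Stmts
import Pool.Agent.Helper21.EN.Dec
import Pool.Agent.Helper94.Abc.Basic
import Pool.Agent.Helper26.Abc2.Roots

set_option autoImplicit false

/-!
# Project EN, piece C2a

Replace the sorry. The statement is in EN/Stmts.lean. Paper: /team-store/EN_paper.md.

Proof. t = (p,q,r). Decomposition: EN/Dec.lean. r = tt S^2 with S = pc 2 r, tt = rest {2} r <= t1 (rest_mul_one). p = U x^i, x = pc i p, U = rest {i} p, rad U rad q <= W/x0: at most C X^eps W/x0 pairs (U,q) by hrp, at most t1 values of tt. For fixed U, q, tt and the form of Tri.rel: (r = p + q) tt S^2 = q modulo U;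
(q + r = p) tt S^2 = -q modulo U; (p + r = q) tt S^2 = q modulo U; U is coprime to tt, S, q. So S lies in at most C U^eps residue classes modulo U (Pool.Agent.Helper26.Abc2.card_roots_int with j = 2). p = U x^i <= U Y, so r lies in an interval of length <= UY (q < r <= q + UY, r < UY or q - UY <= r < q):
for two solutions S < S' in one class modulo U: S'^2 - S^2 <= UY/tt, S' - S <= UY/(tt S') and tt S'^2 >= r0, tt >= 1, so tt S' = sqrt(tt) sqrt(tt S'^2) >= sqrt r0: S' - S <= U Y/sqrt r0, a multiple of U: at most 1 + Y/sqrt r0 values S in a class. (U = 1 fine.) The data U, q, tt, S, form determine (p,q,r).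
-/

namespace Pool.Agent.Helper21.EN

open Finset

/-- the form of the relation -/
def c2a_form (t : ℕ × ℕ × ℕ) : ℕ :=
  if t.1 + t.2.1 = t.2.2 then 0 else if t.2.1 + t.2.2 = t.1 then 1 else 2

lemma c2a_form_lt (t : ℕ × ℕ × ℕ) : c2a_form t < 3 := by
  unfold c2a_form
  split_ifs <;> norm_num

lemma c2a_rel {X : ℕ} {t t' : ℕ × ℕ × ℕ} (h : Tri X t.1 t.2.1 t.2.2)
    (h' : Tri X t'.1 t'.2.1 t'.2.2) (hq : t.2.1 = t'.2.1) (hf : c2a_form t = c2a_form t') :
    (t.2.2 : ℤ) - t'.2.2 = t.1 - t'.1 ∨ (t.2.2 : ℤ) - t'.2.2 = t'.1 - t.1 := by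
  have h1 := h.rel
  have h2 := h'.rel
  have hp := h.hp
  have hp' := h'.hp
  have hq0 := h.hq
  have hr := h.hr
  have hr' := h'.hr
  unfold c2a_form at hf
  split_ifs at hf <;> omega

/-- one class modulo `U` -/
lemma c2a_class {X : ℕ} {U q tt : ℕ} {Y r0 : ℝ} (i : ℕ) (hU : 0 < U) (hY : 1 ≤ Y) (hr0 : 1 ≤ r0)
    (F : Finset (ℕ × ℕ × ℕ))
    (hF : ∀ t ∈ F, Tri X t.1 t.2.1 t.2.2 ∧ r0 ≤ (t.2.2 : ℝ) ∧ (pc i t.1 : ℝ) ^ i ≤ Y ∧
      rest {i} t.1 = U ∧ t.2.1 = q ∧ rest {2} t.2.2 = tt)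
    (hform : ∀ t ∈ F, ∀ t' ∈ F, c2a_form t = c2a_form t')
    (hcl : ∀ t ∈ F, ∀ t' ∈ F, pc 2 t.2.2 % U = pc 2 t'.2.2 % U) :
    (F.card : ℝ) ≤ 1 + Y / Real.sqrt r0 := by
  classical
  rcases F.eq_empty_or_nonempty with h0 | hne
  · rw [h0]
    have : 0 ≤ Y / Real.sqrt r0 := by positivity
    simp only [card_empty, Nat.cast_zero]
    linarith
  have hUR : (0 : ℝ) < U := by exact_mod_cast hU
  have hs0 : 0 < Real.sqrt r0 := Real.sqrt_pos.2 (by linarith)
  obtain ⟨t0, ht0, hmin⟩ := exists_min_image F (fun t => pc 2 t.2.2) hne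
  -- two members
  have hdiff : ∀ t ∈ F, ∀ t' ∈ F, pc 2 t.2.2 < pc 2 t'.2.2 →
      (pc 2 t'.2.2 : ℝ) - pc 2 t.2.2 ≤ U * Y / Real.sqrt r0 := by
    intro t ht t' ht' hlt
    obtain ⟨a1, a2, a3, a4, a5, a6⟩ := hF t ht
    obtain ⟨b1, b2, b3, b4, b5, b6⟩ := hF t' ht'
    have hp := rest_mul_one a1.hp i
    have hp' := rest_mul_one b1.hp i
    have hr := rest_mul_one a1.hr 2
    have hr' := rest_mul_one b1.hr 2
    rw [a4] at hp
    rw [b4] at hp'
    rw [a6] at hr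
    rw [b6] at hr'
    have hpR : (t.1 : ℝ) ≤ U * Y := by
      have : (t.1 : ℝ) = U * (pc i t.1 : ℝ) ^ i := by exact_mod_cast hp
      rw [this]
      exact mul_le_mul_of_nonneg_left a3 hUR.le
    have hpR' : (t'.1 : ℝ) ≤ U * Y := by
      have : (t'.1 : ℝ) = U * (pc i t'.1 : ℝ) ^ i := by exact_mod_cast hp'
      rw [this]
      exact mul_le_mul_of_nonneg_left b3 hUR.le
    have hrR : (t.2.2 : ℝ) = tt * (pc 2 t.2.2 : ℝ) ^ 2 := by exact_mod_cast hr
    have hrR' : (t'.2.2 : ℝ) = tt * (pc 2 t'.2.2 : ℝ) ^ 2 := by exact_mod_cast hr'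
    have hp0 : (0 : ℝ) ≤ t.1 := Nat.cast_nonneg _
    have hp0' : (0 : ℝ) ≤ t'.1 := Nat.cast_nonneg _
    have hd : (t'.2.2 : ℝ) - t.2.2 ≤ U * Y := by
      rcases c2a_rel b1 a1 (b5.trans a5.symm) (hform _ ht' _ ht) with h | h
      · have h' : (t'.2.2 : ℝ) - t.2.2 = t'.1 - t.1 := by exact_mod_cast h
        linarith
      · have h' : (t'.2.2 : ℝ) - t.2.2 = t.1 - t'.1 := by exact_mod_cast h
        linarith
    have htt : 0 < tt := by
      rcases Nat.eq_zero_or_pos tt with h | h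
      · rw [h, zero_mul] at hr'
        have := b1.hr
        omega
      · exact h
    have httR : (1 : ℝ) ≤ tt := by exact_mod_cast htt
    set S : ℝ := (pc 2 t.2.2 : ℝ) with hS
    set S' : ℝ := (pc 2 t'.2.2 : ℝ) with hS'
    have hSS : S < S' := by rw [hS, hS']; exact_mod_cast hlt
    have hS0 : 0 ≤ S := Nat.cast_nonneg _
    have hsq : Real.sqrt r0 ≤ tt * S' := by
      apply Real.sqrt_le_iff.2
      constructor
      · positivity
      · have h1 : r0 ≤ tt * S' ^ 2 := by rw [← hrR']; exact b2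
        have h2 : (tt : ℝ) * S' ^ 2 ≤ (tt * S') ^ 2 := by
          have : (tt * S') ^ 2 = tt * (tt * S' ^ 2) := by ring
          rw [this]
          have h3 : 0 ≤ (tt : ℝ) * S' ^ 2 := by positivity
          nlinarith
        linarith
    rw [le_div_iff₀ hs0]
    have h4 : (S' - S) * (tt * S') ≤ U * Y := by
      have h5 : (tt : ℝ) * S' ^ 2 - tt * S ^ 2 ≤ U * Y := by
        rw [← hrR, ← hrR']; exact hd
      have h6 : (S' - S) * (tt * S') ≤ tt * S' ^ 2 - tt * S ^ 2 := by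
        have : tt * S' ^ 2 - tt * S ^ 2 - (S' - S) * (tt * S') = tt * (S * (S' - S)) := by ring
        have h7 : 0 ≤ (tt : ℝ) * (S * (S' - S)) := by
          apply mul_nonneg (by linarith)
          apply mul_nonneg hS0
          linarith
        linarith
      linarith
    calc (S' - S) * Real.sqrt r0 ≤ (S' - S) * (tt * S') :=
          mul_le_mul_of_nonneg_left hsq (by linarith)
      _ ≤ U * Y := h4
  have hcard := Helper94.Abc.gap_card F (fun t => (pc 2 t.2.2 : ℝ)) (u := (pc 2 t0.2.2 : ℝ))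
    (v := (pc 2 t0.2.2 : ℝ) + U * Y / Real.sqrt r0) (G := (U : ℝ)) hUR
    (by have : 0 ≤ U * Y / Real.sqrt r0 := by positivity
        linarith) (by
      intro t ht
      constructor
      · exact_mod_cast hmin t ht
      · rcases Nat.lt_or_ge (pc 2 t0.2.2) (pc 2 t.2.2) with h | h
        · have := hdiff _ ht0 _ ht h
          linarith
        · have h1 : (pc 2 t.2.2 : ℝ) ≤ pc 2 t0.2.2 := by exact_mod_cast h
          have : 0 ≤ U * Y / Real.sqrt r0 := by positivity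
          linarith) (by
      intro t ht t' ht' htt'
      have h1 : (U : ℤ) ∣ (pc 2 t.2.2 : ℤ) - pc 2 t'.2.2 := by
        have h2 : pc 2 t'.2.2 ≡ pc 2 t.2.2 [MOD U] := hcl _ ht' _ ht
        exact Nat.modEq_iff_dvd.1 h2
      have h3 : (pc 2 t.2.2 : ℤ) - pc 2 t'.2.2 ≠ 0 := by
        intro h
        apply htt'
        have h4 : pc 2 t.2.2 = pc 2 t'.2.2 := by
          have : (pc 2 t.2.2 : ℤ) = pc 2 t'.2.2 := by linarith
          exact_mod_cast this
        obtain ⟨a1, a2, a3, a4, a5, a6⟩ := hF t ht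
        obtain ⟨b1, b2, b3, b4, b5, b6⟩ := hF t' ht'
        have hr := rest_mul_one a1.hr 2
        have hr' := rest_mul_one b1.hr 2
        have h5 : t.2.2 = t'.2.2 := by rw [hr, hr', a6, b6, h4]
        have h6 : t.1 = t'.1 := by
          rcases c2a_rel a1 b1 (a5.trans b5.symm) (hform _ ht _ ht') with h | h
          · rw [h5] at h; omega
          · rw [h5] at h; omega
        exact Prod.ext h6 (Prod.ext (a5.trans b5.symm) h5)
      have h4 : (U : ℤ) ≤ |(pc 2 t.2.2 : ℤ) - pc 2 t'.2.2| :=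
        Int.le_of_dvd (abs_pos.2 h3) ((dvd_abs _ _).2 h1)
      exact_mod_cast h4)
  have e1 : ((pc 2 t0.2.2 : ℝ) + U * Y / Real.sqrt r0 - pc 2 t0.2.2) / U =
      Y / Real.sqrt r0 := by
    field_simp
    ring
  rw [e1] at hcard
  exact hcard

theorem c2a_thm (hrp : RPStmt) : C2aStmt := by
  classical
  intro ε hε
  obtain ⟨C1, hC1, h1⟩ := hrp (ε / 2) (by positivity)
  obtain ⟨C2, hC2, h2⟩ := Helper26.Abc2.card_roots_int (j := 2) (by norm_num) (ε := ε / 2)
    (by positivity)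
  refine ⟨1 + C1 * C2 * 3, by nlinarith, ?_⟩
  intro X i x0 W Y r0 t1 TT hX hi hx0 hW hY hr0 ht1 hTT
  have hXR : (0 : ℝ) < X := by
    have : 0 < X := by omega
    exact_mod_cast this
  have hX1 : (1 : ℝ) ≤ X := by
    have : 1 ≤ X := by omega
    exact_mod_cast this
  have hs0 : 0 < Real.sqrt r0 := Real.sqrt_pos.2 (by linarith)
  set B : ℝ := 1 + Y / Real.sqrt r0 with hB
  have hB0 : 0 ≤ B := by
    have : 0 ≤ Y / Real.sqrt r0 := by positivity
    linarith
  have hWx : 0 ≤ W / x0 := by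
    apply div_nonneg <;> linarith
  set D : ℕ × ℕ × ℕ → (ℕ × ℕ) × (ℕ × ℕ) :=
    fun t => ((rest {i} t.1, t.2.1), (rest {2} t.2.2, c2a_form t)) with hD
  set I1 : Finset (ℕ × ℕ) := TT.image (fun t => (rest {i} t.1, t.2.1)) with hI1
  -- pairs (U, q)
  have hI1c : (I1.card : ℝ) ≤ C1 * (X : ℝ) ^ (ε / 2) * (W / x0) := by
    apply h1 X (W / x0) I1 (by omega) ((one_le_div (by linarith)).2 hW)
    intro s hs
    rw [hI1, mem_image] at hs
    obtain ⟨t, ht, rfl⟩ := hs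
    obtain ⟨a1, a2, a3, a4, a5, a6⟩ := hTT t ht
    refine ⟨rest_pos _ _, (rest_le a1.hp _).trans a1.pX, a1.hq, a1.qX, ?_⟩
    simp only
    rw [le_div_iff₀ (by linarith)]
    have e1 : (rad t.1 : ℝ) = rad (rest {i} t.1) * pc i t.1 := by
      exact_mod_cast rad_rest_mul_one i t.1
    rw [e1] at a6
    have e2 : (0 : ℝ) ≤ rad (rest {i} t.1) * rad t.2.1 := by positivity
    calc (rad (rest {i} t.1) : ℝ) * rad t.2.1 * x0
        ≤ (rad (rest {i} t.1) : ℝ) * rad t.2.1 * pc i t.1 := mul_le_mul_of_nonneg_left a4 e2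
      _ = rad (rest {i} t.1) * pc i t.1 * rad t.2.1 := by ring
      _ ≤ W := a6
  have hsub : TT.image D ⊆ I1 ×ˢ ((Finset.Icc 1 ⌊t1⌋₊) ×ˢ (Finset.range 3)) := by
    intro d hd
    rw [mem_image] at hd
    obtain ⟨t, ht, rfl⟩ := hd
    obtain ⟨a1, a2, a3, a4, a5, a6⟩ := hTT t ht
    rw [mem_product, mem_product, mem_Icc, mem_range]
    refine ⟨mem_image_of_mem _ ht, ⟨rest_pos _ _, ?_⟩, c2a_form_lt t⟩
    apply Nat.le_floor
    have hr := rest_mul_one a1.hr 2
    have hrR : (t.2.2 : ℝ) = rest {2} t.2.2 * (pc 2 t.2.2 : ℝ) ^ 2 := by exact_mod_cast hr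
    have hS : (0 : ℝ) < (pc 2 t.2.2 : ℝ) ^ 2 := by
      have : 0 < pc 2 t.2.2 := pc_pos _ _
      positivity
    have h3 : (rest {2} t.2.2 : ℝ) * (pc 2 t.2.2 : ℝ) ^ 2 ≤ t1 * (pc 2 t.2.2 : ℝ) ^ 2 := by
      rw [← hrR]; exact a3
    exact le_of_mul_le_mul_right h3 hS
  have himc : ((TT.image D).card : ℝ) ≤ C1 * (X : ℝ) ^ (ε / 2) * (W / x0) * (t1 * 3) := by
    have h3 : ((TT.image D).card : ℝ) ≤ (I1.card : ℝ) * ((⌊t1⌋₊ : ℝ) * 3) := by
      have h4 := card_le_card hsub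
      rw [card_product, card_product, Nat.card_Icc, card_range] at h4
      have h5 : ⌊t1⌋₊ + 1 - 1 = ⌊t1⌋₊ := by omega
      rw [h5] at h4
      exact_mod_cast h4
    have h6 : (⌊t1⌋₊ : ℝ) ≤ t1 := Nat.floor_le (by linarith)
    calc _ ≤ (I1.card : ℝ) * ((⌊t1⌋₊ : ℝ) * 3) := h3
      _ ≤ (C1 * (X : ℝ) ^ (ε / 2) * (W / x0)) * (t1 * 3) := by
        apply mul_le_mul hI1c (by linarith) (by positivity)
          (mul_nonneg (by positivity) hWx)
  -- fibres
  have hfib : ∀ d ∈ TT.image D, ((TT.filter (fun t => D t = d)).card : ℝ) ≤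
      C2 * (X : ℝ) ^ (ε / 2) * B := by
    intro d hd
    rw [mem_image] at hd
    obtain ⟨t0, ht0, rfl⟩ := hd
    obtain ⟨c1, c2, c3, c4, c5, c6⟩ := hTT t0 ht0
    set F := TT.filter (fun t => D t = D t0) with hF
    set U := rest {i} t0.1 with hU
    have hU0 : 0 < U := rest_pos _ _
    have hFd : ∀ t ∈ F, Tri X t.1 t.2.1 t.2.2 ∧ r0 ≤ (t.2.2 : ℝ) ∧ (pc i t.1 : ℝ) ^ i ≤ Y ∧
      rest {i} t.1 = U ∧ t.2.1 = t0.2.1 ∧ rest {2} t.2.2 = rest {2} t0.2.2 := by
      intro t ht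
      rw [hF, mem_filter] at ht
      obtain ⟨a1, a2, a3, a4, a5, a6⟩ := hTT t ht.1
      have h3 := ht.2
      simp only [hD, Prod.mk.injEq] at h3
      exact ⟨a1, a2, a5, h3.1.1, h3.1.2, h3.2.1⟩
    have hFf : ∀ t ∈ F, c2a_form t = c2a_form t0 := by
      intro t ht
      rw [hF, mem_filter] at ht
      have h3 := ht.2
      simp only [hD, Prod.mk.injEq] at h3
      exact h3.2.2
    have hUp : U ∣ t0.1 := rest_dvd c1.hp _
    have hcopS : Nat.Coprime (pc 2 t0.2.2) U :=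
      (Nat.Coprime.coprime_dvd_left (pc_dvd 2 t0.2.2) (c1.pr.symm)).coprime_dvd_right hUp
    have hcopt : Nat.Coprime (rest {2} t0.2.2) U :=
      (Nat.Coprime.coprime_dvd_left (rest_dvd c1.hr _) (c1.pr.symm)).coprime_dvd_right hUp
    have himg : ((F.image (fun t => pc 2 t.2.2 % U)).card : ℝ) ≤ C2 * (X : ℝ) ^ (ε / 2) := by
      have h3 := h2 U ((pc 2 t0.2.2 : ℤ) ^ 2) hU0 (by
        apply IsCoprime.pow_left
        exact Nat.isCoprime_iff_coprime.2 hcopS)
      have h4 : (F.image (fun t => pc 2 t.2.2 % U)).card ≤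
          ((range U).filter (fun x : ℕ => (U : ℤ) ∣ (x : ℤ) ^ 2 - (pc 2 t0.2.2 : ℤ) ^ 2)).card := by
        apply card_le_card
        intro x hx
        rw [mem_image] at hx
        obtain ⟨t, ht, rfl⟩ := hx
        rw [mem_filter, mem_range]
        refine ⟨Nat.mod_lt _ hU0, ?_⟩
        obtain ⟨a1, a2, a3, a4, a5, a6⟩ := hFd t ht
        have hrel := c2a_rel a1 c1 a5 (hFf t ht)
        have hUp' : U ∣ t.1 := by rw [← a4]; exact rest_dvd a1.hp _
        have h5 : (U : ℤ) ∣ (t.2.2 : ℤ) - t0.2.2 := by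
          have e1 : (U : ℤ) ∣ (t.1 : ℤ) := by exact_mod_cast hUp'
          have e2 : (U : ℤ) ∣ (t0.1 : ℤ) := by exact_mod_cast hUp
          rcases hrel with h | h
          · rw [h]; exact dvd_sub e1 e2
          · rw [h]; exact dvd_sub e2 e1
        have hr := rest_mul_one a1.hr 2
        have hr' := rest_mul_one c1.hr 2
        rw [a6] at hr
        have h6 : (t.2.2 : ℤ) - t0.2.2 = (rest {2} t0.2.2 : ℤ) *
            ((pc 2 t.2.2 : ℤ) ^ 2 - (pc 2 t0.2.2 : ℤ) ^ 2) := by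
          have e1 : (t.2.2 : ℤ) = (rest {2} t0.2.2 : ℤ) * (pc 2 t.2.2 : ℤ) ^ 2 := by
            exact_mod_cast hr
          have e2 : (t0.2.2 : ℤ) = (rest {2} t0.2.2 : ℤ) * (pc 2 t0.2.2 : ℤ) ^ 2 := by
            exact_mod_cast hr'
          rw [mul_sub, ← e1, ← e2]
        rw [h6] at h5
        have h7 : (U : ℤ) ∣ (pc 2 t.2.2 : ℤ) ^ 2 - (pc 2 t0.2.2 : ℤ) ^ 2 := by
          have e1 : IsCoprime (U : ℤ) (rest {2} t0.2.2 : ℤ) :=
            Nat.isCoprime_iff_coprime.2 hcopt.symm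
          exact e1.dvd_of_dvd_mul_left h5
        have h8 : (U : ℤ) ∣ ((pc 2 t.2.2 % U : ℕ) : ℤ) ^ 2 - (pc 2 t.2.2 : ℤ) ^ 2 := by
          have e1 : (pc 2 t.2.2 % U) ^ 2 ≡ (pc 2 t.2.2) ^ 2 [MOD U] := (Nat.mod_modEq _ _).pow 2
          have e2 := Nat.modEq_iff_dvd.1 e1.symm
          push_cast at e2 ⊢
          exact e2
        have h9 := dvd_add h8 h7
        rwa [sub_add_sub_cancel] at h9
      have hUX : (U : ℝ) ≤ X := by
        have : U ≤ X := (rest_le c1.hp _).trans c1.pX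
        exact_mod_cast this
      have h5 : (U : ℝ) ^ (ε / 2) ≤ (X : ℝ) ^ (ε / 2) :=
        Real.rpow_le_rpow (Nat.cast_nonneg _) hUX (by positivity)
      calc _ ≤ _ := (Nat.cast_le (α := ℝ)).2 h4
        _ ≤ C2 * (U : ℝ) ^ (ε / 2) := h3
        _ ≤ C2 * (X : ℝ) ^ (ε / 2) := mul_le_mul_of_nonneg_left h5 hC2.le
    rw [card_eq_sum_card_image (fun t => pc 2 t.2.2 % U) F]
    push_cast
    calc _ ≤ ∑ _x ∈ F.image (fun t => pc 2 t.2.2 % U), B := by
          apply sum_le_sum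
          intro x hx
          apply c2a_class (X := X) (U := U) (q := t0.2.1) (tt := rest {2} t0.2.2) i hU0 hY hr0
          · intro t ht
            exact hFd t (mem_filter.1 ht).1
          · intro t ht t' ht'
            rw [hFf t (mem_filter.1 ht).1, hFf t' (mem_filter.1 ht').1]
          · intro t ht t' ht'
            exact (mem_filter.1 ht).2.trans (mem_filter.1 ht').2.symm
      _ = (F.image (fun t => pc 2 t.2.2 % U)).card * B := by rw [sum_const, nsmul_eq_mul]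
      _ ≤ C2 * (X : ℝ) ^ (ε / 2) * B := mul_le_mul_of_nonneg_right himg hB0
  rw [card_eq_sum_card_image D TT]
  push_cast
  calc _ ≤ ∑ _d ∈ TT.image D, C2 * (X : ℝ) ^ (ε / 2) * B := sum_le_sum hfib
    _ = (TT.image D).card * (C2 * (X : ℝ) ^ (ε / 2) * B) := by rw [sum_const, nsmul_eq_mul]
    _ ≤ (C1 * (X : ℝ) ^ (ε / 2) * (W / x0) * (t1 * 3)) * (C2 * (X : ℝ) ^ (ε / 2) * B) :=
        mul_le_mul_of_nonneg_right himc (by positivity)
    _ = C1 * C2 * 3 * ((X : ℝ) ^ (ε / 2) * (X : ℝ) ^ (ε / 2)) * t1 * (W / x0) * B := by ring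
    _ = C1 * C2 * 3 * (X : ℝ) ^ ε * t1 * (W / x0) * B := by
        rw [← Real.rpow_add hXR]
        congr 5
        ring
    _ ≤ (1 + C1 * C2 * 3) * (X : ℝ) ^ ε * t1 * (W / x0) * B := by
        have h3 : 0 ≤ (X : ℝ) ^ ε * t1 * (W / x0) * B := by positivity
        nlinarith

end Pool.Agent.Helper21.EN
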