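import Pool.Agent.Helper21.EN.Stmts
import Pool.Agent.Helper21.EN.Dec
import Pool.Agent.Helper1.SR.St.PFC

set_option autoImplicit false

/-!
# Project EN, piece C2p

The statement is in EN/Stmts.lean. Paper: /team-store/EN_paper.md.

Proof. t = (p,q,r). Decomposition EN/Dec.lean (rest_mul_one, rad_rest_mul_one): r = tt S^2 (tt <= t1), p = P0 x^(2h) = P0 z^2 with z = x^h, P0 = rest {2h} p, rad P0 rad q <= Y: at most C X^eps Y pairs (P0,q) (hrp), at most t1 values of tt. Fix them and the form of Tri.rel. Claim: at most C X^eps pairs (z,S) (z determines x). z, S coprime, coprime to q,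
P0, tt coprime to q.
(i) p + r = q, or q + r = p with 4 q >= p: P0 z^2 = +- tt S^2 modulo q, z, S <= 2 sqrt q: hdir with m = q, j = 2, c = +- tt/P0 modulo q: C X^eps (1 + 4q/q).
(ii) p + q = r, or q + r = p with 4 q < p: then p <= (4/3) r. Dyadic boxes A0 <= z <= A1 = 2A0, B0 <= S <= B1 = 2 B0 (log^2 X of them, A0 >= 1, B0 >= 1) and Pool.Agent.Helper1.SR.pair_fiber_close with j = 2, m = q, u = P0, v = tt, c1 = P0, c2 = tt, N = tt B0^2, Delta = q: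
C q^eps (1 + 2 q B1^2 A1^3/(N A0^2 B0 q)) = C q^eps (1 + const A0/(tt B0)) and A0 <= 3 tt B0 when the box contains a point.
-/

namespace Pool.Agent.Helper21.EN

open Finset

/-- Pairs with a quadratic congruence modulo `q`, up to `2 √q`. -/
private lemma c2p_dir (hdir : DIRStmt) {ε : ℝ} (hε : 0 < ε) : ∃ C : ℝ, 1 ≤ C ∧
    ∀ (q P0 tt : ℕ) (σ : ZMod q) (F : Finset (ℕ × ℕ)), 0 < q → Nat.Coprime P0 q →
      Nat.Coprime tt q → IsUnit σ →
      (∀ s ∈ F, 0 < s.1 ∧ 0 < s.2 ∧ (s.1 : ℝ) ≤ 2 * Real.sqrt q ∧ (s.2 : ℝ) ≤ 2 * Real.sqrt q ∧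
        Nat.Coprime s.1 s.2 ∧ Nat.Coprime s.1 q ∧ Nat.Coprime s.2 q ∧
        (P0 : ZMod q) * (s.1 : ZMod q) ^ 2 = σ * tt * (s.2 : ZMod q) ^ 2) →
      (F.card : ℝ) ≤ C * (q : ℝ) ^ ε := by
  obtain ⟨C, hC1, hC⟩ := hdir (ε / 2) (by linarith)
  have h4 : (1 : ℝ) ≤ (4 : ℝ) ^ (ε / 2) := Real.one_le_rpow (by norm_num) (by linarith)
  refine ⟨C * (4 : ℝ) ^ (ε / 2) * 5, by nlinarith, ?_⟩
  intro q P0 tt σ F hq hP0 htt hσ hF
  have : NeZero q := ⟨hq.ne'⟩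
  have hqR : (1 : ℝ) ≤ q := by exact_mod_cast hq
  have hq0 : (0 : ℝ) < q := by linarith
  have hsq : 1 ≤ Real.sqrt q := by rw [Real.one_le_sqrt]; exact hqR
  have hP0u : IsUnit (P0 : ZMod q) := (ZMod.isUnit_iff_coprime P0 q).2 hP0
  have httu : IsUnit (tt : ZMod q) := (ZMod.isUnit_iff_coprime tt q).2 htt
  obtain ⟨v, hv⟩ := hP0u.exists_left_inv
  have hvu : IsUnit v := IsUnit.of_mul_eq_one _ hv
  set a : ZMod q := v * (σ * tt) with ha
  have hau : IsUnit a := hvu.mul (hσ.mul httu)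
  have hcast : ((a.val : ℕ) : ZMod q) = a := ZMod.natCast_zmod_val a
  have hcop : Nat.Coprime a.val q := by
    rw [← ZMod.isUnit_iff_coprime, hcast]; exact hau
  have h1 := hC 2 q a.val (2 * Real.sqrt q) (2 * Real.sqrt q) F (by norm_num) (by norm_num) hq
    hcop (by linarith) (by linarith) (by
      intro s hs
      obtain ⟨h1, h2, h3, h4, h5, h6, h7, h8⟩ := hF s hs
      refine ⟨h1, h2, h3, h4, h5, h6, h7, ?_⟩
      rw [← ZMod.natCast_eq_natCast_iff]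
      push_cast
      rw [hcast, ha]
      calc (s.1 : ZMod q) ^ 2 = (v * P0) * (s.1 : ZMod q) ^ 2 := by rw [hv, one_mul]
        _ = v * ((P0 : ZMod q) * (s.1 : ZMod q) ^ 2) := by ring
        _ = v * (σ * tt * (s.2 : ZMod q) ^ 2) := by rw [h8]
        _ = _ := by ring)
  have hss : Real.sqrt q * Real.sqrt q = q := Real.mul_self_sqrt hq0.le
  have e1 : 2 * Real.sqrt q * (2 * Real.sqrt q) / (q : ℝ) = 4 := by
    rw [div_eq_iff hq0.ne']; linear_combination 4 * hss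
  have e2 : (q : ℝ) * (2 * Real.sqrt q) * (2 * Real.sqrt q) = 4 * (q : ℝ) ^ (2 : ℕ) := by
    linear_combination 4 * (q : ℝ) * hss
  have e3 : (4 * (q : ℝ) ^ (2 : ℕ)) ^ (ε / 2) = (4 : ℝ) ^ (ε / 2) * (q : ℝ) ^ ε := by
    rw [Real.mul_rpow (by norm_num) (by positivity), ← Real.rpow_natCast_mul hq0.le]
    congr 2
    push_cast
    ring
  rw [e1, e2, e3] at h1
  linarith

/-- One dyadic box. -/
private lemma c2p_box {ε : ℝ} (hε : 0 < ε) : ∃ C : ℝ, 1 ≤ C ∧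
    ∀ (q P0 tt a b : ℕ) (F : Finset (ℕ × ℕ)), 0 < q → 0 < P0 → 0 < tt → Nat.Coprime P0 q →
      Nat.Coprime tt q →
      (∀ s ∈ F, 0 < s.1 ∧ 0 < s.2 ∧ Nat.Coprime s.1 s.2 ∧ Nat.Coprime s.1 q ∧
        Nat.Coprime s.2 q ∧ 2 ^ a ≤ s.1 ∧ s.1 < 2 ^ (a + 1) ∧ 2 ^ b ≤ s.2 ∧ s.2 < 2 ^ (b + 1) ∧
        (P0 * s.1 ^ 2 + q = tt * s.2 ^ 2 ∨
          (q + tt * s.2 ^ 2 = P0 * s.1 ^ 2 ∧ 4 * q < P0 * s.1 ^ 2))) →
      (F.card : ℝ) ≤ C * (q : ℝ) ^ ε := by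
  obtain ⟨C, hC0, hC⟩ := Pool.Agent.Helper1.SR.pair_fiber_close 2 (by norm_num) ε hε
  refine ⟨(C + 1) * 193, by linarith, ?_⟩
  intro q P0 tt a b F hq hP0 htt hcP hct hF
  have hqR : (1 : ℝ) ≤ q := by exact_mod_cast hq
  have hq0 : (0 : ℝ) < q := by linarith
  have hqe : 0 < (q : ℝ) ^ ε := Real.rpow_pos_of_pos hq0 ε
  rcases F.eq_empty_or_nonempty with h0 | ⟨s0, hs0⟩
  · rw [h0]; simp only [Finset.card_empty, Nat.cast_zero]; positivity
  have hP0R : (1 : ℝ) ≤ P0 := by exact_mod_cast hP0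
  have httR : (1 : ℝ) ≤ tt := by exact_mod_cast htt
  set A : ℝ := 2 ^ a with hA
  set B : ℝ := 2 ^ b with hB
  have hA1 : 1 ≤ A := one_le_pow₀ (by norm_num)
  have hB1 : 1 ≤ B := one_le_pow₀ (by norm_num)
  have hbox : ∀ s ∈ F, A ≤ (s.1 : ℝ) ∧ (s.1 : ℝ) ≤ 2 * A ∧ B ≤ (s.2 : ℝ) ∧
      (s.2 : ℝ) ≤ 2 * B := by
    intro s hs
    obtain ⟨-, -, -, -, -, h6, h7, h8, h9, -⟩ := hF s hs
    have e6 : ((2 ^ a : ℕ) : ℝ) ≤ s.1 := by exact_mod_cast h6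
    have e7 : (s.1 : ℝ) < ((2 ^ (a + 1) : ℕ) : ℝ) := by exact_mod_cast h7
    have e8 : ((2 ^ b : ℕ) : ℝ) ≤ s.2 := by exact_mod_cast h8
    have e9 : (s.2 : ℝ) < ((2 ^ (b + 1) : ℕ) : ℝ) := by exact_mod_cast h9
    push_cast at e6 e7 e8 e9
    rw [pow_succ] at e7 e9
    refine ⟨e6, ?_, e8, ?_⟩
    · rw [hA]; linarith
    · rw [hB]; linarith
  -- the shape of the box
  have hshape : A ≤ 3 * (tt * B) := by
    obtain ⟨h1, h2, -, -, -, -, -, -, -, hrel⟩ := hF s0 hs0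
    obtain ⟨b1, b2, b3, b4⟩ := hbox s0 hs0
    have hpr : (P0 : ℝ) * (s0.1 : ℝ) ^ 2 ≤ 4 / 3 * (tt * (s0.2 : ℝ) ^ 2) := by
      rcases hrel with h | ⟨h, h'⟩
      · have h3 : (P0 : ℝ) * (s0.1 : ℝ) ^ 2 + q = tt * (s0.2 : ℝ) ^ 2 := by exact_mod_cast h
        have h4 : (0 : ℝ) ≤ P0 * (s0.1 : ℝ) ^ 2 := by positivity
        linarith
      · have h3 : (q : ℝ) + tt * (s0.2 : ℝ) ^ 2 = P0 * (s0.1 : ℝ) ^ 2 := by exact_mod_cast h
        have h4 : 4 * (q : ℝ) < P0 * (s0.1 : ℝ) ^ 2 := by exact_mod_cast h'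
        linarith
    have h3 : A ^ 2 ≤ (s0.1 : ℝ) ^ 2 := pow_le_pow_left₀ (by linarith) b1 2
    have h4 : (s0.2 : ℝ) ^ 2 ≤ (2 * B) ^ 2 := pow_le_pow_left₀ (by positivity) b4 2
    have h5 : (s0.1 : ℝ) ^ 2 ≤ P0 * (s0.1 : ℝ) ^ 2 := by nlinarith [sq_nonneg (s0.1 : ℝ)]
    have h6 : (tt : ℝ) * (s0.2 : ℝ) ^ 2 ≤ tt * (2 * B) ^ 2 :=
      mul_le_mul_of_nonneg_left h4 (by linarith)
    have h7 : (tt : ℝ) * B ^ 2 ≤ (tt * B) ^ 2 := by
      have : (tt : ℝ) * B ^ 2 * 1 ≤ tt * B ^ 2 * tt :=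
        mul_le_mul_of_nonneg_left httR (by positivity)
      calc (tt : ℝ) * B ^ 2 = tt * B ^ 2 * 1 := by ring
        _ ≤ tt * B ^ 2 * tt := this
        _ = _ := by ring
    have h8 : A ^ 2 ≤ (3 * (tt * B)) ^ 2 := by nlinarith
    exact le_of_sq_le_sq h8 (by positivity)
  have hcP' : IsCoprime (P0 : ℤ) (q : ℤ) := Nat.isCoprime_iff_coprime.2 hcP
  have hct' : IsCoprime (tt : ℤ) (q : ℤ) := Nat.isCoprime_iff_coprime.2 hct
  have h1 := hC q P0 tt A (2 * A) B (2 * B) P0 tt (tt * B ^ 2) q F hq hcP' hct' hA1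
    (by linarith) hB1 (by linarith) (by linarith) (by linarith) (by positivity) hq0.le (by
      intro s hs
      obtain ⟨h1, h2, h3, h4, h5, -, -, -, -, hrel⟩ := hF s hs
      obtain ⟨b1, b2, b3, b4⟩ := hbox s hs
      refine ⟨h1, h2, h3, h4, h5, b1, b2, b3, b4, ?_, ?_, ?_⟩
      · exact mul_le_mul_of_nonneg_left (pow_le_pow_left₀ (by linarith) b3 2) (by linarith)
      · rcases hrel with h | ⟨h, -⟩
        · have h3 : (P0 : ℝ) * (s.1 : ℝ) ^ 2 + q = tt * (s.2 : ℝ) ^ 2 := by exact_mod_cast h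
          rw [abs_le]
          constructor <;> linarith
        · have h3 : (q : ℝ) + tt * (s.2 : ℝ) ^ 2 = P0 * (s.1 : ℝ) ^ 2 := by exact_mod_cast h
          rw [abs_le]
          constructor <;> linarith
      · rcases hrel with h | ⟨h, -⟩
        · have h3 : (P0 : ℤ) * (s.1 : ℤ) ^ 2 + q = tt * (s.2 : ℤ) ^ 2 := by exact_mod_cast h
          exact ⟨-1, by linarith⟩
        · have h3 : (q : ℤ) + tt * (s.2 : ℤ) ^ 2 = P0 * (s.1 : ℤ) ^ 2 := by exact_mod_cast h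
          exact ⟨1, by linarith⟩)
  have hApos : 0 < A := by linarith
  have hBpos : 0 < B := by linarith
  have httpos : (0 : ℝ) < tt := by linarith
  have e1 : 2 * (q : ℝ) * ((2 * B) ^ 2 * (2 * A) ^ (2 + 1)) /
      (tt * B ^ 2 * (A ^ 2 * B ^ (2 - 1)) * q) = 64 * (A / (tt * B)) := by
    field_simp
    ring
  rw [e1] at h1
  have e2 : A / (tt * B) ≤ 3 := by
    rw [div_le_iff₀ (by positivity)]; exact hshape
  have e3 : C * (q : ℝ) ^ ε * (1 + 64 * (A / (tt * B))) ≤ C * (q : ℝ) ^ ε * 193 :=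
    mul_le_mul_of_nonneg_left (by linarith) (by positivity)
  calc (F.card : ℝ) ≤ _ := h1
    _ ≤ _ := e3
    _ ≤ (C + 1) * 193 * (q : ℝ) ^ ε := by nlinarith

/-- Powers of the number of dyadic boxes are small. -/
private lemma c2p_log {ε : ℝ} (hε : 0 < ε) : ∃ C : ℝ, 1 ≤ C ∧ ∀ X : ℕ, 2 ≤ X →
    (((Nat.log 2 X + 1) * (Nat.log 2 X + 1) : ℕ) : ℝ) ≤ C * (X : ℝ) ^ ε := by
  have hl2 : 0 < Real.log 2 := Real.log_pos (by norm_num)
  refine ⟨(2 / Real.log 2 / (ε / 2)) ^ 2 + 1, by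
    have : 0 ≤ (2 / Real.log 2 / (ε / 2)) ^ 2 := by positivity
    linarith, ?_⟩
  intro X hX
  have hXR : (2 : ℝ) ≤ X := by exact_mod_cast hX
  have hX0 : (0 : ℝ) < X := by linarith
  have h1 : (Nat.log 2 X : ℝ) ≤ Real.log X / Real.log 2 := by
    rw [le_div_iff₀ hl2]
    have h2 : (2 : ℝ) ^ (Nat.log 2 X) ≤ X := by
      exact_mod_cast Nat.pow_log_le_self 2 (by omega : X ≠ 0)
    have h3 := Real.log_le_log (by positivity) h2
    rwa [Real.log_pow] at h3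
  have h2 : 1 ≤ Real.log X / Real.log 2 := by
    rw [le_div_iff₀ hl2, one_mul]
    exact Real.log_le_log (by norm_num) hXR
  have h3 : (Nat.log 2 X : ℝ) + 1 ≤ 2 / Real.log 2 * Real.log X := by
    have : 2 / Real.log 2 * Real.log X = 2 * (Real.log X / Real.log 2) := by ring
    rw [this]; linarith
  have h4 : Real.log X ≤ (X : ℝ) ^ (ε / 2) / (ε / 2) :=
    Real.log_le_rpow_div hX0.le (by linarith)
  have h5 : (Nat.log 2 X : ℝ) + 1 ≤ 2 / Real.log 2 / (ε / 2) * (X : ℝ) ^ (ε / 2) := by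
    refine h3.trans ((mul_le_mul_of_nonneg_left h4 (by positivity)).trans (le_of_eq ?_))
    ring
  have h6 : ((Nat.log 2 X : ℝ) + 1) ^ 2 ≤
      (2 / Real.log 2 / (ε / 2) * (X : ℝ) ^ (ε / 2)) ^ 2 := pow_le_pow_left₀ (by positivity) h5 2
  have h7 : ((X : ℝ) ^ (ε / 2)) ^ 2 = (X : ℝ) ^ ε := by
    rw [← Real.rpow_natCast, ← Real.rpow_mul hX0.le]
    congr 1
    push_cast
    ring
  have h8 : 0 < (X : ℝ) ^ ε := Real.rpow_pos_of_pos hX0 ε
  push_cast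
  rw [mul_pow, h7] at h6
  nlinarith

/-- The pairs `(z, S)`. -/
private lemma c2p_fiber (hdir : DIRStmt) {ε : ℝ} (hε : 0 < ε) : ∃ C : ℝ, 1 ≤ C ∧
    ∀ (X q P0 tt : ℕ) (F : Finset (ℕ × ℕ)), 2 ≤ X → 0 < q → q ≤ X → 0 < P0 → 0 < tt →
      Nat.Coprime P0 q → Nat.Coprime tt q →
      (∀ s ∈ F, 0 < s.1 ∧ 0 < s.2 ∧ Nat.Coprime s.1 s.2 ∧ Nat.Coprime s.1 q ∧
        Nat.Coprime s.2 q ∧ P0 * s.1 ^ 2 ≤ X ∧ tt * s.2 ^ 2 ≤ X ∧
        (P0 * s.1 ^ 2 + q = tt * s.2 ^ 2 ∨ q + tt * s.2 ^ 2 = P0 * s.1 ^ 2 ∨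
          P0 * s.1 ^ 2 + tt * s.2 ^ 2 = q)) →
      (F.card : ℝ) ≤ C * (X : ℝ) ^ ε := by
  classical
  obtain ⟨C1, hC1, hD⟩ := c2p_dir hdir (ε := ε / 2) (by linarith)
  obtain ⟨C2, hC2, hB⟩ := c2p_box (ε := ε / 2) (by linarith)
  obtain ⟨C3, hC3, hL⟩ := c2p_log (ε := ε / 2) (by linarith)
  refine ⟨2 * C1 + C2 * C3, by nlinarith, ?_⟩
  intro X q P0 tt F hX hq hqX hP0 htt hcP hct hF
  have hXR : (2 : ℝ) ≤ X := by exact_mod_cast hX
  have hX0 : (0 : ℝ) < X := by linarith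
  have hqR : (1 : ℝ) ≤ q := by exact_mod_cast hq
  have hq0 : (0 : ℝ) < q := by linarith
  have hqXR : (q : ℝ) ≤ X := by exact_mod_cast hqX
  have hqe : (q : ℝ) ^ (ε / 2) ≤ (X : ℝ) ^ (ε / 2) :=
    Real.rpow_le_rpow hq0.le hqXR (by linarith)
  have hXe1 : (X : ℝ) ^ (ε / 2) ≤ (X : ℝ) ^ ε :=
    Real.rpow_le_rpow_of_exponent_le (by linarith) (by linarith)
  have hXe2 : (X : ℝ) ^ (ε / 2) * (X : ℝ) ^ (ε / 2) = (X : ℝ) ^ ε := by
    rw [← Real.rpow_add hX0]; congr 1; ring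
  have hXe0 : 0 < (X : ℝ) ^ (ε / 2) := Real.rpow_pos_of_pos hX0 _
  -- the three parts
  set F3 := F.filter (fun s => P0 * s.1 ^ 2 + tt * s.2 ^ 2 = q) with hF3
  set F2 := F.filter (fun s => q + tt * s.2 ^ 2 = P0 * s.1 ^ 2 ∧ P0 * s.1 ^ 2 ≤ 4 * q) with hF2
  set F1 := F.filter (fun s => P0 * s.1 ^ 2 + q = tt * s.2 ^ 2 ∨
    (q + tt * s.2 ^ 2 = P0 * s.1 ^ 2 ∧ 4 * q < P0 * s.1 ^ 2)) with hF1
  have hsub : F ⊆ F3 ∪ (F2 ∪ F1) := by
    intro s hs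
    obtain ⟨-, -, -, -, -, -, -, hrel⟩ := hF s hs
    rw [Finset.mem_union, Finset.mem_union, hF3, hF2, hF1, Finset.mem_filter, Finset.mem_filter,
      Finset.mem_filter]
    rcases hrel with h | h | h
    · exact Or.inr (Or.inr ⟨hs, Or.inl h⟩)
    · rcases le_or_gt (P0 * s.1 ^ 2) (4 * q) with h' | h'
      · exact Or.inr (Or.inl ⟨hs, h, h'⟩)
      · exact Or.inr (Or.inr ⟨hs, Or.inr ⟨h, h'⟩⟩)
    · exact Or.inl ⟨hs, h⟩
  have hcard : (F.card : ℝ) ≤ F3.card + (F2.card + F1.card) := by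
    have h1 := Finset.card_le_card hsub
    have h2 := Finset.card_union_le F3 (F2 ∪ F1)
    have h3 := Finset.card_union_le F2 F1
    have h4 : F.card ≤ F3.card + (F2.card + F1.card) := by omega
    exact_mod_cast h4
  -- square roots
  have hroot : ∀ c z : ℕ, 0 < c → c * z ^ 2 ≤ 4 * q → (z : ℝ) ≤ 2 * Real.sqrt q := by
    intro c z hc hz
    have h1 : z ^ 2 ≤ 4 * q := le_trans (Nat.le_mul_of_pos_left _ hc) hz
    have h2 : (z : ℝ) ^ 2 ≤ 4 * q := by exact_mod_cast h1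
    have h3 : (z : ℝ) ^ 2 ≤ (2 * Real.sqrt q) ^ 2 := by
      rw [mul_pow, Real.sq_sqrt hq0.le]; linarith
    exact le_of_sq_le_sq h3 (by positivity)
  have b3 : (F3.card : ℝ) ≤ C1 * (q : ℝ) ^ (ε / 2) := by
    apply hD q P0 tt (-1) F3 hq hcP hct (isUnit_one.neg)
    intro s hs
    rw [hF3, Finset.mem_filter] at hs
    obtain ⟨hs, hrel⟩ := hs
    obtain ⟨h1, h2, h3, h4, h5, -, -, -⟩ := hF s hs
    refine ⟨h1, h2, hroot P0 s.1 hP0 (by omega), hroot tt s.2 htt (by omega), h3, h4, h5, ?_⟩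
    have h6 : ((P0 * s.1 ^ 2 + tt * s.2 ^ 2 : ℕ) : ZMod q) = ((q : ℕ) : ZMod q) := by rw [hrel]
    rw [ZMod.natCast_self] at h6
    push_cast at h6
    linear_combination h6
  have b2 : (F2.card : ℝ) ≤ C1 * (q : ℝ) ^ (ε / 2) := by
    apply hD q P0 tt 1 F2 hq hcP hct isUnit_one
    intro s hs
    rw [hF2, Finset.mem_filter] at hs
    obtain ⟨hs, hrel, hle⟩ := hs
    obtain ⟨h1, h2, h3, h4, h5, -, -, -⟩ := hF s hs
    refine ⟨h1, h2, hroot P0 s.1 hP0 (by omega), hroot tt s.2 htt (by omega), h3, h4, h5, ?_⟩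
    have h6 : ((q + tt * s.2 ^ 2 : ℕ) : ZMod q) = ((P0 * s.1 ^ 2 : ℕ) : ZMod q) := by rw [hrel]
    push_cast at h6
    rw [ZMod.natCast_self] at h6
    linear_combination -h6
  have b1 : (F1.card : ℝ) ≤ C2 * (q : ℝ) ^ (ε / 2) * (C3 * (X : ℝ) ^ (ε / 2)) := by
    set L := Nat.log 2 X + 1 with hLdef
    set g : ℕ × ℕ → ℕ × ℕ := fun s => (Nat.log 2 s.1, Nat.log 2 s.2) with hg
    have hmaps : ∀ s ∈ F1, g s ∈ Finset.range L ×ˢ Finset.range L := by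
      intro s hs
      rw [hF1, Finset.mem_filter] at hs
      obtain ⟨h1, h2, -, -, -, h6, h7, -⟩ := hF s hs.1
      rw [Finset.mem_product, Finset.mem_range, Finset.mem_range]
      have h8 : s.1 ≤ X := by
        have : s.1 ≤ s.1 ^ 2 := Nat.le_self_pow (by norm_num) _
        exact this.trans ((Nat.le_mul_of_pos_left _ hP0).trans h6)
      have h9 : s.2 ≤ X := by
        have : s.2 ≤ s.2 ^ 2 := Nat.le_self_pow (by norm_num) _
        exact this.trans ((Nat.le_mul_of_pos_left _ htt).trans h7)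
      have h10 : Nat.log 2 s.1 ≤ Nat.log 2 X := Nat.log_mono_right h8
      have h11 : Nat.log 2 s.2 ≤ Nat.log 2 X := Nat.log_mono_right h9
      refine ⟨?_, ?_⟩
      · change Nat.log 2 s.1 < L
        omega
      · change Nat.log 2 s.2 < L
        omega
    rw [Finset.card_eq_sum_card_fiberwise hmaps]
    push_cast
    have hfib : ∀ b ∈ Finset.range L ×ˢ Finset.range L,
        ((F1.filter (fun s => g s = b)).card : ℝ) ≤ C2 * (q : ℝ) ^ (ε / 2) := by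
      intro b _
      apply hB q P0 tt b.1 b.2 _ hq hP0 htt hcP hct
      intro s hs
      rw [Finset.mem_filter, hF1, Finset.mem_filter] at hs
      obtain ⟨⟨hs, hrel⟩, hgb⟩ := hs
      obtain ⟨h1, h2, h3, h4, h5, -, -, -⟩ := hF s hs
      have e1' : (g s).1 = b.1 := by rw [hgb]
      have e2' : (g s).2 = b.2 := by rw [hgb]
      have e1 : Nat.log 2 s.1 = b.1 := e1'
      have e2 : Nat.log 2 s.2 = b.2 := e2'
      refine ⟨h1, h2, h3, h4, h5, ?_, ?_, ?_, ?_, hrel⟩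
      · rw [← e1]; exact Nat.pow_log_le_self 2 h1.ne'
      · rw [← e1]; exact Nat.lt_pow_succ_log_self (by norm_num) _
      · rw [← e2]; exact Nat.pow_log_le_self 2 h2.ne'
      · rw [← e2]; exact Nat.lt_pow_succ_log_self (by norm_num) _
    refine (Finset.sum_le_sum hfib).trans ?_
    rw [Finset.sum_const, Finset.card_product, Finset.card_range, nsmul_eq_mul, mul_comm]
    exact mul_le_mul_of_nonneg_left (hL X hX) (by positivity)
  have hb1' : C2 * (q : ℝ) ^ (ε / 2) * (C3 * (X : ℝ) ^ (ε / 2)) ≤ C2 * C3 * (X : ℝ) ^ ε := by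
    rw [← hXe2]
    have h1 : C2 * (q : ℝ) ^ (ε / 2) ≤ C2 * (X : ℝ) ^ (ε / 2) :=
      mul_le_mul_of_nonneg_left hqe (by linarith)
    calc C2 * (q : ℝ) ^ (ε / 2) * (C3 * (X : ℝ) ^ (ε / 2))
        ≤ C2 * (X : ℝ) ^ (ε / 2) * (C3 * (X : ℝ) ^ (ε / 2)) :=
          mul_le_mul_of_nonneg_right h1 (by positivity)
      _ = _ := by ring
  have hb3' : C1 * (q : ℝ) ^ (ε / 2) ≤ C1 * (X : ℝ) ^ ε :=
    mul_le_mul_of_nonneg_left (hqe.trans hXe1) (by linarith)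
  calc (F.card : ℝ) ≤ _ := hcard
    _ ≤ C1 * (X : ℝ) ^ ε + (C1 * (X : ℝ) ^ ε + C2 * C3 * (X : ℝ) ^ ε) := by linarith
    _ = _ := by ring

theorem c2p_thm (hdir : DIRStmt) (hrp : RPStmt) : C2pStmt := by
  classical
  intro ε hε
  obtain ⟨C1, hC1, hR⟩ := hrp (ε / 2) (by linarith)
  obtain ⟨C2, hC2, hF⟩ := c2p_fiber hdir (ε := ε / 2) (by linarith)
  refine ⟨C1 * C2, by nlinarith, ?_⟩
  intro X h Y t1 TT hX hh hY ht1 hTT
  have hXR : (2 : ℝ) ≤ X := by exact_mod_cast hX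
  have hX0 : (0 : ℝ) < X := by linarith
  have hXe2 : (X : ℝ) ^ (ε / 2) * (X : ℝ) ^ (ε / 2) = (X : ℝ) ^ ε := by
    rw [← Real.rpow_add hX0]; congr 1; ring
  set f : ℕ × ℕ × ℕ → ℕ × ℕ := fun t => (rest {2 * h} t.1, t.2.1) with hf
  set g : ℕ × ℕ × ℕ → (ℕ × ℕ) × ℕ := fun t => (f t, rest {2} t.2.2) with hg
  set AA := TT.image f with hAA
  have hmaps : ∀ t ∈ TT, g t ∈ AA ×ˢ Finset.Icc 1 ⌊t1⌋₊ := by
    intro t ht
    obtain ⟨htri, hr, -⟩ := hTT t ht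
    rw [Finset.mem_product, Finset.mem_Icc]
    refine ⟨Finset.mem_image_of_mem f ht, rest_pos _ _, ?_⟩
    apply Nat.le_floor
    have h1 := rest_mul_one htri.hr 2
    have h2 : (0 : ℝ) < (pc 2 t.2.2 : ℝ) ^ 2 := by
      have : (0 : ℝ) < pc 2 t.2.2 := by exact_mod_cast pc_pos 2 t.2.2
      positivity
    have h3 : (t.2.2 : ℝ) = (rest {2} t.2.2 : ℝ) * (pc 2 t.2.2 : ℝ) ^ 2 := by exact_mod_cast h1
    rw [h3] at hr
    exact le_of_mul_le_mul_right hr h2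
  have hAAcard : (AA.card : ℝ) ≤ C1 * (X : ℝ) ^ (ε / 2) * Y := by
    apply hR X Y AA (by omega) hY
    intro s hs
    rw [hAA, Finset.mem_image] at hs
    obtain ⟨t, ht, rfl⟩ := hs
    obtain ⟨htri, -, hrad⟩ := hTT t ht
    refine ⟨rest_pos _ _, (rest_le htri.hp _).trans htri.pX, htri.hq, htri.qX, ?_⟩
    have h1 := rad_rest_mul_one (2 * h) t.1
    have h2 : (rad t.1 : ℝ) = (rad (rest {2 * h} t.1) : ℝ) * (pc (2 * h) t.1 : ℝ) := by
      exact_mod_cast h1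
    have h3 : (0 : ℝ) < pc (2 * h) t.1 := by exact_mod_cast pc_pos _ _
    rw [h2] at hrad
    have h4 : (rad (rest {2 * h} t.1) : ℝ) * (rad t.2.1) * pc (2 * h) t.1 ≤
        Y * pc (2 * h) t.1 := by
      calc _ = (rad (rest {2 * h} t.1) : ℝ) * (pc (2 * h) t.1 : ℝ) * rad t.2.1 := by ring
        _ ≤ _ := hrad
    exact le_of_mul_le_mul_right h4 h3
  have hfib : ∀ b ∈ AA ×ˢ Finset.Icc 1 ⌊t1⌋₊,
      ((TT.filter (fun t => g t = b)).card : ℝ) ≤ C2 * (X : ℝ) ^ (ε / 2) := by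
    intro b _
    rcases (TT.filter (fun t => g t = b)).eq_empty_or_nonempty with h0 | ⟨t0, ht0⟩
    · rw [h0]
      simp only [Finset.card_empty, Nat.cast_zero]
      positivity
    rw [Finset.mem_filter] at ht0
    obtain ⟨ht0, hgb⟩ := ht0
    obtain ⟨htri0, -, -⟩ := hTT t0 ht0
    have hb11 : rest {2 * h} t0.1 = b.1.1 := congrArg (fun z => z.1.1) hgb
    have hb12 : t0.2.1 = b.1.2 := congrArg (fun z => z.1.2) hgb
    have hb2 : rest {2} t0.2.2 = b.2 := congrArg (fun z => z.2) hgb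
    have hq0 : 0 < b.1.2 := hb12 ▸ htri0.hq
    have hqX : b.1.2 ≤ X := hb12 ▸ htri0.qX
    have hP0 : 0 < b.1.1 := hb11 ▸ rest_pos _ _
    have htt : 0 < b.2 := hb2 ▸ rest_pos _ _
    have hcP : Nat.Coprime b.1.1 b.1.2 := by
      rw [← hb11, ← hb12]
      exact Nat.Coprime.coprime_dvd_left (rest_dvd htri0.hp _) htri0.pq
    have hct : Nat.Coprime b.2 b.1.2 := by
      rw [← hb2, ← hb12]
      exact Nat.Coprime.coprime_dvd_left (rest_dvd htri0.hr _) htri0.qr.symm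
    set k : ℕ × ℕ × ℕ → ℕ × ℕ := fun t => (pc (2 * h) t.1 ^ h, pc 2 t.2.2) with hk
    have hdec : ∀ t ∈ TT.filter (fun t => g t = b), Tri X t.1 t.2.1 t.2.2 ∧
        t.1 = b.1.1 * (k t).1 ^ 2 ∧ t.2.1 = b.1.2 ∧ t.2.2 = b.2 * (k t).2 ^ 2 := by
      intro t ht
      rw [Finset.mem_filter] at ht
      obtain ⟨ht, hgt⟩ := ht
      obtain ⟨htri, -, -⟩ := hTT t ht
      have hc11 : rest {2 * h} t.1 = b.1.1 := congrArg (fun z => z.1.1) hgt
      have hc12 : t.2.1 = b.1.2 := congrArg (fun z => z.1.2) hgt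
      have hc2 : rest {2} t.2.2 = b.2 := congrArg (fun z => z.2) hgt
      refine ⟨htri, ?_, hc12, ?_⟩
      · have h1 := rest_mul_one htri.hp (2 * h)
        rw [hc11] at h1
        have h2 : (k t).1 ^ 2 = pc (2 * h) t.1 ^ (2 * h) := by
          change (pc (2 * h) t.1 ^ h) ^ 2 = _
          rw [← pow_mul]
          congr 1
          ring
        rw [h2]
        exact h1
      · have h1 := rest_mul_one htri.hr 2
        rw [hc2] at h1
        exact h1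
    have hinj : Set.InjOn k (TT.filter (fun t => g t = b)) := by
      intro t ht t' ht' hkk
      have h1 := hdec t (Finset.mem_coe.1 ht)
      have h2 := hdec t' (Finset.mem_coe.1 ht')
      have e1 : t.1 = t'.1 := by rw [h1.2.1, h2.2.1, hkk]
      have e2 : t.2.1 = t'.2.1 := by rw [h1.2.2.1, h2.2.2.1]
      have e3 : t.2.2 = t'.2.2 := by rw [h1.2.2.2, h2.2.2.2, hkk]
      exact Prod.ext e1 (Prod.ext e2 e3)
    rw [← Finset.card_image_of_injOn hinj]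
    apply hF X b.1.2 b.1.1 b.2 _ hX hq0 hqX hP0 htt hcP hct
    intro s hs
    rw [Finset.mem_image] at hs
    obtain ⟨t, ht, rfl⟩ := hs
    obtain ⟨htri, h1, h2, h3⟩ := hdec t ht
    have hk1 : 0 < (k t).1 := pow_pos (pc_pos _ _) _
    have hk2 : 0 < (k t).2 := pc_pos _ _
    have hd1 : (k t).1 ∣ t.1 := by
      rw [h1, sq]
      exact Dvd.intro_left _ (by ring : b.1.1 * (k t).1 * (k t).1 = _)
    have hd2 : (k t).2 ∣ t.2.2 := by
      rw [h3, sq]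
      exact Dvd.intro_left _ (by ring : b.2 * (k t).2 * (k t).2 = _)
    refine ⟨hk1, hk2, ?_, ?_, ?_, ?_, ?_, ?_⟩
    · exact Nat.Coprime.coprime_dvd_left hd1 (Nat.Coprime.coprime_dvd_right hd2 htri.pr)
    · rw [← h2]; exact Nat.Coprime.coprime_dvd_left hd1 htri.pq
    · rw [← h2]; exact Nat.Coprime.coprime_dvd_left hd2 htri.qr.symm
    · rw [← h1]; exact htri.pX
    · rw [← h3]; exact htri.rX
    · rw [← h1, ← h2, ← h3]; exact htri.rel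
  rw [Finset.card_eq_sum_card_fiberwise hmaps]
  push_cast
  refine (Finset.sum_le_sum hfib).trans ?_
  rw [Finset.sum_const, Finset.card_product, Nat.card_Icc, Nat.add_sub_cancel, nsmul_eq_mul]
  push_cast
  have hfl : (⌊t1⌋₊ : ℝ) ≤ t1 := Nat.floor_le (by linarith)
  have h1 : (AA.card : ℝ) * (⌊t1⌋₊ : ℝ) ≤ C1 * (X : ℝ) ^ (ε / 2) * Y * t1 :=
    mul_le_mul hAAcard hfl (by positivity) (by positivity)
  calc (AA.card : ℝ) * (⌊t1⌋₊ : ℝ) * (C2 * (X : ℝ) ^ (ε / 2))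
      ≤ C1 * (X : ℝ) ^ (ε / 2) * Y * t1 * (C2 * (X : ℝ) ^ (ε / 2)) :=
        mul_le_mul_of_nonneg_right h1 (by positivity)
    _ = C1 * C2 * ((X : ℝ) ^ (ε / 2) * (X : ℝ) ^ (ε / 2)) * t1 * Y := by ring
    _ = _ := by rw [hXe2]

end Pool.Agent.Helper21.EN
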