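import Pool.Agent.Helper21.EN.Stmts
import Pool.Agent.Helper21.EN.Dec

set_option autoImplicit false

/-!
# Project EN, piece C2s

`r = t S ^ 2` and odd classes `x` of `p`, `y` of `q`: the square sieve for fixed
`(P0, Q0, tt)` and a fixed form of the relation.
-/

namespace Pool.Agent.Helper21.EN

open Finset

/-- Fiberwise bound over a product of two index sets. -/
lemma c2s_fiber {α β γ : Type*} [DecidableEq β] [DecidableEq γ] (T : Finset α)
    (f : α → β) (g : α → γ) (B : Finset β) (G : Finset γ) (hf : ∀ t ∈ T, f t ∈ B)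
    (hg : ∀ t ∈ T, g t ∈ G) (K : ℝ)
    (hK : ∀ b ∈ B, ∀ c ∈ G, ((T.filter (fun t => f t = b ∧ g t = c)).card : ℝ) ≤ K) :
    (T.card : ℝ) ≤ (B.card : ℝ) * G.card * K := by
  classical
  have h1 : T.card = ∑ z ∈ B ×ˢ G, (T.filter (fun t => (f t, g t) = z)).card :=
    Finset.card_eq_sum_card_fiberwise (fun t ht => by
      have h := Finset.mem_coe.1 ht
      exact Finset.mem_coe.2 (Finset.mem_product.2 ⟨hf t h, hg t h⟩))
  rw [h1, Nat.cast_sum]
  calc ∑ z ∈ B ×ˢ G, ((T.filter (fun t => (f t, g t) = z)).card : ℝ)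
      ≤ ∑ z ∈ B ×ˢ G, K := by
        apply Finset.sum_le_sum
        intro z hz
        rw [Finset.mem_product] at hz
        have : T.filter (fun t => (f t, g t) = z) =
            T.filter (fun t => f t = z.1 ∧ g t = z.2) := by
          apply Finset.filter_congr
          intro t _
          rw [Prod.ext_iff]
        rw [this]
        exact hK z.1 hz.1 z.2 hz.2
    _ = (B.card : ℝ) * G.card * K := by
        rw [Finset.sum_const, Finset.card_product, nsmul_eq_mul, Nat.cast_mul]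

/-- One form of the relation. -/
lemma c2s_form {X i j : ℕ} {P0 Q0 tt : ℕ} {Zx Zy K : ℝ} (s1 s2 : ℤ)
    (F : Finset (ℕ × ℕ × ℕ))
    (hF : ∀ t ∈ F, Tri X t.1 t.2.1 t.2.2 ∧ (pc i t.1 : ℝ) ≤ Zx ∧ (pc j t.2.1 : ℝ) ≤ Zy ∧
      rest {i} t.1 = P0 ∧ rest {j} t.2.1 = Q0 ∧ rest {2} t.2.2 = tt ∧
      (t.2.2 : ℤ) = s1 * t.1 + s2 * t.2.1)
    (hK : ∀ S : Finset (ℕ × ℕ),
      (∀ s ∈ S, 0 < s.1 ∧ (s.1 : ℝ) ≤ Zx ∧ 0 < s.2 ∧ (s.2 : ℝ) ≤ Zy ∧
        ∃ y : ℕ, 0 < y ∧ y ≤ X ^ 2 ∧
          (tt : ℤ) * ((s1 * P0) * (s.1 : ℤ) ^ i + (s2 * Q0) * (s.2 : ℤ) ^ j) =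
          (y : ℤ) ^ 2) → (S.card : ℝ) ≤ K) :
    (F.card : ℝ) ≤ K := by
  classical
  have hinj : Set.InjOn (fun t : ℕ × ℕ × ℕ => (pc i t.1, pc j t.2.1)) (F : Set (ℕ × ℕ × ℕ)) := by
    intro t ht t' ht' h
    obtain ⟨h1, _, _, h4, h5, _, h7⟩ := hF t (Finset.mem_coe.1 ht)
    obtain ⟨h1', _, _, h4', h5', _, h7'⟩ := hF t' (Finset.mem_coe.1 ht')
    have hx : pc i t.1 = pc i t'.1 := (Prod.ext_iff.1 h).1
    have hy : pc j t.2.1 = pc j t'.2.1 := (Prod.ext_iff.1 h).2
    have hp : t.1 = t'.1 := by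
      rw [rest_mul_one h1.hp i, rest_mul_one h1'.hp i, h4, h4', hx]
    have hq : t.2.1 = t'.2.1 := by
      rw [rest_mul_one h1.hq j, rest_mul_one h1'.hq j, h5, h5', hy]
    have hr : t.2.2 = t'.2.2 := by
      have : (t.2.2 : ℤ) = (t'.2.2 : ℤ) := by rw [h7, h7', hp, hq]
      exact_mod_cast this
    exact Prod.ext hp (Prod.ext hq hr)
  rw [← Finset.card_image_of_injOn hinj]
  apply hK
  intro s hs
  obtain ⟨t, ht, rfl⟩ := Finset.mem_image.1 hs
  obtain ⟨h1, h2, h3, h4, h5, h6, h7⟩ := hF t ht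
  refine ⟨pc_pos _ _, h2, pc_pos _ _, h3, tt * pc 2 t.2.2, ?_, ?_, ?_⟩
  · rw [← h6]
    exact Nat.mul_pos (rest_pos _ _) (pc_pos _ _)
  · rw [← h6, pow_two]
    exact Nat.mul_le_mul ((rest_le h1.hr _).trans h1.rX) ((pc_le h1.hr).trans h1.rX)
  · have e1 : ((P0 : ℤ)) * (pc i t.1 : ℤ) ^ i = (t.1 : ℤ) := by
      have := rest_mul_one h1.hp i
      rw [h4] at this
      exact_mod_cast this.symm
    have e2 : ((Q0 : ℤ)) * (pc j t.2.1 : ℤ) ^ j = (t.2.1 : ℤ) := by
      have := rest_mul_one h1.hq j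
      rw [h5] at this
      exact_mod_cast this.symm
    have e3 : (tt : ℤ) * (pc 2 t.2.2 : ℤ) ^ 2 = (t.2.2 : ℤ) := by
      have := rest_mul_one h1.hr 2
      rw [h6] at this
      exact_mod_cast this.symm
    have e4 : (s1 * (P0 : ℤ)) * (pc i t.1 : ℤ) ^ i + (s2 * (Q0 : ℤ)) * (pc j t.2.1 : ℤ) ^ j =
        (t.2.2 : ℤ) := by
      rw [mul_assoc, mul_assoc, e1, e2, h7]
    show (tt : ℤ) * ((s1 * (P0 : ℤ)) * (pc i t.1 : ℤ) ^ i +
      (s2 * (Q0 : ℤ)) * (pc j t.2.1 : ℤ) ^ j) = ((tt * pc 2 t.2.2 : ℕ) : ℤ) ^ 2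
    rw [e4]
    conv_lhs => rw [← e3]
    push_cast
    ring

theorem c2s_thm (hsq : SQStmt) (hrp : RPStmt) : C2sStmt := by
  classical
  intro ε l hε hl
  obtain ⟨C1, hC1, H1⟩ := hsq (ε / 2) l (by linarith) hl
  obtain ⟨C2, hC2, H2⟩ := hrp (ε / 2) (by linarith)
  refine ⟨3 * C1 * C2, by nlinarith, ?_⟩
  intro X i j Y t1 Zx Zy L TT hX hi hj hY ht1 hZx hZy hZxX hZyX hlL hLX hTT
  set W : ℝ := Zx * Zy / L + (Zx + Zy) * L ^ 2 with hW
  have hXpos : (0 : ℝ) < X := by
    have : 0 < X := by omega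
    exact_mod_cast this
  have hLpos : 0 < L := lt_of_lt_of_le (Real.rpow_pos_of_pos hXpos l) hlL
  have hWpos : 0 ≤ W := by
    rw [hW]
    have : 0 < Zx := by linarith
    have : 0 < Zy := by linarith
    positivity
  have hXe : 0 < (X : ℝ) ^ (ε / 2) := Real.rpow_pos_of_pos hXpos _
  set B : Finset (ℕ × ℕ) := TT.image (fun t => (rest {i} t.1, rest {j} t.2.1)) with hB
  set G : Finset ℕ := Finset.Icc 1 ⌊t1⌋₊ with hG
  have hBcard : (B.card : ℝ) ≤ C2 * (X : ℝ) ^ (ε / 2) * Y := by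
    apply H2 X Y B (by omega) hY
    intro s hs
    rw [hB] at hs
    obtain ⟨t, ht, rfl⟩ := Finset.mem_image.1 hs
    obtain ⟨h1, _, _, _, h5⟩ := hTT t ht
    refine ⟨rest_pos _ _, (rest_le h1.hp _).trans h1.pX, rest_pos _ _,
      (rest_le h1.hq _).trans h1.qX, ?_⟩
    have hx : (0 : ℝ) < pc i t.1 := by exact_mod_cast pc_pos i t.1
    have hy : (0 : ℝ) < pc j t.2.1 := by exact_mod_cast pc_pos j t.2.1
    rw [rad_rest_mul_one i t.1, rad_rest_mul_one j t.2.1] at h5
    push_cast at h5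
    have hxy : (0 : ℝ) < (pc i t.1 : ℝ) * pc j t.2.1 := mul_pos hx hy
    have h6 : ((rad (rest {i} t.1) : ℝ) * rad (rest {j} t.2.1)) *
        ((pc i t.1 : ℝ) * pc j t.2.1) ≤ Y * ((pc i t.1 : ℝ) * pc j t.2.1) := by
      calc ((rad (rest {i} t.1) : ℝ) * rad (rest {j} t.2.1)) *
          ((pc i t.1 : ℝ) * pc j t.2.1)
          = (rad (rest {i} t.1) : ℝ) * pc i t.1 * ((rad (rest {j} t.2.1) : ℝ) * pc j t.2.1) := by
            ring
        _ ≤ Y * pc i t.1 * pc j t.2.1 := h5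
        _ = Y * ((pc i t.1 : ℝ) * pc j t.2.1) := by ring
    exact le_of_mul_le_mul_right h6 hxy
  have hGcard : (G.card : ℝ) ≤ t1 := by
    rw [hG, Nat.card_Icc]
    simp only [add_tsub_cancel_right]
    exact Nat.floor_le (by linarith)
  have hmain : (TT.card : ℝ) ≤ (B.card : ℝ) * G.card * (3 * (C1 * (X : ℝ) ^ (ε / 2) * W)) := by
    apply c2s_fiber TT (fun t => (rest {i} t.1, rest {j} t.2.1)) (fun t => rest {2} t.2.2)
    · intro t ht
      rw [hB]
      exact Finset.mem_image_of_mem _ ht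
    · intro t ht
      obtain ⟨h1, h2, _, _, _⟩ := hTT t ht
      rw [hG, Finset.mem_Icc]
      refine ⟨rest_pos _ _, ?_⟩
      rw [Nat.le_floor_iff (by linarith)]
      have hS : (0 : ℝ) < (pc 2 t.2.2 : ℝ) ^ 2 := by
        have : (0 : ℝ) < pc 2 t.2.2 := by exact_mod_cast pc_pos 2 t.2.2
        positivity
      have h3 : (rest {2} t.2.2 : ℝ) * (pc 2 t.2.2 : ℝ) ^ 2 = (t.2.2 : ℝ) := by
        have := rest_mul_one h1.hr 2
        exact_mod_cast this.symm
      have h4 : (rest {2} t.2.2 : ℝ) * (pc 2 t.2.2 : ℝ) ^ 2 ≤ t1 * (pc 2 t.2.2 : ℝ) ^ 2 := by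
        rw [h3]; exact h2
      exact le_of_mul_le_mul_right h4 hS
    · intro b hb tt htt
      set F := TT.filter (fun t => (rest {i} t.1, rest {j} t.2.1) = b ∧ rest {2} t.2.2 = tt)
        with hFdef
      have hFmem : ∀ t ∈ F, t ∈ TT ∧ rest {i} t.1 = b.1 ∧ rest {j} t.2.1 = b.2 ∧
          rest {2} t.2.2 = tt := by
        intro t ht
        rw [hFdef, Finset.mem_filter] at ht
        exact ⟨ht.1, (Prod.ext_iff.1 ht.2.1).1, (Prod.ext_iff.1 ht.2.1).2, ht.2.2⟩
      by_cases hFe : F.Nonempty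
      · obtain ⟨t0, ht0⟩ := hFe
        obtain ⟨h01, _, _, h04⟩ := hFmem t0 ht0
        have htri0 := (hTT t0 h01).1
        have htt0 : 0 < tt := by rw [← h04]; exact rest_pos _ _
        have httX : tt ≤ X := by rw [← h04]; exact (rest_le htri0.hr _).trans htri0.rX
        have hone : ∀ (s1 s2 : ℤ) (F' : Finset (ℕ × ℕ × ℕ)),
            (∀ t ∈ F', t ∈ F ∧ (t.2.2 : ℤ) = s1 * t.1 + s2 * t.2.1) →
            (F'.card : ℝ) ≤ C1 * (X : ℝ) ^ (ε / 2) * W := by
          intro s1 s2 F' hF'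
          apply c2s_form (X := X) (i := i) (j := j) (P0 := b.1) (Q0 := b.2) (tt := tt)
            (Zx := Zx) (Zy := Zy) s1 s2 F'
          · intro t ht
            obtain ⟨h1, h2⟩ := hF' t ht
            obtain ⟨h3, h4, h5, h6⟩ := hFmem t h1
            obtain ⟨g1, _, g3, g4, _⟩ := hTT t h3
            exact ⟨g1, g3, g4, h4, h5, h6, h2⟩
          · intro S hS
            exact H1 X i j (s1 * b.1) (s2 * b.2) tt Zx Zy L S hX hi hj htt0 httX hZx hZy hZxX
              hZyX hlL hLX hS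
        have hcov : F ⊆ F.filter (fun t => t.1 + t.2.1 = t.2.2) ∪
            (F.filter (fun t => t.2.1 + t.2.2 = t.1) ∪
              F.filter (fun t => t.1 + t.2.2 = t.2.1)) := by
          intro t ht
          obtain ⟨h3, _⟩ := hFmem t ht
          rcases (hTT t h3).1.rel with h | h | h
          · exact Finset.mem_union_left _ (Finset.mem_filter.2 ⟨ht, h⟩)
          · exact Finset.mem_union_right _ (Finset.mem_union_left _
              (Finset.mem_filter.2 ⟨ht, h⟩))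
          · exact Finset.mem_union_right _ (Finset.mem_union_right _
              (Finset.mem_filter.2 ⟨ht, h⟩))
        have hc1 : F.card ≤ (F.filter (fun t => t.1 + t.2.1 = t.2.2)).card +
            ((F.filter (fun t => t.2.1 + t.2.2 = t.1)).card +
              (F.filter (fun t => t.1 + t.2.2 = t.2.1)).card) :=
          (Finset.card_le_card hcov).trans ((Finset.card_union_le _ _).trans
            (Nat.add_le_add_left (Finset.card_union_le _ _) _))
        have g1 := hone 1 1 (F.filter (fun t => t.1 + t.2.1 = t.2.2)) (by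
          intro t ht
          rw [Finset.mem_filter] at ht
          refine ⟨ht.1, ?_⟩
          have := ht.2
          push_cast [← this]
          ring)
        have g2 := hone 1 (-1) (F.filter (fun t => t.2.1 + t.2.2 = t.1)) (by
          intro t ht
          rw [Finset.mem_filter] at ht
          refine ⟨ht.1, ?_⟩
          have := ht.2
          push_cast [← this]
          ring)
        have g3 := hone (-1) 1 (F.filter (fun t => t.1 + t.2.2 = t.2.1)) (by
          intro t ht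
          rw [Finset.mem_filter] at ht
          refine ⟨ht.1, ?_⟩
          have := ht.2
          push_cast [← this]
          ring)
        have hc2 : (F.card : ℝ) ≤ ((F.filter (fun t => t.1 + t.2.1 = t.2.2)).card : ℝ) +
            (((F.filter (fun t => t.2.1 + t.2.2 = t.1)).card : ℝ) +
              ((F.filter (fun t => t.1 + t.2.2 = t.2.1)).card : ℝ)) := by
          exact_mod_cast hc1
        linarith
      · rw [Finset.not_nonempty_iff_eq_empty] at hFe
        rw [hFe, Finset.card_empty, Nat.cast_zero]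
        have : 0 < C1 := by linarith
        positivity
  have hC1' : 0 < C1 := by linarith
  have hK0 : 0 ≤ 3 * (C1 * (X : ℝ) ^ (ε / 2) * W) := by positivity
  calc (TT.card : ℝ) ≤ (B.card : ℝ) * G.card * (3 * (C1 * (X : ℝ) ^ (ε / 2) * W)) := hmain
    _ ≤ (C2 * (X : ℝ) ^ (ε / 2) * Y) * t1 * (3 * (C1 * (X : ℝ) ^ (ε / 2) * W)) := by
        apply mul_le_mul_of_nonneg_right _ hK0
        apply mul_le_mul hBcard hGcard (Nat.cast_nonneg _)
        have : 0 < C2 := by linarith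
        positivity
    _ = 3 * C1 * C2 * (X : ℝ) ^ ε * t1 * Y * W := by
        have : (X : ℝ) ^ ε = (X : ℝ) ^ (ε / 2) * (X : ℝ) ^ (ε / 2) := by
          rw [← Real.rpow_add hXpos]; congr 1; ring
        rw [this]; ring

end Pool.Agent.Helper21.EN
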