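import Pool.Agent.Helper21.EN.Stmts
import Pool.Agent.Helper94.Abc.Basic

set_option autoImplicit false

/-!
# Project EN, piece E1

The energy of a set of vectors is controlled by the solutions of the congruence: a pair of
vectors with the same value is determined, up to divisors, by the reduced forms of its fractions
and the greatest common divisors.
-/

namespace Pool.Agent.Helper21.EN

open Finset

theorem mon_mul_e1 (a b : Vec) : mon (fun i => a i * b i) = mon a * mon b := by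
  unfold mon
  rw [← Finset.prod_mul_distrib]
  exact Finset.prod_congr rfl fun i _ => mul_pow _ _ _

theorem mem_vbox_e1 {T : Fin 9 → ℝ} {a : Vec} : a ∈ vbox T ↔ ∀ i, 1 ≤ a i ∧ a i ≤ ⌊T i⌋₊ := by
  unfold vbox
  rw [Fintype.mem_piFinset]
  exact forall_congr' fun i => Finset.mem_Icc

theorem mem_GBox_e1 {M : ℕ} {P Q : Fin 9 → ℝ} {z : Vec × Vec} (h : z ∈ GBox M P Q) (i : Fin 9) :
    0 < z.1 i ∧ z.1 i ≤ ⌊P i⌋₊ ∧ 0 < z.2 i ∧ z.2 i ≤ ⌊Q i⌋₊ ∧ Nat.Coprime (z.1 i) M ∧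
      Nat.Coprime (z.2 i) M := by
  unfold GBox at h
  rw [Finset.mem_filter, Finset.mem_product, mem_vbox_e1, mem_vbox_e1] at h
  obtain ⟨⟨h1, h2⟩, h3, h4⟩ := h
  exact ⟨(h1 i).1, (h1 i).2, (h2 i).1, (h2 i).2, h3 i, h4 i⟩

/-- the greatest common divisors -/
def gv_e1 (z z' : Vec × Vec) : Vec := fun i => Nat.gcd (z.1 i * z'.2 i) (z'.1 i * z.2 i)

theorem redv_mem_e1 {M : ℕ} {P Q : Fin 9 → ℝ} (hP : ∀ i, 1 ≤ P i) (hQ : ∀ i, 1 ≤ Q i)
    {z z' : Vec × Vec} (hz : z ∈ GBox M P Q) (hz' : z' ∈ GBox M P Q) (hs : SameVal M z z') :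
    redv z z' ∈ Sol M (fun i => P i * Q i) := by
  have h := mem_GBox_e1 hz
  have h' := mem_GBox_e1 hz'
  have ha : ∀ i, 0 < z.1 i * z'.2 i := fun i => Nat.mul_pos (h i).1 (h' i).2.2.1
  have hb : ∀ i, 0 < z'.1 i * z.2 i := fun i => Nat.mul_pos (h' i).1 (h i).2.2.1
  have hg : ∀ i, 0 < Nat.gcd (z.1 i * z'.2 i) (z'.1 i * z.2 i) := fun i =>
    Nat.gcd_pos_of_pos_left _ (ha i)
  have hα : ∀ i, (redv z z').1 i * gv_e1 z z' i = z.1 i * z'.2 i := fun i =>
    Nat.div_mul_cancel (Nat.gcd_dvd_left _ _)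
  have hβ : ∀ i, (redv z z').2 i * gv_e1 z z' i = z'.1 i * z.2 i := fun i =>
    Nat.div_mul_cancel (Nat.gcd_dvd_right _ _)
  have ca : ∀ i, Nat.Coprime (z.1 i * z'.2 i) M := fun i =>
    Nat.Coprime.mul_left (h i).2.2.2.2.1 (h' i).2.2.2.2.2
  have cb : ∀ i, Nat.Coprime (z'.1 i * z.2 i) M := fun i =>
    Nat.Coprime.mul_left (h' i).2.2.2.2.1 (h i).2.2.2.2.2
  have hflo : ∀ i, ∀ x y : ℕ, x ≤ ⌊P i⌋₊ → y ≤ ⌊Q i⌋₊ → x * y ≤ ⌊P i * Q i⌋₊ := by
    intro i x y hx hy
    have hP0 : 0 ≤ P i := by linarith [hP i]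
    have hQ0 : 0 ≤ Q i := by linarith [hQ i]
    have hx' : (x : ℝ) ≤ P i := (Nat.cast_le.2 hx).trans (Nat.floor_le hP0)
    have hy' : (y : ℝ) ≤ Q i := (Nat.cast_le.2 hy).trans (Nat.floor_le hQ0)
    refine Nat.le_floor ?_
    push_cast
    exact mul_le_mul hx' hy' (Nat.cast_nonneg _) hP0
  unfold Sol
  rw [Finset.mem_filter, Finset.mem_product, mem_vbox_e1, mem_vbox_e1]
  refine ⟨⟨fun i => ⟨?_, ?_⟩, fun i => ⟨?_, ?_⟩⟩, fun i => ?_, fun i => ?_, fun i => ?_, ?_⟩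
  · exact Nat.div_pos (Nat.le_of_dvd (ha i) (Nat.gcd_dvd_left _ _)) (hg i)
  · exact (Nat.div_le_self _ _).trans (hflo i _ _ (h i).2.1 (h' i).2.2.2.1)
  · exact Nat.div_pos (Nat.le_of_dvd (hb i) (Nat.gcd_dvd_right _ _)) (hg i)
  · exact (Nat.div_le_self _ _).trans (hflo i _ _ (h' i).2.1 (h i).2.2.2.1)
  · exact Nat.coprime_div_gcd_div_gcd (hg i)
  · exact (ca i).coprime_dvd_left ⟨gv_e1 z z' i, (hα i).symm⟩
  · exact (cb i).coprime_dvd_left ⟨gv_e1 z z' i, (hβ i).symm⟩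
  · have h1 : mon (redv z z').1 * mon (gv_e1 z z') = mon z.1 * mon z'.2 := by
      rw [← mon_mul_e1, ← mon_mul_e1]
      congr 1
      funext i
      exact hα i
    have h2 : mon (redv z z').2 * mon (gv_e1 z z') = mon z'.1 * mon z.2 := by
      rw [← mon_mul_e1, ← mon_mul_e1]
      congr 1
      funext i
      exact hβ i
    have h3 : Nat.Coprime M (mon (gv_e1 z z')) := by
      unfold mon
      refine Nat.Coprime.prod_right fun i _ => Nat.Coprime.pow_right _ ?_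
      exact ((ca i).coprime_dvd_left (Nat.gcd_dvd_left _ _)).symm
    have h4 : mon (redv z z').1 * mon (gv_e1 z z') ≡ mon (redv z z').2 * mon (gv_e1 z z')
        [MOD M] := by
      rw [h1, h2]
      exact hs
    exact Nat.ModEq.cancel_right_of_coprime h3 h4

theorem e1_thm : E1Stmt := by
  classical
  intro ε hε
  obtain ⟨C0, hC0, hdiv⟩ := Pool.Agent.Helper94.Abc.divisor_bound (show 0 < ε / 4 by positivity)
  refine ⟨C0 ^ 36, one_le_pow₀ hC0, ?_⟩
  intro M P Q pred S hM hP hQ hS S' hS'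
  have hC0' : 0 ≤ C0 := by linarith
  set B : Fin 9 → ℝ := fun i => P i * Q i with hB
  have hB1 : ∀ i, 1 ≤ B i := fun i => by
    rw [hB]
    nlinarith [hP i, hQ i]
  set D : ℝ := C0 ^ 36 * (∏ i, P i * Q i) ^ ε with hD
  have hprod : ∏ i, (C0 * (B i) ^ (ε / 4)) = C0 ^ 9 * (∏ i, P i * Q i) ^ (ε / 4) := by
    rw [Finset.prod_mul_distrib, Finset.prod_const, Finset.card_univ, Fintype.card_fin,
      Real.finsetProd_rpow]
    intro i _
    linarith [hB1 i]
  have hDpow : (∏ i, (C0 * (B i) ^ (ε / 4))) ^ 4 = D := by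
    rw [hprod, hD, mul_pow, ← pow_mul]
    congr 1
    have h0 : 0 ≤ ∏ i, P i * Q i := Finset.prod_nonneg fun i _ => by
      have := hB1 i
      linarith
    rw [← Real.rpow_natCast, ← Real.rpow_mul h0]
    congr 1
    push_cast
    ring
  have hmaps : ∀ s ∈ S, redv s.1 s.2 ∈ S' := fun s hs =>
    hS' _ (redv_mem_e1 hP hQ (hS s hs).1 (hS s hs).2.1 (hS s hs).2.2.1) (hS s hs).2.2.2
  rw [Finset.card_eq_sum_card_fiberwise hmaps]
  push_cast
  rw [Finset.mul_sum]
  refine Finset.sum_le_sum fun z _ => ?_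
  -- the fibre over `z`
  set G : Finset Vec := Fintype.piFinset fun i => Finset.Icc 1 ⌊B i / ht z i⌋₊ with hG
  have hfib : ∀ s ∈ S.filter (fun s => redv s.1 s.2 = z), gv_e1 s.1 s.2 ∈ G := by
    intro s hs
    obtain ⟨hsS, hsz⟩ := Finset.mem_filter.1 hs
    obtain ⟨h1, h2, -, -⟩ := hS s hsS
    have h := mem_GBox_e1 h1
    have h' := mem_GBox_e1 h2
    rw [hG, Fintype.mem_piFinset]
    intro i
    have ha : 0 < s.1.1 i * s.2.2 i := Nat.mul_pos (h i).1 (h' i).2.2.1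
    have hb : 0 < s.2.1 i * s.1.2 i := Nat.mul_pos (h' i).1 (h i).2.2.1
    have hg : 0 < gv_e1 s.1 s.2 i := Nat.gcd_pos_of_pos_left _ ha
    have hα : z.1 i * gv_e1 s.1 s.2 i = s.1.1 i * s.2.2 i := by
      rw [← hsz]
      exact Nat.div_mul_cancel (Nat.gcd_dvd_left _ _)
    have hβ : z.2 i * gv_e1 s.1 s.2 i = s.2.1 i * s.1.2 i := by
      rw [← hsz]
      exact Nat.div_mul_cancel (Nat.gcd_dvd_right _ _)
    have hz1 : 0 < z.1 i := Nat.pos_of_ne_zero fun h0 => by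
      rw [h0, zero_mul] at hα
      omega
    rw [Finset.mem_Icc]
    refine ⟨hg, Nat.le_floor ?_⟩
    have hht : 0 < ht z i := by
      unfold ht
      exact_mod_cast lt_of_lt_of_le hz1 (le_max_left _ _)
    rw [le_div_iff₀ hht]
    have hP0 : 0 ≤ P i := by linarith [hP i]
    have hQ0 : 0 ≤ Q i := by linarith [hQ i]
    have k1 : ((s.1.1 i : ℕ) : ℝ) ≤ P i := (Nat.cast_le.2 (h i).2.1).trans (Nat.floor_le hP0)
    have k2 : ((s.1.2 i : ℕ) : ℝ) ≤ Q i := (Nat.cast_le.2 (h i).2.2.2.1).trans (Nat.floor_le hQ0)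
    have k3 : ((s.2.1 i : ℕ) : ℝ) ≤ P i := (Nat.cast_le.2 (h' i).2.1).trans (Nat.floor_le hP0)
    have k4 : ((s.2.2 i : ℕ) : ℝ) ≤ Q i :=
      (Nat.cast_le.2 (h' i).2.2.2.1).trans (Nat.floor_le hQ0)
    unfold ht
    rcases le_total (z.1 i) (z.2 i) with hc | hc
    · rw [max_eq_right hc]
      have h3 : ((gv_e1 s.1 s.2 i : ℕ) : ℝ) * (z.2 i : ℝ) = (s.2.1 i : ℝ) * s.1.2 i := by
        have : ((z.2 i * gv_e1 s.1 s.2 i : ℕ) : ℝ) = ((s.2.1 i * s.1.2 i : ℕ) : ℝ) := by rw [hβ]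
        push_cast at this
        linarith
      rw [h3]
      exact mul_le_mul k3 k2 (Nat.cast_nonneg _) hP0
    · rw [max_eq_left hc]
      have h3 : ((gv_e1 s.1 s.2 i : ℕ) : ℝ) * (z.1 i : ℝ) = (s.1.1 i : ℝ) * s.2.2 i := by
        have : ((z.1 i * gv_e1 s.1 s.2 i : ℕ) : ℝ) = ((s.1.1 i * s.2.2 i : ℕ) : ℝ) := by rw [hα]
        push_cast at this
        linarith
      rw [h3]
      exact mul_le_mul k1 k4 (Nat.cast_nonneg _) hP0
  rw [Finset.card_eq_sum_card_fiberwise hfib]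
  push_cast
  have hone : ∀ g ∈ G, ((((S.filter (fun s => redv s.1 s.2 = z)).filter
      (fun s => gv_e1 s.1 s.2 = g)).card : ℕ) : ℝ) ≤ D := by
    intro g _
    set F := (S.filter (fun s => redv s.1 s.2 = z)).filter (fun s => gv_e1 s.1 s.2 = g) with hF
    rcases F.eq_empty_or_nonempty with h0 | ⟨s0, hs0⟩
    · rw [h0, Finset.card_empty, Nat.cast_zero, hD]
      have h0 : 0 ≤ ∏ i, P i * Q i := Finset.prod_nonneg fun i _ => by
        have := hB1 i
        linarith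
      positivity
    -- data of a member
    have hmem : ∀ s ∈ F, ∀ i, 0 < s.1.1 i ∧ 0 < s.1.2 i ∧ 0 < s.2.1 i ∧ 0 < s.2.2 i ∧
        z.1 i * g i = s.1.1 i * s.2.2 i ∧ z.2 i * g i = s.2.1 i * s.1.2 i ∧
        ((z.1 i * g i : ℕ) : ℝ) ≤ B i ∧ ((z.2 i * g i : ℕ) : ℝ) ≤ B i := by
      intro s hs i
      rw [hF, Finset.mem_filter, Finset.mem_filter] at hs
      obtain ⟨⟨hsS, hsz⟩, hsg⟩ := hs
      obtain ⟨h1, h2, -, -⟩ := hS s hsS
      have h := mem_GBox_e1 h1
      have h' := mem_GBox_e1 h2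
      have hα : z.1 i * g i = s.1.1 i * s.2.2 i := by
        rw [← hsz, ← hsg]
        exact Nat.div_mul_cancel (Nat.gcd_dvd_left _ _)
      have hβ : z.2 i * g i = s.2.1 i * s.1.2 i := by
        rw [← hsz, ← hsg]
        exact Nat.div_mul_cancel (Nat.gcd_dvd_right _ _)
      have hP0 : 0 ≤ P i := by linarith [hP i]
      have hQ0 : 0 ≤ Q i := by linarith [hQ i]
      have k1 : ((s.1.1 i : ℕ) : ℝ) ≤ P i := (Nat.cast_le.2 (h i).2.1).trans (Nat.floor_le hP0)
      have k2 : ((s.1.2 i : ℕ) : ℝ) ≤ Q i :=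
        (Nat.cast_le.2 (h i).2.2.2.1).trans (Nat.floor_le hQ0)
      have k3 : ((s.2.1 i : ℕ) : ℝ) ≤ P i := (Nat.cast_le.2 (h' i).2.1).trans (Nat.floor_le hP0)
      have k4 : ((s.2.2 i : ℕ) : ℝ) ≤ Q i :=
        (Nat.cast_le.2 (h' i).2.2.2.1).trans (Nat.floor_le hQ0)
      refine ⟨(h i).1, (h i).2.2.1, (h' i).1, (h' i).2.2.1, hα, hβ, ?_, ?_⟩
      · rw [hα]
        push_cast
        exact mul_le_mul k1 k4 (Nat.cast_nonneg _) hP0
      · rw [hβ]
        push_cast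
        exact mul_le_mul k3 k2 (Nat.cast_nonneg _) hP0
    set Da : Finset Vec := Fintype.piFinset fun i => (z.1 i * g i).divisors with hDa
    set Db : Finset Vec := Fintype.piFinset fun i => (z.2 i * g i).divisors with hDb
    have hsub : F ⊆ (Da ×ˢ Db) ×ˢ (Db ×ˢ Da) := by
      intro s hs
      have h := hmem s hs
      rw [Finset.mem_product, Finset.mem_product, Finset.mem_product, hDa, hDb,
        Fintype.mem_piFinset, Fintype.mem_piFinset, Fintype.mem_piFinset, Fintype.mem_piFinset]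
      refine ⟨⟨fun i => ?_, fun i => ?_⟩, fun i => ?_, fun i => ?_⟩
      all_goals
        obtain ⟨k1, k2, k3, k4, k5, k6, -, -⟩ := h i
        rw [Nat.mem_divisors]
      · rw [k5]
        exact ⟨dvd_mul_right _ _, (Nat.mul_pos k1 k4).ne'⟩
      · rw [k6]
        exact ⟨dvd_mul_left _ _, (Nat.mul_pos k3 k2).ne'⟩
      · rw [k6]
        exact ⟨dvd_mul_right _ _, (Nat.mul_pos k3 k2).ne'⟩
      · rw [k5]
        exact ⟨dvd_mul_left _ _, (Nat.mul_pos k1 k4).ne'⟩
    have hd0 := hmem s0 hs0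
    have hDa' : (Da.card : ℝ) ≤ ∏ i, (C0 * (B i) ^ (ε / 4)) := by
      rw [hDa, Fintype.card_piFinset]
      push_cast
      refine Finset.prod_le_prod (fun i _ => Nat.cast_nonneg _) fun i _ => ?_
      obtain ⟨k1, k2, k3, k4, k5, k6, k7, k8⟩ := hd0 i
      have hne : z.1 i * g i ≠ 0 := by
        rw [k5]
        exact (Nat.mul_pos k1 k4).ne'
      exact (hdiv _ hne).trans (mul_le_mul_of_nonneg_left
        (Real.rpow_le_rpow (Nat.cast_nonneg _) k7 (by positivity)) hC0')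
    have hDb' : (Db.card : ℝ) ≤ ∏ i, (C0 * (B i) ^ (ε / 4)) := by
      rw [hDb, Fintype.card_piFinset]
      push_cast
      refine Finset.prod_le_prod (fun i _ => Nat.cast_nonneg _) fun i _ => ?_
      obtain ⟨k1, k2, k3, k4, k5, k6, k7, k8⟩ := hd0 i
      have hne : z.2 i * g i ≠ 0 := by
        rw [k6]
        exact (Nat.mul_pos k3 k2).ne'
      exact (hdiv _ hne).trans (mul_le_mul_of_nonneg_left
        (Real.rpow_le_rpow (Nat.cast_nonneg _) k8 (by positivity)) hC0')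
    have hcard := Finset.card_le_card hsub
    rw [Finset.card_product, Finset.card_product, Finset.card_product] at hcard
    have hcard' : (F.card : ℝ) ≤ (Da.card : ℝ) * Db.card * (Db.card * Da.card) := by
      exact_mod_cast hcard
    have hnn : 0 ≤ ∏ i, (C0 * (B i) ^ (ε / 4)) := le_trans (Nat.cast_nonneg _) hDa'
    calc (F.card : ℝ) ≤ (Da.card : ℝ) * Db.card * (Db.card * Da.card) := hcard'
      _ ≤ (∏ i, (C0 * (B i) ^ (ε / 4))) * (∏ i, (C0 * (B i) ^ (ε / 4))) *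
          ((∏ i, (C0 * (B i) ^ (ε / 4))) * (∏ i, (C0 * (B i) ^ (ε / 4)))) := by
          have m1 : (Da.card : ℝ) * Db.card ≤
              (∏ i, (C0 * (B i) ^ (ε / 4))) * (∏ i, (C0 * (B i) ^ (ε / 4))) :=
            mul_le_mul hDa' hDb' (Nat.cast_nonneg _) hnn
          have m2 : (Db.card : ℝ) * Da.card ≤
              (∏ i, (C0 * (B i) ^ (ε / 4))) * (∏ i, (C0 * (B i) ^ (ε / 4))) :=
            mul_le_mul hDb' hDa' (Nat.cast_nonneg _) hnn
          exact mul_le_mul m1 m2 (by positivity) (mul_nonneg hnn hnn)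
      _ = (∏ i, (C0 * (B i) ^ (ε / 4))) ^ 4 := by ring
      _ = D := hDpow
  have hDnn : 0 ≤ D := by
    rw [← hDpow]
    positivity
  by_cases hzS : ∀ i, 0 < ht z i
  · calc _ ≤ ∑ g ∈ G, D := Finset.sum_le_sum hone
      _ = (G.card : ℝ) * D := by rw [Finset.sum_const, nsmul_eq_mul]
      _ ≤ (∏ i, B i / ht z i) * D := by
          refine mul_le_mul_of_nonneg_right ?_ hDnn
          rw [hG, Fintype.card_piFinset]
          push_cast
          refine Finset.prod_le_prod (fun i _ => Nat.cast_nonneg _) fun i _ => ?_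
          rw [Nat.card_Icc, Nat.add_sub_cancel]
          exact Nat.floor_le (div_nonneg (by linarith [hB1 i]) (hzS i).le)
      _ = C0 ^ 36 * (∏ i, P i * Q i) ^ ε * ∏ i, (P i * Q i) / ht z i := by
          rw [hD]
          ring
  · -- no member of the family has this reduced form
    push Not at hzS
    obtain ⟨i, hi⟩ := hzS
    have hempty : ∀ g ∈ G, ((((S.filter (fun s => redv s.1 s.2 = z)).filter
        (fun s => gv_e1 s.1 s.2 = g)).card : ℕ) : ℝ) = 0 := by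
      intro g _
      rw [Nat.cast_eq_zero, Finset.card_eq_zero, Finset.filter_eq_empty_iff]
      intro s hs _
      obtain ⟨hsS, hsz⟩ := Finset.mem_filter.1 hs
      obtain ⟨h1, h2, -, -⟩ := hS s hsS
      have h := mem_GBox_e1 h1
      have h' := mem_GBox_e1 h2
      have ha : 0 < s.1.1 i * s.2.2 i := Nat.mul_pos (h i).1 (h' i).2.2.1
      have hα : z.1 i * gv_e1 s.1 s.2 i = s.1.1 i * s.2.2 i := by
        rw [← hsz]
        exact Nat.div_mul_cancel (Nat.gcd_dvd_left _ _)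
      have hz1 : 0 < z.1 i := Nat.pos_of_ne_zero fun h0 => by
        rw [h0, zero_mul] at hα
        omega
      have hht : 0 < ht z i := by
        unfold ht
        exact_mod_cast lt_of_lt_of_le hz1 (le_max_left _ _)
      linarith
    rw [Finset.sum_eq_zero hempty]
    have h0 : 0 ≤ ∏ i, P i * Q i := Finset.prod_nonneg fun i _ => by
      have := hB1 i
      linarith
    have h1 : 0 ≤ ∏ i, (P i * Q i) / ht z i := Finset.prod_nonneg fun i _ => by
      refine div_nonneg ?_ ?_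
      · have := hB1 i
        linarith
      · unfold ht
        exact Nat.cast_nonneg _
    positivity

end Pool.Agent.Helper21.EN
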