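import Pool.Agent.Helper21.EN.Stmts

set_option autoImplicit false

/-!
# Project EN, piece E2

The statement is in EN/Stmts.lean. Paper: /team-store/EN_paper.md.

Proof. For z in S' put k_i = Nat.log 2 (max (z.1 i) (z.2 i)) so 2^k_i <= ht_i < 2^(k_i+1) (the entries of z are
>= 1 as z in Sol M B). Group S' by the vector k. k_i <= log2 B_i. For a class k which is not empty choose one
z in it and put U_i = min (2^(k_i+1)) (B_i): then ht_i <= U_i, U_i <= 2 ht_i, U_i <= B_i, so by hypothesis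
NN M U <= K prod U. The whole class is contained in Sol M U (all entries are <= U_i), so it has at most
K prod U_i <= K prod 2^(k_i+1) elements; each term of the sum in the class is <= prod B_i/2^k_i.
So the class contributes at most 2^9 K prod B_i. The number of classes is at most prod (1 + log2 B_i)
<= C (prod B_i)^eps (1 + log2 x <= C_eps x^eps for x >= 1).
-/

namespace Pool.Agent.Helper21.EN

open Finset

/-- The vector of binary logarithms of the heights. -/
def e2_k (z : Vec × Vec) (i : Fin 9) : ℕ := Nat.log 2 (max (z.1 i) (z.2 i))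

lemma e2_log {ε : ℝ} (hε : 0 < ε) {x : ℝ} (hx : 1 ≤ x) :
    ((Nat.log 2 ⌊x⌋₊ + 1 : ℕ) : ℝ) ≤ (1 + 1 / (ε * Real.log 2)) * x ^ ε := by
  have hl2 : 0 < Real.log 2 := Real.log_pos (by norm_num)
  set m := Nat.log 2 ⌊x⌋₊ with hm
  have hfl : ⌊x⌋₊ ≠ 0 := by
    have := Nat.floor_pos.2 hx
    omega
  have h1 : 2 ^ m ≤ ⌊x⌋₊ := Nat.pow_log_le_self 2 hfl
  have h2 : ((2 : ℝ) ^ m) ≤ x := by
    have : ((2 ^ m : ℕ) : ℝ) ≤ (⌊x⌋₊ : ℝ) := by exact_mod_cast h1
    have h3 := Nat.floor_le (by linarith : (0 : ℝ) ≤ x)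
    push_cast at this
    linarith
  have h3 : ((2 : ℝ) ^ m) ^ ε ≤ x ^ ε := Real.rpow_le_rpow (by positivity) h2 hε.le
  have h4 : ((2 : ℝ) ^ m) ^ ε = Real.exp (ε * (m * Real.log 2)) := by
    rw [Real.rpow_def_of_pos (by positivity), Real.log_pow]
    ring_nf
  have h5 : ε * (m * Real.log 2) + 1 ≤ Real.exp (ε * (m * Real.log 2)) :=
    Real.add_one_le_exp _
  have h6 : ε * (m * Real.log 2) + 1 ≤ x ^ ε := by linarith
  have hc : 0 < 1 / (ε * Real.log 2) := by positivity
  have hm0 : (0 : ℝ) ≤ m := Nat.cast_nonneg m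
  calc ((m + 1 : ℕ) : ℝ) = (m : ℝ) + 1 := by push_cast; ring
    _ ≤ (1 + 1 / (ε * Real.log 2)) * (ε * (m * Real.log 2) + 1) := by
        have : 1 / (ε * Real.log 2) * (ε * (m * Real.log 2)) = m := by
          field_simp
        have h7 : 0 ≤ ε * (m * Real.log 2) := by positivity
        nlinarith [this, h7, hc]
    _ ≤ _ := mul_le_mul_of_nonneg_left h6 (by positivity)

lemma e2_mem {M : ℕ} {B : Fin 9 → ℝ} {z : Vec × Vec} (hz : z ∈ Sol M B) (i : Fin 9) :
    1 ≤ z.1 i ∧ z.1 i ≤ ⌊B i⌋₊ ∧ 1 ≤ z.2 i ∧ z.2 i ≤ ⌊B i⌋₊ := by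
  unfold Sol at hz
  rw [Finset.mem_filter, Finset.mem_product] at hz
  have h1 := hz.1.1
  have h2 := hz.1.2
  unfold vbox at h1 h2
  rw [Fintype.mem_piFinset] at h1 h2
  have h3 := Finset.mem_Icc.1 (h1 i)
  have h4 := Finset.mem_Icc.1 (h2 i)
  exact ⟨h3.1, h3.2, h4.1, h4.2⟩

lemma e2_bounds {M : ℕ} {B : Fin 9 → ℝ} (hB : ∀ i, 1 ≤ B i) {z : Vec × Vec}
    (hz : z ∈ Sol M B) (i : Fin 9) :
    (2 : ℝ) ^ e2_k z i ≤ ht z i ∧ ht z i ≤ (2 : ℝ) ^ (e2_k z i + 1) ∧ ht z i ≤ B i ∧
      e2_k z i < Nat.log 2 ⌊B i⌋₊ + 1 := by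
  obtain ⟨h1, h2, h3, h4⟩ := e2_mem hz i
  have hmax : max (z.1 i) (z.2 i) ≤ ⌊B i⌋₊ := max_le h2 h4
  have hpos : max (z.1 i) (z.2 i) ≠ 0 := by
    have := le_max_left (z.1 i) (z.2 i)
    omega
  refine ⟨?_, ?_, ?_, ?_⟩
  · have := Nat.pow_log_le_self 2 hpos
    unfold ht e2_k
    exact_mod_cast this
  · have := (Nat.lt_pow_succ_log_self (b := 2) (by norm_num) (max (z.1 i) (z.2 i))).le
    unfold ht e2_k
    exact_mod_cast this
  · unfold ht
    have h5 : ((max (z.1 i) (z.2 i) : ℕ) : ℝ) ≤ (⌊B i⌋₊ : ℝ) := by exact_mod_cast hmax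
    exact h5.trans (Nat.floor_le (by linarith [hB i]))
  · unfold e2_k
    exact Nat.lt_succ_of_le (Nat.log_mono_right hmax)

/-- The contribution of one class. -/
lemma e2_class (M : ℕ) (B : Fin 9 → ℝ) (S' : Finset (Vec × Vec)) (K : ℝ)
    (hB : ∀ i, 1 ≤ B i) (hK : 0 ≤ K) (hS : S' ⊆ Sol M B)
    (h : ∀ z ∈ S', ∀ U : Fin 9 → ℝ, (∀ i, ht z i ≤ U i ∧ U i ≤ 2 * ht z i ∧ U i ≤ B i) →
      NN M U ≤ K * ∏ i, U i) (k : Fin 9 → ℕ) :
    ∑ z ∈ S'.filter (fun z => e2_k z = k), ∏ i, B i / ht z i ≤ 512 * (K * ∏ i, B i) := by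
  classical
  have hBp : ∀ i, 0 < B i := fun i => by linarith [hB i]
  have hprod : 0 ≤ ∏ i, B i := Finset.prod_nonneg (fun i _ => (hBp i).le)
  rcases (S'.filter (fun z => e2_k z = k)).eq_empty_or_nonempty with he | ⟨z0, hz0⟩
  · rw [he, Finset.sum_empty]
    positivity
  · rw [Finset.mem_filter] at hz0
    obtain ⟨hz0S, hz0k⟩ := hz0
    set U : Fin 9 → ℝ := fun i => min ((2 : ℝ) ^ (k i + 1)) (B i) with hU
    have hU1 : NN M U ≤ K * ∏ i, U i := by
      refine h z0 hz0S U (fun i => ?_)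
      obtain ⟨b1, b2, b3, _⟩ := e2_bounds hB (hS hz0S) i
      rw [hz0k] at b1 b2
      refine ⟨le_min b2 b3, ?_, min_le_right _ _⟩
      calc U i ≤ (2 : ℝ) ^ (k i + 1) := min_le_left _ _
        _ = 2 * (2 : ℝ) ^ (k i) := by rw [pow_succ]; ring
        _ ≤ 2 * ht z0 i := by linarith
    have hcard : ((S'.filter (fun z => e2_k z = k)).card : ℝ) ≤ NN M U := by
      unfold NN
      have hsub : S'.filter (fun z => e2_k z = k) ⊆ Sol M U := by
        intro z hz
        rw [Finset.mem_filter] at hz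
        have hzB := hS hz.1
        have hb := fun i => e2_bounds hB hzB i
        have hm := fun i => e2_mem hzB i
        have hzB' := hzB
        unfold Sol at hzB' ⊢
        rw [Finset.mem_filter, Finset.mem_product] at hzB' ⊢
        have hle : ∀ i, ht z i ≤ U i := by
          intro i
          obtain ⟨_, b2, b3, _⟩ := hb i
          rw [hz.2] at b2
          exact le_min b2 b3
        refine ⟨⟨?_, ?_⟩, hzB'.2⟩
        · unfold vbox
          rw [Fintype.mem_piFinset]
          intro i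
          refine Finset.mem_Icc.2 ⟨(hm i).1, Nat.le_floor ?_⟩
          have : ((z.1 i : ℕ) : ℝ) ≤ ht z i := by
            unfold ht
            exact_mod_cast le_max_left (z.1 i) (z.2 i)
          exact this.trans (hle i)
        · unfold vbox
          rw [Fintype.mem_piFinset]
          intro i
          refine Finset.mem_Icc.2 ⟨(hm i).2.2.1, Nat.le_floor ?_⟩
          have : ((z.2 i : ℕ) : ℝ) ≤ ht z i := by
            unfold ht
            exact_mod_cast le_max_right (z.1 i) (z.2 i)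
          exact this.trans (hle i)
      exact_mod_cast Finset.card_le_card hsub
    have hterm : ∀ z ∈ S'.filter (fun z => e2_k z = k),
        ∏ i, B i / ht z i ≤ ∏ i, B i / (2 : ℝ) ^ (k i) := by
      intro z hz
      rw [Finset.mem_filter] at hz
      refine Finset.prod_le_prod (fun i _ => ?_) (fun i _ => ?_)
      · obtain ⟨b1, _⟩ := e2_bounds hB (hS hz.1) i
        have : 0 < ht z i := lt_of_lt_of_le (by positivity) b1
        exact div_nonneg (hBp i).le this.le
      · obtain ⟨b1, _⟩ := e2_bounds hB (hS hz.1) i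
        rw [hz.2] at b1
        exact div_le_div_of_nonneg_left (hBp i).le (by positivity) b1
    have hP0 : 0 ≤ ∏ i, B i / (2 : ℝ) ^ (k i) :=
      Finset.prod_nonneg (fun i _ => div_nonneg (hBp i).le (by positivity))
    have hUp : ∏ i, U i ≤ ∏ i : Fin 9, (2 : ℝ) ^ (k i + 1) := by
      refine Finset.prod_le_prod (fun i _ => ?_) (fun i _ => min_le_left _ _)
      exact le_min (by positivity) (hBp i).le
    calc ∑ z ∈ S'.filter (fun z => e2_k z = k), ∏ i, B i / ht z i
        ≤ ∑ z ∈ S'.filter (fun z => e2_k z = k), ∏ i, B i / (2 : ℝ) ^ (k i) :=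
          Finset.sum_le_sum hterm
      _ = ((S'.filter (fun z => e2_k z = k)).card : ℝ) * ∏ i, B i / (2 : ℝ) ^ (k i) := by
          rw [Finset.sum_const, nsmul_eq_mul]
      _ ≤ (K * ∏ i : Fin 9, (2 : ℝ) ^ (k i + 1)) * ∏ i, B i / (2 : ℝ) ^ (k i) := by
          refine mul_le_mul_of_nonneg_right ?_ hP0
          exact hcard.trans (hU1.trans (mul_le_mul_of_nonneg_left hUp hK))
      _ = 512 * (K * ∏ i, B i) := by
          rw [mul_assoc, ← Finset.prod_mul_distrib]
          have : ∀ i ∈ (Finset.univ : Finset (Fin 9)),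
              (2 : ℝ) ^ (k i + 1) * (B i / (2 : ℝ) ^ (k i)) = 2 * B i := by
            intro i _
            rw [pow_succ]
            field_simp
          rw [Finset.prod_congr rfl this, Finset.prod_mul_distrib, Finset.prod_const,
            Finset.card_univ, Fintype.card_fin]
          ring

theorem e2_thm : E2Stmt := by
  classical
  intro ε hε
  have hl2 : 0 < Real.log 2 := Real.log_pos (by norm_num)
  have hc0 : 0 < 1 / (ε * Real.log 2) := by positivity
  set c : ℝ := 1 + 1 / (ε * Real.log 2) with hc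
  have hc1 : 1 ≤ c := by linarith
  refine ⟨512 * c ^ 9, ?_, ?_⟩
  · have := one_le_pow₀ hc1 (n := 9)
    linarith
  · intro M B S' K hM hB hK hS h
    have hBp : ∀ i, 0 < B i := fun i => by linarith [hB i]
    have hprod : 0 ≤ ∏ i, B i := Finset.prod_nonneg (fun i _ => (hBp i).le)
    set T : Finset (Fin 9 → ℕ) :=
      Fintype.piFinset (fun i => Finset.range (Nat.log 2 ⌊B i⌋₊ + 1)) with hT
    have hmaps : ∀ z ∈ S', e2_k z ∈ T := by
      intro z hz
      rw [hT, Fintype.mem_piFinset]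
      intro i
      exact Finset.mem_range.2 (e2_bounds hB (hS hz) i).2.2.2
    have hTcard : (T.card : ℝ) ≤ c ^ 9 * (∏ i, B i) ^ ε := by
      rw [hT, Fintype.card_piFinset]
      push_cast [Finset.card_range]
      calc ∏ i : Fin 9, ((Nat.log 2 ⌊B i⌋₊ : ℝ) + 1)
          ≤ ∏ i : Fin 9, (c * (B i) ^ ε) := by
            refine Finset.prod_le_prod (fun i _ => by positivity) (fun i _ => ?_)
            have := e2_log hε (hB i)
            push_cast at this
            exact this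
        _ = c ^ 9 * (∏ i, B i) ^ ε := by
            rw [Finset.prod_mul_distrib, Finset.prod_const, Finset.card_univ, Fintype.card_fin,
              ← Real.finsetProd_rpow _ _ (fun i _ => (hBp i).le)]
    calc ∑ z ∈ S', ∏ i, B i / ht z i
        = ∑ k ∈ T, ∑ z ∈ S'.filter (fun z => e2_k z = k), ∏ i, B i / ht z i :=
          (Finset.sum_fiberwise_of_maps_to hmaps _).symm
      _ ≤ ∑ k ∈ T, 512 * (K * ∏ i, B i) :=
          Finset.sum_le_sum (fun k _ => e2_class M B S' K hB hK hS h k)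
      _ = (T.card : ℝ) * (512 * (K * ∏ i, B i)) := by rw [Finset.sum_const, nsmul_eq_mul]
      _ ≤ (c ^ 9 * (∏ i, B i) ^ ε) * (512 * (K * ∏ i, B i)) :=
          mul_le_mul_of_nonneg_right hTcard (by positivity)
      _ = 512 * c ^ 9 * (∏ i, B i) ^ ε * K * ∏ i, B i := by ring

end Pool.Agent.Helper21.EN
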