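import Pool.Agent.Helper21.EN.FStmts

set_option autoImplicit false

/-!
# Project EN, final piece FC1

Paper: /team-store/EN_paper.md, section 8.

Proof. W := u + v < 1/2 + 5h (tot, Rbig). From a9 and b9: sum_{e in Icc 1 8} (9-e)(a_e + b_e) >= 9 (1/2 - 4h) - 2 - 72 h >= 2.4, the coefficients sum to 36, so some e in Icc 1 8 has a_e >= 3/100 or b_e >= 3/100. By symmetry assume a_e >= 3/100 (otherwise exchange p and q: image of TT under (p,q,r) -> (q,p,r); Tri is symmetric).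
X >= X0 (X^(m/10 - h) >= 4; for X < X0: TT.card <= X because t -> r is injective and r <= X, so C >= X0 suffices): r <= X^(rho+h) <= X^(1-m/10+h) <= X/4, the largest entry is > X/2 (CT.big), it is p or q, and they differ by r (r = p+q is impossible), so p >= X/4. h1 with eps = h, i = e, x0 = X^(a_e), x1 = X^(a_e+h), W = X^(u+v+2h), rho = X^(rho+h)
(x0 <= W since a_e <= u + h by arad and nonnegativity, v >= 0): |TT| <= C X^(h + u+v+2h - a_e)(1 + X^(a_e + rho + 2h - 1)) <= C X^(1/2 + 8h)(X^(-3/100) + X^(-m/10+2h)) <= 2C X^(1/2-h).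
-/

namespace Pool.Agent.Helper21.EN

open Finset

/-- The swap of a triple. -/
lemma fc1_tri_swap {X p q r : ℕ} (t : Tri X p q r) : Tri X q p r where
  hp := t.hq
  hq := t.hp
  hr := t.hr
  pq := t.pq.symm
  pr := t.qr
  qr := t.pr
  pX := t.qX
  qX := t.pX
  rX := t.rX
  rel := by
    have := t.rel
    omega

lemma fc1_small_swap {h : ℝ} {θ : Ex} (hs : Small h θ.swap) : Small h θ := by
  classical
  obtain ⟨C, hC⟩ := hs
  refine ⟨C, fun X TT hX hct => ?_⟩
  let σ : ℕ × ℕ × ℕ → ℕ × ℕ × ℕ := fun t => (t.2.1, t.1, t.2.2)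
  have hσ : Function.Injective σ := by
    rintro ⟨p, q, r⟩ ⟨p', q', r'⟩ hpq
    simp only [σ, Prod.mk.injEq] at hpq
    simp only [Prod.mk.injEq]
    exact ⟨hpq.2.1, hpq.1, hpq.2.2⟩
  have hcard : (TT.image σ).card = TT.card := Finset.card_image_of_injective _ hσ
  rw [← hcard]
  apply hC X (TT.image σ) hX
  constructor
  · intro t ht
    obtain ⟨s, hs, rfl⟩ := Finset.mem_image.1 ht
    have := hct.mem s hs
    exact ⟨fc1_tri_swap this.tri, this.b, this.a, this.v, this.u, this.ρ, this.R, this.r1,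
      this.r2, this.s, this.c, this.w⟩
  · intro t ht
    obtain ⟨s, hs, rfl⟩ := Finset.mem_image.1 ht
    have := hct.rad s hs
    simp only [σ]
    rw [mul_comm (rad s.2.1 : ℝ) (rad s.1 : ℝ)]
    exact this
  · intro t ht
    obtain ⟨s, hs, rfl⟩ := Finset.mem_image.1 ht
    have := hct.big s hs
    simp only [σ]
    tauto
  · intro t ht t' ht' heq
    obtain ⟨s, hs, rfl⟩ := Finset.mem_image.1 ht
    obtain ⟨s', hs', rfl⟩ := Finset.mem_image.1 ht'
    rw [hct.inj s hs s' hs' heq]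

/-- The number of triples is at most `X`. -/
lemma fc1_card_le {h : ℝ} {θ : Ex} {X : ℕ} {TT : Finset (ℕ × ℕ × ℕ)} (hct : CT h θ X TT) :
    TT.card ≤ X := by
  classical
  have h1 : TT.card ≤ (Finset.Icc 1 X).card := by
    apply Finset.card_le_card_of_injOn (fun t => t.2.2)
    · intro t ht
      have := (hct.mem t ht).tri
      simp only [Finset.coe_Icc, Set.mem_Icc]
      exact ⟨this.hr, this.rX⟩
    · intro t ht t' ht' heq
      exact hct.inj t ht t' ht' heq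
  rw [Nat.card_Icc] at h1
  omega

lemma fc1_main (h1 : C1Stmt) {m h : ℝ} {θ : Ex} (hm : 0 < m) (hm1 : m ≤ 1 / 10 ^ 8)
    (hh : 0 < h) (hhm : h ≤ m / 10 ^ 6) (nn : θ.Nn)
    (harad : ∑ e ∈ Finset.Icc (1 : ℕ) 1000, θ.a e ≤ θ.u + h)
    (huv : θ.u + θ.v < 1 / 2 + 5 * h) (hρ : θ.ρ ≤ 1 - m / 10) {e : ℕ}
    (he : e ∈ Finset.Icc 1 8) (hae : 3 / 100 ≤ θ.a e) : Small h θ := by
  classical
  obtain ⟨C, hC1, hC⟩ := h1 h hh
  have he' := Finset.mem_Icc.1 he
  have he2 : e ∈ Finset.Icc 1 1000 := Finset.mem_Icc.2 ⟨he'.1, by omega⟩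
  have hale : θ.a e ≤ θ.u + h :=
    (Finset.single_le_sum (f := fun e => θ.a e) (fun i _ => nn.a i) he2).trans harad
  have hexp : 0 < m / 10 - h := by
    have : m / 10 ^ 6 < m / 10 := by
      apply div_lt_div_of_pos_left hm (by norm_num) (by norm_num)
    linarith
  refine ⟨max (2 * C) ((4 : ℝ) ^ (1 / (m / 10 - h))), fun X TT hX hct => ?_⟩
  have hX1 : (1 : ℝ) ≤ X := by exact_mod_cast (by omega : 1 ≤ X)
  have hX0 : (0 : ℝ) < X := by linarith
  have hpow1 : (1 : ℝ) ≤ (X : ℝ) ^ (1 / 2 - h) := by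
    apply Real.one_le_rpow hX1
    have : m / 10 ^ 6 ≤ 1 / 10 ^ 8 / 10 ^ 6 := by
      apply div_le_div_of_nonneg_right hm1 (by norm_num)
    have h2 : (1 : ℝ) / 10 ^ 8 / 10 ^ 6 ≤ 1 / 2 := by norm_num
    linarith
  by_cases hbig : (4 : ℝ) ≤ (X : ℝ) ^ (m / 10 - h)
  · -- main case
    have hr4 : ∀ t ∈ TT, (4 : ℝ) * t.2.2 ≤ X := by
      intro t ht
      have h3 := (hct.mem t ht).ρ.2
      have h4 : (X : ℝ) ^ (θ.ρ + h) ≤ (X : ℝ) ^ (1 - (m / 10 - h)) := by
        apply Real.rpow_le_rpow_of_exponent_le hX1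
        linarith
      have h5 : (X : ℝ) ^ (1 - (m / 10 - h)) * (X : ℝ) ^ (m / 10 - h) = X := by
        rw [← Real.rpow_add hX0]
        have : 1 - (m / 10 - h) + (m / 10 - h) = 1 := by ring
        rw [this, Real.rpow_one]
      have h6 : (0 : ℝ) ≤ (X : ℝ) ^ (1 - (m / 10 - h)) := Real.rpow_nonneg hX0.le _
      nlinarith [h3.trans h4]
    have hp4 : ∀ t ∈ TT, (X : ℝ) ≤ 4 * t.1 := by
      intro t ht
      have hr := hr4 t ht
      have hr' : 4 * t.2.2 ≤ X := by exact_mod_cast hr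
      have htri := (hct.mem t ht).tri
      have hb := hct.big t ht
      have hrel := htri.rel
      have h7 := htri.hp
      have h8 := htri.hq
      have h9 := htri.hr
      have : X ≤ 4 * t.1 := by omega
      exact_mod_cast this
    have key := hC X e ((X : ℝ) ^ (θ.a e)) ((X : ℝ) ^ (θ.a e + h))
      ((X : ℝ) ^ (θ.u + θ.v + 2 * h)) ((X : ℝ) ^ (θ.ρ + h)) TT hX he'.1 he'.2
      (Real.one_le_rpow hX1 (nn.a e))
      (Real.rpow_le_rpow_of_exponent_le hX1 (by linarith))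
      (Real.rpow_le_rpow_of_exponent_le hX1 (by linarith [nn.v]))
      (Real.one_le_rpow hX1 (by linarith [nn.ρ]))
      (by
        intro t ht
        have hin := hct.mem t ht
        refine ⟨hin.tri, hp4 t ht, hin.ρ.2, (hin.a e he2).1, (hin.a e he2).2, ?_⟩
        have h10 := hin.u.2
        have h11 := hin.v.2
        calc (rad t.1 : ℝ) * rad t.2.1 ≤ (X : ℝ) ^ (θ.u + h) * (X : ℝ) ^ (θ.v + h) :=
              mul_le_mul h10 h11 (Nat.cast_nonneg _) (Real.rpow_nonneg hX0.le _)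
          _ = (X : ℝ) ^ (θ.u + θ.v + 2 * h) := by
              rw [← Real.rpow_add hX0]
              congr 1
              ring)
    have hC0 : 0 ≤ C := by linarith
    have hrew : C * (X : ℝ) ^ h * ((X : ℝ) ^ (θ.u + θ.v + 2 * h) / (X : ℝ) ^ (θ.a e)) *
        (1 + (X : ℝ) ^ (θ.a e + h) * (X : ℝ) ^ (θ.ρ + h) / X) =
        C * ((X : ℝ) ^ (θ.u + θ.v + 3 * h - θ.a e) +
          (X : ℝ) ^ (θ.u + θ.v + 5 * h + θ.ρ - 1)) := by
      rw [← Real.rpow_sub hX0, ← Real.rpow_add hX0]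
      have hXX : (X : ℝ) ^ (θ.a e + h + (θ.ρ + h)) / X =
          (X : ℝ) ^ (θ.a e + h + (θ.ρ + h) - 1) := by
        rw [Real.rpow_sub hX0, Real.rpow_one]
      rw [hXX, mul_assoc C, ← Real.rpow_add hX0, mul_assoc C, mul_add, mul_one,
        ← Real.rpow_add hX0]
      congr 3
      · ring
      · ring
    rw [hrew] at key
    have hA : (X : ℝ) ^ (θ.u + θ.v + 3 * h - θ.a e) ≤ (X : ℝ) ^ (1 / 2 - h) := by
      apply Real.rpow_le_rpow_of_exponent_le hX1
      have : m / 10 ^ 6 ≤ 1 / 10 ^ 8 / 10 ^ 6 := by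
        apply div_le_div_of_nonneg_right hm1 (by norm_num)
      have h2 : (1 : ℝ) / 10 ^ 8 / 10 ^ 6 ≤ 1 / 1000 := by norm_num
      linarith
    have hB : (X : ℝ) ^ (θ.u + θ.v + 5 * h + θ.ρ - 1) ≤ (X : ℝ) ^ (1 / 2 - h) := by
      apply Real.rpow_le_rpow_of_exponent_le hX1
      have : 11 * (m / 10 ^ 6) ≤ m / 10 := by
        have : 11 * (m / 10 ^ 6) = m * (11 / 10 ^ 6) := by ring
        rw [this]
        have : m / 10 = m * (1 / 10) := by ring
        rw [this]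
        apply mul_le_mul_of_nonneg_left _ hm.le
        norm_num
      linarith
    calc (TT.card : ℝ) ≤ C * ((X : ℝ) ^ (θ.u + θ.v + 3 * h - θ.a e) +
          (X : ℝ) ^ (θ.u + θ.v + 5 * h + θ.ρ - 1)) := key
      _ ≤ C * ((X : ℝ) ^ (1 / 2 - h) + (X : ℝ) ^ (1 / 2 - h)) :=
          mul_le_mul_of_nonneg_left (add_le_add hA hB) hC0
      _ = 2 * C * (X : ℝ) ^ (1 / 2 - h) := by ring
      _ ≤ max (2 * C) ((4 : ℝ) ^ (1 / (m / 10 - h))) * (X : ℝ) ^ (1 / 2 - h) :=
          mul_le_mul_of_nonneg_right (le_max_left _ _) (by linarith)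
  · -- small X
    have hbig' : (X : ℝ) ^ (m / 10 - h) < 4 := not_le.1 hbig
    have h12 : (X : ℝ) ≤ (4 : ℝ) ^ (1 / (m / 10 - h)) := by
      have h13 : ((X : ℝ) ^ (m / 10 - h)) ^ (1 / (m / 10 - h)) ≤
          (4 : ℝ) ^ (1 / (m / 10 - h)) :=
        Real.rpow_le_rpow (Real.rpow_nonneg hX0.le _) hbig'.le (by positivity)
      rwa [← Real.rpow_mul hX0.le, mul_one_div_cancel hexp.ne', Real.rpow_one] at h13
    have h14 : (TT.card : ℝ) ≤ X := by exact_mod_cast fc1_card_le hct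
    calc (TT.card : ℝ) ≤ X := h14
      _ ≤ (4 : ℝ) ^ (1 / (m / 10 - h)) := h12
      _ ≤ max (2 * C) ((4 : ℝ) ^ (1 / (m / 10 - h))) := le_max_right _ _
      _ = max (2 * C) ((4 : ℝ) ^ (1 / (m / 10 - h))) * 1 := (mul_one _).symm
      _ ≤ max (2 * C) ((4 : ℝ) ^ (1 / (m / 10 - h))) * (X : ℝ) ^ (1 / 2 - h) := by
          apply mul_le_mul_of_nonneg_left hpow1
          exact le_trans (by positivity) (le_max_right (2 * C) _)

theorem fc1_thm (h1 : C1Stmt) : FC1Stmt := by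
  intro m h θ hm hm1 hh hhm hcon hρ
  have hsmall : h ≤ 1 / 10 ^ 4 := by
    have : m / 10 ^ 6 ≤ 1 / 10 ^ 8 / 10 ^ 6 := by
      apply div_le_div_of_nonneg_right hm1 (by norm_num)
    have h2 : (1 : ℝ) / 10 ^ 8 / 10 ^ 6 ≤ 1 / 10 ^ 4 := by norm_num
    linarith
  have huv : θ.u + θ.v < 1 / 2 + 5 * h := by
    have := hcon.con.tot
    have := hcon.Rbig
    linarith
  have hsel : (∃ e ∈ Finset.Icc 1 8, 3 / 100 ≤ θ.a e) ∨
      (∃ e ∈ Finset.Icc 1 8, 3 / 100 ≤ θ.b e) := by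
    by_contra hne
    push Not at hne
    obtain ⟨ha, hb⟩ := hne
    have h9a := hcon.con.a9
    have h9b := hcon.con.b9
    have hW := hcon.Wbig
    have hsa : ∑ e ∈ Finset.Icc (1 : ℕ) 8, (9 - (e : ℝ)) * (θ.a e + h) ≤
        ∑ e ∈ Finset.Icc (1 : ℕ) 8, (9 - (e : ℝ)) * (3 / 100 + h) := by
      apply Finset.sum_le_sum
      intro e he
      have h3 := ha e he
      have h4 : (e : ℝ) ≤ 8 := by exact_mod_cast (Finset.mem_Icc.1 he).2
      apply mul_le_mul_of_nonneg_left _ (by linarith)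
      linarith
    have hsb : ∑ e ∈ Finset.Icc (1 : ℕ) 8, (9 - (e : ℝ)) * (θ.b e + h) ≤
        ∑ e ∈ Finset.Icc (1 : ℕ) 8, (9 - (e : ℝ)) * (3 / 100 + h) := by
      apply Finset.sum_le_sum
      intro e he
      have h3 := hb e he
      have h4 : (e : ℝ) ≤ 8 := by exact_mod_cast (Finset.mem_Icc.1 he).2
      apply mul_le_mul_of_nonneg_left _ (by linarith)
      linarith
    have hsum : ∑ e ∈ Finset.Icc (1 : ℕ) 8, (9 - (e : ℝ)) * (3 / 100 + h) =
        36 * (3 / 100 + h) := by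
      rw [← Finset.sum_mul]
      congr 1
      simp only [Finset.sum_Icc_succ_top, Finset.Icc_self, Finset.sum_singleton, Nat.reduceLeDiff,
        Nat.reduceAdd]
      norm_num [Finset.sum_Icc_succ_top]
    rw [hsum] at hsa hsb
    linarith
  rcases hsel with ⟨e, he, hae⟩ | ⟨e, he, hbe⟩
  · exact fc1_main h1 hm hm1 hh hhm hcon.nn hcon.con.arad huv hρ he hae
  · apply fc1_small_swap
    have nn' : θ.swap.Nn := ⟨hcon.nn.b, hcon.nn.a, hcon.nn.v, hcon.nn.u, hcon.nn.ρ, hcon.nn.R,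
      hcon.nn.r1, hcon.nn.r2, hcon.nn.s, hcon.nn.c, hcon.nn.w⟩
    refine fc1_main h1 hm hm1 hh hhm nn' hcon.con.brad ?_ hρ he hbe
    show θ.v + θ.u < 1 / 2 + 5 * h
    linarith

end Pool.Agent.Helper21.EN
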