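import Pool.Agent.Helper21.EN.FStmts

set_option autoImplicit false

/-!
# Project EN, final piece FC2

The statement is in EN/FStmts.lean. Paper: /team-store/EN_paper.md, section 8.

Proof. W := u+v, 1/2 - 4h < W < 1/2 + 5h (tot, Rbig). t1 := X^(2/10^7): r <= X <= t1 (pc 2 r)^2 since pc 2 r >= X^(r2) >= X^(1/2 - 1/10^7). 1000 h <= m/1000 <= 10^(-11). All bounds are for all X >= 2 with constants. Everything is symmetric in p and q (image under (p,q,r) -> (q,p,r)); prove each bound for p and transfer.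
(a) Some e in Icc 1 1000 with a_e >= 1/10^6 and e a_e <= 1/2 + 1/10^7 (or the same for b): ha with i = e, x0 = X^(a_e), W = X^(u+v+2h), Y = X^(e(a_e+h)), r0 = X^rho, eps = h: exponents h + 2/10^7 + W + 2h - a_e + max(0, e a_e + e h - rho/2), rho > 1 - m/10: total < 1/2 + 8h + 2/10^7 - 1/10^6 + 1/10^7 + 1000h + m/20 < 1/2 - h. (sqrt(X^rho) = X^(rho/2).)
(b) Some even e = 2h' in Icc 1 1000 with a_e >= 1/10 (or b_e): hp with h' and Y = X^(u+v+2h-a_e) (>= 1 by arad): exponent h + 2/10^7 + W + 2h - 1/10 < 1/2 - h.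
(c) Otherwise: every e with a_e >= 1/10^6 has e a_e > 1/2 + 1/10^7, so by asum (sum e a_e <= 1, a_e >= 0) there is at most one such e for p, same for q. From au: u <= 1/1001 + sum_{e <= 1000} (a_e + h) <= 1/1001 + 1000 h + 1/1000 + (a_i if the exceptional index i exists): u <= a_i + 3/1000, resp. u <= 3/1000; the same for v, b_j.
  If i does not exist or a_i < 1/10: v >= 1/2 - 4h - 103/1000 > 39/100, so j exists with b_j > 38/100 and j b_j <= 1 gives j <= 2; j = 2 is excluded by (b), j = 1: b_1 > 1/2 + 1/10^7 contradicts b_1 <= v + h <= W + h. Symmetric for j. So i, j exist, a_i, b_j >= 1/10, both odd (by (b)): hs with l = 1/40, L = X^(1/40), eps = h,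
  Zx = X^(a_i+h), Zy = X^(b_j+h) (<= X since a_i <= u + h < 1 - h), Y = X^(u+v+2h-a_i-b_j) (>= 1), exponent <= 2h + 2/10^7 + max(W + 4h - 1/40, W + 4h - 1/10 + 1/20) < 1/2 - h.
-/

namespace Pool.Agent.Helper21.EN

open Finset

/-- exchange of `p` and `q` -/
def fc2_sw (t : ℕ × ℕ × ℕ) : ℕ × ℕ × ℕ := (t.2.1, t.1, t.2.2)

lemma fc2_sw_inj : Function.Injective fc2_sw := by
  intro t t' h
  unfold fc2_sw at h
  simp only [Prod.mk.injEq] at h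
  ext
  · exact h.2.1
  · exact h.1
  · exact h.2.2

lemma fc2_tri {X p q r : ℕ} (h : Tri X p q r) : Tri X q p r :=
  ⟨h.hq, h.hp, h.hr, h.pq.symm, h.qr, h.pr, h.qX, h.pX, h.rX, by have := h.rel; omega⟩

lemma fc2_CT {h : ℝ} {θ : Ex} {X : ℕ} {TT : Finset (ℕ × ℕ × ℕ)} (H : CT h θ X TT) :
    CT h θ.swap X (TT.image fc2_sw) := by
  refine ⟨?_, ?_, ?_, ?_⟩
  · intro t ht
    obtain ⟨t0, ht0, rfl⟩ := mem_image.1 ht
    have h1 := H.mem t0 ht0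
    exact ⟨fc2_tri h1.tri, h1.b, h1.a, h1.v, h1.u, h1.ρ, h1.R, h1.r1, h1.r2, h1.s, h1.c, h1.w⟩
  · intro t ht
    obtain ⟨t0, ht0, rfl⟩ := mem_image.1 ht
    have h1 := H.rad t0 ht0
    rw [mul_comm (rad t0.1 : ℝ)] at h1
    exact h1
  · intro t ht
    obtain ⟨t0, ht0, rfl⟩ := mem_image.1 ht
    have h1 := H.big t0 ht0
    change X < 2 * t0.2.1 ∨ X < 2 * t0.1 ∨ X < 2 * t0.2.2
    tauto
  · intro t ht t' ht' he
    obtain ⟨t0, ht0, rfl⟩ := mem_image.1 ht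
    obtain ⟨t1, ht1, rfl⟩ := mem_image.1 ht'
    rw [H.inj t0 ht0 t1 ht1 he]

lemma fc2_small {h : ℝ} {θ : Ex} (H : Small h θ.swap) : Small h θ := by
  obtain ⟨C, hC⟩ := H
  refine ⟨C, fun X TT hX hTT => ?_⟩
  have h1 := hC X _ hX (fc2_CT hTT)
  rwa [card_image_of_injective _ fc2_sw_inj] at h1

lemma fc2_con {h : ℝ} {θ : Ex} (H : Con h θ) : Con h θ.swap := by
  have n := H.nn
  have c := H.con
  refine ⟨⟨n.b, n.a, n.v, n.u, n.ρ, n.R, n.r1, n.r2, n.s, n.c, n.w⟩,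
    ⟨c.bsum, c.asum, c.brad, c.arad, c.bv, c.au, c.b9, c.a9, ?_, c.ρ1, c.r_up, c.r_lo, c.R_up,
      c.R_lo, c.s3, c.ws, c.w4⟩, H.Rbig, ?_⟩
  · have := c.tot
    change θ.v + θ.u + θ.R ≤ 1 + h
    linarith
  · have := H.Wbig
    change 1 / 2 - 4 * h < θ.v + θ.u
    linarith

/-- sum of `u` and `v` -/
lemma fc2_W {h : ℝ} {θ : Ex} (H : Con h θ) : θ.u + θ.v < 1 / 2 + 5 * h := by
  have := H.con.tot
  have := H.Rbig
  linarith

lemma fc2_ae {h : ℝ} {θ : Ex} (H : Con h θ) {e : ℕ} (he : e ∈ Icc 1 1000) :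
    θ.a e ≤ θ.u + h :=
  (single_le_sum (f := fun e => θ.a e) (fun i _ => H.nn.a i) he).trans H.con.arad

lemma fc2_be {h : ℝ} {θ : Ex} (H : Con h θ) {e : ℕ} (he : e ∈ Icc 1 1000) :
    θ.b e ≤ θ.v + h :=
  (single_le_sum (f := fun e => θ.b e) (fun i _ => H.nn.b i) he).trans H.con.brad

/-- `r ≤ t1 (pc 2 r) ^ 2` -/
lemma fc2_t1 {h : ℝ} {θ : Ex} {X : ℕ} {t : ℕ × ℕ × ℕ} (hX : 2 ≤ X) (H : InC X h θ t)
    (hr2 : 1 / 2 - 1 / 10 ^ 7 ≤ θ.r2) :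
    (t.2.2 : ℝ) ≤ (X : ℝ) ^ (2 / 10 ^ 7 : ℝ) * (pc 2 t.2.2 : ℝ) ^ 2 := by
  have hx : (1 : ℝ) ≤ X := by exact_mod_cast (by omega : 1 ≤ X)
  have hx0 : (0 : ℝ) < X := by linarith
  have h1 : (t.2.2 : ℝ) ≤ X := by exact_mod_cast H.tri.rX
  have h2 : (X : ℝ) ^ (1 / 2 - 1 / 10 ^ 7 : ℝ) ≤ pc 2 t.2.2 :=
    (Real.rpow_le_rpow_of_exponent_le hx hr2).trans H.r2.1
  have h3 : (X : ℝ) = (X : ℝ) ^ (2 / 10 ^ 7 : ℝ) * ((X : ℝ) ^ (1 / 2 - 1 / 10 ^ 7 : ℝ)) ^ 2 := by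
    rw [← Real.rpow_natCast ((X : ℝ) ^ (1 / 2 - 1 / 10 ^ 7 : ℝ)) 2, ← Real.rpow_mul hx0.le,
      ← Real.rpow_add hx0]
    conv_lhs => rw [← Real.rpow_one (X : ℝ)]
    congr 1
    norm_num
  calc (t.2.2 : ℝ) ≤ X := h1
    _ = (X : ℝ) ^ (2 / 10 ^ 7 : ℝ) * ((X : ℝ) ^ (1 / 2 - 1 / 10 ^ 7 : ℝ)) ^ 2 := h3
    _ ≤ _ := by gcongr

lemma fc2_rr {h : ℝ} {θ : Ex} {X : ℕ} {t : ℕ × ℕ × ℕ} (hX : 2 ≤ X) (H : InC X h θ t) :
    (rad t.1 : ℝ) * rad t.2.1 ≤ (X : ℝ) ^ (θ.u + θ.v + 2 * h) := by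
  have hx0 : (0 : ℝ) < X := by exact_mod_cast (by omega : 0 < X)
  have h1 := H.u.2
  have h2 := H.v.2
  calc (rad t.1 : ℝ) * rad t.2.1 ≤ (X : ℝ) ^ (θ.u + h) * (X : ℝ) ^ (θ.v + h) := by gcongr
    _ = _ := by
      rw [← Real.rpow_add hx0]
      congr 1
      ring

lemma fc2_A (ha : C2aStmt) {m h : ℝ} {θ : Ex} (hm : 0 < m) (hm8 : m ≤ 1 / 10 ^ 8) (hh : 0 < h)
    (hhm : h ≤ m / 10 ^ 6) (H : Con h θ) (hρ : 1 - m / 10 < θ.ρ)
    (hr2 : 1 / 2 - 1 / 10 ^ 7 ≤ θ.r2) {e : ℕ} (he : e ∈ Icc 1 1000)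
    (h1 : 1 / 10 ^ 6 ≤ θ.a e) (h2 : (e : ℝ) * θ.a e ≤ 1 / 2 + 1 / 10 ^ 7) : Small h θ := by
  obtain ⟨C, hC1, hC⟩ := ha h hh
  refine ⟨C * 2, fun X TT hX hTT => ?_⟩
  have hx : (1 : ℝ) ≤ X := by exact_mod_cast (by omega : 1 ≤ X)
  have hx0 : (0 : ℝ) < X := by linarith
  have hW := fc2_W H
  have hae := fc2_ae H he
  have hu := H.nn.u
  have hv := H.nn.v
  have he1 := (mem_Icc.1 he).1
  have he2 : (e : ℝ) ≤ 1000 := by exact_mod_cast (mem_Icc.1 he).2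
  have key := hC X e ((X : ℝ) ^ θ.a e) ((X : ℝ) ^ (θ.u + θ.v + 2 * h))
    ((X : ℝ) ^ ((e : ℝ) * (θ.a e + h))) ((X : ℝ) ^ θ.ρ) ((X : ℝ) ^ (2 / 10 ^ 7 : ℝ)) TT hX he1
    (Real.one_le_rpow hx (H.nn.a e))
    (Real.rpow_le_rpow_of_exponent_le hx (by linarith))
    (Real.one_le_rpow hx (mul_nonneg (Nat.cast_nonneg _) (by linarith [H.nn.a e])))
    (Real.one_le_rpow hx H.nn.ρ) (Real.one_le_rpow hx (by norm_num))
    (fun t ht => by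
      have hc := hTT.mem t ht
      refine ⟨hc.tri, hc.ρ.1, fc2_t1 hX hc hr2, (hc.a e he).1, ?_, fc2_rr hX hc⟩
      have h3 := (hc.a e he).2
      calc (pc e t.1 : ℝ) ^ e ≤ ((X : ℝ) ^ (θ.a e + h)) ^ e := by gcongr
        _ = _ := by
          rw [← Real.rpow_natCast, ← Real.rpow_mul hx0.le, mul_comm])
  have hs : Real.sqrt ((X : ℝ) ^ θ.ρ) = (X : ℝ) ^ (θ.ρ / 2) := by
    rw [Real.sqrt_eq_rpow, ← Real.rpow_mul hx0.le]
    congr 1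
    ring
  rw [hs, ← Real.rpow_sub hx0, ← Real.rpow_sub hx0] at key
  have hz : 1 + (X : ℝ) ^ ((e : ℝ) * (θ.a e + h) - θ.ρ / 2)
      ≤ 2 * (X : ℝ) ^ (1 / 10 ^ 7 + 2 / 10 ^ 9 : ℝ) := by
    have g1 : (1 : ℝ) ≤ (X : ℝ) ^ (1 / 10 ^ 7 + 2 / 10 ^ 9 : ℝ) :=
      Real.one_le_rpow hx (by norm_num)
    have g2 : (X : ℝ) ^ ((e : ℝ) * (θ.a e + h) - θ.ρ / 2)
        ≤ (X : ℝ) ^ (1 / 10 ^ 7 + 2 / 10 ^ 9 : ℝ) := by
      apply Real.rpow_le_rpow_of_exponent_le hx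
      have g3 : (e : ℝ) * h ≤ 1000 * h := by gcongr
      rw [mul_add]
      linarith
    linarith
  have hC0 : 0 ≤ C := by linarith
  calc (TT.card : ℝ) ≤ _ := key
    _ ≤ C * (X : ℝ) ^ h * (X : ℝ) ^ (2 / 10 ^ 7 : ℝ) * (X : ℝ) ^ (θ.u + θ.v + 2 * h - θ.a e) *
        (2 * (X : ℝ) ^ (1 / 10 ^ 7 + 2 / 10 ^ 9 : ℝ)) := by gcongr
    _ = C * 2 * ((X : ℝ) ^ h * (X : ℝ) ^ (2 / 10 ^ 7 : ℝ) *
        (X : ℝ) ^ (θ.u + θ.v + 2 * h - θ.a e) * (X : ℝ) ^ (1 / 10 ^ 7 + 2 / 10 ^ 9 : ℝ)) := by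
      ring
    _ = C * 2 * (X : ℝ) ^ (h + 2 / 10 ^ 7 + (θ.u + θ.v + 2 * h - θ.a e) +
        (1 / 10 ^ 7 + 2 / 10 ^ 9)) := by
      rw [← Real.rpow_add hx0, ← Real.rpow_add hx0, ← Real.rpow_add hx0]
    _ ≤ C * 2 * (X : ℝ) ^ (1 / 2 - h) := by
      apply mul_le_mul_of_nonneg_left _ (by linarith)
      apply Real.rpow_le_rpow_of_exponent_le hx
      linarith

lemma fc2_B (hp : C2pStmt) {m h : ℝ} {θ : Ex} (hm : 0 < m) (hm8 : m ≤ 1 / 10 ^ 8) (hh : 0 < h)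
    (hhm : h ≤ m / 10 ^ 6) (H : Con h θ)
    (hr2 : 1 / 2 - 1 / 10 ^ 7 ≤ θ.r2) {e : ℕ} (he : e ∈ Icc 1 1000) (hev : Even e)
    (h1 : 1 / 10 ≤ θ.a e) : Small h θ := by
  obtain ⟨C, hC1, hC⟩ := hp h hh
  refine ⟨C, fun X TT hX hTT => ?_⟩
  have hx : (1 : ℝ) ≤ X := by exact_mod_cast (by omega : 1 ≤ X)
  have hx0 : (0 : ℝ) < X := by linarith
  have hW := fc2_W H
  have hae := fc2_ae H he
  have hu := H.nn.u
  have hv := H.nn.v
  obtain ⟨k, hk⟩ := hev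
  have hk1 : 1 ≤ k := by
    have := (mem_Icc.1 he).1
    omega
  have hk2 : 2 * k = e := by omega
  have key := hC X k ((X : ℝ) ^ (θ.u + θ.v + 2 * h - θ.a e)) ((X : ℝ) ^ (2 / 10 ^ 7 : ℝ)) TT hX hk1
    (Real.one_le_rpow hx (by linarith)) (Real.one_le_rpow hx (by norm_num))
    (fun t ht => by
      have hc := hTT.mem t ht
      refine ⟨hc.tri, fc2_t1 hX hc hr2, ?_⟩
      rw [hk2]
      have h3 := (hc.a e he).1
      calc (rad t.1 : ℝ) * rad t.2.1 ≤ (X : ℝ) ^ (θ.u + θ.v + 2 * h) := fc2_rr hX hc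
        _ = (X : ℝ) ^ (θ.u + θ.v + 2 * h - θ.a e) * (X : ℝ) ^ θ.a e := by
          rw [← Real.rpow_add hx0]
          congr 1
          ring
        _ ≤ _ := by gcongr)
  have hC0 : 0 ≤ C := by linarith
  calc (TT.card : ℝ) ≤ _ := key
    _ = C * (X : ℝ) ^ (h + 2 / 10 ^ 7 + (θ.u + θ.v + 2 * h - θ.a e)) := by
      rw [mul_assoc, mul_assoc, ← Real.rpow_add hx0, ← Real.rpow_add hx0]
      congr 2
      ring
    _ ≤ C * (X : ℝ) ^ (1 / 2 - h) := by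
      apply mul_le_mul_of_nonneg_left _ hC0
      apply Real.rpow_le_rpow_of_exponent_le hx
      linarith

lemma fc2_C (hs : C2sStmt) {m h : ℝ} {θ : Ex} (hm : 0 < m) (hm8 : m ≤ 1 / 10 ^ 8) (hh : 0 < h)
    (hhm : h ≤ m / 10 ^ 6) (H : Con h θ)
    (hr2 : 1 / 2 - 1 / 10 ^ 7 ≤ θ.r2) {i j : ℕ} (hi : i ∈ Icc 1 1000) (hj : j ∈ Icc 1 1000)
    (hio : Odd i) (hjo : Odd j) (h1 : 1 / 10 ≤ θ.a i) (h2 : 1 / 10 ≤ θ.b j) : Small h θ := by
  obtain ⟨C, hC1, hC⟩ := hs h (1 / 40) hh (by norm_num)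
  refine ⟨C * 3, fun X TT hX hTT => ?_⟩
  have hx : (1 : ℝ) ≤ X := by exact_mod_cast (by omega : 1 ≤ X)
  have hx0 : (0 : ℝ) < X := by linarith
  have hW := fc2_W H
  have hai := fc2_ae H hi
  have hbj := fc2_be H hj
  have hu := H.nn.u
  have hv := H.nn.v
  have ha0 := H.nn.a i
  have hb0 := H.nn.b j
  have hX1 : (X : ℝ) = (X : ℝ) ^ (1 : ℝ) := (Real.rpow_one _).symm
  have key := hC X i j ((X : ℝ) ^ (θ.u + θ.v + 2 * h - θ.a i - θ.b j))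
    ((X : ℝ) ^ (2 / 10 ^ 7 : ℝ)) ((X : ℝ) ^ (θ.a i + h)) ((X : ℝ) ^ (θ.b j + h))
    ((X : ℝ) ^ (1 / 40 : ℝ)) TT hX hio hjo
    (Real.one_le_rpow hx (by linarith)) (Real.one_le_rpow hx (by norm_num))
    (Real.one_le_rpow hx (by linarith)) (Real.one_le_rpow hx (by linarith))
    (by
      conv_rhs => rw [hX1]
      exact Real.rpow_le_rpow_of_exponent_le hx (by linarith))
    (by
      conv_rhs => rw [hX1]
      exact Real.rpow_le_rpow_of_exponent_le hx (by linarith))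
    le_rfl
    (by
      conv_rhs => rw [hX1]
      exact Real.rpow_le_rpow_of_exponent_le hx (by norm_num))
    (fun t ht => by
      have hc := hTT.mem t ht
      refine ⟨hc.tri, fc2_t1 hX hc hr2, (hc.a i hi).2, (hc.b j hj).2, ?_⟩
      have h3 := (hc.a i hi).1
      have h4 := (hc.b j hj).1
      calc (rad t.1 : ℝ) * rad t.2.1 ≤ (X : ℝ) ^ (θ.u + θ.v + 2 * h) := fc2_rr hX hc
        _ = (X : ℝ) ^ (θ.u + θ.v + 2 * h - θ.a i - θ.b j) * (X : ℝ) ^ θ.a i *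
            (X : ℝ) ^ θ.b j := by
          rw [← Real.rpow_add hx0, ← Real.rpow_add hx0]
          congr 1
          ring
        _ ≤ _ := by gcongr)
  have hC0 : 0 ≤ C := by linarith
  have g1 : (X : ℝ) ^ h * (X : ℝ) ^ (2 / 10 ^ 7 : ℝ) *
      (X : ℝ) ^ (θ.u + θ.v + 2 * h - θ.a i - θ.b j) *
      ((X : ℝ) ^ (θ.a i + h) * (X : ℝ) ^ (θ.b j + h) / (X : ℝ) ^ (1 / 40 : ℝ))
      ≤ (X : ℝ) ^ (1 / 2 - h) := by
    rw [← Real.rpow_add hx0, ← Real.rpow_add hx0, ← Real.rpow_add hx0, ← Real.rpow_sub hx0,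
      ← Real.rpow_add hx0]
    apply Real.rpow_le_rpow_of_exponent_le hx
    linarith
  have hL : ((X : ℝ) ^ (1 / 40 : ℝ)) ^ 2 = (X : ℝ) ^ (1 / 20 : ℝ) := by
    rw [← Real.rpow_natCast, ← Real.rpow_mul hx0.le]
    congr 1
    norm_num
  have g2 : (X : ℝ) ^ h * (X : ℝ) ^ (2 / 10 ^ 7 : ℝ) *
      (X : ℝ) ^ (θ.u + θ.v + 2 * h - θ.a i - θ.b j) *
      ((X : ℝ) ^ (θ.a i + h) * (X : ℝ) ^ (1 / 20 : ℝ)) ≤ (X : ℝ) ^ (1 / 2 - h) := by
    rw [← Real.rpow_add hx0, ← Real.rpow_add hx0, ← Real.rpow_add hx0, ← Real.rpow_add hx0]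
    apply Real.rpow_le_rpow_of_exponent_le hx
    linarith
  have g3 : (X : ℝ) ^ h * (X : ℝ) ^ (2 / 10 ^ 7 : ℝ) *
      (X : ℝ) ^ (θ.u + θ.v + 2 * h - θ.a i - θ.b j) *
      ((X : ℝ) ^ (θ.b j + h) * (X : ℝ) ^ (1 / 20 : ℝ)) ≤ (X : ℝ) ^ (1 / 2 - h) := by
    rw [← Real.rpow_add hx0, ← Real.rpow_add hx0, ← Real.rpow_add hx0, ← Real.rpow_add hx0]
    apply Real.rpow_le_rpow_of_exponent_le hx
    linarith
  rw [hL] at key
  calc (TT.card : ℝ) ≤ _ := key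
    _ = C * ((X : ℝ) ^ h * (X : ℝ) ^ (2 / 10 ^ 7 : ℝ) *
      (X : ℝ) ^ (θ.u + θ.v + 2 * h - θ.a i - θ.b j) *
      ((X : ℝ) ^ (θ.a i + h) * (X : ℝ) ^ (θ.b j + h) / (X : ℝ) ^ (1 / 40 : ℝ)) +
      (X : ℝ) ^ h * (X : ℝ) ^ (2 / 10 ^ 7 : ℝ) *
      (X : ℝ) ^ (θ.u + θ.v + 2 * h - θ.a i - θ.b j) *
      ((X : ℝ) ^ (θ.a i + h) * (X : ℝ) ^ (1 / 20 : ℝ)) +
      (X : ℝ) ^ h * (X : ℝ) ^ (2 / 10 ^ 7 : ℝ) *
      (X : ℝ) ^ (θ.u + θ.v + 2 * h - θ.a i - θ.b j) *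
      ((X : ℝ) ^ (θ.b j + h) * (X : ℝ) ^ (1 / 20 : ℝ))) := by ring
    _ ≤ C * ((X : ℝ) ^ (1 / 2 - h) + (X : ℝ) ^ (1 / 2 - h) + (X : ℝ) ^ (1 / 2 - h)) := by
      apply mul_le_mul_of_nonneg_left _ hC0
      linarith
    _ = C * 3 * (X : ℝ) ^ (1 / 2 - h) := by ring

/-- the exceptional class -/
lemma fc2_exc {a : ℕ → ℝ} {u h : ℝ} (hnn : ∀ e, 0 ≤ a e)
    (asum : ∑ e ∈ Icc (1 : ℕ) 1000, (e : ℝ) * a e ≤ 1)
    (au : 1001 * u ≤ 1 + ∑ e ∈ Icc (1 : ℕ) 1000, (1001 - (e : ℝ)) * (a e + h))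
    (hh : 0 < h) (hh2 : h ≤ 1 / 10 ^ 14)
    (hno : ∀ e ∈ Icc (1 : ℕ) 1000, 1 / 10 ^ 6 ≤ a e → 1 / 2 + 1 / 10 ^ 7 < (e : ℝ) * a e) :
    u ≤ 3 / 1000 ∨ ∃ i ∈ Icc (1 : ℕ) 1000, 1 / 10 ^ 6 ≤ a i ∧ u ≤ a i + 3 / 1000 := by
  have h1 : ∑ e ∈ Icc (1 : ℕ) 1000, (1001 - (e : ℝ)) * (a e + h)
      ≤ ∑ e ∈ Icc (1 : ℕ) 1000, 1001 * (a e + h) := by
    apply sum_le_sum
    intro e _
    apply mul_le_mul_of_nonneg_right
    · have : (0 : ℝ) ≤ e := Nat.cast_nonneg e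
      linarith
    · linarith [hnn e]
  have h2 : ∑ e ∈ Icc (1 : ℕ) 1000, 1001 * (a e + h)
      = 1001 * ∑ e ∈ Icc (1 : ℕ) 1000, a e + 1001 * 1000 * h := by
    rw [← mul_sum, sum_add_distrib, sum_const, Nat.card_Icc, nsmul_eq_mul]
    push_cast
    ring
  by_cases hex : ∃ i ∈ Icc (1 : ℕ) 1000, 1 / 10 ^ 6 ≤ a i
  · obtain ⟨i, hi, hai⟩ := hex
    refine Or.inr ⟨i, hi, hai, ?_⟩
    have h3 : ∀ e ∈ (Icc (1 : ℕ) 1000).erase i, a e ≤ 1 / 10 ^ 6 := by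
      intro e he
      by_contra hc
      push Not at hc
      have he' := mem_of_mem_erase he
      have h4 := hno e he' hc.le
      have h5 := hno i hi hai
      have h6 : ∑ k ∈ ({i, e} : Finset ℕ), (k : ℝ) * a k
          ≤ ∑ k ∈ Icc (1 : ℕ) 1000, (k : ℝ) * a k := by
        apply sum_le_sum_of_subset_of_nonneg
        · intro k hk
          rw [mem_insert, mem_singleton] at hk
          rcases hk with hk | hk
          · rw [hk]; exact hi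
          · rw [hk]; exact he'
        · intro k _ _
          exact mul_nonneg (Nat.cast_nonneg k) (hnn k)
      rw [sum_pair (ne_of_mem_erase he).symm] at h6
      linarith
    have h4 : ∑ e ∈ Icc (1 : ℕ) 1000, a e ≤ a i + 999 * (1 / 10 ^ 6) := by
      rw [← add_sum_erase _ _ hi]
      have h5 := sum_le_card_nsmul _ _ _ h3
      rw [card_erase_of_mem hi, Nat.card_Icc, nsmul_eq_mul] at h5
      push_cast at h5
      linarith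
    linarith
  · push Not at hex
    left
    have h5 := sum_le_card_nsmul (Icc (1 : ℕ) 1000) a (1 / 10 ^ 6) fun e he => (hex e he).le
    rw [Nat.card_Icc, nsmul_eq_mul] at h5
    push_cast at h5
    linarith

/-- a large class of `q` if `u` is small -/
lemma fc2_no {b : ℕ → ℝ} {u v h : ℝ} (hu : u ≤ 103 / 1000) (hW : 1 / 2 - 4 * h < u + v)
    (hv : v ≤ 1 / 2 + 5 * h) (hh : 0 < h) (hh2 : h ≤ 1 / 10 ^ 14) (hnn : ∀ e, 0 ≤ b e)
    (bsum : ∑ e ∈ Icc (1 : ℕ) 1000, (e : ℝ) * b e ≤ 1)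
    (hbv : ∀ e ∈ Icc (1 : ℕ) 1000, b e ≤ v + h)
    (hno : ∀ e ∈ Icc (1 : ℕ) 1000, 1 / 10 ^ 6 ≤ b e → 1 / 2 + 1 / 10 ^ 7 < (e : ℝ) * b e)
    (hev : ∀ e ∈ Icc (1 : ℕ) 1000, Even e → b e < 1 / 10)
    (hj : v ≤ 3 / 1000 ∨ ∃ i ∈ Icc (1 : ℕ) 1000, 1 / 10 ^ 6 ≤ b i ∧ v ≤ b i + 3 / 1000) :
    False := by
  rcases hj with hj | ⟨j, hj, hbj, hvj⟩
  · linarith
  · have hb38 : 38 / 100 < b j := by linarith
    have h1 : (j : ℝ) * b j ≤ 1 :=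
      (single_le_sum (f := fun e : ℕ => (e : ℝ) * b e)
        (fun i _ => mul_nonneg (Nat.cast_nonneg i) (hnn i)) hj).trans bsum
    have h2 : j ≤ 2 := by
      by_contra hc
      push Not at hc
      have h3 : (3 : ℝ) ≤ j := by exact_mod_cast hc
      nlinarith
    have h3 : j ≠ 2 := by
      rintro rfl
      have := hev 2 hj even_two
      linarith
    have h4 : j = 1 := by
      have := (mem_Icc.1 hj).1
      omega
    subst h4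
    have h5 := hno 1 hj hbj
    have h6 := hbv 1 hj
    push_cast at h5
    linarith

theorem fc2_thm (ha : C2aStmt) (hp : C2pStmt) (hs : C2sStmt) : FC2Stmt := by
  intro m h θ hm hm8 hh hhm H hρ hr2
  by_contra hsmall
  have hh2 : h ≤ 1 / 10 ^ 14 := by
    have : m / 10 ^ 6 ≤ 1 / 10 ^ 14 := by
      rw [div_le_div_iff₀ (by norm_num) (by norm_num)]
      norm_num at hm8 ⊢
      linarith
    linarith
  have H' := fc2_con H
  have hW := fc2_W H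
  have hu := H.nn.u
  have hv := H.nn.v
  have noA : ∀ e ∈ Icc (1 : ℕ) 1000, 1 / 10 ^ 6 ≤ θ.a e →
      1 / 2 + 1 / 10 ^ 7 < (e : ℝ) * θ.a e := by
    intro e he h1
    by_contra hc
    push Not at hc
    exact hsmall (fc2_A ha hm hm8 hh hhm H hρ hr2 he h1 hc)
  have noA' : ∀ e ∈ Icc (1 : ℕ) 1000, 1 / 10 ^ 6 ≤ θ.b e →
      1 / 2 + 1 / 10 ^ 7 < (e : ℝ) * θ.b e := by
    intro e he h1
    by_contra hc
    push Not at hc
    exact hsmall (fc2_small (fc2_A (θ := θ.swap) ha hm hm8 hh hhm H' hρ hr2 he h1 hc))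
  have noB : ∀ e ∈ Icc (1 : ℕ) 1000, Even e → θ.a e < 1 / 10 := by
    intro e he hev
    by_contra hc
    push Not at hc
    exact hsmall (fc2_B hp hm hm8 hh hhm H hr2 he hev hc)
  have noB' : ∀ e ∈ Icc (1 : ℕ) 1000, Even e → θ.b e < 1 / 10 := by
    intro e he hev
    by_contra hc
    push Not at hc
    exact hsmall (fc2_small (fc2_B (θ := θ.swap) hp hm hm8 hh hhm H' hr2 he hev hc))
  have ea := fc2_exc H.nn.a H.con.asum H.con.au hh hh2 noA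
  have eb := fc2_exc H.nn.b H.con.bsum H.con.bv hh hh2 noA'
  -- both exceptional classes are large
  have hu103 : ¬ θ.u ≤ 103 / 1000 := fun hc =>
    fc2_no hc H.Wbig (by linarith) hh hh2 H.nn.b H.con.bsum (fun e he => fc2_be H he) noA' noB' eb
  have hv103 : ¬ θ.v ≤ 103 / 1000 := fun hc =>
    fc2_no hc (by have := H.Wbig; linarith) (by linarith) hh hh2 H.nn.a H.con.asum
      (fun e he => fc2_ae H he) noA noB ea
  rcases ea with ea | ⟨i, hi, hai, hui⟩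
  · exact hu103 (by linarith)
  rcases eb with eb | ⟨j, hj, hbj, hvj⟩
  · exact hv103 (by linarith)
  have hi10 : 1 / 10 ≤ θ.a i := by
    by_contra hc
    push Not at hc
    exact hu103 (by linarith)
  have hj10 : 1 / 10 ≤ θ.b j := by
    by_contra hc
    push Not at hc
    exact hv103 (by linarith)
  have hio : Odd i := by
    rw [← Nat.not_even_iff_odd]
    intro hev
    have := noB i hi hev
    linarith
  have hjo : Odd j := by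
    rw [← Nat.not_even_iff_odd]
    intro hev
    have := noB' j hj hev
    linarith
  exact hsmall (fc2_C hs hm hm8 hh hhm H hr2 hi hj hio hjo hi10 hj10)

end Pool.Agent.Helper21.EN
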