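import Pool.Agent.Helper21.EN.FStmts
import Pool.Agent.Helper21.EN.Dec

set_option autoImplicit false

/-!
# Project EN, final piece FC3

The statement is in EN/FStmts.lean. Paper: /team-store/EN_paper.md, section 8.

Proof. Mf = cf (cf r | r by hrad). Number of moduli: M = cf r has rad M <= X^(s+h), M <= X: hrp (pairs (M,1), eps = h): |image| <= C1 X^(s+2h), sM = s + 2h. Put cc l = a_l + b_l for l in Fin 9, l <> 0, cc 0 = 0. a9 + b9 and Wbig give sum (9-l) cc_l >= 9(1/2-4h) - 2 - 72h >= 2.45 (relate the sums over Icc 1 8 and Fin 9: Fin.sum_univ_succ or decide-style expansion). hsel: i,j,k,n.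
Facts (linarith from Con): u+v < 1/2+5h, R < 1/2 + 5h; c >= 3s - h (s3); c >= 1 - m/10 - 4h - r1 - 2 r2 (r_lo) with r1 <= R + h - r2 - s (R_up), so c >= 1/2 - m/10 - 10h + s - r2 > 1/10^7 - m/10 - 10h + s. Hence (F) 2(s+m) + 20h <= c: if s >= 2m + 21h from c >= 3s - h, otherwise from the second bound since 4.1m + 100h <= 1/10^7.
n1: cc_i >= s+m: hf1 with cM = c: exponents sM+u+v-cc_i+3h <= 1/2 - m + 10h; sM+u+v-c+5h: s+u+v-c <= u+v+R-1+m/10+5h+r2 <= r2 + m/10 + 6h < 1/2 - 1/10^7 + m/10 + 6h. (X^c <= cf r: InC.c.)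
n2: cc_i < s+m <= cc_i+cc_j: hf0 with Sp = Sq = {i,j}, k = -h', NN bound by hq2 (eps' small, larger U in the role of i): U_iU_j <= X^(cc_i+cc_j+4h) <= X^c <= M: NN <= C (M X)^eps' (U_min^2 + U_min^2U_max^2/M) <= 2C X^(h) U_iU_j; so k = -h, C1 = max. (U_l = 1 for l not in {i,j}.)
n3: cc_i+cc_j < s+m <= cc_i+cc_j+cc_k: Sp = Sq = {i,j,k}; hq3 with (i; j,k): U_i^2 <= X^(2cc_i+4h) <= X^c <= M, (U_jU_k)^2 <= X^(2(cc_j+cc_k)+8h) <= M as cc_j+cc_k <= cc_i+cc_j < s+m.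
n4: otherwise cc_i+cc_j+cc_k < s+m and B = sum of the four >= 27/100 >= s+m: Sp = Sq = {i,j,k,n}; hq4: (U_iU_j)^2, (U_kU_n)^2 <= X^(2(cc_i+cc_j)+8h) <= M.
Exponents of hf0 with B >= s+m, sM = s+2h, k = -h: (1) s+u+v-B+5h <= 1/2 - m + 10h; (2) s + (u+v)/2 + 13h <= 1/2 - m/100 + 16h; (3) u+v+(s-B)/2+13h <= 1/2 - m/2 + 18h; all <= 1/2 - h. arad/brad give the hypotheses sum_{Sp} a_i <= u+h (subset of Icc 1 1000, nonnegative terms).
-/

namespace Pool.Agent.Helper21.EN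

open Finset

/-- the two classes with exponent `e` together -/
noncomputable def fc3_c (θ : Ex) (e : ℕ) : ℝ := if e = 0 then 0 else θ.a e + θ.b e

lemma fc3_c_ne (θ : Ex) {i : Fin 9} (hi : i ≠ 0) : fc3_c θ i = θ.a i + θ.b i := by
  have h : (i : ℕ) ≠ 0 := fun hc => hi (Fin.ext hc)
  unfold fc3_c
  rw [if_neg h]

lemma fc3_c_nonneg {θ : Ex} (H : θ.Nn) (e : ℕ) : 0 ≤ fc3_c θ e := by
  unfold fc3_c
  split_ifs
  · exact le_rfl
  · have := H.a e
    have := H.b e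
    linarith

lemma fc3_sum (θ : Ex) : ∑ i : Fin 9, (9 - ((i : ℕ) : ℝ)) * fc3_c θ i =
    ∑ e ∈ Icc (1 : ℕ) 8, (9 - (e : ℝ)) * (θ.a e + θ.b e) := by
  rw [Fin.sum_univ_eq_sum_range (fun k : ℕ => (9 - (k : ℝ)) * fc3_c θ k) 9,
    Finset.sum_range_succ', range_eq_Ico]
  have h1 : (9 - ((0 : ℕ) : ℝ)) * fc3_c θ 0 = 0 := by
    unfold fc3_c
    simp
  rw [h1, add_zero, Finset.sum_Ico_add' (fun k : ℕ => (9 - (k : ℝ)) * fc3_c θ k) 0 8 1]
  apply sum_congr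
  · rfl
  · intro e he
    have h2 : e ≠ 0 := by
      have := (mem_Icc.1 he).1
      omega
    unfold fc3_c
    rw [if_neg h2]

lemma fc3_big {h : ℝ} {θ : Ex} (H : Con h θ) (hh : h ≤ 1 / 10 ^ 14) :
    245 / 100 ≤ ∑ i : Fin 9, (9 - ((i : ℕ) : ℝ)) * fc3_c θ i := by
  rw [fc3_sum]
  have h1 := H.con.a9
  have h2 := H.con.b9
  have h3 := H.Wbig
  have h4 : ∑ e ∈ Icc (1 : ℕ) 8, (9 - (e : ℝ)) * (θ.a e + h) +
      ∑ e ∈ Icc (1 : ℕ) 8, (9 - (e : ℝ)) * (θ.b e + h) =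
      ∑ e ∈ Icc (1 : ℕ) 8, (9 - (e : ℝ)) * (θ.a e + θ.b e) +
      (∑ e ∈ Icc (1 : ℕ) 8, (9 - (e : ℝ))) * (2 * h) := by
    rw [← sum_add_distrib, sum_mul, ← sum_add_distrib]
    apply sum_congr rfl
    intro e _
    ring
  have h5 : ∑ e ∈ Icc (1 : ℕ) 8, (9 - (e : ℝ)) = 36 := by
    have : Icc (1 : ℕ) 8 = {1, 2, 3, 4, 5, 6, 7, 8} := by decide
    rw [this]
    norm_num
  rw [h5] at h4
  linarith

lemma fc3_sub {f : ℕ → ℝ} (hf : ∀ e, 0 ≤ f e) {S : Finset (Fin 9)} (hS : (0 : Fin 9) ∉ S) :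
    ∑ i ∈ S, f i ≤ ∑ e ∈ Icc (1 : ℕ) 1000, f e := by
  have h1 : ∑ i ∈ S, f i = ∑ e ∈ S.map Fin.valEmbedding, f e := by
    rw [sum_map]
    rfl
  rw [h1]
  apply sum_le_sum_of_subset_of_nonneg
  · intro e he
    obtain ⟨i, hi, rfl⟩ := mem_map.1 he
    have h2 : i ≠ 0 := fun hc => hS (hc ▸ hi)
    have h3 : (i : ℕ) ≠ 0 := fun hc => h2 (Fin.ext hc)
    have h4 := i.isLt
    change (i : ℕ) ∈ Icc 1 1000
    rw [mem_Icc]
    omega
  · intro e _ _
    exact hf e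

lemma fc3_sa {h : ℝ} {θ : Ex} (H : Con h θ) {S : Finset (Fin 9)} (hS : (0 : Fin 9) ∉ S) :
    ∑ i ∈ S, θ.a i ≤ θ.u + h := (fc3_sub H.nn.a hS).trans H.con.arad

lemma fc3_sb {h : ℝ} {θ : Ex} (H : Con h θ) {S : Finset (Fin 9)} (hS : (0 : Fin 9) ∉ S) :
    ∑ i ∈ S, θ.b i ≤ θ.v + h := (fc3_sub H.nn.b hS).trans H.con.brad

/-- number of moduli -/
lemma fc3_im (hrp : RPStmt) (hrad : FRADStmt) {h : ℝ} {θ : Ex} (hh : 0 < h) (H : Con h θ) :
    ∃ C1 : ℝ, 1 ≤ C1 ∧ ∀ (X : ℕ) (TT : Finset (ℕ × ℕ × ℕ)), 2 ≤ X → CT h θ X TT →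
      ((TT.image (fun t => cf t.2.2)).card : ℝ) ≤ C1 * (X : ℝ) ^ (θ.s + 2 * h) := by
  obtain ⟨C, hC1, hC⟩ := hrp h hh
  refine ⟨C, hC1, fun X TT hX hT => ?_⟩
  have hX1 : (1 : ℝ) ≤ (X : ℝ) := by exact_mod_cast (by omega : 1 ≤ X)
  have hX0 : (0 : ℝ) < (X : ℝ) := by linarith
  have hY : (1 : ℝ) ≤ (X : ℝ) ^ (θ.s + h) :=
    Real.one_le_rpow hX1 (by have := H.nn.s; linarith)
  have hr1 : rad 1 = 1 := by
    unfold rad
    simp
  have hb := hC X ((X : ℝ) ^ (θ.s + h)) ((TT.image (fun t => cf t.2.2)).image (fun n => (n, 1)))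
    (by omega) hY (by
    intro s hs
    obtain ⟨n, hn, rfl⟩ := mem_image.1 hs
    obtain ⟨t, ht, rfl⟩ := mem_image.1 hn
    have htm := hT.mem t ht
    have h1 : cf t.2.2 ≤ t.2.2 :=
      Nat.le_of_dvd htm.tri.hr (hrad.2.2.2.2.2.1 _ htm.tri.hr)
    refine ⟨cf_pos _, h1.trans htm.tri.rX, Nat.one_pos, by omega, ?_⟩
    simp only [hr1, Nat.cast_one, mul_one]
    exact htm.s.2)
  rw [card_image_of_injective _ (by
    intro a b hab
    simpa using hab)] at hb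
  calc ((TT.image (fun t => cf t.2.2)).card : ℝ) ≤ C * (X : ℝ) ^ h * (X : ℝ) ^ (θ.s + h) := hb
    _ = C * (X : ℝ) ^ (θ.s + 2 * h) := by
      rw [mul_assoc, ← Real.rpow_add hX0]
      congr 2
      ring

/-- the case of several classes -/
lemma fc3_L (hf0 : FL0Stmt) (hrp : RPStmt) (hrad : FRADStmt) {m h : ℝ} {θ : Ex} (hm : 0 < m)
    (hh : 0 < h) (hhm : h ≤ m / 10 ^ 6) (H : Con h θ) (hs : θ.s ≤ 1 / 4 - m / 100)
    {S : Finset (Fin 9)} (hS : (0 : Fin 9) ∉ S)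
    (hB : θ.s + m ≤ ∑ i ∈ S, fc3_c θ i)
    (hN : ∃ C : ℝ, ∀ (X M : ℕ) (U : Fin 9 → ℝ), 2 ≤ X → 1 ≤ M → M ≤ X →
      (X : ℝ) ^ θ.c ≤ (M : ℝ) → (∀ i, 1 ≤ U i) → (∀ i, i ∉ S → U i = 1) →
      (∀ i ∈ S, U i ≤ (X : ℝ) ^ (fc3_c θ i + 2 * h)) →
      NN M U ≤ C * (X : ℝ) ^ h * ∏ i, U i) : Small h θ := by
  obtain ⟨C1, hC1, hC1'⟩ := fc3_im hrp hrad hh H
  obtain ⟨C2, hC2⟩ := hN
  have hBe : ∑ i ∈ S, fc3_c θ i = ∑ i ∈ S, θ.a i + ∑ i ∈ S, θ.b i := by
    rw [← sum_add_distrib]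
    apply sum_congr rfl
    intro i hi
    exact fc3_c_ne θ (fun hc => hS (hc ▸ hi))
  rw [hBe] at hB
  have hmax1 : C1 ≤ max C1 C2 := le_max_left _ _
  have hmax2 : C2 ≤ max C1 C2 := le_max_right _ _
  obtain ⟨C, hC⟩ := hf0 h θ S S cf (θ.s + 2 * h) (-h) (max C1 C2) hh hS hS H.nn (fc3_sa H hS)
    (fc3_sb H hS) (by linarith)
  have hW : θ.u + θ.v < 1 / 2 + 5 * h := by
    have := H.con.tot
    have := H.Rbig
    linarith
  refine ⟨max C 0 * 3, fun X TT hX hT => ?_⟩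
  have hX1 : (1 : ℝ) ≤ (X : ℝ) := by exact_mod_cast (by omega : 1 ≤ X)
  have hX0 : (0 : ℝ) < (X : ℝ) := by linarith
  have key := hC X TT hX hT
    (fun t ht => hrad.2.2.2.2.2.1 _ (hT.mem t ht).tri.hr)
    ((hC1' X TT hX hT).trans (mul_le_mul_of_nonneg_right hmax1 (Real.rpow_nonneg hX0.le _)))
    (by
      intro t ht U hU _
      have htm := hT.mem t ht
      have h1 : cf t.2.2 ≤ t.2.2 :=
        Nat.le_of_dvd htm.tri.hr (hrad.2.2.2.2.2.1 _ htm.tri.hr)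
      have h2 := hC2 X (cf t.2.2) U hX (cf_pos _) (h1.trans htm.tri.rX) htm.c.1
        (fun i => (hU i).1)
        (fun i hi => by
          have h3 := (hU i).2
          rw [if_neg hi, if_neg hi, add_zero, Real.rpow_zero] at h3
          exact le_antisymm h3 (hU i).1)
        (fun i hi => by
          have h3 := (hU i).2
          rw [if_pos hi, if_pos hi] at h3
          rw [fc3_c_ne θ (fun hc => hS (hc ▸ hi))]
          refine h3.trans (le_of_eq ?_)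
          congr 1
          ring)
      refine h2.trans ?_
      rw [neg_neg]
      have h4 : (0 : ℝ) ≤ ∏ i, U i := prod_nonneg fun i _ => by linarith [(hU i).1]
      have h5 : (0 : ℝ) ≤ (X : ℝ) ^ h := Real.rpow_nonneg hX0.le _
      gcongr)
  have e1 : (X : ℝ) ^ (θ.s + 2 * h + θ.u + θ.v - (∑ i ∈ S, θ.a i + ∑ i ∈ S, θ.b i) + 3 * h) ≤
      (X : ℝ) ^ (1 / 2 - h) := by
    apply Real.rpow_le_rpow_of_exponent_le hX1
    linarith
  have e2 : (X : ℝ) ^ (θ.s + 2 * h + (θ.u + θ.v - -h) / 2 + 10 * h) ≤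
      (X : ℝ) ^ (1 / 2 - h) := by
    apply Real.rpow_le_rpow_of_exponent_le hX1
    linarith
  have e3 : (X : ℝ) ^ (θ.u + θ.v + (θ.s + 2 * h - (∑ i ∈ S, θ.a i + ∑ i ∈ S, θ.b i) - -h) / 2
      + 11 * h) ≤ (X : ℝ) ^ (1 / 2 - h) := by
    apply Real.rpow_le_rpow_of_exponent_le hX1
    linarith
  have hm1 : C ≤ max C 0 := le_max_left _ _
  have hm0 : 0 ≤ max C 0 := le_max_right _ _
  have p1 := Real.rpow_nonneg hX0.le
    (θ.s + 2 * h + θ.u + θ.v - (∑ i ∈ S, θ.a i + ∑ i ∈ S, θ.b i) + 3 * h)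
  have p2 := Real.rpow_nonneg hX0.le (θ.s + 2 * h + (θ.u + θ.v - -h) / 2 + 10 * h)
  have p3 := Real.rpow_nonneg hX0.le
    (θ.u + θ.v + (θ.s + 2 * h - (∑ i ∈ S, θ.a i + ∑ i ∈ S, θ.b i) - -h) / 2 + 11 * h)
  refine key.trans ?_
  calc _ ≤ max C 0 * _ := mul_le_mul_of_nonneg_right hm1 (by linarith)
    _ ≤ max C 0 * ((X : ℝ) ^ (1 / 2 - h) + (X : ℝ) ^ (1 / 2 - h) + (X : ℝ) ^ (1 / 2 - h)) :=
      mul_le_mul_of_nonneg_left (by linarith) hm0
    _ = max C 0 * 3 * (X : ℝ) ^ (1 / 2 - h) := by ring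

/-- bounds in the exponents -/
lemma fc3_pow {X : ℕ} (hX : 2 ≤ X) {M : ℕ} {x y c α β : ℝ} (hc : (X : ℝ) ^ c ≤ (M : ℝ))
    (hx0 : 0 ≤ x) (hy0 : 0 ≤ y)
    (hx : x ≤ (X : ℝ) ^ α) (hy : y ≤ (X : ℝ) ^ β) (h : 2 * (α + β) ≤ c) :
    (x * y) ^ 2 ≤ (M : ℝ) := by
  have hX1 : (1 : ℝ) ≤ (X : ℝ) := by exact_mod_cast (by omega : 1 ≤ X)
  have hX0 : (0 : ℝ) < (X : ℝ) := by linarith
  have h1 : x * y ≤ (X : ℝ) ^ (α + β) := by
    rw [Real.rpow_add hX0]
    gcongr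
  calc (x * y) ^ 2 ≤ ((X : ℝ) ^ (α + β)) ^ 2 := by gcongr
    _ = (X : ℝ) ^ (2 * (α + β)) := by
      rw [← Real.rpow_natCast, ← Real.rpow_mul hX0.le]
      congr 1
      push_cast
      ring
    _ ≤ (X : ℝ) ^ c := Real.rpow_le_rpow_of_exponent_le hX1 h
    _ ≤ _ := hc

lemma fc3_one {X : ℕ} (hX : 2 ≤ X) {M : ℕ} {x c α : ℝ} (hc : (X : ℝ) ^ c ≤ (M : ℝ))
    (hx0 : 0 ≤ x) (hx : x ≤ (X : ℝ) ^ α) (h : 2 * α ≤ c) : x ^ 2 ≤ (M : ℝ) := by
  have h1 := fc3_pow (β := 0) (y := 1) hX hc hx0 zero_le_one hx (by rw [Real.rpow_zero])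
    (by linarith)
  rwa [mul_one] at h1

lemma fc3_M {X M : ℕ} (hM1 : 1 ≤ M) (hM : M ≤ X) {h : ℝ} (hh : 0 < h) :
    (M : ℝ) ^ h ≤ (X : ℝ) ^ h := by
  apply Real.rpow_le_rpow (Nat.cast_nonneg _) _ hh.le
  exact_mod_cast hM

/-- two classes, the larger height first -/
lemma fc3_q2 {h C : ℝ} (hh : 0 < h) (hC1 : 1 ≤ C)
    (hC : ∀ (M : ℕ) (T : Fin 9 → ℝ) (i j : Fin 9), 1 ≤ M → (∀ l, 1 ≤ T l) → i ≠ 0 → j ≠ 0 →
      i ≠ j → (∀ l, l ≠ i → l ≠ j → T l = 1) →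
      NN M T ≤ C * ((M : ℝ) * T i) ^ (h / 2) * (T j ^ 2 * (1 + T i ^ 2 / M)))
    {X M : ℕ} {U : Fin 9 → ℝ} {i j : Fin 9} (hM1 : 1 ≤ M) (hMX : M ≤ X) (hU : ∀ l, 1 ≤ U l)
    (hi : i ≠ 0) (hj : j ≠ 0) (hij : i ≠ j) (hU1 : ∀ l, l ≠ i → l ≠ j → U l = 1)
    (hle : U j ≤ U i) (hUX : U i ≤ X) (hUU : U i * U j ≤ M) :
    NN M U ≤ C * 2 * (X : ℝ) ^ h * ∏ l, U l := by
  have key := hC M U i j hM1 hU hi hj hij hU1
  have hMr : (1 : ℝ) ≤ M := by exact_mod_cast hM1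
  have hMX' : (M : ℝ) ≤ X := by exact_mod_cast hMX
  have hX0 : (0 : ℝ) ≤ X := Nat.cast_nonneg X
  have hi1 := hU i
  have hj1 := hU j
  have hpr : ∏ l, U l = U i * U j := by
    rw [← mul_prod_erase univ U (mem_univ i)]
    congr 1
    rw [← mul_prod_erase (univ.erase i) U (mem_erase.2 ⟨hij.symm, mem_univ j⟩)]
    rw [prod_eq_one, mul_one]
    intro l hl
    rw [mem_erase, mem_erase] at hl
    exact hU1 l hl.2.1 hl.1
  have h1 : ((M : ℝ) * U i) ^ (h / 2) ≤ (X : ℝ) ^ h := by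
    calc ((M : ℝ) * U i) ^ (h / 2) ≤ ((X : ℝ) * X) ^ (h / 2) := by
          apply Real.rpow_le_rpow (by positivity) _ (by linarith)
          gcongr
      _ = (X : ℝ) ^ h := by
          rw [← sq, ← Real.rpow_natCast, ← Real.rpow_mul hX0]
          congr 1
          push_cast
          ring
  have h2 : U j ^ 2 * (1 + U i ^ 2 / M) ≤ 2 * (U i * U j) := by
    have h3 : U j ^ 2 ≤ U i * U j := by
      rw [sq]
      gcongr
    have h4 : U j ^ 2 * (U i ^ 2 / M) ≤ U i * U j := by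
      rw [← mul_div_assoc, div_le_iff₀ (by linarith)]
      have h5 : U j ^ 2 * U i ^ 2 = (U i * U j) * (U i * U j) := by ring
      rw [h5]
      gcongr
    calc U j ^ 2 * (1 + U i ^ 2 / M) = U j ^ 2 + U j ^ 2 * (U i ^ 2 / M) := by ring
      _ ≤ _ := by linarith
  have h6 : 0 ≤ U j ^ 2 * (1 + U i ^ 2 / M) := by positivity
  rw [hpr]
  calc NN M U ≤ C * ((M : ℝ) * U i) ^ (h / 2) * (U j ^ 2 * (1 + U i ^ 2 / M)) := key
    _ ≤ C * (X : ℝ) ^ h * (2 * (U i * U j)) := by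
      gcongr
    _ = _ := by ring

theorem fc3_thm (hf1 : FL1Stmt) (hf0 : FL0Stmt) (hsel : FSelStmt) (hq2 : Q2Stmt) (hq3 : Q3Stmt) (hq4 : Q4Stmt)
    (hrp : RPStmt) (hrad : FRADStmt) : FC3Stmt := by
  intro m h θ hm hm8 hh hhm H hρ hr2 hs
  have hh2 : h ≤ 1 / 10 ^ 14 := by
    have : m / 10 ^ 6 ≤ 1 / 10 ^ 14 := by
      rw [div_le_div_iff₀ (by norm_num) (by norm_num)]
      norm_num at hm8 ⊢
      linarith
    linarith
  obtain ⟨i, j, k, n, hi, hj, hk, hn, hij, hik, hin, hjk, hjn, hkn, hcji, hckj, hcnk, hsum, -⟩ :=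
    hsel (fun l => fc3_c θ l) (fun l => fc3_c_nonneg H.nn _) (by unfold fc3_c; simp)
      (fc3_big H hh2)
  have hW : θ.u + θ.v < 1 / 2 + 5 * h := by
    have := H.con.tot
    have := H.Rbig
    linarith
  have hR : θ.R < 1 / 2 + 5 * h := by
    have := H.con.tot
    have := H.Wbig
    linarith
  have hs0 := H.nn.s
  have hs3 := H.con.s3
  have hrlo := H.con.r_lo
  have hRup := H.con.R_up
  have htot := H.con.tot
  have hF : 2 * (θ.s + m) + 20 * h ≤ θ.c := by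
    by_cases hc : 2 * m + 21 * h ≤ θ.s
    · linarith
    · push Not at hc
      linarith
  have hn0 := fc3_c_nonneg H.nn n
  have hk0 := fc3_c_nonneg H.nn k
  have hj0 := fc3_c_nonneg H.nn j
  have hi0 := fc3_c_nonneg H.nn i
  by_cases c1 : θ.s + m ≤ fc3_c θ i
  · -- one class
    obtain ⟨C1, hC1, hC1'⟩ := fc3_im hrp hrad hh H
    rw [fc3_c_ne θ hi] at c1
    have ha := fc3_sa H (S := {i}) (by rw [mem_singleton]; exact hi.symm)
    have hb := fc3_sb H (S := {i}) (by rw [mem_singleton]; exact hi.symm)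
    rw [sum_singleton] at ha hb
    obtain ⟨C, hC⟩ := hf1 h θ i cf (θ.s + 2 * h) θ.c C1 hh hi H.nn ha hb H.nn.c
    refine ⟨max C 0 * 2, fun X TT hX hT => ?_⟩
    have hX1 : (1 : ℝ) ≤ (X : ℝ) := by exact_mod_cast (by omega : 1 ≤ X)
    have hX0 : (0 : ℝ) < (X : ℝ) := by linarith
    have key := hC X TT hX hT
      (fun t ht => ⟨hrad.2.2.2.2.2.1 _ (hT.mem t ht).tri.hr, (hT.mem t ht).c.1⟩)
      (hC1' X TT hX hT)
    have e1 : (X : ℝ) ^ (θ.s + 2 * h + θ.u + θ.v - (θ.a i + θ.b i) + 3 * h) ≤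
        (X : ℝ) ^ (1 / 2 - h) := by
      apply Real.rpow_le_rpow_of_exponent_le hX1
      linarith
    have e2 : (X : ℝ) ^ (θ.s + 2 * h + θ.u + θ.v - θ.c + 5 * h) ≤
        (X : ℝ) ^ (1 / 2 - h) := by
      apply Real.rpow_le_rpow_of_exponent_le hX1
      linarith
    have hm1 : C ≤ max C 0 := le_max_left _ _
    have hm0 : 0 ≤ max C 0 := le_max_right _ _
    have p1 := Real.rpow_nonneg hX0.le (θ.s + 2 * h + θ.u + θ.v - (θ.a i + θ.b i) + 3 * h)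
    have p2 := Real.rpow_nonneg hX0.le (θ.s + 2 * h + θ.u + θ.v - θ.c + 5 * h)
    refine key.trans ?_
    calc _ ≤ max C 0 * _ := mul_le_mul_of_nonneg_right hm1 (by linarith)
      _ ≤ max C 0 * ((X : ℝ) ^ (1 / 2 - h) + (X : ℝ) ^ (1 / 2 - h)) :=
        mul_le_mul_of_nonneg_left (by linarith) hm0
      _ = max C 0 * 2 * (X : ℝ) ^ (1 / 2 - h) := by ring
  push Not at c1
  by_cases c2 : θ.s + m ≤ fc3_c θ i + fc3_c θ j
  · -- two classes
    obtain ⟨C, hC1, hC⟩ := hq2 (h / 2) (by linarith)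
    refine fc3_L hf0 hrp hrad hm hh hhm H hs (S := {i, j}) ?_ ?_ ?_
    · simp only [mem_insert, mem_singleton, not_or]
      exact ⟨hi.symm, hj.symm⟩
    · rw [sum_pair hij]
      exact c2
    · refine ⟨C * 2, fun X M U hX hM1 hMX hXc hU hU1 hUS => ?_⟩
      have hX1 : (1 : ℝ) ≤ (X : ℝ) := by exact_mod_cast (by omega : 1 ≤ X)
      have hX0 : (0 : ℝ) < (X : ℝ) := by linarith
      have gi := hUS i (by simp)
      have gj := hUS j (by simp)
      have i1 := hU i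
      have j1 := hU j
      have hUX : ∀ l : Fin 9, fc3_c θ l < θ.s + m → U l ≤ (X : ℝ) ^ (fc3_c θ l + 2 * h) →
          U l ≤ X := by
        intro l hl1 hl2
        refine hl2.trans ?_
        conv_rhs => rw [← Real.rpow_one (X : ℝ)]
        apply Real.rpow_le_rpow_of_exponent_le hX1
        linarith
      have hUU : U i * U j ≤ M := by
        calc U i * U j ≤ (X : ℝ) ^ (fc3_c θ i + 2 * h) * (X : ℝ) ^ (fc3_c θ j + 2 * h) := by
              gcongr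
          _ = (X : ℝ) ^ (fc3_c θ i + 2 * h + (fc3_c θ j + 2 * h)) := by
              rw [← Real.rpow_add hX0]
          _ ≤ (X : ℝ) ^ θ.c := by
              apply Real.rpow_le_rpow_of_exponent_le hX1
              linarith
          _ ≤ M := hXc
      have hU1' : ∀ l, l ≠ i → l ≠ j → U l = 1 := by
        intro l h1 h2
        apply hU1
        simp only [mem_insert, mem_singleton, not_or]
        exact ⟨h1, h2⟩
      rcases le_total (U j) (U i) with hle | hle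
      · exact fc3_q2 hh hC1 hC hM1 hMX hU hi hj hij hU1' hle (hUX i c1 gi) hUU
      · exact fc3_q2 hh hC1 hC hM1 hMX hU hj hi hij.symm (fun l h1 h2 => hU1' l h2 h1) hle
          (hUX j (by linarith) gj) (by rwa [mul_comm])
  push Not at c2
  by_cases c3 : θ.s + m ≤ fc3_c θ i + fc3_c θ j + fc3_c θ k
  · -- three classes
    obtain ⟨C, hC1, hC⟩ := hq3 h hh
    refine fc3_L hf0 hrp hrad hm hh hhm H hs (S := {i, j, k}) ?_ ?_ ?_
    · simp only [mem_insert, mem_singleton, not_or]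
      exact ⟨hi.symm, hj.symm, hk.symm⟩
    · rw [sum_insert (by
        simp only [mem_insert, mem_singleton, not_or]
        exact ⟨hij, hik⟩), sum_pair hjk]
      linarith
    · refine ⟨C, fun X M U hX hM1 hMX hXc hU hU1 hUS => ?_⟩
      have hX1 : (1 : ℝ) ≤ (X : ℝ) := by exact_mod_cast (by omega : 1 ≤ X)
      have gi := hUS i (by simp)
      have gj := hUS j (by simp)
      have gk := hUS k (by simp)
      have i1 := hU i
      have j1 := hU j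
      have k1 := hU k
      have key := hC M U i j k hM1 hU hi hj hk hij hik hjk
        (fun l h1 h2 h3 => by
          apply hU1
          simp only [mem_insert, mem_singleton, not_or]
          exact ⟨h1, h2, h3⟩)
        (fc3_one hX hXc (by linarith) gi (by linarith))
        (fc3_pow hX hXc (by linarith) (by linarith) gj gk (by linarith))
      have h4 : (0 : ℝ) ≤ ∏ i, U i := prod_nonneg fun i _ => by linarith [hU i]
      have h5 := fc3_M hM1 hMX hh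
      refine key.trans ?_
      gcongr
  push Not at c3
  -- four classes
  obtain ⟨C, hC1, hC⟩ := hq4 h hh
  refine fc3_L hf0 hrp hrad hm hh hhm H hs (S := {i, j, k, n}) ?_ ?_ ?_
  · simp only [mem_insert, mem_singleton, not_or]
    exact ⟨hi.symm, hj.symm, hk.symm, hn.symm⟩
  · rw [sum_insert (by
        simp only [mem_insert, mem_singleton, not_or]
        exact ⟨hij, hik, hin⟩), sum_insert (by
        simp only [mem_insert, mem_singleton, not_or]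
        exact ⟨hjk, hjn⟩), sum_pair hkn]
    linarith
  · refine ⟨C, fun X M U hX hM1 hMX hXc hU hU1 hUS => ?_⟩
    have hX1 : (1 : ℝ) ≤ (X : ℝ) := by exact_mod_cast (by omega : 1 ≤ X)
    have gi := hUS i (by simp)
    have gj := hUS j (by simp)
    have gk := hUS k (by simp)
    have gn := hUS n (by simp)
    have i1 := hU i
    have j1 := hU j
    have k1 := hU k
    have n1 := hU n
    have key := hC M U i j k n hM1 hU hi hj hk hn hij hik hin hjk hjn hkn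
      (fun l h1 h2 h3 h4 => by
        apply hU1
        simp only [mem_insert, mem_singleton, not_or]
        exact ⟨h1, h2, h3, h4⟩)
      (fc3_pow hX hXc (by linarith) (by linarith) gi gj (by linarith))
      (fc3_pow hX hXc (by linarith) (by linarith) gk gn (by linarith))
    have h4 : (0 : ℝ) ≤ ∏ i, U i := prod_nonneg fun i _ => by linarith [hU i]
    have h5 := fc3_M hM1 hMX hh
    refine key.trans ?_
    gcongr

end Pool.Agent.Helper21.EN
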