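import Pool.Agent.Helper21.EN.FStmts
import Pool.Agent.Helper21.EN.Dec

set_option autoImplicit false

/-!
# Project EN, final piece FC4

The statement is in EN/FStmts.lean. Paper: /team-store/EN_paper.md, section 8.

Proof. hn3 gives mu > 0 first, then (sigma = 1/12, eta = 1/10) dN3, C3; hn2 (1/12, 1/1000): dN2, C2; hn4 (1/12): dN4, C4; hs gives g0. m = min(1/10^8, mu/100), dN = min(dN2,dN3,dN4), g = min(m/10^6, g0, dN/300). Facts (linarith): u+v < 1/2+5h; w > 1/4 - m/20 (w >= 4R-rho-3r1-2r2-7h, r1+r2 <= R+h-s); s <= 1/4+5h; w <= 1/4+6h.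
Mf r = (pc 3 r)^3, ww = pc 3 r squarefree, X^w <= ww <= X^(w+h), at most X^(w+h) moduli (sM = w+h). cc l = a_l+b_l (l <> 0), cc 0 = 0; hsel (as in FC3) gives i,j,k,n.
n1: cc_i >= 1/4+m: hf1 with cM = 3w: exponents w+h+u+v-cc_i+3h <= 1/2 - m + 15h; sM+u+v-3w+5h <= 1/2+5h-2w+6h <= m.
n2: cc_i < 1/4+m <= cc_i+cc_j. If cc_j > 1/4 - 5/10^4 use hs (with i, j). Otherwise hf0 with Sp = Sq = {i,j}; hn2: U_j <= X^(cc_j+2h) <= ww^(999/1000), U_iU_j <= X^(cc_i+cc_j+4h) <= X^(1/2+3m) <= ww^(2.999), some U_l >= (ww^3)^(1/36) = ww^(1/12) (l = i or j as the others are 1).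
n3: cc_i+cc_j < 1/4+m <= cc_i+cc_j+cc_k: Sp = Sq = {i,j,k}; hn3 applied to the three indices sorted by the size of U (6 cases): the largest <= X^(cc_i+2h), the second <= X^(cc_j+2h) <= X^(1/8+m), the third <= X^(cc_k+2h) <= X^(1/8+m/2+2h) <= ww^(1/2+mu) (w(1/2+mu) >= (1/4-m/20)(1/2+mu) >= 1/8+m/2+2h as m <= mu/100);
    largest^2 * second <= X^(1/2+3m) <= ww^(29/10), second <= ww^(9/10); largest >= ww^(1/12).
n4: cc_i+cc_j+cc_k < 1/4+m, B >= 27/100 >= 1/4+m: Sp = Sq = {i,j,k,n}; hn4 applied to the sorted indices: the product of the three largest <= X^(1/4+m+6h) <= ww^(11/10), largest >= ww^(1/12).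
   (Sorting: make a lemma: for U on {i,j,k,n} with U_l <= X^(e_l), e_i >= e_j >= e_k >= e_n, there is a permutation with U sorted and the r-th largest <= X^(e_r). For the formulation with 24 cases an abstract argument (Tuple.sort, or choose the maximum successively) is better.)
ww^(-dN) <= X^(-dN w) <= X^(-dN/5): k = dN/5, C1 = max of the constants. Exponents of hf0 with B >= 1/4+m, sM = w+h <= 1/4+7h: sM+u+v-B+3h <= 1/2-m+15h; sM+(u+v-k)/2+10h <= 1/2+20h-dN/10 <= 1/2-h; u+v+(sM-B-k)/2+11h <= 1/2 - m/2 + 20h.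
If ww = 1 then X^(1/5) <= 1, impossible.
-/

namespace Pool.Agent.Helper21.EN

open Finset

/-- the two classes with exponent `e` together -/
noncomputable def fc4_c (θ : Ex) (e : ℕ) : ℝ := if e = 0 then 0 else θ.a e + θ.b e

lemma fc4_c_ne (θ : Ex) {i : Fin 9} (hi : i ≠ 0) : fc4_c θ i = θ.a i + θ.b i := by
  have h : (i : ℕ) ≠ 0 := fun hc => hi (Fin.ext hc)
  unfold fc4_c
  rw [if_neg h]

lemma fc4_c_nonneg {θ : Ex} (H : θ.Nn) (e : ℕ) : 0 ≤ fc4_c θ e := by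
  unfold fc4_c
  split_ifs
  · exact le_rfl
  · have := H.a e
    have := H.b e
    linarith

lemma fc4_sum (θ : Ex) : ∑ i : Fin 9, (9 - ((i : ℕ) : ℝ)) * fc4_c θ i =
    ∑ e ∈ Icc (1 : ℕ) 8, (9 - (e : ℝ)) * (θ.a e + θ.b e) := by
  rw [Fin.sum_univ_eq_sum_range (fun k : ℕ => (9 - (k : ℝ)) * fc4_c θ k) 9,
    Finset.sum_range_succ', range_eq_Ico]
  have h1 : (9 - ((0 : ℕ) : ℝ)) * fc4_c θ 0 = 0 := by
    unfold fc4_c
    simp
  rw [h1, add_zero, Finset.sum_Ico_add' (fun k : ℕ => (9 - (k : ℝ)) * fc4_c θ k) 0 8 1]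
  apply sum_congr
  · rfl
  · intro e he
    have h2 : e ≠ 0 := by
      have := (mem_Icc.1 he).1
      omega
    unfold fc4_c
    rw [if_neg h2]

lemma fc4_big {h : ℝ} {θ : Ex} (H : Con h θ) (hh : h ≤ 1 / 10 ^ 14) :
    245 / 100 ≤ ∑ i : Fin 9, (9 - ((i : ℕ) : ℝ)) * fc4_c θ i := by
  rw [fc4_sum]
  have h1 := H.con.a9
  have h2 := H.con.b9
  have h3 := H.Wbig
  have h4 : ∑ e ∈ Icc (1 : ℕ) 8, (9 - (e : ℝ)) * (θ.a e + h) +
      ∑ e ∈ Icc (1 : ℕ) 8, (9 - (e : ℝ)) * (θ.b e + h) =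
      ∑ e ∈ Icc (1 : ℕ) 8, (9 - (e : ℝ)) * (θ.a e + θ.b e) +
      (∑ e ∈ Icc (1 : ℕ) 8, (9 - (e : ℝ))) * (2 * h) := by
    rw [← sum_add_distrib, sum_mul, ← sum_add_distrib]
    apply sum_congr rfl
    intro e _
    ring
  have h5 : ∑ e ∈ Icc (1 : ℕ) 8, (9 - (e : ℝ)) = 36 := by
    have : Icc (1 : ℕ) 8 = {1, 2, 3, 4, 5, 6, 7, 8} := by decide
    rw [this]
    norm_num
  rw [h5] at h4
  linarith

lemma fc4_sub {f : ℕ → ℝ} (hf : ∀ e, 0 ≤ f e) {S : Finset (Fin 9)} (hS : (0 : Fin 9) ∉ S) :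
    ∑ i ∈ S, f i ≤ ∑ e ∈ Icc (1 : ℕ) 1000, f e := by
  have h1 : ∑ i ∈ S, f i = ∑ e ∈ S.map Fin.valEmbedding, f e := by
    rw [sum_map]
    rfl
  rw [h1]
  apply sum_le_sum_of_subset_of_nonneg
  · intro e he
    obtain ⟨i, hi, rfl⟩ := mem_map.1 he
    have h2 : i ≠ 0 := fun hc => hS (hc ▸ hi)
    have h3 : (i : ℕ) ≠ 0 := fun hc => h2 (Fin.ext hc)
    have h4 := i.isLt
    change (i : ℕ) ∈ Icc 1 1000
    rw [mem_Icc]
    omega
  · intro e _ _
    exact hf e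

lemma fc4_sa {h : ℝ} {θ : Ex} (H : Con h θ) {S : Finset (Fin 9)} (hS : (0 : Fin 9) ∉ S) :
    ∑ i ∈ S, θ.a i ≤ θ.u + h := (fc4_sub H.nn.a hS).trans H.con.arad

lemma fc4_sb {h : ℝ} {θ : Ex} (H : Con h θ) {S : Finset (Fin 9)} (hS : (0 : Fin 9) ∉ S) :
    ∑ i ∈ S, θ.b i ≤ θ.v + h := (fc4_sub H.nn.b hS).trans H.con.brad

/-! ### Sorting -/

lemma fc4_sort1 (S : Finset (Fin 9)) (hS : S.card = 1) :
    ∃ i, S = {i} := card_eq_one.1 hS

lemma fc4_sort2 (U : Fin 9 → ℝ) (S : Finset (Fin 9)) (hS : S.card = 2) :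
    ∃ i j, S = {i, j} ∧ i ≠ j ∧ U j ≤ U i := by
  obtain ⟨i, hi, hmi⟩ := S.exists_max_image U (card_pos.1 (by omega))
  have h1 : (S.erase i).card = 1 := by rw [card_erase_of_mem hi]; omega
  obtain ⟨j, hj⟩ := fc4_sort1 _ h1
  have hjm : j ∈ S.erase i := by rw [hj]; simp
  rw [mem_erase] at hjm
  refine ⟨i, j, ?_, hjm.1.symm, hmi j hjm.2⟩
  rw [← insert_erase hi, hj]

lemma fc4_sort3 (U : Fin 9 → ℝ) (S : Finset (Fin 9)) (hS : S.card = 3) :
    ∃ i j k, S = {i, j, k} ∧ i ≠ j ∧ i ≠ k ∧ j ≠ k ∧ U k ≤ U j ∧ U j ≤ U i := by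
  obtain ⟨i, hi, hmi⟩ := S.exists_max_image U (card_pos.1 (by omega))
  have h1 : (S.erase i).card = 2 := by rw [card_erase_of_mem hi]; omega
  obtain ⟨j, k, hj, hjk, hle⟩ := fc4_sort2 U _ h1
  have hjm : j ∈ S.erase i := by rw [hj]; simp
  have hkm : k ∈ S.erase i := by rw [hj]; simp
  rw [mem_erase] at hjm hkm
  refine ⟨i, j, k, ?_, hjm.1.symm, hkm.1.symm, hjk, hle, hmi j hjm.2⟩
  rw [← insert_erase hi, hj]

lemma fc4_sort4 (U : Fin 9 → ℝ) (S : Finset (Fin 9)) (hS : S.card = 4) :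
    ∃ i j k n, S = {i, j, k, n} ∧ i ≠ j ∧ i ≠ k ∧ i ≠ n ∧ j ≠ k ∧ j ≠ n ∧ k ≠ n ∧
      U n ≤ U k ∧ U k ≤ U j ∧ U j ≤ U i := by
  obtain ⟨i, hi, hmi⟩ := S.exists_max_image U (card_pos.1 (by omega))
  have h1 : (S.erase i).card = 3 := by rw [card_erase_of_mem hi]; omega
  obtain ⟨j, k, n, hj, hjk, hjn, hkn, hle, hle'⟩ := fc4_sort3 U _ h1
  have hjm : j ∈ S.erase i := by rw [hj]; simp
  have hkm : k ∈ S.erase i := by rw [hj]; simp
  have hnm : n ∈ S.erase i := by rw [hj]; simp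
  rw [mem_erase] at hjm hkm hnm
  refine ⟨i, j, k, n, ?_, hjm.1.symm, hkm.1.symm, hnm.1.symm, hjk, hjn, hkn, hle, hle',
    hmi j hjm.2⟩
  rw [← insert_erase hi, hj]

/-- the sizes of three sorted numbers -/
lemma fc4_srt3 (U : Fin 9 → ℝ) {i j k i' j' k' : Fin 9} {A B D : ℝ}
    (hS : ({i, j, k} : Finset (Fin 9)) = {i', j', k'}) (hjk : j ≠ k)
    (h1 : U k' ≤ U j') (h2 : U j' ≤ U i')
    (hA : U i ≤ A) (hB : U j ≤ B) (hD : U k ≤ D) (hDB : D ≤ B) (hBA : B ≤ A) :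
    U i' ≤ A ∧ U j' ≤ B ∧ U k' ≤ D := by
  have mi : i' ∈ ({i, j, k} : Finset (Fin 9)) := by rw [hS]; simp
  have mj : j ∈ ({i', j', k'} : Finset (Fin 9)) := by rw [← hS]; simp
  have mk : k ∈ ({i', j', k'} : Finset (Fin 9)) := by rw [← hS]; simp
  simp only [mem_insert, mem_singleton] at mi mj mk
  refine ⟨?_, ?_, ?_⟩
  · rcases mi with h | h | h <;> rw [h] <;> linarith
  · rcases mj with h | h | h
    · rw [← h] at h2; linarith
    · rw [← h]; exact hB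
    · rcases mk with h' | h' | h'
      · rw [← h'] at h2; linarith
      · rw [← h']; linarith
      · exact absurd (h.trans h'.symm) hjk
  · rcases mk with h | h | h
    · rw [← h] at h2; linarith
    · rw [← h] at h1; linarith
    · rw [← h]; exact hD

lemma fc4_mono {X : ℕ} (hX : 2 ≤ X) {α β : ℝ} (h : α ≤ β) : (X : ℝ) ^ α ≤ (X : ℝ) ^ β := by
  have hX1 : (1 : ℝ) ≤ (X : ℝ) := by exact_mod_cast (by omega : 1 ≤ X)
  exact Real.rpow_le_rpow_of_exponent_le hX1 h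

/-- from powers of `X` to powers of `w` -/
lemma fc4_pow {X : ℕ} (hX : 2 ≤ X) {n : ℕ} {w e c : ℝ} (hw : (X : ℝ) ^ w ≤ (n : ℝ))
    (hc : 0 ≤ c) (he : e ≤ w * c) : (X : ℝ) ^ e ≤ (n : ℝ) ^ c := by
  have hX1 : (1 : ℝ) ≤ (X : ℝ) := by exact_mod_cast (by omega : 1 ≤ X)
  have hX0 : (0 : ℝ) < (X : ℝ) := by linarith
  calc (X : ℝ) ^ e ≤ (X : ℝ) ^ (w * c) := Real.rpow_le_rpow_of_exponent_le hX1 he
    _ = ((X : ℝ) ^ w) ^ c := Real.rpow_mul hX0.le _ _
    _ ≤ (n : ℝ) ^ c := Real.rpow_le_rpow (Real.rpow_nonneg hX0.le _) hw hc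

/-- the saving -/
lemma fc4_sav {X : ℕ} (hX : 2 ≤ X) {n : ℕ} {w d k : ℝ} (hw : (X : ℝ) ^ w ≤ (n : ℝ))
    (hd : 0 ≤ d) (hk : k ≤ w * d) : (n : ℝ) ^ (-d) ≤ (X : ℝ) ^ (-k) := by
  have hX1 : (1 : ℝ) ≤ (X : ℝ) := by exact_mod_cast (by omega : 1 ≤ X)
  have hX0 : (0 : ℝ) < (X : ℝ) := by linarith
  have hn0 : (0 : ℝ) < (n : ℝ) := (Real.rpow_pos_of_pos hX0 w).trans_le hw
  rw [Real.rpow_neg hn0.le, Real.rpow_neg hX0.le]
  exact inv_anti₀ (Real.rpow_pos_of_pos hX0 _) (fc4_pow hX hw hd hk)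

/-- linear facts -/
lemma fc4_facts {m h : ℝ} {θ : Ex} (_hm : 0 < m) (_hm8 : m ≤ 1 / 10 ^ 8) (hh : 0 < h)
    (hhm : h ≤ m / 10 ^ 6) (H : Con h θ) (_hρ : 1 - m / 10 < θ.ρ) (hs : 1 / 4 - m / 100 < θ.s) :
    θ.u + θ.v < 1 / 2 + 5 * h ∧ 1 / 4 - m / 20 < θ.w ∧ θ.w ≤ 1 / 4 + 6 * h := by
  have h1 := H.con.tot
  have h2 := H.con.ρ1
  have h3 := H.con.r_up
  have h4 := H.con.r_lo
  have h5 := H.con.R_up
  have h6 := H.con.R_lo
  have h7 := H.con.s3
  have h8 := H.con.ws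
  have h9 := H.con.w4
  have h10 := H.Rbig
  have h11 := H.Wbig
  have h12 := H.nn.r1
  have h13 := H.nn.r2
  refine ⟨by linarith, by linarith, by linarith⟩

/-- number of moduli -/
lemma fc4_im {h : ℝ} {θ : Ex} {X : ℕ} {TT : Finset (ℕ × ℕ × ℕ)} (hT : CT h θ X TT) :
    ((TT.image (fun t => pc 3 t.2.2 ^ 3)).card : ℝ) ≤ 1 * (X : ℝ) ^ (θ.w + h) := by
  have h1 : TT.image (fun t => pc 3 t.2.2 ^ 3) ⊆
      (Icc 1 ⌊(X : ℝ) ^ (θ.w + h)⌋₊).image (fun n => n ^ 3) := by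
    intro x hx
    obtain ⟨t, ht, rfl⟩ := mem_image.1 hx
    apply mem_image.2
    refine ⟨pc 3 t.2.2, mem_Icc.2 ⟨pc_pos _ _, ?_⟩, rfl⟩
    exact Nat.le_floor (hT.mem t ht).w.2
  have h2 := (card_le_card h1).trans card_image_le
  rw [Nat.card_Icc, Nat.add_sub_cancel] at h2
  rw [one_mul]
  have h3 : (((TT.image (fun t => pc 3 t.2.2 ^ 3)).card : ℕ) : ℝ) ≤
      ((⌊(X : ℝ) ^ (θ.w + h)⌋₊ : ℕ) : ℝ) := by exact_mod_cast h2
  exact h3.trans (Nat.floor_le (Real.rpow_nonneg (Nat.cast_nonneg _) _))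

/-- one class -/
lemma fc4_one (hf1 : FL1Stmt) {m h : ℝ} {θ : Ex} (hm : 0 < m) (hm8 : m ≤ 1 / 10 ^ 8)
    (hh : 0 < h) (hhm : h ≤ m / 10 ^ 6) (H : Con h θ) (hρ : 1 - m / 10 < θ.ρ)
    (hs : 1 / 4 - m / 100 < θ.s) {i : Fin 9} (hi : i ≠ 0) (c1 : 1 / 4 + m ≤ θ.a i + θ.b i) :
    Small h θ := by
  obtain ⟨f1, f2, f3⟩ := fc4_facts hm hm8 hh hhm H hρ hs
  have ha := fc4_sa H (S := {i}) (by rw [mem_singleton]; exact hi.symm)
  have hb := fc4_sb H (S := {i}) (by rw [mem_singleton]; exact hi.symm)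
  rw [sum_singleton] at ha hb
  obtain ⟨C, hC⟩ := hf1 h θ i (fun r => pc 3 r ^ 3) (θ.w + h) (θ.w * 3) 1 hh hi H.nn ha hb
    (by linarith [H.nn.w])
  refine ⟨max C 0 * 2, fun X TT hX hT => ?_⟩
  have hX1 : (1 : ℝ) ≤ (X : ℝ) := by exact_mod_cast (by omega : 1 ≤ X)
  have hX0 : (0 : ℝ) < (X : ℝ) := by linarith
  have key := hC X TT hX hT
    (fun t ht => ⟨pc_pow_dvd (hT.mem t ht).tri.hr 3, by
      have h1 := (hT.mem t ht).w.1
      have h2 := fc4_pow (e := θ.w * 3) (c := 3) hX h1 (by norm_num) le_rfl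
      refine h2.trans (le_of_eq ?_)
      have h3 : ((pc 3 t.2.2 : ℕ) : ℝ) ^ (3 : ℝ) = ((pc 3 t.2.2 : ℕ) : ℝ) ^ (3 : ℕ) := by
        rw [← Real.rpow_natCast]
        norm_num
      rw [h3, Nat.cast_pow]⟩)
    (fc4_im hT)
  have e1 : (X : ℝ) ^ (θ.w + h + θ.u + θ.v - (θ.a i + θ.b i) + 3 * h) ≤
      (X : ℝ) ^ (1 / 2 - h) := fc4_mono hX (by linarith)
  have e2 : (X : ℝ) ^ (θ.w + h + θ.u + θ.v - θ.w * 3 + 5 * h) ≤
      (X : ℝ) ^ (1 / 2 - h) := fc4_mono hX (by linarith)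
  have hm1 : C ≤ max C 0 := le_max_left _ _
  have hm0 : 0 ≤ max C 0 := le_max_right _ _
  have p1 := Real.rpow_nonneg hX0.le (θ.w + h + θ.u + θ.v - (θ.a i + θ.b i) + 3 * h)
  have p2 := Real.rpow_nonneg hX0.le (θ.w + h + θ.u + θ.v - θ.w * 3 + 5 * h)
  refine key.trans ?_
  calc _ ≤ max C 0 * _ := mul_le_mul_of_nonneg_right hm1 (by linarith)
    _ ≤ max C 0 * ((X : ℝ) ^ (1 / 2 - h) + (X : ℝ) ^ (1 / 2 - h)) :=
      mul_le_mul_of_nonneg_left (by linarith) hm0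
    _ = max C 0 * 2 * (X : ℝ) ^ (1 / 2 - h) := by ring

/-- several classes -/
lemma fc4_L (hf0 : FL0Stmt) {m h d C1 : ℝ} {θ : Ex} (hm : 0 < m) (hm8 : m ≤ 1 / 10 ^ 8)
    (hh : 0 < h) (hhm : h ≤ m / 10 ^ 6) (H : Con h θ) (hρ : 1 - m / 10 < θ.ρ)
    (hs : 1 / 4 - m / 100 < θ.s) (hd : 0 < d) (hhd : h ≤ d / 300) (hC1 : 1 ≤ C1)
    {S : Finset (Fin 9)} (hS : (0 : Fin 9) ∉ S) (hB : 1 / 4 + m ≤ ∑ i ∈ S, fc4_c θ i)
    (hN : ∀ (X w : ℕ) (U : Fin 9 → ℝ), 2 ≤ X → Squarefree w → (X : ℝ) ^ θ.w ≤ (w : ℝ) →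
      (∀ i, 1 ≤ U i) → (∀ i, i ∉ S → U i = 1) →
      (∀ i ∈ S, U i ≤ (X : ℝ) ^ (fc4_c θ i + 2 * h)) →
      (∃ i ∈ S, (w : ℝ) ^ (1 / 12 : ℝ) ≤ U i) →
      NN (w ^ 3) U ≤ C1 * (w : ℝ) ^ (-d) * ∏ i, U i) : Small h θ := by
  obtain ⟨f1, f2, f3⟩ := fc4_facts hm hm8 hh hhm H hρ hs
  have hBe : ∑ i ∈ S, fc4_c θ i = ∑ i ∈ S, θ.a i + ∑ i ∈ S, θ.b i := by
    rw [← sum_add_distrib]
    apply sum_congr rfl
    intro i hi
    exact fc4_c_ne θ (fun hc => hS (hc ▸ hi))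
  rw [hBe] at hB
  obtain ⟨C, hC⟩ := hf0 h θ S S (fun r => pc 3 r ^ 3) (θ.w + h) (d / 5) C1 hh hS hS H.nn
    (fc4_sa H hS) (fc4_sb H hS) (by linarith)
  refine ⟨max C 0 * 3, fun X TT hX hT => ?_⟩
  have hX1 : (1 : ℝ) ≤ (X : ℝ) := by exact_mod_cast (by omega : 1 ≤ X)
  have hX1' : (1 : ℝ) < (X : ℝ) := by exact_mod_cast (by omega : 1 < X)
  have hX0 : (0 : ℝ) < (X : ℝ) := by linarith
  have key := hC X TT hX hT
    (fun t ht => pc_pow_dvd (hT.mem t ht).tri.hr 3)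
    ((fc4_im hT).trans (mul_le_mul_of_nonneg_right hC1 (Real.rpow_nonneg hX0.le _)))
    (by
      intro t ht U hU hbig
      have htm := hT.mem t ht
      have hw1 := htm.w.1
      have hone : ∀ i, i ∉ S → U i = 1 := by
        intro i hi
        have h3 := (hU i).2
        rw [if_neg hi, if_neg hi, add_zero, Real.rpow_zero] at h3
        exact le_antisymm h3 (hU i).1
      have hwgt : (1 : ℝ) < (pc 3 t.2.2 : ℝ) :=
        (Real.one_lt_rpow hX1' (by linarith)).trans_le hw1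
      have h2 := hN X (pc 3 t.2.2) U hX (pc_squarefree _ _) hw1 (fun i => (hU i).1) hone
        (fun i hi => by
          have h3 := (hU i).2
          rw [if_pos hi, if_pos hi] at h3
          rw [fc4_c_ne θ (fun hc => hS (hc ▸ hi))]
          refine h3.trans (le_of_eq ?_)
          congr 1
          ring)
        (by
          obtain ⟨i, hi⟩ := hbig
          have h4 : (((pc 3 t.2.2 ^ 3 : ℕ) : ℝ)) ^ (1 / 36 : ℝ) =
              (pc 3 t.2.2 : ℝ) ^ (1 / 12 : ℝ) := by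
            rw [Nat.cast_pow, ← Real.rpow_natCast, ← Real.rpow_mul (Nat.cast_nonneg _)]
            congr 1
            push_cast
            norm_num
          rw [h4] at hi
          refine ⟨i, ?_, hi⟩
          by_contra hiS
          rw [hone i hiS] at hi
          have h5 : (1 : ℝ) < (pc 3 t.2.2 : ℝ) ^ (1 / 12 : ℝ) :=
            Real.one_lt_rpow hwgt (by norm_num)
          linarith)
      refine h2.trans ?_
      have h4 : (0 : ℝ) ≤ ∏ i, U i := prod_nonneg fun i _ => by linarith [(hU i).1]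
      have h5 : (pc 3 t.2.2 : ℝ) ^ (-d) ≤ (X : ℝ) ^ (-(d / 5)) :=
        fc4_sav hX hw1 hd.le (by nlinarith)
      have h6 : 0 ≤ C1 := by linarith
      gcongr)
  have e1 : (X : ℝ) ^ (θ.w + h + θ.u + θ.v - (∑ i ∈ S, θ.a i + ∑ i ∈ S, θ.b i) + 3 * h) ≤
      (X : ℝ) ^ (1 / 2 - h) := fc4_mono hX (by linarith)
  have e2 : (X : ℝ) ^ (θ.w + h + (θ.u + θ.v - d / 5) / 2 + 10 * h) ≤
      (X : ℝ) ^ (1 / 2 - h) := fc4_mono hX (by linarith)
  have e3 : (X : ℝ) ^ (θ.u + θ.v + (θ.w + h - (∑ i ∈ S, θ.a i + ∑ i ∈ S, θ.b i) - d / 5) / 2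
      + 11 * h) ≤ (X : ℝ) ^ (1 / 2 - h) := fc4_mono hX (by linarith)
  have hm1 : C ≤ max C 0 := le_max_left _ _
  have hm0 : 0 ≤ max C 0 := le_max_right _ _
  have p1 := Real.rpow_nonneg hX0.le
    (θ.w + h + θ.u + θ.v - (∑ i ∈ S, θ.a i + ∑ i ∈ S, θ.b i) + 3 * h)
  have p2 := Real.rpow_nonneg hX0.le (θ.w + h + (θ.u + θ.v - d / 5) / 2 + 10 * h)
  have p3 := Real.rpow_nonneg hX0.le
    (θ.u + θ.v + (θ.w + h - (∑ i ∈ S, θ.a i + ∑ i ∈ S, θ.b i) - d / 5) / 2 + 11 * h)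
  refine key.trans ?_
  calc _ ≤ max C 0 * _ := mul_le_mul_of_nonneg_right hm1 (by linarith)
    _ ≤ max C 0 * ((X : ℝ) ^ (1 / 2 - h) + (X : ℝ) ^ (1 / 2 - h) + (X : ℝ) ^ (1 / 2 - h)) :=
      mul_le_mul_of_nonneg_left (by linarith) hm0
    _ = max C 0 * 3 * (X : ℝ) ^ (1 / 2 - h) := by ring

/-- products of two powers -/
lemma fc4_mul {X : ℕ} (hX : 2 ≤ X) {x y α β : ℝ} (hy0 : 0 ≤ y) (hx : x ≤ (X : ℝ) ^ α)
    (hy : y ≤ (X : ℝ) ^ β) : x * y ≤ (X : ℝ) ^ (α + β) := by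
  have hX1 : (1 : ℝ) ≤ (X : ℝ) := by exact_mod_cast (by omega : 1 ≤ X)
  have hX0 : (0 : ℝ) < (X : ℝ) := by linarith
  rw [Real.rpow_add hX0]
  exact mul_le_mul hx hy hy0 (Real.rpow_nonneg hX0.le _)

/-- products of three powers -/
lemma fc4_mul3 {X : ℕ} (hX : 2 ≤ X) {x y z α β γ : ℝ} (hy0 : 0 ≤ y) (hz0 : 0 ≤ z)
    (hx : x ≤ (X : ℝ) ^ α) (hy : y ≤ (X : ℝ) ^ β) (hz : z ≤ (X : ℝ) ^ γ) :
    x * y * z ≤ (X : ℝ) ^ (α + β + γ) := fc4_mul hX hz0 (fc4_mul hX hy0 hx hy) hz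

/-- the product of the three largest of four numbers -/
lemma fc4_top {X : ℕ} (hX : 2 ≤ X) (U : Fin 9 → ℝ) (hU : ∀ l, 1 ≤ U l)
    {i j k n i' j' k' n' : Fin 9} {α β γ ν : ℝ}
    (hS : ({i, j, k, n} : Finset (Fin 9)) = {i', j', k', n'})
    (hij : i ≠ j) (hik : i ≠ k) (hin : i ≠ n) (hjk : j ≠ k) (hjn : j ≠ n) (hkn : k ≠ n)
    (hij' : i' ≠ j') (hik' : i' ≠ k') (hin' : i' ≠ n') (hjk' : j' ≠ k') (hjn' : j' ≠ n')
    (hkn' : k' ≠ n')
    (hA : U i ≤ (X : ℝ) ^ α) (hB : U j ≤ (X : ℝ) ^ β) (hD : U k ≤ (X : ℝ) ^ γ)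
    (hE : U n ≤ (X : ℝ) ^ ν) (h1 : ν ≤ γ) (h2 : γ ≤ β) (h3 : β ≤ α) :
    U i' * U j' * U k' ≤ (X : ℝ) ^ (α + β + γ) := by
  have hpr : U i' * U j' * U k' * U n' = U i * U j * U k * U n := by
    have e1 : ∏ l ∈ ({i, j, k, n} : Finset (Fin 9)), U l = U i * U j * U k * U n := by
      rw [prod_insert (by simp only [mem_insert, mem_singleton, not_or]; exact ⟨hij, hik, hin⟩),
        prod_insert (by simp only [mem_insert, mem_singleton, not_or]; exact ⟨hjk, hjn⟩),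
        prod_pair hkn]
      ring
    have e2 : ∏ l ∈ ({i', j', k', n'} : Finset (Fin 9)), U l =
        U i' * U j' * U k' * U n' := by
      rw [prod_insert (by
          simp only [mem_insert, mem_singleton, not_or]; exact ⟨hij', hik', hin'⟩),
        prod_insert (by simp only [mem_insert, mem_singleton, not_or]; exact ⟨hjk', hjn'⟩),
        prod_pair hkn']
      ring
    rw [← e1, ← e2, hS]
  have i1 := hU i
  have j1 := hU j
  have k1 := hU k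
  have n1 := hU n
  have mn : n' ∈ ({i, j, k, n} : Finset (Fin 9)) := by rw [hS]; simp
  simp only [mem_insert, mem_singleton] at mn
  rcases mn with h | h | h | h
  · rw [h] at hpr
    have h4 : U i' * U j' * U k' = U j * U k * U n := by
      apply mul_right_cancel₀ (b := U i) (by linarith)
      rw [hpr]; ring
    rw [h4]
    exact (fc4_mul3 hX (by linarith) (by linarith) hB hD hE).trans (fc4_mono hX (by linarith))
  · rw [h] at hpr
    have h4 : U i' * U j' * U k' = U i * U k * U n := by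
      apply mul_right_cancel₀ (b := U j) (by linarith)
      rw [hpr]; ring
    rw [h4]
    exact (fc4_mul3 hX (by linarith) (by linarith) hA hD hE).trans (fc4_mono hX (by linarith))
  · rw [h] at hpr
    have h4 : U i' * U j' * U k' = U i * U j * U n := by
      apply mul_right_cancel₀ (b := U k) (by linarith)
      rw [hpr]; ring
    rw [h4]
    exact (fc4_mul3 hX (by linarith) (by linarith) hA hB hE).trans (fc4_mono hX (by linarith))
  · rw [h] at hpr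
    have h4 : U i' * U j' * U k' = U i * U j * U k := by
      apply mul_right_cancel₀ (b := U n) (by linarith)
      rw [hpr]
    rw [h4]
    exact (fc4_mul3 hX (by linarith) (by linarith) hA hB hD).trans (fc4_mono hX (by linarith))

/-- enlarging the constant and the exponent -/
lemma fc4_wk {w : ℕ} (hw : Squarefree w) {N C C' d d' P : ℝ} (hN : N ≤ C * (w : ℝ) ^ (-d) * P)
    (hC : C ≤ C') (hC0 : 0 ≤ C) (hd : d' ≤ d) (hP : 0 ≤ P) : N ≤ C' * (w : ℝ) ^ (-d') * P := by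
  have hw1 : (1 : ℝ) ≤ (w : ℝ) := by
    exact_mod_cast Nat.one_le_iff_ne_zero.2 hw.ne_zero
  have h1 : (w : ℝ) ^ (-d) ≤ (w : ℝ) ^ (-d') :=
    Real.rpow_le_rpow_of_exponent_le hw1 (by linarith)
  have h2 : (0 : ℝ) ≤ (w : ℝ) ^ (-d) := Real.rpow_nonneg (by linarith) _
  refine hN.trans (mul_le_mul_of_nonneg_right ?_ hP)
  exact mul_le_mul hC h1 h2 (by linarith)

theorem fc4_thm (hf1 : FL1Stmt) (hf0 : FL0Stmt) (hsel : FSelStmt) (hn2 : N2Stmt) (hn3 : N3Stmt) (hn4 : N4Stmt)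
    (hrad : FRADStmt) (hs : FC4sStmt) : FC4Stmt := by
  have _ := hrad
  obtain ⟨μ, hμ, hn3⟩ := hn3
  obtain ⟨d3, C3, hd3, hC3, hn3⟩ := hn3 (1 / 12) (1 / 10) (by norm_num) (by norm_num)
  obtain ⟨d2, C2, hd2, hC2, hn2⟩ := hn2 (1 / 12) (1 / 1000) (by norm_num) (by norm_num)
  obtain ⟨d4, C4, hd4, hC4, hn4⟩ := hn4 (1 / 12) (by norm_num)
  obtain ⟨g0, hg0, hs⟩ := hs
  obtain ⟨m, hm, hm8, hmμ⟩ : ∃ m : ℝ, 0 < m ∧ m ≤ 1 / 10 ^ 8 ∧ m ≤ μ / 100 :=
    ⟨min (1 / 10 ^ 8) (μ / 100), lt_min (by norm_num) (by linarith), min_le_left _ _,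
      min_le_right _ _⟩
  obtain ⟨d, hd, hdd2, hdd3, hdd4⟩ : ∃ d : ℝ, 0 < d ∧ d ≤ d2 ∧ d ≤ d3 ∧ d ≤ d4 :=
    ⟨min d2 (min d3 d4), lt_min hd2 (lt_min hd3 hd4), min_le_left _ _,
      (min_le_right _ _).trans (min_le_left _ _), (min_le_right _ _).trans (min_le_right _ _)⟩
  obtain ⟨g, hg, hgm, hgg0, hgd⟩ : ∃ g : ℝ, 0 < g ∧ g ≤ m / 10 ^ 6 ∧ g ≤ g0 ∧ g ≤ d / 300 :=
    ⟨min (m / 10 ^ 6) (min g0 (d / 300)), lt_min (by positivity) (lt_min hg0 (by positivity)),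
      min_le_left _ _, (min_le_right _ _).trans (min_le_left _ _),
      (min_le_right _ _).trans (min_le_right _ _)⟩
  obtain ⟨C1, hC1, hC12, hC13, hC14⟩ : ∃ C : ℝ, 1 ≤ C ∧ C2 ≤ C ∧ C3 ≤ C ∧ C4 ≤ C :=
    ⟨max C2 (max C3 C4), hC2.trans (le_max_left _ _), le_max_left _ _,
      (le_max_left _ _).trans (le_max_right _ _), (le_max_right _ _).trans (le_max_right _ _)⟩
  refine ⟨m, g, hm, hm8, hg, hgm, fun h θ hh hhg H hρ hsθ => ?_⟩
  have hhm : h ≤ m / 10 ^ 6 := hhg.trans hgm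
  have hhd : h ≤ d / 300 := hhg.trans hgd
  obtain ⟨f1, f2, f3⟩ := fc4_facts hm hm8 hh hhm H hρ hsθ
  have hh2 : h ≤ 1 / 10 ^ 14 := by
    have : m / 10 ^ 6 ≤ 1 / 10 ^ 14 := by
      rw [div_le_div_iff₀ (by norm_num) (by norm_num)]
      norm_num at hm8 ⊢
      linarith
    linarith
  obtain ⟨i, j, k, n, hi, hj, hk, hn, hij, hik, hin, hjk, hjn, hkn, hcji, hckj, hcnk, hsum, -⟩ :=
    hsel (fun l => fc4_c θ l) (fun l => fc4_c_nonneg H.nn _) (by unfold fc4_c; simp)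
      (fc4_big H hh2)
  have hn0 := fc4_c_nonneg H.nn n
  have hk0 := fc4_c_nonneg H.nn k
  have hj0 := fc4_c_nonneg H.nn j
  have hi0 := fc4_c_nonneg H.nn i
  by_cases c1 : 1 / 4 + m ≤ fc4_c θ i
  · rw [fc4_c_ne θ hi] at c1
    exact fc4_one hf1 hm hm8 hh hhm H hρ hsθ hi c1
  push Not at c1
  by_cases c2 : 1 / 4 + m ≤ fc4_c θ i + fc4_c θ j
  · by_cases c2' : 1 / 4 - 5 / 10 ^ 4 < fc4_c θ j
    · rw [fc4_c_ne θ hj] at c2'
      rw [fc4_c_ne θ hi] at c1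
      have h1 : θ.a j + θ.b j ≤ θ.a i + θ.b i := by
        rw [← fc4_c_ne θ hi, ← fc4_c_ne θ hj]; exact hcji
      exact hs m h θ i j hm hm8 hh hhm (hhg.trans hgg0) H hρ hsθ hi hj hij c1 h1 c2'
    push Not at c2'
    refine fc4_L hf0 hm hm8 hh hhm H hρ hsθ hd hhd hC1 (S := {i, j}) ?_ ?_ ?_
    · simp only [mem_insert, mem_singleton, not_or]
      exact ⟨hi.symm, hj.symm⟩
    · rw [sum_pair hij]
      exact c2
    · intro X w U hX hw hXw hU hU1 hUS hbig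
      have gi := hUS i (by simp)
      have gj := hUS j (by simp)
      have i1 := hU i
      have j1 := hU j
      have key := hn2 w U i j hw hU hi hj hij
        (fun l h1 h2 => hU1 l (by
          simp only [mem_insert, mem_singleton, not_or]
          exact ⟨h1, h2⟩))
        (by
          obtain ⟨l, hl, hl2⟩ := hbig
          simp only [mem_insert, mem_singleton] at hl
          rcases hl with h1 | h1
          · left; rw [← h1]; exact hl2
          · right; rw [← h1]; exact hl2)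
        ((fc4_mul hX (by linarith) gi gj).trans
          (fc4_pow hX hXw (by norm_num) (by linarith)))
        (Or.inr (gj.trans (fc4_pow hX hXw (by norm_num) (by linarith))))
      exact fc4_wk hw key hC12 (by linarith) hdd2
        (prod_nonneg fun l _ => by linarith [hU l])
  push Not at c2
  by_cases c3 : 1 / 4 + m ≤ fc4_c θ i + fc4_c θ j + fc4_c θ k
  · refine fc4_L hf0 hm hm8 hh hhm H hρ hsθ hd hhd hC1 (S := {i, j, k}) ?_ ?_ ?_
    · simp only [mem_insert, mem_singleton, not_or]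
      exact ⟨hi.symm, hj.symm, hk.symm⟩
    · rw [sum_insert (by
        simp only [mem_insert, mem_singleton, not_or]
        exact ⟨hij, hik⟩), sum_pair hjk]
      linarith
    · intro X w U hX hw hXw hU hU1 hUS hbig
      have gi := hUS i (by simp)
      have gj := hUS j (by simp)
      have gk := hUS k (by simp)
      have hcard : ({i, j, k} : Finset (Fin 9)).card = 3 := card_eq_three.2
        ⟨i, j, k, hij, hik, hjk, rfl⟩
      obtain ⟨i', j', k', hS, hij', hik', hjk', hle1, hle2⟩ := fc4_sort3 U _ hcard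
      obtain ⟨b1, b2, b3⟩ := fc4_srt3 U hS hjk hle1 hle2 gi gj gk
        (fc4_mono hX (by linarith)) (fc4_mono hX (by linarith))
      have hne : ∀ l ∈ ({i', j', k'} : Finset (Fin 9)), l ≠ 0 := by
        intro l hl
        rw [← hS] at hl
        simp only [mem_insert, mem_singleton] at hl
        rcases hl with h1 | h1 | h1 <;> rw [h1] <;> assumption
      have i1 := hU i'
      have j1 := hU j'
      have key := hn3 w U i' j' k' hw hU (hne i' (by simp)) (hne j' (by simp))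
        (hne k' (by simp)) hij' hik' hjk'
        (fun l h1 h2 h3 => hU1 l (by
          rw [hS]
          simp only [mem_insert, mem_singleton, not_or]
          exact ⟨h1, h2, h3⟩))
        hle1 hle2
        (by
          obtain ⟨l, hl, hl2⟩ := hbig
          rw [hS] at hl
          simp only [mem_insert, mem_singleton] at hl
          rcases hl with h1 | h1 | h1 <;> rw [h1] at hl2 <;> linarith)
        (by
          rw [sq]
          exact (fc4_mul3 hX (by linarith) (by linarith) b1 b1 b2).trans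
            (fc4_pow hX hXw (by norm_num) (by linarith)))
        (b2.trans (fc4_pow hX hXw (by norm_num) (by linarith)))
        (b3.trans (fc4_pow hX hXw (by linarith) (by nlinarith)))
      exact fc4_wk hw key hC13 (by linarith) hdd3
        (prod_nonneg fun l _ => by linarith [hU l])
  push Not at c3
  refine fc4_L hf0 hm hm8 hh hhm H hρ hsθ hd hhd hC1 (S := {i, j, k, n}) ?_ ?_ ?_
  · simp only [mem_insert, mem_singleton, not_or]
    exact ⟨hi.symm, hj.symm, hk.symm, hn.symm⟩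
  · rw [sum_insert (by
        simp only [mem_insert, mem_singleton, not_or]
        exact ⟨hij, hik, hin⟩), sum_insert (by
        simp only [mem_insert, mem_singleton, not_or]
        exact ⟨hjk, hjn⟩), sum_pair hkn]
    linarith
  · intro X w U hX hw hXw hU hU1 hUS hbig
    have gi := hUS i (by simp)
    have gj := hUS j (by simp)
    have gk := hUS k (by simp)
    have gn := hUS n (by simp)
    have hcard : ({i, j, k, n} : Finset (Fin 9)).card = 4 := by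
      rw [card_insert_of_notMem (by
        simp only [mem_insert, mem_singleton, not_or]
        exact ⟨hij, hik, hin⟩), card_eq_three.2 ⟨j, k, n, hjk, hjn, hkn, rfl⟩]
    obtain ⟨i', j', k', n', hS, hij', hik', hin', hjk', hjn', hkn', hle1, hle2, hle3⟩ :=
      fc4_sort4 U _ hcard
    have b1 := fc4_top hX U hU hS hij hik hin hjk hjn hkn hij' hik' hin' hjk' hjn' hkn'
      gi gj gk gn (by linarith) (by linarith) (by linarith)
    have hne : ∀ l ∈ ({i', j', k', n'} : Finset (Fin 9)), l ≠ 0 := by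
      intro l hl
      rw [← hS] at hl
      simp only [mem_insert, mem_singleton] at hl
      rcases hl with h1 | h1 | h1 | h1 <;> rw [h1] <;> assumption
    have key := hn4 w U i' j' k' n' hw hU (hne i' (by simp)) (hne j' (by simp))
      (hne k' (by simp)) (hne n' (by simp)) hij' hik' hin' hjk' hjn' hkn'
      (fun l h1 h2 h3 h4 => hU1 l (by
        rw [hS]
        simp only [mem_insert, mem_singleton, not_or]
        exact ⟨h1, h2, h3, h4⟩))
      hle1 hle2 hle3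
      (by
        obtain ⟨l, hl, hl2⟩ := hbig
        rw [hS] at hl
        simp only [mem_insert, mem_singleton] at hl
        rcases hl with h1 | h1 | h1 | h1 <;> rw [h1] at hl2 <;> linarith)
      (b1.trans (fc4_pow hX hXw (by norm_num) (by linarith)))
    exact fc4_wk hw key hC14 (by linarith) hdd4
      (prod_nonneg fun l _ => by linarith [hU l])

end Pool.Agent.Helper21.EN
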