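import Pool.Agent.Helper21.EN.FStmts
import Pool.Agent.Helper21.EN.Dec

set_option autoImplicit false

/-!
# Project EN, final piece FC4s

Case 4 with two classes near a quarter.
-/

namespace Pool.Agent.Helper21.EN

open Finset

/-- The hypotheses, symmetric in the two classes. -/
structure fc4s_Hyp (m h : ℝ) (θ : Ex) (i j : Fin 9) : Prop where
  m0 : 0 < m
  m1 : m ≤ 1 / 10 ^ 8
  h0 : 0 < h
  h1 : h ≤ m / 10 ^ 6
  con : Con h θ
  rho : 1 - m / 10 < θ.ρ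
  s : 1 / 4 - m / 100 < θ.s
  i0 : i ≠ 0
  j0 : j ≠ 0
  ij : i ≠ j
  iu : θ.a i + θ.b i < 1 / 4 + m
  ju : θ.a j + θ.b j < 1 / 4 + m
  il : 1 / 4 - 5 / 10 ^ 4 < θ.a i + θ.b i
  jl : 1 / 4 - 5 / 10 ^ 4 < θ.a j + θ.b j

theorem fc4s_Hyp.exch {m h : ℝ} {θ : Ex} {i j : Fin 9} (H : fc4s_Hyp m h θ i j) :
    fc4s_Hyp m h θ j i :=
  ⟨H.m0, H.m1, H.h0, H.h1, H.con, H.rho, H.s, H.j0, H.i0, H.ij.symm, H.ju, H.iu, H.jl, H.il⟩

theorem fc4s_con_swap {h : ℝ} {θ : Ex} (H : Con h θ) : Con h θ.swap := by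
  obtain ⟨nn, c, r, w⟩ := H
  refine ⟨⟨nn.b, nn.a, nn.v, nn.u, nn.ρ, nn.R, nn.r1, nn.r2, nn.s, nn.c, nn.w⟩,
    ⟨c.bsum, c.asum, c.brad, c.arad, c.bv, c.au, c.b9, c.a9, ?_, c.ρ1, c.r_up, c.r_lo, c.R_up,
      c.R_lo, c.s3, c.ws, c.w4⟩, r, ?_⟩
  · have := c.tot
    simp only [Ex.swap]
    linarith
  · simp only [Ex.swap]
    linarith

theorem fc4s_Hyp.swap {m h : ℝ} {θ : Ex} {i j : Fin 9} (H : fc4s_Hyp m h θ i j) :
    fc4s_Hyp m h θ.swap i j := by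
  refine ⟨H.m0, H.m1, H.h0, H.h1, fc4s_con_swap H.con, H.rho, H.s, H.i0, H.j0, H.ij, ?_, ?_,
    ?_, ?_⟩
  · have := H.iu
    simp only [Ex.swap]
    linarith
  · have := H.ju
    simp only [Ex.swap]
    linarith
  · have := H.il
    simp only [Ex.swap]
    linarith
  · have := H.jl
    simp only [Ex.swap]
    linarith

theorem fc4s_inc_swap {X : ℕ} {h : ℝ} {θ : Ex} {t : ℕ × ℕ × ℕ} (H : InC X h θ t) :
    InC X h θ.swap (t.2.1, t.1, t.2.2) := by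
  obtain ⟨tri, a, b, u, v, ρ, R, r1, r2, s, c, w⟩ := H
  refine ⟨?_, b, a, v, u, ρ, R, r1, r2, s, c, w⟩
  refine ⟨tri.hq, tri.hp, tri.hr, tri.pq.symm, tri.qr, tri.pr, tri.qX, tri.pX, tri.rX, ?_⟩
  rcases tri.rel with h1 | h1 | h1
  · left
    show t.2.1 + t.1 = t.2.2
    omega
  · right; right
    show t.2.1 + t.2.2 = t.1
    omega
  · right; left
    show t.1 + t.2.2 = t.2.1
    omega

theorem fc4s_small_swap {h : ℝ} {θ : Ex} (H : Small h θ.swap) : Small h θ := by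
  classical
  obtain ⟨C, hC⟩ := H
  refine ⟨C, ?_⟩
  intro X TT hX hCT
  have hinj : Function.Injective (fun t : ℕ × ℕ × ℕ => (t.2.1, t.1, t.2.2)) := by
    intro t t' h1
    simp only [Prod.mk.injEq] at h1
    obtain ⟨h2, h3, h4⟩ := h1
    exact Prod.ext h3 (Prod.ext h2 h4)
  have h1 := hC X (TT.image (fun t => (t.2.1, t.1, t.2.2))) hX ?_
  · rwa [Finset.card_image_of_injective _ hinj] at h1
  · refine ⟨?_, ?_, ?_, ?_⟩
    · intro t ht
      rw [Finset.mem_image] at ht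
      obtain ⟨s, hs, rfl⟩ := ht
      exact fc4s_inc_swap (hCT.mem s hs)
    · intro t ht
      rw [Finset.mem_image] at ht
      obtain ⟨s, hs, rfl⟩ := ht
      have := hCT.rad s hs
      show (rad s.2.1 : ℝ) * rad s.1 * rad s.2.2 ≤ (X : ℝ) ^ (1 + h)
      linarith [mul_comm (rad s.1 : ℝ) (rad s.2.1 : ℝ)]
    · intro t ht
      rw [Finset.mem_image] at ht
      obtain ⟨s, hs, rfl⟩ := ht
      rcases hCT.big s hs with h1 | h1 | h1
      · exact Or.inr (Or.inl h1)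
      · exact Or.inl h1
      · exact Or.inr (Or.inr h1)
    · intro t ht t' ht' h1
      rw [Finset.mem_image] at ht ht'
      obtain ⟨s, hs, rfl⟩ := ht
      obtain ⟨s', hs', rfl⟩ := ht'
      have := hCT.inj s hs s' hs' h1
      rw [this]

/-- Numerical facts. -/
theorem fc4s_facts {m h : ℝ} {θ : Ex} {i j : Fin 9} (H : fc4s_Hyp m h θ i j) :
    θ.u + θ.v < 1 / 2 + 5 * h ∧ 1 / 4 - m / 20 < θ.w ∧ θ.w ≤ 1 / 4 + 6 * h := by
  have h1 := H.con.con.tot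
  have h2 := H.con.Rbig
  have h3 := H.con.con.w4
  have h4 := H.con.con.R_up
  have h5 := H.con.con.r_up
  have h6 := H.con.con.s3
  have h7 := H.con.con.R_lo
  have h8 := H.con.con.ws
  have h9 := H.con.con.ρ1
  have h10 := H.con.nn.r2
  have h11 := H.con.nn.r1
  have h12 := H.s
  have h13 := H.h0
  have h14 := H.h1
  have h15 := H.m0
  have h16 := H.m1
  refine ⟨by linarith, ?_, ?_⟩
  · have : 3 * θ.s - 1 / 2 - 14 * h ≤ θ.w := by linarith
    have : 14 * h ≤ m / 1000 := by linarith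
    linarith
  · linarith

theorem fc4s_sum_le (f : ℕ → ℝ) (hf : ∀ e, 0 ≤ f e) (S : Finset (Fin 9)) (hS : (0 : Fin 9) ∉ S) :
    ∑ i ∈ S, f i ≤ ∑ e ∈ Finset.Icc (1 : ℕ) 1000, f e := by
  classical
  have h1 : ∑ i ∈ S, f i = ∑ e ∈ S.image (fun i : Fin 9 => (i : ℕ)), f e := by
    rw [Finset.sum_image (fun _ _ _ _ h => Fin.ext h)]
  rw [h1]
  apply Finset.sum_le_sum_of_subset_of_nonneg
  · intro e he
    rw [Finset.mem_image] at he
    obtain ⟨i, hi, rfl⟩ := he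
    rw [Finset.mem_Icc]
    have h2 : (i : ℕ) ≠ 0 := by
      intro h3
      apply hS
      have : i = 0 := Fin.ext h3
      rwa [this] at hi
    have h3 := i.isLt
    omega
  · intro e _ _
    exact hf e

theorem fc4s_pow_le {X : ℕ} (hX : 2 ≤ X) {a b : ℝ} (h : a ≤ b) : (X : ℝ) ^ a ≤ (X : ℝ) ^ b := by
  apply Real.rpow_le_rpow_of_exponent_le _ h
  have : (2 : ℝ) ≤ X := by exact_mod_cast hX
  linarith

theorem fc4s_card_ww {h : ℝ} {θ : Ex} {X : ℕ} {TT : Finset (ℕ × ℕ × ℕ)} (hCT : CT h θ X TT) :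
    ((TT.image (fun t => pc 3 t.2.2)).card : ℝ) ≤ (X : ℝ) ^ (θ.w + h) := by
  classical
  have h1 : TT.image (fun t => pc 3 t.2.2) ⊆ Finset.Icc 1 ⌊(X : ℝ) ^ (θ.w + h)⌋₊ := by
    intro x hx
    rw [Finset.mem_image] at hx
    obtain ⟨t, ht, rfl⟩ := hx
    rw [Finset.mem_Icc]
    refine ⟨pc_pos _ _, ?_⟩
    exact Nat.le_floor (hCT.mem t ht).w.2
  have h2 := Finset.card_le_card h1
  rw [Nat.card_Icc, Nat.add_sub_cancel] at h2
  calc ((TT.image (fun t => pc 3 t.2.2)).card : ℝ) ≤ (⌊(X : ℝ) ^ (θ.w + h)⌋₊ : ℝ) := by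
        exact_mod_cast h2
    _ ≤ (X : ℝ) ^ (θ.w + h) := Nat.floor_le (by positivity)

/-- The combination of three powers. -/
theorem fc4s_three {X : ℕ} (hX : 2 ≤ X) {C e1 e2 e3 E N : ℝ} (h1 : e1 ≤ E) (h2 : e2 ≤ E)
    (h3 : e3 ≤ E) (hN : N ≤ C * ((X : ℝ) ^ e1 + (X : ℝ) ^ e2 + (X : ℝ) ^ e3)) :
    N ≤ 3 * |C| * (X : ℝ) ^ E := by
  have a1 := fc4s_pow_le hX h1
  have a2 := fc4s_pow_le hX h2
  have a3 := fc4s_pow_le hX h3
  have hpos : 0 ≤ (X : ℝ) ^ e1 + (X : ℝ) ^ e2 + (X : ℝ) ^ e3 := by positivity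
  calc N ≤ C * ((X : ℝ) ^ e1 + (X : ℝ) ^ e2 + (X : ℝ) ^ e3) := hN
    _ ≤ |C| * ((X : ℝ) ^ e1 + (X : ℝ) ^ e2 + (X : ℝ) ^ e3) :=
        mul_le_mul_of_nonneg_right (le_abs_self C) hpos
    _ ≤ |C| * (3 * (X : ℝ) ^ E) := mul_le_mul_of_nonneg_left (by linarith) (abs_nonneg C)
    _ = 3 * |C| * (X : ℝ) ^ E := by ring

/-- Case A: the class `i` has a large piece on each side. -/
theorem fc4s_A (hf0 : FL0Stmt) (dN CN : ℝ) (hdN : 0 < dN) (hCN : 1 ≤ CN)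
    (hn : ∀ (w : ℕ) (T : Fin 9 → ℝ) (i j : Fin 9), Squarefree w → (∀ l, 1 ≤ T l) →
      i ≠ 0 → j ≠ 0 → i ≠ j → (∀ l, l ≠ i → l ≠ j → T l = 1) →
      ((w : ℝ) ^ (1 / 12 : ℝ) ≤ T i ∨ (w : ℝ) ^ (1 / 12 : ℝ) ≤ T j) →
      T i * T j ≤ (w : ℝ) ^ (3 - 1 / 1000 : ℝ) →
      (T i ≤ (w : ℝ) ^ (1 - 1 / 1000 : ℝ) ∨ T j ≤ (w : ℝ) ^ (1 - 1 / 1000 : ℝ)) →
      NN (w ^ 3) T ≤ CN * (w : ℝ) ^ (-dN) * ∏ l, T l)
    {m h : ℝ} {θ : Ex} {i j : Fin 9} (H : fc4s_Hyp m h θ i j) (hg : h ≤ dN / 300)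
    (hb : 15 / 10 ^ 4 ≤ θ.b i) (hba : θ.b i ≤ θ.a i) : Small h θ := by
  classical
  obtain ⟨huv, hw1, hw2⟩ := fc4s_facts H
  have hh0 := H.h0
  have hh1 := H.h1
  have hm0 := H.m0
  have hm1 := H.m1
  have hiu := H.iu
  have hju := H.ju
  have hil := H.il
  have hjl := H.jl
  have hnn := H.con.nn
  have hSp : (0 : Fin 9) ∉ ({i, j} : Finset (Fin 9)) := by
    simp only [Finset.mem_insert, Finset.mem_singleton, not_or]
    exact ⟨H.i0.symm, H.j0.symm⟩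
  have hSq : (0 : Fin 9) ∉ ({j} : Finset (Fin 9)) := by
    simp only [Finset.mem_singleton]
    exact H.j0.symm
  have hsp : ∑ l ∈ ({i, j} : Finset (Fin 9)), θ.a l ≤ θ.u + h :=
    (fc4s_sum_le θ.a hnn.a _ hSp).trans H.con.con.arad
  have hsq : ∑ l ∈ ({j} : Finset (Fin 9)), θ.b l ≤ θ.v + h :=
    (fc4s_sum_le θ.b hnn.b _ hSq).trans H.con.con.brad
  obtain ⟨C, hC⟩ := hf0 h θ {i, j} {j} (fun r => pc 3 r ^ 3) (θ.w + h) (dN / 5) CN hh0 hSp hSq
    hnn hsp hsq (by linarith)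
  refine ⟨3 * |C|, ?_⟩
  intro X TT hX hCT
  have hX1 : (1 : ℝ) ≤ X := by
    have : (2 : ℝ) ≤ X := by exact_mod_cast hX
    linarith
  have hX0 : (0 : ℝ) < X := by linarith
  have hmain := hC X TT hX hCT ?_ ?_ ?_
  · have hspe : ∑ l ∈ ({i, j} : Finset (Fin 9)), θ.a l = θ.a i + θ.a j :=
      Finset.sum_pair H.ij
    have hsqe : ∑ l ∈ ({j} : Finset (Fin 9)), θ.b l = θ.b j := Finset.sum_singleton _ _
    rw [hspe, hsqe] at hmain
    apply fc4s_three hX _ _ _ hmain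
    · linarith
    · linarith
    · linarith
  · intro t ht
    exact pc_pow_dvd (hCT.mem t ht).tri.hr 3
  · have h1 : TT.image (fun t => pc 3 t.2.2 ^ 3) =
        (TT.image (fun t => pc 3 t.2.2)).image (fun n => n ^ 3) := by
      rw [Finset.image_image]
      rfl
    have h2 : ((TT.image (fun t => pc 3 t.2.2 ^ 3)).card : ℝ) ≤
        ((TT.image (fun t => pc 3 t.2.2)).card : ℝ) := by
      rw [h1]
      exact_mod_cast Finset.card_image_le
    have h3 := fc4s_card_ww hCT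
    have h4 : (X : ℝ) ^ (θ.w + h) ≤ CN * (X : ℝ) ^ (θ.w + h) := by
      have : 0 ≤ (X : ℝ) ^ (θ.w + h) := by positivity
      nlinarith
    exact h2.trans (h3.trans h4)
  · intro t ht U hU hex
    set ww : ℕ := pc 3 t.2.2 with hww
    have hwl : (X : ℝ) ^ θ.w ≤ ww := (hCT.mem t ht).w.1
    have hwl2 : (X : ℝ) ^ (1 / 4 - m / 20) ≤ ww := (fc4s_pow_le hX hw1.le).trans hwl
    have hww0 : (0 : ℝ) < ww := lt_of_lt_of_le (by positivity) hwl
    have hww1 : (1 : ℝ) < ww := by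
      apply lt_of_lt_of_le _ hwl2
      apply Real.one_lt_rpow
      · have : (2 : ℝ) ≤ X := by exact_mod_cast hX
        linarith
      · linarith
    -- the powers of ww
    have hpw : ∀ c e : ℝ, 0 ≤ c → e ≤ (1 / 4 - m / 20) * c → (X : ℝ) ^ e ≤ (ww : ℝ) ^ c := by
      intro c e hc he
      calc (X : ℝ) ^ e ≤ (X : ℝ) ^ ((1 / 4 - m / 20) * c) := fc4s_pow_le hX he
        _ = ((X : ℝ) ^ (1 / 4 - m / 20)) ^ c := Real.rpow_mul hX0.le _ _
        _ ≤ (ww : ℝ) ^ c := Real.rpow_le_rpow (by positivity) hwl2 hc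
    have hUi : U i ≤ (X : ℝ) ^ (θ.a i + h) := by
      have h1 := (hU i).2
      rw [if_pos (by simp), if_neg (by simp only [Finset.mem_singleton]; exact H.ij), add_zero]
        at h1
      exact h1
    have hUj : U j ≤ (X : ℝ) ^ (θ.a j + θ.b j + 2 * h) := by
      have h1 := (hU j).2
      rw [if_pos (by simp), if_pos (by simp)] at h1
      refine h1.trans (le_of_eq ?_)
      congr 1
      ring
    have hUl : ∀ l, l ≠ i → l ≠ j → U l = 1 := by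
      intro l hli hlj
      apply le_antisymm _ (hU l).1
      have h1 := (hU l).2
      rw [if_neg (by simp only [Finset.mem_insert, Finset.mem_singleton, not_or];
                     exact ⟨hli, hlj⟩),
        if_neg (by simp only [Finset.mem_singleton]; exact hlj), add_zero, Real.rpow_zero] at h1
      exact h1
    have hMf : ((ww ^ 3 : ℕ) : ℝ) ^ (1 / 36 : ℝ) = (ww : ℝ) ^ (1 / 12 : ℝ) := by
      push_cast
      rw [← Real.rpow_natCast, ← Real.rpow_mul hww0.le]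
      norm_num
    have hUi1 := (hU i).1
    have hUj1 := (hU j).1
    have hres := hn ww U i j (pc_squarefree _ _) (fun l => (hU l).1) H.i0 H.j0 H.ij hUl ?_ ?_ ?_
    · have h1 : (ww : ℝ) ^ (-dN) ≤ (X : ℝ) ^ (-(dN / 5)) := by
        rw [Real.rpow_neg hww0.le, Real.rpow_neg hX0.le]
        apply inv_anti₀ (by positivity)
        apply hpw dN _ hdN.le
        have : dN / 5 = (1 / 5) * dN := by ring
        rw [this]
        apply mul_le_mul_of_nonneg_right _ hdN.le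
        linarith
      have h2 : 0 ≤ ∏ l, U l := Finset.prod_nonneg (fun l _ => by linarith [(hU l).1])
      calc NN (ww ^ 3) U ≤ CN * (ww : ℝ) ^ (-dN) * ∏ l, U l := hres
        _ ≤ CN * (X : ℝ) ^ (-(dN / 5)) * ∏ l, U l := by
            apply mul_le_mul_of_nonneg_right _ h2
            apply mul_le_mul_of_nonneg_left h1 (by linarith)
    · obtain ⟨l, hl⟩ := hex
      have hl' : (ww : ℝ) ^ (1 / 12 : ℝ) ≤ U l := by
        rw [← hMf]
        exact hl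
      by_cases hli : l = i
      · left
        rw [← hli]
        exact hl'
      · by_cases hlj : l = j
        · right
          rw [← hlj]
          exact hl'
        · exfalso
          rw [hUl l hli hlj] at hl'
          have := Real.one_lt_rpow hww1 (by norm_num : (0 : ℝ) < 1 / 12)
          linarith
    · have h1 : U i * U j ≤ (X : ℝ) ^ (θ.a i + h) * (X : ℝ) ^ (θ.a j + θ.b j + 2 * h) :=
        mul_le_mul hUi hUj (by linarith) (by positivity)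
      rw [← Real.rpow_add hX0] at h1
      refine h1.trans (hpw _ _ (by norm_num) ?_)
      have h3 : 0 ≤ θ.b i := by linarith
      nlinarith
    · left
      refine hUi.trans (hpw _ _ (by norm_num) ?_)
      nlinarith

theorem fc4s_mem_Icc {i : Fin 9} (hi : i ≠ 0) : (i : ℕ) ∈ Finset.Icc 1 1000 := by
  rw [Finset.mem_Icc]
  have h2 : (i : ℕ) ≠ 0 := fun h3 => hi (Fin.ext h3)
  have h3 := i.isLt
  omega

theorem fc4s_rad_mul {a b : ℕ} (hab : Nat.Coprime a b) : rad (a * b) = rad a * rad b := by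
  unfold rad
  rw [Nat.Coprime.primeFactors_mul hab, Finset.prod_union (Nat.Coprime.disjoint_primeFactors hab)]

/-- Pairs from the theorem on small radicals. -/
theorem fc4s_pairs {C h : ℝ}
    (hC : ∀ (X : ℕ) (S : Finset (ℕ × ℕ)), 1 ≤ X →
      (∀ s ∈ S, 0 < s.1 ∧ 0 < s.2 ∧ Nat.Coprime s.1 s.2 ∧ s.1 + s.2 ≤ X ∧
        (rad (s.1 * s.2 * (s.1 + s.2)) : ℝ) ≤ ((s.1 + s.2 : ℕ) : ℝ) ^ (1001 / 1000 : ℝ) ∧
        ((rad s.1 : ℝ) ≤ ((s.1 + s.2 : ℕ) : ℝ) ^ (1 / 100 : ℝ) ∨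
          (rad s.2 : ℝ) ≤ ((s.1 + s.2 : ℕ) : ℝ) ^ (1 / 100 : ℝ) ∨
          (rad (s.1 + s.2) : ℝ) ≤ ((s.1 + s.2 : ℕ) : ℝ) ^ (1 / 100 : ℝ))) →
      (S.card : ℝ) ≤ C * (X : ℝ) ^ (45 / 100 : ℝ))
    {X : ℕ} (hX : 2 ^ 1100 ≤ X) (hh : h ≤ 1 / 10 ^ 14) (S : Finset (ℕ × ℕ))
    (hS : ∀ s ∈ S, 0 < s.1 ∧ 0 < s.2 ∧ Nat.Coprime s.1 s.2 ∧ s.1 + s.2 ≤ X ∧
      X < 2 * (s.1 + s.2) ∧
      (rad s.1 : ℝ) * rad s.2 * rad (s.1 + s.2) ≤ (X : ℝ) ^ (1 + h) ∧
      ((rad s.1 : ℝ) ≤ (X : ℝ) ^ (6 / 1000 : ℝ) ∨ (rad s.2 : ℝ) ≤ (X : ℝ) ^ (6 / 1000 : ℝ) ∨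
        (rad (s.1 + s.2) : ℝ) ≤ (X : ℝ) ^ (6 / 1000 : ℝ))) :
    (S.card : ℝ) ≤ C * (X : ℝ) ^ (45 / 100 : ℝ) := by
  have hXr : (2 : ℝ) ^ (1100 : ℕ) ≤ X := by exact_mod_cast hX
  have hXN : 1 ≤ X := le_trans Nat.one_le_two_pow hX
  have hX1 : (1 : ℝ) ≤ X := by exact_mod_cast hXN
  have hX0 : (0 : ℝ) < X := lt_of_lt_of_le one_pos hX1
  have h2 : (2 : ℝ) ≤ (X : ℝ) ^ (1 / 1100 : ℝ) := by
    have h3 : ((2 : ℝ) ^ (1100 : ℕ)) ^ (1 / 1100 : ℝ) ≤ (X : ℝ) ^ (1 / 1100 : ℝ) :=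
      Real.rpow_le_rpow (by positivity) hXr (by norm_num)
    have h4 : ((2 : ℝ) ^ (1100 : ℕ)) ^ (1 / 1100 : ℝ) = 2 := by
      rw [← Real.rpow_natCast, ← Real.rpow_mul (by norm_num)]
      norm_num
    rwa [h4] at h3
  clear hX hXr
  apply hC X S hXN
  intro s hs
  obtain ⟨h3, h4, h5, h6, h7, h8, h9⟩ := hS s hs
  have hY : (X : ℝ) ^ (1099 / 1100 : ℝ) ≤ ((s.1 + s.2 : ℕ) : ℝ) := by
    have h10 : (X : ℝ) < 2 * ((s.1 + s.2 : ℕ) : ℝ) := by exact_mod_cast h7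
    have h11 : (X : ℝ) ^ (1 / 1100 : ℝ) * (X : ℝ) ^ (1099 / 1100 : ℝ) = X := by
      rw [← Real.rpow_add hX0]
      norm_num
    have h12 : 0 < (X : ℝ) ^ (1099 / 1100 : ℝ) := by positivity
    nlinarith
  have hpw : ∀ c e : ℝ, 0 ≤ c → e ≤ 1099 / 1100 * c →
      (X : ℝ) ^ e ≤ ((s.1 + s.2 : ℕ) : ℝ) ^ c := by
    intro c e hc he
    calc (X : ℝ) ^ e ≤ (X : ℝ) ^ (1099 / 1100 * c) := Real.rpow_le_rpow_of_exponent_le hX1 he
      _ = ((X : ℝ) ^ (1099 / 1100 : ℝ)) ^ c := Real.rpow_mul hX0.le _ _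
      _ ≤ ((s.1 + s.2 : ℕ) : ℝ) ^ c := Real.rpow_le_rpow (by positivity) hY hc
  have hq : (X : ℝ) ^ (6 / 1000 : ℝ) ≤ ((s.1 + s.2 : ℕ) : ℝ) ^ (1 / 100 : ℝ) :=
    hpw _ _ (by norm_num) (by norm_num)
  refine ⟨h3, h4, h5, h6, ?_, ?_⟩
  · have h10 : Nat.Coprime (s.1 * s.2) (s.1 + s.2) := by
      apply Nat.Coprime.mul_left
      · rw [Nat.add_comm]
        exact (Nat.coprime_add_self_right).2 h5
      · exact (Nat.coprime_add_self_right).2 h5.symm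
    rw [fc4s_rad_mul h10, fc4s_rad_mul h5]
    push_cast
    refine h8.trans ?_
    have := hpw (1001 / 1000) (1 + h) (by norm_num) (by linarith)
    push_cast at this
    exact this
  · rcases h9 with h9 | h9 | h9
    · exact Or.inl (h9.trans hq)
    · exact Or.inr (Or.inl (h9.trans hq))
    · exact Or.inr (Or.inr (h9.trans hq))

theorem fc4s_card_le {h : ℝ} {θ : Ex} {X : ℕ} {TT : Finset (ℕ × ℕ × ℕ)} (hCT : CT h θ X TT) :
    TT.card ≤ X := by
  classical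
  have h1 : (TT.image (fun t => t.2.2)).card = TT.card := by
    apply Finset.card_image_of_injOn
    intro t ht t' ht' h2
    exact hCT.inj t ht t' ht' h2
  rw [← h1]
  have h2 : TT.image (fun t => t.2.2) ⊆ Finset.Icc 1 X := by
    intro x hx
    rw [Finset.mem_image] at hx
    obtain ⟨t, ht, rfl⟩ := hx
    rw [Finset.mem_Icc]
    exact ⟨(hCT.mem t ht).tri.hr, (hCT.mem t ht).tri.rX⟩
  have h3 := Finset.card_le_card h2
  rwa [Nat.card_Icc, Nat.add_sub_cancel] at h3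

/-- Case C1: both classes of `p` are near a quarter. -/
theorem fc4s_C1 (hsr : FSRStmt) {m h : ℝ} {θ : Ex} {i j : Fin 9} (H : fc4s_Hyp m h θ i j)
    (hai : 248 / 1000 ≤ θ.a i) (haj : 248 / 1000 ≤ θ.a j) : Small h θ := by
  classical
  obtain ⟨C, hC⟩ := hsr
  obtain ⟨huv, hw1, hw2⟩ := fc4s_facts H
  have hh0 := H.h0
  have hh1 := H.h1
  have hm0 := H.m0
  have hm1 := H.m1
  have hnn := H.con.nn
  have hh : h ≤ 1 / 10 ^ 14 := by linarith
  have hSp : (0 : Fin 9) ∉ ({i, j} : Finset (Fin 9)) := by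
    simp only [Finset.mem_insert, Finset.mem_singleton, not_or]
    exact ⟨H.i0.symm, H.j0.symm⟩
  have hsp : ∑ l ∈ ({i, j} : Finset (Fin 9)), θ.a l ≤ θ.u + h :=
    (fc4s_sum_le θ.a hnn.a _ hSp).trans H.con.con.arad
  rw [Finset.sum_pair H.ij] at hsp
  have hv : θ.v + h ≤ 6 / 1000 := by linarith
  obtain ⟨K, hK⟩ : ∃ K : ℕ, ∀ X : ℕ, K ≤ X → 2 ^ 1100 ≤ X := ⟨_, fun X hX => hX⟩
  refine ⟨3 * |C| + K, ?_⟩
  intro X TT hX hCT
  have hXr : (2 : ℝ) ≤ X := by exact_mod_cast hX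
  have hX1 : (1 : ℝ) ≤ X := by linarith
  have hX0 : (0 : ℝ) < X := by linarith
  have hE : (1 : ℝ) ≤ (X : ℝ) ^ (1 / 2 - h) := Real.one_le_rpow hX1 (by linarith)
  have hK0 : (0 : ℝ) ≤ K := Nat.cast_nonneg K
  by_cases hbig' : K ≤ X
  · -- the three relations
    have hq : ∀ t ∈ TT, (rad t.2.1 : ℝ) ≤ (X : ℝ) ^ (6 / 1000 : ℝ) := by
      intro t ht
      exact (hCT.mem t ht).v.2.trans (fc4s_pow_le hX hv)
    have k1 : ((TT.filter (fun t => t.1 + t.2.1 = t.2.2)).card : ℝ) ≤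
        C * (X : ℝ) ^ (45 / 100 : ℝ) := by
      have hinj : ((TT.filter (fun t => t.1 + t.2.1 = t.2.2)).image
          (fun t => (t.1, t.2.1))).card = (TT.filter (fun t => t.1 + t.2.1 = t.2.2)).card := by
        apply Finset.card_image_of_injOn
        intro t ht t' ht' h2
        rw [Finset.mem_coe, Finset.mem_filter] at ht ht'
        simp only [Prod.mk.injEq] at h2
        apply hCT.inj t ht.1 t' ht'.1
        rw [← ht.2, ← ht'.2, h2.1, h2.2]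
      rw [← hinj]
      apply fc4s_pairs hC (hK X hbig') hh
      intro s hs
      rw [Finset.mem_image] at hs
      obtain ⟨t, ht, rfl⟩ := hs
      rw [Finset.mem_filter] at ht
      have T := (hCT.mem t ht.1).tri
      have hr := hCT.rad t ht.1
      refine ⟨T.hp, T.hq, T.pq, ?_, ?_, ?_, ?_⟩
      · show t.1 + t.2.1 ≤ X
        rw [ht.2]
        exact T.rX
      · show X < 2 * (t.1 + t.2.1)
        have := hCT.big t ht.1
        have := T.hp
        have := T.hq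
        have := ht.2
        omega
      · show (rad t.1 : ℝ) * rad t.2.1 * rad (t.1 + t.2.1) ≤ (X : ℝ) ^ (1 + h)
        rw [ht.2]
        exact hr
      · exact Or.inr (Or.inl (hq t ht.1))
    have k2 : ((TT.filter (fun t => t.2.1 + t.2.2 = t.1)).card : ℝ) ≤
        C * (X : ℝ) ^ (45 / 100 : ℝ) := by
      have hinj : ((TT.filter (fun t => t.2.1 + t.2.2 = t.1)).image
          (fun t => (t.2.1, t.2.2))).card = (TT.filter (fun t => t.2.1 + t.2.2 = t.1)).card := by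
        apply Finset.card_image_of_injOn
        intro t ht t' ht' h2
        rw [Finset.mem_coe, Finset.mem_filter] at ht ht'
        simp only [Prod.mk.injEq] at h2
        apply hCT.inj t ht.1 t' ht'.1
        exact h2.2
      rw [← hinj]
      apply fc4s_pairs hC (hK X hbig') hh
      intro s hs
      rw [Finset.mem_image] at hs
      obtain ⟨t, ht, rfl⟩ := hs
      rw [Finset.mem_filter] at ht
      have T := (hCT.mem t ht.1).tri
      have hr := hCT.rad t ht.1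
      refine ⟨T.hq, T.hr, T.qr, ?_, ?_, ?_, ?_⟩
      · show t.2.1 + t.2.2 ≤ X
        rw [ht.2]
        exact T.pX
      · show X < 2 * (t.2.1 + t.2.2)
        have := hCT.big t ht.1
        have := T.hr
        have := T.hq
        have := ht.2
        omega
      · show (rad t.2.1 : ℝ) * rad t.2.2 * rad (t.2.1 + t.2.2) ≤ (X : ℝ) ^ (1 + h)
        rw [ht.2]
        refine le_trans (le_of_eq ?_) hr
        ring
      · exact Or.inl (hq t ht.1)
    have k3 : ((TT.filter (fun t => t.1 + t.2.2 = t.2.1)).card : ℝ) ≤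
        C * (X : ℝ) ^ (45 / 100 : ℝ) := by
      have hinj : ((TT.filter (fun t => t.1 + t.2.2 = t.2.1)).image
          (fun t => (t.1, t.2.2))).card = (TT.filter (fun t => t.1 + t.2.2 = t.2.1)).card := by
        apply Finset.card_image_of_injOn
        intro t ht t' ht' h2
        rw [Finset.mem_coe, Finset.mem_filter] at ht ht'
        simp only [Prod.mk.injEq] at h2
        apply hCT.inj t ht.1 t' ht'.1
        exact h2.2
      rw [← hinj]
      apply fc4s_pairs hC (hK X hbig') hh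
      intro s hs
      rw [Finset.mem_image] at hs
      obtain ⟨t, ht, rfl⟩ := hs
      rw [Finset.mem_filter] at ht
      have T := (hCT.mem t ht.1).tri
      have hr := hCT.rad t ht.1
      refine ⟨T.hp, T.hr, T.pr, ?_, ?_, ?_, ?_⟩
      · show t.1 + t.2.2 ≤ X
        rw [ht.2]
        exact T.qX
      · show X < 2 * (t.1 + t.2.2)
        have := hCT.big t ht.1
        have := T.hr
        have := T.hp
        have := ht.2
        omega
      · show (rad t.1 : ℝ) * rad t.2.2 * rad (t.1 + t.2.2) ≤ (X : ℝ) ^ (1 + h)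
        rw [ht.2]
        refine le_trans (le_of_eq ?_) hr
        ring
      · refine Or.inr (Or.inr ?_)
        show (rad (t.1 + t.2.2) : ℝ) ≤ _
        rw [ht.2]
        exact hq t ht.1
    have hsub : TT ⊆ (TT.filter (fun t => t.1 + t.2.1 = t.2.2)) ∪
        ((TT.filter (fun t => t.2.1 + t.2.2 = t.1)) ∪
          (TT.filter (fun t => t.1 + t.2.2 = t.2.1))) := by
      intro t ht
      simp only [Finset.mem_union, Finset.mem_filter]
      rcases (hCT.mem t ht).tri.rel with h2 | h2 | h2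
      · exact Or.inl ⟨ht, h2⟩
      · exact Or.inr (Or.inl ⟨ht, h2⟩)
      · exact Or.inr (Or.inr ⟨ht, h2⟩)
    have hcard : (TT.card : ℝ) ≤ ((TT.filter (fun t => t.1 + t.2.1 = t.2.2)).card : ℝ) +
        (((TT.filter (fun t => t.2.1 + t.2.2 = t.1)).card : ℝ) +
          ((TT.filter (fun t => t.1 + t.2.2 = t.2.1)).card : ℝ)) := by
      have h2 := Finset.card_le_card hsub
      have h3 := Finset.card_union_le (TT.filter (fun t => t.1 + t.2.1 = t.2.2))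
        ((TT.filter (fun t => t.2.1 + t.2.2 = t.1)) ∪
          (TT.filter (fun t => t.1 + t.2.2 = t.2.1)))
      have h4 := Finset.card_union_le (TT.filter (fun t => t.2.1 + t.2.2 = t.1))
        (TT.filter (fun t => t.1 + t.2.2 = t.2.1))
      have h5 : TT.card ≤ (TT.filter (fun t => t.1 + t.2.1 = t.2.2)).card +
        ((TT.filter (fun t => t.2.1 + t.2.2 = t.1)).card +
          (TT.filter (fun t => t.1 + t.2.2 = t.2.1)).card) := by omega
      exact_mod_cast h5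
    have hle : C * (X : ℝ) ^ (45 / 100 : ℝ) ≤ |C| * (X : ℝ) ^ (1 / 2 - h) := by
      apply mul_le_mul (le_abs_self C) (fc4s_pow_le hX (by linarith)) (by positivity)
        (abs_nonneg C)
    have hpos : 0 ≤ (K : ℝ) * (X : ℝ) ^ (1 / 2 - h) := by positivity
    have hexp : (3 * |C| + K) * (X : ℝ) ^ (1 / 2 - h) =
        3 * (|C| * (X : ℝ) ^ (1 / 2 - h)) + (K : ℝ) * (X : ℝ) ^ (1 / 2 - h) := by ring
    rw [hexp]
    linarith
  · push Not at hbig'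
    have h2 : (TT.card : ℝ) ≤ (K : ℝ) := by
      have h3 : TT.card ≤ K := (fc4s_card_le hCT).trans hbig'.le
      exact_mod_cast h3
    have h4 : (K : ℝ) ≤ (K : ℝ) * (X : ℝ) ^ (1 / 2 - h) :=
      le_mul_of_one_le_right hK0 hE
    have h5 : 0 ≤ 3 * |C| * (X : ℝ) ^ (1 / 2 - h) := by positivity
    have hexp : (3 * |C| + K) * (X : ℝ) ^ (1 / 2 - h) =
        3 * |C| * (X : ℝ) ^ (1 / 2 - h) + (K : ℝ) * (X : ℝ) ^ (1 / 2 - h) := by ring
    rw [hexp]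
    linarith

/-- Case C2, for a subset on which `(p, q)` determines `r`. -/
theorem fc4s_C2_part {m h : ℝ} {θ : Ex} {i j : Fin 9} (H : fc4s_Hyp m h θ i j)
    (hai : 248 / 1000 ≤ θ.a i) (hbj : 248 / 1000 ≤ θ.b j) {C : ℝ} (hC1 : 1 ≤ C)
    (hC : ∀ (X : ℕ) (i j : Fin 9) (V R μ : ℝ) (WW : Finset ℕ)
      (TT : Finset (ℕ × ℕ × ℕ)), 2 ≤ X → i ≠ 0 → j ≠ 0 → i ≠ j → 0 ≤ μ → μ ≤ 1 →
      1 ≤ V → 1 ≤ R →
      (∀ w ∈ WW, 1 ≤ w ∧ w ≤ X ∧ Squarefree w ∧ V ≤ (w : ℝ) ^ (1 + μ) ∧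
        (w : ℝ) ≤ (X : ℝ) ^ (3 / 10 : ℝ)) →
      (∀ t ∈ TT, 0 < t.1 ∧ t.1 ≤ X ∧ 0 < t.2.1 ∧ t.2.1 ≤ X ∧ t.2.2 ∈ WW ∧
        Nat.Coprime t.1 t.2.1 ∧ Nat.Coprime t.1 t.2.2 ∧ Nat.Coprime t.2.1 t.2.2 ∧
        ((t.2.2 : ℤ) ^ 3 ∣ (t.1 : ℤ) - t.2.1 ∨ (t.2.2 : ℤ) ^ 3 ∣ (t.1 : ℤ) + t.2.1) ∧
        (pc i t.1 : ℝ) ≤ V ∧ (pc j t.2.1 : ℝ) ≤ V ∧
        (rad t.1 : ℝ) * rad t.2.1 ≤ R * pc i t.1 * pc j t.2.1) →
      (TT.card : ℝ) ≤ C * (X : ℝ) ^ h * (WW.card * R * (X : ℝ) ^ ((3 / 10) * (3 / 4 + 2 * μ))))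
    {X : ℕ} {TT TS : Finset (ℕ × ℕ × ℕ)} (hX : 2 ≤ X) (hCT : CT h θ X TT) (hTS : TS ⊆ TT)
    (hinj : ∀ t ∈ TS, ∀ t' ∈ TS, t.1 = t'.1 → t.2.1 = t'.2.1 → t.2.2 = t'.2.2) :
    (TS.card : ℝ) ≤ C * (X : ℝ) ^ (1 / 2 - h) := by
  classical
  obtain ⟨huv, hw1, hw2⟩ := fc4s_facts H
  have hh0 := H.h0
  have hh1 := H.h1
  have hm0 := H.m0
  have hm1 := H.m1
  have hiu := H.iu
  have hju := H.ju
  have hnn := H.con.nn
  have hXr : (2 : ℝ) ≤ X := by exact_mod_cast hX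
  have hX1 : (1 : ℝ) ≤ X := by linarith
  have hX0 : (0 : ℝ) < X := by linarith
  have hSi : (0 : Fin 9) ∉ ({i} : Finset (Fin 9)) := by
    simp only [Finset.mem_singleton]
    exact H.i0.symm
  have hSj : (0 : Fin 9) ∉ ({j} : Finset (Fin 9)) := by
    simp only [Finset.mem_singleton]
    exact H.j0.symm
  have hai2 : θ.a i ≤ θ.u + h := by
    have := (fc4s_sum_le θ.a hnn.a _ hSi).trans H.con.con.arad
    rwa [Finset.sum_singleton] at this
  have hbj2 : θ.b j ≤ θ.v + h := by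
    have := (fc4s_sum_le θ.b hnn.b _ hSj).trans H.con.con.brad
    rwa [Finset.sum_singleton] at this
  have hbi0 := hnn.b i
  have haj0 := hnn.a j
  have hmain := hC X i j ((X : ℝ) ^ (1 / 4 + m + h))
    ((X : ℝ) ^ (θ.u + θ.v + 2 * h - θ.a i - θ.b j)) (1 / 100)
    (TT.image (fun t => pc 3 t.2.2)) (TS.image (fun t => (t.1, t.2.1, pc 3 t.2.2))) hX H.i0 H.j0
    H.ij (by norm_num) (by norm_num) (Real.one_le_rpow hX1 (by linarith))
    (Real.one_le_rpow hX1 (by linarith)) ?_ ?_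
  · have h1 : (TS.image (fun t => (t.1, t.2.1, pc 3 t.2.2))).card = TS.card := by
      apply Finset.card_image_of_injOn
      intro t ht t' ht' h2
      simp only [Prod.mk.injEq] at h2
      exact Prod.ext h2.1 (Prod.ext h2.2.1 (hinj t ht t' ht' h2.1 h2.2.1))
    rw [h1] at hmain
    have h2 := fc4s_card_ww hCT
    have h3 : ((TT.image (fun t => pc 3 t.2.2)).card : ℝ) *
        (X : ℝ) ^ (θ.u + θ.v + 2 * h - θ.a i - θ.b j) *
        (X : ℝ) ^ ((3 / 10) * (3 / 4 + 2 * (1 / 100)) : ℝ) ≤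
        (X : ℝ) ^ (θ.w + h) * (X : ℝ) ^ (θ.u + θ.v + 2 * h - θ.a i - θ.b j) *
        (X : ℝ) ^ ((3 / 10) * (3 / 4 + 2 * (1 / 100)) : ℝ) := by
      apply mul_le_mul_of_nonneg_right _ (by positivity)
      apply mul_le_mul_of_nonneg_right h2 (by positivity)
    calc (TS.card : ℝ) ≤ C * (X : ℝ) ^ h * (((TT.image (fun t => pc 3 t.2.2)).card : ℝ) *
        (X : ℝ) ^ (θ.u + θ.v + 2 * h - θ.a i - θ.b j) *
        (X : ℝ) ^ ((3 / 10) * (3 / 4 + 2 * (1 / 100)) : ℝ)) := hmain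
      _ ≤ C * (X : ℝ) ^ h * ((X : ℝ) ^ (θ.w + h) *
        (X : ℝ) ^ (θ.u + θ.v + 2 * h - θ.a i - θ.b j) *
        (X : ℝ) ^ ((3 / 10) * (3 / 4 + 2 * (1 / 100)) : ℝ)) :=
          mul_le_mul_of_nonneg_left h3 (by positivity)
      _ = C * (X : ℝ) ^ (h + ((θ.w + h) + (θ.u + θ.v + 2 * h - θ.a i - θ.b j) +
        (3 / 10) * (3 / 4 + 2 * (1 / 100)))) := by
          rw [← Real.rpow_add hX0, ← Real.rpow_add hX0, mul_assoc, ← Real.rpow_add hX0]
      _ ≤ C * (X : ℝ) ^ (1 / 2 - h) := by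
          apply mul_le_mul_of_nonneg_left _ (by linarith)
          apply fc4s_pow_le hX
          linarith
  · intro ww hw
    rw [Finset.mem_image] at hw
    obtain ⟨t, ht, rfl⟩ := hw
    have T := (hCT.mem t ht).tri
    have hwl : (X : ℝ) ^ θ.w ≤ pc 3 t.2.2 := (hCT.mem t ht).w.1
    have hwu : (pc 3 t.2.2 : ℝ) ≤ (X : ℝ) ^ (θ.w + h) := (hCT.mem t ht).w.2
    have hwl2 : (X : ℝ) ^ (1 / 4 - m / 20) ≤ pc 3 t.2.2 := (fc4s_pow_le hX hw1.le).trans hwl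
    refine ⟨pc_pos _ _, (pc_le T.hr).trans T.rX, pc_squarefree _ _, ?_, ?_⟩
    · calc (X : ℝ) ^ (1 / 4 + m + h) ≤ (X : ℝ) ^ ((1 / 4 - m / 20) * (1 + 1 / 100)) := by
            apply fc4s_pow_le hX
            linarith
        _ = ((X : ℝ) ^ (1 / 4 - m / 20)) ^ (1 + 1 / 100 : ℝ) := Real.rpow_mul hX0.le _ _
        _ ≤ (pc 3 t.2.2 : ℝ) ^ (1 + 1 / 100 : ℝ) :=
            Real.rpow_le_rpow (by positivity) hwl2 (by norm_num)
    · exact hwu.trans (fc4s_pow_le hX (by linarith))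
  · intro t' ht'
    rw [Finset.mem_image] at ht'
    obtain ⟨t, ht0, rfl⟩ := ht'
    have ht := hTS ht0
    have T := (hCT.mem t ht).tri
    have hA := (hCT.mem t ht).a i (fc4s_mem_Icc H.i0)
    have hB := (hCT.mem t ht).b j (fc4s_mem_Icc H.j0)
    have hU := (hCT.mem t ht).u
    have hV := (hCT.mem t ht).v
    have hdvd : pc 3 t.2.2 ∣ t.2.2 := pc_dvd _ _
    have hdvd3 : ((pc 3 t.2.2 : ℕ) : ℤ) ^ 3 ∣ (t.2.2 : ℤ) := by
      have := pc_pow_dvd T.hr 3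
      exact_mod_cast this
    refine ⟨T.hp, T.pX, T.hq, T.qX, Finset.mem_image_of_mem _ ht, T.pq,
      T.pr.coprime_dvd_right hdvd, T.qr.coprime_dvd_right hdvd, ?_, ?_, ?_, ?_⟩
    · show ((pc 3 t.2.2 : ℕ) : ℤ) ^ 3 ∣ (t.1 : ℤ) - t.2.1 ∨
        ((pc 3 t.2.2 : ℕ) : ℤ) ^ 3 ∣ (t.1 : ℤ) + t.2.1
      rcases T.rel with h2 | h2 | h2
      · right
        have : (t.1 : ℤ) + t.2.1 = t.2.2 := by exact_mod_cast h2
        rw [this]
        exact hdvd3
      · left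
        have h3 : (t.2.1 : ℤ) + t.2.2 = t.1 := by exact_mod_cast h2
        have : (t.1 : ℤ) - t.2.1 = t.2.2 := by linarith
        rw [this]
        exact hdvd3
      · left
        have h3 : (t.1 : ℤ) + t.2.2 = t.2.1 := by exact_mod_cast h2
        have : (t.1 : ℤ) - t.2.1 = -(t.2.2 : ℤ) := by linarith
        rw [this]
        exact (dvd_neg).2 hdvd3
    · exact hA.2.trans (fc4s_pow_le hX (by linarith))
    · exact hB.2.trans (fc4s_pow_le hX (by linarith))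
    · show (rad t.1 : ℝ) * rad t.2.1 ≤ (X : ℝ) ^ (θ.u + θ.v + 2 * h - θ.a i - θ.b j) *
        pc i t.1 * pc j t.2.1
      have h2 : (rad t.1 : ℝ) * rad t.2.1 ≤ (X : ℝ) ^ (θ.u + h) * (X : ℝ) ^ (θ.v + h) :=
        mul_le_mul hU.2 hV.2 (by positivity) (by positivity)
      have h3 : (X : ℝ) ^ (θ.u + h) * (X : ℝ) ^ (θ.v + h) =
          (X : ℝ) ^ (θ.u + θ.v + 2 * h - θ.a i - θ.b j) * (X : ℝ) ^ (θ.a i) *
            (X : ℝ) ^ (θ.b j) := by
        rw [← Real.rpow_add hX0, ← Real.rpow_add hX0, ← Real.rpow_add hX0]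
        congr 1
        ring
      rw [h3] at h2
      refine h2.trans ?_
      apply mul_le_mul _ hB.1 (by positivity) (by positivity)
      exact mul_le_mul_of_nonneg_left hA.1 (by positivity)

/-- Case C2: the large pieces are on opposite sides. -/
theorem fc4s_C2 (hl2 : L2Stmt) {m h : ℝ} {θ : Ex} {i j : Fin 9} (H : fc4s_Hyp m h θ i j)
    (hai : 248 / 1000 ≤ θ.a i) (hbj : 248 / 1000 ≤ θ.b j) : Small h θ := by
  classical
  obtain ⟨C, hC1, hC⟩ := hl2 h H.h0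
  refine ⟨2 * C, ?_⟩
  intro X TT hX hCT
  have k1 := fc4s_C2_part H hai hbj hC1 hC hX hCT
    (Finset.filter_subset (fun t => t.1 + t.2.1 = t.2.2) TT) ?_
  · have k2 := fc4s_C2_part H hai hbj hC1 hC hX hCT
      (Finset.filter_subset (fun t => ¬ (t.1 + t.2.1 = t.2.2)) TT) ?_
    · have h2 := Finset.card_filter_add_card_filter_not (s := TT)
        (fun t => t.1 + t.2.1 = t.2.2)
      have h3 : ((TT.filter (fun t => t.1 + t.2.1 = t.2.2)).card : ℝ) +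
          ((TT.filter (fun t => ¬ (t.1 + t.2.1 = t.2.2))).card : ℝ) = (TT.card : ℝ) := by
        exact_mod_cast h2
      rw [← h3]
      linarith
    · intro t ht t' ht' h1 h2
      rw [Finset.mem_filter] at ht ht'
      have T := (hCT.mem t ht.1).tri
      have T' := (hCT.mem t' ht'.1).tri
      have r1 := T.rel
      have r2 := T'.rel
      have r3 := T.hr
      have r4 := T'.hr
      have r5 := ht.2
      have r6 := ht'.2
      omega
  · intro t ht t' ht' h1 h2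
    rw [Finset.mem_filter] at ht ht'
    rw [← ht.2, ← ht'.2, h1, h2]

theorem fc4s_thm (hf0 : FL0Stmt) (hn2 : N2Stmt) (hl2 : L2Stmt) (hsr : FSRStmt) (hrp : RPStmt)
    (hrad : FRADStmt) : FC4sStmt := by
  obtain ⟨dN, CN, hdN, hCN, hn⟩ := hn2 (1 / 12) (1 / 1000) (by norm_num) (by norm_num)
  refine ⟨dN / 300, by positivity, ?_⟩
  intro m h θ i j hm0 hm1 hh0 hh1 hg hcon hrho hs hi0 hj0 hij hiu hji hjl
  have H : fc4s_Hyp m h θ i j :=
    ⟨hm0, hm1, hh0, hh1, hcon, hrho, hs, hi0, hj0, hij, hiu, by linarith, by linarith, hjl⟩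
  by_cases hA : 15 / 10 ^ 4 ≤ θ.a i ∧ 15 / 10 ^ 4 ≤ θ.b i
  · rcases le_total (θ.b i) (θ.a i) with h1 | h1
    · exact fc4s_A hf0 dN CN hdN hCN hn H hg hA.2 h1
    · exact fc4s_small_swap (fc4s_A hf0 dN CN hdN hCN hn H.swap hg hA.1 h1)
  by_cases hB : 15 / 10 ^ 4 ≤ θ.a j ∧ 15 / 10 ^ 4 ≤ θ.b j
  · rcases le_total (θ.b j) (θ.a j) with h1 | h1
    · exact fc4s_A hf0 dN CN hdN hCN hn H.exch hg hB.2 h1
    · exact fc4s_small_swap (fc4s_A hf0 dN CN hdN hCN hn H.exch.swap hg hB.1 h1)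
  have hi : 248 / 1000 ≤ θ.a i ∨ 248 / 1000 ≤ θ.b i := by
    by_contra hne
    push Not at hne
    apply hA
    have := H.il
    constructor <;> linarith [hne.1, hne.2]
  have hj : 248 / 1000 ≤ θ.a j ∨ 248 / 1000 ≤ θ.b j := by
    by_contra hne
    push Not at hne
    apply hB
    have := H.jl
    constructor <;> linarith [hne.1, hne.2]
  rcases hi with hi | hi <;> rcases hj with hj | hj
  · exact fc4s_C1 hsr H hi hj
  · exact fc4s_C2 hl2 H hi hj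
  · exact fc4s_C2 hl2 H.exch hj hi
  · exact fc4s_small_swap (fc4s_C1 hsr H.swap hi hj)

end Pool.Agent.Helper21.EN
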