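import Pool.Agent.Helper21.EN.FStmts
import Pool.Agent.Helper21.EN.Dec

set_option autoImplicit false

/-!
# Project EN, final piece FCon

The statement is in EN/FStmts.lean. Paper: /team-store/EN_paper.md, section 8. All relations are
linear relations between the logarithms in base `X`.
-/

namespace Pool.Agent.Helper21.EN

open Finset

/-- The logarithm in base `X`. -/
private noncomputable def fcon_lg (X n : ℕ) : ℝ := Real.log n / Real.log X

private lemma fcon_logX_pos {X : ℕ} (hX : 2 ≤ X) : 0 < Real.log X := by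
  apply Real.log_pos
  have : (2 : ℝ) ≤ X := by exact_mod_cast hX
  linarith

private lemma fcon_lo {X : ℕ} (hX : 2 ≤ X) {h α : ℝ} {n : ℕ} (hb : Bet X h α n) :
    α ≤ fcon_lg X n := by
  have hL := fcon_logX_pos hX
  have hX0 : (0 : ℝ) < X := by
    have : (2 : ℝ) ≤ X := by exact_mod_cast hX
    linarith
  unfold fcon_lg
  rw [le_div_iff₀ hL, ← Real.log_rpow hX0]
  exact Real.log_le_log (Real.rpow_pos_of_pos hX0 _) hb.1

private lemma fcon_up {X : ℕ} (hX : 2 ≤ X) {h α : ℝ} {n : ℕ} (hn : 0 < n) (hb : Bet X h α n) :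
    fcon_lg X n ≤ α + h := by
  have hL := fcon_logX_pos hX
  have hX0 : (0 : ℝ) < X := by
    have : (2 : ℝ) ≤ X := by exact_mod_cast hX
    linarith
  unfold fcon_lg
  rw [div_le_iff₀ hL, ← Real.log_rpow hX0]
  exact Real.log_le_log (by exact_mod_cast hn) hb.2

private lemma fcon_mono {X : ℕ} (hX : 2 ≤ X) {m n : ℕ} (hm : 0 < m) (hmn : m ≤ n) :
    fcon_lg X m ≤ fcon_lg X n := by
  unfold fcon_lg
  apply div_le_div_of_nonneg_right _ (fcon_logX_pos hX).le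
  exact Real.log_le_log (by exact_mod_cast hm) (by exact_mod_cast hmn)

private lemma fcon_self {X : ℕ} (hX : 2 ≤ X) : fcon_lg X X = 1 :=
  div_self (fcon_logX_pos hX).ne'

private lemma fcon_mul (X : ℕ) {m n : ℕ} (hm : 0 < m) (hn : 0 < n) :
    fcon_lg X (m * n) = fcon_lg X m + fcon_lg X n := by
  unfold fcon_lg
  rw [Nat.cast_mul, Real.log_mul (by exact_mod_cast hm.ne') (by exact_mod_cast hn.ne'), add_div]

private lemma fcon_pow (X n k : ℕ) : fcon_lg X (n ^ k) = k * fcon_lg X n := by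
  unfold fcon_lg
  rw [Nat.cast_pow, Real.log_pow, mul_div_assoc]

private lemma fcon_prod (X : ℕ) (S : Finset ℕ) (f : ℕ → ℕ) (hf : ∀ i ∈ S, 0 < f i) :
    fcon_lg X (∏ i ∈ S, f i) = ∑ i ∈ S, fcon_lg X (f i) := by
  unfold fcon_lg
  rw [Nat.cast_prod, Real.log_prod (fun i hi => by exact_mod_cast (hf i hi).ne'),
    Finset.sum_div]

private lemma fcon_asum {X : ℕ} (hX : 2 ≤ X) {h : ℝ} {a : ℕ → ℝ} {p : ℕ} (hp : 0 < p)
    (hpX : p ≤ X) (ha : ∀ e ∈ Finset.Icc 1 1000, Bet X h (a e) (pc e p)) :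
    ∑ e ∈ Finset.Icc (1 : ℕ) 1000, (e : ℝ) * a e ≤ 1 := by
  have h1 : ∑ e ∈ Finset.Icc (1 : ℕ) 1000, (e : ℝ) * a e ≤
      fcon_lg X (∏ e ∈ Finset.Icc (1 : ℕ) 1000, pc e p ^ e) := by
    rw [fcon_prod X _ _ (fun i _ => pow_pos (pc_pos _ _) _)]
    apply Finset.sum_le_sum
    intro e he
    rw [fcon_pow]
    exact mul_le_mul_of_nonneg_left (fcon_lo hX (ha e he)) (Nat.cast_nonneg e)
  have h2 : fcon_lg X (∏ e ∈ Finset.Icc (1 : ℕ) 1000, pc e p ^ e) ≤ fcon_lg X X := by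
    apply fcon_mono hX
    · exact Finset.prod_pos (fun i _ => pow_pos (pc_pos _ _) _)
    · exact (Nat.le_of_dvd hp (prod_pc_pow_dvd hp _)).trans hpX
  rw [fcon_self hX] at h2
  exact h1.trans h2

private lemma fcon_arad {X : ℕ} (hX : 2 ≤ X) {h u : ℝ} {a : ℕ → ℝ} {p : ℕ}
    (hu : Bet X h u (rad p)) (ha : ∀ e ∈ Finset.Icc 1 1000, Bet X h (a e) (pc e p)) :
    ∑ e ∈ Finset.Icc (1 : ℕ) 1000, a e ≤ u + h := by
  have h1 : ∑ e ∈ Finset.Icc (1 : ℕ) 1000, a e ≤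
      fcon_lg X (∏ e ∈ Finset.Icc (1 : ℕ) 1000, pc e p) := by
    rw [fcon_prod X _ _ (fun i _ => pc_pos _ _)]
    exact Finset.sum_le_sum (fun e he => fcon_lo hX (ha e he))
  have h2 : fcon_lg X (∏ e ∈ Finset.Icc (1 : ℕ) 1000, pc e p) ≤ fcon_lg X (rad p) := by
    apply fcon_mono hX
    · exact Finset.prod_pos (fun i _ => pc_pos _ _)
    · apply Nat.le_of_dvd (rad_pos p)
      exact ⟨rad (rest (Finset.Icc (1 : ℕ) 1000) p), by
        rw [mul_comm]; exact rad_rest_mul _ _⟩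
  exact (h1.trans h2).trans (fcon_up hX (rad_pos p) hu)

private lemma fcon_au {X : ℕ} (hX : 2 ≤ X) {h u : ℝ} {a : ℕ → ℝ} {p : ℕ} (hp : 0 < p)
    (hpX : p ≤ X) (K : ℕ)
    (hr : rad p ^ (K + 1) ≤ p * ∏ e ∈ Finset.Icc 1 K, pc e p ^ (K + 1 - e))
    (hu : Bet X h u (rad p)) (ha : ∀ e ∈ Finset.Icc 1 K, Bet X h (a e) (pc e p)) :
    ((K : ℝ) + 1) * u ≤ 1 + ∑ e ∈ Finset.Icc (1 : ℕ) K, ((K : ℝ) + 1 - (e : ℝ)) * (a e + h) := by
  have hpp : 0 < ∏ e ∈ Finset.Icc 1 K, pc e p ^ (K + 1 - e) :=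
    Finset.prod_pos (fun i _ => pow_pos (pc_pos _ _) _)
  have h1 := fcon_mono hX (pow_pos (rad_pos p) (K + 1)) hr
  rw [fcon_mul X hp hpp, fcon_pow, fcon_prod X _ _ (fun i _ => pow_pos (pc_pos _ _) _)] at h1
  have h2 : fcon_lg X p ≤ 1 := by
    rw [← fcon_self hX]
    exact fcon_mono hX hp hpX
  have h3 : ∑ e ∈ Finset.Icc (1 : ℕ) K, fcon_lg X (pc e p ^ (K + 1 - e)) ≤
      ∑ e ∈ Finset.Icc (1 : ℕ) K, ((K : ℝ) + 1 - (e : ℝ)) * (a e + h) := by
    apply Finset.sum_le_sum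
    intro e he
    have he' := Finset.mem_Icc.1 he
    rw [fcon_pow, Nat.cast_sub (by omega)]
    push_cast
    apply mul_le_mul_of_nonneg_left (fcon_up hX (pc_pos _ _) (ha e he))
    have : (e : ℝ) ≤ K := by exact_mod_cast he'.2
    linarith
  have h4 : ((K : ℝ) + 1) * u ≤ ((K : ℝ) + 1) * fcon_lg X (rad p) := by
    apply mul_le_mul_of_nonneg_left (fcon_lo hX hu)
    positivity
  push_cast at h1
  linarith

theorem fcon_thm (hr : FRADStmt) : FConStmt := by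
  obtain ⟨hr1, hr2, hr3, hr4, hr5, hr6, hr7⟩ := hr
  rintro h θ X ⟨p, q, r⟩ hh hX ht hrad
  have hp : 0 < p := ht.tri.hp
  have hq : 0 < q := ht.tri.hq
  have hr0 : 0 < r := ht.tri.hr
  have hpX : p ≤ X := ht.tri.pX
  have hqX : q ≤ X := ht.tri.qX
  have hrX : r ≤ X := ht.tri.rX
  have hX0 : (0 : ℝ) < X := by
    have : (2 : ℝ) ≤ X := by exact_mod_cast hX
    linarith
  have hsub : Finset.Icc 1 8 ⊆ Finset.Icc 1 1000 := Finset.Icc_subset_Icc le_rfl (by norm_num)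
  -- bounds of the single logarithms
  have lu := fcon_lo hX ht.u
  have lv := fcon_lo hX ht.v
  have lρ := fcon_lo hX ht.ρ
  have uρ := fcon_up hX hr0 ht.ρ
  have lR := fcon_lo hX ht.R
  have uR := fcon_up hX (rad_pos r) ht.R
  have l1 := fcon_lo hX ht.r1
  have u1 := fcon_up hX (pc_pos 1 r) ht.r1
  have l2 := fcon_lo hX ht.r2
  have u2 := fcon_up hX (pc_pos 2 r) ht.r2
  have ls := fcon_lo hX ht.s
  have us := fcon_up hX (rad_pos (cf r)) ht.s
  have lc := fcon_lo hX ht.c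
  have uc := fcon_up hX (cf_pos r) ht.c
  have lw := fcon_lo hX ht.w
  have uw := fcon_up hX (pc_pos 3 r) ht.w
  simp only at lu lv lρ uρ lR uR l1 u1 l2 u2 ls us lc uc lw uw hrad
  -- relations
  have e2 : fcon_lg X r = fcon_lg X (pc 1 r) + 2 * fcon_lg X (pc 2 r) + fcon_lg X (cf r) := by
    have := congrArg (fcon_lg X) (hr2 r hr0)
    rw [fcon_mul X (Nat.mul_pos (pc_pos _ _) (pow_pos (pc_pos _ _) _)) (cf_pos r),
      fcon_mul X (pc_pos _ _) (pow_pos (pc_pos _ _) _), fcon_pow] at this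
    push_cast at this
    exact this
  have e3 : fcon_lg X (rad r) = fcon_lg X (pc 1 r) + fcon_lg X (pc 2 r) +
      fcon_lg X (rad (cf r)) := by
    have := congrArg (fcon_lg X) (hr3 r hr0)
    rw [fcon_mul X (Nat.mul_pos (pc_pos _ _) (pc_pos _ _)) (rad_pos _),
      fcon_mul X (pc_pos _ _) (pc_pos _ _)] at this
    exact this
  have e4 : 3 * fcon_lg X (rad (cf r)) ≤ fcon_lg X (cf r) := by
    have := fcon_mono hX (pow_pos (rad_pos (cf r)) 3) (hr4 r hr0)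
    rw [fcon_pow] at this
    push_cast at this
    exact this
  have e5 : fcon_lg X (pc 3 r) ≤ fcon_lg X (rad (cf r)) :=
    fcon_mono hX (pc_pos 3 r) (Nat.le_of_dvd (rad_pos _) (hr5 r hr0))
  have e7 : 4 * fcon_lg X (rad r) ≤ fcon_lg X r + (3 * fcon_lg X (pc 1 r) +
      2 * fcon_lg X (pc 2 r) + fcon_lg X (pc 3 r)) := by
    have := fcon_mono hX (pow_pos (rad_pos r) 4) (hr7 r hr0)
    rw [fcon_pow, fcon_mul X hr0 (Nat.mul_pos (Nat.mul_pos (pow_pos (pc_pos _ _) _)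
      (pow_pos (pc_pos _ _) _)) (pc_pos _ _)),
      fcon_mul X (Nat.mul_pos (pow_pos (pc_pos _ _) _) (pow_pos (pc_pos _ _) _)) (pc_pos _ _),
      fcon_mul X (pow_pos (pc_pos _ _) _) (pow_pos (pc_pos _ _) _), fcon_pow, fcon_pow] at this
    push_cast at this
    exact this
  have er : fcon_lg X r ≤ 1 := by
    rw [← fcon_self hX]
    exact fcon_mono hX hr0 hrX
  have etot : fcon_lg X (rad p) + fcon_lg X (rad q) + fcon_lg X (rad r) ≤ 1 + h := by
    rw [← fcon_mul X (rad_pos p) (rad_pos q),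
      ← fcon_mul X (Nat.mul_pos (rad_pos p) (rad_pos q)) (rad_pos r)]
    unfold fcon_lg
    rw [div_le_iff₀ (fcon_logX_pos hX), ← Real.log_rpow hX0]
    apply Real.log_le_log
    · exact_mod_cast Nat.mul_pos (Nat.mul_pos (rad_pos p) (rad_pos q)) (rad_pos r)
    · push_cast
      exact hrad
  have au := fcon_au hX hp hpX 1000 (hr1 p 1000 hp) ht.u ht.a
  have bv := fcon_au hX hq hqX 1000 (hr1 q 1000 hq) ht.v ht.b
  have a9 := fcon_au hX hp hpX 8 (hr1 p 8 hp) ht.u (fun e he => ht.a e (hsub he))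
  have b9 := fcon_au hX hq hqX 8 (hr1 q 8 hq) ht.v (fun e he => ht.b e (hsub he))
  refine ⟨fcon_asum hX hp hpX ht.a, fcon_asum hX hq hqX ht.b, fcon_arad hX ht.u ht.a,
    fcon_arad hX ht.v ht.b, ?_, ?_, ?_, ?_, ?_, ?_, ?_, ?_, ?_, ?_, ?_, ?_, ?_⟩
  · norm_num at au
    exact au
  · norm_num at bv
    exact bv
  · norm_num at a9
    exact a9
  · norm_num at b9
    exact b9
  all_goals linarith

end Pool.Agent.Helper21.EN
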