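import Pool.Agent.Helper21.EN.FStmts
import Pool.Agent.Helper21.EN.Dec

set_option autoImplicit false

/-!
# Project EN, final piece FFin

The statement is in EN/FStmts.lean. Paper: /team-store/EN_paper.md, section 8.

Proof. h4 gives m, g. Choose N with 1/N <= g, h = 1/N (h <= 1/100), delta = h. hmesh N: classes Theta k. Each class is Small h: if no X >= 2 and t with InC X h (Theta k) t and the radical bound exist then TT is empty (C = 0); otherwise hcon gives Con0; if R <= 1/2-4h or u+v <= 1/2-4h: htriv; otherwise Con, and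
rho <= 1 - m/10: h1; else s > 1/4 - m/100: h4; else r2 >= 1/2 - 1/10^7: h2; else h3. For X >= 2 let E(X) = set of n with a triple a+b=c, X/2 < c <= X, gcd = 1, rad(abc) <= c^(1+h), n in {a,b,c}. For each n choose (p,q,r) with r = n and p, q the two others (Tri X p q r; rad (a b c) = rad a rad b rad c for pairwise coprime numbers; c^(1+h) <= X^(1+h)):
a finite set of triples with different r; its members in class k form a CT (filter), so |E(X)| <= sum_k C_k X^(1/2-h) = C X^(1/2-h). Let F(X) = number of n in Icc 1 X with Entry h X n. F(X) <= F(X/2) + |E(X)| (natural division; c <= X/2 or c > X/2), F(1) = 0 (c >= 2), F(0) = 0; by strong induction F(X) <= C' X^(1/2-h), C' = C/(1 - 2^(-(1/2-h))).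
-/

namespace Pool.Agent.Helper21.EN

open Finset

theorem ffin_rad_mul {a b : ℕ} (hab : Nat.Coprime a b) : rad (a * b) = rad a * rad b := by
  unfold rad
  rw [Nat.Coprime.primeFactors_mul hab, Finset.prod_union (Nat.Coprime.disjoint_primeFactors hab)]

/-- every class is small -/
theorem ffin_small (hcon : FConStmt) (htriv : FTrivStmt) (h1 : FC1Stmt) (h2 : FC2Stmt)
    (h3 : FC3Stmt) {m g h : ℝ} (hm : 0 < m) (hm8 : m ≤ 1 / 10 ^ 8)
    (hgm : g ≤ m / 10 ^ 6)
    (h4 : ∀ (h : ℝ) (θ : Ex), 0 < h → h ≤ g → Con h θ → 1 - m / 10 < θ.ρ →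
      1 / 4 - m / 100 < θ.s → Small h θ)
    (hh : 0 < h) (hhg : h ≤ g) (θ : Ex) (hθ : θ.Nn) : Small h θ := by
  have hhm : h ≤ m / 10 ^ 6 := hhg.trans hgm
  have hh100 : h ≤ 1 / 100 := by
    refine hhm.trans ?_
    rw [div_le_iff₀ (by norm_num)]
    refine hm8.trans ?_
    norm_num
  by_cases hex : ∃ (X : ℕ) (t : ℕ × ℕ × ℕ), 2 ≤ X ∧ InC X h θ t ∧
      (rad t.1 : ℝ) * rad t.2.1 * rad t.2.2 ≤ (X : ℝ) ^ (1 + h)
  · obtain ⟨X, t, hX, hin, hrad⟩ := hex
    have hc0 : Con0 h θ := hcon h θ X t hh hX hin hrad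
    by_cases ht : θ.R ≤ 1 / 2 - 4 * h ∨ θ.u + θ.v ≤ 1 / 2 - 4 * h
    · exact htriv h θ hh hh100 hθ ht
    push Not at ht
    have hC : Con h θ := ⟨hθ, hc0, ht.1, ht.2⟩
    by_cases hρ : θ.ρ ≤ 1 - m / 10
    · exact h1 m h θ hm hm8 hh hhm hC hρ
    push Not at hρ
    by_cases hs : θ.s ≤ 1 / 4 - m / 100
    · by_cases hr : θ.r2 < 1 / 2 - 1 / 10 ^ 7
      · exact h3 m h θ hm hm8 hh hhm hC hρ hr hs
      · push Not at hr
        exact h2 m h θ hm hm8 hh hhm hC hρ hr
    · push Not at hs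
      exact h4 h θ hh hhg hC hρ hs
  · refine ⟨0, fun X TT hX hCT => ?_⟩
    have hTT : TT = ∅ := by
      rw [Finset.eq_empty_iff_forall_notMem]
      intro t ht
      exact hex ⟨X, t, hX, hCT.mem t ht, hCT.rad t ht⟩
    rw [hTT]
    simp

/-- the triple of an entry -/
theorem ffin_triple {h : ℝ} (hh : 0 < h) {X n : ℕ} (hE : Entry h X n) (hX : ¬ Entry h (X / 2) n) :
    ∃ t : ℕ × ℕ × ℕ, t.2.2 = n ∧ Tri X t.1 t.2.1 t.2.2 ∧
      (rad t.1 : ℝ) * rad t.2.1 * rad t.2.2 ≤ (X : ℝ) ^ (1 + h) ∧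
      (X < 2 * t.1 ∨ X < 2 * t.2.1 ∨ X < 2 * t.2.2) := by
  obtain ⟨a, b, ha, hb, hab, hle, hrad, hn⟩ := hE
  have hbig : X < 2 * (a + b) := by
    by_contra hc
    apply hX
    exact ⟨a, b, ha, hb, hab, by omega, hrad, hn⟩
  have hac : Nat.Coprime a (a + b) := by
    rw [Nat.coprime_self_add_right]
    exact hab
  have hbc : Nat.Coprime b (a + b) := by
    rw [Nat.coprime_add_self_right]
    exact hab.symm
  have hr : rad (a * b * (a + b)) = rad a * rad b * rad (a + b) := by
    rw [ffin_rad_mul (Nat.Coprime.mul_left hac hbc), ffin_rad_mul hab]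
  have hrX : (rad a : ℝ) * rad b * rad (a + b) ≤ (X : ℝ) ^ (1 + h) := by
    have h1 : ((rad (a * b * (a + b)) : ℕ) : ℝ) ≤ ((a + b : ℕ) : ℝ) ^ (1 + h) := hrad
    rw [hr] at h1
    push_cast at h1
    refine h1.trans ?_
    refine Real.rpow_le_rpow (by positivity) ?_ (by linarith)
    exact_mod_cast hle
  rcases hn with rfl | rfl | rfl
  · refine ⟨(b, n + b, n), rfl, ⟨hb, by positivity, ha, hbc, hab.symm, hac.symm, by
      simp only; omega, hle, by simp only; omega, Or.inr (Or.inr (by simp only; omega))⟩, ?_,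
      Or.inr (Or.inl hbig)⟩
    calc (rad b : ℝ) * rad (n + b) * rad n = (rad n : ℝ) * rad b * rad (n + b) := by ring
      _ ≤ _ := hrX
  · refine ⟨(a, a + n, n), rfl, ⟨ha, by positivity, hb, hac, hab, hbc.symm, by
      simp only; omega, hle, by simp only; omega, Or.inr (Or.inr rfl)⟩, ?_,
      Or.inr (Or.inl hbig)⟩
    calc (rad a : ℝ) * rad (a + n) * rad n = (rad a : ℝ) * rad n * rad (a + n) := by ring
      _ ≤ _ := hrX
  · exact ⟨(a, b, a + b), rfl, ⟨ha, hb, by positivity, hab, hac, hbc, by simp only; omega, by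
      simp only; omega, hle, Or.inl rfl⟩, hrX, Or.inr (Or.inr hbig)⟩

theorem ffin_thm (hmesh : FMeshStmt) (hcon : FConStmt) (htriv : FTrivStmt) (h1 : FC1Stmt) (h2 : FC2Stmt)
    (h3 : FC3Stmt) (h4 : FC4Stmt) : FFinStmt := by
  classical
  obtain ⟨m, g, hm, hm8, hg, hgm, h4⟩ := h4
  obtain ⟨N, hN⟩ : ∃ N : ℕ, 1 / g < N := exists_nat_gt _
  have hNR : (0 : ℝ) < N := lt_trans (by positivity) hN
  have hN0 : 0 < N := by exact_mod_cast hNR
  set h : ℝ := 1 / (N : ℝ) with hh
  have hh0 : 0 < h := by positivity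
  have hhg : h ≤ g := by
    rw [hh, div_le_iff₀ hNR]
    rw [div_lt_iff₀ hg] at hN
    linarith
  have hh2 : h < 1 / 2 := by
    have h5 : g ≤ m / 10 ^ 6 := hgm
    have h6 : m / 10 ^ 6 ≤ m := div_le_self hm.le (by norm_num)
    have h7 : (1 : ℝ) / 10 ^ 8 < 1 / 2 := by norm_num
    linarith
  obtain ⟨n, Θ, hΘ, hcov⟩ := hmesh N hN0
  have hsmall : ∀ k, Small h (Θ k) := fun k =>
    ffin_small hcon htriv h1 h2 h3 hm hm8 hgm h4 hh0 hhg (Θ k) (hΘ k)
  choose Cs hCs using hsmall
  set β : ℝ := 1 / 2 - h with hβ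
  have hβ0 : 0 < β := by linarith
  set C : ℝ := ∑ k, max (Cs k) 0 with hC
  have hC0 : 0 ≤ C := Finset.sum_nonneg fun k _ => le_max_right _ _
  set F : ℕ → Finset ℕ := fun X => (Finset.Icc 1 X).filter (fun n => Entry h X n) with hF
  -- the dyadic step
  have hstep : ∀ X : ℕ, 2 ≤ X → ((F X).card : ℝ) ≤ (F (X / 2)).card + C * (X : ℝ) ^ β := by
    intro X hX
    have hXR : (0 : ℝ) < X := by
      have : 0 < X := by omega
      exact_mod_cast this
    set D := F X \ F (X / 2) with hD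
    have hDmem : ∀ n ∈ D, ∃ t : ℕ × ℕ × ℕ, t.2.2 = n ∧ Tri X t.1 t.2.1 t.2.2 ∧
        (rad t.1 : ℝ) * rad t.2.1 * rad t.2.2 ≤ (X : ℝ) ^ (1 + h) ∧
        (X < 2 * t.1 ∨ X < 2 * t.2.1 ∨ X < 2 * t.2.2) := by
      intro n hn
      rw [hD, mem_sdiff, hF] at hn
      simp only [mem_filter, mem_Icc, not_and] at hn
      obtain ⟨⟨⟨hn1, hn2⟩, hn3⟩, hn4⟩ := hn
      refine ffin_triple hh0 hn3 fun hE => ?_
      refine hn4 ⟨hn1, ?_⟩ hE
      obtain ⟨a, b, ha, hb, hab, hle, hrad, hn⟩ := hE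
      omega
    choose! φ hφ using hDmem
    set TT : Fin n → Finset (ℕ × ℕ × ℕ) := fun k =>
      (D.image φ).filter (fun t => InC X h (Θ k) t) with hTT
    have hCT : ∀ k, CT h (Θ k) X (TT k) := by
      intro k
      have hmem : ∀ t ∈ TT k, InC X h (Θ k) t ∧ ∃ n ∈ D, φ n = t := by
        intro t ht
        rw [hTT] at ht
        simp only [mem_filter, mem_image] at ht
        exact ⟨ht.2, ht.1⟩
      refine ⟨fun t ht => (hmem t ht).1, ?_, ?_, ?_⟩
      · intro t ht
        obtain ⟨-, n, hn, rfl⟩ := hmem t ht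
        exact (hφ n hn).2.2.1
      · intro t ht
        obtain ⟨-, n, hn, rfl⟩ := hmem t ht
        exact (hφ n hn).2.2.2
      · intro t ht t' ht' htt
        obtain ⟨-, n, hn, rfl⟩ := hmem t ht
        obtain ⟨-, n', hn', rfl⟩ := hmem t' ht'
        rw [(hφ n hn).1, (hφ n' hn').1] at htt
        rw [htt]
    have hDc : D.card ≤ ∑ k, (TT k).card := by
      have e1 : D.card = (D.image φ).card := by
        rw [card_image_of_injOn]
        intro n hn n' hn' hnn
        have e2 := (hφ n (mem_coe.1 hn)).1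
        have e3 := (hφ n' (mem_coe.1 hn')).1
        rw [← e2, ← e3, hnn]
      rw [e1]
      refine le_trans (card_le_card ?_) card_biUnion_le
      intro t ht
      rw [mem_biUnion]
      obtain ⟨n, hn, rfl⟩ := mem_image.1 ht
      obtain ⟨k, hk⟩ := hcov X hX (φ n) (hφ n hn).2.1
      refine ⟨k, mem_univ k, ?_⟩
      rw [hTT]
      simp only [mem_filter]
      exact ⟨ht, hk⟩
    have hDR : (D.card : ℝ) ≤ C * (X : ℝ) ^ β := by
      have e1 : (D.card : ℝ) ≤ ∑ k, ((TT k).card : ℝ) := by exact_mod_cast hDc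
      refine e1.trans ?_
      rw [hC, Finset.sum_mul]
      refine Finset.sum_le_sum fun k _ => ?_
      refine (hCs k X (TT k) hX (hCT k)).trans ?_
      exact mul_le_mul_of_nonneg_right (le_max_left _ _) (by positivity)
    have e1 : (F X).card ≤ (F (X / 2)).card + D.card := by
      have e2 : F X ⊆ F (X / 2) ∪ D := by
        intro n hn
        rw [mem_union]
        by_cases h5 : n ∈ F (X / 2)
        · exact Or.inl h5
        · exact Or.inr (mem_sdiff.2 ⟨hn, h5⟩)
      exact (card_le_card e2).trans (card_union_le _ _)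
    have e2 : ((F X).card : ℝ) ≤ (F (X / 2)).card + D.card := by exact_mod_cast e1
    linarith
  set q : ℝ := (2 : ℝ) ^ (-β) with hq
  have hq1 : q < 1 := by
    rw [hq]
    exact Real.rpow_lt_one_of_one_lt_of_neg (by norm_num) (by linarith)
  have hq1' : 0 < 1 - q := by linarith
  refine ⟨h, C / (1 - q), hh0, fun X hX => ?_⟩
  show ((F X).card : ℝ) ≤ C / (1 - q) * (X : ℝ) ^ β
  induction X using Nat.strong_induction_on with
  | _ X ih =>
    rcases Nat.lt_or_ge X 2 with hX2 | hX2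
    · have hX1 : X = 1 := by omega
      subst hX1
      have e1 : F 1 = ∅ := by
        rw [Finset.eq_empty_iff_forall_notMem]
        intro n hn
        rw [hF] at hn
        simp only [mem_filter] at hn
        obtain ⟨a, b, ha, hb, -, hle, -⟩ := hn.2
        omega
      rw [e1]
      simp only [card_empty, Nat.cast_zero]
      positivity
    · have e1 := hstep X hX2
      have e2 := ih (X / 2) (by omega) (by omega)
      have hXR : (0 : ℝ) < X := by
        have : 0 < X := by omega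
        exact_mod_cast this
      have e3 : ((X / 2 : ℕ) : ℝ) ≤ (X : ℝ) / 2 := Nat.cast_div_le
      have e4 : ((X / 2 : ℕ) : ℝ) ^ β ≤ q * (X : ℝ) ^ β := by
        refine (Real.rpow_le_rpow (Nat.cast_nonneg _) e3 hβ0.le).trans ?_
        rw [Real.div_rpow hXR.le (by norm_num), hq, Real.rpow_neg (by norm_num)]
        exact le_of_eq (by ring)
      have e5 : C / (1 - q) * ((X / 2 : ℕ) : ℝ) ^ β ≤ C / (1 - q) * (q * (X : ℝ) ^ β) :=
        mul_le_mul_of_nonneg_left e4 (by positivity)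
      have e6 : C / (1 - q) * (q * (X : ℝ) ^ β) + C * (X : ℝ) ^ β =
          C / (1 - q) * (X : ℝ) ^ β := by
        field_simp
        ring
      linarith

end Pool.Agent.Helper21.EN
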