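import Pool.Agent.Helper21.EN.FStmts
import Pool.Agent.Helper21.EN.Dec

set_option autoImplicit false

/-!
# Project EN, final piece FL0

Replace the sorry. The statement is in EN/FStmts.lean. Paper: /team-store/EN_paper.md, section 8.

Proof. h0 with eps = h, MM = TT.image (Mf r), TT' = image of TT under t -> (p, q, Mf r), |TT| <= 2 |TT'| (given (p,q) at most two r). P i = min (X^(a_i+h)) X for i in Sp, 1 otherwise; Q the same with Sq, b. B = sum_{Sp} a_i + sum_{Sq} b_i, R = X^(u+v+2h-B) >= 1, K = C1 X^(-k) (0 <= C1).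
prod P_iQ_i <= X^(B+16h). rad p rad q <= X^(u+v+2h) <= R prod pc prod pc. U i <= P i Q i <= X^(...) as in the hypothesis. h0 gives C X^h (m R + sqrt((m R + R^2)(m K prod P_iQ_i))) with m = |MM| <= C1 X^sM; sqrt(x+y) <= sqrt x + sqrt y; sqrt(X^e) = X^(e/2). Exponents: h + sM + (u+v+2h-B); h + (2 sM + (u+v+2h-B) - k + B + 16h)/2 = sM + (u+v-k)/2 + 10h;
h + (2(u+v+2h-B) + sM - k + B + 16h)/2 = u+v + (sM - B - k)/2 + 11h.
-/

namespace Pool.Agent.Helper21.EN

open Finset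

/-- Given `p` and `q` there are at most two `r`. -/
lemma fl0_card {X : ℕ} {TT : Finset (ℕ × ℕ × ℕ)} (Mf : ℕ → ℕ)
    (h : ∀ t ∈ TT, Tri X t.1 t.2.1 t.2.2) :
    TT.card ≤ 2 * (TT.image (fun t => (t.1, t.2.1, Mf t.2.2))).card := by
  classical
  refine Finset.card_le_mul_card_image TT 2 fun a _ => ?_
  have hsub : (TT.filter fun t => (t.1, t.2.1, Mf t.2.2) = a) ⊆
      {(a.1, a.2.1, a.1 + a.2.1), (a.1, a.2.1, (a.1 - a.2.1) + (a.2.1 - a.1))} := by
    intro t ht
    rw [Finset.mem_filter] at ht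
    obtain ⟨ht, he⟩ := ht
    have h1 : t.1 = a.1 := by rw [← he]
    have h2 : t.2.1 = a.2.1 := by rw [← he]
    have h3 := (h t ht).rel
    have h4 := (h t ht).hp
    have h5 := (h t ht).hq
    rw [Finset.mem_insert, Finset.mem_singleton]
    rcases h3 with h3 | h3 | h3
    · left
      refine Prod.ext h1 (Prod.ext h2 ?_)
      simp only
      omega
    · right
      refine Prod.ext h1 (Prod.ext h2 ?_)
      simp only
      omega
    · right
      refine Prod.ext h1 (Prod.ext h2 ?_)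
      simp only
      omega
  exact (Finset.card_le_card hsub).trans Finset.card_le_two

lemma fl0_card_le {S : Finset (Fin 9)} (h : (0 : Fin 9) ∉ S) : S.card ≤ 8 := by
  have h1 : S ⊆ Finset.univ.erase (0 : Fin 9) := fun i hi =>
    Finset.mem_erase.2 ⟨fun h2 => h (h2 ▸ hi), Finset.mem_univ i⟩
  have h2 := Finset.card_le_card h1
  simpa using h2

lemma fl0_sum (S : Finset (Fin 9)) (h : ℝ) (hh : 0 < h) (h0 : (0 : Fin 9) ∉ S) (f : Fin 9 → ℝ) :
    ∑ i, (if i ∈ S then f i + h else 0) ≤ ∑ i ∈ S, f i + 8 * h := by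
  rw [Finset.sum_ite_mem, Finset.univ_inter, Finset.sum_add_distrib, Finset.sum_const,
    nsmul_eq_mul]
  have h1 : (S.card : ℝ) ≤ 8 := by exact_mod_cast fl0_card_le h0
  have := mul_le_mul_of_nonneg_right h1 hh.le
  linarith

theorem fl0_thm (h0 : L0Stmt) : FL0Stmt := by
  classical
  intro h θ Sp Sq Mf sM k C1 hh hSp hSq hnn hasum hbsum hC1
  obtain ⟨C0, hC0, H0⟩ := h0 h hh
  refine ⟨2 * C0 * (1 + C1) ^ 2, fun X TT hX hCT hdiv hcard hNN => ?_⟩
  obtain ⟨x, hx⟩ : ∃ x : ℝ, x = (X : ℝ) := ⟨_, rfl⟩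
  have hx2 : 2 ≤ x := by rw [hx]; exact_mod_cast hX
  have hx1 : 1 ≤ x := by linarith
  have hx0 : 0 < x := by linarith
  have hXpos : 0 < X := by omega
  obtain ⟨B, hB⟩ : ∃ B, B = ∑ i ∈ Sp, θ.a i + ∑ i ∈ Sq, θ.b i := ⟨_, rfl⟩
  have hBle : B ≤ θ.u + θ.v + 2 * h := by rw [hB]; linarith
  have hpw : ∀ y : ℝ, 0 ≤ y → 1 ≤ x ^ y := fun y hy => Real.one_le_rpow hx1 hy
  have hpos : ∀ y : ℝ, 0 < x ^ y := fun y => Real.rpow_pos_of_pos hx0 y
  have hmono : ∀ {y z : ℝ}, y ≤ z → x ^ y ≤ x ^ z := fun hyz =>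
    Real.rpow_le_rpow_of_exponent_le hx1 hyz
  have hadd : ∀ y z : ℝ, x ^ (y + z) = x ^ y * x ^ z := fun y z => Real.rpow_add hx0 y z
  -- the sizes of the classes
  obtain ⟨P, hP⟩ : ∃ P : Fin 9 → ℝ, P = fun i => if i ∈ Sp then min (x ^ (θ.a i + h)) x else 1 :=
    ⟨_, rfl⟩
  obtain ⟨Q, hQ⟩ : ∃ Q : Fin 9 → ℝ, Q = fun i => if i ∈ Sq then min (x ^ (θ.b i + h)) x else 1 :=
    ⟨_, rfl⟩
  have hP1 : ∀ i, 1 ≤ P i ∧ P i ≤ X := by
    intro i
    rw [hP, ← hx]
    simp only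
    split_ifs
    · exact ⟨le_min (hpw _ (by linarith [hnn.a i])) hx1, min_le_right _ _⟩
    · exact ⟨le_rfl, hx1⟩
  have hQ1 : ∀ i, 1 ≤ Q i ∧ Q i ≤ X := by
    intro i
    rw [hQ, ← hx]
    simp only
    split_ifs
    · exact ⟨le_min (hpw _ (by linarith [hnn.b i])) hx1, min_le_right _ _⟩
    · exact ⟨le_rfl, hx1⟩
  have hPle : ∀ i, P i ≤ x ^ (if i ∈ Sp then θ.a i + h else 0) := by
    intro i
    rw [hP]
    simp only
    split_ifs
    · exact min_le_left _ _
    · rw [Real.rpow_zero]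
  have hQle : ∀ i, Q i ≤ x ^ (if i ∈ Sq then θ.b i + h else 0) := by
    intro i
    rw [hQ]
    simp only
    split_ifs
    · exact min_le_left _ _
    · rw [Real.rpow_zero]
  have hPQ : ∀ i, P i * Q i ≤
      x ^ ((if i ∈ Sp then θ.a i + h else 0) + (if i ∈ Sq then θ.b i + h else 0)) := by
    intro i
    rw [hadd]
    exact mul_le_mul (hPle i) (hQle i) (by linarith [(hQ1 i).1]) (hpos _).le
  have hprod : ∏ i, P i * Q i ≤ x ^ (B + 16 * h) := by
    calc ∏ i, P i * Q i ≤ ∏ i : Fin 9,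
          x ^ ((if i ∈ Sp then θ.a i + h else 0) + (if i ∈ Sq then θ.b i + h else 0)) :=
          Finset.prod_le_prod (fun i _ => mul_nonneg (by linarith [(hP1 i).1])
            (by linarith [(hQ1 i).1])) (fun i _ => hPQ i)
      _ = x ^ (∑ i : Fin 9,
          ((if i ∈ Sp then θ.a i + h else 0) + (if i ∈ Sq then θ.b i + h else 0))) :=
          (Real.rpow_sum_of_pos hx0 _ _).symm
      _ ≤ x ^ (B + 16 * h) := by
          apply hmono
          rw [Finset.sum_add_distrib]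
          have h1 := fl0_sum Sp h hh hSp (fun i => θ.a i)
          have h2 := fl0_sum Sq h hh hSq (fun i => θ.b i)
          rw [hB]
          linarith
  have hprod0 : 0 ≤ ∏ i, P i * Q i := Finset.prod_nonneg fun i _ =>
    mul_nonneg (by linarith [(hP1 i).1]) (by linarith [(hQ1 i).1])
  -- the other parameters
  obtain ⟨R, hR⟩ : ∃ R, R = x ^ (θ.u + θ.v + 2 * h - B) := ⟨_, rfl⟩
  obtain ⟨K, hK⟩ : ∃ K, K = C1 * x ^ (-k) := ⟨_, rfl⟩
  have hR1 : 1 ≤ R := by rw [hR]; exact hpw _ (by linarith)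
  have hK0 : 0 ≤ K := by rw [hK]; exact mul_nonneg hC1 (hpos _).le
  obtain ⟨MM, hMM⟩ : ∃ MM : Finset ℕ, MM = TT.image (fun t => Mf t.2.2) := ⟨_, rfl⟩
  obtain ⟨TT', hTT'⟩ : ∃ TT' : Finset (ℕ × ℕ × ℕ),
    TT' = TT.image (fun t => (t.1, t.2.1, Mf t.2.2)) := ⟨_, rfl⟩
  have hTri : ∀ t ∈ TT, Tri X t.1 t.2.1 t.2.2 := fun t ht => (hCT.mem t ht).tri
  have hcc : TT.card ≤ 2 * TT'.card := by rw [hTT']; exact fl0_card Mf hTri
  have main := H0 X Sp Sq P Q R K MM TT' hX hSp hSq hP1 hQ1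
    (fun i hi => by rw [hP]; simp only; rw [if_neg hi])
    (fun i hi => by rw [hQ]; simp only; rw [if_neg hi]) hR1 hK0
    (by
      intro M hM
      rw [hMM, Finset.mem_image] at hM
      obtain ⟨t, ht, rfl⟩ := hM
      have h1 := hTri t ht
      exact ⟨Nat.pos_of_dvd_of_pos (hdiv t ht) h1.hr,
        (Nat.le_of_dvd h1.hr (hdiv t ht)).trans h1.rX⟩)
    (by
      intro t' ht'
      rw [hTT', Finset.mem_image] at ht'
      obtain ⟨t, ht, rfl⟩ := ht'
      have h1 := hTri t ht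
      have h2 := hdiv t ht
      have hC := hCT.mem t ht
      have hIcc : ∀ i : Fin 9, i ≠ 0 → (i : ℕ) ∈ Finset.Icc 1 1000 := by
        intro i hi
        have hi0 : (i : ℕ) ≠ 0 := fun h3 => hi (Fin.ext h3)
        have := i.2
        rw [Finset.mem_Icc]
        omega
      refine ⟨h1.hp, h1.pX, h1.hq, h1.qX, ?_, h1.pq, h1.pr.coprime_dvd_right h2,
        h1.qr.coprime_dvd_right h2, ?_, ?_, ?_, ?_⟩
      · rw [hMM]; exact Finset.mem_image_of_mem _ ht
      · have h3 : ((Mf t.2.2 : ℕ) : ℤ) ∣ ((t.2.2 : ℕ) : ℤ) := Int.natCast_dvd_natCast.2 h2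
        rcases h1.rel with h4 | h4 | h4
        · right
          have : (t.1 : ℤ) + t.2.1 = ((t.2.2 : ℕ) : ℤ) := by rw [← h4]; push_cast; ring
          simp only
          rw [this]; exact h3
        · left
          have : (t.1 : ℤ) - t.2.1 = ((t.2.2 : ℕ) : ℤ) := by rw [← h4]; push_cast; ring
          simp only
          rw [this]; exact h3
        · left
          have : (t.1 : ℤ) - t.2.1 = -((t.2.2 : ℕ) : ℤ) := by rw [← h4]; push_cast; ring
          simp only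
          rw [this]; exact (dvd_neg).2 h3
      · intro i hi
        have hi0 : i ≠ 0 := fun h3 => hSp (h3 ▸ hi)
        rw [hP]
        simp only
        rw [if_pos hi]
        refine le_min ?_ ?_
        · rw [hx]; exact (hC.a i (hIcc i hi0)).2
        · rw [hx]
          exact_mod_cast (pc_le h1.hp).trans h1.pX
      · intro i hi
        have hi0 : i ≠ 0 := fun h3 => hSq (h3 ▸ hi)
        rw [hQ]
        simp only
        rw [if_pos hi]
        refine le_min ?_ ?_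
        · rw [hx]; exact (hC.b i (hIcc i hi0)).2
        · rw [hx]
          exact_mod_cast (pc_le h1.hq).trans h1.qX
      · have e1 : (rad t.1 : ℝ) ≤ x ^ (θ.u + h) := by rw [hx]; exact hC.u.2
        have e2 : (rad t.2.1 : ℝ) ≤ x ^ (θ.v + h) := by rw [hx]; exact hC.v.2
        have e3 : x ^ (∑ i ∈ Sp, θ.a i) ≤ ∏ i ∈ Sp, (pc i t.1 : ℝ) := by
          rw [Real.rpow_sum_of_pos hx0]
          refine Finset.prod_le_prod (fun i _ => (hpos _).le) fun i hi => ?_
          rw [hx]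
          exact (hC.a i (hIcc i fun h3 => hSp (h3 ▸ hi))).1
        have e4 : x ^ (∑ i ∈ Sq, θ.b i) ≤ ∏ i ∈ Sq, (pc i t.2.1 : ℝ) := by
          rw [Real.rpow_sum_of_pos hx0]
          refine Finset.prod_le_prod (fun i _ => (hpos _).le) fun i hi => ?_
          rw [hx]
          exact (hC.b i (hIcc i fun h3 => hSq (h3 ▸ hi))).1
        simp only
        push_cast
        calc (rad t.1 : ℝ) * rad t.2.1 ≤ x ^ (θ.u + h) * x ^ (θ.v + h) :=
              mul_le_mul e1 e2 (Nat.cast_nonneg _) (hpos _).le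
          _ = R * x ^ (∑ i ∈ Sp, θ.a i) * x ^ (∑ i ∈ Sq, θ.b i) := by
              rw [hR, ← hadd, ← hadd, ← hadd, hB]
              congr 1
              ring
          _ ≤ R * (∏ i ∈ Sp, (pc i t.1 : ℝ)) * ∏ i ∈ Sq, (pc i t.2.1 : ℝ) := by
              refine mul_le_mul (mul_le_mul_of_nonneg_left e3 (by linarith)) e4 (hpos _).le
                (mul_nonneg (by linarith) (Finset.prod_nonneg fun i _ => Nat.cast_nonneg _)))
    (by
      intro M hM U hU hex
      rw [hMM, Finset.mem_image] at hM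
      obtain ⟨t, ht, rfl⟩ := hM
      rw [hK, hx]
      refine hNN t ht U (fun i => ⟨(hU i).1, (hU i).2.trans ?_⟩) hex
      rw [← hx]
      exact hPQ i)
  -- the final computation
  rw [← hMM, ← hx] at hcard
  rw [← hx] at main ⊢
  rw [← hB]
  obtain ⟨m, hm⟩ : ∃ m : ℝ, m = (MM.card : ℝ) := ⟨_, rfl⟩
  rw [← hm] at hcard main
  have hm0 : 0 ≤ m := by rw [hm]; exact Nat.cast_nonneg _
  have hC11 : C1 ≤ 1 + C1 := by linarith
  obtain ⟨D, hD⟩ : ∃ D, D = 1 + C1 := ⟨_, rfl⟩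
  have hD1 : 1 ≤ D := by rw [hD]; linarith
  have hmD : m ≤ D * x ^ sM := hcard.trans (mul_le_mul_of_nonneg_right (by rw [hD]; exact hC11)
    (hpos _).le)
  have hKD : K ≤ D * x ^ (-k) := by
    rw [hK]
    exact mul_le_mul_of_nonneg_right (by rw [hD]; exact hC11) (hpos _).le
  have hDD : D ≤ D ^ 2 := by nlinarith
  -- first term
  have t1 : m * R ≤ D ^ 2 * x ^ (sM + (θ.u + θ.v + 2 * h - B)) := by
    calc m * R ≤ D * x ^ sM * R := mul_le_mul_of_nonneg_right hmD (by linarith)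
      _ = D * x ^ (sM + (θ.u + θ.v + 2 * h - B)) := by rw [hR, hadd]; ring
      _ ≤ _ := mul_le_mul_of_nonneg_right hDD (hpos _).le
  -- second term
  have t2 : Real.sqrt ((m * R) * (m * K * ∏ i, P i * Q i)) ≤
      D ^ 2 * x ^ (sM + (θ.u + θ.v - k) / 2 + 9 * h) := by
    refine Real.sqrt_le_iff.2 ⟨mul_nonneg (by positivity) (hpos _).le, ?_⟩
    have e1 : (D ^ 2 * x ^ (sM + (θ.u + θ.v - k) / 2 + 9 * h)) ^ 2 =
        D ^ 4 * x ^ (sM + sM + (θ.u + θ.v + 2 * h - B) + (-k) + (B + 16 * h)) := by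
      rw [mul_pow, ← Real.rpow_natCast (x ^ _) 2, ← Real.rpow_mul hx0.le]
      have : (sM + (θ.u + θ.v - k) / 2 + 9 * h) * ((2 : ℕ) : ℝ) =
          sM + sM + (θ.u + θ.v + 2 * h - B) + (-k) + (B + 16 * h) := by push_cast; ring
      rw [this]
      ring
    rw [e1]
    calc (m * R) * (m * K * ∏ i, P i * Q i)
        ≤ (D * x ^ sM * R) * (D * x ^ sM * (D * x ^ (-k)) * x ^ (B + 16 * h)) := by
          have hxs := (hpos sM).le
          have hxk := (hpos (-k)).le
          have hD0 : 0 ≤ D := by linarith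
          refine mul_le_mul (mul_le_mul_of_nonneg_right hmD (by linarith))
            (mul_le_mul (mul_le_mul hmD hKD hK0 (by positivity)) hprod hprod0 (by positivity))
            (mul_nonneg (mul_nonneg hm0 hK0) hprod0) (by positivity)
      _ = D ^ 3 * x ^ (sM + sM + (θ.u + θ.v + 2 * h - B) + (-k) + (B + 16 * h)) := by
          rw [hR, hadd (sM + sM + (θ.u + θ.v + 2 * h - B) + (-k)) (B + 16 * h),
            hadd (sM + sM + (θ.u + θ.v + 2 * h - B)) (-k),
            hadd (sM + sM) (θ.u + θ.v + 2 * h - B), hadd sM sM]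
          ring
      _ ≤ _ := by
          refine mul_le_mul_of_nonneg_right ?_ (hpos _).le
          exact pow_le_pow_right₀ hD1 (by norm_num)
  -- third term
  have t3 : Real.sqrt ((R ^ 2) * (m * K * ∏ i, P i * Q i)) ≤
      D ^ 2 * x ^ (θ.u + θ.v + (sM - B - k) / 2 + 10 * h) := by
    refine Real.sqrt_le_iff.2 ⟨mul_nonneg (by positivity) (hpos _).le, ?_⟩
    have e1 : (D ^ 2 * x ^ (θ.u + θ.v + (sM - B - k) / 2 + 10 * h)) ^ 2 =
        D ^ 4 * x ^ ((θ.u + θ.v + 2 * h - B) + (θ.u + θ.v + 2 * h - B) + sM + (-k) +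
          (B + 16 * h)) := by
      rw [mul_pow, ← Real.rpow_natCast (x ^ _) 2, ← Real.rpow_mul hx0.le]
      have : (θ.u + θ.v + (sM - B - k) / 2 + 10 * h) * ((2 : ℕ) : ℝ) =
          (θ.u + θ.v + 2 * h - B) + (θ.u + θ.v + 2 * h - B) + sM + (-k) + (B + 16 * h) := by
        push_cast; ring
      rw [this]
      ring
    rw [e1]
    calc (R ^ 2) * (m * K * ∏ i, P i * Q i)
        ≤ (R ^ 2) * (D * x ^ sM * (D * x ^ (-k)) * x ^ (B + 16 * h)) := by
          have hxs := (hpos sM).le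
          have hxk := (hpos (-k)).le
          have hD0 : 0 ≤ D := by linarith
          refine mul_le_mul_of_nonneg_left
            (mul_le_mul (mul_le_mul hmD hKD hK0 (by positivity)) hprod hprod0 (by positivity))
            (by positivity)
      _ = D ^ 2 * x ^ ((θ.u + θ.v + 2 * h - B) + (θ.u + θ.v + 2 * h - B) + sM + (-k) +
          (B + 16 * h)) := by
          rw [hR, hadd ((θ.u + θ.v + 2 * h - B) + (θ.u + θ.v + 2 * h - B) + sM + (-k))
            (B + 16 * h), hadd ((θ.u + θ.v + 2 * h - B) + (θ.u + θ.v + 2 * h - B) + sM) (-k),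
            hadd ((θ.u + θ.v + 2 * h - B) + (θ.u + θ.v + 2 * h - B)) sM,
            hadd (θ.u + θ.v + 2 * h - B) (θ.u + θ.v + 2 * h - B)]
          ring
      _ ≤ _ := by
          refine mul_le_mul_of_nonneg_right ?_ (hpos _).le
          exact pow_le_pow_right₀ hD1 (by norm_num)
  have hmK0 : 0 ≤ m * K * ∏ i, P i * Q i := mul_nonneg (mul_nonneg hm0 hK0) hprod0
  have t4 : Real.sqrt ((m * R + R ^ 2) * (m * K * ∏ i, P i * Q i)) ≤
      Real.sqrt ((m * R) * (m * K * ∏ i, P i * Q i)) +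
        Real.sqrt ((R ^ 2) * (m * K * ∏ i, P i * Q i)) := by
    rw [add_mul]
    have ha : 0 ≤ (m * R) * (m * K * ∏ i, P i * Q i) :=
      mul_nonneg (mul_nonneg hm0 (by linarith)) hmK0
    have hb : 0 ≤ (R ^ 2) * (m * K * ∏ i, P i * Q i) := mul_nonneg (sq_nonneg _) hmK0
    refine Real.sqrt_le_iff.2 ⟨add_nonneg (Real.sqrt_nonneg _) (Real.sqrt_nonneg _), ?_⟩
    have e1 := Real.sq_sqrt ha
    have e2 := Real.sq_sqrt hb
    have e3 := mul_nonneg (Real.sqrt_nonneg ((m * R) * (m * K * ∏ i, P i * Q i)))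
      (Real.sqrt_nonneg ((R ^ 2) * (m * K * ∏ i, P i * Q i)))
    rw [add_sq, e1, e2]
    linarith
  have hxh := (hpos h).le
  have e1 : x ^ h * x ^ (sM + (θ.u + θ.v + 2 * h - B)) =
      x ^ (sM + θ.u + θ.v - B + 3 * h) := by rw [← hadd]; congr 1; ring
  have e2 : x ^ h * x ^ (sM + (θ.u + θ.v - k) / 2 + 9 * h) =
      x ^ (sM + (θ.u + θ.v - k) / 2 + 10 * h) := by rw [← hadd]; congr 1; ring
  have e3 : x ^ h * x ^ (θ.u + θ.v + (sM - B - k) / 2 + 10 * h) =
      x ^ (θ.u + θ.v + (sM - B - k) / 2 + 11 * h) := by rw [← hadd]; congr 1; ring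
  have hcc' : (TT.card : ℝ) ≤ 2 * TT'.card := by exact_mod_cast hcc
  calc (TT.card : ℝ) ≤ 2 * TT'.card := hcc'
    _ ≤ 2 * (C0 * x ^ h * (m * R + Real.sqrt ((m * R + R ^ 2) * (m * K * ∏ i, P i * Q i)))) := by
        linarith
    _ ≤ 2 * (C0 * x ^ h * (D ^ 2 * x ^ (sM + (θ.u + θ.v + 2 * h - B)) +
        (D ^ 2 * x ^ (sM + (θ.u + θ.v - k) / 2 + 9 * h) +
          D ^ 2 * x ^ (θ.u + θ.v + (sM - B - k) / 2 + 10 * h)))) := by
        refine mul_le_mul_of_nonneg_left (mul_le_mul_of_nonneg_left ?_ (by positivity))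
          (by norm_num)
        linarith
    _ = 2 * C0 * D ^ 2 * (x ^ h * x ^ (sM + (θ.u + θ.v + 2 * h - B)) +
        x ^ h * x ^ (sM + (θ.u + θ.v - k) / 2 + 9 * h) +
          x ^ h * x ^ (θ.u + θ.v + (sM - B - k) / 2 + 10 * h)) := by ring
    _ = _ := by rw [e1, e2, e3, hD]

end Pool.Agent.Helper21.EN
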