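import Pool.Agent.Helper21.EN.FStmts
import Pool.Agent.Helper21.EN.Dec

set_option autoImplicit false

/-!
# Project EN, final piece FMesh: finitely many classes

The statement is in EN/FStmts.lean. For 1 <= n <= X, X >= 2, N > 0 there is k in {0,..,N} with
X^(k/N) <= n <= X^((k+1)/N). All numbers in InC are between 1 and X.
-/

namespace Pool.Agent.Helper21.EN

open Finset

lemma fmesh_bet {N X n : ℕ} (hN : 0 < N) (hX : 2 ≤ X) (hn : 0 < n) (hnX : n ≤ X) :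
    ∃ k : Fin (N + 1), Bet X (1 / (N : ℝ)) (((k : ℕ) : ℝ) / (N : ℝ)) n := by
  have hN' : (0 : ℝ) < N := by exact_mod_cast hN
  have hX' : (1 : ℝ) < X := by exact_mod_cast (by omega : 1 < X)
  have hX0 : (0 : ℝ) < X := by linarith
  have hn' : (0 : ℝ) < n := by exact_mod_cast hn
  have hlX : 0 < Real.log X := Real.log_pos hX'
  have hln : 0 ≤ Real.log n := Real.log_nonneg (by exact_mod_cast hn)
  have hle : Real.log n ≤ Real.log X := Real.log_le_log hn' (by exact_mod_cast hnX)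
  obtain ⟨x, hx⟩ : ∃ x : ℝ, x = N * Real.log n / Real.log X := ⟨_, rfl⟩
  have hx0 : 0 ≤ x := by rw [hx]; positivity
  have hxN : x ≤ N := by
    rw [hx, div_le_iff₀ hlX]
    exact mul_le_mul_of_nonneg_left hle hN'.le
  have hxe : x * Real.log X = N * Real.log n := by
    rw [hx]; field_simp
  have hk : ⌊x⌋₊ ≤ N := by
    have := Nat.floor_le_floor hxN
    rwa [Nat.floor_natCast] at this
  have h1 : ((⌊x⌋₊ : ℕ) : ℝ) ≤ x := Nat.floor_le hx0
  have h2 : x < ((⌊x⌋₊ : ℕ) : ℝ) + 1 := Nat.lt_floor_add_one x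
  refine ⟨⟨⌊x⌋₊, by omega⟩, ?_, ?_⟩
  · rw [Real.rpow_le_iff_le_log hX0 hn']
    show ((⌊x⌋₊ : ℕ) : ℝ) / (N : ℝ) * Real.log X ≤ Real.log n
    rw [div_mul_eq_mul_div, div_le_iff₀ hN']
    have := mul_le_mul_of_nonneg_right h1 hlX.le
    linarith
  · rw [Real.le_rpow_iff_log_le hn' hX0]
    show Real.log n ≤ (((⌊x⌋₊ : ℕ) : ℝ) / (N : ℝ) + 1 / (N : ℝ)) * Real.log X
    rw [← add_div, div_mul_eq_mul_div, le_div_iff₀ hN']
    have := mul_le_mul_of_nonneg_right h2.le hlX.le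
    linarith

lemma fmesh_cf_dvd {n : ℕ} (hn : 0 < n) : cf n ∣ n := by
  have h : cf n ∣ ∏ p ∈ n.primeFactors, p ^ n.factorization p :=
    Finset.prod_dvd_prod_of_subset _ _ _ (Finset.filter_subset _ _)
  have h2 : ∏ p ∈ n.primeFactors, p ^ n.factorization p = n :=
    Nat.prod_factorization_pow_eq_self hn.ne'
  rwa [h2] at h

lemma fmesh_cf_le {n : ℕ} (hn : 0 < n) : cf n ≤ n := Nat.le_of_dvd hn (fmesh_cf_dvd hn)

/-- The index type of the classes. -/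
abbrev FmeshIdx (N : ℕ) : Type :=
  (Fin 1001 → Fin (N + 1)) × (Fin 1001 → Fin (N + 1)) × (Fin 9 → Fin (N + 1))

/-- The exponent of an index. -/
noncomputable def fmesh_val (N : ℕ) (k : Fin (N + 1)) : ℝ := ((k : ℕ) : ℝ) / (N : ℝ)

/-- The exponents of the classes. -/
noncomputable def fmesh_seq (N : ℕ) (f : Fin 1001 → Fin (N + 1)) (e : ℕ) : ℝ :=
  if h : e < 1001 then fmesh_val N (f ⟨e, h⟩) else 0

/-- The class of an index. -/
noncomputable def fmesh_ex (N : ℕ) (i : FmeshIdx N) : Ex where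
  a := fmesh_seq N i.1
  b := fmesh_seq N i.2.1
  u := fmesh_val N (i.2.2 0)
  v := fmesh_val N (i.2.2 1)
  ρ := fmesh_val N (i.2.2 2)
  R := fmesh_val N (i.2.2 3)
  r1 := fmesh_val N (i.2.2 4)
  r2 := fmesh_val N (i.2.2 5)
  s := fmesh_val N (i.2.2 6)
  c := fmesh_val N (i.2.2 7)
  w := fmesh_val N (i.2.2 8)

lemma fmesh_val_nonneg (N : ℕ) (k : Fin (N + 1)) : 0 ≤ fmesh_val N k := by
  unfold fmesh_val; positivity

lemma fmesh_seq_nonneg (N : ℕ) (f : Fin 1001 → Fin (N + 1)) (e : ℕ) : 0 ≤ fmesh_seq N f e := by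
  unfold fmesh_seq
  split_ifs
  · exact fmesh_val_nonneg _ _
  · exact le_rfl

lemma fmesh_nn (N : ℕ) (i : FmeshIdx N) : (fmesh_ex N i).Nn where
  a := fmesh_seq_nonneg N _
  b := fmesh_seq_nonneg N _
  u := fmesh_val_nonneg N _
  v := fmesh_val_nonneg N _
  ρ := fmesh_val_nonneg N _
  R := fmesh_val_nonneg N _
  r1 := fmesh_val_nonneg N _
  r2 := fmesh_val_nonneg N _
  s := fmesh_val_nonneg N _
  c := fmesh_val_nonneg N _
  w := fmesh_val_nonneg N _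

lemma fmesh_seq_bet {N X : ℕ} (hN : 0 < N) (hX : 2 ≤ X) (g : ℕ → ℕ)
    (hg : ∀ e, 0 < g e ∧ g e ≤ X) :
    ∃ f : Fin 1001 → Fin (N + 1), ∀ e ∈ Finset.Icc 1 1000,
      Bet X (1 / (N : ℝ)) (fmesh_seq N f e) (g e) := by
  choose f hf using fun e : Fin 1001 => fmesh_bet hN hX (hg e).1 (hg e).2
  refine ⟨f, fun e he => ?_⟩
  have he' : e < 1001 := by
    have := (Finset.mem_Icc.1 he).2
    omega
  unfold fmesh_seq
  rw [dif_pos he']
  exact hf ⟨e, he'⟩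

theorem fmesh_thm : FMeshStmt := by
  intro N hN
  refine ⟨Fintype.card (FmeshIdx N),
    fun k => fmesh_ex N ((Fintype.equivFin (FmeshIdx N)).symm k), fun k => fmesh_nn N _, ?_⟩
  intro X hX t ht
  have hp := ht.hp
  have hq := ht.hq
  have hr := ht.hr
  obtain ⟨fa, hfa⟩ := fmesh_seq_bet (N := N) hN hX (fun e => pc e t.1)
    (fun e => ⟨pc_pos _ _, (pc_le hp).trans ht.pX⟩)
  obtain ⟨fb, hfb⟩ := fmesh_seq_bet (N := N) hN hX (fun e => pc e t.2.1)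
    (fun e => ⟨pc_pos _ _, (pc_le hq).trans ht.qX⟩)
  obtain ⟨k0, h0⟩ := fmesh_bet (N := N) hN hX (rad_pos t.1) ((rad_le hp).trans ht.pX)
  obtain ⟨k1, h1⟩ := fmesh_bet (N := N) hN hX (rad_pos t.2.1) ((rad_le hq).trans ht.qX)
  obtain ⟨k2, h2⟩ := fmesh_bet (N := N) hN hX hr ht.rX
  obtain ⟨k3, h3⟩ := fmesh_bet (N := N) hN hX (rad_pos t.2.2) ((rad_le hr).trans ht.rX)
  obtain ⟨k4, h4⟩ := fmesh_bet (N := N) hN hX (pc_pos 1 t.2.2) ((pc_le hr).trans ht.rX)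
  obtain ⟨k5, h5⟩ := fmesh_bet (N := N) hN hX (pc_pos 2 t.2.2) ((pc_le hr).trans ht.rX)
  obtain ⟨k6, h6⟩ := fmesh_bet (N := N) hN hX (rad_pos (cf t.2.2))
    (((rad_le (cf_pos _)).trans (fmesh_cf_le hr)).trans ht.rX)
  obtain ⟨k7, h7⟩ := fmesh_bet (N := N) hN hX (cf_pos t.2.2) ((fmesh_cf_le hr).trans ht.rX)
  obtain ⟨k8, h8⟩ := fmesh_bet (N := N) hN hX (pc_pos 3 t.2.2) ((pc_le hr).trans ht.rX)
  obtain ⟨i, hi⟩ : ∃ i : FmeshIdx N, i = (fa, fb, ![k0, k1, k2, k3, k4, k5, k6, k7, k8]) :=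
    ⟨_, rfl⟩
  refine ⟨Fintype.equivFin (FmeshIdx N) i, ?_⟩
  show InC X (1 / (N : ℝ)) (fmesh_ex N ((Fintype.equivFin (FmeshIdx N)).symm
    (Fintype.equivFin (FmeshIdx N) i))) t
  rw [Equiv.symm_apply_apply, hi]
  exact
    { tri := ht
      a := hfa
      b := hfb
      u := h0
      v := h1
      ρ := h2
      R := h3
      r1 := h4
      r2 := h5
      s := h6
      c := h7
      w := h8 }

end Pool.Agent.Helper21.EN
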