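import Pool.Agent.Helper21.EN.FStmts
import Pool.Agent.Helper21.EN.Dec

set_option autoImplicit false

/-!
# Project EN, final piece FRAD

The statement is in EN/FStmts.lean. Paper: /team-store/EN_paper.md, section 8.

Proof. Everything from n = prod over p in n.primeFactors of p^(v_p(n)) and EN/Dec.lean (rest, rest_mul, rad_rest_mul, primeFactors_rest, prime_dvd_pc, pc_coprime, ...).
(1) With S = Icc 1 K: n = rest S n * prod_{e <= K} pc_e^e, rad n = rad (rest S n) prod pc_e, and (rad (rest S n))^(K+1) <= rest S n (all exponents of rest S n are > K); so rad^(K+1) <= rest S n prod pc_e^(K+1) = n prod pc_e^(K+1-e).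
(2) and (3): S = {1,2}: rest {1,2} n = cf n (the definition of cf: primes with exponent >= 3; for p in primeFactors the exponent is >= 1). (4) every prime of cf n has exponent >= 3 in cf n. (5) primes p with v_p(n) = 3 divide cf n. (6) from (2). (7) = (1) with K = 3.
-/

namespace Pool.Agent.Helper21.EN

open Finset

lemma frad_one_le {n p : ℕ} (hp : p ∈ n.primeFactors) : 1 ≤ n.factorization p := by
  rw [Nat.mem_primeFactors] at hp
  exact hp.1.factorization_pos_of_dvd hp.2.2 hp.2.1

/-- The radical of `rest S n` as a product. -/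
lemma frad_rad_rest (S : Finset ℕ) (n : ℕ) : rad (rest S n) =
    ∏ p ∈ n.primeFactors.filter (fun p => n.factorization p ∉ S), p := by
  unfold rad
  rw [primeFactors_rest]

/-- If all exponents outside `S` are at least `K + 1`. -/
lemma frad_rest_pow (S : Finset ℕ) (n K : ℕ) (hS : ∀ e, 1 ≤ e → e ≤ K → e ∈ S) :
    rad (rest S n) ^ (K + 1) ∣ rest S n := by
  rw [frad_rad_rest]
  unfold rest
  rw [← Finset.prod_pow]
  apply Finset.prod_dvd_prod_of_dvd
  intro p hp
  rw [Finset.mem_filter] at hp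
  apply pow_dvd_pow
  by_contra hlt
  push Not at hlt
  exact hp.2 (hS _ (frad_one_le hp.1) (by omega))

lemma frad_one (n K : ℕ) (hn : 0 < n) :
    rad n ^ (K + 1) ≤ n * ∏ e ∈ Finset.Icc 1 K, pc e n ^ (K + 1 - e) := by
  have h1 : rad (rest (Finset.Icc 1 K) n) ^ (K + 1) ≤ rest (Finset.Icc 1 K) n :=
    Nat.le_of_dvd (rest_pos _ _) (frad_rest_pow _ n K (fun e h1 h2 => Finset.mem_Icc.2 ⟨h1, h2⟩))
  calc rad n ^ (K + 1) = rad (rest (Finset.Icc 1 K) n) ^ (K + 1) *
        (∏ e ∈ Finset.Icc 1 K, pc e n) ^ (K + 1) := by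
        rw [← mul_pow, ← rad_rest_mul]
    _ ≤ rest (Finset.Icc 1 K) n * (∏ e ∈ Finset.Icc 1 K, pc e n) ^ (K + 1) :=
        Nat.mul_le_mul_right _ h1
    _ = rest (Finset.Icc 1 K) n * ((∏ e ∈ Finset.Icc 1 K, pc e n ^ e) *
        ∏ e ∈ Finset.Icc 1 K, pc e n ^ (K + 1 - e)) := by
        congr 1
        rw [← Finset.prod_mul_distrib, ← Finset.prod_pow]
        apply Finset.prod_congr rfl
        intro e he
        rw [Finset.mem_Icc] at he
        rw [← pow_add]
        congr 1
        omega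
    _ = n * ∏ e ∈ Finset.Icc 1 K, pc e n ^ (K + 1 - e) := by
        rw [← mul_assoc, ← rest_mul hn]

/-- The cubefull part is `rest {1, 2}`. -/
lemma frad_cf (n : ℕ) : cf n = rest {1, 2} n := by
  unfold cf rest
  have : n.primeFactors.filter (fun p => 3 ≤ n.factorization p) =
      n.primeFactors.filter (fun p => n.factorization p ∉ ({1, 2} : Finset ℕ)) := by
    apply Finset.filter_congr
    intro p hp
    have := frad_one_le hp
    simp only [Finset.mem_insert, Finset.mem_singleton]
    omega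
  rw [this]

lemma frad_two (n : ℕ) (hn : 0 < n) : n = pc 1 n * pc 2 n ^ 2 * cf n := by
  have h := rest_mul hn {1, 2}
  rw [Finset.prod_pair (by norm_num), pow_one, ← frad_cf] at h
  rw [mul_comm]
  exact h

lemma frad_three (n : ℕ) : rad n = pc 1 n * pc 2 n * rad (cf n) := by
  have h := rad_rest_mul {1, 2} n
  rw [Finset.prod_pair (by norm_num), ← frad_cf] at h
  rw [mul_comm]
  exact h

lemma frad_four (n : ℕ) : rad (cf n) ^ 3 ≤ cf n := by
  rw [frad_cf]
  apply Nat.le_of_dvd (rest_pos _ _)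
  apply frad_rest_pow
  intro e h1 h2
  simp only [Finset.mem_insert, Finset.mem_singleton]
  omega

lemma frad_five (n : ℕ) : pc 3 n ∣ rad (cf n) := by
  rw [frad_cf, frad_rad_rest]
  unfold pc
  apply Finset.prod_dvd_prod_of_subset
  intro p hp
  rw [Finset.mem_filter] at hp ⊢
  refine ⟨hp.1, ?_⟩
  rw [hp.2]
  decide

lemma frad_seven (n : ℕ) (hn : 0 < n) :
    (rad n) ^ 4 ≤ n * (pc 1 n ^ 3 * pc 2 n ^ 2 * pc 3 n) := by
  have h := frad_one n 3 hn
  have h2 : ∏ e ∈ Finset.Icc 1 3, pc e n ^ (3 + 1 - e) =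
      pc 1 n ^ 3 * pc 2 n ^ 2 * pc 3 n := by
    rw [show Finset.Icc 1 3 = ({1, 2, 3} : Finset ℕ) by decide]
    rw [Finset.prod_insert (by decide), Finset.prod_pair (by decide)]
    norm_num
    ring
  rw [h2] at h
  exact h

theorem frad_thm : FRADStmt :=
  ⟨fun n K hn => frad_one n K hn, fun n hn => frad_two n hn, fun n _ => frad_three n,
    fun n _ => frad_four n, fun n _ => frad_five n,
    fun n hn => ⟨pc 1 n * pc 2 n ^ 2, by rw [mul_comm]; exact frad_two n hn⟩,
    fun n hn => frad_seven n hn⟩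

end Pool.Agent.Helper21.EN
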