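import Pool.Agent.Helper21.EN.FStmts
import Pool.Agent.Helper1.SR.Fin

set_option autoImplicit false

namespace Pool.Agent.Helper21.EN

open Finset

theorem fsr_thm : FSRStmt := by
  classical
  obtain ⟨C, hC⟩ := Pool.Agent.Helper1.SR.count_all
  refine ⟨max C 0, ?_⟩
  intro X S hX hS
  have h := hC (1 / 100) (by norm_num) X
  have hX1 : (1 : ℝ) ≤ X := by exact_mod_cast hX
  refine le_trans ?_ (le_trans h ?_)
  · have hsub : S ⊆ ((Icc 1 X ×ˢ Icc 1 X).filter (fun t : ℕ × ℕ =>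
      t.1.Coprime t.2 ∧ t.1 + t.2 ≤ X ∧
        ((∏ p ∈ (t.1 * t.2 * (t.1 + t.2)).primeFactors, p : ℕ) : ℝ) ≤
          ((t.1 + t.2 : ℕ) : ℝ) ^ (1001 / 1000 : ℝ) ∧
        (((∏ p ∈ t.1.primeFactors, p : ℕ) : ℝ) ≤ ((t.1 + t.2 : ℕ) : ℝ) ^ (1 / 100 : ℝ) ∨
          ((∏ p ∈ t.2.primeFactors, p : ℕ) : ℝ) ≤ ((t.1 + t.2 : ℕ) : ℝ) ^ (1 / 100 : ℝ) ∨
          ((∏ p ∈ (t.1 + t.2).primeFactors, p : ℕ) : ℝ) ≤
            ((t.1 + t.2 : ℕ) : ℝ) ^ (1 / 100 : ℝ)))) := by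
      intro s hs
      obtain ⟨h1, h2, h3, h4, h5, h6⟩ := hS s hs
      rw [Finset.mem_filter, Finset.mem_product, Finset.mem_Icc, Finset.mem_Icc]
      exact ⟨⟨⟨h1, by omega⟩, ⟨h2, by omega⟩⟩, h3, h4, h5, h6⟩
    have := Finset.card_le_card hsub
    exact_mod_cast this
  · have h1 : (X : ℝ) ^ (43 / 100 + 6 / 5 * (1 / 100) : ℝ) ≤ (X : ℝ) ^ (45 / 100 : ℝ) :=
      Real.rpow_le_rpow_of_exponent_le hX1 (by norm_num)
    have h2 : 0 ≤ (X : ℝ) ^ (43 / 100 + 6 / 5 * (1 / 100) : ℝ) := by positivity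
    calc C * (X : ℝ) ^ (43 / 100 + 6 / 5 * (1 / 100) : ℝ)
        ≤ max C 0 * (X : ℝ) ^ (43 / 100 + 6 / 5 * (1 / 100) : ℝ) :=
          mul_le_mul_of_nonneg_right (le_max_left _ _) h2
      _ ≤ max C 0 * (X : ℝ) ^ (45 / 100 : ℝ) :=
          mul_le_mul_of_nonneg_left h1 (le_max_right _ _)

end Pool.Agent.Helper21.EN
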