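import Pool.Agent.Helper21.EN.FStmts

set_option autoImplicit false

/-!
# Project EN, final piece FSel

Paper: /team-store/EN_paper.md, section 8. Four successive maxima over the nonzero indices.
-/

namespace Pool.Agent.Helper21.EN

open Finset

theorem fsel_max (c : Fin 9 → ℝ) (s : Finset (Fin 9)) (h : 0 < s.card) :
    ∃ i ∈ s, ∀ l ∈ s, c l ≤ c i :=
  Finset.exists_max_image s c (Finset.card_pos.mp h)

theorem fsel_thm : FSelStmt := by
  intro c hc hc0 hsum
  -- successive maxima
  have hcard0 : ((Finset.univ : Finset (Fin 9)).erase 0).card = 8 := by simp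
  obtain ⟨i, hi, himax⟩ := fsel_max c ((Finset.univ : Finset (Fin 9)).erase 0) (by omega)
  have hcard1 : (((Finset.univ : Finset (Fin 9)).erase 0).erase i).card = 7 := by
    rw [Finset.card_erase_of_mem hi]; omega
  obtain ⟨j, hj, hjmax⟩ := fsel_max c (((Finset.univ : Finset (Fin 9)).erase 0).erase i)
    (by omega)
  have hcard2 : ((((Finset.univ : Finset (Fin 9)).erase 0).erase i).erase j).card = 6 := by
    rw [Finset.card_erase_of_mem hj]; omega
  obtain ⟨k, hk, hkmax⟩ := fsel_max c ((((Finset.univ : Finset (Fin 9)).erase 0).erase i).erase j)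
    (by omega)
  have hcard3 : (((((Finset.univ : Finset (Fin 9)).erase 0).erase i).erase j).erase k).card = 5 := by
    rw [Finset.card_erase_of_mem hk]; omega
  obtain ⟨n, hn, hnmax⟩ := fsel_max c
    (((((Finset.univ : Finset (Fin 9)).erase 0).erase i).erase j).erase k) (by omega)
  simp only [Finset.mem_erase, Finset.mem_univ, and_true, ne_eq, and_imp] at hi hj hk hn himax hjmax hkmax hnmax
  have hi0 : i ≠ 0 := hi
  have hji : j ≠ i := hj.1
  have hj0 : j ≠ 0 := hj.2
  have hkj : k ≠ j := hk.1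
  have hki : k ≠ i := hk.2.1
  have hk0 : k ≠ 0 := hk.2.2
  have hnk : n ≠ k := hn.1
  have hnj : n ≠ j := hn.2.1
  have hni : n ≠ i := hn.2.2.1
  have hn0 : n ≠ 0 := hn.2.2.2
  have hcji : c j ≤ c i := himax j hj0
  have hckj : c k ≤ c j := hjmax k hki hk0
  have hcnk : c n ≤ c k := hkmax n hnj hni hn0
  -- weights
  have hw : ∀ l : Fin 9, l ≠ 0 → 1 ≤ (9 - ((l : ℕ) : ℝ)) ∧ (9 - ((l : ℕ) : ℝ)) ≤ 8 := by
    intro l hl
    have h1 : (l : ℕ) ≠ 0 := by
      intro h
      exact hl (Fin.ext h)
    have h2 : 1 ≤ (l : ℕ) := Nat.one_le_iff_ne_zero.mpr h1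
    have h3 : (l : ℕ) ≤ 8 := by omega
    have h2' : (1 : ℝ) ≤ ((l : ℕ) : ℝ) := by exact_mod_cast h2
    have h3' : ((l : ℕ) : ℝ) ≤ 8 := by exact_mod_cast h3
    constructor <;> linarith
  -- bound with c i
  have hA : ∑ l : Fin 9, (9 - ((l : ℕ) : ℝ)) * c l ≤ 36 * c i := by
    have hle : ∀ l : Fin 9, (9 - ((l : ℕ) : ℝ)) * c l ≤
        (if l = 0 then 0 else (9 - ((l : ℕ) : ℝ)) * c i) := by
      intro l
      split_ifs with hl
      · subst hl; rw [hc0]; simp
      · exact mul_le_mul_of_nonneg_left (himax l hl) (by linarith [(hw l hl).1])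
    refine (Finset.sum_le_sum (fun l _ => hle l)).trans (le_of_eq ?_)
    simp only [Fin.sum_univ_succ, Finset.univ_eq_empty, Finset.sum_empty]
    simp [Fin.ext_iff]
    ring
  -- bound with the four
  have hB : ∑ l : Fin 9, (9 - ((l : ℕ) : ℝ)) * c l ≤ 36 * c n +
      8 * ((c i - c n) + (c j - c n) + (c k - c n)) := by
    have hle : ∀ l : Fin 9, (9 - ((l : ℕ) : ℝ)) * c l ≤
        (if l = 0 then 0 else (9 - ((l : ℕ) : ℝ)) * c n) +
        ((if l = i then 8 * (c i - c n) else 0) + (if l = j then 8 * (c j - c n) else 0) +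
          (if l = k then 8 * (c k - c n) else 0)) := by
      intro l
      by_cases hl : l = 0
      · subst hl
        rw [if_pos rfl, if_neg (Ne.symm hi0), if_neg (Ne.symm hj0), if_neg (Ne.symm hk0), hc0]
        simp
      · rw [if_neg hl]
        obtain ⟨w1, w2⟩ := hw l hl
        by_cases h1 : l = i
        · subst h1
          rw [if_pos rfl, if_neg (Ne.symm hji), if_neg (Ne.symm hki)]
          nlinarith [mul_nonneg (sub_nonneg.mpr w2) (sub_nonneg.mpr (hcnk.trans (hckj.trans hcji)))]
        · by_cases h2 : l = j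
          · subst h2
            rw [if_neg h1, if_pos rfl, if_neg (Ne.symm hkj)]
            nlinarith [mul_nonneg (sub_nonneg.mpr w2) (sub_nonneg.mpr (hcnk.trans hckj))]
          · by_cases h3 : l = k
            · subst h3
              rw [if_neg h1, if_neg h2, if_pos rfl]
              nlinarith [mul_nonneg (sub_nonneg.mpr w2) (sub_nonneg.mpr hcnk)]
            · rw [if_neg h1, if_neg h2, if_neg h3]
              have := hnmax l h3 h2 h1 hl
              nlinarith [mul_le_mul_of_nonneg_left this (by linarith : (0:ℝ) ≤ 9 - ((l : ℕ) : ℝ))]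
    refine (Finset.sum_le_sum (fun l _ => hle l)).trans (le_of_eq ?_)
    rw [Finset.sum_add_distrib, Finset.sum_add_distrib, Finset.sum_add_distrib]
    rw [Finset.sum_ite_eq' , Finset.sum_ite_eq', Finset.sum_ite_eq']
    simp only [Finset.mem_univ, if_true]
    have h36 : ∑ l : Fin 9, (if l = 0 then 0 else (9 - ((l : ℕ) : ℝ)) * c n) = 36 * c n := by
      simp only [Fin.sum_univ_succ, Finset.univ_eq_empty, Finset.sum_empty]
      simp [Fin.ext_iff]
      ring
    rw [h36]
    ring
  have hn_nonneg := hc n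
  refine ⟨i, j, k, n, hi0, hj0, hk0, hn0, Ne.symm hji, Ne.symm hki, Ne.symm hni, Ne.symm hkj,
    Ne.symm hnj, Ne.symm hnk, hcji, hckj, hcnk, ?_, ?_⟩
  · have := hsum.trans hB
    linarith
  · have := hsum.trans hA
    linarith

end Pool.Agent.Helper21.EN
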