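import Pool.Agent.Helper21.EN.FStmts
import Pool.Agent.Helper21.EN.Dec

set_option autoImplicit false

/-!
# Project EN, final piece FTriv

Replace the sorry. The statement is in EN/FStmts.lean. Paper: /team-store/EN_paper.md, section 8.

Proof. Case R <= 1/2 - 4h: the map t -> (r, 1) is injective on TT (CT.inj), rad r * rad 1 <= X^(R+h): hrp with eps = h and Y = X^(R+h) >= 1: at most C X^(R+2h) <= C X^(1/2-h). Case u + v <= 1/2 - 4h: t -> (p,q) has fibres of size at most 2 (r = p+q or r = |p-q| by Tri.rel), rad p rad q <= X^(u+v+2h): hrp with eps = h: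
at most 2 C X^(u+v+3h) <= 2 C X^(1/2-h). (Take the constant of hrp, it does not depend on X.)
-/

namespace Pool.Agent.Helper21.EN

open Finset

private lemma ftriv_rad_one : rad 1 = 1 := by
  unfold rad
  simp

private lemma ftriv_r {X p q r : ℕ} (h : Tri X p q r) : r = p + q ∨ r = (p - q) + (q - p) := by
  rcases h.rel with h1 | h1 | h1 <;> omega

theorem ftriv_thm (hrp : RPStmt) : FTrivStmt := by
  classical
  intro h θ hh0 hh1 hnn hcase
  obtain ⟨C, hC1, hC⟩ := hrp h hh0
  rcases hcase with hR | hW
  · refine ⟨C, fun X TT hX hT => ?_⟩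
    have hX1 : (1 : ℝ) ≤ (X : ℝ) := by exact_mod_cast (by omega : 1 ≤ X)
    have hX0 : (0 : ℝ) < (X : ℝ) := by linarith
    have hY : (1 : ℝ) ≤ (X : ℝ) ^ (θ.R + h) :=
      Real.one_le_rpow hX1 (by have := hnn.R; linarith)
    have hcard : (TT.image fun t => (t.2.2, 1)).card = TT.card := by
      apply Finset.card_image_of_injOn
      intro t ht t' ht' he
      simp only [Prod.mk.injEq, and_true] at he
      exact hT.inj t ht t' ht' he
    have hb := hC X ((X : ℝ) ^ (θ.R + h)) (TT.image fun t => (t.2.2, 1)) (by omega) hY (by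
      intro s hs
      obtain ⟨t, ht, rfl⟩ := Finset.mem_image.1 hs
      have htm := hT.mem t ht
      refine ⟨htm.tri.hr, htm.tri.rX, Nat.one_pos, by omega, ?_⟩
      simp only [ftriv_rad_one, Nat.cast_one, mul_one]
      exact htm.R.2)
    rw [hcard] at hb
    refine hb.trans ?_
    rw [mul_assoc, ← Real.rpow_add hX0]
    refine mul_le_mul_of_nonneg_left (Real.rpow_le_rpow_of_exponent_le hX1 (by linarith))
      (by linarith)
  · refine ⟨2 * C, fun X TT hX hT => ?_⟩
    have hX1 : (1 : ℝ) ≤ (X : ℝ) := by exact_mod_cast (by omega : 1 ≤ X)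
    have hX0 : (0 : ℝ) < (X : ℝ) := by linarith
    have hY : (1 : ℝ) ≤ (X : ℝ) ^ (θ.u + θ.v + 2 * h) :=
      Real.one_le_rpow hX1 (by have := hnn.u; have := hnn.v; linarith)
    have hb := hC X ((X : ℝ) ^ (θ.u + θ.v + 2 * h)) (TT.image fun t => (t.1, t.2.1))
      (by omega) hY (by
      intro s hs
      obtain ⟨t, ht, rfl⟩ := Finset.mem_image.1 hs
      have htm := hT.mem t ht
      refine ⟨htm.tri.hp, htm.tri.pX, htm.tri.hq, htm.tri.qX, ?_⟩
      have e : (X : ℝ) ^ (θ.u + θ.v + 2 * h) = (X : ℝ) ^ (θ.u + h) * (X : ℝ) ^ (θ.v + h) := by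
        rw [← Real.rpow_add hX0]
        congr 1
        ring
      rw [e]
      exact mul_le_mul htm.u.2 htm.v.2 (Nat.cast_nonneg _) (Real.rpow_nonneg hX0.le _))
    have hcard : TT.card ≤ (TT.image fun t => (t.1, t.2.1)).card * 2 := by
      have h1 : TT.card ≤ ((TT.image fun t => (t.1, t.2.1)) ×ˢ (Finset.univ : Finset Bool)).card := by
        refine Finset.card_le_card_of_injOn
          (fun t => ((t.1, t.2.1), decide (t.2.2 = t.1 + t.2.1))) ?_ ?_
        · intro t ht
          simp only [Finset.coe_product, Set.mem_prod, Finset.mem_coe, Finset.mem_univ, and_true]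
          exact Finset.mem_image_of_mem _ ht
        · intro t ht t' ht' he
          simp only [Prod.mk.injEq, decide_eq_decide] at he
          obtain ⟨⟨h1, h2⟩, h3⟩ := he
          have ha := ftriv_r (hT.mem t ht).tri
          have hb' := ftriv_r (hT.mem t' ht').tri
          have hr : t.2.2 = t'.2.2 := by
            by_cases hc : t.2.2 = t.1 + t.2.1
            · have := h3.1 hc
              rw [hc, this, h1, h2]
            · have hc' : ¬ t'.2.2 = t'.1 + t'.2.1 := fun hx => hc (h3.2 hx)
              rcases ha with ha | ha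
              · exact absurd ha hc
              · rcases hb' with hb' | hb'
                · exact absurd hb' hc'
                · rw [ha, hb', h1, h2]
          exact hT.inj t ht t' ht' hr
      simpa [Finset.card_product] using h1
    have hcard' : (TT.card : ℝ) ≤ ((TT.image fun t => (t.1, t.2.1)).card : ℝ) * 2 := by
      exact_mod_cast hcard
    calc (TT.card : ℝ) ≤ ((TT.image fun t => (t.1, t.2.1)).card : ℝ) * 2 := hcard'
      _ ≤ (C * (X : ℝ) ^ h * (X : ℝ) ^ (θ.u + θ.v + 2 * h)) * 2 :=
          mul_le_mul_of_nonneg_right hb (by norm_num)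
      _ = 2 * C * (X : ℝ) ^ (h + (θ.u + θ.v + 2 * h)) := by
          rw [Real.rpow_add hX0 h (θ.u + θ.v + 2 * h)]
          ring
      _ ≤ 2 * C * (X : ℝ) ^ (1 / 2 - h) :=
          mul_le_mul_of_nonneg_left (Real.rpow_le_rpow_of_exponent_le hX1 (by linarith))
            (by linarith)

end Pool.Agent.Helper21.EN
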