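import Pool.Agent.Helper21.EN.Stmts

set_option autoImplicit false

/-!
# Project EN, piece G

The statement is in EN/Stmts.lean. Paper: /team-store/EN_paper.md.

Proof (see also EN_paper.md section 6 (G)). It suffices to treat one pair (e,f) (finitely many: take minima of mu, eta, delta and the maximum of C; smaller mu, eta only weaken the statement). Let delta2, C2 be the S2 constants for sigma = 1/4, eta = 1/4. Let tau > 0 be small (tau = delta2/10^4 or so),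
mu = eta = tau (or smaller), kappa = C w^eps, eps small (eps = tau/100), delta = tau. Suppose |S| > w^(-delta) V^2 V'^2 >= w^(2 - 5 tau), w large. We write s = (((a,b),(x,y)),((a',b'),(x',y'))).
(1) gcd(ab', a'b) <= V^2/w^(1-eta) <= w^(eta+2mu) and the same for gcd(xy', x'y) (height hypothesis).
(2) For given (a,b,a',b') at most w^(O(tau)) quadruples (x,y,x',y'): the reduced form of xy'/(x'y) has height <= w^(1+2mu) and its f-th power is determined modulo w^3: at most kappa (1 + w^(2+4mu)/w^3) <= 2 kappa (Kap.dir), gcd <= w^(eta+2mu) choices, then divisors (Kap.div).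
    So the set A of the (a,b,a',b') occurring has |A| >= w^(2-c1), c1 = O(tau) (choose one partner (x,y,x',y') for each element of A).
(3) Cauchy-Schwarz over (b,a',b') (at most V^3 <= w^(3/2+3mu)): #{(a,a*;b,a',b')} >= |A|^2/w^(3/2+3mu) >= w^(5/2-c2'). There are at most V^2 <= w^(1+2mu) pairs (a,a*) and each has at most w^(3/2+3mu) common (b,a',b'), so at least w^(1-c2) pairs have at least w^(3/2-c2) common (b,a',b').
(4) For such a pair and a common (b,a',b') with partners (x,y,x',y') for a and (X,Y,X',Y') for a*: n = x'y X Y', l = x y' X' Y satisfy (n/l)^f = (a/a*)^e modulo w^3, n,l <= V'^4 <= w^(2+4mu). (n,l) comes from at most w^(O(tau)) triples (b,a',b'):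
    divisors give (x,y,x',y'); then (ab'/(a'b))^e is determined modulo w^3, its reduced form has height <= w^(1+2mu): 2 kappa choices, gcd <= w^(eta+2mu) choices, then divisors give b', a', b. So at least w^(3/2-c3) different (n,l).
(5) Reduced forms of height in [H,2H): at most kappa (1 + 4H^2/w^3), each with at most w^(2+4mu)/H multiples. So the (n,l) with reduced height >= H0 = w^(1/2+c4) are at most kappa log (w^(2+4mu)/H0 + 4 w^(4+8mu)/w^3) < w^(3/2-c3): some (n,l) has reduced height < H0.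
(6) So for at least w^(1-c2) pairs (a,a*) there is a coprime pair (r,s), r,s <= w^(1/2+c4), coprime to w, with (r/s)^f = (a/a*)^e. Pairs with gcd(a,a*) > w^(c5'): at most 2 V^2/w^(c5'); the others map to reduced fractions with multiplicity at most w^(c5'), so at least w^(1-c5) elements
    ((alpha,alpha*),(s,r)) of Two e f w V2 V2 with V2 = w^(1/2+c5): alpha^e s^f = alpha*^e r^f. S2: <= C2 w^(1+2c5-delta2) < w^(1-c5): contradiction when c5 < delta2/4 and w large. (c1..c5 are absolute multiples of tau. Small w: |S| <= V^4V'^4 <= constant.)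
-/

namespace Pool.Agent.Helper21.EN

open Finset

lemma g_img {α β : Type*} [DecidableEq β] (s : Finset α) (f : α → β) (B : ℝ)
    (h : ∀ a ∈ s, (((s.filter (fun x => f x = f a)).card : ℕ) : ℝ) ≤ B) :
    (s.card : ℝ) ≤ B * ((s.image f).card : ℝ) := by
  have h1 := Finset.card_eq_sum_card_image f s
  rw [h1]
  push_cast
  calc _ ≤ ∑ b ∈ s.image f, B := by
        refine Finset.sum_le_sum (fun b hb => ?_)
        obtain ⟨a, ha, rfl⟩ := Finset.mem_image.mp hb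
        exact h a ha
    _ = _ := by simp [mul_comm]

lemma g_inv {w : ℕ} (u : ℕ) (hu : Nat.Coprime u w) :
    ∃ v : ℕ, Nat.Coprime v w ∧ u * v ≡ 1 [MOD w ^ 3] := by
  have h1 : Nat.Coprime u (w ^ 3) := Nat.Coprime.pow_right 3 hu
  obtain ⟨y, hy⟩ := Int.mod_coprime h1
  rcases Nat.eq_zero_or_pos w with h0 | h0
  · subst h0
    have : u = 1 := by simpa using hu
    exact ⟨1, by simp, by subst this; rfl⟩
  · have hm : 0 < w ^ 3 := by positivity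
    refine ⟨(y % (w ^ 3 : ℕ)).toNat, ?_, ?_⟩
    · have h2 : (((y % (w ^ 3 : ℕ)).toNat : ℕ) : ℤ) = y % (w ^ 3 : ℕ) :=
        Int.toNat_of_nonneg (Int.emod_nonneg _ (by positivity))
      have h3 : (u : ℤ) * (((y % (w ^ 3 : ℕ)).toNat : ℕ) : ℤ) ≡ 1 [ZMOD ((w ^ 3 : ℕ) : ℤ)] := by
        rw [h2]
        exact (Int.ModEq.mul_left _ (Int.mod_modEq _ _)).trans hy
      have h4 : u * (y % (w ^ 3 : ℕ)).toNat ≡ 1 [MOD w ^ 3] := by
        rw [← Int.natCast_modEq_iff]; push_cast at h3 ⊢; exact h3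
      have h5 : Nat.Coprime (u * (y % (w ^ 3 : ℕ)).toNat) (w ^ 3) := by
        have := h4.gcd_eq
        rw [Nat.Coprime, this]; simp
      exact Nat.Coprime.coprime_dvd_right (Dvd.intro_left (w ^ 2) (by ring)) h5.coprime_mul_left
    · have h2 : (((y % (w ^ 3 : ℕ)).toNat : ℕ) : ℤ) = y % (w ^ 3 : ℕ) :=
        Int.toNat_of_nonneg (Int.emod_nonneg _ (by positivity))
      have h3 : (u : ℤ) * (((y % (w ^ 3 : ℕ)).toNat : ℕ) : ℤ) ≡ 1 [ZMOD ((w ^ 3 : ℕ) : ℤ)] := by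
        rw [h2]
        exact (Int.ModEq.mul_left _ (Int.mod_modEq _ _)).trans hy
      rw [← Int.natCast_modEq_iff]; push_cast at h3 ⊢; exact h3

/-- Solving `A X ≡ B Y` for `X`. -/
lemma g_solve {w A B X Y v : ℕ} (h : A * X ≡ B * Y [MOD w ^ 3]) (hv : A * v ≡ 1 [MOD w ^ 3]) :
    X ≡ (v * B) * Y [MOD w ^ 3] := by
  have h1 : v * (A * X) ≡ v * (B * Y) [MOD w ^ 3] := Nat.ModEq.mul_left _ h
  have h2 : (A * v) * X ≡ 1 * X [MOD w ^ 3] := Nat.ModEq.mul_right _ hv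
  calc X = 1 * X := (one_mul _).symm
    _ ≡ (A * v) * X [MOD w ^ 3] := h2.symm
    _ = v * (A * X) := by ring
    _ ≡ v * (B * Y) [MOD w ^ 3] := h1
    _ = (v * B) * Y := by ring

lemma g_cancel {w g A X B Y : ℕ} (hg : Nat.Coprime g w) (h : g * A * X ≡ g * B * Y [MOD w ^ 3]) :
    A * X ≡ B * Y [MOD w ^ 3] := by
  have h1 : Nat.Coprime (w ^ 3) g := (Nat.Coprime.pow_right 3 hg).symm
  rw [mul_assoc, mul_assoc] at h
  exact Nat.ModEq.cancel_left_of_coprime h1 h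

/-- Reduced forms: the facts used. -/
lemma g_red {w n l j c : ℕ} (hn : 0 < n) (hl : 0 < l) (hnw : Nat.Coprime n w)
    (hlw : Nat.Coprime l w) (h : n ^ j ≡ c * l ^ j [MOD w ^ 3]) :
    0 < n / Nat.gcd n l ∧ 0 < l / Nat.gcd n l ∧
    Nat.Coprime (n / Nat.gcd n l) (l / Nat.gcd n l) ∧
    Nat.Coprime (n / Nat.gcd n l) w ∧ Nat.Coprime (l / Nat.gcd n l) w ∧
    (n / Nat.gcd n l) ^ j ≡ c * (l / Nat.gcd n l) ^ j [MOD w ^ 3] := by
  have hg : 0 < Nat.gcd n l := Nat.gcd_pos_of_pos_left _ hn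
  have hgn := Nat.gcd_dvd_left n l
  have hgl := Nat.gcd_dvd_right n l
  have e1 : Nat.gcd n l * (n / Nat.gcd n l) = n := Nat.mul_div_cancel' hgn
  have e2 : Nat.gcd n l * (l / Nat.gcd n l) = l := Nat.mul_div_cancel' hgl
  have hgw : Nat.Coprime (Nat.gcd n l) w := Nat.Coprime.coprime_dvd_left hgn hnw
  refine ⟨Nat.div_pos (Nat.le_of_dvd hn hgn) hg, Nat.div_pos (Nat.le_of_dvd hl hgl) hg,
    Nat.coprime_div_gcd_div_gcd hg, ?_, ?_, ?_⟩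
  · exact Nat.Coprime.coprime_dvd_left (Dvd.intro_left _ e1) hnw
  · exact Nat.Coprime.coprime_dvd_left (Dvd.intro_left _ e2) hlw
  · have h1 : Nat.Coprime (w ^ 3) ((Nat.gcd n l) ^ j) :=
      (Nat.Coprime.pow_right 3 (Nat.Coprime.pow_left j hgw)).symm
    apply Nat.ModEq.cancel_left_of_coprime h1
    calc (Nat.gcd n l) ^ j * (n / Nat.gcd n l) ^ j = n ^ j := by rw [← mul_pow, e1]
      _ ≡ c * l ^ j [MOD w ^ 3] := h
      _ = c * ((Nat.gcd n l) ^ j * (l / Nat.gcd n l) ^ j) := by rw [← mul_pow, e2]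
      _ = _ := by ring

open scoped Classical in
/-- Quadruples with a given value: the reduced form, the gcd and the divisors. -/
lemma g_fib {w : ℕ} {κ : ℝ} (hw : 0 < w) (hK : Kap w κ) {j : ℕ} (hj : 1 ≤ j) (hj8 : j ≤ 8)
    {c : ℕ} (hc : Nat.Coprime c w) {N G : ℝ} (hN : 1 ≤ N) (hNw : N ≤ (w : ℝ) ^ 12) (hG : 0 ≤ G)
    (Z : Finset ((ℕ × ℕ) × (ℕ × ℕ)))
    (hZ : ∀ z ∈ Z, (0 < z.1.1 ∧ 0 < z.1.2 ∧ 0 < z.2.1 ∧ 0 < z.2.2) ∧ (Nat.Coprime z.1.1 w ∧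
      Nat.Coprime z.1.2 w ∧ Nat.Coprime z.2.1 w ∧ Nat.Coprime z.2.2 w) ∧
      ((z.1.1 * z.2.2 : ℕ) : ℝ) ≤ N ∧ ((z.2.1 * z.1.2 : ℕ) : ℝ) ≤ N ∧
      ((Nat.gcd (z.1.1 * z.2.2) (z.2.1 * z.1.2) : ℕ) : ℝ) ≤ G ∧
      (z.1.1 * z.2.2) ^ j ≡ c * (z.2.1 * z.1.2) ^ j [MOD w ^ 3]) :
    (Z.card : ℝ) ≤ κ ^ 3 * G * (1 + N * N / (w : ℝ) ^ 3) := by
  have hκ := hK.one
  have hw1 : (1 : ℝ) ≤ (w : ℝ) := by exact_mod_cast hw
  set n : (ℕ × ℕ) × (ℕ × ℕ) → ℕ := fun z => z.1.1 * z.2.2 with hn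
  set l : (ℕ × ℕ) × (ℕ × ℕ) → ℕ := fun z => z.2.1 * z.1.2 with hl
  set rd : (ℕ × ℕ) × (ℕ × ℕ) → ℕ × ℕ :=
    fun z => (n z / Nat.gcd (n z) (l z), l z / Nat.gcd (n z) (l z)) with hrd
  set F : (ℕ × ℕ) × (ℕ × ℕ) → (ℕ × ℕ) × ℕ := fun z => (rd z, Nat.gcd (n z) (l z)) with hF
  have npos : ∀ z ∈ Z, 0 < n z := fun z hz => Nat.mul_pos (hZ z hz).1.1 (hZ z hz).1.2.2.2
  have lpos : ∀ z ∈ Z, 0 < l z := fun z hz => Nat.mul_pos (hZ z hz).1.2.2.1 (hZ z hz).1.2.1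
  have ncop : ∀ z ∈ Z, Nat.Coprime (n z) w := fun z hz =>
    Nat.Coprime.mul_left (hZ z hz).2.1.1 (hZ z hz).2.1.2.2.2
  have lcop : ∀ z ∈ Z, Nat.Coprime (l z) w := fun z hz =>
    Nat.Coprime.mul_left (hZ z hz).2.1.2.2.1 (hZ z hz).2.1.2.1
  have hD : ((Z.image rd).card : ℝ) ≤ κ * (1 + N * N / (w : ℝ) ^ 3) := by
    apply hK.dir j hj hj8 c hc N N hN hN hNw hNw
    intro s hs
    obtain ⟨z, hz, rfl⟩ := Finset.mem_image.mp hs
    obtain ⟨h1, h2, h3, h4, h5, h6⟩ := g_red (npos z hz) (lpos z hz) (ncop z hz) (lcop z hz)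
      (hZ z hz).2.2.2.2.2
    refine ⟨h1, h2, ?_, ?_, h3, h4, h5, h6⟩
    · exact le_trans (by exact_mod_cast Nat.div_le_self _ _) (hZ z hz).2.2.1
    · exact le_trans (by exact_mod_cast Nat.div_le_self _ _) (hZ z hz).2.2.2.1
  have hI : ((Z.image F).card : ℝ) ≤ κ * (1 + N * N / (w : ℝ) ^ 3) * G := by
    have h1 : Z.image F ⊆ (Z.image rd) ×ˢ (Finset.Icc 1 ⌊G⌋₊) := by
      intro s hs
      obtain ⟨z, hz, rfl⟩ := Finset.mem_image.mp hs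
      rw [Finset.mem_product]
      refine ⟨Finset.mem_image_of_mem _ hz, ?_⟩
      rw [Finset.mem_Icc]
      exact ⟨Nat.gcd_pos_of_pos_left _ (npos z hz), Nat.le_floor (hZ z hz).2.2.2.2.1⟩
    have h2 := Finset.card_le_card h1
    rw [Finset.card_product, Nat.card_Icc, Nat.add_sub_cancel] at h2
    calc ((Z.image F).card : ℝ) ≤ (((Z.image rd).card * ⌊G⌋₊ : ℕ) : ℝ) := by exact_mod_cast h2
      _ = ((Z.image rd).card : ℝ) * (⌊G⌋₊ : ℝ) := by push_cast; ring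
      _ ≤ κ * (1 + N * N / (w : ℝ) ^ 3) * G := by
        apply mul_le_mul hD (Nat.floor_le hG) (by positivity)
        positivity
  have hfib : ∀ a ∈ Z, (((Z.filter (fun x => F x = F a)).card : ℕ) : ℝ) ≤ κ * κ := by
    intro a ha
    have hdn : ((n a).divisors.card : ℝ) ≤ κ := by
      apply hK.div _ (npos a ha)
      have h1 : ((n a : ℕ) : ℝ) ≤ (w : ℝ) ^ 40 := by
        calc ((n a : ℕ) : ℝ) ≤ N := (hZ a ha).2.2.1
          _ ≤ (w : ℝ) ^ 12 := hNw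
          _ ≤ (w : ℝ) ^ 40 := pow_le_pow_right₀ hw1 (by norm_num)
      exact_mod_cast h1
    have hdl : ((l a).divisors.card : ℝ) ≤ κ := by
      apply hK.div _ (lpos a ha)
      have h1 : ((l a : ℕ) : ℝ) ≤ (w : ℝ) ^ 40 := by
        calc ((l a : ℕ) : ℝ) ≤ N := (hZ a ha).2.2.2.1
          _ ≤ (w : ℝ) ^ 12 := hNw
          _ ≤ (w : ℝ) ^ 40 := pow_le_pow_right₀ hw1 (by norm_num)
      exact_mod_cast h1
    have key : ∀ x ∈ Z, F x = F a → n x = n a ∧ l x = l a := by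
      intro x hx hxa
      simp only [hF, hrd, Prod.mk.injEq] at hxa
      obtain ⟨⟨h1, h2⟩, h3⟩ := hxa
      constructor
      · calc n x = Nat.gcd (n x) (l x) * (n x / Nat.gcd (n x) (l x)) :=
              (Nat.mul_div_cancel' (Nat.gcd_dvd_left _ _)).symm
          _ = Nat.gcd (n a) (l a) * (n a / Nat.gcd (n a) (l a)) := by rw [h1, h3]
          _ = n a := Nat.mul_div_cancel' (Nat.gcd_dvd_left _ _)
      · calc l x = Nat.gcd (n x) (l x) * (l x / Nat.gcd (n x) (l x)) :=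
              (Nat.mul_div_cancel' (Nat.gcd_dvd_right _ _)).symm
          _ = Nat.gcd (n a) (l a) * (l a / Nat.gcd (n a) (l a)) := by rw [h2, h3]
          _ = l a := Nat.mul_div_cancel' (Nat.gcd_dvd_right _ _)
    have hc1 : (Z.filter (fun x => F x = F a)).card ≤ ((n a).divisors ×ˢ (l a).divisors).card := by
      apply Finset.card_le_card_of_injOn (fun x => (x.1.1, x.2.1))
      · intro x hx
        rw [Finset.mem_coe, Finset.mem_filter] at hx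
        obtain ⟨h1, h2⟩ := key x hx.1 hx.2
        simp only [Finset.coe_product, Set.mem_prod, Finset.mem_coe, Nat.mem_divisors]
        refine ⟨⟨?_, (npos a ha).ne'⟩, ⟨?_, (lpos a ha).ne'⟩⟩
        · rw [← h1]; exact Dvd.intro _ rfl
        · rw [← h2]; exact Dvd.intro _ rfl
      · intro x hx y hy hxy
        rw [Finset.mem_coe, Finset.mem_filter] at hx hy
        obtain ⟨h1, h2⟩ := key x hx.1 hx.2
        obtain ⟨h3, h4⟩ := key y hy.1 hy.2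
        simp only [Prod.mk.injEq] at hxy
        obtain ⟨⟨x1, x2⟩, ⟨x3, x4⟩⟩ := x
        obtain ⟨⟨y1, y2⟩, ⟨y3, y4⟩⟩ := y
        simp only at hxy
        obtain ⟨rfl, rfl⟩ := hxy
        have hx0 := (hZ _ hx.1).1
        simp only at hx0
        have h5 : x1 * x4 = x1 * y4 := by
          have : n ((x1, x2), (x3, x4)) = n ((x1, y2), (x3, y4)) := h1.trans h3.symm
          simpa [hn] using this
        have h6 : x3 * x2 = x3 * y2 := by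
          have : l ((x1, x2), (x3, x4)) = l ((x1, y2), (x3, y4)) := h2.trans h4.symm
          simpa [hl] using this
        have h7 := Nat.eq_of_mul_eq_mul_left hx0.1 h5
        have h8 := Nat.eq_of_mul_eq_mul_left hx0.2.2.1 h6
        rw [h7, h8]
    rw [Finset.card_product] at hc1
    calc (((Z.filter (fun x => F x = F a)).card : ℕ) : ℝ)
        ≤ (((n a).divisors.card * (l a).divisors.card : ℕ) : ℝ) := by exact_mod_cast hc1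
      _ = ((n a).divisors.card : ℝ) * ((l a).divisors.card : ℝ) := by push_cast; ring
      _ ≤ κ * κ := mul_le_mul hdn hdl (by positivity) (by linarith)
  have hG0 := g_img Z F (κ * κ) (fun a ha => hfib a ha)
  calc (Z.card : ℝ) ≤ (κ * κ) * ((Z.image F).card : ℝ) := hG0
    _ ≤ (κ * κ) * (κ * (1 + N * N / (w : ℝ) ^ 3) * G) := by
        apply mul_le_mul_of_nonneg_left hI; positivity
    _ = _ := by ring

lemma g_sumsq (M : ℕ) : ∑ m ∈ Finset.Icc 1 M, (1 : ℝ) / (m : ℝ) ^ 2 ≤ 2 := by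
  have h : ∀ M : ℕ, 1 ≤ M → ∑ m ∈ Finset.Icc 1 M, (1 : ℝ) / (m : ℝ) ^ 2 ≤ 2 - 1 / (M : ℝ) := by
    intro M hM
    induction M, hM using Nat.le_induction with
    | base => norm_num
    | succ k hk ih =>
      rw [Finset.sum_Icc_succ_top (by omega)]
      have hk' : (0 : ℝ) < (k : ℝ) := by exact_mod_cast hk
      push_cast
      have : (1 : ℝ) / ((k : ℝ) + 1) ^ 2 ≤ 1 / (k : ℝ) - 1 / ((k : ℝ) + 1) := by
        rw [div_sub_div _ _ hk'.ne' (by positivity), div_le_div_iff₀ (by positivity) (by positivity)]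
        nlinarith
      linarith
  rcases Nat.eq_zero_or_pos M with h0 | h0
  · subst h0; simp
  · have := h M h0
    have h2 : (0 : ℝ) ≤ 1 / (M : ℝ) := by positivity
    linarith

open scoped Classical in
/-- Pairs whose reduced form has height at least `H`. -/
lemma g_low {w : ℕ} {κ : ℝ} (hw : 0 < w) (hK : Kap w κ) {j : ℕ} (hj : 1 ≤ j) (hj8 : j ≤ 8)
    {c : ℕ} (hc : Nat.Coprime c w) {N H : ℝ} (hN : 0 ≤ N) (hH : 0 < H) (hNw : N ≤ (w : ℝ) ^ 12)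
    (E : Finset (ℕ × ℕ))
    (hE : ∀ z ∈ E, 0 < z.1 ∧ 0 < z.2 ∧ Nat.Coprime z.1 w ∧ Nat.Coprime z.2 w ∧
      (z.1 : ℝ) ≤ N ∧ (z.2 : ℝ) ≤ N ∧ z.1 ^ j ≡ c * z.2 ^ j [MOD w ^ 3] ∧
      (H * (Nat.gcd z.1 z.2 : ℕ) ≤ (z.1 : ℝ) ∨ H * (Nat.gcd z.1 z.2 : ℕ) ≤ (z.2 : ℝ))) :
    (E.card : ℝ) ≤ κ * (N / H + 2 * (N * N / (w : ℝ) ^ 3)) := by
  have hκ := hK.one
  have hw1 : (1 : ℝ) ≤ (w : ℝ) := by exact_mod_cast hw
  rcases E.eq_empty_or_nonempty with h0 | ⟨z0, hz0⟩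
  · subst h0
    simp only [Finset.card_empty, Nat.cast_zero]
    positivity
  have hN0 : 0 < N := lt_of_lt_of_le (by exact_mod_cast (hE z0 hz0).1) (hE z0 hz0).2.2.2.2.1
  have hmaps : ∀ z ∈ E, Nat.gcd z.1 z.2 ∈ Finset.Icc 1 ⌊N / H⌋₊ := by
    intro z hz
    obtain ⟨h1, h2, h3, h4, h5, h6, h7, h8⟩ := hE z hz
    rw [Finset.mem_Icc]
    refine ⟨Nat.gcd_pos_of_pos_left _ h1, Nat.le_floor ?_⟩
    rw [le_div_iff₀ hH]
    rcases h8 with h8 | h8 <;> linarith [mul_comm (Nat.gcd z.1 z.2 : ℝ) H]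
  rw [Finset.card_eq_sum_card_fiberwise hmaps]
  push_cast
  have hm : ∀ m ∈ Finset.Icc 1 ⌊N / H⌋₊,
      (((E.filter (fun z => Nat.gcd z.1 z.2 = m)).card : ℕ) : ℝ) ≤
        κ * (1 + (N * N / (w : ℝ) ^ 3) * (1 / (m : ℝ) ^ 2)) := by
    intro m hm
    rw [Finset.mem_Icc] at hm
    have hm0 : (0 : ℝ) < (m : ℝ) := by exact_mod_cast hm.1
    rcases (E.filter (fun z => Nat.gcd z.1 z.2 = m)).eq_empty_or_nonempty with h0 | ⟨y0, hy0⟩
    · rw [h0]; simp only [Finset.card_empty, Nat.cast_zero]; positivity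
    rw [Finset.mem_filter] at hy0
    have hNm : 1 ≤ N / m := by
      rw [le_div_iff₀ hm0, one_mul]
      refine le_trans ?_ (hE y0 hy0.1).2.2.2.2.1
      rw [← hy0.2]
      exact_mod_cast Nat.le_of_dvd (hE y0 hy0.1).1 (Nat.gcd_dvd_left _ _)
    have hNm2 : N / m ≤ (w : ℝ) ^ 12 := by
      refine le_trans ?_ hNw
      apply div_le_self hN0.le
      exact_mod_cast hm.1
    have hinj : (E.filter (fun z => Nat.gcd z.1 z.2 = m)).card =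
        ((E.filter (fun z => Nat.gcd z.1 z.2 = m)).image
          (fun z => (z.1 / Nat.gcd z.1 z.2, z.2 / Nat.gcd z.1 z.2))).card := by
      rw [Finset.card_image_of_injOn]
      intro x hx y hy hxy
      rw [Finset.mem_coe, Finset.mem_filter] at hx hy
      simp only [Prod.mk.injEq] at hxy
      obtain ⟨h1, h2⟩ := hxy
      apply Prod.ext
      · calc x.1 = Nat.gcd x.1 x.2 * (x.1 / Nat.gcd x.1 x.2) :=
              (Nat.mul_div_cancel' (Nat.gcd_dvd_left _ _)).symm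
          _ = Nat.gcd y.1 y.2 * (y.1 / Nat.gcd y.1 y.2) := by rw [h1, hx.2, hy.2]
          _ = y.1 := Nat.mul_div_cancel' (Nat.gcd_dvd_left _ _)
      · calc x.2 = Nat.gcd x.1 x.2 * (x.2 / Nat.gcd x.1 x.2) :=
              (Nat.mul_div_cancel' (Nat.gcd_dvd_right _ _)).symm
          _ = Nat.gcd y.1 y.2 * (y.2 / Nat.gcd y.1 y.2) := by rw [h2, hx.2, hy.2]
          _ = y.2 := Nat.mul_div_cancel' (Nat.gcd_dvd_right _ _)
    rw [hinj]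
    have h9 := hK.dir j hj hj8 c hc (N / m) (N / m) hNm hNm hNm2 hNm2
      ((E.filter (fun z => Nat.gcd z.1 z.2 = m)).image
          (fun z => (z.1 / Nat.gcd z.1 z.2, z.2 / Nat.gcd z.1 z.2))) (by
        intro s hs
        obtain ⟨z, hz, rfl⟩ := Finset.mem_image.mp hs
        rw [Finset.mem_filter] at hz
        obtain ⟨k1, k2, k3, k4, k5, k6, k7, k8⟩ := hE z hz.1
        obtain ⟨h1, h2, h3, h4, h5, h6⟩ := g_red k1 k2 k3 k4 k7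
        refine ⟨h1, h2, ?_, ?_, h3, h4, h5, h6⟩
        · simp only
          rw [le_div_iff₀ hm0, ← hz.2]
          refine le_trans ?_ k5
          exact_mod_cast Nat.div_mul_le_self _ _
        · simp only
          rw [le_div_iff₀ hm0, ← hz.2]
          refine le_trans ?_ k6
          exact_mod_cast Nat.div_mul_le_self _ _)
    refine h9.trans (le_of_eq ?_)
    field_simp
  refine (Finset.sum_le_sum hm).trans ?_
  rw [← Finset.mul_sum, Finset.sum_add_distrib, ← Finset.mul_sum]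
  apply mul_le_mul_of_nonneg_left _ (by linarith)
  have h1 : ∑ m ∈ Finset.Icc 1 ⌊N / H⌋₊, (1 : ℝ) ≤ N / H := by
    simp only [Finset.sum_const, Nat.card_Icc, Nat.add_sub_cancel, nsmul_eq_mul, mul_one]
    exact Nat.floor_le (by positivity)
  have h2 := g_sumsq ⌊N / H⌋₊
  have h3 : 0 ≤ N * N / (w : ℝ) ^ 3 := by positivity
  nlinarith [mul_le_mul_of_nonneg_left h2 h3]

/-- Cauchy-Schwarz over the second coordinate, with a threshold. -/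
lemma g_cs {α β : Type*} [DecidableEq α] [DecidableEq β] (A : Finset (α × β)) (I : Finset α) (U : Finset β)
    (hA : ∀ t ∈ A, t.1 ∈ I ∧ t.2 ∈ U) (n1 n2 θ : ℝ) (h1 : (I.card : ℝ) ≤ n1)
    (h2 : (U.card : ℝ) ≤ n2) (hθ : 0 ≤ θ) :
    (A.card : ℝ) ^ 2 ≤ n2 * (((((I ×ˢ I).filter (fun p => θ ≤
      ((U.filter (fun u => (p.1, u) ∈ A ∧ (p.2, u) ∈ A)).card : ℝ))).card : ℕ) : ℝ) * n2 +
      n1 ^ 2 * θ) := by
  have hn1 : 0 ≤ n1 := le_trans (by positivity) h1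
  have hn2 : 0 ≤ n2 := le_trans (by positivity) h2
  have e1 : A.card = ∑ u ∈ U, (I.filter (fun a => (a, u) ∈ A)).card := by
    rw [Finset.card_eq_sum_card_fiberwise (f := Prod.snd) (t := U) (fun t ht => (hA t ht).2)]
    refine Finset.sum_congr rfl (fun u _ => ?_)
    apply Finset.card_bij (fun t _ => t.1)
    · intro t ht
      rw [Finset.mem_filter] at ht ⊢
      obtain ⟨h3, h4⟩ := ht
      subst h4
      exact ⟨(hA t h3).1, h3⟩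
    · intro t ht t' ht' htt
      rw [Finset.mem_filter] at ht ht'
      exact Prod.ext htt (ht.2.trans ht'.2.symm)
    · intro a ha
      rw [Finset.mem_filter] at ha
      exact ⟨(a, u), Finset.mem_filter.mpr ⟨ha.2, rfl⟩, rfl⟩
  have e2 : ∀ u, ((I.filter (fun a => (a, u) ∈ A)).card) ^ 2 =
      ((I ×ˢ I).filter (fun p => (p.1, u) ∈ A ∧ (p.2, u) ∈ A)).card := by
    intro u
    rw [sq, ← Finset.card_product]
    congr 1
    ext ⟨a, b⟩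
    simp only [Finset.mem_product, Finset.mem_filter]
    tauto
  have e3 : ∑ u ∈ U, ((I ×ˢ I).filter (fun p => (p.1, u) ∈ A ∧ (p.2, u) ∈ A)).card =
      ∑ p ∈ I ×ˢ I, (U.filter (fun u => (p.1, u) ∈ A ∧ (p.2, u) ∈ A)).card := by
    have := Finset.sum_card_bipartiteAbove_eq_sum_card_bipartiteBelow
      (s := U) (t := I ×ˢ I) (fun (u : β) (p : α × α) => (p.1, u) ∈ A ∧ (p.2, u) ∈ A)
    simpa [Finset.bipartiteAbove, Finset.bipartiteBelow] using this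
  have e4 : ∑ p ∈ I ×ˢ I, ((U.filter (fun u => (p.1, u) ∈ A ∧ (p.2, u) ∈ A)).card : ℝ) ≤
      ((((I ×ˢ I).filter (fun p => θ ≤
      ((U.filter (fun u => (p.1, u) ∈ A ∧ (p.2, u) ∈ A)).card : ℝ))).card : ℕ) : ℝ) * n2 +
      n1 ^ 2 * θ := by
    rw [← Finset.sum_filter_add_sum_filter_not (I ×ˢ I) (fun p => θ ≤
      ((U.filter (fun u => (p.1, u) ∈ A ∧ (p.2, u) ∈ A)).card : ℝ))]
    apply add_le_add
    · rw [← nsmul_eq_mul]
      apply Finset.sum_le_card_nsmul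
      intro p _
      refine le_trans ?_ h2
      exact_mod_cast Finset.card_le_card (Finset.filter_subset _ _)
    · calc _ ≤ ((((I ×ˢ I).filter (fun p => ¬ θ ≤
          ((U.filter (fun u => (p.1, u) ∈ A ∧ (p.2, u) ∈ A)).card : ℝ))).card : ℕ) : ℝ) * θ := by
            rw [← nsmul_eq_mul]
            apply Finset.sum_le_card_nsmul
            intro p hp
            rw [Finset.mem_filter, not_le] at hp
            exact hp.2.le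
        _ ≤ (((I ×ˢ I).card : ℕ) : ℝ) * θ := by
            apply mul_le_mul_of_nonneg_right _ hθ
            exact_mod_cast Finset.card_le_card (Finset.filter_subset _ _)
        _ ≤ n1 ^ 2 * θ := by
            apply mul_le_mul_of_nonneg_right _ hθ
            rw [Finset.card_product]
            push_cast
            rw [sq]
            exact mul_le_mul h1 h1 (by positivity) hn1
  have e5 : (A.card : ℝ) ^ 2 ≤ (U.card : ℝ) *
      ∑ u ∈ U, ((I.filter (fun a => (a, u) ∈ A)).card : ℝ) ^ 2 := by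
    rw [e1]; push_cast
    exact sq_sum_le_card_mul_sum_sq
  have e6 : ∑ u ∈ U, ((I.filter (fun a => (a, u) ∈ A)).card : ℝ) ^ 2 =
      ∑ p ∈ I ×ˢ I, ((U.filter (fun u => (p.1, u) ∈ A ∧ (p.2, u) ∈ A)).card : ℝ) := by
    have : (∑ u ∈ U, ((I.filter (fun a => (a, u) ∈ A)).card) ^ 2) =
      ∑ p ∈ I ×ˢ I, (U.filter (fun u => (p.1, u) ∈ A ∧ (p.2, u) ∈ A)).card := by
      rw [← e3]
      exact Finset.sum_congr rfl (fun u _ => e2 u)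
    exact_mod_cast this
  rw [e6] at e5
  refine e5.trans ?_
  apply mul_le_mul h2 e4 (Finset.sum_nonneg (fun _ _ => by positivity)) hn2

lemma g_tail (G M : ℕ) (hG : 1 ≤ G) : ∑ m ∈ Finset.Ioc G M, (1 : ℝ) / (m : ℝ) ^ 2 ≤ 1 / (G : ℝ) := by
  rcases Nat.lt_or_ge M G with h | h
  · rw [Finset.Ioc_eq_empty (by omega)]; simp
  · have := sum_Ioc_inv_sq_le_sub (α := ℝ) (k := G) (n := M) (by omega) h
    have h2 : (0 : ℝ) ≤ (M : ℝ)⁻¹ := by positivity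
    simp only [one_div]
    linarith

open scoped Classical in
/-- Counting pairs according to the gcd. -/
lemma g_gcd (P : Finset (ℕ × ℕ)) (V T : ℝ) (G : ℕ) (hG : 1 ≤ G)
    (hP : ∀ p ∈ P, 0 < p.1 ∧ (p.1 : ℝ) ≤ V ∧ 0 < p.2 ∧ (p.2 : ℝ) ≤ V)
    (hg : ∀ g : ℕ, ((P.filter (fun p => Nat.gcd p.1 p.2 = g)).card : ℝ) ≤ T) :
    (P.card : ℝ) ≤ G * T + V ^ 2 * (1 / (G : ℝ)) := by
  have hmaps : ∀ p ∈ P, Nat.gcd p.1 p.2 ∈ Finset.Icc 1 G ∪ Finset.Ioc G ⌊V⌋₊ := by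
    intro p hp
    obtain ⟨h1, h2, h3, h4⟩ := hP p hp
    have h5 : 0 < Nat.gcd p.1 p.2 := Nat.gcd_pos_of_pos_left _ h1
    have h6 : Nat.gcd p.1 p.2 ≤ ⌊V⌋₊ :=
      le_trans (Nat.le_of_dvd h1 (Nat.gcd_dvd_left _ _)) (Nat.le_floor h2)
    rw [Finset.mem_union, Finset.mem_Icc, Finset.mem_Ioc]
    omega
  have hdis : Disjoint (Finset.Icc 1 G) (Finset.Ioc G ⌊V⌋₊) := by
    rw [Finset.disjoint_left]
    intro x hx hx'
    rw [Finset.mem_Icc] at hx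
    rw [Finset.mem_Ioc] at hx'
    omega
  rw [Finset.card_eq_sum_card_fiberwise hmaps, Finset.sum_union hdis]
  push_cast
  apply add_le_add
  · calc _ ≤ ∑ g ∈ Finset.Icc 1 G, T := Finset.sum_le_sum (fun g _ => hg g)
      _ = G * T := by simp
  · have h1 : ∀ m ∈ Finset.Ioc G ⌊V⌋₊,
        ((P.filter (fun p => Nat.gcd p.1 p.2 = m)).card : ℝ) ≤ V ^ 2 * (1 / (m : ℝ) ^ 2) := by
      intro m hm
      rw [Finset.mem_Ioc] at hm
      have hm0 : (0 : ℝ) < (m : ℝ) := by exact_mod_cast (by omega : 0 < m)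
      have hV0 : 0 ≤ V := by
        by_contra hV
        rw [Nat.floor_of_nonpos (not_le.mp hV).le] at hm
        omega
      have h2 : (P.filter (fun p => Nat.gcd p.1 p.2 = m)).card ≤
          ((Finset.Icc 1 ⌊V / m⌋₊) ×ˢ (Finset.Icc 1 ⌊V / m⌋₊)).card := by
        apply Finset.card_le_card_of_injOn (fun p => (p.1 / m, p.2 / m))
        · intro p hp
          rw [Finset.mem_coe, Finset.mem_filter] at hp
          obtain ⟨h3, h4, h5, h6⟩ := hP p hp.1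
          have d1 : m ∣ p.1 := hp.2 ▸ Nat.gcd_dvd_left _ _
          have d2 : m ∣ p.2 := hp.2 ▸ Nat.gcd_dvd_right _ _
          simp only [Finset.coe_product, Set.mem_prod, Finset.mem_coe, Finset.mem_Icc]
          refine ⟨⟨Nat.div_pos (Nat.le_of_dvd h3 d1) (by omega), Nat.le_floor ?_⟩,
            ⟨Nat.div_pos (Nat.le_of_dvd h5 d2) (by omega), Nat.le_floor ?_⟩⟩
          · rw [le_div_iff₀ hm0]
            refine le_trans ?_ h4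
            exact_mod_cast Nat.div_mul_le_self _ _
          · rw [le_div_iff₀ hm0]
            refine le_trans ?_ h6
            exact_mod_cast Nat.div_mul_le_self _ _
        · intro p hp q hq hpq
          rw [Finset.mem_coe, Finset.mem_filter] at hp hq
          have d1 : m ∣ p.1 := hp.2 ▸ Nat.gcd_dvd_left _ _
          have d2 : m ∣ p.2 := hp.2 ▸ Nat.gcd_dvd_right _ _
          have d3 : m ∣ q.1 := hq.2 ▸ Nat.gcd_dvd_left _ _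
          have d4 : m ∣ q.2 := hq.2 ▸ Nat.gcd_dvd_right _ _
          simp only [Prod.mk.injEq] at hpq
          apply Prod.ext
          · rw [← Nat.mul_div_cancel' d1, ← Nat.mul_div_cancel' d3, hpq.1]
          · rw [← Nat.mul_div_cancel' d2, ← Nat.mul_div_cancel' d4, hpq.2]
      rw [Finset.card_product, Nat.card_Icc, Nat.add_sub_cancel] at h2
      calc ((P.filter (fun p => Nat.gcd p.1 p.2 = m)).card : ℝ) ≤
          ((⌊V / m⌋₊ * ⌊V / m⌋₊ : ℕ) : ℝ) := by exact_mod_cast h2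
        _ = (⌊V / m⌋₊ : ℝ) * (⌊V / m⌋₊ : ℝ) := by push_cast; ring
        _ ≤ (V / m) * (V / m) := by
            apply mul_le_mul (Nat.floor_le (by positivity)) (Nat.floor_le (by positivity))
              (by positivity) (by positivity)
        _ = _ := by field_simp
    refine (Finset.sum_le_sum h1).trans ?_
    rw [← Finset.mul_sum]
    exact mul_le_mul_of_nonneg_left (g_tail G _ hG) (sq_nonneg V)

open scoped Classical in
/-- A pair `(a, a')` with many common `u`: there is a small fraction. -/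
lemma g_pair {e f w : ℕ} {κ W Λ V V' : ℝ} (he : 1 ≤ e) (he8 : e ≤ 8) (hf : 1 ≤ f) (hf8 : f ≤ 8)
    (hw : 0 < w) (hK : Kap w κ) (hκ : κ ≤ Λ) (hΛ : 8 ≤ Λ) (hW : W ^ 2 = w) (hW0 : 0 < W)
    (hΛW : Λ ^ 100 ≤ W) (hV : V ≤ W * Λ) (hV' : V' ≤ W * Λ) (a a₁ : ℕ)
    (ha : 0 < a ∧ (a : ℝ) ≤ V ∧ Nat.Coprime a w) (ha₁ : 0 < a₁ ∧ (a₁ : ℝ) ≤ V ∧ Nat.Coprime a₁ w)
    (U : Finset (ℕ × (ℕ × ℕ))) (p q : ℕ × (ℕ × ℕ) → (ℕ × ℕ) × (ℕ × ℕ))
    (hU : ∀ u ∈ U, (0 < u.1 ∧ (u.1 : ℝ) ≤ V ∧ Nat.Coprime u.1 w) ∧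
      (0 < u.2.1 ∧ (u.2.1 : ℝ) ≤ V ∧ Nat.Coprime u.2.1 w) ∧
      (0 < u.2.2 ∧ (u.2.2 : ℝ) ≤ V ∧ Nat.Coprime u.2.2 w) ∧
      ((Nat.gcd (a * u.2.2) (u.2.1 * u.1) : ℕ) : ℝ) ≤ Λ ^ 3)
    (hp : ∀ u ∈ U, (0 < (p u).1.1 ∧ ((p u).1.1 : ℝ) ≤ V' ∧ Nat.Coprime (p u).1.1 w) ∧
      (0 < (p u).1.2 ∧ ((p u).1.2 : ℝ) ≤ V' ∧ Nat.Coprime (p u).1.2 w) ∧
      (0 < (p u).2.1 ∧ ((p u).2.1 : ℝ) ≤ V' ∧ Nat.Coprime (p u).2.1 w) ∧
      (0 < (p u).2.2 ∧ ((p u).2.2 : ℝ) ≤ V' ∧ Nat.Coprime (p u).2.2 w) ∧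
      (a * u.2.2) ^ e * ((p u).1.1 * (p u).2.2) ^ f ≡
        (u.2.1 * u.1) ^ e * ((p u).2.1 * (p u).1.2) ^ f [MOD w ^ 3])
    (hq : ∀ u ∈ U, (0 < (q u).1.1 ∧ ((q u).1.1 : ℝ) ≤ V' ∧ Nat.Coprime (q u).1.1 w) ∧
      (0 < (q u).1.2 ∧ ((q u).1.2 : ℝ) ≤ V' ∧ Nat.Coprime (q u).1.2 w) ∧
      (0 < (q u).2.1 ∧ ((q u).2.1 : ℝ) ≤ V' ∧ Nat.Coprime (q u).2.1 w) ∧
      (0 < (q u).2.2 ∧ ((q u).2.2 : ℝ) ≤ V' ∧ Nat.Coprime (q u).2.2 w) ∧
      (a₁ * u.2.2) ^ e * ((q u).1.1 * (q u).2.2) ^ f ≡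
        (u.2.1 * u.1) ^ e * ((q u).2.1 * (q u).1.2) ^ f [MOD w ^ 3])
    (hcard : W ^ 3 / Λ ^ 28 ≤ (U.card : ℝ)) :
    ∃ r s : ℕ, 0 < r ∧ 0 < s ∧ Nat.Coprime r s ∧ Nat.Coprime r w ∧ Nat.Coprime s w ∧
      (r : ℝ) ≤ W * Λ ^ 46 ∧ (s : ℝ) ≤ W * Λ ^ 46 ∧ a ^ e * s ^ f ≡ a₁ ^ e * r ^ f [MOD w ^ 3] := by
  have hκ1 := hK.one
  have hw1 : (1 : ℝ) ≤ (w : ℝ) := by exact_mod_cast hw
  have hΛ0 : (0 : ℝ) < Λ := by linarith
  have hWΛ : 0 < W * Λ := by positivity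
  set N : ℝ := (W * Λ) ^ 4 with hN
  set L : ℕ × (ℕ × ℕ) → ℕ := fun u => ((p u).1.1 * (p u).2.2) * ((q u).2.1 * (q u).1.2) with hL
  set M : ℕ × (ℕ × ℕ) → ℕ := fun u => ((p u).2.1 * (p u).1.2) * ((q u).1.1 * (q u).2.2) with hM
  have hmul2 : ∀ x y : ℕ, (x : ℝ) ≤ V' → (y : ℝ) ≤ V' → ((x * y : ℕ) : ℝ) ≤ (W * Λ) ^ 2 := by
    intro x y hx hy
    push_cast
    rw [sq]
    exact mul_le_mul (hx.trans hV') (hy.trans hV') (by positivity) hWΛ.le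
  have hmul2' : ∀ x y : ℕ, (x : ℝ) ≤ V → (y : ℝ) ≤ V → ((x * y : ℕ) : ℝ) ≤ (W * Λ) ^ 2 := by
    intro x y hx hy
    push_cast
    rw [sq]
    exact mul_le_mul (hx.trans hV) (hy.trans hV) (by positivity) hWΛ.le
  have hmul4 : ∀ x y : ℕ, (x : ℝ) ≤ (W * Λ) ^ 2 → (y : ℝ) ≤ (W * Λ) ^ 2 →
      ((x * y : ℕ) : ℝ) ≤ N := by
    intro x y hx hy
    push_cast
    calc (x : ℝ) * y ≤ (W * Λ) ^ 2 * (W * Λ) ^ 2 := mul_le_mul hx hy (by positivity) (by positivity)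
      _ = N := by rw [hN]; ring
  have hLn : ∀ u ∈ U, 0 < L u ∧ (L u : ℝ) ≤ N ∧ Nat.Coprime (L u) w := by
    intro u hu
    obtain ⟨p1, p2, p3, p4, _⟩ := hp u hu
    obtain ⟨q1, q2, q3, q4, _⟩ := hq u hu
    refine ⟨Nat.mul_pos (Nat.mul_pos p1.1 p4.1) (Nat.mul_pos q3.1 q2.1),
      hmul4 _ _ (hmul2 _ _ p1.2.1 p4.2.1) (hmul2 _ _ q3.2.1 q2.2.1),
      Nat.Coprime.mul_left (Nat.Coprime.mul_left p1.2.2 p4.2.2)
        (Nat.Coprime.mul_left q3.2.2 q2.2.2)⟩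
  have hMn : ∀ u ∈ U, 0 < M u ∧ (M u : ℝ) ≤ N ∧ Nat.Coprime (M u) w := by
    intro u hu
    obtain ⟨p1, p2, p3, p4, _⟩ := hp u hu
    obtain ⟨q1, q2, q3, q4, _⟩ := hq u hu
    refine ⟨Nat.mul_pos (Nat.mul_pos p3.1 p2.1) (Nat.mul_pos q1.1 q4.1),
      hmul4 _ _ (hmul2 _ _ p3.2.1 p2.2.1) (hmul2 _ _ q1.2.1 q4.2.1),
      Nat.Coprime.mul_left (Nat.Coprime.mul_left p3.2.2 p2.2.2)
        (Nat.Coprime.mul_left q1.2.2 q4.2.2)⟩
  -- the congruence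
  have hcong : ∀ u ∈ U, a ^ e * (L u) ^ f ≡ a₁ ^ e * (M u) ^ f [MOD w ^ 3] := by
    intro u hu
    obtain ⟨u1, u2, u3, _⟩ := hU u hu
    obtain ⟨p1, p2, p3, p4, p5⟩ := hp u hu
    obtain ⟨q1, q2, q3, q4, q5⟩ := hq u hu
    have h1 := Nat.ModEq.mul p5 q5.symm
    have hg : Nat.Coprime (u.2.2 ^ e * (u.2.1 * u.1) ^ e) w :=
      Nat.Coprime.mul_left (Nat.Coprime.pow_left _ u3.2.2)
        (Nat.Coprime.pow_left _ (Nat.Coprime.mul_left u2.2.2 u1.2.2))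
    apply g_cancel hg
    have e1 : u.2.2 ^ e * (u.2.1 * u.1) ^ e * a ^ e * L u ^ f =
      ((a * u.2.2) ^ e * ((p u).1.1 * (p u).2.2) ^ f) *
        ((u.2.1 * u.1) ^ e * ((q u).2.1 * (q u).1.2) ^ f) := by
      simp only [hL, mul_pow]; ring
    have e2 : u.2.2 ^ e * (u.2.1 * u.1) ^ e * a₁ ^ e * M u ^ f =
      ((u.2.1 * u.1) ^ e * ((p u).2.1 * (p u).1.2) ^ f) *
        ((a₁ * u.2.2) ^ e * ((q u).1.1 * (q u).2.2) ^ f) := by
      simp only [hM, mul_pow]; ring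
    rw [e1, e2]
    exact h1
  by_contra hno
  push Not at hno
  -- the set of the pairs (M, L)
  set E : Finset (ℕ × ℕ) := U.image (fun u => (M u, L u)) with hE
  -- bounds
  have hNw : N ≤ (w : ℝ) ^ 12 := by
    have h1 : Λ ≤ W := by
      calc Λ = Λ ^ 1 := (pow_one _).symm
        _ ≤ Λ ^ 100 := pow_le_pow_right₀ (by linarith) (by norm_num)
        _ ≤ W := hΛW
    have hW1 : 1 ≤ W := by linarith
    calc N = (W * Λ) ^ 4 := rfl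
      _ ≤ (W * W) ^ 4 := by
          apply pow_le_pow_left₀ hWΛ.le
          exact mul_le_mul_of_nonneg_left h1 hW0.le
      _ = W ^ 8 := by ring
      _ ≤ W ^ 24 := pow_le_pow_right₀ hW1 (by norm_num)
      _ = (w : ℝ) ^ 12 := by rw [← hW]; ring
  obtain ⟨v, hvw, hv⟩ := g_inv (a₁ ^ e) (Nat.Coprime.pow_left e ha₁.2.2)
  have hcv : Nat.Coprime (v * a ^ e) w := Nat.Coprime.mul_left hvw (Nat.Coprime.pow_left e ha.2.2)
  have hEb : (E.card : ℝ) ≤ κ * (N / (W * Λ ^ 46) + 2 * (N * N / (w : ℝ) ^ 3)) := by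
    apply g_low hw hK hf hf8 hcv (by positivity) (by positivity) hNw
    intro z hz
    obtain ⟨u, hu, rfl⟩ := Finset.mem_image.mp hz
    obtain ⟨l1, l2, l3⟩ := hLn u hu
    obtain ⟨m1, m2, m3⟩ := hMn u hu
    have hc1 : (M u) ^ f ≡ (v * a ^ e) * (L u) ^ f [MOD w ^ 3] := g_solve (hcong u hu).symm hv
    refine ⟨m1, l1, m3, l3, m2, l2, hc1, ?_⟩
    by_contra hcon
    push Not at hcon
    simp only at hcon
    have hg : 0 < Nat.gcd (M u) (L u) := Nat.gcd_pos_of_pos_left _ m1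
    have hg' : (0 : ℝ) < (Nat.gcd (M u) (L u) : ℕ) := by exact_mod_cast hg
    obtain ⟨r1, r2, r3, r4, r5, r6⟩ := g_red m1 l1 m3 l3 hc1
    have e1 : Nat.gcd (M u) (L u) * (M u / Nat.gcd (M u) (L u)) = M u :=
      Nat.mul_div_cancel' (Nat.gcd_dvd_left _ _)
    have e2 : Nat.gcd (M u) (L u) * (L u / Nat.gcd (M u) (L u)) = L u :=
      Nat.mul_div_cancel' (Nat.gcd_dvd_right _ _)
    have b1 : ((M u / Nat.gcd (M u) (L u) : ℕ) : ℝ) ≤ W * Λ ^ 46 := by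
      by_contra hb
      push Not at hb
      have h2 := mul_lt_mul_of_pos_left hb hg'
      have h3 : ((Nat.gcd (M u) (L u) : ℕ) : ℝ) * ((M u / Nat.gcd (M u) (L u) : ℕ) : ℝ) = M u := by
        exact_mod_cast e1
      linarith [hcon.1, mul_comm (W * Λ ^ 46) (Nat.gcd (M u) (L u) : ℝ)]
    have b2 : ((L u / Nat.gcd (M u) (L u) : ℕ) : ℝ) ≤ W * Λ ^ 46 := by
      by_contra hb
      push Not at hb
      have h2 := mul_lt_mul_of_pos_left hb hg'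
      have h3 : ((Nat.gcd (M u) (L u) : ℕ) : ℝ) * ((L u / Nat.gcd (M u) (L u) : ℕ) : ℝ) = L u := by
        exact_mod_cast e2
      linarith [hcon.2, mul_comm (W * Λ ^ 46) (Nat.gcd (M u) (L u) : ℝ)]
    refine hno _ _ r1 r2 r3 r4 r5 b1 b2 ?_
    have hgw : Nat.Coprime ((Nat.gcd (M u) (L u)) ^ f) w :=
      Nat.Coprime.pow_left _ (Nat.Coprime.coprime_dvd_left (Nat.gcd_dvd_left _ _) m3)
    apply g_cancel hgw
    have h4 := hcong u hu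
    calc (Nat.gcd (M u) (L u)) ^ f * a ^ e * (L u / Nat.gcd (M u) (L u)) ^ f
        = a ^ e * ((Nat.gcd (M u) (L u)) * (L u / Nat.gcd (M u) (L u))) ^ f := by
          rw [mul_pow]; ring
      _ = a ^ e * (L u) ^ f := by rw [e2]
      _ ≡ a₁ ^ e * (M u) ^ f [MOD w ^ 3] := h4
      _ = a₁ ^ e * ((Nat.gcd (M u) (L u)) * (M u / Nat.gcd (M u) (L u))) ^ f := by rw [e1]
      _ = _ := by rw [mul_pow]; ring
  -- the fibres
  have hfib : ∀ u₀ ∈ U, (((U.filter (fun u => (M u, L u) = (M u₀, L u₀))).card : ℕ) : ℝ) ≤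
      (κ ^ 3 * Λ ^ 3 * 2) * κ ^ 4 := by
    intro u₀ hu₀
    set U' := U.filter (fun u => (M u, L u) = (M u₀, L u₀)) with hU'
    have hsub : ∀ u ∈ U', u ∈ U ∧ M u = M u₀ ∧ L u = L u₀ := by
      intro u hu
      rw [hU', Finset.mem_filter] at hu
      refine ⟨hu.1, ?_, ?_⟩
      · exact (Prod.mk.injEq _ _ _ _ ▸ hu.2).1
      · exact (Prod.mk.injEq _ _ _ _ ▸ hu.2).2
    have s1 : ∀ u₁ ∈ U', (((U'.filter (fun u => p u = p u₁)).card : ℕ) : ℝ) ≤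
        κ ^ 3 * Λ ^ 3 * 2 := by
      intro u₁ hu₁
      have hu₁U := (hsub u₁ hu₁).1
      obtain ⟨p1, p2, p3, p4, p5⟩ := hp u₁ hu₁U
      -- value
      obtain ⟨v', hvw', hv'⟩ := g_inv (((p u₁).1.1 * (p u₁).2.2) ^ f)
        (Nat.Coprime.pow_left f (Nat.Coprime.mul_left p1.2.2 p4.2.2))
      have hcc : Nat.Coprime (v' * ((p u₁).2.1 * (p u₁).1.2) ^ f) w :=
        Nat.Coprime.mul_left hvw' (Nat.Coprime.pow_left f (Nat.Coprime.mul_left p3.2.2 p2.2.2))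
      have hinj : (U'.filter (fun u => p u = p u₁)).card =
          ((U'.filter (fun u => p u = p u₁)).image (fun u => ((a, u.1), u.2))).card := by
        rw [Finset.card_image_of_injOn]
        intro x _ y _ hxy
        simp only [Prod.mk.injEq, true_and] at hxy
        exact Prod.ext hxy.1 hxy.2
      rw [hinj]
      have hb := g_fib hw hK he he8 hcc (N := (W * Λ) ^ 2) (G := Λ ^ 3) (by
          have : 1 ≤ W * Λ := by
            have h1 : Λ ≤ W := by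
              calc Λ = Λ ^ 1 := (pow_one _).symm
                _ ≤ Λ ^ 100 := pow_le_pow_right₀ (by linarith) (by norm_num)
                _ ≤ W := hΛW
            nlinarith
          exact one_le_pow₀ this) (by
          refine le_trans ?_ hNw
          have h1 : Λ ≤ W := by
              calc Λ = Λ ^ 1 := (pow_one _).symm
                _ ≤ Λ ^ 100 := pow_le_pow_right₀ (by linarith) (by norm_num)
                _ ≤ W := hΛW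
          exact pow_le_pow_right₀ (by nlinarith) (by norm_num)) (by positivity)
          ((U'.filter (fun u => p u = p u₁)).image (fun u => ((a, u.1), u.2))) (by
          intro z hz
          obtain ⟨u, hu, rfl⟩ := Finset.mem_image.mp hz
          rw [Finset.mem_filter] at hu
          obtain ⟨hu1, hu2⟩ := hu
          have huU := (hsub u hu1).1
          obtain ⟨u1, u2, u3, u4⟩ := hU u huU
          refine ⟨⟨ha.1, u1.1, u2.1, u3.1⟩, ⟨ha.2.2, u1.2.2, u2.2.2, u3.2.2⟩,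
            hmul2' _ _ ha.2.1 u3.2.1, hmul2' _ _ u2.2.1 u1.2.1, u4, ?_⟩
          have h5 := (hp u huU).2.2.2.2
          rw [hu2] at h5
          have h6 : ((p u₁).1.1 * (p u₁).2.2) ^ f * (a * u.2.2) ^ e ≡
              ((p u₁).2.1 * (p u₁).1.2) ^ f * (u.2.1 * u.1) ^ e [MOD w ^ 3] := by
            rw [mul_comm, mul_comm (((p u₁).2.1 * (p u₁).1.2) ^ f)]
            exact h5
          exact g_solve h6 hv')
      refine hb.trans ?_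
      apply mul_le_mul_of_nonneg_left _ (by positivity)
      have : (W * Λ) ^ 2 * (W * Λ) ^ 2 / (w : ℝ) ^ 3 ≤ 1 := by
        rw [div_le_one (by positivity), ← hW]
        calc (W * Λ) ^ 2 * (W * Λ) ^ 2 = W ^ 4 * Λ ^ 4 := by ring
          _ ≤ W ^ 4 * W ^ 2 := by
            apply mul_le_mul_of_nonneg_left _ (by positivity)
            calc Λ ^ 4 ≤ Λ ^ 100 := pow_le_pow_right₀ (by linarith) (by norm_num)
              _ ≤ W := hΛW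
              _ ≤ W ^ 2 := by
                have : 1 ≤ Λ ^ 100 := one_le_pow₀ (by linarith)
                nlinarith
          _ = (W ^ 2) ^ 3 := by ring
      linarith
    have s2 : ((U'.image p).card : ℝ) ≤ κ ^ 4 := by
      obtain ⟨l1, l2, l3⟩ := hLn u₀ hu₀
      obtain ⟨m1, m2, m3⟩ := hMn u₀ hu₀
      have hdm : ((M u₀).divisors.card : ℝ) ≤ κ := by
        apply hK.div _ m1
        have h1 : ((M u₀ : ℕ) : ℝ) ≤ (w : ℝ) ^ 40 := by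
          calc ((M u₀ : ℕ) : ℝ) ≤ N := m2
            _ ≤ (w : ℝ) ^ 12 := hNw
            _ ≤ (w : ℝ) ^ 40 := pow_le_pow_right₀ hw1 (by norm_num)
        exact_mod_cast h1
      have hdl : ((L u₀).divisors.card : ℝ) ≤ κ := by
        apply hK.div _ l1
        have h1 : ((L u₀ : ℕ) : ℝ) ≤ (w : ℝ) ^ 40 := by
          calc ((L u₀ : ℕ) : ℝ) ≤ N := l2
            _ ≤ (w : ℝ) ^ 12 := hNw
            _ ≤ (w : ℝ) ^ 40 := pow_le_pow_right₀ hw1 (by norm_num)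
        exact_mod_cast h1
      have hsub2 : U'.image p ⊆ ((L u₀).divisors ×ˢ (M u₀).divisors) ×ˢ
          ((M u₀).divisors ×ˢ (L u₀).divisors) := by
        intro z hz
        obtain ⟨u, hu, rfl⟩ := Finset.mem_image.mp hz
        obtain ⟨_, h1, h2⟩ := hsub u hu
        simp only [Finset.mem_product, Nat.mem_divisors]
        rw [← h1, ← h2]
        have hl0 : L u ≠ 0 := by rw [h2]; exact l1.ne'
        have hm0 : M u ≠ 0 := by rw [h1]; exact m1.ne'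
        refine ⟨⟨⟨?_, hl0⟩, ⟨?_, hm0⟩⟩, ⟨⟨?_, hm0⟩, ⟨?_, hl0⟩⟩⟩
        · exact Dvd.dvd.mul_right (Dvd.intro _ rfl) _
        · exact Dvd.dvd.mul_right (Dvd.intro_left _ rfl) _
        · exact Dvd.dvd.mul_right (Dvd.intro _ rfl) _
        · exact Dvd.dvd.mul_right (Dvd.intro_left _ rfl) _
      have h2 := Finset.card_le_card hsub2
      simp only [Finset.card_product] at h2
      calc ((U'.image p).card : ℝ) ≤ (((L u₀).divisors.card * (M u₀).divisors.card *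
          ((M u₀).divisors.card * (L u₀).divisors.card) : ℕ) : ℝ) := by exact_mod_cast h2
        _ = ((L u₀).divisors.card : ℝ) * (M u₀).divisors.card *
          ((M u₀).divisors.card * (L u₀).divisors.card) := by push_cast; ring
        _ ≤ κ * κ * (κ * κ) := by
            have h3 : 0 ≤ κ := by linarith
            apply mul_le_mul _ _ (by positivity) (by positivity)
            · exact mul_le_mul hdl hdm (by positivity) h3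
            · exact mul_le_mul hdm hdl (by positivity) h3
        _ = κ ^ 4 := by ring
    have s3 := g_img U' p (κ ^ 3 * Λ ^ 3 * 2) (fun u hu => s1 u hu)
    calc ((U'.card : ℕ) : ℝ) ≤ (κ ^ 3 * Λ ^ 3 * 2) * ((U'.image p).card : ℝ) := s3
      _ ≤ (κ ^ 3 * Λ ^ 3 * 2) * κ ^ 4 := mul_le_mul_of_nonneg_left s2 (by positivity)
  have hfin := g_img U (fun u => (M u, L u)) ((κ ^ 3 * Λ ^ 3 * 2) * κ ^ 4)
    (fun u hu => hfib u hu)
  have hfin2 : (U.card : ℝ) ≤ ((κ ^ 3 * Λ ^ 3 * 2) * κ ^ 4) * (E.card : ℝ) := hfin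
  -- numbers
  have hκ0 : 0 ≤ κ := by linarith
  have c1 : ((κ ^ 3 * Λ ^ 3 * 2) * κ ^ 4) ≤ 2 * Λ ^ 10 := by
    calc ((κ ^ 3 * Λ ^ 3 * 2) * κ ^ 4) = 2 * (κ ^ 7 * Λ ^ 3) := by ring
      _ ≤ 2 * (Λ ^ 7 * Λ ^ 3) := by
        have := pow_le_pow_left₀ hκ0 hκ 7
        gcongr
      _ = _ := by ring
  have c2 : (E.card : ℝ) ≤ Λ * (N / (W * Λ ^ 46) + 2 * (N * N / (w : ℝ) ^ 3)) := by
    refine hEb.trans ?_
    apply mul_le_mul_of_nonneg_right hκ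
    positivity
  have c3 : Λ * (N / (W * Λ ^ 46) + 2 * (N * N / (w : ℝ) ^ 3)) =
      W ^ 3 / Λ ^ 41 + 2 * (W ^ 2 * Λ ^ 9) := by
    rw [← hW, hN]
    field_simp
  have c4 : W ^ 3 / Λ ^ 28 ≤ 2 * Λ ^ 10 * (W ^ 3 / Λ ^ 41 + 2 * (W ^ 2 * Λ ^ 9)) := by
    calc W ^ 3 / Λ ^ 28 ≤ (U.card : ℝ) := hcard
      _ ≤ _ := hfin2
      _ ≤ 2 * Λ ^ 10 * (W ^ 3 / Λ ^ 41 + 2 * (W ^ 2 * Λ ^ 9)) := by
        rw [← c3]
        exact mul_le_mul c1 c2 (by positivity) (by positivity)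
  have c5 : W ^ 3 * Λ ^ 3 ≤ 2 * W ^ 3 + 4 * (W ^ 2 * Λ ^ 50) := by
    have h1 := mul_le_mul_of_nonneg_right c4 (by positivity : 0 ≤ Λ ^ 31)
    have h2 : W ^ 3 / Λ ^ 28 * Λ ^ 31 = W ^ 3 * Λ ^ 3 := by field_simp
    have h3 : 2 * Λ ^ 10 * (W ^ 3 / Λ ^ 41 + 2 * (W ^ 2 * Λ ^ 9)) * Λ ^ 31 =
      2 * W ^ 3 + 4 * (W ^ 2 * Λ ^ 50) := by field_simp; ring
    rw [h2, h3] at h1
    exact h1
  have c6 : Λ ^ 50 ≤ W := by
    refine le_trans ?_ hΛW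
    exact pow_le_pow_right₀ (by linarith) (by norm_num)
  have c7 : (8 : ℝ) ^ 3 ≤ Λ ^ 3 := pow_le_pow_left₀ (by norm_num) hΛ 3
  have c8 : W ^ 2 * Λ ^ 50 ≤ W ^ 2 * W := mul_le_mul_of_nonneg_left c6 (by positivity)
  have c9 : W ^ 3 * 8 ^ 3 ≤ W ^ 3 * Λ ^ 3 := mul_le_mul_of_nonneg_left c7 (by positivity)
  have c10 : 0 < W ^ 3 := by positivity
  nlinarith

open scoped Classical in
/-- The core of the proof. -/
lemma g_core {e f w : ℕ} {κ W Λ V V' : ℝ} (he : 1 ≤ e) (he8 : e ≤ 8) (hf : 1 ≤ f) (hf8 : f ≤ 8)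
    (hw : 0 < w) (hK : Kap w κ) (hκ : κ ≤ Λ) (hΛ : 8 ≤ Λ) (hW : W ^ 2 = w) (hW0 : 0 < W)
    (hΛW : Λ ^ 100 ≤ W) (hV : V ≤ W * Λ) (hV' : V' ≤ W * Λ)
    (S : Finset (((ℕ × ℕ) × (ℕ × ℕ)) × ((ℕ × ℕ) × (ℕ × ℕ))))
    (hS : ∀ s ∈ S, (∀ t : ℕ × ℕ, t = s.1.1 ∨ t = s.2.1 → 0 < t.1 ∧ (t.1 : ℝ) ≤ V ∧ 0 < t.2 ∧
      (t.2 : ℝ) ≤ V ∧ Nat.Coprime t.1 t.2 ∧ Nat.Coprime t.1 w ∧ Nat.Coprime t.2 w) ∧
    (∀ t : ℕ × ℕ, t = s.1.2 ∨ t = s.2.2 → 0 < t.1 ∧ (t.1 : ℝ) ≤ V' ∧ 0 < t.2 ∧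
      (t.2 : ℝ) ≤ V' ∧ Nat.Coprime t.1 t.2 ∧ Nat.Coprime t.1 w ∧ Nat.Coprime t.2 w) ∧
    (s.1.1.1 * s.2.1.2) ^ e * (s.1.2.1 * s.2.2.2) ^ f ≡
      (s.2.1.1 * s.1.1.2) ^ e * (s.2.2.1 * s.1.2.2) ^ f [MOD w ^ 3] ∧
    ((Nat.gcd (s.1.1.1 * s.2.1.2) (s.2.1.1 * s.1.1.2) : ℕ) : ℝ) ≤ Λ ^ 3 ∧
    ((Nat.gcd (s.1.2.1 * s.2.2.2) (s.2.2.1 * s.1.2.2) : ℕ) : ℝ) ≤ Λ ^ 3)
    (hcard : (w : ℝ) ^ 2 / Λ ^ 5 ≤ (S.card : ℝ)) :
    (w : ℝ) / Λ ^ 62 ≤ ((Two e f w (W * Λ ^ 46) (W * Λ ^ 46)).card : ℝ) := by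
  have hκ1 := hK.one
  have hκ0 : 0 ≤ κ := by linarith
  have hw1 : (1 : ℝ) ≤ (w : ℝ) := by exact_mod_cast hw
  have hΛ0 : (0 : ℝ) < Λ := by linarith
  have hΛ1 : (1 : ℝ) ≤ Λ := by linarith
  have hWΛ : 0 < W * Λ := by positivity
  have hΛW1 : Λ ≤ W := by
    calc Λ = Λ ^ 1 := (pow_one _).symm
      _ ≤ Λ ^ 100 := pow_le_pow_right₀ hΛ1 (by norm_num)
      _ ≤ W := hΛW
  have hW1 : 1 ≤ W := by linarith
  have hWΛ1 : 1 ≤ W * Λ := by nlinarith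
  -- the projection
  set pr : ((ℕ × ℕ) × (ℕ × ℕ)) × ((ℕ × ℕ) × (ℕ × ℕ)) → ℕ × (ℕ × (ℕ × ℕ)) :=
    fun s => (s.1.1.1, (s.1.1.2, s.2.1)) with hpr
  set A := S.image pr with hA
  -- (2) few partners
  have hfib : ∀ s₀ ∈ S, (((S.filter (fun s => pr s = pr s₀)).card : ℕ) : ℝ) ≤
      κ ^ 3 * Λ ^ 3 * 2 := by
    intro s₀ hs₀
    obtain ⟨h1, h2, h3, h4, h5⟩ := hS s₀ hs₀
    obtain ⟨a1, a2, a3, a4, a5, a6, a7⟩ := h1 s₀.1.1 (Or.inl rfl)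
    obtain ⟨b1, b2, b3, b4, b5, b6, b7⟩ := h1 s₀.2.1 (Or.inr rfl)
    obtain ⟨v, hvw, hv⟩ := g_inv ((s₀.1.1.1 * s₀.2.1.2) ^ e)
      (Nat.Coprime.pow_left e (Nat.Coprime.mul_left a6 b7))
    have hcc : Nat.Coprime (v * (s₀.2.1.1 * s₀.1.1.2) ^ e) w :=
      Nat.Coprime.mul_left hvw (Nat.Coprime.pow_left e (Nat.Coprime.mul_left b6 a7))
    have hinj : (S.filter (fun s => pr s = pr s₀)).card =
        ((S.filter (fun s => pr s = pr s₀)).image (fun s => (s.1.2, s.2.2))).card := by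
      rw [Finset.card_image_of_injOn]
      intro x hx y hy hxy
      rw [Finset.mem_coe, Finset.mem_filter] at hx hy
      have hx2 := hx.2
      have hy2 := hy.2
      simp only [hpr, Prod.mk.injEq] at hx2 hy2 hxy
      apply Prod.ext
      · apply Prod.ext
        · apply Prod.ext
          · exact hx2.1.trans hy2.1.symm
          · exact hx2.2.1.trans hy2.2.1.symm
        · exact hxy.1
      · apply Prod.ext
        · exact hx2.2.2.trans hy2.2.2.symm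
        · exact hxy.2
    rw [hinj]
    have hb := g_fib hw hK hf hf8 hcc (N := (W * Λ) ^ 2) (G := Λ ^ 3) (one_le_pow₀ hWΛ1) (by
        calc (W * Λ) ^ 2 ≤ (W * W) ^ 2 := by
              apply pow_le_pow_left₀ hWΛ.le
              exact mul_le_mul_of_nonneg_left hΛW1 hW0.le
          _ = W ^ 4 := by ring
          _ ≤ W ^ 24 := pow_le_pow_right₀ hW1 (by norm_num)
          _ = (w : ℝ) ^ 12 := by rw [← hW]; ring) (by positivity)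
        ((S.filter (fun s => pr s = pr s₀)).image (fun s => (s.1.2, s.2.2))) (by
        intro z hz
        obtain ⟨s, hs, rfl⟩ := Finset.mem_image.mp hz
        rw [Finset.mem_filter] at hs
        obtain ⟨hs1, hs2⟩ := hs
        simp only [hpr, Prod.mk.injEq] at hs2
        obtain ⟨k1, k2, k3, k4, k5⟩ := hS s hs1
        obtain ⟨c1, c2, c3, c4, c5, c6, c7⟩ := k2 s.1.2 (Or.inl rfl)
        obtain ⟨d1, d2, d3, d4, d5, d6, d7⟩ := k2 s.2.2 (Or.inr rfl)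
        refine ⟨⟨c1, c3, d1, d3⟩, ⟨c6, c7, d6, d7⟩, ?_, ?_, k5, ?_⟩
        · push_cast; rw [sq]
          exact mul_le_mul (c2.trans hV') (d4.trans hV') (by positivity) hWΛ.le
        · push_cast; rw [sq]
          exact mul_le_mul (d2.trans hV') (c4.trans hV') (by positivity) hWΛ.le
        · rw [hs2.1, hs2.2.1, hs2.2.2] at k3
          exact g_solve k3 hv)
    refine hb.trans ?_
    apply mul_le_mul_of_nonneg_left _ (by positivity)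
    have : (W * Λ) ^ 2 * (W * Λ) ^ 2 / (w : ℝ) ^ 3 ≤ 1 := by
      rw [div_le_one (by positivity), ← hW]
      calc (W * Λ) ^ 2 * (W * Λ) ^ 2 = W ^ 4 * Λ ^ 4 := by ring
        _ ≤ W ^ 4 * W ^ 2 := by
          apply mul_le_mul_of_nonneg_left _ (by positivity)
          calc Λ ^ 4 ≤ Λ ^ 100 := pow_le_pow_right₀ (by linarith) (by norm_num)
            _ ≤ W := hΛW
            _ ≤ W ^ 2 := by nlinarith
        _ = (W ^ 2) ^ 3 := by ring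
    linarith
  have hA1 := g_img S pr (κ ^ 3 * Λ ^ 3 * 2) (fun a ha => hfib a ha)
  have hA2 : (S.card : ℝ) ≤ (2 * Λ ^ 6) * (A.card : ℝ) := by
    calc (S.card : ℝ) ≤ (κ ^ 3 * Λ ^ 3 * 2) * (A.card : ℝ) := hA1
      _ ≤ _ := by
        apply mul_le_mul_of_nonneg_right _ (by positivity)
        calc κ ^ 3 * Λ ^ 3 * 2 ≤ Λ ^ 3 * Λ ^ 3 * 2 := by
              have := pow_le_pow_left₀ hκ0 hκ 3
              gcongr
          _ = 2 * Λ ^ 6 := by ring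
  have hA3 : W ^ 4 / (2 * Λ ^ 11) ≤ (A.card : ℝ) := by
    rw [div_le_iff₀ (by positivity)]
    have h1 := hcard.trans hA2
    rw [div_le_iff₀ (by positivity), ← hW] at h1
    calc W ^ 4 = (W ^ 2) ^ 2 := by ring
      _ ≤ _ := h1
      _ = _ := by ring
  -- partners
  have hch : ∀ t : ℕ × (ℕ × (ℕ × ℕ)), ∃ z : (ℕ × ℕ) × (ℕ × ℕ), t ∈ A →
      ((((t.1, t.2.1), z.1), (t.2.2, z.2)) : ((ℕ × ℕ) × (ℕ × ℕ)) × ((ℕ × ℕ) × (ℕ × ℕ))) ∈ S := by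
    intro t
    by_cases ht : t ∈ A
    · obtain ⟨s, hs, rfl⟩ := Finset.mem_image.mp ht
      exact ⟨(s.1.2, s.2.2), fun _ => hs⟩
    · exact ⟨((0, 0), (0, 0)), fun h => absurd h ht⟩
  choose P hP using hch
  -- facts on the elements of A
  have hAt : ∀ t ∈ A, (0 < t.1 ∧ (t.1 : ℝ) ≤ V ∧ Nat.Coprime t.1 w) ∧
      (0 < t.2.1 ∧ (t.2.1 : ℝ) ≤ V ∧ Nat.Coprime t.2.1 w) ∧
      (0 < t.2.2.1 ∧ (t.2.2.1 : ℝ) ≤ V ∧ Nat.Coprime t.2.2.1 w) ∧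
      (0 < t.2.2.2 ∧ (t.2.2.2 : ℝ) ≤ V ∧ Nat.Coprime t.2.2.2 w) ∧
      ((Nat.gcd (t.1 * t.2.2.2) (t.2.2.1 * t.2.1) : ℕ) : ℝ) ≤ Λ ^ 3 := by
    intro t ht
    obtain ⟨k1, k2, k3, k4, k5⟩ := hS _ (hP t ht)
    obtain ⟨c1, c2, c3, c4, c5, c6, c7⟩ := k1 _ (Or.inl rfl)
    obtain ⟨d1, d2, d3, d4, d5, d6, d7⟩ := k1 _ (Or.inr rfl)
    exact ⟨⟨c1, c2, c6⟩, ⟨c3, c4, c7⟩, ⟨d1, d2, d6⟩, ⟨d3, d4, d7⟩, k4⟩
  have hPt : ∀ t ∈ A, (0 < (P t).1.1 ∧ ((P t).1.1 : ℝ) ≤ V' ∧ Nat.Coprime (P t).1.1 w) ∧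
      (0 < (P t).1.2 ∧ ((P t).1.2 : ℝ) ≤ V' ∧ Nat.Coprime (P t).1.2 w) ∧
      (0 < (P t).2.1 ∧ ((P t).2.1 : ℝ) ≤ V' ∧ Nat.Coprime (P t).2.1 w) ∧
      (0 < (P t).2.2 ∧ ((P t).2.2 : ℝ) ≤ V' ∧ Nat.Coprime (P t).2.2 w) ∧
      (t.1 * t.2.2.2) ^ e * ((P t).1.1 * (P t).2.2) ^ f ≡
        (t.2.2.1 * t.2.1) ^ e * ((P t).2.1 * (P t).1.2) ^ f [MOD w ^ 3] := by
    intro t ht
    obtain ⟨k1, k2, k3, k4, k5⟩ := hS _ (hP t ht)
    obtain ⟨c1, c2, c3, c4, c5, c6, c7⟩ := k2 _ (Or.inl rfl)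
    obtain ⟨d1, d2, d3, d4, d5, d6, d7⟩ := k2 _ (Or.inr rfl)
    exact ⟨⟨c1, c2, c6⟩, ⟨c3, c4, c7⟩, ⟨d1, d2, d6⟩, ⟨d3, d4, d7⟩, k3⟩
  -- (3) Cauchy-Schwarz
  set I := Finset.Icc 1 ⌊V⌋₊ with hI
  have hVpos : 0 ≤ V := by
    rcases A.eq_empty_or_nonempty with h0 | ⟨t, ht⟩
    · exfalso
      rw [h0] at hA3
      simp only [Finset.card_empty, Nat.cast_zero] at hA3
      have : 0 < W ^ 4 / (2 * Λ ^ 11) := by positivity
      linarith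
    · exact le_trans (by positivity) (hAt t ht).1.2.1
  have hIc : (I.card : ℝ) ≤ W * Λ := by
    rw [hI, Nat.card_Icc, Nat.add_sub_cancel]
    exact (Nat.floor_le hVpos).trans hV
  have hUc : ((I ×ˢ (I ×ˢ I)).card : ℝ) ≤ (W * Λ) ^ 3 := by
    rw [Finset.card_product, Finset.card_product]
    push_cast
    calc (I.card : ℝ) * (I.card * I.card) = (I.card : ℝ) ^ 3 := by ring
      _ ≤ (W * Λ) ^ 3 := pow_le_pow_left₀ (by positivity) hIc 3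
  have hmI : ∀ a : ℕ, 0 < a → (a : ℝ) ≤ V → a ∈ I := by
    intro a h1 h2
    rw [hI, Finset.mem_Icc]
    exact ⟨h1, Nat.le_floor h2⟩
  have hcs := g_cs A I (I ×ˢ (I ×ˢ I)) (by
    intro t ht
    obtain ⟨t1, t2, t3, t4, t5⟩ := hAt t ht
    refine ⟨hmI _ t1.1 t1.2.1, ?_⟩
    rw [Finset.mem_product, Finset.mem_product]
    exact ⟨hmI _ t2.1 t2.2.1, hmI _ t3.1 t3.2.1, hmI _ t4.1 t4.2.1⟩)
    (W * Λ) ((W * Λ) ^ 3) (W ^ 3 / Λ ^ 28) hIc hUc (by positivity)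
  set Gd := (I ×ˢ I).filter (fun p => W ^ 3 / Λ ^ 28 ≤
      (((I ×ˢ (I ×ˢ I)).filter (fun u => (p.1, u) ∈ A ∧ (p.2, u) ∈ A)).card : ℝ)) with hGd
  have hGd1 : W ^ 2 / Λ ^ 29 ≤ (Gd.card : ℝ) := by
    have h1 : (W ^ 4 / (2 * Λ ^ 11)) ^ 2 ≤ (A.card : ℝ) ^ 2 :=
      pow_le_pow_left₀ (by positivity) hA3 2
    have h2 : (A.card : ℝ) ^ 2 ≤ (W * Λ) ^ 3 * ((Gd.card : ℝ) * (W * Λ) ^ 3 +
      (W * Λ) ^ 2 * (W ^ 3 / Λ ^ 28)) := hcs
    have h3 := h1.trans h2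
    have h4 := mul_le_mul_of_nonneg_right h3 (by positivity : 0 ≤ 4 * Λ ^ 23)
    have h5 : (W ^ 4 / (2 * Λ ^ 11)) ^ 2 * (4 * Λ ^ 23) = W ^ 8 * Λ := by
      field_simp; ring
    have h6 : (W * Λ) ^ 3 * ((Gd.card : ℝ) * (W * Λ) ^ 3 +
      (W * Λ) ^ 2 * (W ^ 3 / Λ ^ 28)) * (4 * Λ ^ 23) =
      W ^ 6 * (4 * ((Gd.card : ℝ) * Λ ^ 29)) + 4 * W ^ 8 := by
      field_simp
    rw [h5, h6] at h4
    rw [div_le_iff₀ (by positivity)]
    have h7 : W ^ 8 * 8 ≤ W ^ 8 * Λ := mul_le_mul_of_nonneg_left hΛ (by positivity)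
    have h8 : W ^ 6 * (4 * W ^ 2) ≤ W ^ 6 * (4 * ((Gd.card : ℝ) * Λ ^ 29)) := by
      calc W ^ 6 * (4 * W ^ 2) = 4 * W ^ 8 := by ring
        _ ≤ _ := by linarith
    have h9 := le_of_mul_le_mul_left h8 (by positivity : 0 < W ^ 6)
    linarith
  -- (4), (5): the small fractions
  have hfr : ∀ p : ℕ × ℕ, ∃ rs : ℕ × ℕ, p ∈ Gd → (0 < p.1 ∧ (p.1 : ℝ) ≤ V ∧ Nat.Coprime p.1 w ∧
      0 < p.2 ∧ (p.2 : ℝ) ≤ V ∧ Nat.Coprime p.2 w) ∧
      0 < rs.1 ∧ 0 < rs.2 ∧ Nat.Coprime rs.1 rs.2 ∧ Nat.Coprime rs.1 w ∧ Nat.Coprime rs.2 w ∧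
      (rs.1 : ℝ) ≤ W * Λ ^ 46 ∧ (rs.2 : ℝ) ≤ W * Λ ^ 46 ∧
      p.1 ^ e * rs.2 ^ f ≡ p.2 ^ e * rs.1 ^ f [MOD w ^ 3] := by
    intro p
    by_cases hp : p ∈ Gd
    swap
    · exact ⟨(0, 0), fun h => absurd h hp⟩
    have hp' := hp
    rw [hGd, Finset.mem_filter] at hp'
    obtain ⟨hp1, hp2⟩ := hp'
    have hne : ((I ×ˢ (I ×ˢ I)).filter (fun u => (p.1, u) ∈ A ∧ (p.2, u) ∈ A)).Nonempty := by
      rw [Finset.nonempty_iff_ne_empty]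
      intro h0
      rw [h0] at hp2
      simp only [Finset.card_empty, Nat.cast_zero] at hp2
      have : 0 < W ^ 3 / Λ ^ 28 := by positivity
      linarith
    obtain ⟨u₀, hu₀⟩ := hne
    rw [Finset.mem_filter] at hu₀
    have ha := (hAt _ hu₀.2.1).1
    have ha₁ := (hAt _ hu₀.2.2).1
    obtain ⟨r, s, h1, h2, h3, h4, h5, h6, h7, h8⟩ := g_pair he he8 hf hf8 hw hK hκ hΛ hW hW0 hΛW
      hV hV' p.1 p.2 ha ha₁ ((I ×ˢ (I ×ˢ I)).filter (fun u => (p.1, u) ∈ A ∧ (p.2, u) ∈ A))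
      (fun u => P (p.1, u)) (fun u => P (p.2, u))
      (by
        intro u hu
        rw [Finset.mem_filter] at hu
        exact (hAt _ hu.2.1).2)
      (by
        intro u hu
        rw [Finset.mem_filter] at hu
        exact hPt _ hu.2.1)
      (by
        intro u hu
        rw [Finset.mem_filter] at hu
        exact hPt _ hu.2.2) hp2
    exact ⟨(r, s), fun _ => ⟨⟨ha.1, ha.2.1, ha.2.2, ha₁.1, ha₁.2.1, ha₁.2.2⟩,
      h1, h2, h3, h4, h5, h6, h7, h8⟩⟩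
  choose R hR using hfr
  -- (6)
  set T : ℝ := ((Two e f w (W * Λ ^ 46) (W * Λ ^ 46)).card : ℝ) with hT
  have hlast := g_gcd Gd (W * Λ) T ⌊Λ ^ 32⌋₊ (by
      apply Nat.le_floor
      exact_mod_cast one_le_pow₀ hΛ1) (by
      intro p hp
      obtain ⟨⟨h1, h2, h3, h4, h5, h6⟩, _⟩ := hR p hp
      exact ⟨h1, h2.trans hV, h4, h5.trans hV⟩) (by
      intro g
      rw [hT]
      have : (Gd.filter (fun p => Nat.gcd p.1 p.2 = g)).card ≤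
          (Two e f w (W * Λ ^ 46) (W * Λ ^ 46)).card := by
        apply Finset.card_le_card_of_injOn (fun p => ((p.1 / g, p.2 / g), ((R p).2, (R p).1)))
        · intro p hp
          rw [Finset.mem_coe, Finset.mem_filter] at hp
          obtain ⟨hpG, rfl⟩ := hp
          obtain ⟨⟨h1, h2, h3, h4, h5, h6⟩, r1, r2, r3, r4, r5, r6, r7, r8⟩ := hR p hpG
          have hg : 0 < Nat.gcd p.1 p.2 := Nat.gcd_pos_of_pos_left _ h1
          have e1 : Nat.gcd p.1 p.2 * (p.1 / Nat.gcd p.1 p.2) = p.1 :=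
            Nat.mul_div_cancel' (Nat.gcd_dvd_left _ _)
          have e2 : Nat.gcd p.1 p.2 * (p.2 / Nat.gcd p.1 p.2) = p.2 :=
            Nat.mul_div_cancel' (Nat.gcd_dvd_right _ _)
          have hbig : W * Λ ≤ W * Λ ^ 46 := by
            apply mul_le_mul_of_nonneg_left _ hW0.le
            calc Λ = Λ ^ 1 := (pow_one _).symm
              _ ≤ Λ ^ 46 := pow_le_pow_right₀ hΛ1 (by norm_num)
          have q1 : (((p.1 / Nat.gcd p.1 p.2 : ℕ)) : ℝ) ≤ W * Λ ^ 46 := by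
            calc (((p.1 / Nat.gcd p.1 p.2 : ℕ)) : ℝ) ≤ (p.1 : ℝ) := by
                  exact_mod_cast Nat.div_le_self _ _
              _ ≤ V := h2
              _ ≤ W * Λ := hV
              _ ≤ _ := hbig
          have q2 : (((p.2 / Nat.gcd p.1 p.2 : ℕ)) : ℝ) ≤ W * Λ ^ 46 := by
            calc (((p.2 / Nat.gcd p.1 p.2 : ℕ)) : ℝ) ≤ (p.2 : ℝ) := by
                  exact_mod_cast Nat.div_le_self _ _
              _ ≤ V := h5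
              _ ≤ W * Λ := hV
              _ ≤ _ := hbig
          rw [Finset.mem_coe, Two, Finset.mem_filter]
          simp only [Finset.mem_product, Finset.mem_Icc]
          refine ⟨⟨⟨⟨Nat.div_pos (Nat.le_of_dvd h1 (Nat.gcd_dvd_left _ _)) hg, Nat.le_floor q1⟩,
            ⟨Nat.div_pos (Nat.le_of_dvd h4 (Nat.gcd_dvd_right _ _)) hg, Nat.le_floor q2⟩⟩,
            ⟨⟨r2, Nat.le_floor r7⟩, ⟨r1, Nat.le_floor r6⟩⟩⟩,
            Nat.coprime_div_gcd_div_gcd hg, r3.symm,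
            Nat.Coprime.coprime_dvd_left (Dvd.intro_left _ e1) h3,
            Nat.Coprime.coprime_dvd_left (Dvd.intro_left _ e2) h6, r5, r4, ?_⟩
          have hgw : Nat.Coprime ((Nat.gcd p.1 p.2) ^ e) w :=
            Nat.Coprime.pow_left _ (Nat.Coprime.coprime_dvd_left (Nat.gcd_dvd_left _ _) h3)
          apply g_cancel hgw
          calc (Nat.gcd p.1 p.2) ^ e * (p.1 / Nat.gcd p.1 p.2) ^ e * (R p).2 ^ f
              = ((Nat.gcd p.1 p.2) * (p.1 / Nat.gcd p.1 p.2)) ^ e * (R p).2 ^ f := by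
                rw [mul_pow]
            _ = p.1 ^ e * (R p).2 ^ f := by rw [e1]
            _ ≡ p.2 ^ e * (R p).1 ^ f [MOD w ^ 3] := r8
            _ = ((Nat.gcd p.1 p.2) * (p.2 / Nat.gcd p.1 p.2)) ^ e * (R p).1 ^ f := by rw [e2]
            _ = _ := by rw [mul_pow]
        · intro p hp q hq hpq
          rw [Finset.mem_coe, Finset.mem_filter] at hp hq
          have d1 : g ∣ p.1 := hp.2 ▸ Nat.gcd_dvd_left _ _
          have d2 : g ∣ p.2 := hp.2 ▸ Nat.gcd_dvd_right _ _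
          have d3 : g ∣ q.1 := hq.2 ▸ Nat.gcd_dvd_left _ _
          have d4 : g ∣ q.2 := hq.2 ▸ Nat.gcd_dvd_right _ _
          simp only [Prod.mk.injEq] at hpq
          apply Prod.ext
          · rw [← Nat.mul_div_cancel' d1, ← Nat.mul_div_cancel' d3, hpq.1.1]
          · rw [← Nat.mul_div_cancel' d2, ← Nat.mul_div_cancel' d4, hpq.1.2]
      exact_mod_cast this)
  have hfl1 : ((⌊Λ ^ 32⌋₊ : ℕ) : ℝ) ≤ Λ ^ 32 := Nat.floor_le (by positivity)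
  have h1Λ : (1 : ℝ) ≤ Λ ^ 32 := one_le_pow₀ hΛ1
  have hfl2 : Λ ^ 32 / 2 ≤ ((⌊Λ ^ 32⌋₊ : ℕ) : ℝ) := by
    have h1 : 1 ≤ ⌊Λ ^ 32⌋₊ := Nat.le_floor (by exact_mod_cast h1Λ)
    have h2 := Nat.lt_floor_add_one (Λ ^ 32)
    have h3 : (1 : ℝ) ≤ ((⌊Λ ^ 32⌋₊ : ℕ) : ℝ) := by exact_mod_cast h1
    linarith
  have hT0 : 0 ≤ T := by rw [hT]; positivity
  have hinv : 1 / ((⌊Λ ^ 32⌋₊ : ℕ) : ℝ) ≤ 2 / Λ ^ 32 := by
    rw [div_le_div_iff₀ (by linarith) (by positivity)]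
    linarith
  have hfin : W ^ 2 / Λ ^ 29 ≤ Λ ^ 32 * T + (W * Λ) ^ 2 * (2 / Λ ^ 32) := by
    calc W ^ 2 / Λ ^ 29 ≤ (Gd.card : ℝ) := hGd1
      _ ≤ _ := hlast
      _ ≤ _ := by
        apply add_le_add
        · exact mul_le_mul_of_nonneg_right hfl1 hT0
        · exact mul_le_mul_of_nonneg_left hinv (by positivity)
  rw [div_le_iff₀ (by positivity), ← hW]
  have h4 := mul_le_mul_of_nonneg_right hfin (by positivity : 0 ≤ Λ ^ 30)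
  have h5 : W ^ 2 / Λ ^ 29 * Λ ^ 30 = W ^ 2 * Λ := by field_simp
  have h6 : (Λ ^ 32 * T + (W * Λ) ^ 2 * (2 / Λ ^ 32)) * Λ ^ 30 = T * Λ ^ 62 + 2 * W ^ 2 := by
    field_simp
  rw [h5, h6] at h4
  have h7 : W ^ 2 * 8 ≤ W ^ 2 * Λ := mul_le_mul_of_nonneg_left hΛ (by positivity)
  have h8 : 0 < W ^ 2 := by positivity
  linarith


/-- One pair of exponents. -/
lemma g_one (hk : KAPStmt) (hs : S2Stmt) (e f : ℕ) (he : 1 ≤ e) (he8 : e ≤ 8) (hf : 1 ≤ f)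
    (hf8 : f ≤ 8) (hef : e ≠ f) : ∃ τ C : ℝ, 0 < τ ∧ τ ≤ 1 / 400 ∧ 1 ≤ C ∧
  ∀ τ' : ℝ, 0 < τ' → τ' ≤ τ →  ∀ (w : ℕ) (V V' : ℝ)
  (S : Finset (((ℕ × ℕ) × (ℕ × ℕ)) × ((ℕ × ℕ) × (ℕ × ℕ)))), Squarefree w →
  (w : ℝ) ^ (1 / 2 - τ') ≤ V → V ≤ (w : ℝ) ^ (1 / 2 + τ') →
  (w : ℝ) ^ (1 / 2 - τ') ≤ V' → V' ≤ (w : ℝ) ^ (1 / 2 + τ') →
  (∀ s ∈ S, (∀ t : ℕ × ℕ, t = s.1.1 ∨ t = s.2.1 → 0 < t.1 ∧ (t.1 : ℝ) ≤ V ∧ 0 < t.2 ∧
      (t.2 : ℝ) ≤ V ∧ Nat.Coprime t.1 t.2 ∧ Nat.Coprime t.1 w ∧ Nat.Coprime t.2 w) ∧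
    (∀ t : ℕ × ℕ, t = s.1.2 ∨ t = s.2.2 → 0 < t.1 ∧ (t.1 : ℝ) ≤ V' ∧ 0 < t.2 ∧
      (t.2 : ℝ) ≤ V' ∧ Nat.Coprime t.1 t.2 ∧ Nat.Coprime t.1 w ∧ Nat.Coprime t.2 w) ∧
    (s.1.1.1 * s.2.1.2) ^ e * (s.1.2.1 * s.2.2.2) ^ f ≡
      (s.2.1.1 * s.1.1.2) ^ e * (s.2.2.1 * s.1.2.2) ^ f [MOD w ^ 3] ∧
    (w : ℝ) ^ (1 - τ') * Nat.gcd (s.1.1.1 * s.2.1.2) (s.2.1.1 * s.1.1.2) ≤
      max (s.1.1.1 * s.2.1.2) (s.2.1.1 * s.1.1.2) ∧
    (w : ℝ) ^ (1 - τ') * Nat.gcd (s.1.2.1 * s.2.2.2) (s.2.2.1 * s.1.2.2) ≤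
      max (s.1.2.1 * s.2.2.2) (s.2.2.1 * s.1.2.2)) →
  (S.card : ℝ) ≤ C * (w : ℝ) ^ (-τ') * V ^ 2 * V' ^ 2 := by
  obtain ⟨δ, C₂, hδ, hC₂, hS2⟩ := hs e f he he8 hf hf8 hef (1 / 4) (1 / 4) (by norm_num)
    (by norm_num)
  set τ : ℝ := min (δ / 400) (1 / 400) with hτdef
  have hτ0 : 0 < τ := lt_min (by linarith) (by norm_num)
  have hτδ : τ ≤ δ / 400 := min_le_left _ _
  have hτ4 : τ ≤ 1 / 400 := min_le_right _ _
  obtain ⟨C₁, hC₁, hKap⟩ := hk (τ / 2) (by linarith)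
  -- the threshold
  obtain ⟨w₀, hw₀⟩ : ∃ w₀ : ℝ, 1 ≤ w₀ ∧ ∀ x : ℝ, w₀ ≤ x → C₁ ≤ x ^ (τ / 2) ∧ 8 ≤ x ^ τ ∧
      C₂ < x ^ (δ / 2) := by
    have t1 := (tendsto_rpow_atTop (by linarith : 0 < τ / 2)).eventually_ge_atTop C₁
    have t2 := (tendsto_rpow_atTop hτ0).eventually_ge_atTop 8
    have t3 := (tendsto_rpow_atTop (by linarith : 0 < δ / 2)).eventually_gt_atTop C₂
    obtain ⟨w₁, hw₁⟩ := Filter.eventually_atTop.mp (t1.and (t2.and t3))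
    exact ⟨max 1 w₁, le_max_left _ _, fun x hx => hw₁ x (le_trans (le_max_right _ _) hx)⟩
  obtain ⟨hw₀1, hw₀⟩ := hw₀
  refine ⟨τ, w₀ ^ 4, hτ0, hτ4, one_le_pow₀ hw₀1, ?_⟩
  intro τ' hτ'0 hτ' w V V' S hsq hV1 hV2 hV'1 hV'2 hS
  have hw : 0 < w := Nat.pos_of_ne_zero hsq.ne_zero
  have hwR : (0 : ℝ) < (w : ℝ) := by exact_mod_cast hw
  have hw1 : (1 : ℝ) ≤ (w : ℝ) := by exact_mod_cast hw
  have hVpos : 0 < V := lt_of_lt_of_le (Real.rpow_pos_of_pos hwR _) hV1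
  have hV'pos : 0 < V' := lt_of_lt_of_le (Real.rpow_pos_of_pos hwR _) hV'1
  rcases lt_or_ge (w : ℝ) w₀ with hsmall | hbig
  · -- small w
    have hsub : S ⊆ ((((Finset.Icc 1 ⌊V⌋₊) ×ˢ (Finset.Icc 1 ⌊V⌋₊)) ×ˢ
        ((Finset.Icc 1 ⌊V'⌋₊) ×ˢ (Finset.Icc 1 ⌊V'⌋₊))) ×ˢ
        (((Finset.Icc 1 ⌊V⌋₊) ×ˢ (Finset.Icc 1 ⌊V⌋₊)) ×ˢ
        ((Finset.Icc 1 ⌊V'⌋₊) ×ˢ (Finset.Icc 1 ⌊V'⌋₊)))) := by
      intro s hs
      obtain ⟨k1, k2, _, _, _⟩ := hS s hs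
      obtain ⟨a1, a2, a3, a4, _⟩ := k1 s.1.1 (Or.inl rfl)
      obtain ⟨b1, b2, b3, b4, _⟩ := k1 s.2.1 (Or.inr rfl)
      obtain ⟨c1, c2, c3, c4, _⟩ := k2 s.1.2 (Or.inl rfl)
      obtain ⟨d1, d2, d3, d4, _⟩ := k2 s.2.2 (Or.inr rfl)
      simp only [Finset.mem_product, Finset.mem_Icc]
      exact ⟨⟨⟨⟨a1, Nat.le_floor a2⟩, ⟨a3, Nat.le_floor a4⟩⟩,
        ⟨⟨c1, Nat.le_floor c2⟩, ⟨c3, Nat.le_floor c4⟩⟩⟩,
        ⟨⟨⟨b1, Nat.le_floor b2⟩, ⟨b3, Nat.le_floor b4⟩⟩,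
        ⟨⟨d1, Nat.le_floor d2⟩, ⟨d3, Nat.le_floor d4⟩⟩⟩⟩
    have hc := Finset.card_le_card hsub
    simp only [Finset.card_product, Nat.card_Icc, Nat.add_sub_cancel] at hc
    have hc2 : (S.card : ℝ) ≤ ((⌊V⌋₊ : ℕ) : ℝ) ^ 4 * ((⌊V'⌋₊ : ℕ) : ℝ) ^ 4 := by
      calc (S.card : ℝ) ≤ ((⌊V⌋₊ * ⌊V⌋₊ * (⌊V'⌋₊ * ⌊V'⌋₊) *
            (⌊V⌋₊ * ⌊V⌋₊ * (⌊V'⌋₊ * ⌊V'⌋₊)) : ℕ) : ℝ) := by exact_mod_cast hc
        _ = _ := by push_cast; ring
    have hc3 : (S.card : ℝ) ≤ V ^ 4 * V' ^ 4 := by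
      refine hc2.trans ?_
      have y1 := Nat.floor_le hVpos.le
      have y2 := Nat.floor_le hV'pos.le
      gcongr
    have hVV : V ^ 2 * V' ^ 2 ≤ w₀ ^ 4 * (w : ℝ) ^ (-τ') := by
      calc V ^ 2 * V' ^ 2 ≤ ((w : ℝ) ^ (1 / 2 + τ')) ^ 2 * ((w : ℝ) ^ (1 / 2 + τ')) ^ 2 := by
            gcongr
        _ = (w : ℝ) ^ ((1 / 2 + τ') * (2 : ℕ) + (1 / 2 + τ') * (2 : ℕ)) := by
            generalize 1 / 2 + τ' = x
            rw [Real.rpow_add hwR, Real.rpow_mul hwR.le, Real.rpow_natCast]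
        _ ≤ (w : ℝ) ^ ((4 : ℕ) + (-τ')) :=
            Real.rpow_le_rpow_of_exponent_le hw1 (by push_cast; linarith)
        _ = (w : ℝ) ^ 4 * (w : ℝ) ^ (-τ') := by rw [Real.rpow_add hwR, Real.rpow_natCast]
        _ ≤ w₀ ^ 4 * (w : ℝ) ^ (-τ') := by
            have z2 : 0 ≤ (w : ℝ) ^ (-τ') := Real.rpow_nonneg hwR.le _
            gcongr
    calc (S.card : ℝ) ≤ V ^ 4 * V' ^ 4 := hc3
      _ = (V ^ 2 * V' ^ 2) * (V ^ 2 * V' ^ 2) := by ring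
      _ ≤ (w₀ ^ 4 * (w : ℝ) ^ (-τ')) * (V ^ 2 * V' ^ 2) :=
          mul_le_mul_of_nonneg_right hVV (by positivity)
      _ = _ := by ring
  obtain ⟨g1, g2, g3⟩ := hw₀ w hbig
  by_contra hcon
  push Not at hcon
  set W : ℝ := (w : ℝ) ^ (1 / 2 : ℝ) with hW
  set Λ : ℝ := (w : ℝ) ^ τ with hΛ
  have hW0 : 0 < W := Real.rpow_pos_of_pos hwR _
  have hΛ0 : 0 < Λ := Real.rpow_pos_of_pos hwR _
  have hW2 : W ^ 2 = w := by
    rw [hW, ← Real.rpow_natCast, ← Real.rpow_mul hwR.le]; norm_num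
  have hΛn : ∀ n : ℕ, Λ ^ n = (w : ℝ) ^ (τ * n) := by
    intro n
    rw [hΛ, ← Real.rpow_natCast, ← Real.rpow_mul hwR.le]
  have hmono : ∀ x y : ℝ, x ≤ y → (w : ℝ) ^ x ≤ (w : ℝ) ^ y := fun x y h =>
    Real.rpow_le_rpow_of_exponent_le hw1 h
  have hWΛ : ∀ x : ℝ, x ≤ 1 / 2 + τ → (w : ℝ) ^ x ≤ W * Λ := by
    intro x hx
    rw [hW, hΛ, ← Real.rpow_add hwR]
    exact hmono _ _ hx
  have hΛ100 : Λ ^ 100 ≤ W := by
    rw [hΛn, hW]
    apply hmono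
    push_cast
    linarith
  have hκΛ : C₁ * (w : ℝ) ^ (τ / 2) ≤ Λ := by
    calc C₁ * (w : ℝ) ^ (τ / 2) ≤ (w : ℝ) ^ (τ / 2) * (w : ℝ) ^ (τ / 2) := by
          apply mul_le_mul_of_nonneg_right g1 (Real.rpow_nonneg hwR.le _)
      _ = Λ := by rw [hΛ, ← Real.rpow_add hwR]; congr 1; ring
  have hgcd : ∀ (n l : ℕ) (x : ℝ), 0 < n → 0 < l → (n : ℝ) ≤ x ^ 2 → (l : ℝ) ≤ x ^ 2 →
      0 ≤ x → x ≤ W * Λ → (w : ℝ) ^ (1 - τ') * (Nat.gcd n l : ℕ) ≤ max (n : ℝ) l →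
      ((Nat.gcd n l : ℕ) : ℝ) ≤ Λ ^ 3 := by
    intro n l x hn hl hnx hlx hx0 hx h
    have h1 : (w : ℝ) ^ (1 - τ') * (Nat.gcd n l : ℕ) ≤ (W * Λ) ^ 2 :=
      h.trans ((max_le hnx hlx).trans (pow_le_pow_left₀ hx0 hx 2))
    have h2 : (w : ℝ) ≤ Λ * (w : ℝ) ^ (1 - τ') := by
      calc (w : ℝ) = (w : ℝ) ^ (1 : ℝ) := (Real.rpow_one _).symm
        _ ≤ (w : ℝ) ^ (τ + (1 - τ')) := hmono _ _ (by linarith)
        _ = _ := by rw [Real.rpow_add hwR]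
    have h3 : (w : ℝ) * (Nat.gcd n l : ℕ) ≤ (w : ℝ) * Λ ^ 3 := by
      calc (w : ℝ) * (Nat.gcd n l : ℕ) ≤ (Λ * (w : ℝ) ^ (1 - τ')) * (Nat.gcd n l : ℕ) :=
            mul_le_mul_of_nonneg_right h2 (by positivity)
        _ = Λ * ((w : ℝ) ^ (1 - τ') * (Nat.gcd n l : ℕ)) := by ring
        _ ≤ Λ * (W * Λ) ^ 2 := mul_le_mul_of_nonneg_left h1 hΛ0.le
        _ = W ^ 2 * Λ ^ 3 := by ring
        _ = _ := by rw [hW2]
    exact le_of_mul_le_mul_left h3 hwR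
  have hmain := g_core he he8 hf hf8 hw (hKap w hw) hκΛ g2 hW2 hW0 hΛ100
    (hV2.trans (hWΛ _ (by linarith))) (hV'2.trans (hWΛ _ (by linarith))) S (by
      intro s hs
      obtain ⟨k1, k2, k3, k4, k5⟩ := hS s hs
      obtain ⟨a1, a2, a3, a4, a5, a6, a7⟩ := k1 s.1.1 (Or.inl rfl)
      obtain ⟨b1, b2, b3, b4, b5, b6, b7⟩ := k1 s.2.1 (Or.inr rfl)
      obtain ⟨c1, c2, c3, c4, c5, c6, c7⟩ := k2 s.1.2 (Or.inl rfl)
      obtain ⟨d1, d2, d3, d4, d5, d6, d7⟩ := k2 s.2.2 (Or.inr rfl)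
      have hm : ∀ (x y : ℕ) (v : ℝ), (x : ℝ) ≤ v → (y : ℝ) ≤ v → ((x * y : ℕ) : ℝ) ≤ v ^ 2 := by
        intro x y v hx hy
        push_cast
        rw [sq]
        exact mul_le_mul hx hy (by positivity) (le_trans (by positivity) hx)
      refine ⟨k1, k2, k3, ?_, ?_⟩
      · apply hgcd _ _ V (Nat.mul_pos a1 b3) (Nat.mul_pos b1 a3) (hm _ _ _ a2 b4)
          (hm _ _ _ b2 a4) hVpos.le (hV2.trans (hWΛ _ (by linarith)))
        push_cast at k4 ⊢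
        exact k4
      · apply hgcd _ _ V' (Nat.mul_pos c1 d3) (Nat.mul_pos d1 c3) (hm _ _ _ c2 d4)
          (hm _ _ _ d2 c4) hV'pos.le (hV'2.trans (hWΛ _ (by linarith)))
        push_cast at k5 ⊢
        exact k5) (by
      refine le_trans ?_ hcon.le
      have e1 : (w : ℝ) ^ 2 / Λ ^ 5 = (w : ℝ) ^ (2 - 5 * τ) := by
        rw [hΛn, ← Real.rpow_natCast (w : ℝ) 2, ← Real.rpow_sub hwR]
        congr 1; push_cast; ring
      rw [e1]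
      calc (w : ℝ) ^ (2 - 5 * τ) ≤ (w : ℝ) ^ (-τ' + (1 / 2 - τ') * (2 : ℕ) +
              (1 / 2 - τ') * (2 : ℕ)) := by
            apply hmono; push_cast; linarith
        _ = 1 * (w : ℝ) ^ (-τ') * ((w : ℝ) ^ (1 / 2 - τ')) ^ 2 *
              ((w : ℝ) ^ (1 / 2 - τ')) ^ 2 := by
            rw [Real.rpow_add hwR, Real.rpow_add hwR, Real.rpow_mul hwR.le, Real.rpow_natCast]
            ring
        _ ≤ w₀ ^ 4 * (w : ℝ) ^ (-τ') * V ^ 2 * V' ^ 2 := by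
            have z1 : 0 ≤ (w : ℝ) ^ (1 / 2 - τ') := Real.rpow_nonneg hwR.le _
            have z2 : 0 ≤ (w : ℝ) ^ (-τ') := Real.rpow_nonneg hwR.le _
            have z3 : (1 : ℝ) ≤ w₀ ^ 4 := one_le_pow₀ hw₀1
            gcongr)
  have hup := hS2 w (W * Λ ^ 46) hsq (by
      have h1 : 1 ≤ W := by rw [hW]; exact Real.one_le_rpow hw1 (by norm_num)
      have h2 : 1 ≤ Λ ^ 46 := one_le_pow₀ (by linarith)
      nlinarith) (by
      rw [hW, hΛn, ← Real.rpow_add hwR]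
      apply hmono; push_cast; linarith) (by
      rw [hW, hΛn, ← Real.rpow_add hwR]
      apply hmono; push_cast; linarith)
  have h1 := hmain.trans hup
  have e1 : (w : ℝ) / Λ ^ 62 = (w : ℝ) ^ (1 - τ * 62) := by
    rw [hΛn, Real.rpow_sub hwR, Real.rpow_one]; norm_num
  have e2 : C₂ * (W * Λ ^ 46) ^ 2 * (w : ℝ) ^ (-δ) = C₂ * (w : ℝ) ^ (1 + τ * 92 - δ) := by
    have : (W * Λ ^ 46) ^ 2 = (w : ℝ) ^ (1 + τ * 92) := by
      rw [mul_pow, hW2, ← pow_mul, hΛn, Real.rpow_add hwR, Real.rpow_one]; norm_num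
    rw [this, mul_assoc, ← Real.rpow_add hwR]; rfl
  rw [e1, e2] at h1
  have h2 : (w : ℝ) ^ (1 - τ * 62) < (w : ℝ) ^ (1 - τ * 62) := by
    calc (w : ℝ) ^ (1 - τ * 62) ≤ C₂ * (w : ℝ) ^ (1 + τ * 92 - δ) := h1
      _ < (w : ℝ) ^ (δ / 2) * (w : ℝ) ^ (1 + τ * 92 - δ) :=
          mul_lt_mul_of_pos_right g3 (Real.rpow_pos_of_pos hwR _)
      _ = (w : ℝ) ^ (δ / 2 + (1 + τ * 92 - δ)) := (Real.rpow_add hwR _ _).symm
      _ ≤ _ := hmono _ _ (by linarith)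
  exact lt_irrefl _ h2


theorem g_thm (hk : KAPStmt) (hs : S2Stmt) : GStmt := by
  have h : ∀ ef : ℕ × ℕ, ∃ τC : ℝ × ℝ, 0 < τC.1 ∧ 1 ≤ τC.2 ∧ (1 ≤ ef.1 → ef.1 ≤ 8 →
    1 ≤ ef.2 → ef.2 ≤ 8 → ef.1 ≠ ef.2 →
    ∀ τ' : ℝ, 0 < τ' → τ' ≤ τC.1 →  ∀ (w : ℕ) (V V' : ℝ)
    (S : Finset (((ℕ × ℕ) × (ℕ × ℕ)) × ((ℕ × ℕ) × (ℕ × ℕ)))), Squarefree w →
    (w : ℝ) ^ (1 / 2 - τ') ≤ V → V ≤ (w : ℝ) ^ (1 / 2 + τ') →
    (w : ℝ) ^ (1 / 2 - τ') ≤ V' → V' ≤ (w : ℝ) ^ (1 / 2 + τ') →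
    (∀ s ∈ S, (∀ t : ℕ × ℕ, t = s.1.1 ∨ t = s.2.1 → 0 < t.1 ∧ (t.1 : ℝ) ≤ V ∧ 0 < t.2 ∧
        (t.2 : ℝ) ≤ V ∧ Nat.Coprime t.1 t.2 ∧ Nat.Coprime t.1 w ∧ Nat.Coprime t.2 w) ∧
      (∀ t : ℕ × ℕ, t = s.1.2 ∨ t = s.2.2 → 0 < t.1 ∧ (t.1 : ℝ) ≤ V' ∧ 0 < t.2 ∧
        (t.2 : ℝ) ≤ V' ∧ Nat.Coprime t.1 t.2 ∧ Nat.Coprime t.1 w ∧ Nat.Coprime t.2 w) ∧
      (s.1.1.1 * s.2.1.2) ^ ef.1 * (s.1.2.1 * s.2.2.2) ^ ef.2 ≡
        (s.2.1.1 * s.1.1.2) ^ ef.1 * (s.2.2.1 * s.1.2.2) ^ ef.2 [MOD w ^ 3] ∧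
      (w : ℝ) ^ (1 - τ') * Nat.gcd (s.1.1.1 * s.2.1.2) (s.2.1.1 * s.1.1.2) ≤
        max (s.1.1.1 * s.2.1.2) (s.2.1.1 * s.1.1.2) ∧
      (w : ℝ) ^ (1 - τ') * Nat.gcd (s.1.2.1 * s.2.2.2) (s.2.2.1 * s.1.2.2) ≤
        max (s.1.2.1 * s.2.2.2) (s.2.2.1 * s.1.2.2)) →
    (S.card : ℝ) ≤ τC.2 * (w : ℝ) ^ (-τ') * V ^ 2 * V' ^ 2) := by
    intro ef
    by_cases hef : 1 ≤ ef.1 ∧ ef.1 ≤ 8 ∧ 1 ≤ ef.2 ∧ ef.2 ≤ 8 ∧ ef.1 ≠ ef.2
    · obtain ⟨h1, h2, h3, h4, h5⟩ := hef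
      obtain ⟨τ, C, k1, _, k3, k4⟩ := g_one hk hs ef.1 ef.2 h1 h2 h3 h4 h5
      exact ⟨(τ, C), k1, k3, fun _ _ _ _ _ => k4⟩
    · exact ⟨(1, 1), by norm_num, by norm_num, fun h1 h2 h3 h4 h5 =>
        absurd ⟨h1, h2, h3, h4, h5⟩ hef⟩
  choose τC h1 h2 h3 using h
  obtain ⟨m, hm, hmin⟩ := Finset.exists_min_image ((Finset.Icc 1 8) ×ˢ (Finset.Icc 1 8))
    (fun ef : ℕ × ℕ => (τC ef).1) ⟨(1, 1), by simp⟩
  refine ⟨(τC m).1, (τC m).1, (τC m).1, ∑ ef ∈ (Finset.Icc 1 8) ×ˢ (Finset.Icc 1 8), (τC ef).2,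
    h1 m, h1 m, h1 m, ?_, ?_⟩
  · exact (h2 m).trans (Finset.single_le_sum (f := fun ef => (τC ef).2)
      (fun ef _ => by linarith [h2 ef]) hm)
  · intro e f he he8 hf hf8 hef w V V' S hsq hV1 hV2 hV'1 hV'2 hS
    have hmem : ((e, f) : ℕ × ℕ) ∈ (Finset.Icc 1 8) ×ˢ (Finset.Icc 1 8) := by
      simp only [Finset.mem_product, Finset.mem_Icc]; exact ⟨⟨he, he8⟩, ⟨hf, hf8⟩⟩
    have hb := h3 (e, f) he he8 hf hf8 hef (τC m).1 (h1 m) (hmin _ hmem) w V V' S hsq hV1 hV2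
      hV'1 hV'2 hS
    refine hb.trans ?_
    have hC : (τC (e, f)).2 ≤ ∑ ef ∈ (Finset.Icc 1 8) ×ˢ (Finset.Icc 1 8), (τC ef).2 :=
      Finset.single_le_sum (f := fun ef => (τC ef).2) (fun ef _ => by linarith [h2 ef]) hmem
    have z : 0 ≤ (w : ℝ) ^ (-(τC m).1) := Real.rpow_nonneg (by positivity) _
    gcongr

end Pool.Agent.Helper21.EN
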