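import Pool.Agent.Helper21.EN.Stmts

set_option autoImplicit false

/-!
# Project EN, piece GV

The statement is in EN/Stmts.lean. Paper: /team-store/EN_paper.md.

Proof. Same constants. For s in S all coordinates l not in {i,j} are 1. Map s = (z,z') (z = (x,y) vectors) to (((x_i,y_i),(x_j,y_j)),((x'_i,y'_i),(x'_j,y'_j))): injective on S, its image satisfies the hypotheses of h with e = i, f = j, V = P i, V' = P j:
SameVal (w^3) z z' reads x_i^i x_j^j y'_i^i y'_j^j = x'_i^i x'_j^j y_i^i y_j^j; ht (redv z z') i = max(x_i y'_i, x'_i y_i)/gcd (exact division), coprime to w^3 iff coprime to w (w >= 1).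
-/

namespace Pool.Agent.Helper21.EN

open Finset

theorem gv_le {x : ℕ} {P : ℝ} (h : x ∈ Finset.Icc 1 ⌊P⌋₊) : 0 < x ∧ (x : ℝ) ≤ P := by
  rw [Finset.mem_Icc] at h
  have h1 : 0 < ⌊P⌋₊ := lt_of_lt_of_le (by omega) (h.1.trans h.2)
  refine ⟨by omega, le_trans ?_ (Nat.floor_le (Nat.pos_of_floor_pos h1).le)⟩
  exact_mod_cast h.2

theorem gv_one {x : ℕ} {P : ℝ} (h : x ∈ Finset.Icc 1 ⌊P⌋₊) (hP : P = 1) : x = 1 := by
  rw [hP, Nat.floor_one, Finset.mem_Icc] at h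
  omega

theorem gv_mem {M : ℕ} {P : Fin 9 → ℝ} {z : Vec × Vec} (h : z ∈ GBox M P P) :
    (∀ l, z.1 l ∈ Finset.Icc 1 ⌊P l⌋₊) ∧ (∀ l, z.2 l ∈ Finset.Icc 1 ⌊P l⌋₊) ∧
      (∀ l, Nat.Coprime (z.1 l) M) ∧ (∀ l, Nat.Coprime (z.2 l) M) := by
  classical
  unfold GBox vbox at h
  rw [Finset.mem_filter, Finset.mem_product, Fintype.mem_piFinset, Fintype.mem_piFinset] at h
  exact ⟨h.1.1, h.1.2, h.2.1, h.2.2⟩

theorem gv_mon {a : Vec} {i j : Fin 9} (hij : i ≠ j) (h : ∀ l, l ≠ i → l ≠ j → a l = 1) :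
    mon a = a i ^ (i : ℕ) * a j ^ (j : ℕ) := by
  unfold mon
  rw [← Finset.mul_prod_erase _ _ (Finset.mem_univ i),
    ← Finset.mul_prod_erase _ _ (Finset.mem_erase.2 ⟨hij.symm, Finset.mem_univ j⟩),
    Finset.prod_eq_one, mul_one]
  intro l hl
  rw [Finset.mem_erase, Finset.mem_erase] at hl
  rw [h l hl.2.1 hl.1, one_pow]

theorem gv_ext {a b : Vec} {i j : Fin 9} (ha : ∀ l, l ≠ i → l ≠ j → a l = 1)
    (hb : ∀ l, l ≠ i → l ≠ j → b l = 1) (hi : a i = b i) (hj : a j = b j) : a = b := by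
  funext l
  by_cases h1 : l = i
  · rw [h1, hi]
  by_cases h2 : l = j
  · rw [h2, hj]
  rw [ha l h1 h2, hb l h1 h2]

theorem gv_ht {A B : ℕ} {R : ℝ} (hA : 0 < A)
    (h : R ≤ ((max (A / Nat.gcd A B) (B / Nat.gcd A B) : ℕ) : ℝ)) :
    R * (Nat.gcd A B : ℝ) ≤ ((max A B : ℕ) : ℝ) := by
  have hg : 0 < Nat.gcd A B := Nat.gcd_pos_of_pos_left _ hA
  have h1 : max (A / Nat.gcd A B) (B / Nat.gcd A B) * Nat.gcd A B = max A B := by
    rcases le_total A B with h2 | h2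
    · rw [max_eq_right h2, max_eq_right (Nat.div_le_div_right h2),
        Nat.div_mul_cancel (Nat.gcd_dvd_right A B)]
    · rw [max_eq_left h2, max_eq_left (Nat.div_le_div_right h2),
        Nat.div_mul_cancel (Nat.gcd_dvd_left A B)]
  rw [← h1, Nat.cast_mul]
  exact mul_le_mul_of_nonneg_right h (Nat.cast_nonneg _)

theorem gv_thm (h : GStmt) : GVStmt := by
  classical
  obtain ⟨μ, η, δ, C, hμ, hη, hδ, hC, H⟩ := h
  refine ⟨μ, η, δ, C, hμ, hη, hδ, hC, ?_⟩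
  intro w P i j S hw hi hj hij hP hP1 hP2 hP3 hP4 hS
  let Φ : (Vec × Vec) × (Vec × Vec) → ((ℕ × ℕ) × (ℕ × ℕ)) × ((ℕ × ℕ) × (ℕ × ℕ)) := fun s =>
    (((s.1.1 i, s.1.2 i), (s.1.1 j, s.1.2 j)), ((s.2.1 i, s.2.2 i), (s.2.1 j, s.2.2 j)))
  have hone : ∀ s ∈ S, (∀ l, l ≠ i → l ≠ j → s.1.1 l = 1) ∧ (∀ l, l ≠ i → l ≠ j → s.1.2 l = 1) ∧
      (∀ l, l ≠ i → l ≠ j → s.2.1 l = 1) ∧ (∀ l, l ≠ i → l ≠ j → s.2.2 l = 1) := by
    intro s hs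
    have h1 := gv_mem (hS s hs).1
    have h2 := gv_mem (hS s hs).2.1
    exact ⟨fun l a b => gv_one (h1.1 l) (hP l a b), fun l a b => gv_one (h1.2.1 l) (hP l a b),
      fun l a b => gv_one (h2.1 l) (hP l a b), fun l a b => gv_one (h2.2.1 l) (hP l a b)⟩
  have hinj : Set.InjOn Φ S := by
    intro s hs s' hs' hss
    simp only [Φ, Prod.mk.injEq] at hss
    obtain ⟨a1, a2, a3, a4⟩ := hone s hs
    obtain ⟨b1, b2, b3, b4⟩ := hone s' hs'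
    obtain ⟨⟨⟨e1, e2⟩, e3, e4⟩, ⟨e5, e6⟩, e7, e8⟩ := hss
    refine Prod.ext (Prod.ext ?_ ?_) (Prod.ext ?_ ?_)
    · exact gv_ext a1 b1 e1 e3
    · exact gv_ext a2 b2 e2 e4
    · exact gv_ext a3 b3 e5 e7
    · exact gv_ext a4 b4 e6 e8
  rw [← Finset.card_image_of_injOn hinj]
  have hwd : w ∣ w ^ 3 := dvd_pow_self w (by norm_num)
  have hi1 : 1 ≤ (i : ℕ) := Nat.one_le_iff_ne_zero.2 (fun h0 => hi (Fin.ext h0))
  have hj1 : 1 ≤ (j : ℕ) := Nat.one_le_iff_ne_zero.2 (fun h0 => hj (Fin.ext h0))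
  have hi8 : (i : ℕ) ≤ 8 := by have := i.2; omega
  have hj8 : (j : ℕ) ≤ 8 := by have := j.2; omega
  have hij' : (i : ℕ) ≠ j := fun h0 => hij (Fin.ext h0)
  refine H i j hi1 hi8 hj1 hj8 hij' w (P i) (P j) (S.image Φ) hw hP1 hP2 hP3 hP4 ?_
  intro s' hs'
  obtain ⟨s, hs, rfl⟩ := Finset.mem_image.1 hs'
  obtain ⟨g1, g2, g3, g4, g5, g6, g7⟩ := hS s hs
  obtain ⟨u1, u2, u3, u4⟩ := gv_mem g1
  obtain ⟨v1, v2, v3, v4⟩ := gv_mem g2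
  obtain ⟨a1, a2, a3, a4⟩ := hone s hs
  have hcop : ∀ {x : ℕ}, Nat.Coprime x (w ^ 3) → Nat.Coprime x w := fun hx =>
    Nat.Coprime.coprime_dvd_right hwd hx
  refine ⟨?_, ?_, ?_, ?_, ?_⟩
  · intro t ht
    simp only [Φ] at ht
    rcases ht with rfl | rfl
    · exact ⟨(gv_le (u1 i)).1, (gv_le (u1 i)).2, (gv_le (u2 i)).1, (gv_le (u2 i)).2, g3 i,
        hcop (u3 i), hcop (u4 i)⟩
    · exact ⟨(gv_le (v1 i)).1, (gv_le (v1 i)).2, (gv_le (v2 i)).1, (gv_le (v2 i)).2, g4 i,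
        hcop (v3 i), hcop (v4 i)⟩
  · intro t ht
    simp only [Φ] at ht
    rcases ht with rfl | rfl
    · exact ⟨(gv_le (u1 j)).1, (gv_le (u1 j)).2, (gv_le (u2 j)).1, (gv_le (u2 j)).2, g3 j,
        hcop (u3 j), hcop (u4 j)⟩
    · exact ⟨(gv_le (v1 j)).1, (gv_le (v1 j)).2, (gv_le (v2 j)).1, (gv_le (v2 j)).2, g4 j,
        hcop (v3 j), hcop (v4 j)⟩
  · simp only [Φ]
    unfold SameVal at g5
    rw [gv_mon hij a1, gv_mon hij a4, gv_mon hij a3, gv_mon hij a2] at g5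
    have e1 : (s.1.1 i * s.2.2 i) ^ (i : ℕ) * (s.1.1 j * s.2.2 j) ^ (j : ℕ) =
        s.1.1 i ^ (i : ℕ) * s.1.1 j ^ (j : ℕ) * (s.2.2 i ^ (i : ℕ) * s.2.2 j ^ (j : ℕ)) := by
      rw [mul_pow, mul_pow]; ring
    have e2 : (s.2.1 i * s.1.2 i) ^ (i : ℕ) * (s.2.1 j * s.1.2 j) ^ (j : ℕ) =
        s.2.1 i ^ (i : ℕ) * s.2.1 j ^ (j : ℕ) * (s.1.2 i ^ (i : ℕ) * s.1.2 j ^ (j : ℕ)) := by
      rw [mul_pow, mul_pow]; ring
    rw [e1, e2]
    exact g5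
  · simp only [Φ]
    have h1 : 0 < s.1.1 i * s.2.2 i := Nat.mul_pos (gv_le (u1 i)).1 (gv_le (v2 i)).1
    have h2 := gv_ht h1 g6
    push_cast at h2 ⊢
    exact h2
  · simp only [Φ]
    have h1 : 0 < s.1.1 j * s.2.2 j := Nat.mul_pos (gv_le (u1 j)).1 (gv_le (v2 j)).1
    have h2 := gv_ht h1 g7
    push_cast at h2 ⊢
    exact h2

end Pool.Agent.Helper21.EN
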