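import Pool.Agent.Helper21.EN.Stmts
import Pool.Agent.Helper94.Abc.Basic
import Pool.Agent.Helper26.Abc2.Roots

set_option autoImplicit false

/-!
# Project EN, piece KAP: the constant kappa
-/

namespace Pool.Agent.Helper21.EN

open Finset

/-- the constants for the numbers of roots, uniform for `1 ≤ j ≤ 8` -/
theorem kap_roots {ε : ℝ} (hε : 0 < ε) : ∃ C : ℝ, 0 < C ∧ ∀ j : ℕ, 1 ≤ j → j ≤ 8 →
    ∀ q a : ℕ, 0 < q → Nat.Coprime a q →
      (((Finset.range q).filter (fun x => x ^ j ≡ a [MOD q])).card : ℝ) ≤ C * (q : ℝ) ^ ε := by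
  have h : ∀ j : ℕ, ∃ C : ℝ, 0 < C ∧ (1 ≤ j → ∀ q a : ℕ, 0 < q → Nat.Coprime a q →
      (((Finset.range q).filter (fun x => x ^ j ≡ a [MOD q])).card : ℝ) ≤ C * (q : ℝ) ^ ε) := by
    intro j
    rcases Nat.eq_zero_or_pos j with h0 | h0
    · exact ⟨1, one_pos, fun h => by omega⟩
    · obtain ⟨C, hC, h⟩ := Pool.Agent.Helper26.Abc2.card_roots h0 hε
      exact ⟨C, hC, fun _ => h⟩
  choose C hC hC2 using h
  refine ⟨∑ j ∈ Finset.range 9, C j, Finset.sum_pos (fun j _ => hC j) ⟨0, by simp⟩, ?_⟩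
  intro j h1 h8 q a hq ha
  refine (hC2 j h1 q a hq ha).trans ?_
  have hle : C j ≤ ∑ j ∈ Finset.range 9, C j :=
    Finset.single_le_sum (f := C) (fun i _ => (hC i).le) (Finset.mem_range.2 (by omega))
  have : (0 : ℝ) ≤ (q : ℝ) ^ ε := Real.rpow_nonneg (Nat.cast_nonneg q) ε
  gcongr

theorem kap_thm (hdir : DIRStmt) : KAPStmt := by
  intro ε hε
  obtain ⟨C1, hC1, h1⟩ := Pool.Agent.Helper94.Abc.divisor_bound (ε := ε / 40) (by positivity)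
  obtain ⟨C2, hC2, h2⟩ := kap_roots (ε := ε / 3) (by positivity)
  obtain ⟨C3, hC3, h3⟩ := hdir (ε / 27) (by positivity)
  refine ⟨C1 + C2 + C3, by linarith, fun w hw => ?_⟩
  have hw1 : (1 : ℝ) ≤ w := by exact_mod_cast hw
  have hw0 : (0 : ℝ) ≤ w := by linarith
  have hwe : 1 ≤ (w : ℝ) ^ ε := Real.one_le_rpow hw1 hε.le
  have hpow : ∀ (k : ℕ) (y : ℝ), 0 ≤ y → (k : ℝ) ≠ 0 → y ≤ (w : ℝ) ^ k →
      y ^ (ε / k) ≤ (w : ℝ) ^ ε := by
    intro k y hy hk hyk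
    calc y ^ (ε / k) ≤ ((w : ℝ) ^ k) ^ (ε / k) :=
          Real.rpow_le_rpow hy hyk (by positivity)
      _ = (w : ℝ) ^ ε := by
          rw [← Real.rpow_natCast, ← Real.rpow_mul hw0]
          congr 1
          field_simp
  refine ⟨?_, ?_, ?_, ?_⟩
  · nlinarith
  · intro n hn hnw
    have h4 := h1 n hn.ne'
    have h5 : (n : ℝ) ^ (ε / 40) ≤ (w : ℝ) ^ ε := by
      have := hpow 40 n (Nat.cast_nonneg n) (by norm_num) (by exact_mod_cast hnw)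
      exact_mod_cast this
    calc (n.divisors.card : ℝ) ≤ C1 * (n : ℝ) ^ (ε / 40) := h4
      _ ≤ C1 * (w : ℝ) ^ ε := by gcongr
      _ ≤ (C1 + C2 + C3) * (w : ℝ) ^ ε := by
          gcongr
          linarith
  · intro j hj1 hj8 m hm hmw a ha
    have h4 := h2 j hj1 hj8 m a hm ha
    have h5 : (m : ℝ) ^ (ε / 3) ≤ (w : ℝ) ^ ε := by
      have := hpow 3 m (Nat.cast_nonneg m) (by norm_num) (by exact_mod_cast hmw)
      exact_mod_cast this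
    refine h4.trans ?_
    calc C2 * (m : ℝ) ^ (ε / 3) ≤ C2 * (w : ℝ) ^ ε := by gcongr
      _ ≤ (C1 + C2 + C3) * (w : ℝ) ^ ε := by
          gcongr
          linarith
  · intro j hj1 hj8 c hc P Q hP hQ hPw hQw S hS
    have h4 := h3 j (w ^ 3) c P Q S hj1 hj8 (by positivity) (hc.pow_right 3) hP hQ (by
      intro s hs
      obtain ⟨s1, s2, s3, s4, s5, s6, s7, s8⟩ := hS s hs
      exact ⟨s1, s2, s3, s4, s5, s6.pow_right 3, s7.pow_right 3, s8⟩)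
    have hP0 : 0 ≤ P := by linarith
    have hQ0 : 0 ≤ Q := by linarith
    have h5 : (((w ^ 3 : ℕ) : ℝ) * P * Q) ^ (ε / 27) ≤ (w : ℝ) ^ ε := by
      have h6 : ((w ^ 3 : ℕ) : ℝ) * P * Q ≤ (w : ℝ) ^ 27 := by
        push_cast
        calc (w : ℝ) ^ 3 * P * Q ≤ (w : ℝ) ^ 3 * (w : ℝ) ^ 12 * (w : ℝ) ^ 12 := by gcongr
          _ = (w : ℝ) ^ 27 := by ring
      have := hpow 27 (((w ^ 3 : ℕ) : ℝ) * P * Q) (by positivity) (by norm_num) h6
      exact_mod_cast this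
    have h7 : 0 ≤ 1 + P * Q / (w : ℝ) ^ 3 := by positivity
    have hcast : ((w ^ 3 : ℕ) : ℝ) = (w : ℝ) ^ 3 := by push_cast; ring
    calc (S.card : ℝ) ≤ C3 * (((w ^ 3 : ℕ) : ℝ) * P * Q) ^ (ε / 27) *
          (1 + P * Q / ((w ^ 3 : ℕ) : ℝ)) := h4
      _ = C3 * (((w ^ 3 : ℕ) : ℝ) * P * Q) ^ (ε / 27) * (1 + P * Q / (w : ℝ) ^ 3) := by
          rw [hcast]
      _ ≤ C3 * (w : ℝ) ^ ε * (1 + P * Q / (w : ℝ) ^ 3) := by gcongr
      _ ≤ (C1 + C2 + C3) * (w : ℝ) ^ ε * (1 + P * Q / (w : ℝ) ^ 3) := by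
          gcongr
          linarith

end Pool.Agent.Helper21.EN
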