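import Pool.Agent.Helper21.EN.Stmts
import Pool.Agent.Helper21.EN.Dec
import Pool.Agent.Helper94.Abc.Basic

set_option autoImplicit false

/-!
# Project EN, piece L0

The statement is in EN/Stmts. Paper: /team-store/EN_paper.md.

Proof (EN_paper.md section 7 (L0)); decomposition lemmas are in EN/Dec: pvec, vrest, vrest_mul, rad_vrest_mul, pvec_squarefree, pvec_coprime, mon_inj, vrest_le, ... For t = (p,q,M) put Fp = vrest Sp p, Fq = vrest Sq q, x = pvec Sp p, y = pvec Sq q: p = Fp mon x, q = Fq mon y, rad Fp rad Fq <= R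
(divide the hypothesis by the products of pc). t is determined by (M, (Fp,Fq), (x,y)). Treat separately the sign p = q, p = -q modulo M. For fixed M and sign: F_M = pairs (Fp,Fq) (coprime, coprime to M, <= X, |F| <= C X^eps R by hrp, all inside one fixed set F of coprime pairs),
G_M = pairs (x,y) in GBox M P Q with x_i squarefree, pairwise coprime, the same for y, mon x coprime to mon y. Relation: Fp mon x = +- Fq mon y modulo M. Value classes modulo M: sum_v |Fv||Gv| where fibres of size |Gv| <= 2 contribute <= 2|F| and the others satisfy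
|Gv|^2 <= 2 #{(g,g') in Gv^2, g <> g'}: sum <= 2|F| + sqrt(2 E_M Eoff_M), E_M = #{(F,F') : Fp Fq' = Fp' Fq modulo M}, Eoff_M = #{(g,g') : g <> g', SameVal M g g'}.
Sum over M in MM: sum_M E_M <= |MM||F| + (pairs F <> F': Fp Fq' - Fp' Fq is not 0 for different coprime pairs, absolute value <= X^2, so at most C X^eps divisors M: Pool.Agent.Helper94.Abc.divisor_bound) <= C X^eps (|MM| R + R^2).
Eoff_M <= C X^eps K prod P_iQ_i by h1 with pred z = (exists i, M^(1/36) <= ht z i), S' = (Sol M (PQ)).filter pred, and h2: for g <> g' mon x mon y' <> mon x' mon y (if equal, coprimality gives mon x = mon x', mon y = mon y', mon_inj gives x = x', y = y'; coordinate 0 is 1 because 0 is not in Sp, Sq),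
but they are congruent modulo M, so after reduction mon alpha <> mon beta, congruent modulo M, so max(mon alpha, mon beta) >= M, and mon alpha <= (max_i ht_i)^36 (0+1+..+8 = 36): some ht_i >= M^(1/36).
Cauchy-Schwarz over M: sum_M sqrt(2 E_M Eoff_M) <= sqrt(2 sum E_M) sqrt(|MM| C X^eps K prod P_iQ_i). prod P_iQ_i <= X^18 so (prod)^eps' <= X^(18 eps').
-/

namespace Pool.Agent.Helper21.EN

open Finset

/-- abstract counting lemma -/
lemma l0_je {α β γ : Type*} [DecidableEq α] [DecidableEq β] [DecidableEq γ] (A : Finset α)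
    (B : Finset β) (φ : α → γ) (ψ : β → γ) :
    (((A ×ˢ B).filter (fun z => φ z.1 = ψ z.2)).card : ℝ) ≤ A.card +
      Real.sqrt (2 * (((A ×ˢ A).filter (fun z => φ z.1 = φ z.2)).card : ℝ) *
        (((B ×ˢ B).filter (fun z => z.1 ≠ z.2 ∧ ψ z.1 = ψ z.2)).card : ℝ)) := by
  set f : γ → ℕ := fun v => (A.filter (fun a => φ a = v)).card with hf
  set g : γ → ℕ := fun v => (B.filter (fun b => ψ b = v)).card with hg
  set h : γ → ℕ := fun v => if 2 ≤ g v then g v else 0 with hh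
  set V := A.image φ with hV
  have e1 : ((A ×ˢ B).filter (fun z => φ z.1 = ψ z.2)).card = ∑ a ∈ A, g (φ a) := by
    rw [card_filter, sum_product]
    refine sum_congr rfl fun a _ => ?_
    rw [hg]
    beta_reduce
    rw [card_filter]
    refine sum_congr rfl fun b _ => ?_
    simp only [eq_comm]
  have e2 : ((A ×ˢ A).filter (fun z => φ z.1 = φ z.2)).card = ∑ v ∈ V, f v * f v := by
    rw [card_filter, sum_product]
    have : ∀ a ∈ A, (∑ b ∈ A, if φ a = φ b then 1 else 0) = f (φ a) := by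
      intro a _
      rw [hf]
      beta_reduce
      rw [card_filter]
      refine sum_congr rfl fun b _ => ?_
      simp only [eq_comm]
    rw [sum_congr rfl this, sum_comp f φ]
    refine sum_congr rfl fun v _ => ?_
    rw [smul_eq_mul]
  have e3 : ∑ a ∈ A, h (φ a) = ∑ v ∈ V, f v * h v := by
    rw [sum_comp h φ]
    refine sum_congr rfl fun v _ => ?_
    rw [smul_eq_mul]
  have e4 : ∑ a ∈ A, g (φ a) ≤ A.card + ∑ a ∈ A, h (φ a) := by
    rw [card_eq_sum_ones, ← sum_add_distrib]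
    refine sum_le_sum fun a _ => ?_
    simp only [hh]
    split_ifs <;> omega
  have e5 : ∑ v ∈ V, h v * h v ≤
      2 * ((B ×ˢ B).filter (fun z => z.1 ≠ z.2 ∧ ψ z.1 = ψ z.2)).card := by
    set D := (B ×ˢ B).filter (fun z => z.1 ≠ z.2 ∧ ψ z.1 = ψ z.2) with hD
    have h1 : ∑ v ∈ V, (D.filter (fun z => ψ z.1 = v)).card ≤ D.card := by
      rw [← card_biUnion]
      · refine card_le_card fun z hz => ?_
        rw [mem_biUnion] at hz
        obtain ⟨v, -, hz⟩ := hz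
        exact (mem_filter.1 hz).1
      · intro v _ v' _ hvv
        rw [Function.onFun, disjoint_left]
        intro z hz hz'
        exact hvv ((mem_filter.1 hz).2.symm.trans (mem_filter.1 hz').2)
    have h2 : ∀ v ∈ V, h v * h v ≤ 2 * (D.filter (fun z => ψ z.1 = v)).card := by
      intro v _
      have h3 : D.filter (fun z => ψ z.1 = v) = (B.filter (fun b => ψ b = v)).offDiag := by
        ext z
        rw [mem_filter, hD, mem_filter, mem_product, mem_offDiag, mem_filter, mem_filter]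
        constructor
        · rintro ⟨⟨⟨h1, h2⟩, h3, h4⟩, h5⟩
          exact ⟨⟨h1, h5⟩, ⟨h2, h4 ▸ h5⟩, h3⟩
        · rintro ⟨⟨h1, h2⟩, ⟨h3, h4⟩, h5⟩
          exact ⟨⟨⟨h1, h3⟩, h5, h2.trans h4.symm⟩, h2⟩
      rw [h3, offDiag_card]
      simp only [hh]
      change (if 2 ≤ g v then g v else 0) * (if 2 ≤ g v then g v else 0) ≤
        2 * (g v * g v - g v)
      split_ifs with h6
      · have : g v * 2 ≤ g v * g v := Nat.mul_le_mul_left _ h6
        omega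
      · omega
    calc ∑ v ∈ V, h v * h v ≤ ∑ v ∈ V, 2 * (D.filter (fun z => ψ z.1 = v)).card :=
          sum_le_sum h2
      _ = 2 * ∑ v ∈ V, (D.filter (fun z => ψ z.1 = v)).card := by rw [mul_sum]
      _ ≤ 2 * D.card := Nat.mul_le_mul_left _ h1
  have e6 : (∑ v ∈ V, (f v : ℝ) * h v) ≤
      Real.sqrt (∑ v ∈ V, (f v : ℝ) ^ 2) * Real.sqrt (∑ v ∈ V, (h v : ℝ) ^ 2) :=
    Real.sum_mul_le_sqrt_mul_sqrt _ _ _
  rw [e1]
  have e7 : ((∑ a ∈ A, g (φ a) : ℕ) : ℝ) ≤ A.card + ∑ v ∈ V, (f v : ℝ) * h v := by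
    have := e4
    rw [e3] at this
    exact_mod_cast this
  refine e7.trans (add_le_add le_rfl (e6.trans ?_))
  rw [← Real.sqrt_mul (sum_nonneg fun v _ => sq_nonneg _)]
  apply Real.sqrt_le_sqrt
  rw [e2]
  have e8 : (∑ v ∈ V, (h v : ℝ) ^ 2) ≤
      2 * (((B ×ˢ B).filter (fun z => z.1 ≠ z.2 ∧ ψ z.1 = ψ z.2)).card : ℝ) := by
    have : (∑ v ∈ V, (h v : ℝ) ^ 2) = ((∑ v ∈ V, h v * h v : ℕ) : ℝ) := by
      push_cast
      exact sum_congr rfl fun v _ => by ring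
    rw [this]
    exact_mod_cast e5
  have e9 : (∑ v ∈ V, (f v : ℝ) ^ 2) = ((∑ v ∈ V, f v * f v : ℕ) : ℝ) := by
    push_cast
    exact sum_congr rfl fun v _ => by ring
  rw [e9]
  calc ((∑ v ∈ V, f v * f v : ℕ) : ℝ) * ∑ v ∈ V, (h v : ℝ) ^ 2
      ≤ ((∑ v ∈ V, f v * f v : ℕ) : ℝ) *
        (2 * (((B ×ˢ B).filter (fun z => z.1 ≠ z.2 ∧ ψ z.1 = ψ z.2)).card : ℝ)) :=
        mul_le_mul_of_nonneg_left e8 (Nat.cast_nonneg _)
    _ = _ := by ring

lemma l0_frac {a b c d : ℕ} (ha : 0 < a) (h : a * d = c * b) (h1 : Nat.Coprime a b)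
    (h2 : Nat.Coprime c d) : a = c ∧ b = d := by
  have e1 : a ∣ c := by
    refine h1.dvd_of_dvd_mul_right ?_
    rw [← h]; exact dvd_mul_right _ _
  have e2 : c ∣ a := by
    refine h2.dvd_of_dvd_mul_right ?_
    rw [h]; exact dvd_mul_right _ _
  have e3 : a = c := Nat.dvd_antisymm e1 e2
  subst e3
  exact ⟨rfl, (Nat.eq_of_mul_eq_mul_left ha h).symm⟩

/-- properties of the pairs of vectors which occur -/
structure l0_Nice (M : ℕ) (z : Vec × Vec) : Prop where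
  s1 : ∀ i, Squarefree (z.1 i)
  s2 : ∀ i, Squarefree (z.2 i)
  c1 : ∀ i j, i ≠ j → Nat.Coprime (z.1 i) (z.1 j)
  c2 : ∀ i j, i ≠ j → Nat.Coprime (z.2 i) (z.2 j)
  m1 : ∀ i, Nat.Coprime (z.1 i) M
  m2 : ∀ i, Nat.Coprime (z.2 i) M
  z1 : z.1 0 = 1
  z2 : z.2 0 = 1
  cp : Nat.Coprime (mon z.1) (mon z.2)

lemma l0_mon_coprime {M : ℕ} {x : Vec} (h : ∀ i, Nat.Coprime (x i) M) : Nat.Coprime (mon x) M :=
  Nat.Coprime.prod_left fun i _ => (h i).pow_left _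

lemma l0_nice_pos {M : ℕ} {z : Vec × Vec} (h : l0_Nice M z) : 0 < mon z.1 ∧ 0 < mon z.2 :=
  ⟨mon_pos fun i => Nat.pos_of_ne_zero (h.s1 i).ne_zero,
    mon_pos fun i => Nat.pos_of_ne_zero (h.s2 i).ne_zero⟩

lemma l0_nice_eq {M : ℕ} {z z' : Vec × Vec} (h : l0_Nice M z) (h' : l0_Nice M z')
    (e : mon z.1 * mon z'.2 = mon z'.1 * mon z.2) : z = z' := by
  obtain ⟨e1, e2⟩ := l0_frac (l0_nice_pos h).1 e h.cp h'.cp
  refine Prod.ext (funext fun i => ?_) (funext fun i => ?_)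
  · by_cases hi : i = 0
    · subst hi; rw [h.z1, h'.z1]
    · exact mon_inj h.s1 h'.s1 h.c1 h'.c1 e1 hi
  · by_cases hi : i = 0
    · subst hi; rw [h.z2, h'.z2]
    · exact mon_inj h.s2 h'.s2 h.c2 h'.c2 e2 hi

lemma l0_mon_mul (x y : Vec) : mon x * mon y = mon (fun i => x i * y i) := by
  unfold mon
  rw [← prod_mul_distrib]
  exact prod_congr rfl fun i _ => by rw [mul_pow]

lemma l0_redv {M : ℕ} {z z' : Vec × Vec} (h : l0_Nice M z) (h' : l0_Nice M z') :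
    ∃ G : ℕ, Nat.Coprime G M ∧ mon z.1 * mon z'.2 = G * mon (redv z z').1 ∧
      mon z'.1 * mon z.2 = G * mon (redv z z').2 ∧ 0 < mon (redv z z').1 ∧
      0 < mon (redv z z').2 := by
  set g : Vec := fun i => Nat.gcd (z.1 i * z'.2 i) (z'.1 i * z.2 i) with hg
  have e1 : mon z.1 * mon z'.2 = mon g * mon (redv z z').1 := by
    rw [l0_mon_mul, l0_mon_mul]
    congr 1
    funext i
    exact (Nat.mul_div_cancel' (Nat.gcd_dvd_left _ _)).symm
  have e2 : mon z'.1 * mon z.2 = mon g * mon (redv z z').2 := by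
    rw [l0_mon_mul, l0_mon_mul]
    congr 1
    funext i
    exact (Nat.mul_div_cancel' (Nat.gcd_dvd_right _ _)).symm
  have p1 : 0 < mon z.1 * mon z'.2 := Nat.mul_pos (l0_nice_pos h).1 (l0_nice_pos h').2
  have p2 : 0 < mon z'.1 * mon z.2 := Nat.mul_pos (l0_nice_pos h').1 (l0_nice_pos h).2
  refine ⟨mon g, l0_mon_coprime fun i => ?_, e1, e2, ?_, ?_⟩
  · exact Nat.Coprime.coprime_dvd_left (Nat.gcd_dvd_left _ _)
      (Nat.Coprime.mul_left (h.m1 i) (h'.m2 i))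
  · rw [e1] at p1; exact Nat.pos_of_mul_pos_left p1
  · rw [e2] at p2; exact Nat.pos_of_mul_pos_left p2

lemma l0_mon_le {x : Vec} {c : ℝ} (hx : ∀ i, (x i : ℝ) ≤ c) : (mon x : ℝ) ≤ c ^ 36 := by
  have h1 : (mon x : ℝ) = ∏ i, (x i : ℝ) ^ (i : ℕ) := by
    unfold mon; push_cast; rfl
  have h2 : (∏ i : Fin 9, c ^ (i : ℕ)) = c ^ 36 := by
    rw [prod_pow_eq_pow_sum]
    rfl
  rw [h1, ← h2]
  exact prod_le_prod (fun i _ => pow_nonneg (Nat.cast_nonneg _) _)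
    fun i _ => pow_le_pow_left₀ (Nat.cast_nonneg _) (hx i) _

lemma l0_far {M : ℕ} {z z' : Vec × Vec} (h : l0_Nice M z) (h' : l0_Nice M z')
    (hne : z ≠ z') (hs : SameVal M z z') :
    ∃ i, (M : ℝ) ^ (1 / 36 : ℝ) ≤ ht (redv z z') i := by
  obtain ⟨G, hG, e1, e2, p1, p2⟩ := l0_redv h h'
  by_contra hc
  push Not at hc
  have hc36 : ((M : ℝ) ^ (1 / 36 : ℝ)) ^ 36 = M := by
    rw [← Real.rpow_natCast, ← Real.rpow_mul (Nat.cast_nonneg _)]
    norm_num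
  have b1 : mon (redv z z').1 ≤ M := by
    have : (mon (redv z z').1 : ℝ) ≤ M := by
      rw [← hc36]
      refine l0_mon_le fun i => ?_
      refine le_trans ?_ (hc i).le
      unfold ht
      exact_mod_cast le_max_left _ _
    exact_mod_cast this
  have b2 : mon (redv z z').2 ≤ M := by
    have : (mon (redv z z').2 : ℝ) ≤ M := by
      rw [← hc36]
      refine l0_mon_le fun i => ?_
      refine le_trans ?_ (hc i).le
      unfold ht
      exact_mod_cast le_max_right _ _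
    exact_mod_cast this
  have hmod : mon (redv z z').1 ≡ mon (redv z z').2 [MOD M] := by
    unfold SameVal at hs
    rw [e1, e2] at hs
    exact Nat.ModEq.cancel_left_of_coprime hG.symm hs
  have hne2 : mon (redv z z').1 ≠ mon (redv z z').2 := by
    intro he
    apply hne
    apply l0_nice_eq h h'
    rw [e1, e2, he]
  rcases lt_or_gt_of_ne hne2 with hlt | hlt
  · have := (Nat.modEq_iff_dvd' hlt.le).1 hmod
    have := Nat.le_of_dvd (by omega) this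
    omega
  · have := (Nat.modEq_iff_dvd' hlt.le).1 hmod.symm
    have := Nat.le_of_dvd (by omega) this
    omega

/-- the value of a pair of integers -/
noncomputable def l0_phi (M : ℕ) (F : ℕ × ℕ) : ZMod M := (F.1 : ZMod M) * (F.2 : ZMod M)⁻¹

/-- the value of a pair of vectors, with a sign -/
noncomputable def l0_psi (M : ℕ) (s : ℤ) (g : Vec × Vec) : ZMod M :=
  (s : ZMod M) * (mon g.2 : ZMod M) * (mon g.1 : ZMod M)⁻¹

lemma l0_rel {M : ℕ} {s : ℤ} {F : ℕ × ℕ} {g : Vec × Vec} (hF : Nat.Coprime F.2 M)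
    (hg : Nat.Coprime (mon g.1) M)
    (h : (M : ℤ) ∣ (F.1 * mon g.1 : ℕ) - s * (F.2 * mon g.2 : ℕ)) :
    l0_phi M F = l0_psi M s g := by
  have h1 : ((F.1 : ZMod M) * (mon g.1 : ZMod M)) = s * ((F.2 : ZMod M) * (mon g.2 : ZMod M)) := by
    have := (ZMod.intCast_zmod_eq_zero_iff_dvd _ M).2 h
    push_cast at this
    exact sub_eq_zero.1 this
  have h2 := ZMod.coe_mul_inv_eq_one F.2 hF
  have h3 := ZMod.coe_mul_inv_eq_one (mon g.1) hg
  unfold l0_phi l0_psi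
  calc (F.1 : ZMod M) * (F.2 : ZMod M)⁻¹
      = (F.1 : ZMod M) * ((mon g.1 : ZMod M) * (mon g.1 : ZMod M)⁻¹) * (F.2 : ZMod M)⁻¹ := by
        rw [h3, mul_one]
    _ = ((F.1 : ZMod M) * (mon g.1 : ZMod M)) * (mon g.1 : ZMod M)⁻¹ * (F.2 : ZMod M)⁻¹ := by
        ring
    _ = s * (mon g.2 : ZMod M) * (mon g.1 : ZMod M)⁻¹ * ((F.2 : ZMod M) * (F.2 : ZMod M)⁻¹) := by
        rw [h1]; ring
    _ = _ := by rw [h2, mul_one]

lemma l0_phi_eq {M : ℕ} {F F' : ℕ × ℕ} (hF : Nat.Coprime F.2 M) (hF' : Nat.Coprime F'.2 M)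
    (h : l0_phi M F = l0_phi M F') :
    (M : ℤ) ∣ (F.1 : ℤ) * F'.2 - F'.1 * F.2 := by
  have h2 := ZMod.coe_mul_inv_eq_one F.2 hF
  have h3 := ZMod.coe_mul_inv_eq_one F'.2 hF'
  unfold l0_phi at h
  rw [← ZMod.intCast_zmod_eq_zero_iff_dvd]
  push_cast
  have : (F.1 : ZMod M) * F'.2 = F'.1 * F.2 := by
    calc (F.1 : ZMod M) * F'.2 = F.1 * (F.2 * (F.2 : ZMod M)⁻¹) * F'.2 := by rw [h2, mul_one]
      _ = (F.1 * (F.2 : ZMod M)⁻¹) * F.2 * F'.2 := by ring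
      _ = F'.1 * (F'.2 * (F'.2 : ZMod M)⁻¹) * F.2 := by rw [h]; ring
      _ = _ := by rw [h3, mul_one]
  rw [this, sub_self]

lemma l0_psi_eq {M : ℕ} {s : ℤ} (hs : s * s = 1) {g g' : Vec × Vec}
    (hg : Nat.Coprime (mon g.1) M) (hg' : Nat.Coprime (mon g'.1) M)
    (h : l0_psi M s g = l0_psi M s g') : SameVal M g g' := by
  have h2 := ZMod.coe_mul_inv_eq_one (mon g.1) hg
  have h3 := ZMod.coe_mul_inv_eq_one (mon g'.1) hg'
  have hs' : (s : ZMod M) * s = 1 := by exact_mod_cast congrArg (Int.cast : ℤ → ZMod M) hs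
  unfold l0_psi at h
  unfold SameVal
  rw [← ZMod.natCast_eq_natCast_iff]
  push_cast
  have e1 : (s : ZMod M) * (mon g.2 : ZMod M) * (mon g.1 : ZMod M)⁻¹ * (s * mon g.1 * mon g'.1)
      = mon g'.1 * mon g.2 := by
    calc _ = ((s : ZMod M) * s) * (mon g.2 : ZMod M) * ((mon g.1 : ZMod M) * (mon g.1 : ZMod M)⁻¹)
          * mon g'.1 := by ring
      _ = _ := by rw [hs', h2]; ring
  have e2 : (s : ZMod M) * (mon g'.2 : ZMod M) * (mon g'.1 : ZMod M)⁻¹ *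
      (s * mon g.1 * mon g'.1) = mon g.1 * mon g'.2 := by
    calc _ = ((s : ZMod M) * s) * (mon g'.2 : ZMod M) *
          ((mon g'.1 : ZMod M) * (mon g'.1 : ZMod M)⁻¹) * mon g.1 := by ring
      _ = _ := by rw [hs', h3]; ring
  rw [← e1, ← e2, h]

/-- the pairs with congruent values, summed over the moduli -/
lemma l0_sumE (X : ℕ) (D : ℝ) (MM : Finset ℕ) (FF : Finset (ℕ × ℕ))
    (hD0 : 0 ≤ D) (hD : ∀ n : ℕ, n ≠ 0 → n ≤ X ^ 2 → (n.divisors.card : ℝ) ≤ D)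
    (hF : ∀ F ∈ FF, 0 < F.1 ∧ F.1 ≤ X ∧ 0 < F.2 ∧ F.2 ≤ X ∧ Nat.Coprime F.1 F.2) :
    ∑ M ∈ MM, ((((FF ×ˢ FF).filter
      (fun z => (M : ℤ) ∣ (z.1.1 : ℤ) * z.2.2 - z.2.1 * z.1.2)).card : ℕ) : ℝ) ≤
      MM.card * FF.card + (FF.card : ℝ) ^ 2 * D := by
  classical
  have h1 : ∑ M ∈ MM, ((((FF ×ˢ FF).filter
      (fun z => (M : ℤ) ∣ (z.1.1 : ℤ) * z.2.2 - z.2.1 * z.1.2)).card : ℕ) : ℝ) =
      ∑ z ∈ FF ×ˢ FF, ((MM.filter
        (fun M => ((M : ℕ) : ℤ) ∣ (z.1.1 : ℤ) * z.2.2 - z.2.1 * z.1.2)).card : ℝ) := by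
    simp only [card_filter]
    push_cast
    rw [sum_comm]
  rw [h1]
  have h2 : ∀ z ∈ FF ×ˢ FF, ((MM.filter
        (fun M => ((M : ℕ) : ℤ) ∣ (z.1.1 : ℤ) * z.2.2 - z.2.1 * z.1.2)).card : ℝ) ≤
      (if z.1 = z.2 then (MM.card : ℝ) else 0) + D := by
    intro z hz
    rw [mem_product] at hz
    by_cases he : z.1 = z.2
    · rw [if_pos he]
      have : ((MM.filter
        (fun M => ((M : ℕ) : ℤ) ∣ (z.1.1 : ℤ) * z.2.2 - z.2.1 * z.1.2)).card : ℝ) ≤ MM.card := by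
        exact_mod_cast card_filter_le _ _
      linarith
    · rw [if_neg he, zero_add]
      obtain ⟨a1, a2, a3, a4, a5⟩ := hF _ hz.1
      obtain ⟨b1, b2, b3, b4, b5⟩ := hF _ hz.2
      set n : ℤ := (z.1.1 : ℤ) * z.2.2 - z.2.1 * z.1.2 with hn
      have hn0 : n ≠ 0 := by
        intro h0
        apply he
        have h3 : z.1.1 * z.2.2 = z.2.1 * z.1.2 := by
          have := sub_eq_zero.1 h0
          exact_mod_cast this
        obtain ⟨c1, c2⟩ := l0_frac a1 h3 a5 b5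
        exact Prod.ext c1 c2
      have hn1 : n.natAbs ≤ X ^ 2 := by
        have c1 : z.1.1 * z.2.2 ≤ X ^ 2 := by
          rw [sq]; exact Nat.mul_le_mul a2 b4
        have c2 : z.2.1 * z.1.2 ≤ X ^ 2 := by
          rw [sq]; exact Nat.mul_le_mul b2 a4
        have c3 : ((z.1.1 * z.2.2 : ℕ) : ℤ) ≤ ((X ^ 2 : ℕ) : ℤ) := by exact_mod_cast c1
        have c4 : ((z.2.1 * z.1.2 : ℕ) : ℤ) ≤ ((X ^ 2 : ℕ) : ℤ) := by exact_mod_cast c2
        have c5 : (0 : ℤ) ≤ ((z.1.1 * z.2.2 : ℕ) : ℤ) := Int.natCast_nonneg _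
        have c6 : (0 : ℤ) ≤ ((z.2.1 * z.1.2 : ℕ) : ℤ) := Int.natCast_nonneg _
        push_cast at c3 c4 c5 c6
        have c7 : |n| ≤ ((X ^ 2 : ℕ) : ℤ) := by
          rw [abs_le]
          push_cast
          constructor <;> linarith
        omega
      refine le_trans ?_ (hD n.natAbs (by omega) hn1)
      have : MM.filter (fun M => ((M : ℕ) : ℤ) ∣ n) ⊆ n.natAbs.divisors := by
        intro M hM
        rw [mem_filter] at hM
        rw [Nat.mem_divisors]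
        exact ⟨Int.natCast_dvd.1 hM.2, by omega⟩
      exact_mod_cast card_le_card this
  refine (sum_le_sum h2).trans ?_
  rw [sum_add_distrib, sum_const, card_product, nsmul_eq_mul]
  have h3 : (∑ z ∈ FF ×ˢ FF, if z.1 = z.2 then (MM.card : ℝ) else 0) = MM.card * FF.card := by
    rw [sum_product]
    have : ∀ F ∈ FF, (∑ F' ∈ FF, if F = F' then (MM.card : ℝ) else 0) = MM.card := by
      intro F hF
      rw [sum_ite_eq, if_pos hF]
    rw [sum_congr rfl this, sum_const, nsmul_eq_mul, mul_comm]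
  rw [h3]
  push_cast
  nlinarith

/-- the off-diagonal energy of the pairs of vectors -/
lemma l0_off {ε C1 C2 : ℝ}
    (hC1 : ∀ (M : ℕ) (P Q : Fin 9 → ℝ) (pred : Vec × Vec → Prop)
    (S : Finset ((Vec × Vec) × (Vec × Vec))), 1 ≤ M → (∀ i, 1 ≤ P i) → (∀ i, 1 ≤ Q i) →
    (∀ s ∈ S, s.1 ∈ GBox M P Q ∧ s.2 ∈ GBox M P Q ∧ SameVal M s.1 s.2 ∧
      pred (redv s.1 s.2)) →
    ∀ S' : Finset (Vec × Vec), (∀ z ∈ Sol M (fun i => P i * Q i), pred z → z ∈ S') →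
    (S.card : ℝ) ≤ C1 * (∏ i, P i * Q i) ^ ε * ∑ z ∈ S', ∏ i, (P i * Q i) / ht z i)
    (hC2 : ∀ (M : ℕ) (B : Fin 9 → ℝ) (S' : Finset (Vec × Vec)) (K : ℝ), 1 ≤ M →
    (∀ i, 1 ≤ B i) → 0 ≤ K → S' ⊆ Sol M B →
    (∀ z ∈ S', ∀ U : Fin 9 → ℝ, (∀ i, ht z i ≤ U i ∧ U i ≤ 2 * ht z i ∧ U i ≤ B i) →
      NN M U ≤ K * ∏ i, U i) →
    ∑ z ∈ S', ∏ i, B i / ht z i ≤ C2 * (∏ i, B i) ^ ε * K * ∏ i, B i)
    (h01 : 0 ≤ C1) {M : ℕ} {P Q : Fin 9 → ℝ} {K : ℝ} (hM : 1 ≤ M) (hP : ∀ i, 1 ≤ P i)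
    (hQ : ∀ i, 1 ≤ Q i) (hK : 0 ≤ K)
    (hN : ∀ U : Fin 9 → ℝ, (∀ i, 1 ≤ U i ∧ U i ≤ P i * Q i) →
      (∃ i, (M : ℝ) ^ (1 / 36 : ℝ) ≤ U i) → NN M U ≤ K * ∏ i, U i)
    (S : Finset ((Vec × Vec) × (Vec × Vec)))
    (hS : ∀ s ∈ S, s.1 ∈ GBox M P Q ∧ s.2 ∈ GBox M P Q ∧ l0_Nice M s.1 ∧ l0_Nice M s.2 ∧
      s.1 ≠ s.2 ∧ SameVal M s.1 s.2) :
    (S.card : ℝ) ≤ C1 * (∏ i, P i * Q i) ^ ε *
      (C2 * (∏ i, P i * Q i) ^ ε * K * ∏ i, P i * Q i) := by
  classical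
  set pred : Vec × Vec → Prop := fun z => ∃ i, (M : ℝ) ^ (1 / 36 : ℝ) ≤ ht z i with hpred
  have h1 := hC1 M P Q pred S hM hP hQ (fun s hs => by
    obtain ⟨a1, a2, a3, a4, a5, a6⟩ := hS s hs
    exact ⟨a1, a2, a6, l0_far a3 a4 a5 a6⟩)
    ((Sol M (fun i => P i * Q i)).filter pred) (fun z hz hp => mem_filter.2 ⟨hz, hp⟩)
  have hB : ∀ i, 1 ≤ P i * Q i := fun i => one_le_mul_of_one_le_of_one_le (hP i) (hQ i)
  have hPi : 0 ≤ ∏ i, P i * Q i := prod_nonneg fun i _ => zero_le_one.trans (hB i)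
  have h2 := hC2 M (fun i => P i * Q i) ((Sol M (fun i => P i * Q i)).filter pred) K hM hB hK
    (filter_subset _ _) (fun z hz U hU => by
      rw [mem_filter] at hz
      obtain ⟨hz1, i, hi⟩ := hz
      refine hN U (fun j => ⟨?_, (hU j).2.2⟩) ⟨i, hi.trans (hU i).1⟩
      refine le_trans ?_ (hU j).1
      unfold Sol at hz1
      rw [mem_filter, mem_product] at hz1
      have h3 := hz1.1.1
      unfold vbox at h3
      rw [Fintype.mem_piFinset] at h3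
      have h4 := (mem_Icc.1 (h3 j)).1
      unfold ht
      have : 1 ≤ max (z.1 j) (z.2 j) := le_trans h4 (le_max_left _ _)
      exact_mod_cast this)
  refine h1.trans ?_
  refine mul_le_mul_of_nonneg_left h2 ?_
  exact mul_nonneg h01 (Real.rpow_nonneg hPi _)

/-- one modulus and one sign -/
lemma l0_one {X : ℕ} {Sp Sq : Finset (Fin 9)} {P Q : Fin 9 → ℝ}
    {TT : Finset (ℕ × ℕ × ℕ)} {M : ℕ} {s : ℤ} (hs : s * s = 1)
    (h0p : (0 : Fin 9) ∉ Sp) (h0q : (0 : Fin 9) ∉ Sq)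
    (hP : ∀ i, 1 ≤ P i) (hQ : ∀ i, 1 ≤ Q i)
    (hT : ∀ t ∈ TT, 0 < t.1 ∧ t.1 ≤ X ∧ 0 < t.2.1 ∧ t.2.1 ≤ X ∧
      Nat.Coprime t.1 t.2.1 ∧ Nat.Coprime t.1 t.2.2 ∧ Nat.Coprime t.2.1 t.2.2 ∧
      (∀ i ∈ Sp, (pc i t.1 : ℝ) ≤ P i) ∧ (∀ i ∈ Sq, (pc i t.2.1 : ℝ) ≤ Q i))
    (Ob : ℝ)
    (hO : ∀ S : Finset ((Vec × Vec) × (Vec × Vec)),
      (∀ z ∈ S, z.1 ∈ GBox M P Q ∧ z.2 ∈ GBox M P Q ∧ l0_Nice M z.1 ∧ l0_Nice M z.2 ∧
        z.1 ≠ z.2 ∧ SameVal M z.1 z.2) → (S.card : ℝ) ≤ Ob)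
    (FF : Finset (ℕ × ℕ))
    (hFF : ∀ t ∈ TT, (vrest Sp t.1, vrest Sq t.2.1) ∈ FF) :
    ((TT.filter (fun t => t.2.2 = M ∧ (M : ℤ) ∣ (t.1 : ℤ) - s * t.2.1)).card : ℝ) ≤
      FF.card + Real.sqrt (2 * ((((FF ×ˢ FF).filter
      (fun z => (M : ℤ) ∣ (z.1.1 : ℤ) * z.2.2 - z.2.1 * z.1.2)).card : ℕ) : ℝ) * Ob) := by
  classical
  set T := TT.filter (fun t => t.2.2 = M ∧ (M : ℤ) ∣ (t.1 : ℤ) - s * t.2.1) with hTd
  set fF : ℕ × ℕ × ℕ → ℕ × ℕ := fun t => (vrest Sp t.1, vrest Sq t.2.1) with hfF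
  set gG : ℕ × ℕ × ℕ → Vec × Vec := fun t => (pvec Sp t.1, pvec Sq t.2.1) with hgG
  have hmemT : ∀ t ∈ T, t ∈ TT ∧ t.2.2 = M ∧ (M : ℤ) ∣ (t.1 : ℤ) - s * t.2.1 := by
    intro t ht
    have := mem_filter.1 ht
    exact ⟨this.1, this.2.1, this.2.2⟩
  have hdec : ∀ t ∈ TT, t.1 = vrest Sp t.1 * mon (pvec Sp t.1) ∧
      t.2.1 = vrest Sq t.2.1 * mon (pvec Sq t.2.1) := by
    intro t ht
    obtain ⟨a1, a2, a3, a4, -⟩ := hT t ht
    exact ⟨vrest_mul a1 Sp, vrest_mul a3 Sq⟩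
  have hFc : ∀ t ∈ T, Nat.Coprime (fF t).1 M ∧ Nat.Coprime (fF t).2 M := by
    intro t ht
    obtain ⟨h1, h2, h3⟩ := hmemT t ht
    obtain ⟨a1, a2, a3, a4, a5, a6, a7, -⟩ := hT t h1
    rw [h2] at a6 a7
    exact ⟨Nat.Coprime.coprime_dvd_left (vrest_dvd a1 Sp) a6,
      Nat.Coprime.coprime_dvd_left (vrest_dvd a3 Sq) a7⟩
  have hnice : ∀ t ∈ T, l0_Nice M (gG t) := by
    intro t ht
    obtain ⟨h1, h2, h3⟩ := hmemT t ht
    obtain ⟨a1, a2, a3, a4, a5, a6, a7, -⟩ := hT t h1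
    rw [h2] at a6 a7
    refine ⟨fun i => pvec_squarefree _ _ _, fun i => pvec_squarefree _ _ _,
      fun i j hij => pvec_coprime _ _ hij, fun i j hij => pvec_coprime _ _ hij,
      fun i => Nat.Coprime.coprime_dvd_left (pvec_dvd _ _ _) a6,
      fun i => Nat.Coprime.coprime_dvd_left (pvec_dvd _ _ _) a7, ?_, ?_, ?_⟩
    · simp only [hgG, pvec, if_neg h0p]
    · simp only [hgG, pvec, if_neg h0q]
    · have d1 : mon (pvec Sp t.1) ∣ t.1 := ⟨_, by rw [mul_comm]; exact (hdec t h1).1⟩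
      have d2 : mon (pvec Sq t.2.1) ∣ t.2.1 := ⟨_, by rw [mul_comm]; exact (hdec t h1).2⟩
      exact Nat.Coprime.coprime_dvd_left d1 (Nat.Coprime.coprime_dvd_right d2 a5)
  have hbox : ∀ t ∈ T, gG t ∈ GBox M P Q := by
    intro t ht
    obtain ⟨h1, h2, h3⟩ := hmemT t ht
    obtain ⟨a1, a2, a3, a4, a5, a6, a7, a8, a9⟩ := hT t h1
    have hn := hnice t ht
    unfold GBox vbox
    rw [mem_filter, mem_product, Fintype.mem_piFinset, Fintype.mem_piFinset]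
    refine ⟨⟨fun i => ?_, fun i => ?_⟩, hn.m1, hn.m2⟩
    · rw [mem_Icc]
      refine ⟨pvec_pos _ _ _, Nat.le_floor ?_⟩
      by_cases hi : i ∈ Sp
      · simp only [hgG, pvec, if_pos hi]
        exact a8 i hi
      · simp only [hgG, pvec, if_neg hi, Nat.cast_one]
        exact hP i
    · rw [mem_Icc]
      refine ⟨pvec_pos _ _ _, Nat.le_floor ?_⟩
      by_cases hi : i ∈ Sq
      · simp only [hgG, pvec, if_pos hi]
        exact a9 i hi
      · simp only [hgG, pvec, if_neg hi, Nat.cast_one]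
        exact hQ i
  set A := T.image fF with hA
  set B := T.image gG with hB
  have e1 : T.card ≤ ((A ×ˢ B).filter (fun z => l0_phi M z.1 = l0_psi M s z.2)).card := by
    refine card_le_card_of_injOn (fun t => (fF t, gG t)) (fun t ht => ?_) ?_
    · have ht' : t ∈ T := ht
      obtain ⟨h1, h2, h3⟩ := hmemT t ht'
      rw [mem_coe, mem_filter, mem_product]
      refine ⟨⟨mem_image_of_mem _ ht', mem_image_of_mem _ ht'⟩, ?_⟩
      refine l0_rel (hFc t ht').2 (l0_mon_coprime (hnice t ht').m1) ?_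
      change (M : ℤ) ∣ ((vrest Sp t.1 * mon (pvec Sp t.1) : ℕ) : ℤ) -
        s * ((vrest Sq t.2.1 * mon (pvec Sq t.2.1) : ℕ) : ℤ)
      rw [← (hdec t h1).1, ← (hdec t h1).2]
      exact h3
    · intro t ht t' ht' he
      have ht1 : t ∈ T := ht
      have ht2 : t' ∈ T := ht'
      obtain ⟨h1, h2, h3⟩ := hmemT t ht1
      obtain ⟨h1', h2', h3'⟩ := hmemT t' ht2
      simp only [hfF, hgG, Prod.mk.injEq] at he
      obtain ⟨⟨b1, b2⟩, b3, b4⟩ := he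
      have c1 : t.1 = t'.1 := by
        rw [(hdec t h1).1, (hdec t' h1').1, b1, b3]
      have c2 : t.2.1 = t'.2.1 := by
        rw [(hdec t h1).2, (hdec t' h1').2, b2, b4]
      exact Prod.ext c1 (Prod.ext c2 (h2.trans h2'.symm))
  have e2 := l0_je A B (l0_phi M) (l0_psi M s)
  have e3 : (A.card : ℝ) ≤ FF.card := by
    have : A ⊆ FF := by
      intro F hF
      rw [hA, mem_image] at hF
      obtain ⟨t, ht, rfl⟩ := hF
      exact hFF t (hmemT t ht).1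
    exact_mod_cast card_le_card this
  have e4 : ((((A ×ˢ A).filter (fun z => l0_phi M z.1 = l0_phi M z.2)).card : ℕ) : ℝ) ≤
      ((((FF ×ˢ FF).filter
      (fun z => (M : ℤ) ∣ (z.1.1 : ℤ) * z.2.2 - z.2.1 * z.1.2)).card : ℕ) : ℝ) := by
    have : (A ×ˢ A).filter (fun z => l0_phi M z.1 = l0_phi M z.2) ⊆ (FF ×ˢ FF).filter
      (fun z => (M : ℤ) ∣ (z.1.1 : ℤ) * z.2.2 - z.2.1 * z.1.2) := by
      intro z hz
      rw [mem_filter, mem_product, hA, mem_image, mem_image] at hz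
      obtain ⟨⟨⟨t, ht, h1⟩, ⟨t', ht', h2⟩⟩, h3⟩ := hz
      rw [mem_filter, mem_product]
      refine ⟨⟨?_, ?_⟩, ?_⟩
      · rw [← h1]; exact hFF t (hmemT t ht).1
      · rw [← h2]; exact hFF t' (hmemT t' ht').1
      · refine l0_phi_eq ?_ ?_ h3
        · rw [← h1]; exact (hFc t ht).2
        · rw [← h2]; exact (hFc t' ht').2
    exact_mod_cast card_le_card this
  have e5 : ((((B ×ˢ B).filter (fun z => z.1 ≠ z.2 ∧
      l0_psi M s z.1 = l0_psi M s z.2)).card : ℕ) : ℝ) ≤ Ob := by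
    refine hO _ fun z hz => ?_
    rw [mem_filter, mem_product, hB, mem_image, mem_image] at hz
    obtain ⟨⟨⟨t, ht, h1⟩, ⟨t', ht', h2⟩⟩, h3, h4⟩ := hz
    have n1 : l0_Nice M z.1 := h1 ▸ hnice t ht
    have n2 : l0_Nice M z.2 := h2 ▸ hnice t' ht'
    exact ⟨h1 ▸ hbox t ht, h2 ▸ hbox t' ht', n1, n2, h3,
      l0_psi_eq hs (l0_mon_coprime n1.m1) (l0_mon_coprime n2.m1) h4⟩
  have e6 : (T.card : ℝ) ≤ A.card + _ := le_trans (by exact_mod_cast e1) e2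
  refine e6.trans (add_le_add e3 (Real.sqrt_le_sqrt ?_))
  refine mul_le_mul (mul_le_mul_of_nonneg_left e4 (by norm_num)) e5 (Nat.cast_nonneg _) ?_
  exact mul_nonneg (by norm_num) (Nat.cast_nonneg _)

theorem l0_thm (h1 : E1Stmt) (h2 : E2Stmt) (hrp : RPStmt) : L0Stmt := by
  classical
  intro ε hε
  have hε' : 0 < ε / 20 := by positivity
  obtain ⟨C1, hC1, h1⟩ := h1 (ε / 20) hε'
  obtain ⟨C2, hC2, h2⟩ := h2 (ε / 20) hε'
  obtain ⟨C3, hC3, h3⟩ := hrp (ε / 20) hε'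
  obtain ⟨C4, hC4, h4⟩ := Pool.Agent.Helper94.Abc.divisor_bound hε'
  refine ⟨4 * (C1 * C2 * C4) * C3, ?_, ?_⟩
  · have a1 : 1 ≤ C1 * C2 := one_le_mul_of_one_le_of_one_le hC1 hC2
    have a2 : 1 ≤ C1 * C2 * C4 := one_le_mul_of_one_le_of_one_le a1 hC4
    nlinarith
  intro X Sp Sq P Q R K MM TT hX h0p h0q hP hQ hPn hQn hR hK hMM hTT hNN
  set x : ℝ := (X : ℝ) ^ (ε / 20) with hx
  have hX1 : (1 : ℝ) ≤ X := by exact_mod_cast (by omega : 1 ≤ X)
  have hX0 : (0 : ℝ) ≤ X := by linarith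
  have hx1 : 1 ≤ x := Real.one_le_rpow hX1 hε'.le
  have hx20 : x ^ 20 = (X : ℝ) ^ ε := by
    rw [hx, ← Real.rpow_natCast, ← Real.rpow_mul hX0]
    congr 1
    push_cast
    ring
  set PP : ℝ := ∏ i, P i * Q i with hPP
  have hB1 : ∀ i, 1 ≤ P i * Q i := fun i => one_le_mul_of_one_le_of_one_le (hP i).1 (hQ i).1
  have hPP0 : 0 ≤ PP := prod_nonneg fun i _ => zero_le_one.trans (hB1 i)
  have hPPX : PP ^ (ε / 20) ≤ x ^ 18 := by
    have a1 : PP ≤ (X : ℝ) ^ 18 := by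
      have a2 : PP ≤ ∏ _i : Fin 9, (X : ℝ) ^ 2 := by
        refine prod_le_prod (fun i _ => zero_le_one.trans (hB1 i)) fun i _ => ?_
        rw [sq]
        exact mul_le_mul (hP i).2 (hQ i).2 (zero_le_one.trans (hQ i).1) hX0
      refine a2.trans (le_of_eq ?_)
      rw [prod_const, card_univ, Fintype.card_fin, ← pow_mul]
    calc PP ^ (ε / 20) ≤ ((X : ℝ) ^ 18) ^ (ε / 20) := Real.rpow_le_rpow hPP0 a1 hε'.le
      _ = x ^ 18 := by
        rw [hx, ← Real.rpow_natCast, ← Real.rpow_mul hX0, ← Real.rpow_natCast,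
          ← Real.rpow_mul hX0]
        congr 1
        ring
  set Ob : ℝ := C1 * C2 * x ^ 36 * K * PP with hOb
  have hOb0 : 0 ≤ Ob := by positivity
  -- the finite set of complementary factors
  set FF : Finset (ℕ × ℕ) := TT.image (fun t => (vrest Sp t.1, vrest Sq t.2.1)) with hFF
  have hFFp : ∀ F ∈ FF, 0 < F.1 ∧ F.1 ≤ X ∧ 0 < F.2 ∧ F.2 ≤ X ∧ Nat.Coprime F.1 F.2 ∧
      (rad F.1 : ℝ) * rad F.2 ≤ R := by
    intro F hF
    rw [hFF, mem_image] at hF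
    obtain ⟨t, ht, rfl⟩ := hF
    obtain ⟨a1, a2, a3, a4, a5, a6, a7, a8, a9, a10, a11, a12⟩ := hTT t ht
    refine ⟨vrest_pos _ _, (vrest_le a1 _).trans a2, vrest_pos _ _, (vrest_le a3 _).trans a4,
      Nat.Coprime.coprime_dvd_left (vrest_dvd a1 _)
        (Nat.Coprime.coprime_dvd_right (vrest_dvd a3 _) a6), ?_⟩
    have b1 := rad_vrest_mul Sp t.1
    have b2 := rad_vrest_mul Sq t.2.1
    have p1 : (0 : ℝ) < ((∏ i ∈ Sp, pc i t.1 : ℕ) : ℝ) := by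
      exact_mod_cast prod_pos fun i _ => pc_pos _ _
    have p2 : (0 : ℝ) < ((∏ i ∈ Sq, pc i t.2.1 : ℕ) : ℝ) := by
      exact_mod_cast prod_pos fun i _ => pc_pos _ _
    rw [b1, b2] at a12
    rw [Nat.cast_mul, Nat.cast_mul] at a12
    have a13 : ((rad (vrest Sp t.1) : ℝ) * rad (vrest Sq t.2.1)) *
        (((∏ i ∈ Sp, pc i t.1 : ℕ) : ℝ) * ((∏ i ∈ Sq, pc i t.2.1 : ℕ) : ℝ)) ≤
        R * (((∏ i ∈ Sp, pc i t.1 : ℕ) : ℝ) * ((∏ i ∈ Sq, pc i t.2.1 : ℕ) : ℝ)) := by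
      have e1 : (∏ i ∈ Sp, (pc i t.1 : ℝ)) = ((∏ i ∈ Sp, pc i t.1 : ℕ) : ℝ) := by push_cast; rfl
      have e2 : (∏ i ∈ Sq, (pc i t.2.1 : ℝ)) = ((∏ i ∈ Sq, pc i t.2.1 : ℕ) : ℝ) := by
        push_cast; rfl
      calc _ = (rad (vrest Sp t.1) : ℝ) * ((∏ i ∈ Sp, pc i t.1 : ℕ) : ℝ) *
            ((rad (vrest Sq t.2.1) : ℝ) * ((∏ i ∈ Sq, pc i t.2.1 : ℕ) : ℝ)) := by ring
        _ ≤ _ := a12
        _ = _ := by push_cast; ring
    exact le_of_mul_le_mul_right a13 (mul_pos p1 p2)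
  have hFFc : (FF.card : ℝ) ≤ C3 * x * R := by
    have := h3 X R FF (by omega) hR (fun F hF => by
      obtain ⟨a1, a2, a3, a4, a5, a6⟩ := hFFp F hF
      exact ⟨a1, a2, a3, a4, a6⟩)
    exact this
  set D : ℝ := C4 * x ^ 2 with hD
  have hD0 : 0 ≤ D := by positivity
  have hDb : ∀ n : ℕ, n ≠ 0 → n ≤ X ^ 2 → (n.divisors.card : ℝ) ≤ D := by
    intro n hn hn2
    refine (h4 n hn).trans ?_
    rw [hD]
    refine mul_le_mul_of_nonneg_left ?_ (by linarith)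
    have a1 : (n : ℝ) ≤ (X : ℝ) ^ 2 := by exact_mod_cast hn2
    calc (n : ℝ) ^ (ε / 20) ≤ ((X : ℝ) ^ 2) ^ (ε / 20) :=
          Real.rpow_le_rpow (Nat.cast_nonneg _) a1 hε'.le
      _ = x ^ 2 := by
        rw [hx, ← Real.rpow_natCast, ← Real.rpow_mul hX0, ← Real.rpow_natCast,
          ← Real.rpow_mul hX0]
        congr 1
        ring
  -- one modulus
  set E : ℕ → ℝ := fun M => ((((FF ×ˢ FF).filter
      (fun z => (M : ℤ) ∣ (z.1.1 : ℤ) * z.2.2 - z.2.1 * z.1.2)).card : ℕ) : ℝ) with hE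
  have hE0 : ∀ M, 0 ≤ E M := fun M => Nat.cast_nonneg _
  have hone : ∀ M ∈ MM, ∀ s : ℤ, s * s = 1 →
      ((TT.filter (fun t => t.2.2 = M ∧ (M : ℤ) ∣ (t.1 : ℤ) - s * t.2.1)).card : ℝ) ≤
      FF.card + Real.sqrt (2 * E M) * Real.sqrt Ob := by
    intro M hM s hs
    rw [← Real.sqrt_mul (mul_nonneg (by norm_num) (hE0 M))]
    refine l0_one (X := X) (P := P) (Q := Q) hs h0p h0q (fun i => (hP i).1) (fun i => (hQ i).1)
      (fun t ht => ?_) Ob (fun S hS => ?_) FF (fun t ht => mem_image_of_mem _ ht)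
    · obtain ⟨a1, a2, a3, a4, a5, a6, a7, a8, a9, a10, a11, a12⟩ := hTT t ht
      exact ⟨a1, a2, a3, a4, a6, a7, a8, a10, a11⟩
    · refine (l0_off h1 h2 (by linarith) (hMM M hM).1 (fun i => (hP i).1) (fun i => (hQ i).1)
        hK (hNN M hM) S hS).trans ?_
      rw [← hPP]
      have c1 : 0 ≤ PP ^ (ε / 20) := Real.rpow_nonneg hPP0 _
      have c2 : PP ^ (ε / 20) * PP ^ (ε / 20) ≤ x ^ 18 * x ^ 18 :=
        mul_le_mul hPPX hPPX c1 (by positivity)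
      calc C1 * PP ^ (ε / 20) * (C2 * PP ^ (ε / 20) * K * PP)
          = (PP ^ (ε / 20) * PP ^ (ε / 20)) * (C1 * C2 * (K * PP)) := by ring
        _ ≤ (x ^ 18 * x ^ 18) * (C1 * C2 * (K * PP)) :=
            mul_le_mul_of_nonneg_right c2 (by positivity)
        _ = Ob := by rw [hOb]; ring
  -- sum over the moduli
  have hcard : (TT.card : ℝ) ≤ ∑ M ∈ MM, 2 * (FF.card + Real.sqrt (2 * E M) * Real.sqrt Ob) := by
    have c1 : TT.card ≤ ∑ M ∈ MM,
        ((TT.filter (fun t => t.2.2 = M ∧ (M : ℤ) ∣ (t.1 : ℤ) - (1 : ℤ) * t.2.1)).card +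
        (TT.filter (fun t => t.2.2 = M ∧ (M : ℤ) ∣ (t.1 : ℤ) - (-1 : ℤ) * t.2.1)).card) := by
      have c2 : TT.card = ∑ M ∈ MM, (TT.filter (fun t => t.2.2 = M)).card :=
        card_eq_sum_card_fiberwise (fun t ht => (hTT t ht).2.2.2.2.1)
      rw [c2]
      refine sum_le_sum fun M hM => ?_
      refine le_trans (card_le_card ?_) (card_union_le _ _)
      intro t ht
      rw [mem_filter] at ht
      rw [mem_union, mem_filter, mem_filter]
      rcases (hTT t ht.1).2.2.2.2.2.2.2.2.1 with h | h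
      · left
        refine ⟨ht.1, ht.2, ?_⟩
        rw [← ht.2, one_mul]; exact h
      · right
        refine ⟨ht.1, ht.2, ?_⟩
        rw [← ht.2]
        have : (t.1 : ℤ) - (-1) * t.2.1 = t.1 + t.2.1 := by ring
        rw [this]; exact h
    have c3 : (TT.card : ℝ) ≤ ∑ M ∈ MM,
        (((TT.filter (fun t => t.2.2 = M ∧ (M : ℤ) ∣ (t.1 : ℤ) - (1 : ℤ) * t.2.1)).card : ℝ) +
        ((TT.filter (fun t => t.2.2 = M ∧ (M : ℤ) ∣ (t.1 : ℤ) - (-1 : ℤ) * t.2.1)).card : ℝ)) := by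
      exact_mod_cast c1
    refine c3.trans (sum_le_sum fun M hM => ?_)
    have d1 := hone M hM 1 (by norm_num)
    have d2 := hone M hM (-1) (by norm_num)
    linarith
  have hsumE : ∑ M ∈ MM, E M ≤ MM.card * FF.card + (FF.card : ℝ) ^ 2 * D :=
    l0_sumE X D MM FF hD0 hDb (fun F hF => by
      obtain ⟨a1, a2, a3, a4, a5, a6⟩ := hFFp F hF
      exact ⟨a1, a2, a3, a4, a5⟩)
  set m : ℝ := (MM.card : ℝ) with hm
  have hm0 : 0 ≤ m := Nat.cast_nonneg _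
  have hf0 : (0 : ℝ) ≤ FF.card := Nat.cast_nonneg _
  have hR0 : 0 ≤ R := by linarith
  have hsq : ∑ M ∈ MM, Real.sqrt (2 * E M) * Real.sqrt Ob ≤
      Real.sqrt (2 * ∑ M ∈ MM, E M) * Real.sqrt (m * Ob) := by
    have := Real.sum_sqrt_mul_sqrt_le MM (f := fun M => 2 * E M) (g := fun _ => Ob)
      (fun M => mul_nonneg (by norm_num) (hE0 M)) (fun _ => hOb0)
    rw [sum_const, nsmul_eq_mul, ← mul_sum] at this
    exact this
  set W : ℝ := (m * R + R ^ 2) * (m * K * PP) with hW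
  have hW0 : 0 ≤ W := by positivity
  have hE2 : ∑ M ∈ MM, E M ≤ C3 ^ 2 * C4 * x ^ 4 * (m * R + R ^ 2) := by
    refine hsumE.trans ?_
    have c1 : m * FF.card ≤ C3 ^ 2 * C4 * x ^ 4 * (m * R) := by
      have c2 : C3 * x * R ≤ C3 ^ 2 * C4 * x ^ 4 * R := by
        refine mul_le_mul_of_nonneg_right ?_ hR0
        have c3 : C3 ≤ C3 ^ 2 * C4 := by nlinarith [mul_nonneg (by linarith : (0:ℝ) ≤ C3) (by linarith : (0:ℝ) ≤ C4 - 1), mul_nonneg (mul_nonneg (by linarith : (0:ℝ) ≤ C3) (by linarith : (0:ℝ) ≤ C3 - 1)) (by linarith : (0:ℝ) ≤ C4)]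
        have c4 : x ≤ x ^ 4 := le_self_pow₀ hx1 (by norm_num)
        exact mul_le_mul c3 c4 (by linarith) (by positivity)
      calc m * FF.card ≤ m * (C3 * x * R) := mul_le_mul_of_nonneg_left hFFc hm0
        _ ≤ m * (C3 ^ 2 * C4 * x ^ 4 * R) := mul_le_mul_of_nonneg_left c2 hm0
        _ = _ := by ring
    have c5 : (FF.card : ℝ) ^ 2 * D ≤ C3 ^ 2 * C4 * x ^ 4 * R ^ 2 := by
      calc (FF.card : ℝ) ^ 2 * D ≤ (C3 * x * R) ^ 2 * D :=
            mul_le_mul_of_nonneg_right (pow_le_pow_left₀ hf0 hFFc 2) hD0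
        _ = _ := by rw [hD]; ring
    calc _ ≤ C3 ^ 2 * C4 * x ^ 4 * (m * R) + C3 ^ 2 * C4 * x ^ 4 * R ^ 2 := add_le_add c1 c5
      _ = _ := by ring
  have hfin : Real.sqrt (2 * ∑ M ∈ MM, E M) * Real.sqrt (m * Ob) ≤
      2 * (C1 * C2 * C4) * C3 * x ^ 20 * Real.sqrt W := by
    rw [← Real.sqrt_mul (mul_nonneg (by norm_num) (sum_nonneg fun M _ => hE0 M))]
    have c1 : 2 * (∑ M ∈ MM, E M) * (m * Ob) ≤
        (2 * (C1 * C2 * C4) * C3 * x ^ 20) ^ 2 * W := by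
      have c2 : 2 * (∑ M ∈ MM, E M) * (m * Ob) ≤
          2 * (C3 ^ 2 * C4 * x ^ 4 * (m * R + R ^ 2)) * (m * Ob) :=
        mul_le_mul_of_nonneg_right (mul_le_mul_of_nonneg_left hE2 (by norm_num))
          (mul_nonneg hm0 hOb0)
      refine c2.trans ?_
      have c3 : 2 * (C3 ^ 2 * C4 * x ^ 4 * (m * R + R ^ 2)) * (m * Ob) =
          (2 * (C1 * C2 * C4)) * (C3 ^ 2 * x ^ 40) * W := by
        rw [hOb, hW]; ring
      have c4 : (2 * (C1 * C2 * C4) * C3 * x ^ 20) ^ 2 * W =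
          (2 * (C1 * C2 * C4)) ^ 2 * (C3 ^ 2 * x ^ 40) * W := by ring
      rw [c3, c4]
      refine mul_le_mul_of_nonneg_right (mul_le_mul_of_nonneg_right ?_ (by positivity)) hW0
      have a1 : 1 ≤ C1 * C2 := one_le_mul_of_one_le_of_one_le hC1 hC2
      have a2 : 1 ≤ C1 * C2 * C4 := one_le_mul_of_one_le_of_one_le a1 hC4
      exact le_self_pow₀ (by linarith) (by norm_num)
    calc Real.sqrt (2 * (∑ M ∈ MM, E M) * (m * Ob))
        ≤ Real.sqrt ((2 * (C1 * C2 * C4) * C3 * x ^ 20) ^ 2 * W) := Real.sqrt_le_sqrt c1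
      _ = 2 * (C1 * C2 * C4) * C3 * x ^ 20 * Real.sqrt W := by
        rw [Real.sqrt_mul (sq_nonneg _), Real.sqrt_sq (by positivity)]
  have hmain : (TT.card : ℝ) ≤ 2 * (m * FF.card) +
      2 * (2 * (C1 * C2 * C4) * C3 * x ^ 20 * Real.sqrt W) := by
    refine hcard.trans ?_
    rw [← mul_sum, sum_add_distrib, sum_const, nsmul_eq_mul]
    have := hsq.trans hfin
    linarith
  refine hmain.trans ?_
  rw [← hx20]
  have hmF : m * FF.card ≤ 2 * (C1 * C2 * C4) * C3 * x ^ 20 * (m * R) := by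
    have c2 : C3 * x * R ≤ 2 * (C1 * C2 * C4) * C3 * x ^ 20 * R := by
      refine mul_le_mul_of_nonneg_right ?_ hR0
      have a1 : 1 ≤ C1 * C2 := one_le_mul_of_one_le_of_one_le hC1 hC2
      have a2 : 1 ≤ C1 * C2 * C4 := one_le_mul_of_one_le_of_one_le a1 hC4
      have c3 : C3 ≤ 2 * (C1 * C2 * C4) * C3 := by nlinarith
      have c4 : x ≤ x ^ 20 := le_self_pow₀ hx1 (by norm_num)
      exact mul_le_mul c3 c4 (by linarith) (by positivity)
    calc m * FF.card ≤ m * (C3 * x * R) := mul_le_mul_of_nonneg_left hFFc hm0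
      _ ≤ m * (2 * (C1 * C2 * C4) * C3 * x ^ 20 * R) := mul_le_mul_of_nonneg_left c2 hm0
      _ = _ := by ring
  have hWs : Real.sqrt W = Real.sqrt ((m * R + R ^ 2) * (m * K * ∏ i, P i * Q i)) := rfl
  calc 2 * (m * FF.card) + 2 * (2 * (C1 * C2 * C4) * C3 * x ^ 20 * Real.sqrt W)
      ≤ 2 * (2 * (C1 * C2 * C4) * C3 * x ^ 20 * (m * R)) +
        2 * (2 * (C1 * C2 * C4) * C3 * x ^ 20 * Real.sqrt W) := by linarith
    _ = 4 * (C1 * C2 * C4) * C3 * x ^ 20 * (m * R + Real.sqrt W) := by ring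

end Pool.Agent.Helper21.EN
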