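import Pool.Agent.Helper21.EN.Stmts
import Pool.Agent.Helper21.EN.Dec

set_option autoImplicit false

/-!
# Project EN, piece L1

The statement is in EN/Stmts.lean. Paper: /team-store/EN_paper.md.

Proof. Decomposition: EN/Dec.lean rest_mul_one, rad_rest_mul_one (p = rest {i} p * (pc i p)^i), pc_coprime, pc_pos. For t = (p,q,M) fix M, the sign, and (Fp,Fq) = (rest {i} p, rest {i} q): rad Fp rad Fq <= R, so at most C X^eps R pairs by hrp. Then (n,l) = (pc i p, pc i q) is a coprime pair, coprime to M,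
Fp n^i = +- Fq l^i modulo M, ie n^i = c l^i modulo M with a natural number c coprime to M: hdir: <= C (M P Q)^eps (1 + PQ/M) <= C X^(3 eps) (1 + PQ/M0).
-/

namespace Pool.Agent.Helper21.EN

open Finset

theorem l1_inv {x M : ℕ} (hM : 1 ≤ M) (h : Nat.Coprime x M) :
    ∃ a, x * a ≡ 1 [MOD M] ∧ Nat.Coprime a M := by
  have key : ∃ a, x * a ≡ 1 [MOD M] := by
    rcases hM.eq_or_lt with h1 | h1
    · refine ⟨1, ?_⟩
      rw [← h1]
      exact Nat.modEq_one
    · obtain ⟨a, -, ha⟩ := Nat.exists_mul_mod_eq_one_of_coprime h h1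
      refine ⟨a, ?_⟩
      unfold Nat.ModEq
      rw [ha, Nat.mod_eq_of_lt h1]
  obtain ⟨a, ha⟩ := key
  refine ⟨a, ha, ?_⟩
  have h2 : Nat.gcd (x * a) M = Nat.gcd 1 M := ha.gcd_eq
  rw [Nat.gcd_one_left] at h2
  exact Nat.Coprime.coprime_mul_left h2

theorem l1_pred {M : ℕ} (hM : 1 ≤ M) : Nat.Coprime (M - 1) M := by
  have h : Nat.gcd (M - 1) M ∣ 1 := by
    have h1 := Nat.gcd_dvd_left (M - 1) M
    have h2 := Nat.gcd_dvd_right (M - 1) M
    have h3 := Nat.dvd_sub h2 h1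
    have e : M - (M - 1) = 1 := by omega
    rwa [e] at h3
  exact Nat.dvd_one.1 h

/-- the relation with a sign -/
theorem l1_sign {p q M : ℕ} (hM : 1 ≤ M)
    (h : (M : ℤ) ∣ (p : ℤ) - q ∨ (M : ℤ) ∣ (p : ℤ) + q) :
    p ≡ (if (M : ℤ) ∣ (p : ℤ) - q then 1 else M - 1) * q [MOD M] := by
  split_ifs with h1
  · rw [one_mul]
    exact ((Nat.modEq_iff_dvd).2 h1).symm
  · have h2 := h.resolve_left h1
    rw [Nat.modEq_iff_dvd]
    push_cast [hM]
    have e : ((M : ℤ) - 1) * q - p = M * q - (p + q) := by ring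
    rw [e]
    exact dvd_sub (dvd_mul_right _ _) h2

theorem l1_thm (hdir : DIRStmt) (hrp : RPStmt) : L1Stmt := by
  classical
  intro ε hε
  obtain ⟨C1, hC1, h1⟩ := hdir (ε / 4) (by positivity)
  obtain ⟨C2, hC2, h2⟩ := hrp (ε / 4) (by positivity)
  refine ⟨2 * C1 * C2, by nlinarith, ?_⟩
  intro X i P Q R M0 MM TT hX hi hP1 hPX hQ1 hQX hR hM0 hMM hTT
  have hi1 : 1 ≤ (i : ℕ) := Nat.one_le_iff_ne_zero.2 fun h => hi (Fin.ext h)
  have hi8 : (i : ℕ) ≤ 8 := by have := i.2; omega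
  have hXr : (2 : ℝ) ≤ X := by exact_mod_cast hX
  have hX0 : (0 : ℝ) < X := by linarith
  set FF : Finset (ℕ × ℕ) := TT.image (fun t => (rest {(i : ℕ)} t.1, rest {(i : ℕ)} t.2.1))
    with hFFdef
  have hFF : (FF.card : ℝ) ≤ C2 * (X : ℝ) ^ (ε / 4) * R := by
    apply h2 X R FF (by omega) hR
    intro s hs
    rw [hFFdef, mem_image] at hs
    obtain ⟨t, ht, rfl⟩ := hs
    obtain ⟨a1, a2, a3, a4, -, -, -, -, -, -, -, a5⟩ := hTT t ht
    refine ⟨rest_pos _ _, (rest_le a1 _).trans a2, rest_pos _ _, (rest_le a3 _).trans a4, ?_⟩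
    rw [rad_rest_mul_one i t.1, rad_rest_mul_one i t.2.1] at a5
    push_cast at a5
    have n1 : (0 : ℝ) < pc i t.1 := by exact_mod_cast pc_pos _ _
    have n2 : (0 : ℝ) < pc i t.2.1 := by exact_mod_cast pc_pos _ _
    have n3 : (0 : ℝ) < (pc i t.1 : ℝ) * pc i t.2.1 := by positivity
    refine le_of_mul_le_mul_right ?_ n3
    calc (rad (rest {(i : ℕ)} t.1) : ℝ) * rad (rest {(i : ℕ)} t.2.1) *
          ((pc i t.1 : ℝ) * pc i t.2.1)
        = (rad (rest {(i : ℕ)} t.1) : ℝ) * pc i t.1 *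
          ((rad (rest {(i : ℕ)} t.2.1) : ℝ) * pc i t.2.1) := by ring
      _ ≤ R * pc i t.1 * pc i t.2.1 := a5
      _ = _ := by ring
  set B : ℝ := C1 * (X : ℝ) ^ (3 * (ε / 4)) * (1 + P * Q / M0) with hB
  have hB0 : 0 ≤ B := by positivity
  set φ : ℕ × ℕ × ℕ → ℕ × Bool × (ℕ × ℕ) := fun t =>
    (t.2.2, decide ((t.2.2 : ℤ) ∣ (t.1 : ℤ) - t.2.1),
      (rest {(i : ℕ)} t.1, rest {(i : ℕ)} t.2.1)) with hφ
  set TG : Finset (ℕ × Bool × (ℕ × ℕ)) := MM ×ˢ ((univ : Finset Bool) ×ˢ FF) with hTG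
  have hmaps : ∀ t ∈ TT, φ t ∈ TG := by
    intro t ht
    rw [hTG, mem_product, mem_product]
    refine ⟨(hTT t ht).2.2.2.2.1, mem_univ _, ?_⟩
    rw [hFFdef]
    exact mem_image_of_mem _ ht
  have hfib : ∀ b ∈ TG, ((TT.filter fun t => φ t = b).card : ℝ) ≤ B := by
    intro b _
    rcases (TT.filter fun t => φ t = b).eq_empty_or_nonempty with hem | ⟨t0, ht0⟩
    · rw [hem, card_empty]
      simpa using hB0
    set F := TT.filter fun t => φ t = b with hF
    rw [hF, mem_filter] at ht0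
    obtain ⟨M, sg, x, y⟩ := b
    have hb : ∀ t ∈ F, t ∈ TT ∧ t.2.2 = M ∧ decide ((t.2.2 : ℤ) ∣ (t.1 : ℤ) - t.2.1) = sg ∧
        rest {(i : ℕ)} t.1 = x ∧ rest {(i : ℕ)} t.2.1 = y := by
      intro t ht
      rw [hF, mem_filter] at ht
      have h3 := ht.2
      simp only [hφ, Prod.mk.injEq] at h3
      exact ⟨ht.1, h3.1, h3.2.1, h3.2.2.1, h3.2.2.2⟩
    obtain ⟨-, hM, -, hx, hy⟩ := hb t0 (by rw [hF, mem_filter]; exact ht0)
    obtain ⟨a1, a2, a3, a4, a5, a6, a7, a8, -, -, -, -⟩ := hTT t0 ht0.1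
    rw [hM] at a5 a7 a8
    obtain ⟨hM1, hMX, hMM0⟩ := hMM M a5
    have hxM : Nat.Coprime x M := by
      rw [← hx]
      exact Nat.Coprime.coprime_dvd_left (rest_dvd a1 _) a7
    have hyM : Nat.Coprime y M := by
      rw [← hy]
      exact Nat.Coprime.coprime_dvd_left (rest_dvd a3 _) a8
    obtain ⟨a', ha', ha'M⟩ := l1_inv hM1 hxM
    set σ : ℕ := if sg = true then 1 else M - 1 with hσ
    have hσM : Nat.Coprime σ M := by
      rw [hσ]
      split_ifs
      · exact Nat.coprime_one_left M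
      · exact l1_pred hM1
    set S : Finset (ℕ × ℕ) := F.image (fun t => (pc i t.1, pc i t.2.1)) with hS
    have hinj : Set.InjOn (fun t : ℕ × ℕ × ℕ => (pc i t.1, pc i t.2.1)) (F : Set (ℕ × ℕ × ℕ)) := by
      intro t ht t' ht' htt
      obtain ⟨b1, b2, -, b3, b4⟩ := hb t (by exact_mod_cast ht)
      obtain ⟨c1, c2, -, c3, c4⟩ := hb t' (by exact_mod_cast ht')
      simp only [Prod.mk.injEq] at htt
      have e1 := rest_mul_one (hTT t b1).1 i
      have e2 := rest_mul_one (hTT t' c1).1 i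
      have e3 := rest_mul_one (hTT t b1).2.2.1 i
      have e4 := rest_mul_one (hTT t' c1).2.2.1 i
      refine Prod.ext ?_ (Prod.ext ?_ ?_)
      · rw [e1, e2, b3, c3, htt.1]
      · rw [e3, e4, b4, c4, htt.2]
      · rw [b2, c2]
    have hcard : S.card = F.card := card_image_of_injOn hinj
    rw [← hcard]
    have h4 := h1 (i : ℕ) M (a' * (σ * y)) P Q S hi1 hi8 (by omega)
      (Nat.Coprime.mul_left ha'M (Nat.Coprime.mul_left hσM hyM)) hP1 hQ1 (by
        intro s hs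
        rw [hS, mem_image] at hs
        obtain ⟨t, ht, rfl⟩ := hs
        obtain ⟨b1, b2, b5, b3, b4⟩ := hb t ht
        obtain ⟨d1, d2, d3, d4, d5, d6, d7, d8, d9, d10, d11, -⟩ := hTT t b1
        rw [b2] at d7 d8 d9 b5
        refine ⟨pc_pos _ _, pc_pos _ _, d10, d11, ?_, ?_, ?_, ?_⟩
        · exact Nat.Coprime.coprime_dvd_left (pc_dvd _ _)
            (Nat.Coprime.coprime_dvd_right (pc_dvd _ _) d6)
        · exact Nat.Coprime.coprime_dvd_left (pc_dvd _ _) d7
        · exact Nat.Coprime.coprime_dvd_left (pc_dvd _ _) d8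
        · have h5 := l1_sign hM1 d9
          have e5 : (if (M : ℤ) ∣ (t.1 : ℤ) - t.2.1 then 1 else M - 1) = σ := by
            rw [hσ, ← b5]
            simp
          rw [e5] at h5
          have e1 := rest_mul_one d1 i
          have e3 := rest_mul_one d3 i
          rw [b3] at e1
          rw [b4] at e3
          calc pc i t.1 ^ (i : ℕ) = 1 * pc i t.1 ^ (i : ℕ) := (one_mul _).symm
            _ ≡ (x * a') * pc i t.1 ^ (i : ℕ) [MOD M] := (ha'.symm).mul_right _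
            _ = a' * t.1 := by
              conv_rhs => rw [e1]
              ring
            _ ≡ a' * (σ * t.2.1) [MOD M] := h5.mul_left _
            _ = a' * (σ * y) * pc i t.2.1 ^ (i : ℕ) := by
              conv_lhs => rw [e3]
              ring)
    refine h4.trans ?_
    have hMr : (M : ℝ) ≤ X := by exact_mod_cast hMX
    have hM0' : (0 : ℝ) < M := by exact_mod_cast hM1
    have h6 : ((M : ℝ) * P * Q) ^ (ε / 4) ≤ (X : ℝ) ^ (3 * (ε / 4)) := by
      have h7 : (X : ℝ) ^ (3 * (ε / 4)) = ((X : ℝ) ^ 3) ^ (ε / 4) := by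
        rw [← Real.rpow_natCast, ← Real.rpow_mul hX0.le]
        norm_num
      rw [h7]
      refine Real.rpow_le_rpow (by positivity) ?_ (by positivity)
      calc (M : ℝ) * P * Q ≤ X * X * X := by gcongr
        _ = _ := by ring
    have h8 : P * Q / M ≤ P * Q / M0 := div_le_div_of_nonneg_left (by positivity) hM0 hMM0
    rw [hB]
    gcongr
  have hsum : (TT.card : ℝ) ≤ TG.card * B := by
    rw [card_eq_sum_card_fiberwise hmaps]
    push_cast
    calc ∑ b ∈ TG, ((TT.filter fun t => φ t = b).card : ℝ) ≤ ∑ _b ∈ TG, B :=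
          sum_le_sum fun b hb => hfib b hb
      _ = TG.card * B := by rw [sum_const, nsmul_eq_mul]
  have hTGc : (TG.card : ℝ) = MM.card * (2 * FF.card) := by
    rw [hTG, card_product, card_product, card_univ, Fintype.card_bool]
    push_cast
    ring
  rw [hTGc] at hsum
  refine hsum.trans ?_
  have hXε : (X : ℝ) ^ ε = (X : ℝ) ^ (ε / 4) * (X : ℝ) ^ (3 * (ε / 4)) := by
    rw [← Real.rpow_add hX0]
    congr 1
    ring
  rw [hXε, hB]
  calc (MM.card : ℝ) * (2 * FF.card) * (C1 * (X : ℝ) ^ (3 * (ε / 4)) * (1 + P * Q / M0))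
      ≤ MM.card * (2 * (C2 * (X : ℝ) ^ (ε / 4) * R)) *
        (C1 * (X : ℝ) ^ (3 * (ε / 4)) * (1 + P * Q / M0)) := by
        gcongr
    _ = _ := by ring

end Pool.Agent.Helper21.EN
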