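import Pool.Agent.Helper21.EN.Stmts

set_option autoImplicit false

/-!
# Project EN, piece N2

The statement is in EN/Stmts.lean. Paper: /team-store/EN_paper.md.

Proof. Sol (w^3) T with support {i,j}: T_l = 1 forces coordinate 1. Finitely many pairs (i,j): take minima/maxima of the constants of hs (sigma, eta/2). Let delta1 > 0 be the S2 saving for (sigma, eta/2), delta' = min(delta1/2, eta/2).
If T_i >= T_j w^delta': hq (roles i, j): NN <= C (w^3 T_i)^eps T_j^2 (1 + T_i^2/w^3) = C (..)^eps T_iT_j (T_j/T_i + T_iT_j/w^3) <= C (..)^eps T_iT_j (w^(-delta') + w^(-eta)). Symmetric if T_j >= T_i w^delta' (hq with i and j exchanged). (T_i <= T_iT_j <= w^3 so (w^3T_i)^eps <= w^(6 eps); choose eps small.)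
Otherwise V := max(T_i,T_j) <= min(T_i,T_j) w^delta' <= w^(1-eta+delta') <= w^(1-eta/2), V >= w^sigma: the map to ((a_i,b_i),(a_j,b_j)) embeds Sol into Two i j w V V (mon a = a_i^i a_j^j), so NN <= C V^2 w^(-delta1) <= C T_iT_j w^(delta'-delta1).
-/

namespace Pool.Agent.Helper21.EN

open Finset

/-- The embedding of the solutions into `Two`. -/
lemma n2_card (w : ℕ) (T : Fin 9 → ℝ) (i j : Fin 9) (V : ℝ) (hij : i ≠ j)
    (hT : ∀ l, l ≠ i → l ≠ j → T l = 1) (hi : T i ≤ V) (hj : T j ≤ V) :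
    NN (w ^ 3) T ≤ ((Two i j w V V).card : ℝ) := by
  classical
  unfold NN
  have hcoord : ∀ (T : Fin 9 → ℝ) (a : Vec), a ∈ vbox T → ∀ l, 1 ≤ a l ∧ a l ≤ ⌊T l⌋₊ := by
    intro T a ha l
    unfold vbox at ha
    rw [Fintype.mem_piFinset] at ha
    exact Finset.mem_Icc.1 (ha l)
  have hone : ∀ a : Vec, a ∈ vbox T → ∀ l, l ≠ i → l ≠ j → a l = 1 := by
    intro a ha l h1 h2
    have h := hcoord T a ha l
    rw [hT l h1 h2, Nat.floor_one] at h
    omega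
  have hmon : ∀ a : Vec, a ∈ vbox T → mon a = a i ^ (i : ℕ) * a j ^ (j : ℕ) := by
    intro a ha
    unfold mon
    apply Fintype.prod_eq_mul i j hij
    rintro l ⟨h1, h2⟩
    rw [hone a ha l h1 h2, one_pow]
  have key : (Sol (w ^ 3) T).card ≤ (Two i j w V V).card := by
    apply Finset.card_le_card_of_injOn (fun z => ((z.1 i, z.2 i), (z.1 j, z.2 j)))
    · intro z hz
      rw [Finset.mem_coe] at hz
      unfold Sol at hz
      rw [Finset.mem_filter, Finset.mem_product] at hz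
      obtain ⟨⟨h1, h2⟩, hc, hc1, hc2, hm⟩ := hz
      have e1 := hcoord T z.1 h1
      have e2 := hcoord T z.2 h2
      have fi : ⌊T i⌋₊ ≤ ⌊V⌋₊ := Nat.floor_le_floor hi
      have fj : ⌊T j⌋₊ ≤ ⌊V⌋₊ := Nat.floor_le_floor hj
      have hw3 : w ∣ w ^ 3 := dvd_pow_self w (by norm_num)
      rw [Finset.mem_coe]
      unfold Two
      rw [Finset.mem_filter]
      refine ⟨?_, hc i, hc j, (hc1 i).coprime_dvd_right hw3, (hc2 i).coprime_dvd_right hw3,
        (hc1 j).coprime_dvd_right hw3, (hc2 j).coprime_dvd_right hw3, ?_⟩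
      · simp only [Finset.mem_product, Finset.mem_Icc]
        exact ⟨⟨⟨(e1 i).1, (e1 i).2.trans fi⟩, ⟨(e2 i).1, (e2 i).2.trans fi⟩⟩,
          ⟨⟨(e1 j).1, (e1 j).2.trans fj⟩, ⟨(e2 j).1, (e2 j).2.trans fj⟩⟩⟩
      · rw [hmon z.1 h1, hmon z.2 h2] at hm
        exact hm
    · intro z hz z' hz' h
      rw [Finset.mem_coe] at hz hz'
      unfold Sol at hz hz'
      rw [Finset.mem_filter, Finset.mem_product] at hz hz'
      simp only [Prod.mk.injEq] at h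
      obtain ⟨⟨h1, h2⟩, h3, h4⟩ := h
      have aux : ∀ a b : Vec, a ∈ vbox T → b ∈ vbox T → a i = b i → a j = b j → a = b := by
        intro a b ha hb h1 h2
        funext l
        by_cases hli : l = i
        · rw [hli, h1]
        · by_cases hlj : l = j
          · rw [hlj, h2]
          · rw [hone a ha l hli hlj, hone b hb l hli hlj]
      exact Prod.ext (aux _ _ hz.1.1 hz'.1.1 h1 h3) (aux _ _ hz.1.2 hz'.1.2 h2 h4)
  exact_mod_cast key

/-- The case of two sizes that are far from each other. -/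
lemma n2_far (w : ℕ) (hw : 1 ≤ w) (N a b ε δ η C : ℝ) (hε : 0 < ε)
    (hC : 1 ≤ C) (ha : 1 ≤ a) (hb : 1 ≤ b) (hδη : δ ≤ η) (hεδ : 6 * ε ≤ δ / 2)
    (hab : a * b ≤ (w : ℝ) ^ (3 - η)) (hfar : b * (w : ℝ) ^ δ ≤ a)
    (hN : N ≤ C * (((w ^ 3 : ℕ) : ℝ) * a) ^ ε * (b ^ 2 * (1 + a ^ 2 / ((w ^ 3 : ℕ) : ℝ)))) :
    N ≤ 2 * C * (w : ℝ) ^ (-(δ / 2)) * (a * b) := by
  have hw' : (1 : ℝ) ≤ (w : ℝ) := by exact_mod_cast hw
  have hw0 : (0 : ℝ) < (w : ℝ) := by linarith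
  have ha0 : 0 < a := by linarith
  have hb0 : 0 < b := by linarith
  push_cast at hN
  have hw3 : (0 : ℝ) < (w : ℝ) ^ 3 := by positivity
  have h3 : (w : ℝ) ^ (3 - η) ≤ (w : ℝ) ^ 3 := by
    rw [← Real.rpow_natCast (w : ℝ) 3]
    apply Real.rpow_le_rpow_of_exponent_le hw'
    push_cast
    linarith
  have hale : a ≤ (w : ℝ) ^ 3 := by nlinarith
  have h1 : ((w : ℝ) ^ 3 * a) ^ ε ≤ (w : ℝ) ^ (δ / 2) := by
    calc ((w : ℝ) ^ 3 * a) ^ ε ≤ ((w : ℝ) ^ 3 * (w : ℝ) ^ 3) ^ ε := by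
          apply Real.rpow_le_rpow (by positivity) _ hε.le
          exact mul_le_mul_of_nonneg_left hale hw3.le
      _ = (w : ℝ) ^ (6 * ε) := by
          rw [← pow_add, ← Real.rpow_natCast (w : ℝ) (3 + 3), ← Real.rpow_mul hw0.le]
          norm_num
      _ ≤ (w : ℝ) ^ (δ / 2) := Real.rpow_le_rpow_of_exponent_le hw' hεδ
  have h2 : b ^ 2 * (1 + a ^ 2 / (w : ℝ) ^ 3) ≤ 2 * (w : ℝ) ^ (-δ) * (a * b) := by
    have e1 : b * (w : ℝ) ^ δ * (w : ℝ) ^ (-δ) = b := by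
      rw [mul_assoc, ← Real.rpow_add hw0]
      simp
    have e2 : b ≤ a * (w : ℝ) ^ (-δ) := by
      calc b = b * (w : ℝ) ^ δ * (w : ℝ) ^ (-δ) := e1.symm
        _ ≤ a * (w : ℝ) ^ (-δ) := mul_le_mul_of_nonneg_right hfar (by positivity)
    have e3 : a * b / (w : ℝ) ^ 3 ≤ (w : ℝ) ^ (-δ) := by
      rw [div_le_iff₀ hw3]
      calc a * b ≤ (w : ℝ) ^ (3 - η) := hab
        _ ≤ (w : ℝ) ^ (3 - δ) := Real.rpow_le_rpow_of_exponent_le hw' (by linarith)
        _ = (w : ℝ) ^ (-δ) * (w : ℝ) ^ 3 := by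
          rw [← Real.rpow_natCast (w : ℝ) 3, ← Real.rpow_add hw0]
          congr 1
          push_cast
          ring
    have e4 : b ^ 2 * (a ^ 2 / (w : ℝ) ^ 3) = (a * b / (w : ℝ) ^ 3) * (a * b) := by ring
    have e5 : (a * b / (w : ℝ) ^ 3) * (a * b) ≤ (w : ℝ) ^ (-δ) * (a * b) :=
      mul_le_mul_of_nonneg_right e3 (by positivity)
    have e6 : b ^ 2 ≤ (w : ℝ) ^ (-δ) * (a * b) := by
      calc b ^ 2 = b * b := by ring
        _ ≤ (a * (w : ℝ) ^ (-δ)) * b := mul_le_mul_of_nonneg_right e2 hb0.le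
        _ = (w : ℝ) ^ (-δ) * (a * b) := by ring
    calc b ^ 2 * (1 + a ^ 2 / (w : ℝ) ^ 3) = b ^ 2 + b ^ 2 * (a ^ 2 / (w : ℝ) ^ 3) := by ring
      _ ≤ (w : ℝ) ^ (-δ) * (a * b) + (w : ℝ) ^ (-δ) * (a * b) := by
          rw [e4]; exact add_le_add e6 e5
      _ = 2 * (w : ℝ) ^ (-δ) * (a * b) := by ring
  calc N ≤ C * ((w : ℝ) ^ 3 * a) ^ ε * (b ^ 2 * (1 + a ^ 2 / (w : ℝ) ^ 3)) := hN
    _ ≤ C * (w : ℝ) ^ (δ / 2) * (2 * (w : ℝ) ^ (-δ) * (a * b)) := by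
        apply mul_le_mul _ h2 (by positivity) (by positivity)
        exact mul_le_mul_of_nonneg_left h1 (by linarith)
    _ = 2 * C * ((w : ℝ) ^ (δ / 2) * (w : ℝ) ^ (-δ)) * (a * b) := by ring
    _ = 2 * C * (w : ℝ) ^ (-(δ / 2)) * (a * b) := by
        rw [← Real.rpow_add hw0]
        congr 3
        ring

/-- The statement for one pair of indices. -/
lemma n2_pair (hs : S2Stmt) (hq : Q2Stmt) (σ η : ℝ) (hσ : 0 < σ) (hη : 0 < η) (i j : Fin 9)
    (hi : i ≠ 0) (hj : j ≠ 0) (hij : i ≠ j) : ∃ δ C : ℝ, 0 < δ ∧ 1 ≤ C ∧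
    ∀ (w : ℕ) (T : Fin 9 → ℝ), Squarefree w → (∀ l, 1 ≤ T l) →
      (∀ l, l ≠ i → l ≠ j → T l = 1) →
      ((w : ℝ) ^ σ ≤ T i ∨ (w : ℝ) ^ σ ≤ T j) → T i * T j ≤ (w : ℝ) ^ (3 - η) →
      (T i ≤ (w : ℝ) ^ (1 - η) ∨ T j ≤ (w : ℝ) ^ (1 - η)) →
      NN (w ^ 3) T ≤ C * (w : ℝ) ^ (-δ) * ∏ l, T l := by
  have hi1 : 1 ≤ (i : ℕ) := Nat.one_le_iff_ne_zero.2 (fun h => hi (Fin.ext h))
  have hj1 : 1 ≤ (j : ℕ) := Nat.one_le_iff_ne_zero.2 (fun h => hj (Fin.ext h))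
  have hi8 : (i : ℕ) ≤ 8 := by have := i.2; omega
  have hj8 : (j : ℕ) ≤ 8 := by have := j.2; omega
  have hij' : (i : ℕ) ≠ (j : ℕ) := fun h => hij (Fin.ext h)
  obtain ⟨δ₁, C₁, hδ₁, hC₁, hS⟩ := hs i j hi1 hi8 hj1 hj8 hij' σ (η / 2) hσ (by linarith)
  set δ : ℝ := min (δ₁ / 2) (η / 2) with hδdef
  have hδ : 0 < δ := lt_min (by linarith) (by linarith)
  have hδa : δ ≤ δ₁ / 2 := min_le_left _ _
  have hδb : δ ≤ η / 2 := min_le_right _ _
  obtain ⟨C₂, hC₂, hQ⟩ := hq (δ / 12) (by linarith)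
  refine ⟨δ / 2, 2 * C₂ + C₁, by linarith, by linarith, ?_⟩
  intro w T hsq hT1 hT hbig hprod hsmall
  have hw : 1 ≤ w := Nat.one_le_iff_ne_zero.2 hsq.ne_zero
  have hw' : (1 : ℝ) ≤ (w : ℝ) := by exact_mod_cast hw
  have hw0 : (0 : ℝ) < (w : ℝ) := by linarith
  have hP : ∏ l, T l = T i * T j := by
    apply Fintype.prod_eq_mul i j hij
    rintro l ⟨h1, h2⟩
    exact hT l h1 h2
  rw [hP]
  have hTi := hT1 i
  have hTj := hT1 j
  have hTi0 : 0 < T i := by linarith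
  have hTj0 : 0 < T j := by linarith
  have hM : 1 ≤ w ^ 3 := Nat.one_le_pow _ _ hw
  have hpos : 0 < (w : ℝ) ^ (-(δ / 2)) * (T i * T j) := by positivity
  have fin1 : NN (w ^ 3) T ≤ 2 * C₂ * (w : ℝ) ^ (-(δ / 2)) * (T i * T j) →
      NN (w ^ 3) T ≤ (2 * C₂ + C₁) * (w : ℝ) ^ (-(δ / 2)) * (T i * T j) := by
    intro h
    have : 0 ≤ C₁ * ((w : ℝ) ^ (-(δ / 2)) * (T i * T j)) :=
      mul_nonneg (by linarith) hpos.le
    nlinarith
  rcases le_or_gt (T j * (w : ℝ) ^ δ) (T i) with hA | hA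
  · apply fin1
    apply n2_far w hw (NN (w ^ 3) T) (T i) (T j) (δ / 12) δ η C₂ (by linarith) hC₂ hTi hTj
      (by linarith) (by linarith) hprod hA
    exact hQ (w ^ 3) T i j hM hT1 hi hj hij hT
  · rcases le_or_gt (T i * (w : ℝ) ^ δ) (T j) with hB | hB
    · apply fin1
      rw [mul_comm (T i) (T j)]
      apply n2_far w hw (NN (w ^ 3) T) (T j) (T i) (δ / 12) δ η C₂ (by linarith) hC₂ hTj hTi
        (by linarith) (by linarith) (by rw [mul_comm]; exact hprod) hB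
      exact hQ (w ^ 3) T j i hM hT1 hj hi hij.symm (fun l h1 h2 => hT l h2 h1)
    · -- the near case
      set V : ℝ := max (T i) (T j) with hV
      have hVi : T i ≤ V := le_max_left _ _
      have hVj : T j ≤ V := le_max_right _ _
      have hV1 : 1 ≤ V := hTi.trans hVi
      have hVσ : (w : ℝ) ^ σ ≤ V := by
        rcases hbig with h | h
        · exact h.trans hVi
        · exact h.trans hVj
      have hwδ : 1 ≤ (w : ℝ) ^ δ := Real.one_le_rpow hw' hδ.le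
      have e0 : (w : ℝ) ^ (1 - η) * (w : ℝ) ^ δ ≤ (w : ℝ) ^ (1 - η / 2) := by
        rw [← Real.rpow_add hw0]
        exact Real.rpow_le_rpow_of_exponent_le hw' (by linarith)
      have e1 : (w : ℝ) ^ (1 - η) ≤ (w : ℝ) ^ (1 - η) * (w : ℝ) ^ δ :=
        le_mul_of_one_le_right (by positivity) hwδ
      have hVup : V ≤ (w : ℝ) ^ (1 - η / 2) := by
        rcases hsmall with h | h
        · apply max_le
          · exact h.trans (e1.trans e0)
          · exact hB.le.trans ((mul_le_mul_of_nonneg_right h (by positivity)).trans e0)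
        · apply max_le
          · exact hA.le.trans ((mul_le_mul_of_nonneg_right h (by positivity)).trans e0)
          · exact h.trans (e1.trans e0)
      have hV2 : V ^ 2 ≤ T i * T j * (w : ℝ) ^ δ := by
        rcases le_total (T i) (T j) with h | h
        · have : V = T j := max_eq_right h
          rw [this]
          nlinarith
        · have : V = T i := max_eq_left h
          rw [this]
          nlinarith
      have h2 := hS w V hsq hV1 hVσ hVup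
      calc NN (w ^ 3) T ≤ ((Two i j w V V).card : ℝ) := n2_card w T i j V hij hT hVi hVj
        _ ≤ C₁ * V ^ 2 * (w : ℝ) ^ (-δ₁) := h2
        _ ≤ C₁ * (T i * T j * (w : ℝ) ^ δ) * (w : ℝ) ^ (-δ₁) := by
            apply mul_le_mul_of_nonneg_right _ (by positivity)
            exact mul_le_mul_of_nonneg_left hV2 (by linarith)
        _ = C₁ * ((w : ℝ) ^ δ * (w : ℝ) ^ (-δ₁)) * (T i * T j) := by ring
        _ ≤ C₁ * (w : ℝ) ^ (-(δ / 2)) * (T i * T j) := by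
            apply mul_le_mul_of_nonneg_right _ (by positivity)
            apply mul_le_mul_of_nonneg_left _ (by linarith)
            rw [← Real.rpow_add hw0]
            exact Real.rpow_le_rpow_of_exponent_le hw' (by linarith)
        _ ≤ (2 * C₂ + C₁) * (w : ℝ) ^ (-(δ / 2)) * (T i * T j) := by
            have : 0 ≤ C₂ * ((w : ℝ) ^ (-(δ / 2)) * (T i * T j)) :=
              mul_nonneg (by linarith) hpos.le
            nlinarith

theorem n2_thm (hs : S2Stmt) (hq : Q2Stmt) : N2Stmt := by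
  intro σ η hσ hη
  have h : ∀ p : Fin 9 × Fin 9, ∃ δ C : ℝ, 0 < δ ∧ 1 ≤ C ∧
      (p.1 ≠ 0 → p.2 ≠ 0 → p.1 ≠ p.2 →
      ∀ (w : ℕ) (T : Fin 9 → ℝ), Squarefree w → (∀ l, 1 ≤ T l) →
      (∀ l, l ≠ p.1 → l ≠ p.2 → T l = 1) →
      ((w : ℝ) ^ σ ≤ T p.1 ∨ (w : ℝ) ^ σ ≤ T p.2) → T p.1 * T p.2 ≤ (w : ℝ) ^ (3 - η) →
      (T p.1 ≤ (w : ℝ) ^ (1 - η) ∨ T p.2 ≤ (w : ℝ) ^ (1 - η)) →
      NN (w ^ 3) T ≤ C * (w : ℝ) ^ (-δ) * ∏ l, T l) := by
    intro p
    by_cases hp : p.1 ≠ 0 ∧ p.2 ≠ 0 ∧ p.1 ≠ p.2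
    · obtain ⟨δ, C, hδ, hC, hh⟩ := n2_pair hs hq σ η hσ hη p.1 p.2 hp.1 hp.2.1 hp.2.2
      exact ⟨δ, C, hδ, hC, fun _ _ _ => hh⟩
    · exact ⟨1, 1, one_pos, le_rfl, fun h1 h2 h3 => absurd ⟨h1, h2, h3⟩ hp⟩
  choose δ C hδ hC hh using h
  have hne : (Finset.univ : Finset (Fin 9 × Fin 9)).Nonempty := Finset.univ_nonempty
  refine ⟨Finset.univ.inf' hne δ, ∑ p, C p, ?_, ?_, ?_⟩
  · rw [Finset.lt_inf'_iff]
    exact fun p _ => hδ p
  · calc (1 : ℝ) ≤ C (0, 0) := hC _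
      _ ≤ ∑ p, C p := Finset.single_le_sum (f := C)
          (fun p _ => zero_le_one.trans (hC p)) (Finset.mem_univ _)
  · intro w T i j hsq hT1 hi hj hij hT hbig hprod hsmall
    have h1 := hh (i, j) hi hj hij w T hsq hT1 hT hbig hprod hsmall
    have hw : 1 ≤ w := Nat.one_le_iff_ne_zero.2 hsq.ne_zero
    have hw' : (1 : ℝ) ≤ (w : ℝ) := by exact_mod_cast hw
    have hw0 : (0 : ℝ) < (w : ℝ) := by linarith
    have hP0 : 0 ≤ ∏ l, T l := Finset.prod_nonneg (fun l _ => zero_le_one.trans (hT1 l))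
    refine h1.trans ?_
    apply mul_le_mul_of_nonneg_right _ hP0
    have h2 : (w : ℝ) ^ (-(δ (i, j))) ≤ (w : ℝ) ^ (-(Finset.univ.inf' hne δ)) := by
      apply Real.rpow_le_rpow_of_exponent_le hw'
      have := Finset.inf'_le (s := Finset.univ) δ (Finset.mem_univ (i, j))
      linarith
    have h3 : C (i, j) ≤ ∑ p, C p := Finset.single_le_sum (f := C)
          (fun p _ => zero_le_one.trans (hC p)) (Finset.mem_univ _)
    exact mul_le_mul h3 h2 (by positivity)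
      (zero_le_one.trans ((hC (i, j)).trans h3))

end Pool.Agent.Helper21.EN
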