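import Pool.Agent.Helper21.EN.Stmts

set_option autoImplicit false

/-!
# Project EN, piece N3

The statement is in EN/Stmts.lean. Paper: /team-store/EN_paper.md.

Proof (EN_paper.md section 6 (N3)). Let (muG, etaG, deltaG, CG) come from hgv; mu := muG/2 (at most 1/10), nu := small (min(muG/8, sigma/4, 1/100)), T0 = w^(nu/36). All T_l <= w^3, so (prod T)^eps <= w^(9 eps).
(b) T_i >= T_k w^nu. hrec with c i = 2, c j = 1, c = 0 elsewhere. First term T0^18 T_j T_k^2 = T0^18 (T_k/T_i) prod T <= w^(-nu/2) prod T. K1: U supported on {j,k}, U_j <= T_j, U_k <= T_k^2, U_jU_k <= w^(1+1+2mu) <= w^3: hq2 with the larger one in the role of i: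
    NN <= C w^eps U_min^2 (1 + U_max^2/w^3) <= 2 C w^eps U_jU_k. K2: U supported on {i,j}, U_i <= T_i^2, U_j <= T_j, max >= T0: hn2 (sigma' = nu/36, eta): U_iU_j <= T_i^2T_j <= w^(3-eta), U_j <= w^(1-eta).
(c) T_i < T_k w^nu: T_k <= T_j <= T_i <= w^(1/2+mu+nu). c i = c j = 2, 0 elsewhere. First term T0^18 T_k^2 = T0^18 prod T * T_k/(T_iT_j) <= T0^18 prod T/T_i <= w^(nu/2 - sigma) prod T. K1: hq1 on {k}, U_k <= T_k^2 <= w^3: NN <= C w^eps (1 + U_k^2/w^3) <= 2C w^eps U_k.
    (c1) T_k <= w^(1/2-muG/2): hrec, K2 from hn2 on {i,j}: U_i <= T_i^2 <= w^(1-muG+2nu), U_j the same: product <= w^2, both <= w^(1-muG/2).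
    (c2) T_k > w^(1/2-muG/2): hrecg; |Far| <= (pairs with both heights of redv at i and j >= w^(1-etaG): hgv with P i = T i, P j = T j, others 1: <= CG w^(-deltaG) T_i^2T_j^2) + (pairs with ht_i < w^(1-etaG) or ht_j < w^(1-etaG): he1 with that pred and (exists l, T0 <= ht l), he2 with K from hn2:
    for U with ht <= U <= 2 ht, U <= T^c: some U_l >= T0, U_iU_j <= T_i^2T_j^2 <= w^(2+4(mu+nu)) <= w^(3-1/10), min(U_i,U_j) <= 2 w^(1-etaG) <= w^(1-etaG/2) for large w). So |Far| <= C w^(-delta'') T_i^2T_j^2 and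
    sqrt(K1 T_k^2 |Far|) <= C w^(-delta''/2+eps) prod T. Small w: NN <= (prod T)^2 <= constant * prod T. For l outside {i,j,k}: T_l = 1 and everything there is 1. gP T c, gQ T c, T_l^(c_l) as in RECG.
-/

namespace Pool.Agent.Helper21.EN

open Finset

theorem n3_prod {f : Fin 9 → ℝ} {i j k : Fin 9} (hij : i ≠ j) (hik : i ≠ k) (hjk : j ≠ k)
    (h : ∀ l, l ≠ i → l ≠ j → l ≠ k → f l = 1) :
    ∏ l, f l = f i * f j * f k := by
  have h1 : ∏ l ∈ ({i, j, k} : Finset (Fin 9)), f l = ∏ l, f l := by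
    apply Finset.prod_subset (Finset.subset_univ _)
    intro l _ hl
    simp only [Finset.mem_insert, Finset.mem_singleton, not_or] at hl
    exact h l hl.1 hl.2.1 hl.2.2
  rw [← h1, Finset.prod_insert (by simp [hij, hik]), Finset.prod_insert (by simp [hjk]),
    Finset.prod_singleton]
  ring

/-- The bound by the number of all pairs. -/
theorem n3_triv (M : ℕ) (T : Fin 9 → ℝ) (hT : ∀ l, 1 ≤ T l) :
    NN M T ≤ (∏ l, T l) * ∏ l, T l := by
  have h0 : ((vbox T).card : ℝ) ≤ ∏ l, T l := by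
    unfold vbox
    rw [Fintype.card_piFinset]
    push_cast
    refine Finset.prod_le_prod (fun l _ => by positivity) (fun l _ => ?_)
    rw [Nat.card_Icc, Nat.add_sub_cancel]
    exact Nat.floor_le (zero_le_one.trans (hT l))
  have h1 : (Sol M T).card ≤ (vbox T).card * (vbox T).card := by
    unfold Sol
    refine (Finset.card_filter_le _ _).trans ?_
    rw [Finset.card_product]
  unfold NN
  calc ((Sol M T).card : ℝ) ≤ (((vbox T).card * (vbox T).card : ℕ) : ℝ) := by exact_mod_cast h1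
    _ = ((vbox T).card : ℝ) * ((vbox T).card : ℝ) := by push_cast; ring
    _ ≤ (∏ l, T l) * ∏ l, T l := by
        refine mul_le_mul h0 h0 (by positivity) ?_
        exact Finset.prod_nonneg fun l _ => zero_le_one.trans (hT l)

/-- Two indices with product at most `M`, the larger one first. -/
theorem n3_two {ε C : ℝ} (hε : 0 < ε) (hC : 1 ≤ C)
    (h : ∀ (M : ℕ) (T : Fin 9 → ℝ) (i j : Fin 9), 1 ≤ M → (∀ l, 1 ≤ T l) → i ≠ 0 → j ≠ 0 →
      i ≠ j → (∀ l, l ≠ i → l ≠ j → T l = 1) →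
      NN M T ≤ C * ((M : ℝ) * T i) ^ ε * (T j ^ 2 * (1 + T i ^ 2 / M)))
    {M : ℕ} {U : Fin 9 → ℝ} {j k : Fin 9} (hM : 1 ≤ M) (hU : ∀ l, 1 ≤ U l) (hj : j ≠ 0)
    (hk : k ≠ 0) (hjk : j ≠ k) (hT : ∀ l, l ≠ j → l ≠ k → U l = 1) (hp : U j * U k ≤ M)
    (hle : U k ≤ U j) : NN M U ≤ 2 * C * ((M : ℝ) * M) ^ ε * (U j * U k) := by
  have hM0 : (1 : ℝ) ≤ M := by exact_mod_cast hM
  have h1 := hU j
  have h2 := hU k
  have h3 : U j ≤ M := by nlinarith
  have h4 : ((M : ℝ) * U j) ^ ε ≤ ((M : ℝ) * M) ^ ε := by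
    refine Real.rpow_le_rpow (by positivity) ?_ hε.le
    exact mul_le_mul_of_nonneg_left h3 (by positivity)
  have h5 : U k ^ 2 * (1 + U j ^ 2 / M) ≤ 2 * (U j * U k) := by
    have e1 : U k ^ 2 * (U j ^ 2 / M) = (U j * U k) * (U j * U k / M) := by ring
    have e2 : U j * U k / M ≤ 1 := by
      rw [div_le_one (by linarith)]
      exact hp
    have e3 : (U j * U k) * (U j * U k / M) ≤ (U j * U k) * 1 :=
      mul_le_mul_of_nonneg_left e2 (by positivity)
    have e4 : U k ^ 2 ≤ U j * U k := by nlinarith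
    rw [mul_add, e1]
    linarith
  have h6 : 0 ≤ ((M : ℝ) * M) ^ ε := by positivity
  have hC0 : 0 ≤ C := by linarith
  calc NN M U ≤ C * ((M : ℝ) * U j) ^ ε * (U k ^ 2 * (1 + U j ^ 2 / M)) :=
        h M U j k hM hU hj hk hjk hT
    _ ≤ C * ((M : ℝ) * M) ^ ε * (2 * (U j * U k)) := by
        refine mul_le_mul (mul_le_mul_of_nonneg_left h4 hC0) h5 (by positivity) (by positivity)
    _ = 2 * C * ((M : ℝ) * M) ^ ε * (U j * U k) := by ring

/-- Two indices, any order. -/
theorem n3_two' {ε C : ℝ} (hε : 0 < ε) (hC : 1 ≤ C)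
    (h : ∀ (M : ℕ) (T : Fin 9 → ℝ) (i j : Fin 9), 1 ≤ M → (∀ l, 1 ≤ T l) → i ≠ 0 → j ≠ 0 →
      i ≠ j → (∀ l, l ≠ i → l ≠ j → T l = 1) →
      NN M T ≤ C * ((M : ℝ) * T i) ^ ε * (T j ^ 2 * (1 + T i ^ 2 / M)))
    {M : ℕ} {U : Fin 9 → ℝ} {j k : Fin 9} (hM : 1 ≤ M) (hU : ∀ l, 1 ≤ U l) (hj : j ≠ 0)
    (hk : k ≠ 0) (hjk : j ≠ k) (hT : ∀ l, l ≠ j → l ≠ k → U l = 1) (hp : U j * U k ≤ M) :
    NN M U ≤ 2 * C * ((M : ℝ) * M) ^ ε * ∏ l, U l := by
  have e : ∏ l, U l = U j * U k := Fintype.prod_eq_mul j k hjk (fun l hl => hT l hl.1 hl.2)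
  rw [e]
  rcases le_total (U k) (U j) with h1 | h1
  · exact n3_two hε hC h hM hU hj hk hjk hT hp h1
  · rw [mul_comm (U j) (U k)] at hp ⊢
    exact n3_two hε hC h hM hU hk hj hjk.symm (fun l a b => hT l b a) hp h1

/-- The final computation. -/
theorem n3_fin {W P N F C C1 C2 K1 K2 m ν δ : ℝ} (hW : 1 ≤ W) (hP1 : 1 ≤ P) (hP2 : P ≤ W ^ 4)
    (hC : 1 ≤ C) (hC1 : 1 ≤ C1) (hC2 : 1 ≤ C2) (hm : 0 < m) (hmν : m ≤ ν / 2) (hmδ : m ≤ δ / 4)
    (hK1 : K1 = C1 * (W ^ 3 * W ^ 3) ^ (δ / 12)) (hK2 : K2 = C2 * W ^ (-δ))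
    (hF : F ≤ W ^ (-(ν / 2)) * P) (h : N ≤ C * P ^ (m / 8) * (F + Real.sqrt (K1 * K2) * P)) :
    N ≤ C * (1 + C1 * C2) * W ^ (-(m / 2)) * P := by
  have hW0 : 0 < W := zero_lt_one.trans_le hW
  have hP0 : 0 < P := zero_lt_one.trans_le hP1
  have hC0 : 0 < C := zero_lt_one.trans_le hC
  have hCC : 1 ≤ C1 * C2 := one_le_mul_of_one_le_of_one_le hC1 hC2
  have h1 : P ^ (m / 8) ≤ W ^ (m / 2) := by
    calc P ^ (m / 8) ≤ (W ^ 4) ^ (m / 8) :=
          Real.rpow_le_rpow hP0.le hP2 (by positivity)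
      _ = W ^ (m / 2) := by
          rw [← Real.rpow_natCast W 4, ← Real.rpow_mul hW0.le]
          congr 1
          push_cast
          ring
  have h2 : W ^ (-(ν / 2)) ≤ W ^ (-m) := Real.rpow_le_rpow_of_exponent_le hW (by linarith)
  have h3 : Real.sqrt (K1 * K2) ≤ C1 * C2 * W ^ (-m) := by
    rw [Real.sqrt_le_iff]
    refine ⟨by positivity, ?_⟩
    have e1 : K1 * K2 = C1 * C2 * W ^ (-(δ / 2)) := by
      have e0 : W ^ 3 * W ^ 3 = W ^ ((6 : ℕ) : ℝ) := by
        rw [Real.rpow_natCast]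
        ring
      rw [hK1, hK2, e0, ← Real.rpow_mul hW0.le]
      have e2 : W ^ (((6 : ℕ) : ℝ) * (δ / 12)) * W ^ (-δ) = W ^ (-(δ / 2)) := by
        rw [← Real.rpow_add hW0]
        congr 1
        push_cast
        ring
      rw [← e2]
      ring
    have e3 : (C1 * C2 * W ^ (-m)) ^ 2 = (C1 * C2) ^ 2 * W ^ (-(2 * m)) := by
      rw [mul_pow, ← Real.rpow_natCast (W ^ (-m)) 2, ← Real.rpow_mul hW0.le]
      congr 2
      push_cast
      ring
    rw [e1, e3]
    have e4 : W ^ (-(δ / 2)) ≤ W ^ (-(2 * m)) :=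
      Real.rpow_le_rpow_of_exponent_le hW (by linarith)
    refine mul_le_mul ?_ e4 (by positivity) (by positivity)
    nlinarith
  have h4 : F + Real.sqrt (K1 * K2) * P ≤ (1 + C1 * C2) * W ^ (-m) * P := by
    have e1 := mul_le_mul_of_nonneg_right h2 hP0.le
    have e2 := mul_le_mul_of_nonneg_right h3 hP0.le
    have e3 : (1 + C1 * C2) * W ^ (-m) * P = W ^ (-m) * P + C1 * C2 * W ^ (-m) * P := by ring
    linarith
  have h5 : C * P ^ (m / 8) * (F + Real.sqrt (K1 * K2) * P) ≤
      C * W ^ (m / 2) * ((1 + C1 * C2) * W ^ (-m) * P) := by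
    have e1 : C * P ^ (m / 8) ≤ C * W ^ (m / 2) := mul_le_mul_of_nonneg_left h1 hC0.le
    calc C * P ^ (m / 8) * (F + Real.sqrt (K1 * K2) * P) ≤
          C * P ^ (m / 8) * ((1 + C1 * C2) * W ^ (-m) * P) :=
          mul_le_mul_of_nonneg_left h4 (by positivity)
      _ ≤ C * W ^ (m / 2) * ((1 + C1 * C2) * W ^ (-m) * P) :=
          mul_le_mul_of_nonneg_right e1 (by positivity)
  have h6 : C * W ^ (m / 2) * ((1 + C1 * C2) * W ^ (-m) * P) =
      C * (1 + C1 * C2) * W ^ (-(m / 2)) * P := by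
    have e1 : W ^ (m / 2) * W ^ (-m) = W ^ (-(m / 2)) := by
      rw [← Real.rpow_add hW0]
      congr 1
      ring
    rw [← e1]
    ring
  linarith

/-- The number of far pairs. -/
theorem n3_far {M : ℕ} {T : Fin 9 → ℝ} {c : Fin 9 → ℕ} {T0 A KG C1 C2 ε K : ℝ} {i j : Fin 9}
    (hK : 0 ≤ K) (hC1 : 0 ≤ C1) (hQ : gQ T c = gP T c) (hP : ∀ l, 1 ≤ gP T c l)
    (HG : ∀ S : Finset ((Vec × Vec) × (Vec × Vec)),
      (∀ s ∈ S, s.1 ∈ GBox M (gP T c) (gP T c) ∧ s.2 ∈ GBox M (gP T c) (gP T c) ∧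
        (∀ l, Nat.Coprime (s.1.1 l) (s.1.2 l)) ∧ (∀ l, Nat.Coprime (s.2.1 l) (s.2.2 l)) ∧
        SameVal M s.1 s.2 ∧ A ≤ ht (redv s.1 s.2) i ∧ A ≤ ht (redv s.1 s.2) j) →
      (S.card : ℝ) ≤ KG)
    (H1 : ∀ (pred : Vec × Vec → Prop) (S : Finset ((Vec × Vec) × (Vec × Vec))),
      (∀ s ∈ S, s.1 ∈ GBox M (gP T c) (gP T c) ∧ s.2 ∈ GBox M (gP T c) (gP T c) ∧
        SameVal M s.1 s.2 ∧ pred (redv s.1 s.2)) →
      ∀ S' : Finset (Vec × Vec), (∀ z ∈ Sol M (fun l => gP T c l * gP T c l), pred z → z ∈ S') →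
      (S.card : ℝ) ≤ C1 * (∏ l, gP T c l * gP T c l) ^ ε *
        ∑ z ∈ S', ∏ l, (gP T c l * gP T c l) / ht z l)
    (H2 : ∀ (B : Fin 9 → ℝ) (S' : Finset (Vec × Vec)) (K : ℝ), (∀ l, 1 ≤ B l) →
      0 ≤ K → S' ⊆ Sol M B →
      (∀ z ∈ S', ∀ U : Fin 9 → ℝ, (∀ l, ht z l ≤ U l ∧ U l ≤ 2 * ht z l ∧ U l ≤ B l) →
        NN M U ≤ K * ∏ l, U l) →
      ∑ z ∈ S', ∏ l, B l / ht z l ≤ C2 * (∏ l, B l) ^ ε * K * ∏ l, B l)
    (HK : ∀ U : Fin 9 → ℝ, (∀ l, 1 ≤ U l ∧ U l ≤ gP T c l * gP T c l) → (∃ l, T0 ≤ U l) →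
      (U i ≤ 2 * A ∨ U j ≤ 2 * A) → NN M U ≤ K * ∏ l, U l) :
    ((Far M T c T0).card : ℝ) ≤ KG + C1 * (∏ l, gP T c l * gP T c l) ^ ε *
      (C2 * (∏ l, gP T c l * gP T c l) ^ ε * K * ∏ l, gP T c l * gP T c l) := by
  classical
  have hmem : ∀ s ∈ Far M T c T0, s.1 ∈ GBox M (gP T c) (gP T c) ∧
      s.2 ∈ GBox M (gP T c) (gP T c) ∧ (∀ l, Nat.Coprime (s.1.1 l) (s.1.2 l)) ∧
      (∀ l, Nat.Coprime (s.2.1 l) (s.2.2 l)) ∧ SameVal M s.1 s.2 ∧
      ∃ l, T0 ≤ ht (redv s.1 s.2) l := by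
    intro s hs
    unfold Far at hs
    rw [Finset.mem_filter, Finset.mem_product, hQ] at hs
    exact ⟨hs.1.1, hs.1.2, hs.2.1, hs.2.2.1, hs.2.2.2.1, hs.2.2.2.2⟩
  have hB : ∀ l, 1 ≤ gP T c l * gP T c l := fun l =>
    one_le_mul_of_one_le_of_one_le (hP l) (hP l)
  have hprod0 : 0 ≤ ∏ l, gP T c l * gP T c l :=
    Finset.prod_nonneg fun l _ => zero_le_one.trans (hB l)
  obtain ⟨p, hp⟩ : ∃ p : (Vec × Vec) × (Vec × Vec) → Prop, p = fun s =>
    A ≤ ht (redv s.1 s.2) i ∧ A ≤ ht (redv s.1 s.2) j := ⟨_, rfl⟩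
  have hsplit : ((Far M T c T0).card : ℝ) = (((Far M T c T0).filter p).card : ℝ) +
      (((Far M T c T0).filter (fun s => ¬ p s)).card : ℝ) := by
    exact_mod_cast (Finset.card_filter_add_card_filter_not (s := Far M T c T0) p).symm
  have hS1 : (((Far M T c T0).filter p).card : ℝ) ≤ KG := by
    refine HG _ fun s hs => ?_
    rw [Finset.mem_filter] at hs
    obtain ⟨a1, a2, a3, a4, a5, a6⟩ := hmem s hs.1
    have h3 := hs.2
    rw [hp] at h3
    exact ⟨a1, a2, a3, a4, a5, h3.1, h3.2⟩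
  obtain ⟨pred, hpred⟩ : ∃ pred : Vec × Vec → Prop, pred = fun z =>
    (∃ l, T0 ≤ ht z l) ∧ (ht z i < A ∨ ht z j < A) := ⟨_, rfl⟩
  have hS2 : (((Far M T c T0).filter (fun s => ¬ p s)).card : ℝ) ≤
      C1 * (∏ l, gP T c l * gP T c l) ^ ε *
        ∑ z ∈ (Sol M (fun l => gP T c l * gP T c l)).filter pred,
          ∏ l, (gP T c l * gP T c l) / ht z l := by
    refine H1 pred _ (fun s hs => ?_) _ (fun z hz hz2 => Finset.mem_filter.2 ⟨hz, hz2⟩)
    rw [Finset.mem_filter] at hs
    obtain ⟨a1, a2, a3, a4, a5, a6⟩ := hmem s hs.1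
    refine ⟨a1, a2, a5, ?_⟩
    rw [hpred]
    refine ⟨a6, ?_⟩
    have h3 := hs.2
    rw [hp] at h3
    by_contra hcon
    rw [not_or, not_lt, not_lt] at hcon
    exact h3 hcon
  have hS3 : ∑ z ∈ (Sol M (fun l => gP T c l * gP T c l)).filter pred,
      ∏ l, (gP T c l * gP T c l) / ht z l ≤
      C2 * (∏ l, gP T c l * gP T c l) ^ ε * K * ∏ l, gP T c l * gP T c l := by
    refine H2 (fun l => gP T c l * gP T c l) _ K hB hK (Finset.filter_subset _ _) ?_
    intro z hz U hU
    rw [Finset.mem_filter] at hz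
    have h2 := hz.2
    rw [hpred] at h2
    obtain ⟨⟨l0, hl0⟩, hsm⟩ := h2
    have hz1 : ∀ l, 1 ≤ ht z l := by
      intro l
      have h3 := hz.1
      unfold Sol at h3
      rw [Finset.mem_filter, Finset.mem_product] at h3
      have h4 := h3.1.1
      unfold vbox at h4
      rw [Fintype.mem_piFinset] at h4
      have h5 := (Finset.mem_Icc.1 (h4 l)).1
      unfold ht
      exact_mod_cast h5.trans (le_max_left _ _)
    refine HK U (fun l => ⟨(hz1 l).trans (hU l).1, (hU l).2.2⟩) ⟨l0, hl0.trans (hU l0).1⟩ ?_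
    rcases hsm with h | h
    · left
      have := (hU i).2.1
      linarith
    · right
      have := (hU j).2.1
      linarith
  have hpow : 0 ≤ C1 * (∏ l, gP T c l * gP T c l) ^ ε := by positivity
  rw [hsplit]
  refine add_le_add hS1 (hS2.trans ?_)
  exact mul_le_mul_of_nonneg_left hS3 hpow

theorem n3_thm (hn2 : N2Stmt) (hgv : GVStmt) (hq1 : Q1Stmt) (hq2 : Q2Stmt) (he1 : E1Stmt)
    (he2 : E2Stmt) (hrec : RECStmt) (hrecg : RECGStmt) : N3Stmt := by
  obtain ⟨μG, ηG, δG, CG, hμG, hηG, hδG, hCG, HG⟩ := hgv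
  obtain ⟨μ, hμ⟩ : ∃ μ : ℝ, μ = min (μG / 2) (1 / 10) := ⟨_, rfl⟩
  have hμ0 : 0 < μ := by
    rw [hμ]
    exact lt_min (by positivity) (by norm_num)
  have hμ1 : μ ≤ μG / 2 := by
    rw [hμ]
    exact min_le_left _ _
  have hμ2 : μ ≤ 1 / 10 := by
    rw [hμ]
    exact min_le_right _ _
  refine ⟨μ, hμ0, ?_⟩
  intro σ η hσ hη
  obtain ⟨ν, hν⟩ : ∃ ν : ℝ, ν = min (min (μG / 8) (σ / 4)) (1 / 100) := ⟨_, rfl⟩
  have hν0 : 0 < ν := by
    rw [hν]
    exact lt_min (lt_min (by positivity) (by positivity)) (by norm_num)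
  have hν1 : ν ≤ μG / 8 := by
    rw [hν]
    exact (min_le_left _ _).trans (min_le_left _ _)
  have hν2 : ν ≤ σ / 4 := by
    rw [hν]
    exact (min_le_left _ _).trans (min_le_right _ _)
  have hν3 : ν ≤ 1 / 100 := by
    rw [hν]
    exact min_le_right _ _
  obtain ⟨η5, hη5⟩ : ∃ η5 : ℝ, η5 = min (ηG / 2) (1 / 10) := ⟨_, rfl⟩
  have hη50 : 0 < η5 := by
    rw [hη5]
    exact lt_min (by positivity) (by norm_num)
  have hη51 : η5 ≤ ηG / 2 := by
    rw [hη5]
    exact min_le_left _ _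
  have hη52 : η5 ≤ 1 / 10 := by
    rw [hη5]
    exact min_le_right _ _
  obtain ⟨δ₂, C₂, hδ₂, hC₂, H2⟩ := hn2 (ν / 36) η (by positivity) hη
  obtain ⟨δ₃, C₃, hδ₃, hC₃, H3⟩ := hn2 (ν / 36) (μG / 2) (by positivity) (by positivity)
  obtain ⟨δ₅, C₅, hδ₅, hC₅, H5⟩ := hn2 (ν / 36) η5 (by positivity) hη50
  obtain ⟨δ, hδ⟩ : ∃ δ : ℝ, δ = min (min δ₂ δ₃) (min δG (δ₅ / 2)) := ⟨_, rfl⟩
  have hδ0 : 0 < δ := by
    rw [hδ]
    exact lt_min (lt_min hδ₂ hδ₃) (lt_min hδG (by positivity))
  have hδ2 : δ ≤ δ₂ := by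
    rw [hδ]
    exact (min_le_left _ _).trans (min_le_left _ _)
  have hδ3 : δ ≤ δ₃ := by
    rw [hδ]
    exact (min_le_left _ _).trans (min_le_right _ _)
  have hδG' : δ ≤ δG := by
    rw [hδ]
    exact (min_le_right _ _).trans (min_le_left _ _)
  have hδ5 : δ ≤ δ₅ / 2 := by
    rw [hδ]
    exact (min_le_right _ _).trans (min_le_right _ _)
  obtain ⟨CQ, hCQ, HQ⟩ := hq2 (δ / 12) (by positivity)
  obtain ⟨E1, hE1, HE1⟩ := he1 (δ₅ / 12) (by positivity)
  obtain ⟨E2, hE2, HE2⟩ := he2 (δ₅ / 12) (by positivity)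
  obtain ⟨m, hm⟩ : ∃ m : ℝ, m = min (ν / 2) (δ / 4) := ⟨_, rfl⟩
  have hm0 : 0 < m := by
    rw [hm]
    exact lt_min (by positivity) (by positivity)
  have hmν : m ≤ ν / 2 := by
    rw [hm]
    exact min_le_left _ _
  have hmδ : m ≤ δ / 4 := by
    rw [hm]
    exact min_le_right _ _
  obtain ⟨C, hC, HR⟩ := hrec (m / 8) (by positivity)
  obtain ⟨C', hC', HR'⟩ := hrecg (m / 8) (by positivity)
  obtain ⟨C1, hC1⟩ : ∃ C1 : ℝ, C1 = 2 * CQ := ⟨_, rfl⟩
  obtain ⟨C2, hC2⟩ : ∃ C2 : ℝ, C2 = C₂ + C₃ + (CG + E1 * E2 * C₅) := ⟨_, rfl⟩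
  have hE : 1 ≤ E1 * E2 * C₅ := one_le_mul_of_one_le_of_one_le
    (one_le_mul_of_one_le_of_one_le hE1 hE2) hC₅
  have hC11 : 1 ≤ C1 := by linarith
  have hC21 : 1 ≤ C2 := by linarith
  have hCC : 1 ≤ C1 * C2 := one_le_mul_of_one_le_of_one_le hC11 hC21
  obtain ⟨Z, hZ⟩ : ∃ Z : ℝ, Z = (2 : ℝ) ^ (2 / ηG) := ⟨_, rfl⟩
  have hZ0 : 0 < Z := by
    rw [hZ]
    positivity
  have hD1 : 1 ≤ C * (1 + C1 * C2) := one_le_mul_of_one_le_of_one_le hC (by linarith)
  have hD2 : 1 ≤ C' * (1 + C1 * C2) := one_le_mul_of_one_le_of_one_le hC' (by linarith)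
  have hZ5 : 0 < Z ^ 5 := by positivity
  refine ⟨m / 2, C * (1 + C1 * C2) + C' * (1 + C1 * C2) + Z ^ 5, by positivity, by linarith, ?_⟩
  intro w T i j k hw hT hi hj hk hij hik hjk hs hkj hji hσT hprod hTjw hTkw
  have hwpos : 0 < w := Nat.pos_of_ne_zero hw.ne_zero
  obtain ⟨W, hWw⟩ : ∃ W : ℝ, W = (w : ℝ) := ⟨_, rfl⟩
  have hW1 : 1 ≤ W := by
    rw [hWw]
    exact_mod_cast hwpos
  have hW0 : 0 < W := zero_lt_one.trans_le hW1
  have hL0 : 0 ≤ Real.log W := Real.log_nonneg hW1
  have hW3 : ((w ^ 3 : ℕ) : ℝ) = W ^ 3 := by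
    rw [hWw]
    push_cast
    ring
  have hM1 : 1 ≤ w ^ 3 := Nat.one_le_pow _ _ hwpos
  rw [← hWw] at hσT hprod hTjw hTkw ⊢
  have hTi := hT i
  have hTj := hT j
  have hTk := hT k
  have hi0 : 0 < T i := zero_lt_one.trans_le hTi
  have hj0 : 0 < T j := zero_lt_one.trans_le hTj
  have hk0 : 0 < T k := zero_lt_one.trans_le hTk
  -- logarithms
  have lj0 : 0 ≤ Real.log (T j) := Real.log_nonneg hTj
  have lk0 : 0 ≤ Real.log (T k) := Real.log_nonneg hTk
  have lji : Real.log (T j) ≤ Real.log (T i) := Real.log_le_log hj0 hji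
  have lkj : Real.log (T k) ≤ Real.log (T j) := Real.log_le_log hk0 hkj
  have lσ : σ * Real.log W ≤ Real.log (T i) := by
    have h := Real.log_le_log (by positivity) hσT
    rwa [Real.log_rpow hW0] at h
  have lprod : 2 * Real.log (T i) + Real.log (T j) ≤ (3 - η) * Real.log W := by
    have h := Real.log_le_log (by positivity) hprod
    rwa [Real.log_rpow hW0, Real.log_mul (by positivity) hj0.ne', Real.log_pow, Nat.cast_ofNat]
      at h
  have ljw : Real.log (T j) ≤ (1 - η) * Real.log W := by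
    have h := Real.log_le_log hj0 hTjw
    rwa [Real.log_rpow hW0] at h
  have lkw : Real.log (T k) ≤ (1 / 2 + μ) * Real.log W := by
    have h := Real.log_le_log hk0 hTkw
    rwa [Real.log_rpow hW0] at h
  have hηL : 0 ≤ η * Real.log W := by positivity
  have hνL : 0 ≤ ν * Real.log W := by positivity
  have hμL : 0 ≤ μ * Real.log W := by positivity
  have hμGL : 0 ≤ μG * Real.log W := by positivity
  have hνL1 : ν * Real.log W ≤ μG / 8 * Real.log W := mul_le_mul_of_nonneg_right hν1 hL0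
  have hνL2 : ν * Real.log W ≤ σ / 4 * Real.log W := mul_le_mul_of_nonneg_right hν2 hL0
  have hνL3 : ν * Real.log W ≤ 1 / 100 * Real.log W := mul_le_mul_of_nonneg_right hν3 hL0
  have hμL1 : μ * Real.log W ≤ μG / 2 * Real.log W := mul_le_mul_of_nonneg_right hμ1 hL0
  have hμL2 : μ * Real.log W ≤ 1 / 10 * Real.log W := mul_le_mul_of_nonneg_right hμ2 hL0
  have hη5L : 0 ≤ η5 * Real.log W := by positivity
  have hη5L1 : η5 * Real.log W ≤ ηG / 2 * Real.log W := mul_le_mul_of_nonneg_right hη51 hL0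
  have hη5L2 : η5 * Real.log W ≤ 1 / 10 * Real.log W := mul_le_mul_of_nonneg_right hη52 hL0
  obtain ⟨T0, hT0⟩ : ∃ T0 : ℝ, T0 = W ^ (ν / 36) := ⟨_, rfl⟩
  have hT01 : 1 ≤ T0 := by
    rw [hT0]
    exact Real.one_le_rpow hW1 (by positivity)
  have hT00 : 0 < T0 := zero_lt_one.trans_le hT01
  have lT0 : Real.log T0 = ν / 36 * Real.log W := by rw [hT0, Real.log_rpow hW0]
  have hTprod : ∏ l, T l = T i * T j * T k := n3_prod hij hik hjk hs
  have hP1 : 1 ≤ ∏ l, T l := by
    rw [hTprod]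
    exact one_le_mul_of_one_le_of_one_le (one_le_mul_of_one_le_of_one_le hTi hTj) hTk
  have hP0 : 0 ≤ ∏ l, T l := zero_le_one.trans hP1
  have hP2 : ∏ l, T l ≤ W ^ 4 := by
    rw [hTprod, ← Real.log_le_log_iff (by positivity) (by positivity), Real.log_mul
      (by positivity) hk0.ne', Real.log_mul hi0.ne' hj0.ne', Real.log_pow]
    push_cast
    linarith
  have hWm : 0 < W ^ (-(m / 2)) := by positivity
  have hWmP : 0 ≤ W ^ (-(m / 2)) * ∏ l, T l := by positivity
  have fin1 : ∀ {x : ℝ}, x ≤ C * (1 + C1 * C2) * W ^ (-(m / 2)) * ∏ l, T l →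
      x ≤ (C * (1 + C1 * C2) + C' * (1 + C1 * C2) + Z ^ 5) * W ^ (-(m / 2)) * ∏ l, T l := by
    intro x hx
    have h1 : 0 ≤ (C' * (1 + C1 * C2) + Z ^ 5) * (W ^ (-(m / 2)) * ∏ l, T l) := by positivity
    linarith
  have fin2 : ∀ {x : ℝ}, x ≤ C' * (1 + C1 * C2) * W ^ (-(m / 2)) * ∏ l, T l →
      x ≤ (C * (1 + C1 * C2) + C' * (1 + C1 * C2) + Z ^ 5) * W ^ (-(m / 2)) * ∏ l, T l := by
    intro x hx
    have h1 : 0 ≤ (C * (1 + C1 * C2) + Z ^ 5) * (W ^ (-(m / 2)) * ∏ l, T l) := by positivity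
    linarith
  have fin3 : ∀ {x : ℝ}, x ≤ Z ^ 5 * W ^ (-(m / 2)) * ∏ l, T l →
      x ≤ (C * (1 + C1 * C2) + C' * (1 + C1 * C2) + Z ^ 5) * W ^ (-(m / 2)) * ∏ l, T l := by
    intro x hx
    have h1 : 0 ≤ (C * (1 + C1 * C2) + C' * (1 + C1 * C2)) * (W ^ (-(m / 2)) * ∏ l, T l) := by
      positivity
    linarith
  -- small w
  by_cases hsmall : W ^ (ηG / 2) < 2
  · refine fin3 ?_
    have h1 := n3_triv (w ^ 3) T hT
    have hWZ : W ≤ Z := by
      have h2 : (W ^ (ηG / 2)) ^ (2 / ηG) ≤ (2 : ℝ) ^ (2 / ηG) :=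
        Real.rpow_le_rpow (by positivity) hsmall.le (by positivity)
      rw [← Real.rpow_mul hW0.le] at h2
      have h3 : ηG / 2 * (2 / ηG) = 1 := by field_simp
      rw [h3, Real.rpow_one] at h2
      rw [hZ]
      exact h2
    have h4 : W ^ 4 ≤ Z ^ 5 * W ^ (-(m / 2)) := by
      have h5 : W ^ (-(1 : ℝ)) ≤ W ^ (-(m / 2)) :=
        Real.rpow_le_rpow_of_exponent_le hW1 (by linarith)
      have h6 : W ^ 4 = W ^ 5 * W ^ (-(1 : ℝ)) := by
        rw [Real.rpow_neg_one]
        field_simp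
      rw [h6]
      exact mul_le_mul (pow_le_pow_left₀ hW0.le hWZ 5) h5 (by positivity) (by positivity)
    calc NN (w ^ 3) T ≤ (∏ l, T l) * ∏ l, T l := h1
      _ ≤ (Z ^ 5 * W ^ (-(m / 2))) * ∏ l, T l :=
          mul_le_mul_of_nonneg_right (hP2.trans h4) hP0
  rw [not_lt] at hsmall
  obtain ⟨K1, hK1⟩ : ∃ K1 : ℝ, K1 = C1 * (W ^ 3 * W ^ 3) ^ (δ / 12) := ⟨_, rfl⟩
  obtain ⟨K2, hK2⟩ : ∃ K2 : ℝ, K2 = C2 * W ^ (-δ) := ⟨_, rfl⟩
  have hK10 : 0 ≤ K1 := by
    rw [hK1]
    positivity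
  have hK20 : 0 ≤ K2 := by
    rw [hK2]
    positivity
  -- the bound for the small group
  have small : ∀ U : Fin 9 → ℝ, (∀ l, 1 ≤ U l) → (∀ l, l ≠ j → l ≠ k → U l = 1) →
      U j ≤ T j → U k ≤ T k ^ 2 → NN (w ^ 3) U ≤ K1 * ∏ l, U l := by
    intro U u1 uo uj uk
    have uj0 : 0 < U j := zero_lt_one.trans_le (u1 j)
    have uk0 : 0 < U k := zero_lt_one.trans_le (u1 k)
    have luj := Real.log_le_log uj0 uj
    have luk := Real.log_le_log uk0 uk
    rw [Real.log_pow, Nat.cast_ofNat] at luk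
    have h := n3_two' (by positivity) hCQ HQ hM1 u1 hj hk hjk uo (by
      rw [hW3, ← Real.log_le_log_iff (by positivity) (by positivity), Real.log_pow,
        Real.log_mul uj0.ne' uk0.ne']
      push_cast
      linarith)
    rw [hW3] at h
    rw [hK1, hC1]
    exact h
  have hUpos : ∀ U : Fin 9 → ℝ, (∀ l, 1 ≤ U l) → 0 ≤ ∏ l, U l := fun U h =>
    Finset.prod_nonneg fun l _ => zero_le_one.trans (h l)
  -- savings
  have hcoef : ∀ {D δ' : ℝ}, 0 ≤ D → D ≤ C2 → δ ≤ δ' → D * W ^ (-δ') ≤ K2 := by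
    intro D δ' h1 h2 h3
    rw [hK2]
    have h4 : W ^ (-δ') ≤ W ^ (-δ) := Real.rpow_le_rpow_of_exponent_le hW1 (by linarith)
    exact mul_le_mul h2 h4 (by positivity) (by linarith)
  have big : ∀ U : Fin 9 → ℝ, (∀ l, l ≠ i → l ≠ j → U l = 1) → (∀ l, 1 ≤ U l) →
      (∃ l, T0 ≤ U l) → ((w : ℝ) ^ (ν / 36) ≤ U i ∨ (w : ℝ) ^ (ν / 36) ≤ U j) := by
    intro U uo u1 hbig
    obtain ⟨l, hl⟩ := hbig
    rw [hT0, hWw] at hl
    by_cases h1 : l = i
    · rw [h1] at hl
      exact Or.inl hl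
    by_cases h2 : l = j
    · rw [h2] at hl
      exact Or.inr hl
    rw [uo l h1 h2] at hl
    exact Or.inl (hl.trans (u1 i))
  by_cases hcb : T k * W ^ ν ≤ T i
  · -- case (b)
    refine fin1 ?_
    have lcb : Real.log (T k) + ν * Real.log W ≤ Real.log (T i) := by
      have h := Real.log_le_log (by positivity) hcb
      rwa [Real.log_mul hk0.ne' (by positivity), Real.log_rpow hW0] at h
    obtain ⟨c, hc⟩ : ∃ c : Fin 9 → ℕ, c = fun l => if l = i then 2 else if l = j then 1 else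
      0 := ⟨_, rfl⟩
    have ci : c i = 2 := by rw [hc]; simp
    have cj : c j = 1 := by rw [hc]; simp [hij.symm]
    have co : ∀ l, l ≠ i → l ≠ j → c l = 0 := by
      intro l h1 h2
      rw [hc]
      simp [h1, h2]
    have ck : c k = 0 := co k hik.symm hjk.symm
    have hprod2 : ∏ l, T l ^ (2 - c l) = T j * T k ^ 2 := by
      rw [n3_prod (f := fun l => T l ^ (2 - c l)) hij hik hjk (by
        intro l h1 h2 h3
        rw [hs l h1 h2 h3, one_pow]), ci, cj, ck]
      simp
    have hR := HR (w ^ 3) T c T0 K1 K2 hM1 hT (by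
      intro l
      by_cases h1 : l = i
      · rw [h1, ci]
      by_cases h2 : l = j
      · rw [h2, cj]
        norm_num
      rw [co l h1 h2]
      norm_num) hT01 hK10 hK20 (by
      intro U hU
      have u1 : ∀ l, 1 ≤ U l := fun l => (hU l).1
      refine small U u1 ?_ ?_ ?_
      · intro l h2 h3
        by_cases h1 : l = i
        · have h4 := (hU l).2
          rw [h1, ci, Nat.sub_self, pow_zero] at h4
          rw [h1]
          exact le_antisymm h4 (u1 i)
        have h5 := (hU l).2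
        rw [hs l h1 h2 h3, one_pow] at h5
        exact le_antisymm h5 (u1 l)
      · have h1 := (hU j).2
        rw [cj] at h1
        simpa using h1
      · have h1 := (hU k).2
        rw [ck] at h1
        simpa using h1) (by
      intro U hU hUT
      have u1 : ∀ l, 1 ≤ U l := fun l => (hU l).1
      have uo : ∀ l, l ≠ i → l ≠ j → U l = 1 := by
        intro l h1 h2
        have h4 := (hU l).2
        rw [co l h1 h2, pow_zero] at h4
        exact le_antisymm h4 (u1 l)
      have ui0 : 0 < U i := zero_lt_one.trans_le (u1 i)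
      have uj0 : 0 < U j := zero_lt_one.trans_le (u1 j)
      have lui : Real.log (U i) ≤ 2 * Real.log (T i) := by
        have h := (hU i).2
        rw [ci] at h
        have h1 := Real.log_le_log ui0 h
        rwa [Real.log_pow, Nat.cast_ofNat] at h1
      have luj : Real.log (U j) ≤ Real.log (T j) := by
        have h := (hU j).2
        rw [cj, pow_one] at h
        exact Real.log_le_log uj0 h
      have h := H2 w U i j hw u1 hi hj hij uo (big U uo u1 hUT) (by
        rw [← hWw, ← Real.log_le_log_iff (by positivity) (by positivity), Real.log_mul ui0.ne'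
          uj0.ne', Real.log_rpow hW0]
        linarith) (Or.inr (by
        rw [← hWw, ← Real.log_le_log_iff (by positivity) (by positivity), Real.log_rpow hW0]
        linarith))
      rw [← hWw] at h
      exact h.trans (mul_le_mul_of_nonneg_right (hcoef (by linarith) (by linarith) hδ2)
        (hUpos U u1)))
    rw [hprod2] at hR
    refine n3_fin hW1 hP1 hP2 hC hC11 hC21 hm0 hmν hmδ hK1 hK2 ?_ hR
    rw [hTprod, ← Real.log_le_log_iff (by positivity) (by positivity), Real.log_mul (by positivity)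
      (by positivity), Real.log_mul hj0.ne' (by positivity), Real.log_mul
      (by positivity) (by positivity), Real.log_mul (by positivity) hk0.ne',
      Real.log_mul hi0.ne' hj0.ne', Real.log_pow, Real.log_pow, Real.log_rpow hW0, lT0]
    push_cast
    linarith
  · -- case (c)
    rw [not_le] at hcb
    have lcb : Real.log (T i) ≤ Real.log (T k) + ν * Real.log W := by
      have h := Real.log_le_log hi0 hcb.le
      rwa [Real.log_mul hk0.ne' (by positivity), Real.log_rpow hW0] at h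
    obtain ⟨c, hc⟩ : ∃ c : Fin 9 → ℕ, c = fun l => if l = i then 2 else if l = j then 2 else
      0 := ⟨_, rfl⟩
    have ci : c i = 2 := by rw [hc]; simp
    have cj : c j = 2 := by rw [hc]; simp
    have co : ∀ l, l ≠ i → l ≠ j → c l = 0 := by
      intro l h1 h2
      rw [hc]
      simp [h1, h2]
    have ck : c k = 0 := co k hik.symm hjk.symm
    have hc2 : ∀ l, c l ≤ 2 := by
      intro l
      by_cases h1 : l = i
      · rw [h1, ci]
      by_cases h2 : l = j
      · rw [h2, cj]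
      rw [co l h1 h2]
      norm_num
    have hprod2 : ∏ l, T l ^ (2 - c l) = T k ^ 2 := by
      rw [n3_prod (f := fun l => T l ^ (2 - c l)) hij hik hjk (by
        intro l h1 h2 h3
        rw [hs l h1 h2 h3, one_pow]), ci, cj, ck]
      simp
    have hsm : ∀ U : Fin 9 → ℝ, (∀ l, 1 ≤ U l ∧ U l ≤ T l ^ (2 - c l)) →
        NN (w ^ 3) U ≤ K1 * ∏ l, U l := by
      intro U hU
      have u1 : ∀ l, 1 ≤ U l := fun l => (hU l).1
      refine small U u1 ?_ ?_ ?_
      · intro l h2 h3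
        by_cases h1 : l = i
        · have h4 := (hU l).2
          rw [h1, ci, Nat.sub_self, pow_zero] at h4
          rw [h1]
          exact le_antisymm h4 (u1 i)
        have h5 := (hU l).2
        rw [hs l h1 h2 h3, one_pow] at h5
        exact le_antisymm h5 (u1 l)
      · have h1 := (hU j).2
        rw [cj, Nat.sub_self, pow_zero] at h1
        exact h1.trans hTj
      · have h1 := (hU k).2
        rw [ck] at h1
        simpa using h1
    have hF : T0 ^ 18 * T k ^ 2 ≤ W ^ (-(ν / 2)) * ∏ l, T l := by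
      rw [hTprod, ← Real.log_le_log_iff (by positivity) (by positivity), Real.log_mul
        (by positivity) (by positivity), Real.log_mul
        (by positivity) (by positivity), Real.log_mul (by positivity) hk0.ne',
        Real.log_mul hi0.ne' hj0.ne', Real.log_pow, Real.log_pow, Real.log_rpow hW0, lT0]
      push_cast
      linarith
    by_cases hck : T k ≤ W ^ (1 / 2 - μG / 2)
    · -- case (c1)
      refine fin1 ?_
      have lck : Real.log (T k) ≤ (1 / 2 - μG / 2) * Real.log W := by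
        have h := Real.log_le_log hk0 hck
        rwa [Real.log_rpow hW0] at h
      have hR := HR (w ^ 3) T c T0 K1 K2 hM1 hT hc2 hT01 hK10 hK20 hsm (by
        intro U hU hUT
        have u1 : ∀ l, 1 ≤ U l := fun l => (hU l).1
        have uo : ∀ l, l ≠ i → l ≠ j → U l = 1 := by
          intro l h1 h2
          have h4 := (hU l).2
          rw [co l h1 h2, pow_zero] at h4
          exact le_antisymm h4 (u1 l)
        have ui0 : 0 < U i := zero_lt_one.trans_le (u1 i)
        have uj0 : 0 < U j := zero_lt_one.trans_le (u1 j)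
        have lui : Real.log (U i) ≤ 2 * Real.log (T i) := by
          have h := (hU i).2
          rw [ci] at h
          have h1 := Real.log_le_log ui0 h
          rwa [Real.log_pow, Nat.cast_ofNat] at h1
        have luj : Real.log (U j) ≤ 2 * Real.log (T j) := by
          have h := (hU j).2
          rw [cj] at h
          have h1 := Real.log_le_log uj0 h
          rwa [Real.log_pow, Nat.cast_ofNat] at h1
        have h := H3 w U i j hw u1 hi hj hij uo (big U uo u1 hUT) (by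
          rw [← hWw, ← Real.log_le_log_iff (by positivity) (by positivity), Real.log_mul ui0.ne'
            uj0.ne', Real.log_rpow hW0]
          linarith) (Or.inr (by
          rw [← hWw, ← Real.log_le_log_iff (by positivity) (by positivity), Real.log_rpow hW0]
          linarith))
        rw [← hWw] at h
        exact h.trans (mul_le_mul_of_nonneg_right (hcoef (by linarith) (by linarith) hδ3)
          (hUpos U u1)))
      rw [hprod2] at hR
      exact n3_fin hW1 hP1 hP2 hC hC11 hC21 hm0 hmν hmδ hK1 hK2 hF hR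
    · -- case (c2)
      refine fin2 ?_
      rw [not_le] at hck
      have lck : (1 / 2 - μG / 2) * Real.log W ≤ Real.log (T k) := by
        have h := Real.log_le_log (by positivity) hck.le
        rwa [Real.log_rpow hW0] at h
      have hgPi : gP T c i = T i := by
        unfold gP
        rw [ci]
        simp
      have hgPj : gP T c j = T j := by
        unfold gP
        rw [cj]
        simp
      have hgPo : ∀ l, l ≠ i → l ≠ j → gP T c l = 1 := by
        intro l h1 h2
        unfold gP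
        rw [co l h1 h2]
        simp
      have hgQ : gQ T c = gP T c := by
        funext l
        by_cases h1 : l = i
        · rw [h1, hgPi]
          unfold gQ
          rw [ci]
          simp
        by_cases h2 : l = j
        · rw [h2, hgPj]
          unfold gQ
          rw [cj]
          simp
        rw [hgPo l h1 h2]
        unfold gQ
        rw [co l h1 h2]
        simp
      have hgP1 : ∀ l, 1 ≤ gP T c l := by
        intro l
        by_cases h1 : l = i
        · rw [h1, hgPi]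
          exact hTi
        by_cases h2 : l = j
        · rw [h2, hgPj]
          exact hTj
        rw [hgPo l h1 h2]
      have hprodP : ∏ l, gP T c l * gP T c l = T i * T i * (T j * T j) := by
        rw [Fintype.prod_eq_mul i j hij (fun l hl => by rw [hgPo l hl.1 hl.2, one_mul]), hgPi,
          hgPj]
      have hfar := n3_far (M := w ^ 3) (T := T) (c := c) (T0 := T0) (A := (w : ℝ) ^ (1 - ηG))
        (KG := CG * (w : ℝ) ^ (-δG) * T i ^ 2 * T j ^ 2) (C1 := E1) (C2 := E2) (ε := δ₅ / 12)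
        (K := C₅ * W ^ (-δ₅)) (i := i) (j := j) (by positivity) (by linarith) hgQ hgP1 (by
          intro S hS
          have h := HG w (gP T c) i j S hw hi hj hij hgPo (by
            rw [hgPi, ← hWw, ← Real.log_le_log_iff (by positivity) (by positivity),
              Real.log_rpow hW0]
            linarith) (by
            rw [hgPi, ← hWw, ← Real.log_le_log_iff (by positivity) (by positivity),
              Real.log_rpow hW0]
            linarith) (by
            rw [hgPj, ← hWw, ← Real.log_le_log_iff (by positivity) (by positivity),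
              Real.log_rpow hW0]
            linarith) (by
            rw [hgPj, ← hWw, ← Real.log_le_log_iff (by positivity) (by positivity),
              Real.log_rpow hW0]
            linarith) hS
          rw [hgPi, hgPj] at h
          exact h)
        (fun pred S hS S' hS' => HE1 (w ^ 3) (gP T c) (gP T c) pred S hM1 hgP1 hgP1 hS S' hS')
        (fun B S' K hB hK hS' hU => HE2 (w ^ 3) B S' K hM1 hB hK hS' hU) (by
          intro U hU hUT hmin
          have u1 : ∀ l, 1 ≤ U l := fun l => (hU l).1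
          have uo : ∀ l, l ≠ i → l ≠ j → U l = 1 := by
            intro l h1 h2
            have h4 := (hU l).2
            rw [hgPo l h1 h2, one_mul] at h4
            exact le_antisymm h4 (u1 l)
          have ui0 : 0 < U i := zero_lt_one.trans_le (u1 i)
          have uj0 : 0 < U j := zero_lt_one.trans_le (u1 j)
          have lui : Real.log (U i) ≤ Real.log (T i) + Real.log (T i) := by
            have h := (hU i).2
            rw [hgPi] at h
            have h1 := Real.log_le_log ui0 h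
            rwa [Real.log_mul hi0.ne' hi0.ne'] at h1
          have luj : Real.log (U j) ≤ Real.log (T j) + Real.log (T j) := by
            have h := (hU j).2
            rw [hgPj] at h
            have h1 := Real.log_le_log uj0 h
            rwa [Real.log_mul hj0.ne' hj0.ne'] at h1
          have hA : 2 * (w : ℝ) ^ (1 - ηG) ≤ (w : ℝ) ^ (1 - η5) := by
            rw [← hWw]
            calc 2 * W ^ (1 - ηG) ≤ W ^ (ηG / 2) * W ^ (1 - ηG) :=
                  mul_le_mul_of_nonneg_right hsmall (by positivity)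
              _ = W ^ (1 - ηG / 2) := by
                  rw [← Real.rpow_add hW0]
                  congr 1
                  ring
              _ ≤ W ^ (1 - η5) := Real.rpow_le_rpow_of_exponent_le hW1 (by linarith)
          have h := H5 w U i j hw u1 hi hj hij uo (big U uo u1 hUT) (by
            rw [← hWw, ← Real.log_le_log_iff (by positivity) (by positivity), Real.log_mul ui0.ne'
              uj0.ne', Real.log_rpow hW0]
            linarith) (by
            rcases hmin with h | h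
            · exact Or.inl (h.trans hA)
            · exact Or.inr (h.trans hA))
          rw [← hWw] at h
          exact h)
      rw [hprodP, ← hWw] at hfar
      have hpw : (T i * T i * (T j * T j)) ^ (δ₅ / 12) ≤ W ^ (δ₅ / 4) := by
        have h1 : T i * T i * (T j * T j) ≤ W ^ ((3 : ℕ) : ℝ) := by
          rw [← Real.log_le_log_iff (by positivity) (by positivity), Real.log_mul
            (by positivity) (by positivity), Real.log_mul hi0.ne' hi0.ne',
            Real.log_mul hj0.ne' hj0.ne', Real.log_rpow hW0]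
          push_cast
          linarith
        calc (T i * T i * (T j * T j)) ^ (δ₅ / 12) ≤ (W ^ ((3 : ℕ) : ℝ)) ^ (δ₅ / 12) :=
              Real.rpow_le_rpow (by positivity) h1 (by positivity)
          _ = W ^ (δ₅ / 4) := by
              rw [← Real.rpow_mul hW0.le]
              congr 1
              push_cast
              ring
      have hfar2 : ((Far (w ^ 3) T c T0).card : ℝ) ≤ K2 * (T i * T i * (T j * T j)) := by
        have q0 : 0 ≤ T i * T i * (T j * T j) := by positivity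
        have q1 : CG * W ^ (-δG) * T i ^ 2 * T j ^ 2 ≤
            CG * W ^ (-δ) * (T i * T i * (T j * T j)) := by
          have h4 : W ^ (-δG) ≤ W ^ (-δ) := Real.rpow_le_rpow_of_exponent_le hW1 (by linarith)
          calc CG * W ^ (-δG) * T i ^ 2 * T j ^ 2 =
                CG * W ^ (-δG) * (T i * T i * (T j * T j)) := by ring
            _ ≤ CG * W ^ (-δ) * (T i * T i * (T j * T j)) :=
                mul_le_mul_of_nonneg_right (mul_le_mul_of_nonneg_left h4 (by linarith)) q0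
        have q2 : E1 * (T i * T i * (T j * T j)) ^ (δ₅ / 12) *
            (E2 * (T i * T i * (T j * T j)) ^ (δ₅ / 12) * (C₅ * W ^ (-δ₅)) *
              (T i * T i * (T j * T j))) ≤
            E1 * E2 * C₅ * W ^ (-δ) * (T i * T i * (T j * T j)) := by
          have h5 : (T i * T i * (T j * T j)) ^ (δ₅ / 12) *
              (T i * T i * (T j * T j)) ^ (δ₅ / 12) * W ^ (-δ₅) ≤ W ^ (-δ) := by
            calc (T i * T i * (T j * T j)) ^ (δ₅ / 12) *
                  (T i * T i * (T j * T j)) ^ (δ₅ / 12) * W ^ (-δ₅) ≤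
                  W ^ (δ₅ / 4) * W ^ (δ₅ / 4) * W ^ (-δ₅) :=
                  mul_le_mul_of_nonneg_right
                    (mul_le_mul hpw hpw (by positivity) (by positivity)) (by positivity)
              _ = W ^ (-(δ₅ / 2)) := by
                  rw [← Real.rpow_add hW0, ← Real.rpow_add hW0]
                  congr 1
                  ring
              _ ≤ W ^ (-δ) := Real.rpow_le_rpow_of_exponent_le hW1 (by linarith)
          calc E1 * (T i * T i * (T j * T j)) ^ (δ₅ / 12) *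
                (E2 * (T i * T i * (T j * T j)) ^ (δ₅ / 12) * (C₅ * W ^ (-δ₅)) *
                  (T i * T i * (T j * T j))) =
                E1 * E2 * C₅ * ((T i * T i * (T j * T j)) ^ (δ₅ / 12) *
                  (T i * T i * (T j * T j)) ^ (δ₅ / 12) * W ^ (-δ₅)) *
                  (T i * T i * (T j * T j)) := by ring
            _ ≤ E1 * E2 * C₅ * W ^ (-δ) * (T i * T i * (T j * T j)) :=
                mul_le_mul_of_nonneg_right (mul_le_mul_of_nonneg_left h5 (by positivity)) q0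
        have q3 : (CG + E1 * E2 * C₅) * W ^ (-δ) ≤ K2 := by
          rw [hK2]
          exact mul_le_mul_of_nonneg_right (by linarith) (by positivity)
        calc ((Far (w ^ 3) T c T0).card : ℝ) ≤ _ := hfar
          _ ≤ CG * W ^ (-δ) * (T i * T i * (T j * T j)) +
              E1 * E2 * C₅ * W ^ (-δ) * (T i * T i * (T j * T j)) := add_le_add q1 q2
          _ = (CG + E1 * E2 * C₅) * W ^ (-δ) * (T i * T i * (T j * T j)) := by ring
          _ ≤ K2 * (T i * T i * (T j * T j)) := mul_le_mul_of_nonneg_right q3 q0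
      have hR := HR' (w ^ 3) T c T0 K1 hM1 hT hc2 hT01 hK10 hsm
      rw [hprod2] at hR
      have hsq : Real.sqrt (K1 * T k ^ 2 * ((Far (w ^ 3) T c T0).card : ℝ)) ≤
          Real.sqrt (K1 * K2) * ∏ l, T l := by
        rw [hTprod]
        calc Real.sqrt (K1 * T k ^ 2 * ((Far (w ^ 3) T c T0).card : ℝ)) ≤
              Real.sqrt (K1 * T k ^ 2 * (K2 * (T i * T i * (T j * T j)))) :=
              Real.sqrt_le_sqrt (mul_le_mul_of_nonneg_left hfar2 (by positivity))
          _ = Real.sqrt (K1 * K2 * (T i * T j * T k) ^ 2) := by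
              congr 1
              ring
          _ = Real.sqrt (K1 * K2) * (T i * T j * T k) := by
              rw [Real.sqrt_mul (by positivity), Real.sqrt_sq (by positivity)]
      have hR2 : NN (w ^ 3) T ≤ C' * (∏ l, T l) ^ (m / 8) *
          (T0 ^ 18 * T k ^ 2 + Real.sqrt (K1 * K2) * ∏ l, T l) := by
        refine hR.trans (mul_le_mul_of_nonneg_left ?_ (by positivity))
        linarith
      exact n3_fin hW1 hP1 hP2 hC' hC11 hC21 hm0 hmν hmδ hK1 hK2 hF hR2

end Pool.Agent.Helper21.EN
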