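import Pool.Agent.Helper21.EN.Stmts

set_option autoImplicit false

/-!
# Project EN, piece N4

Replace the sorry. The statement is in EN/Stmts.lean. Paper: /team-store/EN_paper.md.

Proof (EN_paper.md section 6 (N4)); write n = the fourth index, T_i >= T_j >= T_k >= T_n, T_iT_jT_k <= w^(11/10), so T_j <= w^(.55), T_k <= w^(11/30), T_n <= w^(11/30). nu = min(sigma/4, 1/1000), T0 = w^(nu/36).
(a) T_i >= T_kT_n w^nu: c i = 2, c j = 1, 0 elsewhere. First term T0^18 T_jT_k^2T_n^2 = T0^18 prod T (T_kT_n/T_i) <= w^(-nu/2) prod T. K2: hn2 on {i,j} (sigma' = nu/36, eta' = 1/10): U_iU_j <= T_i^2T_j <= w^(2.2), U_j <= w^(.55). K1: hq3 with (i,j,k) := (j,k,n): U_j^2 <= w^3, (U_kU_n)^2 <= (T_kT_n)^4 <= w^(44/15) <= w^3.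
(b) T_i < T_kT_n w^nu and T_i >= T_n w^nu: then T_i <= T_k^2 w^nu and T_i T_k^2 <= w^(1.1) give T_i <= w^(.56). c i = 2, c j = c k = 1, 0 elsewhere. First term T0^18 T_jT_kT_n^2 = T0^18 prod T (T_n/T_i) <= w^(-nu/2) prod T. K2: hn3 on the three indices {i,j,k} sorted by U (6 orders): U_i <= w^(1.12), U_j <= w^(.55), U_k <= w^(11/30):
    the largest <= w^(1.12), the second <= w^(.55), the third <= w^(11/30) <= w^(1/2+mu): (first)^2 second <= w^(2.79) <= w^(3-eta') with eta' = 1/10. K1: hq3 on (j; k, n): U_j^2 <= w^3, (U_kU_n)^2 <= (T_kT_n^2)^2 <= w^(2.2).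
(c) T_i < T_n w^nu: all T <= w^(11/30+nu) <= w^(.37), T_i >= w^sigma. c i = c j = 2, c k = 1. First term T0^18 T_kT_n^2 = T0^18 prod T T_n/(T_iT_j) <= T0^18 prod T/T_i. K2: hn3 on {i,j,k} sorted: U_i, U_j <= w^(.74), U_k <= w^(.37): first^2 second <= w^(2.22), second <= w^(.74), third <= w^(.37).
    K1: hq2 on {k,n}, U_kU_n <= T_kT_n^2 <= w^(1.11) <= w^3 (larger one in the role of i). All T_l <= w^2 so (prod T)^eps <= w^(18 eps). hn3 gives mu first (exists mu), then constants for (sigma' = nu/36, eta' = 1/10).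
-/

namespace Pool.Agent.Helper21.EN

open Finset

theorem n4_prod {f : Fin 9 → ℝ} {i j k n : Fin 9} (hij : i ≠ j) (hik : i ≠ k) (hin : i ≠ n)
    (hjk : j ≠ k) (hjn : j ≠ n) (hkn : k ≠ n)
    (h : ∀ l, l ≠ i → l ≠ j → l ≠ k → l ≠ n → f l = 1) :
    ∏ l, f l = f i * f j * f k * f n := by
  have h1 : ∏ l ∈ ({i, j, k, n} : Finset (Fin 9)), f l = ∏ l, f l := by
    apply Finset.prod_subset (Finset.subset_univ _)
    intro l _ hl
    simp only [Finset.mem_insert, Finset.mem_singleton, not_or] at hl
    exact h l hl.1 hl.2.1 hl.2.2.1 hl.2.2.2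
  rw [← h1, Finset.prod_insert (by simp [hij, hik, hin]), Finset.prod_insert (by simp [hjk, hjn]),
    Finset.prod_insert (by simp [hkn]), Finset.prod_singleton]
  ring

/-- The sorted statement for three indices applied to unsorted sizes. -/
theorem n4_sort {σ η μ δ C : ℝ} {w : ℕ}
    (H : ∀ (T : Fin 9 → ℝ) (i j k : Fin 9), (∀ l, 1 ≤ T l) →
      i ≠ 0 → j ≠ 0 → k ≠ 0 → i ≠ j → i ≠ k → j ≠ k →
      (∀ l, l ≠ i → l ≠ j → l ≠ k → T l = 1) → T k ≤ T j → T j ≤ T i →
      (w : ℝ) ^ σ ≤ T i → T i ^ 2 * T j ≤ (w : ℝ) ^ (3 - η) → T j ≤ (w : ℝ) ^ (1 - η) →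
      T k ≤ (w : ℝ) ^ (1 / 2 + μ) → NN (w ^ 3) T ≤ C * (w : ℝ) ^ (-δ) * ∏ l, T l)
    {T : Fin 9 → ℝ} {i j k : Fin 9} {A B D : ℝ} (hT : ∀ l, 1 ≤ T l) (hi : i ≠ 0) (hj : j ≠ 0)
    (hk : k ≠ 0) (hij : i ≠ j) (hik : i ≠ k) (hjk : j ≠ k)
    (hs : ∀ l, l ≠ i → l ≠ j → l ≠ k → T l = 1) (hA : T i ≤ A) (hB : T j ≤ B) (hD : T k ≤ D)
    (hBA : B ≤ A) (hDB : D ≤ B) (hAB : A ^ 2 * B ≤ (w : ℝ) ^ (3 - η))
    (hBw : B ≤ (w : ℝ) ^ (1 - η)) (hDw : D ≤ (w : ℝ) ^ (1 / 2 + μ))
    (hbig : ∃ l, (w : ℝ) ^ σ ≤ T l) : NN (w ^ 3) T ≤ C * (w : ℝ) ^ (-δ) * ∏ l, T l := by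
  have hmax : ∀ a, T i ≤ T a → T j ≤ T a → T k ≤ T a → (w : ℝ) ^ σ ≤ T a := by
    intro a h1 h2 h3
    obtain ⟨l, hl⟩ := hbig
    by_cases e1 : l = i
    · subst e1
      exact hl.trans h1
    by_cases e2 : l = j
    · subst e2
      exact hl.trans h2
    by_cases e3 : l = k
    · subst e3
      exact hl.trans h3
    have h4 := hs l e1 e2 e3
    have h5 := hT a
    linarith
  have key : ∀ a b c : Fin 9, a ≠ 0 → b ≠ 0 → c ≠ 0 → a ≠ b → a ≠ c → b ≠ c →
      (∀ l, l ≠ a → l ≠ b → l ≠ c → T l = 1) → T c ≤ T b → T b ≤ T a → T i ≤ T a →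
      T j ≤ T a → T k ≤ T a → T a ≤ A → T b ≤ B → T c ≤ D →
      NN (w ^ 3) T ≤ C * (w : ℝ) ^ (-δ) * ∏ l, T l := by
    intro a b c ha hb hc hab hac hbc hs' h1 h2 h3 h4 h5 h6 h7 h8
    refine H T a b c hT ha hb hc hab hac hbc hs' h1 h2 (hmax a h3 h4 h5) ?_ (h7.trans hBw)
      (h8.trans hDw)
    refine le_trans ?_ hAB
    have h9 : 0 ≤ T a := zero_le_one.trans (hT a)
    have h10 : 0 ≤ T b := zero_le_one.trans (hT b)
    exact mul_le_mul (pow_le_pow_left₀ h9 h6 2) h7 h10 (by positivity)
  rcases le_total (T i) (T j) with h1 | h1 <;> rcases le_total (T i) (T k) with h2 | h2 <;>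
    rcases le_total (T j) (T k) with h3 | h3
  · exact key k j i hk hj hi hjk.symm hik.symm hij.symm (fun l x y z => hs l z y x) h1 h3 h2 h3
      le_rfl (by linarith) hB (by linarith)
  · exact key j k i hj hk hi hjk hij.symm hik.symm (fun l x y z => hs l z x y) h2 h3 h1 le_rfl
      h3 (by linarith) (by linarith) (by linarith)
  · exact key j i k hj hi hk hij.symm hjk hik (fun l x y z => hs l y x z) h2 h1 h1 le_rfl
      (by linarith) (by linarith) (by linarith) hD
  · exact key j i k hj hi hk hij.symm hjk hik (fun l x y z => hs l y x z) h2 h1 h1 le_rfl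
      h3 (by linarith) (by linarith) hD
  · exact key k i j hk hi hj hik.symm hjk.symm hij (fun l x y z => hs l y z x) h1 h2 h2 h3
      le_rfl (by linarith) (by linarith) (by linarith)
  · exact key k i j hk hi hj hik.symm hjk.symm hij (fun l x y z => hs l y z x) h1 h2 h2
      (by linarith) le_rfl (by linarith) (by linarith) (by linarith)
  · exact key i k j hi hk hj hik hij hjk.symm (fun l x y z => hs l x z y) h3 h2 le_rfl h1 h2 hA
      (by linarith) (by linarith)
  · exact key i j k hi hj hk hij hik hjk hs h3 h1 le_rfl h1 h2 hA hB hD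

/-- The final computation. -/
theorem n4_fin {W P N F C C1 C2 K1 K2 m ν δ : ℝ} (hW : 1 ≤ W) (hP1 : 1 ≤ P) (hP2 : P ≤ W ^ 2)
    (hC : 1 ≤ C) (hC1 : 1 ≤ C1) (hC2 : 1 ≤ C2) (hm : 0 < m) (hmν : m ≤ ν / 2) (hmδ : m ≤ δ / 4)
    (hK1 : K1 = C1 * (W ^ 3) ^ (δ / 6)) (hK2 : K2 = C2 * W ^ (-δ))
    (hF : F ≤ W ^ (-(ν / 2)) * P) (h : N ≤ C * P ^ (m / 4) * (F + Real.sqrt (K1 * K2) * P)) :
    N ≤ C * (1 + C1 * C2) * W ^ (-(m / 2)) * P := by
  have hW0 : 0 < W := zero_lt_one.trans_le hW
  have hP0 : 0 < P := zero_lt_one.trans_le hP1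
  have hC0 : 0 < C := zero_lt_one.trans_le hC
  have hCC : 1 ≤ C1 * C2 := one_le_mul_of_one_le_of_one_le hC1 hC2
  have h1 : P ^ (m / 4) ≤ W ^ (m / 2) := by
    calc P ^ (m / 4) ≤ (W ^ 2) ^ (m / 4) :=
          Real.rpow_le_rpow hP0.le hP2 (by positivity)
      _ = W ^ (m / 2) := by
          rw [← Real.rpow_natCast W 2, ← Real.rpow_mul hW0.le]
          congr 1
          push_cast
          ring
  have h2 : W ^ (-(ν / 2)) ≤ W ^ (-m) := Real.rpow_le_rpow_of_exponent_le hW (by linarith)
  have h3 : Real.sqrt (K1 * K2) ≤ C1 * C2 * W ^ (-m) := by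
    rw [Real.sqrt_le_iff]
    refine ⟨by positivity, ?_⟩
    have e1 : K1 * K2 = C1 * C2 * W ^ (-(δ / 2)) := by
      rw [hK1, hK2, ← Real.rpow_natCast W 3, ← Real.rpow_mul hW0.le]
      have e2 : W ^ (((3 : ℕ) : ℝ) * (δ / 6)) * W ^ (-δ) = W ^ (-(δ / 2)) := by
        rw [← Real.rpow_add hW0]
        congr 1
        push_cast
        ring
      rw [← e2]
      ring
    have e3 : (C1 * C2 * W ^ (-m)) ^ 2 = (C1 * C2) ^ 2 * W ^ (-(2 * m)) := by
      rw [mul_pow, ← Real.rpow_natCast (W ^ (-m)) 2, ← Real.rpow_mul hW0.le]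
      congr 2
      push_cast
      ring
    rw [e1, e3]
    have e4 : W ^ (-(δ / 2)) ≤ W ^ (-(2 * m)) :=
      Real.rpow_le_rpow_of_exponent_le hW (by linarith)
    refine mul_le_mul ?_ e4 (by positivity) (by positivity)
    nlinarith
  have h4 : F + Real.sqrt (K1 * K2) * P ≤ (1 + C1 * C2) * W ^ (-m) * P := by
    have e1 := mul_le_mul_of_nonneg_right h2 hP0.le
    have e2 := mul_le_mul_of_nonneg_right h3 hP0.le
    have e3 : (1 + C1 * C2) * W ^ (-m) * P = W ^ (-m) * P + C1 * C2 * W ^ (-m) * P := by ring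
    linarith
  have h5 : C * P ^ (m / 4) * (F + Real.sqrt (K1 * K2) * P) ≤
      C * W ^ (m / 2) * ((1 + C1 * C2) * W ^ (-m) * P) := by
    have e1 : C * P ^ (m / 4) ≤ C * W ^ (m / 2) := mul_le_mul_of_nonneg_left h1 hC0.le
    calc C * P ^ (m / 4) * (F + Real.sqrt (K1 * K2) * P) ≤
          C * P ^ (m / 4) * ((1 + C1 * C2) * W ^ (-m) * P) :=
          mul_le_mul_of_nonneg_left h4 (by positivity)
      _ ≤ C * W ^ (m / 2) * ((1 + C1 * C2) * W ^ (-m) * P) :=
          mul_le_mul_of_nonneg_right e1 (by positivity)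
  have h6 : C * W ^ (m / 2) * ((1 + C1 * C2) * W ^ (-m) * P) =
      C * (1 + C1 * C2) * W ^ (-(m / 2)) * P := by
    have e1 : W ^ (m / 2) * W ^ (-m) = W ^ (-(m / 2)) := by
      rw [← Real.rpow_add hW0]
      congr 1
      ring
    rw [← e1]
    ring
  linarith

theorem n4_thm (hn2 : N2Stmt) (hn3 : N3Stmt) (hq2 : Q2Stmt) (hq3 : Q3Stmt) (hrec : RECStmt) : N4Stmt := by
  intro σ hσ
  obtain ⟨μ, hμ, hn3⟩ := hn3
  obtain ⟨ν, hν⟩ : ∃ ν : ℝ, ν = min (σ / 4) (1 / 1000) := ⟨_, rfl⟩
  have hν0 : 0 < ν := by
    rw [hν]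
    exact lt_min (by positivity) (by norm_num)
  have hν1 : ν ≤ σ / 4 := by
    rw [hν]
    exact min_le_left _ _
  have hν2 : ν ≤ 1 / 1000 := by
    rw [hν]
    exact min_le_right _ _
  obtain ⟨δ₂, C₂, hδ₂, hC₂, H2⟩ := hn2 (ν / 36) (1 / 10) (by positivity) (by norm_num)
  obtain ⟨δ₃, C₃, hδ₃, hC₃, H3⟩ := hn3 (ν / 36) (1 / 10) (by positivity) (by norm_num)
  obtain ⟨δ, hδ⟩ : ∃ δ : ℝ, δ = min δ₂ δ₃ := ⟨_, rfl⟩
  have hδ0 : 0 < δ := by
    rw [hδ]
    exact lt_min hδ₂ hδ₃
  have hδ2 : δ ≤ δ₂ := by
    rw [hδ]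
    exact min_le_left _ _
  have hδ3 : δ ≤ δ₃ := by
    rw [hδ]
    exact min_le_right _ _
  obtain ⟨C1, hC1, H1⟩ := hq3 (δ / 6) (by positivity)
  obtain ⟨m, hm⟩ : ∃ m : ℝ, m = min (ν / 2) (δ / 4) := ⟨_, rfl⟩
  have hm0 : 0 < m := by
    rw [hm]
    exact lt_min (by positivity) (by positivity)
  have hmν : m ≤ ν / 2 := by
    rw [hm]
    exact min_le_left _ _
  have hmδ : m ≤ δ / 4 := by
    rw [hm]
    exact min_le_right _ _
  obtain ⟨C, hC, HR⟩ := hrec (m / 4) (by positivity)
  obtain ⟨C2, hC2⟩ : ∃ C2 : ℝ, C2 = C₂ + C₃ := ⟨_, rfl⟩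
  have hC21 : 1 ≤ C2 := by linarith
  have hCC : 1 ≤ C1 * C2 := one_le_mul_of_one_le_of_one_le hC1 hC21
  refine ⟨m / 2, C * (1 + C1 * C2), by positivity, ?_, ?_⟩
  · nlinarith
  intro w T i j k n hw hT hi hj hk hn hij hik hin hjk hjn hkn hs hnk hkj hji hσT hprod
  have hwpos : 0 < w := Nat.pos_of_ne_zero hw.ne_zero
  obtain ⟨W, hWw⟩ : ∃ W : ℝ, W = (w : ℝ) := ⟨_, rfl⟩
  have hW1 : 1 ≤ W := by
    rw [hWw]
    exact_mod_cast hwpos
  have hW0 : 0 < W := zero_lt_one.trans_le hW1
  have hL0 : 0 ≤ Real.log W := Real.log_nonneg hW1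
  rw [← hWw] at hσT hprod ⊢
  have hTi := hT i
  have hTj := hT j
  have hTk := hT k
  have hTn := hT n
  have hi0 : 0 < T i := zero_lt_one.trans_le hTi
  have hj0 : 0 < T j := zero_lt_one.trans_le hTj
  have hk0 : 0 < T k := zero_lt_one.trans_le hTk
  have hn0 : 0 < T n := zero_lt_one.trans_le hTn
  -- logarithms
  have lj0 : 0 ≤ Real.log (T j) := Real.log_nonneg hTj
  have lk0 : 0 ≤ Real.log (T k) := Real.log_nonneg hTk
  have ln0 : 0 ≤ Real.log (T n) := Real.log_nonneg hTn
  have lji : Real.log (T j) ≤ Real.log (T i) := Real.log_le_log hj0 hji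
  have lkj : Real.log (T k) ≤ Real.log (T j) := Real.log_le_log hk0 hkj
  have lnk : Real.log (T n) ≤ Real.log (T k) := Real.log_le_log hn0 hnk
  have lσ : σ * Real.log W ≤ Real.log (T i) := by
    have h := Real.log_le_log (by positivity) hσT
    rwa [Real.log_rpow hW0] at h
  have lprod : Real.log (T i) + Real.log (T j) + Real.log (T k) ≤ 11 / 10 * Real.log W := by
    have h := Real.log_le_log (by positivity) hprod
    rwa [Real.log_rpow hW0, Real.log_mul (by positivity) hk0.ne', Real.log_mul hi0.ne' hj0.ne']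
      at h
  have hνL : 0 ≤ ν * Real.log W := by positivity
  have hνL2 : ν * Real.log W ≤ 1 / 1000 * Real.log W := mul_le_mul_of_nonneg_right hν2 hL0
  have hνσ : ν * Real.log W ≤ σ / 4 * Real.log W := mul_le_mul_of_nonneg_right hν1 hL0
  obtain ⟨T0, hT0⟩ : ∃ T0 : ℝ, T0 = W ^ (ν / 36) := ⟨_, rfl⟩
  have hT01 : 1 ≤ T0 := by
    rw [hT0]
    exact Real.one_le_rpow hW1 (by positivity)
  have hT00 : 0 < T0 := zero_lt_one.trans_le hT01
  have lT0 : Real.log T0 = ν / 36 * Real.log W := by rw [hT0, Real.log_rpow hW0]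
  have hTprod : ∏ l, T l = T i * T j * T k * T n := n4_prod hij hik hin hjk hjn hkn hs
  have hP1 : 1 ≤ ∏ l, T l := by
    rw [hTprod]
    exact one_le_mul_of_one_le_of_one_le (one_le_mul_of_one_le_of_one_le
      (one_le_mul_of_one_le_of_one_le hTi hTj) hTk) hTn
  have hP2 : ∏ l, T l ≤ W ^ 2 := by
    rw [hTprod, ← Real.log_le_log_iff (by positivity) (by positivity), Real.log_mul
      (by positivity) hn0.ne', Real.log_mul (by positivity) hk0.ne', Real.log_mul hi0.ne' hj0.ne',
      Real.log_pow]
    push_cast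
    linarith
  obtain ⟨K1, hK1⟩ : ∃ K1 : ℝ, K1 = C1 * (W ^ 3) ^ (δ / 6) := ⟨_, rfl⟩
  obtain ⟨K2, hK2⟩ : ∃ K2 : ℝ, K2 = C2 * W ^ (-δ) := ⟨_, rfl⟩
  have hK10 : 0 ≤ K1 := by
    rw [hK1]
    positivity
  have hK20 : 0 ≤ K2 := by
    rw [hK2]
    positivity
  -- the recursion
  have main : ∀ a b : ℕ, 1 ≤ a → a ≤ 2 → b ≤ 2 →
      T0 ^ 18 * (T j ^ (2 - a) * T k ^ (2 - b) * T n ^ 2) ≤
        W ^ (-(ν / 2)) * (T i * T j * T k * T n) →
      (∀ U : Fin 9 → ℝ, (∀ l, 1 ≤ U l) → U i ≤ T i ^ 2 → U j ≤ T j ^ a → U k ≤ T k ^ b →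
        (∀ l, l ≠ i → l ≠ j → l ≠ k → U l = 1) → (∃ l, T0 ≤ U l) →
        NN (w ^ 3) U ≤ K2 * ∏ l, U l) →
      NN (w ^ 3) T ≤ C * (1 + C1 * C2) * W ^ (-(m / 2)) * ∏ l, T l := by
    intro a b ha1 ha2 hb2 hF hU2
    obtain ⟨c, hc⟩ : ∃ c : Fin 9 → ℕ, c = fun l => if l = i then 2 else if l = j then a else
      if l = k then b else 0 := ⟨_, rfl⟩
    have ci : c i = 2 := by rw [hc]; simp
    have cj : c j = a := by rw [hc]; simp [hij.symm]
    have ck : c k = b := by rw [hc]; simp [hik.symm, hjk.symm]
    have co : ∀ l, l ≠ i → l ≠ j → l ≠ k → c l = 0 := by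
      intro l h1 h2 h3
      rw [hc]
      simp [h1, h2, h3]
    have cn : c n = 0 := co n hin.symm hjn.symm hkn.symm
    have hprod2 : ∏ l, T l ^ (2 - c l) = T j ^ (2 - a) * T k ^ (2 - b) * T n ^ 2 := by
      rw [n4_prod (f := fun l => T l ^ (2 - c l)) hij hik hin hjk hjn hkn (by
        intro l h1 h2 h3 h4
        rw [hs l h1 h2 h3 h4, one_pow]), ci, cj, ck, cn]
      simp
    have hR := HR (w ^ 3) T c T0 K1 K2 (Nat.one_le_pow _ _ hwpos) hT (by
      intro l
      by_cases h1 : l = i
      · rw [h1, ci]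
      by_cases h2 : l = j
      · rw [h2, cj]
        exact ha2
      by_cases h3 : l = k
      · rw [h3, ck]
        exact hb2
      rw [co l h1 h2 h3]
      norm_num) hT01 hK10 hK20 (by
      intro U hU
      have u1 : ∀ l, 1 ≤ U l := fun l => (hU l).1
      have ui : U i = 1 := by
        have h1 := (hU i).2
        rw [ci, Nat.sub_self, pow_zero] at h1
        exact le_antisymm h1 (u1 i)
      have uo : ∀ l, l ≠ j → l ≠ k → l ≠ n → U l = 1 := by
        intro l h2 h3 h4
        by_cases h1 : l = i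
        · rw [h1, ui]
        have h5 := (hU l).2
        rw [hs l h1 h2 h3 h4, one_pow] at h5
        exact le_antisymm h5 (u1 l)
      have uj0 : 0 < U j := zero_lt_one.trans_le (u1 j)
      have uk0 : 0 < U k := zero_lt_one.trans_le (u1 k)
      have un0 : 0 < U n := zero_lt_one.trans_le (u1 n)
      have uj : Real.log (U j) ≤ Real.log (T j) := by
        have h1 := (hU j).2
        rw [cj] at h1
        have h2 : T j ^ (2 - a) ≤ T j ^ 1 := pow_le_pow_right₀ hTj (by omega)
        rw [pow_one] at h2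
        exact Real.log_le_log uj0 (h1.trans h2)
      have uk : Real.log (U k) ≤ 2 * Real.log (T k) := by
        have h1 := (hU k).2
        have h2 : T k ^ (2 - c k) ≤ T k ^ 2 := pow_le_pow_right₀ hTk (by omega)
        have h3 := Real.log_le_log uk0 (h1.trans h2)
        rw [Real.log_pow] at h3
        exact_mod_cast h3
      have un : Real.log (U n) ≤ 2 * Real.log (T n) := by
        have h1 := (hU n).2
        have h2 : T n ^ (2 - c n) ≤ T n ^ 2 := pow_le_pow_right₀ hTn (by omega)
        have h3 := Real.log_le_log un0 (h1.trans h2)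
        rw [Real.log_pow] at h3
        exact_mod_cast h3
      have hq := H1 (w ^ 3) U j k n (Nat.one_le_pow _ _ hwpos) u1 hj hk hn hjk hjn hkn uo (by
        push_cast
        rw [← hWw, ← Real.log_le_log_iff (by positivity) (by positivity), Real.log_pow,
          Real.log_pow]
        push_cast
        linarith) (by
        push_cast
        rw [← hWw, ← Real.log_le_log_iff (by positivity) (by positivity), Real.log_pow,
          Real.log_pow, Real.log_mul uk0.ne' un0.ne']
        push_cast
        linarith)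
      push_cast at hq
      rw [← hWw] at hq
      rw [hK1]
      exact hq) (by
      intro U hU hUT
      refine hU2 U (fun l => (hU l).1) ?_ ?_ ?_ ?_ hUT
      · have h1 := (hU i).2
        rwa [ci] at h1
      · have h1 := (hU j).2
        rwa [cj] at h1
      · have h1 := (hU k).2
        rwa [ck] at h1
      · intro l h1 h2 h3
        have h4 := (hU l).2
        rw [co l h1 h2 h3, pow_zero] at h4
        exact le_antisymm h4 (hU l).1)
    rw [hprod2] at hR
    refine n4_fin hW1 hP1 hP2 hC hC1 hC21 hm0 hmν hmδ hK1 hK2 ?_ hR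
    rw [hTprod]
    exact hF
  -- savings
  have hW2 : C₂ * W ^ (-δ₂) ≤ K2 := by
    rw [hK2]
    have h1 : W ^ (-δ₂) ≤ W ^ (-δ) := Real.rpow_le_rpow_of_exponent_le hW1 (by linarith)
    exact mul_le_mul (by linarith) h1 (by positivity) (by linarith)
  have hW3 : C₃ * W ^ (-δ₃) ≤ K2 := by
    rw [hK2]
    have h1 : W ^ (-δ₃) ≤ W ^ (-δ) := Real.rpow_le_rpow_of_exponent_le hW1 (by linarith)
    exact mul_le_mul (by linarith) h1 (by positivity) (by linarith)
  have hUpos : ∀ U : Fin 9 → ℝ, (∀ l, 1 ≤ U l) → 0 ≤ ∏ l, U l := fun U h =>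
    Finset.prod_nonneg fun l _ => zero_le_one.trans (h l)
  have H3' := fun (T : Fin 9 → ℝ) (i j k : Fin 9) => H3 w T i j k hw
  by_cases hca : T k * T n * W ^ ν ≤ T i
  · -- case (a)
    have lca : Real.log (T k) + Real.log (T n) + ν * Real.log W ≤ Real.log (T i) := by
      have h := Real.log_le_log (by positivity) hca
      rwa [Real.log_mul (by positivity) (by positivity), Real.log_mul hk0.ne' hn0.ne',
        Real.log_rpow hW0] at h
    refine main 1 0 le_rfl (by norm_num) (by norm_num) ?_ ?_
    · norm_num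
      rw [← Real.log_le_log_iff (by positivity) (by positivity), Real.log_mul (by positivity)
        (by positivity), Real.log_mul (by positivity) (by positivity), Real.log_mul
        (by positivity) (by positivity), Real.log_mul (by positivity) (by positivity),
        Real.log_mul (by positivity) (by positivity), Real.log_mul (by positivity)
        (by positivity), Real.log_mul (by positivity) (by positivity), Real.log_pow,
        Real.log_pow, Real.log_pow, Real.log_rpow hW0, lT0]
      push_cast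
      linarith
    · intro U u1 ui uj uk uo hbig
      have ui0 : 0 < U i := zero_lt_one.trans_le (u1 i)
      have uj0 : 0 < U j := zero_lt_one.trans_le (u1 j)
      have uk1 : U k = 1 := by
        rw [pow_zero] at uk
        exact le_antisymm uk (u1 k)
      have uo' : ∀ l, l ≠ i → l ≠ j → U l = 1 := by
        intro l h1 h2
        by_cases h3 : l = k
        · rw [h3, uk1]
        · exact uo l h1 h2 h3
      have lui : Real.log (U i) ≤ 2 * Real.log (T i) := by
        have h := Real.log_le_log ui0 ui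
        rw [Real.log_pow] at h
        exact_mod_cast h
      have luj : Real.log (U j) ≤ Real.log (T j) := by
        rw [pow_one] at uj
        exact Real.log_le_log uj0 uj
      have h := H2 w U i j hw u1 hi hj hij uo' (by
        obtain ⟨l, hl⟩ := hbig
        rw [hT0, hWw] at hl
        by_cases h1 : l = i
        · rw [h1] at hl
          exact Or.inl hl
        by_cases h2 : l = j
        · rw [h2] at hl
          exact Or.inr hl
        rw [uo' l h1 h2] at hl
        exact Or.inl (hl.trans (u1 i))) (by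
        rw [← hWw, ← Real.log_le_log_iff (by positivity) (by positivity), Real.log_mul ui0.ne'
          uj0.ne', Real.log_rpow hW0]
        linarith) (Or.inr (by
        rw [← hWw, ← Real.log_le_log_iff (by positivity) (by positivity), Real.log_rpow hW0]
        linarith))
      rw [← hWw] at h
      exact h.trans (mul_le_mul_of_nonneg_right hW2 (hUpos U u1))
  · rw [not_le] at hca
    have lca : Real.log (T i) ≤ Real.log (T k) + Real.log (T n) + ν * Real.log W := by
      have h := Real.log_le_log hi0 hca.le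
      rwa [Real.log_mul (by positivity) (by positivity), Real.log_mul hk0.ne' hn0.ne',
        Real.log_rpow hW0] at h
    by_cases hcb : T n * W ^ ν ≤ T i
    · -- case (b)
      have lcb : Real.log (T n) + ν * Real.log W ≤ Real.log (T i) := by
        have h := Real.log_le_log (by positivity) hcb
        rwa [Real.log_mul (by positivity) (by positivity), Real.log_rpow hW0] at h
      refine main 1 1 le_rfl (by norm_num) (by norm_num) ?_ ?_
      · norm_num
        rw [← Real.log_le_log_iff (by positivity) (by positivity), Real.log_mul (by positivity)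
          (by positivity), Real.log_mul (by positivity) (by positivity), Real.log_mul
          (by positivity) (by positivity), Real.log_mul (by positivity) (by positivity),
          Real.log_mul (by positivity) (by positivity), Real.log_mul (by positivity)
          (by positivity), Real.log_mul (by positivity) (by positivity), Real.log_pow,
          Real.log_pow, Real.log_rpow hW0, lT0]
        push_cast
        linarith
      · intro U u1 ui uj uk uo hbig
        have h := n4_sort (A := W ^ (28 / 25 : ℝ)) (B := W ^ (11 / 20 : ℝ))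
          (D := W ^ (11 / 30 : ℝ)) H3' u1 hi hj hk hij hik hjk uo
          (by
            refine ui.trans ?_
            rw [← Real.log_le_log_iff (by positivity) (by positivity), Real.log_pow,
              Real.log_rpow hW0]
            push_cast
            linarith)
          (by
            refine uj.trans ?_
            rw [← Real.log_le_log_iff (by positivity) (by positivity), Real.log_pow,
              Real.log_rpow hW0]
            push_cast
            linarith)
          (by
            refine uk.trans ?_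
            rw [← Real.log_le_log_iff (by positivity) (by positivity), Real.log_pow,
              Real.log_rpow hW0]
            push_cast
            linarith)
          (Real.rpow_le_rpow_of_exponent_le hW1 (by norm_num))
          (Real.rpow_le_rpow_of_exponent_le hW1 (by norm_num))
          (by
            rw [← hWw, ← Real.log_le_log_iff (by positivity) (by positivity), Real.log_mul
              (by positivity) (by positivity), Real.log_pow, Real.log_rpow hW0,
              Real.log_rpow hW0, Real.log_rpow hW0]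
            push_cast
            linarith)
          (by
            rw [← hWw]
            exact Real.rpow_le_rpow_of_exponent_le hW1 (by norm_num))
          (by
            rw [← hWw]
            exact Real.rpow_le_rpow_of_exponent_le hW1 (by linarith))
          (by
            rw [← hWw, ← hT0]
            exact hbig)
        rw [← hWw] at h
        exact h.trans (mul_le_mul_of_nonneg_right hW3 (hUpos U u1))
    · -- case (c)
      rw [not_le] at hcb
      have lcb : Real.log (T i) ≤ Real.log (T n) + ν * Real.log W := by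
        have h := Real.log_le_log hi0 hcb.le
        rwa [Real.log_mul (by positivity) (by positivity), Real.log_rpow hW0] at h
      refine main 2 1 (by norm_num) le_rfl (by norm_num) ?_ ?_
      · norm_num
        rw [← Real.log_le_log_iff (by positivity) (by positivity), Real.log_mul (by positivity)
          (by positivity), Real.log_mul (by positivity) (by positivity), Real.log_mul
          (by positivity) (by positivity), Real.log_mul (by positivity) (by positivity),
          Real.log_mul (by positivity) (by positivity), Real.log_mul (by positivity)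
          (by positivity), Real.log_pow,
          Real.log_pow, Real.log_rpow hW0, lT0]
        push_cast
        linarith
      · intro U u1 ui uj uk uo hbig
        have h := n4_sort (A := W ^ (37 / 50 : ℝ)) (B := W ^ (37 / 50 : ℝ))
          (D := W ^ (37 / 100 : ℝ)) H3' u1 hi hj hk hij hik hjk uo
          (by
            refine ui.trans ?_
            rw [← Real.log_le_log_iff (by positivity) (by positivity), Real.log_pow,
              Real.log_rpow hW0]
            push_cast
            linarith)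
          (by
            refine uj.trans ?_
            rw [← Real.log_le_log_iff (by positivity) (by positivity), Real.log_pow,
              Real.log_rpow hW0]
            push_cast
            linarith)
          (by
            refine uk.trans ?_
            rw [← Real.log_le_log_iff (by positivity) (by positivity), Real.log_pow,
              Real.log_rpow hW0]
            push_cast
            linarith)
          le_rfl
          (Real.rpow_le_rpow_of_exponent_le hW1 (by norm_num))
          (by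
            rw [← hWw, ← Real.log_le_log_iff (by positivity) (by positivity), Real.log_mul
              (by positivity) (by positivity), Real.log_pow, Real.log_rpow hW0,
              Real.log_rpow hW0]
            push_cast
            linarith)
          (by
            rw [← hWw]
            exact Real.rpow_le_rpow_of_exponent_le hW1 (by norm_num))
          (by
            rw [← hWw]
            exact Real.rpow_le_rpow_of_exponent_le hW1 (by linarith))
          (by
            rw [← hWw, ← hT0]
            exact hbig)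
        rw [← hWw] at h
        exact h.trans (mul_le_mul_of_nonneg_right hW3 (hUpos U u1))

end Pool.Agent.Helper21.EN
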