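import Pool.Agent.Helper21.EN.Stmts

set_option autoImplicit false

/-!
# Project EN, piece P2

The statement is in EN/Stmts.lean. Paper: /team-store/EN_paper.md.

Proof. Count triples (u, v1, v2) with (u,v1), (u,v2) in E: at least |E|^2/V >= V^3/Lambda^2 (Cauchy-Schwarz over u <= V). Call a triple bad if the reduced form (n0,l0) of
(n,l) = (Y(u,v1) Y'(u,v2), Y'(u,v1) Y(u,v2)) has max(n0,l0) >= H0 := V Lambda^3. Claim: for fixed (v1,v2) at most V/(2 Lambda^2) values of u are bad.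
Then at least V^3/(2 Lambda^2) triples are good, so some (u, v1) in E (at most V^2 pairs) has at least V/(2 Lambda^2) good v2: J = these v2. For a good triple
g = gcd(n,l) = n/n0 = l/l0 >= (V/Lambda^2)^2/(V Lambda^3) = V/Lambda^7 (n, l >= (V/Lambda^2)^2 and n0 or l0 < H0; fine).
Claim: all quantities are coprime to w; from the two relations (n/l)^f = (v1/v2)^e modulo w^3, ie n^f = c l^f with c = c(v1,v2) (a natural number coprime to w). n, l <= V^2 <= w^2.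
Reduced pairs (n0,l0) with 2^k H0 <= max < 2^(k+1) H0 (k = 0,1,.. while 2^k H0 <= V^2): at most kappa (1 + 4 (2^k H0)^2/w^3) by Kap.dir (P = Q = 2^(k+1) H0 <= 2 w^2 <= w^12).
Each reduced pair has at most V^2/(2^k H0) multiples (n,l) with max <= V^2. Each (n,l) comes from at most 2 kappa^3 values u: (Y(u,v1), Y'(u,v2)) is a factorisation of n, (Y'(u,v1), Y(u,v2)) one of l (kappa^2 choices, Kap.div),
and then (Y(u,v1), Y'(u,v1)) and v1 leave at most kappa (1 + V^2/w^3) <= 2 kappa values of u (v1^e = c' u^e modulo w^3, gcd(u,v1) = 1: Kap.dir applied to pairs (v1,u), or Kap.roots modulo w^3 since u < w^3: then even kappa).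
Total of bad u: 2 kappa^4 sum_k (V^2/(2^k H0) + 4 V^2 2^k H0/w^3) <= 2 kappa^4 (2 V^2/H0 + 8 V^4/w^3) <= 2 kappa^4 (2 V/Lambda^3 + 8 V/Lambda^3) = 20 kappa^4 V/Lambda^3 <= V/(5 Lambda^2) using V Lambda <= w (V^4/w^3 = V (V/w)^3) and 100 kappa^4 <= Lambda.
(Alternative to the dyadic sum: sum over k via geometric series or bound the number of k by anything convenient; constants are generous.)
-/

namespace Pool.Agent.Helper21.EN

open Finset

theorem p2_fib {α β : Type*} [DecidableEq β] (s : Finset α) (F : α → β) (t : Finset β) (C : ℝ)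
    (hF : ∀ a ∈ s, F a ∈ t) (hC : ∀ b ∈ t, ((s.filter (fun a => F a = b)).card : ℝ) ≤ C) :
    (s.card : ℝ) ≤ C * t.card := by
  rw [Finset.card_eq_sum_card_fiberwise hF]
  push_cast
  refine (Finset.sum_le_sum hC).trans ?_
  rw [Finset.sum_const, nsmul_eq_mul, mul_comm]

/-- roots modulo `w ^ 3` -/
theorem p2_root {e w : ℕ} {κ : ℝ} (hκ : Kap w κ) (he1 : 1 ≤ e) (he8 : e ≤ 8) (hw : 2 ≤ w)
    (S : Finset ℕ) (y d : ℕ) (hy : Nat.Coprime y w)
    (hS : ∀ u ∈ S, u < w ^ 3 ∧ Nat.Coprime u w ∧ u ^ e * y ≡ d [MOD w ^ 3]) :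
    (S.card : ℝ) ≤ κ := by
  rcases S.eq_empty_or_nonempty with rfl | ⟨u₀, hu₀⟩
  · simpa using le_trans zero_le_one hκ.one
  obtain ⟨-, h2, h3⟩ := hS u₀ hu₀
  have hw3 : 0 < w ^ 3 := by positivity
  refine le_trans ?_ (hκ.roots e he1 he8 (w ^ 3) hw3 le_rfl (u₀ ^ e)
    (Nat.Coprime.pow e 3 h2))
  have hsub : S ⊆ (Finset.range (w ^ 3)).filter (fun x => x ^ e ≡ u₀ ^ e [MOD w ^ 3]) := by
    intro u hu
    obtain ⟨h4, h5, h6⟩ := hS u hu
    rw [mem_filter, mem_range]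
    refine ⟨h4, ?_⟩
    have h7 : y * u ^ e ≡ y * u₀ ^ e [MOD w ^ 3] := by
      rw [mul_comm y, mul_comm y]
      exact h6.trans h3.symm
    exact Nat.ModEq.cancel_left_of_coprime (Nat.Coprime.pow_right 3 hy).symm h7
  exact_mod_cast card_le_card hsub

/-- the fibres -/
theorem p2_fiber {e f w : ℕ} {κ : ℝ} (hκ : Kap w κ) (he1 : 1 ≤ e) (he8 : e ≤ 8) (hw : 2 ≤ w)
    (S : Finset ℕ) (v n l : ℕ) (y y' z z' : ℕ → ℕ) (hn : 0 < n) (hl : 0 < l)
    (hnw : n ≤ w ^ 40) (hlw : l ≤ w ^ 40)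
    (hS : ∀ u ∈ S, u < w ^ 3 ∧ Nat.Coprime u w ∧ Nat.Coprime (y u) w ∧
      v ^ e * (y' u) ^ f ≡ u ^ e * (y u) ^ f [MOD w ^ 3] ∧ y u * z' u = n ∧ y' u * z u = l) :
    (S.card : ℝ) ≤ κ ^ 3 := by
  have hκ0 : 0 ≤ κ := le_trans zero_le_one hκ.one
  have h1 := p2_fib S (fun u => (y u, y' u)) (n.divisors ×ˢ l.divisors) κ (by
    intro u hu
    obtain ⟨-, -, -, -, h5, h6⟩ := hS u hu
    rw [mem_product, Nat.mem_divisors, Nat.mem_divisors]
    exact ⟨⟨⟨_, h5.symm⟩, hn.ne'⟩, ⟨⟨_, h6.symm⟩, hl.ne'⟩⟩) (by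
    rintro ⟨a, b⟩ -
    set S' := S.filter (fun u => (y u, y' u) = (a, b)) with hS'
    rcases S'.eq_empty_or_nonempty with h | ⟨u₀, hu₀⟩
    · rw [h]
      simpa using hκ0
    · have hmem : ∀ u ∈ S', u ∈ S ∧ y u = a ∧ y' u = b := by
        intro u hu
        rw [hS', mem_filter, Prod.mk.injEq] at hu
        exact ⟨hu.1, hu.2.1, hu.2.2⟩
      have ha : Nat.Coprime a w := by
        obtain ⟨h1, h2, h3⟩ := hmem u₀ hu₀
        rw [← h2]
        exact (hS u₀ h1).2.2.1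
      refine p2_root hκ he1 he8 hw S' (a ^ f) (v ^ e * b ^ f) (Nat.Coprime.pow_left f ha) ?_
      intro u hu
      obtain ⟨h1, h2, h3⟩ := hmem u hu
      obtain ⟨h4, h5, -, h6, -, -⟩ := hS u h1
      rw [h2, h3] at h6
      exact ⟨h4, h5, h6.symm⟩)
  refine h1.trans ?_
  rw [card_product]
  push_cast
  have h2 := hκ.div n hn hnw
  have h3 := hκ.div l hl hlw
  calc κ * ((n.divisors.card : ℝ) * l.divisors.card) ≤ κ * (κ * κ) := by gcongr
    _ = κ ^ 3 := by ring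

theorem p2_sumsq (G : ℕ) : ∑ g ∈ Finset.Icc 1 G, (1 / (g : ℝ) ^ 2) ≤ 2 := by
  have key : ∀ G : ℕ, 1 ≤ G → ∑ g ∈ Finset.Icc 1 G, (1 / (g : ℝ) ^ 2) ≤ 2 - 1 / (G : ℝ) := by
    intro G hG
    induction G, hG using Nat.le_induction with
    | base => norm_num
    | succ G hG ih =>
      rw [Finset.sum_Icc_succ_top (by omega)]
      have hG' : (1 : ℝ) ≤ G := by exact_mod_cast hG
      have h1 : 1 / ((G + 1 : ℕ) : ℝ) ^ 2 ≤ 1 / (G : ℝ) - 1 / ((G + 1 : ℕ) : ℝ) := by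
        push_cast
        rw [div_sub_div _ _ (by positivity) (by positivity), div_le_div_iff₀ (by positivity)
          (by positivity)]
        nlinarith
      linarith
  rcases Nat.eq_zero_or_pos G with rfl | hG
  · simp
  · have h1 := key G hG
    have h2 : (0 : ℝ) ≤ 1 / (G : ℝ) := by positivity
    linarith

/-- an inverse -/
theorem p2_inv {w v₁ v₂ : ℕ} (hw : 2 ≤ w) (h1 : Nat.Coprime v₁ w) (h2 : Nat.Coprime v₂ w)
    (e : ℕ) : ∃ c, Nat.Coprime c w ∧ v₂ ^ e * c ≡ v₁ ^ e [MOD w ^ 3] := by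
  have hw3 : 1 < w ^ 3 := Nat.one_lt_pow (by norm_num) (by omega)
  obtain ⟨m, -, hm⟩ := Nat.exists_mul_mod_eq_one_of_coprime
    (Nat.Coprime.pow e 3 h2 : Nat.Coprime (v₂ ^ e) (w ^ 3)) hw3
  have hm' : v₂ ^ e * m ≡ 1 [MOD w ^ 3] := by
    rw [Nat.ModEq, hm, Nat.mod_eq_of_lt hw3]
  have hmw : Nat.Coprime m w := by
    have h3 : Nat.Coprime (v₂ ^ e * m) (w ^ 3) := by
      have := hm'.gcd_eq
      rw [Nat.gcd_one_left] at this
      exact this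
    exact (Nat.Coprime.coprime_mul_left h3).of_dvd_right (dvd_pow_self w (by norm_num))
  refine ⟨m * v₁ ^ e, Nat.Coprime.mul_left hmw (Nat.Coprime.pow_left e h1), ?_⟩
  have := hm'.mul_right (v₁ ^ e)
  rw [one_mul, mul_assoc] at this
  exact this

/-- few bad `u` -/
theorem p2_bad {e f w : ℕ} {κ V H : ℝ} (hκ : Kap w κ) (he1 : 1 ≤ e) (he8 : e ≤ 8)
    (hf1 : 1 ≤ f) (hf8 : f ≤ 8) (hw : 2 ≤ w) (hV : 1 ≤ V) (hVw : V ≤ w) (hH : 1 ≤ H)
    (S : Finset ℕ) (v₁ v₂ : ℕ) (hv₁ : Nat.Coprime v₁ w) (hv₂ : Nat.Coprime v₂ w)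
    (y y' z z' : ℕ → ℕ)
    (hS : ∀ u ∈ S, (u : ℝ) ≤ V ∧ Nat.Coprime u w ∧
      (0 < y u ∧ (y u : ℝ) ≤ V ∧ Nat.Coprime (y u) w) ∧
      (0 < y' u ∧ (y' u : ℝ) ≤ V ∧ Nat.Coprime (y' u) w) ∧
      (0 < z u ∧ (z u : ℝ) ≤ V ∧ Nat.Coprime (z u) w) ∧
      (0 < z' u ∧ (z' u : ℝ) ≤ V ∧ Nat.Coprime (z' u) w) ∧
      v₁ ^ e * (y' u) ^ f ≡ u ^ e * (y u) ^ f [MOD w ^ 3] ∧
      v₂ ^ e * (z' u) ^ f ≡ u ^ e * (z u) ^ f [MOD w ^ 3] ∧
      H ≤ max (((y u * z' u) / Nat.gcd (y u * z' u) (y' u * z u) : ℕ) : ℝ)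
        (((y' u * z u) / Nat.gcd (y u * z' u) (y' u * z u) : ℕ) : ℝ)) :
    (S.card : ℝ) ≤ κ ^ 3 * (κ * (V ^ 2 / H + 2 * (V ^ 4 / (w : ℝ) ^ 3))) := by
  have hκ0 : 0 ≤ κ := le_trans zero_le_one hκ.one
  have hw0 : (0 : ℝ) < w := by
    have : (2 : ℝ) ≤ w := by exact_mod_cast hw
    linarith
  have hw1 : (1 : ℝ) ≤ w := by
    have : (2 : ℝ) ≤ w := by exact_mod_cast hw
    linarith
  have hV0 : 0 < V := by linarith
  have hH0 : 0 < H := by linarith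
  obtain ⟨c, hc, hc'⟩ := p2_inv hw hv₁ hv₂ e
  set G := ⌊V ^ 2 / H⌋₊ with hG
  set Sg : ℕ → Finset (ℕ × ℕ) := fun g =>
    ((Finset.Icc 1 ⌊V ^ 2 / g⌋₊) ×ˢ (Finset.Icc 1 ⌊V ^ 2 / g⌋₊)).filter (fun s =>
      Nat.Coprime s.1 s.2 ∧ Nat.Coprime s.1 w ∧ Nat.Coprime s.2 w ∧
        s.1 ^ f ≡ c * s.2 ^ f [MOD w ^ 3]) with hSg
  set T : Finset (Σ _ : ℕ, ℕ × ℕ) := (Finset.Icc 1 G).sigma Sg with hT
  have hVV : ∀ a b : ℕ, (a : ℝ) ≤ V → (b : ℝ) ≤ V → (((a * b : ℕ)) : ℝ) ≤ V ^ 2 := by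
    intro a b ha hb
    push_cast
    have h1 : (0 : ℝ) ≤ a := Nat.cast_nonneg _
    have h2 : (0 : ℝ) ≤ b := Nat.cast_nonneg _
    nlinarith
  have hVw40 : ∀ a : ℕ, (a : ℝ) ≤ V ^ 2 → a ≤ w ^ 40 := by
    intro a ha
    have h1 : (a : ℝ) ≤ (w : ℝ) ^ 40 := by
      calc (a : ℝ) ≤ V ^ 2 := ha
        _ ≤ (w : ℝ) ^ 2 := by gcongr
        _ ≤ (w : ℝ) ^ 40 := pow_le_pow_right₀ hw1 (by norm_num)
    exact_mod_cast h1
  have hfib := p2_fib S (fun u => (⟨Nat.gcd (y u * z' u) (y' u * z u),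
      ((y u * z' u) / Nat.gcd (y u * z' u) (y' u * z u),
        (y' u * z u) / Nat.gcd (y u * z' u) (y' u * z u))⟩ : Σ _ : ℕ, ℕ × ℕ)) T (κ ^ 3) (by
    intro u hu
    obtain ⟨hu1, hu2, ⟨a1, a2, a3⟩, ⟨b1, b2, b3⟩, ⟨c1, c2, c3⟩, ⟨d1, d2, d3⟩, r1, r2, hmax⟩ :=
      hS u hu
    set n := y u * z' u with hn
    set l := y' u * z u with hl
    set g := Nat.gcd n l with hg
    have hn0 : 0 < n := Nat.mul_pos a1 d1
    have hl0 : 0 < l := Nat.mul_pos b1 c1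
    have hg0 : 0 < g := Nat.gcd_pos_of_pos_left _ hn0
    have hnV : (n : ℝ) ≤ V ^ 2 := hVV _ _ a2 d2
    have hlV : (l : ℝ) ≤ V ^ 2 := hVV _ _ b2 c2
    have hgn : g * (n / g) = n := Nat.mul_div_cancel' (Nat.gcd_dvd_left n l)
    have hgl : g * (l / g) = l := Nat.mul_div_cancel' (Nat.gcd_dvd_right n l)
    have hgR : (0 : ℝ) < g := by exact_mod_cast hg0
    have ha0 : 0 < n / g := Nat.div_pos (Nat.le_of_dvd hn0 (Nat.gcd_dvd_left n l)) hg0
    have hb0 : 0 < l / g := Nat.div_pos (Nat.le_of_dvd hl0 (Nat.gcd_dvd_right n l)) hg0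
    have haV : ((n / g : ℕ) : ℝ) ≤ V ^ 2 / g := by
      rw [le_div_iff₀ hgR, mul_comm]
      exact_mod_cast (by rw [hgn]; exact hnV : ((g * (n / g) : ℕ) : ℝ) ≤ V ^ 2)
    have hbV : ((l / g : ℕ) : ℝ) ≤ V ^ 2 / g := by
      rw [le_div_iff₀ hgR, mul_comm]
      exact_mod_cast (by rw [hgl]; exact hlV : ((g * (l / g) : ℕ) : ℝ) ≤ V ^ 2)
    have hgG : g ≤ G := by
      rw [hG, Nat.le_floor_iff (by positivity), le_div_iff₀ hH0]
      have h1 : H ≤ V ^ 2 / g := hmax.trans (max_le haV hbV)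
      rw [le_div_iff₀ hgR] at h1
      linarith
    have hnw : Nat.Coprime n w := Nat.Coprime.mul_left a3 d3
    have hlw : Nat.Coprime l w := Nat.Coprime.mul_left b3 c3
    have hgw : Nat.Coprime g w := hnw.of_dvd_left (Nat.gcd_dvd_left n l)
    rw [hT, mem_sigma, mem_Icc]
    refine ⟨⟨hg0, hgG⟩, ?_⟩
    rw [hSg]
    simp only [mem_filter, mem_product, mem_Icc]
    refine ⟨⟨⟨ha0, Nat.le_floor haV⟩, ⟨hb0, Nat.le_floor hbV⟩⟩,
      Nat.coprime_div_gcd_div_gcd hg0, ?_, ?_, ?_⟩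
    · exact hnw.of_dvd_left (Nat.div_dvd_of_dvd (Nat.gcd_dvd_left n l))
    · exact hlw.of_dvd_left (Nat.div_dvd_of_dvd (Nat.gcd_dvd_right n l))
    · -- the relation
      have h1 : v₂ ^ e * n ^ f ≡ v₁ ^ e * l ^ f [MOD w ^ 3] := by
        have h2 := r2.mul r1.symm
        have h3 : u ^ e * (v₂ ^ e * n ^ f) ≡ u ^ e * (v₁ ^ e * l ^ f) [MOD w ^ 3] := by
          have e1 : u ^ e * (v₂ ^ e * n ^ f) = v₂ ^ e * z' u ^ f * (u ^ e * y u ^ f) := by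
            rw [hn, mul_pow]
            ring
          have e2 : u ^ e * (v₁ ^ e * l ^ f) = u ^ e * z u ^ f * (v₁ ^ e * y' u ^ f) := by
            rw [hl, mul_pow]
            ring
          rw [e1, e2]
          exact h2
        exact Nat.ModEq.cancel_left_of_coprime
          (Nat.Coprime.pow_right e (Nat.Coprime.pow_right 3 hu2).symm) h3
      have h2 : v₂ ^ e * g ^ f * (n / g) ^ f ≡ v₂ ^ e * g ^ f * (c * (l / g) ^ f)
          [MOD w ^ 3] := by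
        have e1 : v₂ ^ e * g ^ f * (n / g) ^ f = v₂ ^ e * n ^ f := by
          conv_rhs => rw [← hgn, mul_pow]
          ring
        have e2 : v₂ ^ e * g ^ f * (c * (l / g) ^ f) = v₂ ^ e * c * l ^ f := by
          conv_rhs => rw [← hgl, mul_pow]
          ring
        rw [e1, e2]
        exact h1.trans (hc'.symm.mul_right _)
      refine Nat.ModEq.cancel_left_of_coprime ?_ h2
      exact Nat.Coprime.symm (Nat.Coprime.mul_left (Nat.Coprime.pow e 3 hv₂)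
        (Nat.Coprime.pow f 3 hgw))) (by
    rintro ⟨g, a, b⟩ hb
    rw [hT, mem_sigma, mem_Icc, hSg] at hb
    simp only [mem_filter, mem_product, mem_Icc] at hb
    obtain ⟨⟨hg1, hgG⟩, ⟨⟨ha1, ha2⟩, ⟨hb1, hb2⟩⟩, -⟩ := hb
    have hgR : (0 : ℝ) < g := by exact_mod_cast hg1
    have ha3 : ((g * a : ℕ) : ℝ) ≤ V ^ 2 := by
      rw [Nat.le_floor_iff (by positivity), le_div_iff₀ hgR] at ha2
      push_cast
      linarith
    have hb3 : ((g * b : ℕ) : ℝ) ≤ V ^ 2 := by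
      rw [Nat.le_floor_iff (by positivity), le_div_iff₀ hgR] at hb2
      push_cast
      linarith
    refine p2_fiber hκ he1 he8 hw (e := e) (f := f) _ v₁ (g * a) (g * b) y y' z z'
      (Nat.mul_pos hg1 ha1) (Nat.mul_pos hg1 hb1) (hVw40 _ ha3) (hVw40 _ hb3) ?_
    intro u hu
    rw [mem_filter] at hu
    obtain ⟨hu0, hu'⟩ := hu
    obtain ⟨hu1, hu2, ⟨a1, a2, a3⟩, ⟨b1, b2, b3⟩, ⟨c1, c2, c3⟩, ⟨d1, d2, d3⟩, r1, r2, hmax⟩ :=
      hS u hu0
    simp only [Sigma.mk.injEq, heq_eq_eq, Prod.mk.injEq] at hu'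
    obtain ⟨q1, q2, q3⟩ := hu'
    refine ⟨?_, hu2, a3, r1, ?_, ?_⟩
    · have h1 : (u : ℝ) ≤ w := hu1.trans hVw
      have h2 : u ≤ w := by exact_mod_cast h1
      calc u ≤ w := h2
        _ < w ^ 3 := lt_self_pow₀ (by omega) (by norm_num)
    · rw [← q2, ← q1]
      exact (Nat.mul_div_cancel' (Nat.gcd_dvd_left _ _)).symm
    · rw [← q3, ← q1]
      exact (Nat.mul_div_cancel' (Nat.gcd_dvd_right _ _)).symm)
  refine hfib.trans ?_
  refine mul_le_mul_of_nonneg_left ?_ (by positivity)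
  rw [hT, card_sigma]
  push_cast
  have hSgc : ∀ g ∈ Finset.Icc 1 G, ((Sg g).card : ℝ) ≤
      κ * (1 + V ^ 4 / (w : ℝ) ^ 3 * (1 / (g : ℝ) ^ 2)) := by
    intro g hg
    rw [mem_Icc] at hg
    have hgR : (0 : ℝ) < g := by exact_mod_cast hg.1
    have hg1 : (1 : ℝ) ≤ g := by exact_mod_cast hg.1
    have h1 : H ≤ V ^ 2 / g := by
      rw [le_div_iff₀ hgR]
      have h2 := hg.2
      rw [hG, Nat.le_floor_iff (by positivity), le_div_iff₀ hH0] at h2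
      linarith
    have h2 : V ^ 2 / g ≤ (w : ℝ) ^ 12 := by
      calc V ^ 2 / g ≤ V ^ 2 := div_le_self (by positivity) hg1
        _ ≤ (w : ℝ) ^ 2 := by gcongr
        _ ≤ (w : ℝ) ^ 12 := pow_le_pow_right₀ hw1 (by norm_num)
    have h3 := hκ.dir f hf1 hf8 c hc (V ^ 2 / g) (V ^ 2 / g) (hH.trans h1) (hH.trans h1) h2 h2
      (Sg g) (by
      intro s hs
      rw [hSg] at hs
      simp only [mem_filter, mem_product, mem_Icc] at hs
      obtain ⟨⟨⟨s1, s2⟩, ⟨s3, s4⟩⟩, s5, s6, s7, s8⟩ := hs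
      exact ⟨s1, s3, (Nat.le_floor_iff (by positivity)).1 s2,
        (Nat.le_floor_iff (by positivity)).1 s4, s5, s6, s7, s8⟩)
    refine h3.trans (le_of_eq ?_)
    field_simp
  refine (Finset.sum_le_sum hSgc).trans ?_
  rw [← Finset.mul_sum, Finset.sum_add_distrib, ← Finset.mul_sum, Finset.sum_const,
    Nat.card_Icc, Nat.add_sub_cancel, nsmul_eq_mul, mul_one]
  refine mul_le_mul_of_nonneg_left ?_ hκ0
  have h1 : (G : ℝ) ≤ V ^ 2 / H := Nat.floor_le (by positivity)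
  have h2 := p2_sumsq G
  have h3 : 0 ≤ V ^ 4 / (w : ℝ) ^ 3 := by positivity
  nlinarith

theorem p2_thm : P2Stmt := by
  intro e f w κ V Λ E Y Y' he1 he8 hf1 hf8 hw hκ hV hΛ hVΛ hE hEc
  classical
  have hκ1 := hκ.one
  have hκ0 : 0 ≤ κ := le_trans zero_le_one hκ1
  have hκ4 : 1 ≤ κ ^ 4 := one_le_pow₀ hκ1
  have hΛ100 : 100 ≤ Λ := by linarith
  have hΛ0 : 0 < Λ := by linarith
  have hV0 : 0 < V := by linarith
  have hVw : V ≤ w := by nlinarith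
  have hw0 : (0 : ℝ) < w := lt_of_lt_of_le hV0 hVw
  set H := V * Λ ^ 3 with hH
  have hΛ3 : 1 ≤ Λ ^ 3 := one_le_pow₀ (by linarith)
  have hH1 : 1 ≤ H := by nlinarith
  have hH0 : 0 < H := by linarith
  set I := Finset.Icc 1 ⌊V⌋₊ with hI
  have hIc : (I.card : ℝ) ≤ V := by
    rw [hI, Nat.card_Icc, Nat.add_sub_cancel]
    exact Nat.floor_le hV0.le
  have hEI : ∀ s ∈ E, s.1 ∈ I ∧ s.2 ∈ I := by
    intro s hs
    obtain ⟨h1, h2, h3, h4, -⟩ := hE s hs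
    rw [hI, mem_Icc, mem_Icc]
    exact ⟨⟨h1, Nat.le_floor h2⟩, ⟨h3, Nat.le_floor h4⟩⟩
  have hEpos : 0 < (E.card : ℝ) := lt_of_lt_of_le (by positivity) hEc
  have hYpos : ∀ s ∈ E, 0 < Y s ∧ 0 < Y' s := by
    intro s hs
    obtain ⟨-, -, -, -, -, -, -, h1, -, h2, -⟩ := hE s hs
    have h3 : 0 < V / Λ ^ 2 := by positivity
    exact ⟨by exact_mod_cast lt_of_lt_of_le h3 h1, by exact_mod_cast lt_of_lt_of_le h3 h2⟩
  let bad : ℕ × ℕ → ℕ × ℕ → Prop := fun s t =>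
    H ≤ max (((Y s * Y' t) / Nat.gcd (Y s * Y' t) (Y' s * Y t) : ℕ) : ℝ)
        (((Y' s * Y t) / Nat.gcd (Y s * Y' t) (Y' s * Y t) : ℕ) : ℝ)
  by_contra hcon
  push Not at hcon
  -- few good partners
  have hgood : ∀ s ∈ E, ((E.filter (fun t => t.1 = s.1 ∧ ¬ bad s t)).card : ℝ) ≤
      V / (2 * Λ ^ 2) := by
    rintro ⟨u, u₁⟩ hs
    by_contra hlt
    push Not at hlt
    set J := (E.filter (fun t => t.1 = u ∧ ¬ bad (u, u₁) t)).image Prod.snd with hJ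
    have hJc : J.card = (E.filter (fun t => t.1 = u ∧ ¬ bad (u, u₁) t)).card := by
      rw [hJ]
      apply card_image_of_injOn
      rintro ⟨a, b⟩ ha ⟨a', b'⟩ ha' hab
      rw [mem_coe, mem_filter] at ha ha'
      simp only at ha ha' hab
      rw [Prod.mk.injEq]
      exact ⟨ha.2.1.trans ha'.2.1.symm, hab⟩
    obtain ⟨v, hvJ, hv⟩ := hcon u u₁ J hs (by rw [hJc]; exact hlt.le)
    rw [hJ, mem_image] at hvJ
    obtain ⟨⟨a, b⟩, hab, hbv⟩ := hvJ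
    rw [mem_filter] at hab
    simp only at hab hbv
    obtain ⟨hab1, rfl, hab2⟩ := hab
    subst hbv
    have hlt2 := hv hab1
    apply hab2
    -- the gcd is small, so the entry is bad
    obtain ⟨-, -, -, -, -, -, -, h1, h1', h2, h2', -⟩ := hE _ hs
    obtain ⟨-, -, -, -, -, -, -, h3, h3', h4, h4', -⟩ := hE _ hab1
    obtain ⟨p1, p2⟩ := hYpos _ hs
    obtain ⟨p3, p4⟩ := hYpos _ hab1
    set n := Y (a, u₁) * Y' (a, b) with hn
    set l := Y' (a, u₁) * Y (a, b) with hl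
    set g := Nat.gcd n l with hg
    have hn0 : 0 < n := Nat.mul_pos p1 p4
    have hg0 : 0 < g := Nat.gcd_pos_of_pos_left _ hn0
    have hgR : (0 : ℝ) < g := by exact_mod_cast hg0
    have hgn : g * (n / g) = n := Nat.mul_div_cancel' (Nat.gcd_dvd_left n l)
    have hgn' : (g : ℝ) * ((n / g : ℕ) : ℝ) = n := by exact_mod_cast hgn
    have hnV : (V / Λ ^ 2) ^ 2 ≤ (n : ℝ) := by
      rw [hn]
      push_cast
      rw [sq]
      exact mul_le_mul h1 h4 (by positivity) (Nat.cast_nonneg _)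
    show H ≤ max ((n / g : ℕ) : ℝ) ((l / g : ℕ) : ℝ)
    refine le_max_of_le_left ?_
    by_contra hc
    push Not at hc
    have h5 : (n : ℝ) < V / Λ ^ 7 * H := by
      rw [← hgn']
      exact mul_lt_mul'' hlt2 hc hgR.le (Nat.cast_nonneg _)
    have h6 : V / Λ ^ 7 * H = (V / Λ ^ 2) ^ 2 := by
      rw [hH]
      field_simp
    rw [h6] at h5
    linarith
  -- few bad pairs
  set C := κ ^ 3 * (κ * (V ^ 2 / H + 2 * (V ^ 4 / (w : ℝ) ^ 3))) with hC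
  set Bd := (E ×ˢ E).filter (fun p => p.2.1 = p.1.1 ∧ bad p.1 p.2) with hBd
  have hbad : (Bd.card : ℝ) ≤ C * ((I ×ˢ I).card : ℝ) := by
    refine p2_fib Bd (fun p => (p.1.2, p.2.2)) (I ×ˢ I) C ?_ ?_
    · intro p hp
      rw [hBd, mem_filter, mem_product] at hp
      rw [mem_product]
      exact ⟨(hEI _ hp.1.1).2, (hEI _ hp.1.2).2⟩
    · rintro ⟨v₁, v₂⟩ -
      set Fb := Bd.filter (fun p => (p.1.2, p.2.2) = (v₁, v₂)) with hFb
      have hmem : ∀ p ∈ Fb, (p.1.1, v₁) ∈ E ∧ (p.1.1, v₂) ∈ E ∧ p = ((p.1.1, v₁), (p.1.1, v₂)) ∧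
          bad (p.1.1, v₁) (p.1.1, v₂) := by
        rintro ⟨⟨a, b⟩, ⟨a', b'⟩⟩ hp
        rw [hFb, mem_filter, hBd, mem_filter, mem_product] at hp
        simp only [Prod.mk.injEq] at hp
        obtain ⟨⟨⟨h1, h2⟩, rfl, h3⟩, rfl, rfl⟩ := hp
        exact ⟨h1, h2, rfl, h3⟩
      have himg : Fb.card = (Fb.image (fun p => p.1.1)).card := by
        rw [card_image_of_injOn]
        intro p hp q hq hpq
        rw [(hmem p hp).2.2.1, (hmem q hq).2.2.1]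
        simp only at hpq
        rw [hpq]
      rw [himg]
      rcases Fb.eq_empty_or_nonempty with h0 | ⟨p₀, hp₀⟩
      · rw [h0, image_empty, card_empty, Nat.cast_zero, hC]
        positivity
      obtain ⟨q1, q2, -, -⟩ := hmem p₀ hp₀
      have hv₁ : Nat.Coprime v₁ w := (hE _ q1).2.2.2.2.2.2.1
      have hv₂ : Nat.Coprime v₂ w := (hE _ q2).2.2.2.2.2.2.1
      refine p2_bad hκ he1 he8 hf1 hf8 hw hV hVw hH1 _ v₁ v₂ hv₁ hv₂ (fun u => Y (u, v₁))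
        (fun u => Y' (u, v₁)) (fun u => Y (u, v₂)) (fun u => Y' (u, v₂)) ?_
      intro u hu
      rw [mem_image] at hu
      obtain ⟨p, hp, rfl⟩ := hu
      obtain ⟨e1, e2, -, e3⟩ := hmem p hp
      obtain ⟨a1, a2, a3, a4, a5, a6, a7, a8, a9, a10, a11, a12, a13, a14, a15⟩ := hE _ e1
      obtain ⟨b1, b2, b3, b4, b5, b6, b7, b8, b9, b10, b11, b12, b13, b14, b15⟩ := hE _ e2
      obtain ⟨c1, c2⟩ := hYpos _ e1
      obtain ⟨c3, c4⟩ := hYpos _ e2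
      exact ⟨a2, a6, ⟨c1, a9, a13⟩, ⟨c2, a11, a14⟩, ⟨c3, b9, b13⟩, ⟨c4, b11, b14⟩, a15, b15, e3⟩
  have hCle : C ≤ 3 * (V / (100 * Λ ^ 2)) := by
    have h1 : V ^ 2 / H = V / Λ ^ 3 := by
      rw [hH]
      field_simp
    have h2 : V ^ 4 / (w : ℝ) ^ 3 ≤ V / Λ ^ 3 := by
      rw [div_le_div_iff₀ (by positivity) (by positivity)]
      calc V ^ 4 * Λ ^ 3 = V * (V * Λ) ^ 3 := by ring
        _ ≤ V * (w : ℝ) ^ 3 := by gcongr
    rw [hC, h1]
    calc κ ^ 3 * (κ * (V / Λ ^ 3 + 2 * (V ^ 4 / (w : ℝ) ^ 3)))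
        ≤ κ ^ 3 * (κ * (V / Λ ^ 3 + 2 * (V / Λ ^ 3))) := by gcongr
      _ = 3 * (κ ^ 4 * V / Λ ^ 3) := by ring
      _ ≤ 3 * (V / (100 * Λ ^ 2)) := by
          refine mul_le_mul_of_nonneg_left ?_ (by norm_num)
          rw [div_le_div_iff₀ (by positivity) (by positivity)]
          calc κ ^ 4 * V * (100 * Λ ^ 2) = (100 * κ ^ 4) * (V * Λ ^ 2) := by ring
            _ ≤ Λ * (V * Λ ^ 2) := by gcongr
            _ = V * Λ ^ 3 := by ring
  -- Cauchy-Schwarz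
  set dg : ℕ → ℝ := fun u => ((E.filter (fun s => s.1 = u)).card : ℝ) with hdg
  have hsum1 : (E.card : ℝ) = ∑ u ∈ I, dg u := by
    rw [Finset.card_eq_sum_card_fiberwise (f := Prod.fst) (t := I) fun s hs => (hEI s hs).1]
    push_cast
    rfl
  have hsum2 : ∑ s ∈ E, dg s.1 = ∑ u ∈ I, dg u ^ 2 := by
    rw [← Finset.sum_fiberwise_of_maps_to (s := E) (t := I) (g := Prod.fst)
      fun s hs => (hEI s hs).1]
    refine Finset.sum_congr rfl fun u _ => ?_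
    rw [Finset.sum_congr rfl (fun s hs => by rw [(mem_filter.1 hs).2] :
      ∀ s ∈ E.filter (fun s => s.1 = u), dg s.1 = dg u), Finset.sum_const, nsmul_eq_mul, sq]
  have hCS : (E.card : ℝ) ^ 2 ≤ V * ∑ s ∈ E, dg s.1 := by
    rw [hsum2, hsum1]
    refine (sq_sum_le_card_mul_sum_sq (s := I) (f := dg)).trans ?_
    exact mul_le_mul_of_nonneg_right hIc (Finset.sum_nonneg fun _ _ => sq_nonneg _)
  -- splitting
  have hsplit : ∑ s ∈ E, dg s.1 =
      ∑ s ∈ E, ((E.filter (fun t => t.1 = s.1 ∧ ¬ bad s t)).card : ℝ) + Bd.card := by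
    have h1 : (Bd.card : ℝ) = ∑ s ∈ E, ((E.filter (fun t => t.1 = s.1 ∧ bad s t)).card : ℝ) := by
      rw [hBd, Finset.card_filter, Finset.sum_product]
      push_cast
      refine Finset.sum_congr rfl fun s _ => ?_
      rw [Finset.card_filter]
      push_cast
      rfl
    rw [h1, ← Finset.sum_add_distrib]
    refine Finset.sum_congr rfl fun s _ => ?_
    rw [hdg]
    simp only
    have h2 : E.filter (fun t => t.1 = s.1) = (E.filter (fun t => t.1 = s.1 ∧ ¬ bad s t)) ∪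
        (E.filter (fun t => t.1 = s.1 ∧ bad s t)) := by
      ext t
      simp only [mem_filter, mem_union]
      tauto
    rw [h2, card_union_of_disjoint]
    · push_cast
      rfl
    · rw [disjoint_filter]
      tauto
  have hgs : ∑ s ∈ E, ((E.filter (fun t => t.1 = s.1 ∧ ¬ bad s t)).card : ℝ) ≤
      E.card * (V / (2 * Λ ^ 2)) := by
    refine (Finset.sum_le_sum hgood).trans ?_
    rw [Finset.sum_const, nsmul_eq_mul]
  have hII : ((I ×ˢ I).card : ℝ) ≤ V ^ 2 := by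
    rw [card_product]
    push_cast
    have : (0 : ℝ) ≤ I.card := Nat.cast_nonneg _
    nlinarith
  have hBc : (Bd.card : ℝ) ≤ 3 * (V / (100 * Λ ^ 2)) * V ^ 2 := by
    refine hbad.trans ?_
    have hC0 : 0 ≤ C := by
      rw [hC]
      positivity
    exact mul_le_mul hCle hII (Nat.cast_nonneg _) (by positivity)
  rw [hsplit] at hCS
  -- the final inequality
  set c := (E.card : ℝ) with hc
  have h1 : c ^ 2 ≤ V * (c * (V / (2 * Λ ^ 2)) + 3 * (V / (100 * Λ ^ 2)) * V ^ 2) :=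
    hCS.trans (mul_le_mul_of_nonneg_left (by linarith) hV0.le)
  have h2 : V ^ 2 ≤ c * Λ := by
    rw [div_le_iff₀ hΛ0] at hEc
    exact hEc
  have h3 : V * (c * (V / (2 * Λ ^ 2)) + 3 * (V / (100 * Λ ^ 2)) * V ^ 2) =
      (c * V ^ 2 * 50 + 3 * V ^ 2 * V ^ 2) / (100 * Λ ^ 2) := by
    field_simp
    ring
  rw [h3, le_div_iff₀ (by positivity)] at h1
  have hcΛ : 0 < c * Λ := by positivity
  have h4 : c * V ^ 2 * 50 ≤ c * (c * Λ) * 50 := by
    have := mul_le_mul_of_nonneg_left h2 hEpos.le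
    linarith
  have h5 : V ^ 2 * V ^ 2 ≤ (c * Λ) * (c * Λ) := mul_le_mul h2 h2 (by positivity) hcΛ.le
  have h6 : c ^ 2 * Λ ≤ c ^ 2 * Λ ^ 2 / 100 := by
    have : c ^ 2 * Λ * 100 ≤ c ^ 2 * Λ ^ 2 := by
      have h7 : 0 ≤ c ^ 2 * Λ := by positivity
      nlinarith
    linarith
  have h8 : 0 < c ^ 2 * Λ ^ 2 := by positivity
  nlinarith

end Pool.Agent.Helper21.EN
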