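import Pool.Agent.Helper21.EN.Stmts

set_option autoImplicit false

/-!
# Project EN, piece P3

Replace the sorry. The statement is in EN/Stmts.lean. Paper: /team-store/EN_paper.md.

Proof. For v in J put g1 = gcd(y1, Y v), g2 = gcd(y1', Y' v). Since gcd(y1,y1') = 1 and gcd(Y v, Y' v) = 1: gcd(y1 Y' v, y1' Y v) = g1 g2 (at least: divides g1 g2; indeed gcd(y1 Y', y1' Y) | gcd(y1 Y', Y) gcd(y1 Y', y1') and
gcd(y1 Y', Y) = gcd(y1,Y), gcd(y1 Y', y1') = gcd(Y', y1')). (g1,g2) is a pair of divisors of y1, y1': at most kappa^2 pairs (Kap.div, y1 <= V <= w <= w^40), so for some (R,S) the set J1 of v in J with (g1,g2) = (R,S)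
has at least |J|/kappa^2 elements, RS >= V/Lambda^7. K = image of J1 under v -> (Y v / R, Y' v / S). The fibres have at most kappa elements: v^e = u^e (Y v)^f/(Y' v)^f =: c modulo w^3, v <= V <= w < w^3 (w >= 2): Kap.roots with m = w^3.
So |K| >= V/(2 kappa^3 Lambda^2). U s = a chosen v in J1 over s. kappa1: natural number with kappa1 S^f = u^e R^f modulo w^3 (R, S divide numbers coprime to w).
Relation: v^e (S s2)^f = u^e (R s1)^f modulo w^3 gives v^e s2^f = kappa1 s1^f. Y v = R s1 <= V etc.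
-/

namespace Pool.Agent.Helper21.EN

open Finset

/-- the common divisor of the products -/
theorem p3_gcd {y y' Y Y' : ℕ} (h : Nat.Coprime y y') (h' : Nat.Coprime Y Y') :
    Nat.gcd (y * Y') (y' * Y) ∣ Nat.gcd y Y * Nat.gcd y' Y' := by
  have h1 := Nat.gcd_mul_right_dvd_mul_gcd (y * Y') y' Y
  have h2 : Nat.gcd (y * Y') y' = Nat.gcd Y' y' := Nat.Coprime.gcd_mul_left_cancel _ h
  have h3 : Nat.gcd (y * Y') Y = Nat.gcd y Y := Nat.Coprime.gcd_mul_right_cancel _ h'.symm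
  rw [h2, h3, Nat.gcd_comm Y' y', Nat.mul_comm (Nat.gcd y' Y')] at h1
  exact h1

/-- the pigeonhole over the pairs of divisors -/
theorem p3_pigeon {κ : ℝ} {y y' : ℕ} {J : Finset ℕ} {Y Y' : ℕ → ℕ} (hy : 0 < y) (hy' : 0 < y')
    (hκ1 : 1 ≤ κ) (h1 : (y.divisors.card : ℝ) ≤ κ) (h2 : (y'.divisors.card : ℝ) ≤ κ) :
    ∃ R S : ℕ, R ∣ y ∧ S ∣ y' ∧ (J.card : ℝ) ≤ κ ^ 2 *
      ((J.filter (fun v => Nat.gcd y (Y v) = R ∧ Nat.gcd y' (Y' v) = S)).card : ℝ) := by
  classical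
  set D := y.divisors ×ˢ y'.divisors with hD
  have hne : D.Nonempty := ⟨(1, 1), by
    rw [hD, Finset.mem_product]
    exact ⟨Nat.one_mem_divisors.mpr hy.ne', Nat.one_mem_divisors.mpr hy'.ne'⟩⟩
  have hDpos : (0 : ℝ) < D.card := by exact_mod_cast hne.card_pos
  have hDc : (D.card : ℝ) ≤ κ ^ 2 := by
    rw [hD, Finset.card_product]
    push_cast
    rw [pow_two]
    exact mul_le_mul h1 h2 (by positivity) (by linarith)
  obtain ⟨⟨R, S⟩, hRS, hc⟩ := Finset.exists_le_card_fiber_of_nsmul_le_card_of_maps_to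
    (s := J) (t := D) (f := fun v => (Nat.gcd y (Y v), Nat.gcd y' (Y' v)))
    (b := (J.card : ℝ) / D.card) (by
      intro v _
      rw [hD, Finset.mem_product]
      exact ⟨Nat.mem_divisors.mpr ⟨Nat.gcd_dvd_left _ _, hy.ne'⟩,
        Nat.mem_divisors.mpr ⟨Nat.gcd_dvd_left _ _, hy'.ne'⟩⟩) hne (by
      rw [nsmul_eq_mul, mul_div_cancel₀ _ hDpos.ne'])
  rw [hD, Finset.mem_product] at hRS
  refine ⟨R, S, Nat.dvd_of_mem_divisors hRS.1, Nat.dvd_of_mem_divisors hRS.2, ?_⟩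
  have hset : J.filter (fun v => (Nat.gcd y (Y v), Nat.gcd y' (Y' v)) = (R, S)) =
      J.filter (fun v => Nat.gcd y (Y v) = R ∧ Nat.gcd y' (Y' v) = S) := by
    apply Finset.filter_congr
    intro v _
    rw [Prod.mk.injEq]
  rw [hset, div_le_iff₀ hDpos] at hc
  calc (J.card : ℝ) ≤ _ := hc
    _ ≤ _ := by
      rw [mul_comm]
      exact mul_le_mul_of_nonneg_right hDc (by positivity)

theorem p3_thm : P3Stmt := by
  classical
  intro e f w u y₁ y₁' κ V Λ J Y Y' he he8 hf hf8 hw hκ hV hΛ hVw hu hy0 hyV hy0' hyV' hcop hJ hJc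
  have hw1 : 1 ≤ w := by omega
  have hVle : V ≤ w := le_trans (by nlinarith) hVw
  have hκ1 := hκ.one
  have hle : ∀ n : ℕ, (n : ℝ) ≤ V → n ≤ w := fun n hn => by exact_mod_cast hn.trans hVle
  have h40 : w ≤ w ^ 40 := Nat.le_self_pow (by norm_num) w
  have hw3 : w < w ^ 3 := by
    calc w = w ^ 1 := (pow_one w).symm
      _ < w ^ 3 := Nat.pow_lt_pow_right (by omega) (by norm_num)
  obtain ⟨R, S, hR, hS, hRS⟩ := p3_pigeon (κ := κ) (J := J) (Y := Y) (Y' := Y') hy0 hy0' hκ1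
    (hκ.div y₁ hy0 ((hle _ hyV).trans h40)) (hκ.div y₁' hy0' ((hle _ hyV').trans h40))
  set J1 := J.filter (fun v => Nat.gcd y₁ (Y v) = R ∧ Nat.gcd y₁' (Y' v) = S) with hJ1
  have hR0 : 0 < R := Nat.pos_of_dvd_of_pos hR hy0
  have hS0 : 0 < S := Nat.pos_of_dvd_of_pos hS hy0'
  have hVpos : 0 < V / (2 * Λ ^ 2) := by positivity
  have hJpos : (0 : ℝ) < J.card := lt_of_lt_of_le hVpos hJc
  have hJ1pos : (0 : ℝ) < J1.card := by
    by_contra hcon
    push Not at hcon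
    have h0 : (J1.card : ℝ) = 0 := le_antisymm hcon (by positivity)
    rw [h0, mul_zero] at hRS
    linarith
  have hJ1ne : J1.Nonempty := by
    rw [← Finset.card_pos]
    exact_mod_cast hJ1pos
  have hmem : ∀ v ∈ J1, v ∈ J ∧ R ∣ Y v ∧ S ∣ Y' v ∧ Nat.gcd y₁ (Y v) = R ∧
      Nat.gcd y₁' (Y' v) = S := by
    intro v hv
    rw [hJ1, Finset.mem_filter] at hv
    obtain ⟨h1, h2, h3⟩ := hv
    exact ⟨h1, h2 ▸ Nat.gcd_dvd_right _ _, h3 ▸ Nat.gcd_dvd_right _ _, h2, h3⟩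
  have hRw : Nat.Coprime R w := by
    obtain ⟨v, hv⟩ := hJ1ne
    obtain ⟨h1, h2, -⟩ := hmem v hv
    exact Nat.Coprime.coprime_dvd_left h2 (hJ v h1).2.2.2.2.2.2.2.2.1
  have hSw : Nat.Coprime S w := by
    obtain ⟨v, hv⟩ := hJ1ne
    obtain ⟨h1, -, h2, -⟩ := hmem v hv
    exact Nat.Coprime.coprime_dvd_left h2 (hJ v h1).2.2.2.2.2.2.2.2.2.1
  have hRSV : V / Λ ^ 7 ≤ (R : ℝ) * S := by
    obtain ⟨v, hv⟩ := hJ1ne
    obtain ⟨h1, -, -, h2, h3⟩ := hmem v hv
    have hj := hJ v h1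
    refine hj.2.2.2.2.2.2.2.2.2.2.2.trans ?_
    have h4 := p3_gcd hcop hj.2.2.2.2.2.2.2.1
    rw [h2, h3] at h4
    have h5 := Nat.le_of_dvd (Nat.mul_pos hR0 hS0) h4
    exact_mod_cast h5
  -- the inverse of `S ^ f`
  obtain ⟨T, hT⟩ : ∃ T, S ^ f * T ≡ 1 [MOD w ^ 3] := by
    have h1 : Nat.Coprime (S ^ f) (w ^ 3) := Nat.Coprime.pow _ _ hSw
    obtain ⟨T, -, hT⟩ := Nat.exists_mul_mod_eq_one_of_coprime h1 (by omega)
    refine ⟨T, ?_⟩
    unfold Nat.ModEq
    rw [hT, Nat.mod_eq_of_lt (by omega)]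
  have hTw : Nat.Coprime T w := by
    have h1 : S ^ f * T ≡ 1 [MOD w] := hT.of_dvd (dvd_pow_self w (by norm_num))
    have h2 : Nat.gcd (S ^ f * T) w = Nat.gcd 1 w := h1.gcd_eq
    rw [Nat.gcd_one_left] at h2
    exact Nat.Coprime.coprime_dvd_left (Dvd.intro_left _ rfl) h2
  set F : ℕ → ℕ × ℕ := fun v => (Y v / R, Y' v / S) with hF
  set K := J1.image F with hK
  have hex : ∀ s ∈ K, ∃ v ∈ J1, F v = s := by
    intro s hs
    rw [hK, Finset.mem_image] at hs
    exact hs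
  refine ⟨R, S, u ^ e * R ^ f * T, K, fun s => if h : ∃ v ∈ J1, F v = s then h.choose else 0,
    hR0, hS0, hRSV, ?_, ?_, ?_⟩
  · exact Nat.Coprime.mul_left (Nat.Coprime.mul_left (Nat.Coprime.pow_left _ hu)
      (Nat.Coprime.pow_left _ hRw)) hTw
  · -- the size of `K`
    have hfib : ∀ s ∈ K, ((J1.filter (fun v => F v = s)).card) ≤ ⌊κ⌋₊ := by
      intro s hs
      obtain ⟨v0, hv0, hv0s⟩ := hex s hs
      apply Nat.le_floor
      obtain ⟨h01, h02, h03, -⟩ := hmem v0 hv0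
      have hj0 := hJ v0 h01
      have hco : Nat.Coprime (v0 ^ e) (w ^ 3) := Nat.Coprime.pow _ _ hj0.2.2.1
      refine le_trans ?_ (hκ.roots e he he8 (w ^ 3) (by omega) le_rfl (v0 ^ e) hco)
      have hsub : J1.filter (fun v => F v = s) ⊆
          (Finset.range (w ^ 3)).filter (fun x => x ^ e ≡ v0 ^ e [MOD w ^ 3]) := by
        intro v hv
        rw [Finset.mem_filter] at hv
        obtain ⟨hv1, hv2⟩ := hv
        obtain ⟨h11, h12, h13, -⟩ := hmem v hv1
        have hj1 := hJ v h11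
        rw [Finset.mem_filter, Finset.mem_range]
        refine ⟨lt_of_le_of_lt (hle v hj1.2.1) hw3, ?_⟩
        have e1 : F v = F v0 := hv2.trans hv0s.symm
        rw [hF] at e1
        simp only [Prod.mk.injEq] at e1
        have e2 : Y v = Y v0 := by
          rw [← Nat.div_mul_cancel h12, ← Nat.div_mul_cancel h02, e1.1]
        have e3 : Y' v = Y' v0 := by
          rw [← Nat.div_mul_cancel h13, ← Nat.div_mul_cancel h03, e1.2]
        have c1 := hj1.2.2.2.2.2.2.2.2.2.2.1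
        have c0 := hj0.2.2.2.2.2.2.2.2.2.2.1
        rw [e2, e3] at c1
        have c2 : v ^ e * Y' v0 ^ f ≡ v0 ^ e * Y' v0 ^ f [MOD w ^ 3] := c1.trans c0.symm
        have c3 : Nat.gcd (w ^ 3) (Y' v0 ^ f) = 1 :=
          (Nat.Coprime.pow _ _ hj0.2.2.2.2.2.2.2.2.2.1).symm
        exact Nat.ModEq.cancel_right_of_coprime c3 c2
      exact_mod_cast Finset.card_le_card hsub
    have h1 : J1.card ≤ ⌊κ⌋₊ * K.card := Finset.card_le_mul_card_image J1 _ hfib
    have h2 : (J1.card : ℝ) ≤ κ * K.card := by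
      have h3 : (J1.card : ℝ) ≤ (⌊κ⌋₊ : ℝ) * K.card := by exact_mod_cast h1
      exact h3.trans (mul_le_mul_of_nonneg_right (Nat.floor_le (by linarith)) (by positivity))
    have h3 : V / (2 * Λ ^ 2) ≤ κ ^ 3 * K.card := by
      calc V / (2 * Λ ^ 2) ≤ (J.card : ℝ) := hJc
        _ ≤ κ ^ 2 * J1.card := hRS
        _ ≤ κ ^ 2 * (κ * K.card) := mul_le_mul_of_nonneg_left h2 (by positivity)
        _ = κ ^ 3 * K.card := by ring
    have hκ3 : 0 < κ ^ 3 := by positivity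
    calc V / (2 * κ ^ 3 * Λ ^ 2) = V / (2 * Λ ^ 2) / κ ^ 3 := by
          rw [div_div]
          congr 1
          ring
      _ ≤ κ ^ 3 * K.card / κ ^ 3 := div_le_div_of_nonneg_right h3 hκ3.le
      _ = K.card := by
        rw [mul_comm, mul_div_cancel_right₀ _ hκ3.ne']
  · intro s hs
    have hx := hex s hs
    simp only [dif_pos hx]
    obtain ⟨hv1, hvs⟩ := hx.choose_spec
    set v := hx.choose with hv
    obtain ⟨h11, h12, h13, -⟩ := hmem v hv1
    obtain ⟨j1, j2, j3, j4, j5, j6, j7, j8, j9, j10, j11, j12⟩ := hJ v h11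
    have s1 : s.1 = Y v / R := by rw [← hvs]
    have s2 : s.2 = Y' v / S := by rw [← hvs]
    have r1 : R * s.1 = Y v := by rw [s1]; exact Nat.mul_div_cancel' h12
    have r2 : S * s.2 = Y' v := by rw [s2]; exact Nat.mul_div_cancel' h13
    have p1 : 0 < s.1 := by
      rcases Nat.eq_zero_or_pos s.1 with h | h
      · rw [h, mul_zero] at r1
        omega
      · exact h
    have p2 : 0 < s.2 := by
      rcases Nat.eq_zero_or_pos s.2 with h | h
      · rw [h, mul_zero] at r2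
        omega
      · exact h
    refine ⟨p1, ?_, p2, ?_, ?_, ?_, j1, j2, j3, ?_⟩
    · have : ((R * s.1 : ℕ) : ℝ) ≤ V := by rw [r1]; exact j5
      exact_mod_cast this
    · have : ((S * s.2 : ℕ) : ℝ) ≤ V := by rw [r2]; exact j7
      exact_mod_cast this
    · exact Nat.Coprime.coprime_dvd_left ⟨R, by rw [mul_comm]; exact r1.symm⟩ j9
    · exact Nat.Coprime.coprime_dvd_left ⟨S, by rw [mul_comm]; exact r2.symm⟩ j10
    · rw [← r1, ← r2] at j11
      have m1 : v ^ e * s.2 ^ f * (S ^ f * T) ≡ v ^ e * s.2 ^ f * 1 [MOD w ^ 3] :=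
        hT.mul_left _
      have m2 : v ^ e * (S * s.2) ^ f * T ≡ u ^ e * (R * s.1) ^ f * T [MOD w ^ 3] :=
        j11.mul_right _
      have m3 : v ^ e * (S * s.2) ^ f * T = v ^ e * s.2 ^ f * (S ^ f * T) := by
        rw [mul_pow]; ring
      have m4 : u ^ e * (R * s.1) ^ f * T = u ^ e * R ^ f * T * s.1 ^ f := by
        rw [mul_pow]; ring
      rw [m3, m4] at m2
      rw [mul_one] at m1
      exact m1.symm.trans m2

end Pool.Agent.Helper21.EN
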