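import Pool.Agent.Helper21.EN.Stmts

set_option autoImplicit false

/-!
# Project EN, piece P4

Replace the sorry. The statement is in EN/Stmts.lean. Paper: /team-store/EN_paper.md.

Proof. For z1, z2 <= b let D(z1,z2) = #{rho : (rho,z1), (rho,z2) in K} <= B. Sum over (z1,z2) of D = sum_rho deg(rho)^2 >= |K|^2/B >= B b^2/Lambda^2 (Cauchy-Schwarz, at most B values rho).
So at least b^2/(2 Lambda^2) pairs have D >= B/(2 Lambda^2). Drop the pairs with gcd(z1,z2) > G0 = 8 Lambda^2: at most b^2 sum_{g > G0} 1/g^2 <= 2 b^2/G0 = b^2/(4 Lambda^2); there remain at least b^2/(4 Lambda^2) good pairs.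
For a good pair and every common rho: (U(rho,z1)/U(rho,z2))^e = c modulo w^3 where c depends only on (z1,z2) (neg = false: (z2/z1)^f, neg = true: (z1/z2)^f): the reduced fractions (e1,e2) of U(rho,z1)/U(rho,z2) (entries <= V <= w)
are at most kappa (1 + V^2/w^3) <= 2 kappa many (Kap.dir), so one of them, (e1,e2) = (e1,e2)(z1,z2), occurs for at least B/(4 kappa Lambda^2) >= B/Lambda^3 values rho.
(e1,e2) determines (z1/z2)^f modulo w^3, so at most kappa (1 + b^2/w^3) <= 2 kappa reduced forms of (z1,z2) (Kap.dir), each has at most G0 multiples with gcd <= G0: at most 16 kappa Lambda^2 good pairs for each (e1,e2).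
If all good pairs had max(e1,e2) <= H then b^2/(4 Lambda^2) <= H^2 16 kappa Lambda^2; so (take H = the maximum) some good pair has max(e1,e2) >= b/(8 sqrt(kappa) Lambda^2). If e1 is the maximum: for the popular rho,
U(rho,z1) = e1 a_rho, a_rho <= V/e1 <= 8 sqrt(kappa) Lambda^2 V/b <= B Lambda^4, because V/Lambda <= |K| <= B b gives V/b <= Lambda B, and 8 sqrt(kappa) <= 8 kappa <= Lambda. D = the set of the popular rho.
kappa2: neg = false: kappa2 e1^e z1^f = kappa1, a^e = kappa2 rho^f; neg = true: kappa2 e1^e = kappa1 z1^f, a^e rho^f = kappa2 (all modulo w^3, units). If e2 is the maximum use U(rho,z2) = e2 a_rho and z2.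
-/

namespace Pool.Agent.Helper21.EN

open Finset

lemma p4_inv {x w : ℕ} (hw : 2 ≤ w) (hx : Nat.Coprime x w) :
    ∃ y, Nat.Coprime y w ∧ x * y ≡ 1 [MOD w ^ 3] := by
  refine ⟨x ^ (Nat.totient (w ^ 3) - 1), hx.pow_left _, ?_⟩
  have h1 : 0 < Nat.totient (w ^ 3) := Nat.totient_pos.2 (by positivity)
  have h2 : x * x ^ (Nat.totient (w ^ 3) - 1) = x ^ Nat.totient (w ^ 3) := by
    rw [← pow_succ']
    congr 1
    omega
  rw [h2]
  exact Nat.ModEq.pow_totient (hx.pow_right 3)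

lemma p4_solve {x c w : ℕ} (hw : 2 ≤ w) (hx : Nat.Coprime x w) (hc : Nat.Coprime c w) :
    ∃ d, Nat.Coprime d w ∧ x * d ≡ c [MOD w ^ 3] := by
  obtain ⟨y, hy, hxy⟩ := p4_inv hw hx
  refine ⟨y * c, Nat.Coprime.mul_left hy hc, ?_⟩
  have := hxy.mul_right c
  rw [one_mul, mul_assoc] at this
  exact this

lemma p4_cancel {a x y w : ℕ} (ha : Nat.Coprime a w) (h : a * x ≡ a * y [MOD w ^ 3]) :
    x ≡ y [MOD w ^ 3] :=
  Nat.ModEq.cancel_left_of_coprime (Nat.Coprime.gcd_eq_one (ha.symm.pow_left 3)) h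

lemma p4_red {e w A A' X X' : ℕ} (hAw : Nat.Coprime A w)
    (h : A ^ e * X ≡ A' ^ e * X' [MOD w ^ 3]) :
    (A / Nat.gcd A A') ^ e * X ≡ (A' / Nat.gcd A A') ^ e * X' [MOD w ^ 3] := by
  have hgw : Nat.Coprime (Nat.gcd A A') w :=
    Nat.Coprime.coprime_dvd_left (Nat.gcd_dvd_left _ _) hAw
  apply p4_cancel (hgw.pow_left e)
  have h1 : Nat.gcd A A' * (A / Nat.gcd A A') = A := Nat.mul_div_cancel' (Nat.gcd_dvd_left _ _)
  have h2 : Nat.gcd A A' * (A' / Nat.gcd A A') = A' := Nat.mul_div_cancel' (Nat.gcd_dvd_right _ _)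
  rw [← mul_assoc, ← mul_assoc, ← mul_pow, ← mul_pow, h1, h2]
  exact h

lemma p4_dir {w j c : ℕ} {κ P : ℝ} (hK : Kap w κ) (hw : 2 ≤ w) (hj : 1 ≤ j) (hj8 : j ≤ 8)
    (hc : Nat.Coprime c w) (hP1 : 1 ≤ P) (hPw : P ≤ w) (S : Finset (ℕ × ℕ))
    (hS : ∀ s ∈ S, 0 < s.1 ∧ 0 < s.2 ∧ (s.1 : ℝ) ≤ P ∧ (s.2 : ℝ) ≤ P ∧ Nat.Coprime s.1 s.2 ∧
      Nat.Coprime s.1 w ∧ Nat.Coprime s.2 w ∧ s.1 ^ j ≡ c * s.2 ^ j [MOD w ^ 3]) :
    (S.card : ℝ) ≤ 2 * κ := by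
  have hw2 : (2 : ℝ) ≤ w := by exact_mod_cast hw
  have hP12 : P ≤ (w : ℝ) ^ 12 := hPw.trans (by
    calc (w : ℝ) = (w : ℝ) ^ 1 := (pow_one _).symm
      _ ≤ (w : ℝ) ^ 12 := pow_le_pow_right₀ (by linarith) (by norm_num))
  have h := hK.dir j hj hj8 c hc P P hP1 hP1 hP12 hP12 S hS
  have h2 : P * P / (w : ℝ) ^ 3 ≤ 1 := by
    rw [div_le_one (by positivity)]
    have h3 : P * P ≤ (w : ℝ) * w := mul_le_mul hPw hPw (by linarith) (by linarith)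
    have h4 : (w : ℝ) * w ≤ (w : ℝ) ^ 3 := by
      have : (w : ℝ) ^ 2 ≤ (w : ℝ) ^ 3 := pow_le_pow_right₀ (by linarith) (by norm_num)
      nlinarith
    linarith
  have hκ := hK.one
  nlinarith

/-- Cauchy-Schwarz. -/
lemma p4_cs (K : Finset (ℕ × ℕ)) :
    ((K.card : ℝ)) ^ 2 ≤ ((K.image Prod.fst).card : ℝ) *
      ∑ zz ∈ (K.image Prod.snd) ×ˢ (K.image Prod.snd),
        (((K.image Prod.fst).filter (fun ρ => (ρ, zz.1) ∈ K ∧ (ρ, zz.2) ∈ K)).card : ℝ) := by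
  classical
  set P := K.image Prod.fst with hP
  set Z := K.image Prod.snd with hZ
  have h1 : K.card = ∑ ρ ∈ P, (Z.filter (fun z => (ρ, z) ∈ K)).card := by
    have hfib : K.card = ∑ ρ ∈ P, (K.filter (fun s => s.1 = ρ)).card :=
      Finset.card_eq_sum_card_image Prod.fst K
    rw [hfib]
    apply Finset.sum_congr rfl
    intro ρ _
    apply Finset.card_bij (fun s _ => s.2)
    · intro s hs
      rw [Finset.mem_filter] at hs ⊢
      refine ⟨Finset.mem_image_of_mem _ hs.1, ?_⟩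
      rw [← hs.2]; exact hs.1
    · intro s hs t ht hst
      rw [Finset.mem_filter] at hs ht
      exact Prod.ext (hs.2.trans ht.2.symm) hst
    · intro z hz
      rw [Finset.mem_filter] at hz
      exact ⟨(ρ, z), Finset.mem_filter.2 ⟨hz.2, rfl⟩, rfl⟩
  have h2 : ∑ zz ∈ Z ×ˢ Z, (P.filter (fun ρ => (ρ, zz.1) ∈ K ∧ (ρ, zz.2) ∈ K)).card =
      ∑ ρ ∈ P, (Z.filter (fun z => (ρ, z) ∈ K)).card ^ 2 := by
    simp_rw [Finset.card_filter]
    rw [Finset.sum_comm]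
    apply Finset.sum_congr rfl
    intro ρ _
    rw [sq, Finset.sum_mul_sum, Finset.sum_product]
    apply Finset.sum_congr rfl
    intro z₁ _
    apply Finset.sum_congr rfl
    intro z₂ _
    by_cases ha : (ρ, z₁) ∈ K <;> by_cases hb : (ρ, z₂) ∈ K <;> simp [ha, hb]
  have h3 := @sq_sum_le_card_mul_sum_sq ℕ ℝ _ _ _ _ P
    (fun ρ => ((Z.filter (fun z => (ρ, z) ∈ K)).card : ℝ))
  have h1' : (K.card : ℝ) = ∑ ρ ∈ P, ((Z.filter (fun z => (ρ, z) ∈ K)).card : ℝ) := by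
    exact_mod_cast h1
  have h2' : ∑ zz ∈ Z ×ˢ Z, ((P.filter (fun ρ => (ρ, zz.1) ∈ K ∧ (ρ, zz.2) ∈ K)).card : ℝ) =
      ∑ ρ ∈ P, ((Z.filter (fun z => (ρ, z) ∈ K)).card : ℝ) ^ 2 := by
    exact_mod_cast h2
  rw [h1', h2']
  exact h3

/-- Pairs with a large greatest common divisor. -/
lemma p4_gcd (Z : Finset ℕ) (b G : ℝ) (hG : 1 ≤ G) (hb : 0 ≤ b)
    (hZ : ∀ z ∈ Z, 0 < z ∧ (z : ℝ) ≤ b) :
    (((Z ×ˢ Z).filter (fun zz => G < (Nat.gcd zz.1 zz.2 : ℝ))).card : ℝ) ≤ 2 * b ^ 2 / G := by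
  classical
  set S := (Z ×ˢ Z).filter (fun zz => G < (Nat.gcd zz.1 zz.2 : ℝ)) with hS
  set m := ⌊G⌋₊ with hm
  have hm1 : 1 ≤ m := Nat.le_floor (by simpa using hG)
  have hm1' : (1 : ℝ) ≤ m := by exact_mod_cast hm1
  have hmG : (m : ℝ) ≤ G := Nat.floor_le (by linarith)
  have hGm : G < (m : ℝ) + 1 := Nat.lt_floor_add_one G
  have hmaps : ∀ zz ∈ S, Nat.gcd zz.1 zz.2 ∈ Finset.Ioc m ⌊b⌋₊ := by
    intro zz hzz
    rw [hS, Finset.mem_filter, Finset.mem_product] at hzz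
    rw [Finset.mem_Ioc]
    constructor
    · have : (m : ℝ) < (Nat.gcd zz.1 zz.2 : ℝ) := lt_of_le_of_lt hmG hzz.2
      exact_mod_cast this
    · apply Nat.le_floor
      have h1 : Nat.gcd zz.1 zz.2 ≤ zz.1 := Nat.gcd_le_left _ (hZ _ hzz.1.1).1
      have h2 : (Nat.gcd zz.1 zz.2 : ℝ) ≤ (zz.1 : ℝ) := by exact_mod_cast h1
      exact h2.trans (hZ _ hzz.1.1).2
  rw [Finset.card_eq_sum_card_fiberwise hmaps]
  push_cast
  have hfib : ∀ g ∈ Finset.Ioc m ⌊b⌋₊,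
      (((S.filter (fun zz => Nat.gcd zz.1 zz.2 = g)).card : ℕ) : ℝ) ≤ b ^ 2 * ((g : ℝ) ^ 2)⁻¹ := by
    intro g hg
    rw [Finset.mem_Ioc] at hg
    have hg0 : 0 < g := by omega
    have hg0' : (0 : ℝ) < g := by exact_mod_cast hg0
    set Mu := (Finset.Ioc 0 ⌊b⌋₊).filter (fun x => g ∣ x) with hMu
    have hsub : S.filter (fun zz => Nat.gcd zz.1 zz.2 = g) ⊆ Mu ×ˢ Mu := by
      intro zz hzz
      rw [Finset.mem_filter, hS, Finset.mem_filter, Finset.mem_product] at hzz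
      rw [Finset.mem_product, hMu, Finset.mem_filter, Finset.mem_filter, Finset.mem_Ioc,
        Finset.mem_Ioc]
      refine ⟨⟨⟨(hZ _ hzz.1.1.1).1, Nat.le_floor (hZ _ hzz.1.1.1).2⟩, ?_⟩,
        ⟨⟨(hZ _ hzz.1.1.2).1, Nat.le_floor (hZ _ hzz.1.1.2).2⟩, ?_⟩⟩
      · rw [← hzz.2]; exact Nat.gcd_dvd_left _ _
      · rw [← hzz.2]; exact Nat.gcd_dvd_right _ _
    have hc1 : (S.filter (fun zz => Nat.gcd zz.1 zz.2 = g)).card ≤ Mu.card * Mu.card := by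
      rw [← Finset.card_product]
      exact Finset.card_le_card hsub
    have hMuc : (Mu.card : ℝ) ≤ b / g := by
      rw [hMu, Nat.Ioc_filter_dvd_card_eq_div]
      calc ((⌊b⌋₊ / g : ℕ) : ℝ) ≤ (⌊b⌋₊ : ℝ) / g := Nat.cast_div_le
        _ ≤ b / g := by
          apply div_le_div_of_nonneg_right (Nat.floor_le hb) hg0'.le
    calc (((S.filter (fun zz => Nat.gcd zz.1 zz.2 = g)).card : ℕ) : ℝ)
        ≤ (Mu.card : ℝ) * Mu.card := by exact_mod_cast hc1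
      _ ≤ (b / g) * (b / g) := mul_le_mul hMuc hMuc (by positivity) (by positivity)
      _ = b ^ 2 * ((g : ℝ) ^ 2)⁻¹ := by field_simp
  refine (Finset.sum_le_sum hfib).trans ?_
  rw [← Finset.mul_sum]
  have hsum : ∑ g ∈ Finset.Ioc m ⌊b⌋₊, ((g : ℝ) ^ 2)⁻¹ ≤ (m : ℝ)⁻¹ := by
    rcases le_or_gt m ⌊b⌋₊ with h | h
    · have := @sum_Ioc_inv_sq_le_sub ℝ _ _ _ m ⌊b⌋₊ (by omega) h
      have h0 : (0 : ℝ) ≤ ((⌊b⌋₊ : ℕ) : ℝ)⁻¹ := by positivity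
      linarith
    · rw [Finset.Ioc_eq_empty (by omega)]
      simp
  have hmi : (m : ℝ)⁻¹ ≤ 2 / G := by
    rw [inv_eq_one_div, div_le_div_iff₀ (by linarith) (by linarith)]
    linarith
  calc b ^ 2 * ∑ g ∈ Finset.Ioc m ⌊b⌋₊, ((g : ℝ) ^ 2)⁻¹ ≤ b ^ 2 * (2 / G) :=
        mul_le_mul_of_nonneg_left (hsum.trans hmi) (by positivity)
    _ = 2 * b ^ 2 / G := by ring

/-- The popular reduced fraction. -/
lemma p4_pop {w e : ℕ} {κ V : ℝ} (hK : Kap w κ) (hw : 2 ≤ w) (he : 1 ≤ e) (he8 : e ≤ 8)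
    (hV1 : 1 ≤ V) (hVw : V ≤ w) (X X' : ℕ) (hX : Nat.Coprime X w) (hX' : Nat.Coprime X' w)
    (D : Finset ℕ) (hD : D.Nonempty) (A A' : ℕ → ℕ)
    (h : ∀ ρ ∈ D, 0 < A ρ ∧ 0 < A' ρ ∧ (A ρ : ℝ) ≤ V ∧ (A' ρ : ℝ) ≤ V ∧ Nat.Coprime (A ρ) w ∧
      Nat.Coprime (A' ρ) w ∧ A ρ ^ e * X ≡ A' ρ ^ e * X' [MOD w ^ 3]) :
    ∃ v : ℕ × ℕ, 0 < v.1 ∧ 0 < v.2 ∧ Nat.Coprime v.1 w ∧ Nat.Coprime v.2 w ∧
      v.1 ^ e * X ≡ v.2 ^ e * X' [MOD w ^ 3] ∧
      (D.card : ℝ) / (2 * κ) ≤ ((D.filter (fun ρ => A ρ = v.1 * Nat.gcd (A ρ) (A' ρ) ∧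
        A' ρ = v.2 * Nat.gcd (A ρ) (A' ρ))).card : ℝ) := by
  classical
  set F : ℕ → ℕ × ℕ := fun ρ => (A ρ / Nat.gcd (A ρ) (A' ρ), A' ρ / Nat.gcd (A ρ) (A' ρ)) with hF
  have hκ := hK.one
  have hprop : ∀ ρ ∈ D, 0 < (F ρ).1 ∧ 0 < (F ρ).2 ∧ ((F ρ).1 : ℝ) ≤ V ∧ ((F ρ).2 : ℝ) ≤ V ∧
      Nat.Coprime (F ρ).1 (F ρ).2 ∧ Nat.Coprime (F ρ).1 w ∧ Nat.Coprime (F ρ).2 w ∧
      (F ρ).1 ^ e * X ≡ (F ρ).2 ^ e * X' [MOD w ^ 3] := by
    intro ρ hρ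
    obtain ⟨h1, h2, h3, h4, h5, h6, h7⟩ := h ρ hρ
    have hg : 0 < Nat.gcd (A ρ) (A' ρ) := Nat.gcd_pos_of_pos_left _ h1
    have hd1 : (F ρ).1 ∣ A ρ := Nat.div_dvd_of_dvd (Nat.gcd_dvd_left _ _)
    have hd2 : (F ρ).2 ∣ A' ρ := Nat.div_dvd_of_dvd (Nat.gcd_dvd_right _ _)
    refine ⟨Nat.pos_of_dvd_of_pos hd1 h1, Nat.pos_of_dvd_of_pos hd2 h2, ?_, ?_, ?_, ?_, ?_, ?_⟩
    · have : ((F ρ).1 : ℝ) ≤ (A ρ : ℝ) := by exact_mod_cast Nat.le_of_dvd h1 hd1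
      linarith
    · have : ((F ρ).2 : ℝ) ≤ (A' ρ : ℝ) := by exact_mod_cast Nat.le_of_dvd h2 hd2
      linarith
    · exact Nat.coprime_div_gcd_div_gcd hg
    · exact Nat.Coprime.coprime_dvd_left hd1 h5
    · exact Nat.Coprime.coprime_dvd_left hd2 h6
    · exact p4_red h5 h7
  obtain ⟨c, hc, hXc⟩ := p4_solve hw hX hX'
  have himg : (((D.image F).card : ℕ) : ℝ) ≤ 2 * κ := by
    apply p4_dir hK hw he he8 hc hV1 hVw
    intro s hs
    obtain ⟨ρ, hρ, rfl⟩ := Finset.mem_image.1 hs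
    obtain ⟨h1, h2, h3, h4, h5, h6, h7, h8⟩ := hprop ρ hρ
    refine ⟨h1, h2, h3, h4, h5, h6, h7, ?_⟩
    apply p4_cancel hX
    have e1 : X * (F ρ).1 ^ e ≡ (F ρ).2 ^ e * X' [MOD w ^ 3] := by
      rw [mul_comm]; exact h8
    have e2 : (F ρ).2 ^ e * X' ≡ (F ρ).2 ^ e * (X * c) [MOD w ^ 3] := (hXc.symm).mul_left _
    have e3 : (F ρ).2 ^ e * (X * c) = X * (c * (F ρ).2 ^ e) := by ring
    rw [← e3]
    exact e1.trans e2
  have hne : (D.image F).Nonempty := hD.image F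
  have hsum : ∑ v ∈ D.image F, (D.card : ℝ) / (2 * κ) ≤
      ∑ v ∈ D.image F, (((D.filter (fun ρ => F ρ = v)).card : ℕ) : ℝ) := by
    rw [Finset.sum_const, nsmul_eq_mul]
    have h1 : (D.card : ℝ) = ∑ v ∈ D.image F, (((D.filter (fun ρ => F ρ = v)).card : ℕ) : ℝ) := by
      exact_mod_cast Finset.card_eq_sum_card_image F D
    rw [← h1]
    have h2 : (0 : ℝ) ≤ (D.card : ℝ) / (2 * κ) := by positivity
    calc (((D.image F).card : ℕ) : ℝ) * ((D.card : ℝ) / (2 * κ))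
        ≤ (2 * κ) * ((D.card : ℝ) / (2 * κ)) := mul_le_mul_of_nonneg_right himg h2
      _ = D.card := by field_simp
  obtain ⟨v, hv, hle⟩ := Finset.exists_le_of_sum_le hne hsum
  obtain ⟨ρ, hρ, rfl⟩ := Finset.mem_image.1 hv
  obtain ⟨h1, h2, h3, h4, h5, h6, h7, h8⟩ := hprop ρ hρ
  refine ⟨F ρ, h1, h2, h6, h7, h8, hle.trans ?_⟩
  have hsub : D.filter (fun ρ' => F ρ' = F ρ) ⊆ D.filter (fun ρ' =>
      A ρ' = (F ρ).1 * Nat.gcd (A ρ') (A' ρ') ∧ A' ρ' = (F ρ).2 * Nat.gcd (A ρ') (A' ρ')) := by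
    intro ρ' hρ'
    rw [Finset.mem_filter] at hρ' ⊢
    refine ⟨hρ'.1, ?_, ?_⟩
    · rw [← hρ'.2]; exact (Nat.div_mul_cancel (Nat.gcd_dvd_left _ _)).symm
    · rw [← hρ'.2]; exact (Nat.div_mul_cancel (Nat.gcd_dvd_right _ _)).symm
  exact_mod_cast Finset.card_le_card hsub

/-- Few pairs for a given reduced fraction. -/
lemma p4_fib {w e f : ℕ} {κ b G : ℝ} (hK : Kap w κ) (hw : 2 ≤ w) (hf : 1 ≤ f) (hf8 : f ≤ 8)
    (hb1 : 1 ≤ b) (hbw : b ≤ w) (hG : 0 ≤ G) (v : ℕ × ℕ) (hv1 : Nat.Coprime v.1 w)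
    (hv2 : Nat.Coprime v.2 w) (S : Finset (ℕ × ℕ))
    (hS : ∀ s ∈ S, 0 < s.1 ∧ 0 < s.2 ∧ (s.1 : ℝ) ≤ b ∧ (s.2 : ℝ) ≤ b ∧ Nat.Coprime s.1 w ∧
      Nat.Coprime s.2 w ∧ (Nat.gcd s.1 s.2 : ℝ) ≤ G ∧
      v.1 ^ e * s.1 ^ f ≡ v.2 ^ e * s.2 ^ f [MOD w ^ 3]) :
    (S.card : ℝ) ≤ 2 * κ * G := by
  classical
  set F : ℕ × ℕ → ℕ × ℕ := fun s => (s.1 / Nat.gcd s.1 s.2, s.2 / Nat.gcd s.1 s.2) with hF
  have hκ := hK.one
  obtain ⟨c, hc, hXc⟩ := p4_solve hw (hv1.pow_left e) (hv2.pow_left e)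
  have himg : (((S.image F).card : ℕ) : ℝ) ≤ 2 * κ := by
    apply p4_dir hK hw hf hf8 hc hb1 hbw
    intro s hs
    obtain ⟨t, ht, rfl⟩ := Finset.mem_image.1 hs
    obtain ⟨h1, h2, h3, h4, h5, h6, h7, h8⟩ := hS t ht
    have hg : 0 < Nat.gcd t.1 t.2 := Nat.gcd_pos_of_pos_left _ h1
    have hd1 : (F t).1 ∣ t.1 := Nat.div_dvd_of_dvd (Nat.gcd_dvd_left _ _)
    have hd2 : (F t).2 ∣ t.2 := Nat.div_dvd_of_dvd (Nat.gcd_dvd_right _ _)
    refine ⟨Nat.pos_of_dvd_of_pos hd1 h1, Nat.pos_of_dvd_of_pos hd2 h2, ?_, ?_, ?_, ?_, ?_, ?_⟩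
    · have : ((F t).1 : ℝ) ≤ (t.1 : ℝ) := by exact_mod_cast Nat.le_of_dvd h1 hd1
      linarith
    · have : ((F t).2 : ℝ) ≤ (t.2 : ℝ) := by exact_mod_cast Nat.le_of_dvd h2 hd2
      linarith
    · exact Nat.coprime_div_gcd_div_gcd hg
    · exact Nat.Coprime.coprime_dvd_left hd1 h5
    · exact Nat.Coprime.coprime_dvd_left hd2 h6
    · have h9 : t.1 ^ f * v.1 ^ e ≡ t.2 ^ f * v.2 ^ e [MOD w ^ 3] := by
        rw [mul_comm (t.1 ^ f), mul_comm (t.2 ^ f)]; exact h8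
      have h10 := p4_red h5 h9
      apply p4_cancel (hv1.pow_left e)
      have e1 : v.1 ^ e * (F t).1 ^ f ≡ (F t).2 ^ f * v.2 ^ e [MOD w ^ 3] := by
        rw [mul_comm]; exact h10
      have e2 : (F t).2 ^ f * v.2 ^ e ≡ (F t).2 ^ f * (v.1 ^ e * c) [MOD w ^ 3] :=
        (hXc.symm).mul_left _
      have e3 : (F t).2 ^ f * (v.1 ^ e * c) = v.1 ^ e * (c * (F t).2 ^ f) := by ring
      rw [← e3]
      exact e1.trans e2
  have hinj : S.card ≤ ((Finset.Icc 1 ⌊G⌋₊) ×ˢ (S.image F)).card := by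
    apply Finset.card_le_card_of_injOn (fun s => (Nat.gcd s.1 s.2, F s))
    · intro s hs
      obtain ⟨h1, h2, h3, h4, h5, h6, h7, h8⟩ := hS s hs
      rw [Finset.mem_coe, Finset.mem_product, Finset.mem_Icc]
      exact ⟨⟨Nat.gcd_pos_of_pos_left _ h1, Nat.le_floor h7⟩, Finset.mem_image_of_mem _ hs⟩
    · intro s hs t ht hst
      have e1 : Nat.gcd s.1 s.2 = Nat.gcd t.1 t.2 := congrArg Prod.fst hst
      have e2 : F s = F t := congrArg Prod.snd hst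
      have e3 : s.1 / Nat.gcd s.1 s.2 = t.1 / Nat.gcd t.1 t.2 := congrArg Prod.fst e2
      have e4 : s.2 / Nat.gcd s.1 s.2 = t.2 / Nat.gcd t.1 t.2 := congrArg Prod.snd e2
      have f1 := Nat.div_mul_cancel (Nat.gcd_dvd_left s.1 s.2)
      have f2 := Nat.div_mul_cancel (Nat.gcd_dvd_right s.1 s.2)
      have f3 := Nat.div_mul_cancel (Nat.gcd_dvd_left t.1 t.2)
      have f4 := Nat.div_mul_cancel (Nat.gcd_dvd_right t.1 t.2)
      apply Prod.ext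
      · rw [← f1, ← f3, e3, e1]
      · rw [← f2, ← f4, e4, e1]
  rw [Finset.card_product, Nat.card_Icc, Nat.add_sub_cancel] at hinj
  have h1 : (S.card : ℝ) ≤ (⌊G⌋₊ : ℝ) * ((S.image F).card : ℝ) := by exact_mod_cast hinj
  have h2 : (⌊G⌋₊ : ℝ) ≤ G := Nat.floor_le hG
  calc (S.card : ℝ) ≤ (⌊G⌋₊ : ℝ) * ((S.image F).card : ℝ) := h1
    _ ≤ G * (2 * κ) := mul_le_mul h2 himg (by positivity) hG
    _ = 2 * κ * G := by ring

lemma p4_size {a H V b B κ Λ : ℝ} (ha : 0 ≤ a) (hb : 0 < b) (hB : 0 < B) (hκ : 1 ≤ κ)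
    (hΛ : 10 * κ ≤ Λ) (haH : a * H ≤ V) (hH : 0 ≤ H) (hbH : b ^ 2 ≤ 64 * κ * Λ ^ 4 * H ^ 2)
    (hV : V ≤ Λ * B * b) : a ≤ B * Λ ^ 4 := by
  have hΛ0 : 0 < Λ := by linarith
  have h1 : (a * H) ^ 2 ≤ (Λ * B * b) ^ 2 :=
    pow_le_pow_left₀ (by positivity) (haH.trans hV) 2
  have h2 : 64 * κ ≤ Λ ^ 2 := by nlinarith
  have h3 : a ^ 2 * b ^ 2 ≤ (B * Λ ^ 4) ^ 2 * b ^ 2 := by
    calc a ^ 2 * b ^ 2 ≤ a ^ 2 * (64 * κ * Λ ^ 4 * H ^ 2) :=
          mul_le_mul_of_nonneg_left hbH (by positivity)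
      _ = 64 * κ * Λ ^ 4 * (a * H) ^ 2 := by ring
      _ ≤ 64 * κ * Λ ^ 4 * (Λ * B * b) ^ 2 := mul_le_mul_of_nonneg_left h1 (by positivity)
      _ = (64 * κ) * (Λ ^ 6 * B ^ 2 * b ^ 2) := by ring
      _ ≤ Λ ^ 2 * (Λ ^ 6 * B ^ 2 * b ^ 2) := mul_le_mul_of_nonneg_right h2 (by positivity)
      _ = (B * Λ ^ 4) ^ 2 * b ^ 2 := by ring
  have h4 : a ^ 2 ≤ (B * Λ ^ 4) ^ 2 := le_of_mul_le_mul_right h3 (by positivity)
  exact (pow_le_pow_iff_left₀ ha (by positivity) (by norm_num)).1 h4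

/-- The final step for one column. -/
lemma p4_fin (neg : Bool) {e f w κ₁ z h : ℕ} (hw : 2 ≤ w) (hκ₁ : Nat.Coprime κ₁ w)
    (hz : Nat.Coprime z w) (hh : Nat.Coprime h w) :
    ∃ κ₂ : ℕ, Nat.Coprime κ₂ w ∧ ∀ ρ a u : ℕ, u = h * a →
      (if neg then u ^ e * ρ ^ f ≡ κ₁ * z ^ f [MOD w ^ 3]
        else u ^ e * z ^ f ≡ κ₁ * ρ ^ f [MOD w ^ 3]) → Rel neg e f κ₂ w a ρ := by
  cases neg with
  | false =>
    obtain ⟨d, hd, hdd⟩ := p4_solve hw (Nat.Coprime.mul_left (hh.pow_left e) (hz.pow_left f)) hκ₁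
    refine ⟨d, hd, ?_⟩
    intro ρ a u hu hr
    simp only [Bool.false_eq_true, if_false] at hr
    unfold Rel
    simp only [Bool.false_eq_true, if_false]
    apply p4_cancel (Nat.Coprime.mul_left (hh.pow_left e) (hz.pow_left f))
    have e1 : h ^ e * z ^ f * a ^ e = u ^ e * z ^ f := by rw [hu]; ring
    have e2 : h ^ e * z ^ f * (d * ρ ^ f) = (h ^ e * z ^ f * d) * ρ ^ f := by ring
    rw [e1, e2]
    exact hr.trans (hdd.symm.mul_right _)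
  | true =>
    obtain ⟨d, hd, hdd⟩ := p4_solve hw (hh.pow_left e)
      (Nat.Coprime.mul_left hκ₁ (hz.pow_left f))
    refine ⟨d, hd, ?_⟩
    intro ρ a u hu hr
    simp only [if_true] at hr
    unfold Rel
    simp only [if_true]
    apply p4_cancel (hh.pow_left e)
    have e1 : h ^ e * (a ^ e * ρ ^ f) = u ^ e * ρ ^ f := by rw [hu]; ring
    rw [e1]
    exact hr.trans hdd.symm

theorem p4_thm : P4Stmt := by
  classical
  intro neg e f w κ₁ κ V B b Λ K U he he8 hf hf8 hw hK hΛ hV1 hVw hB1 hBw hb1 hbw hκ₁ hK1 hK2 hS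
  have hκ1 := hK.one
  have hΛ10 : 10 ≤ Λ := by linarith
  have hΛ0 : 0 < Λ := by linarith
  set Z := K.image Prod.snd with hZ
  set P := K.image Prod.fst with hP
  set Dd : ℕ × ℕ → Finset ℕ := fun zz => P.filter (fun ρ => (ρ, zz.1) ∈ K ∧ (ρ, zz.2) ∈ K)
    with hDd
  have hPB : (P.card : ℝ) ≤ B := by
    have h1 : P ⊆ Finset.Icc 1 ⌊B⌋₊ := by
      intro ρ hρ
      obtain ⟨s, hs, rfl⟩ := Finset.mem_image.1 hρ
      have := hS s hs
      exact Finset.mem_Icc.2 ⟨this.1, Nat.le_floor this.2.1⟩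
    have h2 := Finset.card_le_card h1
    rw [Nat.card_Icc, Nat.add_sub_cancel] at h2
    have h3 : (P.card : ℝ) ≤ (⌊B⌋₊ : ℝ) := by exact_mod_cast h2
    exact h3.trans (Nat.floor_le (by linarith))
  have hZmem : ∀ z ∈ Z, 0 < z ∧ (z : ℝ) ≤ b ∧ Nat.Coprime z w := by
    intro z hz
    obtain ⟨s, hs, rfl⟩ := Finset.mem_image.1 hz
    have := hS s hs
    exact ⟨this.2.2.1, this.2.2.2.1, this.2.2.2.2.2.1⟩
  have hZb : (Z.card : ℝ) ≤ b := by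
    have h1 : Z ⊆ Finset.Icc 1 ⌊b⌋₊ := by
      intro z hz
      exact Finset.mem_Icc.2 ⟨(hZmem z hz).1, Nat.le_floor (hZmem z hz).2.1⟩
    have h2 := Finset.card_le_card h1
    rw [Nat.card_Icc, Nat.add_sub_cancel] at h2
    have h3 : (Z.card : ℝ) ≤ (⌊b⌋₊ : ℝ) := by exact_mod_cast h2
    exact h3.trans (Nat.floor_le (by linarith))
  have hsum : B * b ^ 2 / Λ ^ 2 ≤ ∑ zz ∈ Z ×ˢ Z, ((Dd zz).card : ℝ) := by
    have h1 := p4_cs K
    rw [← hP, ← hZ] at h1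
    have h2 : (B * b / Λ) ^ 2 ≤ (K.card : ℝ) ^ 2 := pow_le_pow_left₀ (by positivity) hK1 2
    have h0 : 0 ≤ ∑ zz ∈ Z ×ˢ Z, ((Dd zz).card : ℝ) := Finset.sum_nonneg (fun _ _ => by positivity)
    have h3 : (B * b / Λ) ^ 2 ≤ B * ∑ zz ∈ Z ×ˢ Z, ((Dd zz).card : ℝ) :=
      (h2.trans h1).trans (mul_le_mul_of_nonneg_right hPB h0)
    have h4 : B * (B * b ^ 2 / Λ ^ 2) ≤ B * ∑ zz ∈ Z ×ˢ Z, ((Dd zz).card : ℝ) := by
      calc B * (B * b ^ 2 / Λ ^ 2) = (B * b / Λ) ^ 2 := by ring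
        _ ≤ _ := h3
    exact le_of_mul_le_mul_left h4 (by linarith)
  set Good := (Z ×ˢ Z).filter (fun zz => B / (2 * Λ ^ 2) ≤ ((Dd zz).card : ℝ) ∧
    (Nat.gcd zz.1 zz.2 : ℝ) ≤ 8 * Λ ^ 2) with hGooddef
  set Big := (Z ×ˢ Z).filter (fun zz => 8 * Λ ^ 2 < (Nat.gcd zz.1 zz.2 : ℝ)) with hBigdef
  have hDdB : ∀ zz, ((Dd zz).card : ℝ) ≤ B := by
    intro zz
    have h1 : ((Dd zz).card : ℝ) ≤ (P.card : ℝ) := by
      exact_mod_cast Finset.card_le_card (Finset.filter_subset _ _)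
    exact h1.trans hPB
  have hBig : (Big.card : ℝ) ≤ b ^ 2 / (4 * Λ ^ 2) := by
    have h1 := p4_gcd Z b (8 * Λ ^ 2) (by nlinarith) (by linarith)
      (fun z hz => ⟨(hZmem z hz).1, (hZmem z hz).2.1⟩)
    calc (Big.card : ℝ) ≤ 2 * b ^ 2 / (8 * Λ ^ 2) := h1
      _ = b ^ 2 / (4 * Λ ^ 2) := by field_simp; ring
  have hGood : b ^ 2 / (4 * Λ ^ 2) ≤ (Good.card : ℝ) := by
    have h1 : ∑ zz ∈ Z ×ˢ Z, ((Dd zz).card : ℝ) ≤ ∑ zz ∈ Z ×ˢ Z,
        ((if B / (2 * Λ ^ 2) ≤ ((Dd zz).card : ℝ) ∧ (Nat.gcd zz.1 zz.2 : ℝ) ≤ 8 * Λ ^ 2 then B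
          else 0) + B / (2 * Λ ^ 2) + (if 8 * Λ ^ 2 < (Nat.gcd zz.1 zz.2 : ℝ) then B else 0)) := by
      apply Finset.sum_le_sum
      intro zz _
      have hp : (0 : ℝ) ≤ B / (2 * Λ ^ 2) := by positivity
      have hd := hDdB zz
      by_cases hg : 8 * Λ ^ 2 < (Nat.gcd zz.1 zz.2 : ℝ)
      · have hn : ¬ (B / (2 * Λ ^ 2) ≤ ((Dd zz).card : ℝ) ∧
            (Nat.gcd zz.1 zz.2 : ℝ) ≤ 8 * Λ ^ 2) := fun h => absurd h.2 (not_le.2 hg)
        rw [if_neg hn, if_pos hg]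
        linarith
      · rw [if_neg hg]
        by_cases hc : B / (2 * Λ ^ 2) ≤ ((Dd zz).card : ℝ)
        · rw [if_pos ⟨hc, not_lt.1 hg⟩]
          linarith
        · rw [if_neg (fun h => hc h.1)]
          linarith
    rw [Finset.sum_add_distrib, Finset.sum_add_distrib, ← Finset.sum_filter,
      ← Finset.sum_filter, Finset.sum_const, Finset.sum_const, Finset.sum_const, nsmul_eq_mul,
      nsmul_eq_mul, nsmul_eq_mul, Finset.card_product] at h1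
    rw [← hGooddef, ← hBigdef] at h1
    push_cast at h1
    have h2 : (Z.card : ℝ) * Z.card * (B / (2 * Λ ^ 2)) ≤ b * b * (B / (2 * Λ ^ 2)) := by
      apply mul_le_mul_of_nonneg_right _ (by positivity)
      exact mul_le_mul hZb hZb (by positivity) (by linarith)
    have h3 : (Big.card : ℝ) * B ≤ b ^ 2 / (4 * Λ ^ 2) * B :=
      mul_le_mul_of_nonneg_right hBig (by linarith)
    have h4 : B * b ^ 2 / Λ ^ 2 ≤ (Good.card : ℝ) * B + b * b * (B / (2 * Λ ^ 2)) +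
        b ^ 2 / (4 * Λ ^ 2) * B := by linarith
    have h5 : b ^ 2 / (4 * Λ ^ 2) * B ≤ (Good.card : ℝ) * B := by
      have e1 : B * b ^ 2 / Λ ^ 2 = 4 * (b ^ 2 / (4 * Λ ^ 2) * B) := by field_simp
      have e2 : b * b * (B / (2 * Λ ^ 2)) = 2 * (b ^ 2 / (4 * Λ ^ 2) * B) := by field_simp; ring
      rw [e1, e2] at h4
      linarith
    exact le_of_mul_le_mul_right h5 (by linarith)
  -- the pair `px`
  set px : ℕ × ℕ → ℕ × ℕ := fun zz => if neg then (zz.2, zz.1) else (zz.1, zz.2) with hpx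
  have hrel : ∀ zz : ℕ × ℕ, ∀ ρ ∈ Dd zz, U (ρ, zz.1) ^ e * (px zz).1 ^ f ≡
      U (ρ, zz.2) ^ e * (px zz).2 ^ f [MOD w ^ 3] := by
    intro zz ρ hρ
    rw [hDd, Finset.mem_filter] at hρ
    have h1 := hS _ hρ.2.1
    have h2 := hS _ hρ.2.2
    obtain ⟨_, _, _, _, hρw, _, _, _, _, r1⟩ := h1
    obtain ⟨_, _, _, _, _, _, _, _, _, r2⟩ := h2
    cases neg with
    | false =>
      simp only [Bool.false_eq_true, if_false] at r1 r2
      simp only [hpx, Bool.false_eq_true, if_false]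
      exact r1.trans r2.symm
    | true =>
      simp only [if_true] at r1 r2
      simp only [hpx, if_true]
      apply p4_cancel (Nat.Coprime.mul_left hκ₁ (hρw.pow_left f))
      have h3 := r1.mul r2.symm
      have e1 : κ₁ * ρ ^ f * (U (ρ, zz.1) ^ e * zz.2 ^ f) =
          U (ρ, zz.1) ^ e * ρ ^ f * (κ₁ * zz.2 ^ f) := by ring
      have e2 : κ₁ * ρ ^ f * (U (ρ, zz.2) ^ e * zz.1 ^ f) =
          κ₁ * zz.1 ^ f * (U (ρ, zz.2) ^ e * ρ ^ f) := by ring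
      rw [e1, e2]
      exact h3
  have hpxw : ∀ zz ∈ Z ×ˢ Z, Nat.Coprime (px zz).1 w ∧ Nat.Coprime (px zz).2 w := by
    intro zz hzz
    rw [Finset.mem_product] at hzz
    have h1 := (hZmem _ hzz.1).2.2
    have h2 := (hZmem _ hzz.2).2.2
    cases neg with
    | false => simp only [hpx, Bool.false_eq_true, if_false]; exact ⟨h1, h2⟩
    | true => simp only [hpx, if_true]; exact ⟨h2, h1⟩
  have hpop : ∀ zz : ℕ × ℕ, ∃ v : ℕ × ℕ, zz ∈ Good → 0 < v.1 ∧ 0 < v.2 ∧ Nat.Coprime v.1 w ∧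
      Nat.Coprime v.2 w ∧ v.1 ^ e * (px zz).1 ^ f ≡ v.2 ^ e * (px zz).2 ^ f [MOD w ^ 3] ∧
      ((Dd zz).card : ℝ) / (2 * κ) ≤ (((Dd zz).filter (fun ρ =>
        U (ρ, zz.1) = v.1 * Nat.gcd (U (ρ, zz.1)) (U (ρ, zz.2)) ∧
        U (ρ, zz.2) = v.2 * Nat.gcd (U (ρ, zz.1)) (U (ρ, zz.2)))).card : ℝ) := by
    intro zz
    by_cases hzz : zz ∈ Good
    · have hzz' := Finset.mem_filter.1 hzz
      have hpw := hpxw zz hzz'.1
      have hne : (Dd zz).Nonempty := by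
        rw [← Finset.card_pos]
        have h1 : (0 : ℝ) < B / (2 * Λ ^ 2) := by positivity
        have h2 : (0 : ℝ) < ((Dd zz).card : ℝ) := lt_of_lt_of_le h1 hzz'.2.1
        exact_mod_cast h2
      obtain ⟨v, hv⟩ := p4_pop hK hw he he8 hV1 hVw ((px zz).1 ^ f) ((px zz).2 ^ f)
        (hpw.1.pow_left f) (hpw.2.pow_left f) (Dd zz) hne (fun ρ => U (ρ, zz.1))
        (fun ρ => U (ρ, zz.2)) (by
          intro ρ hρ
          have hρ' := hρ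
          rw [hDd, Finset.mem_filter] at hρ'
          obtain ⟨_, _, _, _, _, _, a1, a2, a3, _⟩ := hS _ hρ'.2.1
          obtain ⟨_, _, _, _, _, _, b1, b2, b3, _⟩ := hS _ hρ'.2.2
          exact ⟨a1, b1, a2, b2, a3, b3, hrel zz ρ hρ⟩)
      exact ⟨v, fun _ => hv⟩
    · exact ⟨(1, 1), fun h => absurd h hzz⟩
  choose ev hev using hpop
  set E := Good.image ev with hE
  have hGne : Good.Nonempty := by
    rw [← Finset.card_pos]
    have h1 : (0 : ℝ) < b ^ 2 / (4 * Λ ^ 2) := by positivity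
    have h2 : (0 : ℝ) < (Good.card : ℝ) := lt_of_lt_of_le h1 hGood
    exact_mod_cast h2
  have hEne : E.Nonempty := hGne.image ev
  have hfib : ∀ v ∈ E, (((Good.filter (fun zz => ev zz = v)).card : ℕ) : ℝ) ≤
      2 * κ * (8 * Λ ^ 2) := by
    intro v hv
    obtain ⟨z₀, hz₀, rfl⟩ := Finset.mem_image.1 hv
    obtain ⟨_, _, c1, c2, _, _⟩ := hev z₀ hz₀
    have h1 : (Good.filter (fun zz => ev zz = ev z₀)).card =
        ((Good.filter (fun zz => ev zz = ev z₀)).image px).card := by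
      rw [Finset.card_image_of_injOn]
      intro s _ t _ hst
      cases neg with
      | false =>
        simp only [hpx, Bool.false_eq_true, if_false] at hst
        exact hst
      | true =>
        simp only [hpx, if_true, Prod.mk.injEq] at hst
        exact Prod.ext hst.2 hst.1
    rw [h1]
    apply p4_fib (e := e) (f := f) hK hw hf hf8 hb1 hbw (by positivity) (ev z₀) c1 c2
    intro s hs
    obtain ⟨zz, hzz, rfl⟩ := Finset.mem_image.1 hs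
    rw [Finset.mem_filter] at hzz
    have hg := Finset.mem_filter.1 hzz.1
    have hg1 := Finset.mem_product.1 hg.1
    have m1 := hZmem _ hg1.1
    have m2 := hZmem _ hg1.2
    have hev' := (hev zz hzz.1).2.2.2.2.1
    rw [hzz.2] at hev'
    have hgcd : (Nat.gcd (px zz).1 (px zz).2 : ℝ) ≤ 8 * Λ ^ 2 := by
      cases neg with
      | false =>
        simp only [hpx, Bool.false_eq_true, if_false]
        exact hg.2.2
      | true =>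
        simp only [hpx, if_true]
        rw [Nat.gcd_comm]
        exact hg.2.2
    have hpos : 0 < (px zz).1 ∧ 0 < (px zz).2 ∧ ((px zz).1 : ℝ) ≤ b ∧ ((px zz).2 : ℝ) ≤ b := by
      cases neg with
      | false =>
        simp only [hpx, Bool.false_eq_true, if_false]
        exact ⟨m1.1, m2.1, m1.2.1, m2.2.1⟩
      | true =>
        simp only [hpx, if_true]
        exact ⟨m2.1, m1.1, m2.2.1, m1.2.1⟩
    exact ⟨hpos.1, hpos.2.1, hpos.2.2.1, hpos.2.2.2, (hpxw zz hg.1).1, (hpxw zz hg.1).2, hgcd,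
      hev'⟩
  obtain ⟨v, hvE, hvmax⟩ := Finset.exists_max_image E (fun v => max v.1 v.2) hEne
  set H := max v.1 v.2 with hH
  have hEH : (E.card : ℝ) ≤ (H : ℝ) ^ 2 := by
    have h1 : E ⊆ (Finset.Icc 1 H) ×ˢ (Finset.Icc 1 H) := by
      intro u hu
      have h2 := hvmax u hu
      obtain ⟨z₀, hz₀, rfl⟩ := Finset.mem_image.1 hu
      obtain ⟨p1, p2, _, _, _, _⟩ := hev z₀ hz₀
      rw [Finset.mem_product, Finset.mem_Icc, Finset.mem_Icc]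
      exact ⟨⟨p1, (le_max_left _ _).trans h2⟩, ⟨p2, (le_max_right _ _).trans h2⟩⟩
    have h2 := Finset.card_le_card h1
    rw [Finset.card_product, Nat.card_Icc, Nat.add_sub_cancel] at h2
    rw [sq]
    exact_mod_cast h2
  have hbH : b ^ 2 ≤ 64 * κ * Λ ^ 4 * (H : ℝ) ^ 2 := by
    have h1 : (Good.card : ℝ) ≤ (E.card : ℝ) * (2 * κ * (8 * Λ ^ 2)) := by
      have h2 : (Good.card : ℝ) = ∑ v ∈ E, (((Good.filter (fun zz => ev zz = v)).card : ℕ) : ℝ) := by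
        exact_mod_cast Finset.card_eq_sum_card_image ev Good
      rw [h2, ← nsmul_eq_mul, ← Finset.sum_const]
      exact Finset.sum_le_sum hfib
    have h3 : b ^ 2 / (4 * Λ ^ 2) ≤ (H : ℝ) ^ 2 * (2 * κ * (8 * Λ ^ 2)) :=
      (hGood.trans h1).trans (mul_le_mul_of_nonneg_right hEH (by positivity))
    rw [div_le_iff₀ (by positivity)] at h3
    calc b ^ 2 ≤ (H : ℝ) ^ 2 * (2 * κ * (8 * Λ ^ 2)) * (4 * Λ ^ 2) := h3
      _ = 64 * κ * Λ ^ 4 * (H : ℝ) ^ 2 := by ring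
  obtain ⟨zz, hzz, hvz⟩ := Finset.mem_image.1 hvE
  obtain ⟨v1, v2, v3, v4, v5, v6⟩ := hev zz hzz
  rw [hvz] at v1 v2 v3 v4 v5 v6
  have hzz' := Finset.mem_filter.1 hzz
  have hzz1 := Finset.mem_product.1 hzz'.1
  set Dp := (Dd zz).filter (fun ρ =>
        U (ρ, zz.1) = v.1 * Nat.gcd (U (ρ, zz.1)) (U (ρ, zz.2)) ∧
        U (ρ, zz.2) = v.2 * Nat.gcd (U (ρ, zz.1)) (U (ρ, zz.2))) with hDp
  have hDpc : B / Λ ^ 3 ≤ (Dp.card : ℝ) := by
    refine le_trans ?_ v6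
    have h1 : B / (2 * Λ ^ 2) / (2 * κ) ≤ ((Dd zz).card : ℝ) / (2 * κ) :=
      div_le_div_of_nonneg_right hzz'.2.1 (by positivity)
    refine le_trans ?_ h1
    rw [div_div]
    apply div_le_div_of_nonneg_left (by linarith) (by positivity)
    have : 2 * Λ ^ 2 * (2 * κ) = Λ ^ 2 * (4 * κ) := by ring
    rw [this]
    calc Λ ^ 2 * (4 * κ) ≤ Λ ^ 2 * Λ := mul_le_mul_of_nonneg_left (by linarith) (by positivity)
      _ = Λ ^ 3 := by ring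
  have hVB : V ≤ Λ * B * b := by
    have h1 : (K.card : ℝ) ≤ B * b := by
      have h2 : K ⊆ P ×ˢ Z := by
        intro s hs
        exact Finset.mem_product.2 ⟨Finset.mem_image_of_mem _ hs, Finset.mem_image_of_mem _ hs⟩
      have h3 := Finset.card_le_card h2
      rw [Finset.card_product] at h3
      have h4 : (K.card : ℝ) ≤ (P.card : ℝ) * Z.card := by exact_mod_cast h3
      exact h4.trans (mul_le_mul hPB hZb (Nat.cast_nonneg _) (by linarith))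
    have h5 := hK2.trans h1
    rw [div_le_iff₀ hΛ0] at h5
    linarith
  -- the two cases
  have hcol : ∀ z h : ℕ, z ∈ Z → Nat.Coprime h w → (H : ℝ) = h →
      (∀ ρ ∈ Dp, (ρ, z) ∈ K ∧ U (ρ, z) = h * Nat.gcd (U (ρ, zz.1)) (U (ρ, zz.2))) →
      ∃ (κ₂ : ℕ) (D : Finset ℕ) (a : ℕ → ℕ), Nat.Coprime κ₂ w ∧ B / Λ ^ 3 ≤ (D.card : ℝ) ∧
    ∀ ρ ∈ D, 0 < ρ ∧ (ρ : ℝ) ≤ B ∧ Nat.Coprime ρ w ∧ 0 < a ρ ∧ (a ρ : ℝ) ≤ B * Λ ^ 4 ∧
      Nat.Coprime (a ρ) w ∧ Rel neg e f κ₂ w (a ρ) ρ := by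
    intro z h hz hh hHh hρ
    obtain ⟨κ₂, hκ₂, hfin⟩ := p4_fin (e := e) (f := f) neg hw hκ₁ (hZmem z hz).2.2 hh
    refine ⟨κ₂, Dp, fun ρ => Nat.gcd (U (ρ, zz.1)) (U (ρ, zz.2)), hκ₂, hDpc, ?_⟩
    intro ρ hρD
    obtain ⟨hρK, hρU⟩ := hρ ρ hρD
    obtain ⟨s1, s2, s3, s4, s5, s6, s7, s8, s9, s10⟩ := hS _ hρK
    have hga : Nat.gcd (U (ρ, zz.1)) (U (ρ, zz.2)) ∣ U (ρ, z) := by
      rw [hρU]; exact Dvd.intro_left _ rfl
    refine ⟨s1, s2, s5, Nat.pos_of_dvd_of_pos hga s7, ?_, ?_, ?_⟩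
    · apply p4_size (H := (H : ℝ)) (V := V) (b := b) (κ := κ) (by positivity) (by linarith)
        (by linarith) hκ1 hΛ _ (by positivity) hbH hVB
      have h1 : ((Nat.gcd (U (ρ, zz.1)) (U (ρ, zz.2)) : ℕ) : ℝ) * (H : ℝ) = (U (ρ, z) : ℝ) := by
        rw [hHh]
        have : Nat.gcd (U (ρ, zz.1)) (U (ρ, zz.2)) * h = U (ρ, z) := by
          rw [mul_comm]; exact hρU.symm
        exact_mod_cast this
      rw [h1]
      exact s8
    · exact Nat.Coprime.coprime_dvd_left hga s9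
    · exact hfin ρ _ _ hρU s10
  rcases le_total v.2 v.1 with hm | hm
  · apply hcol zz.1 v.1 hzz1.1 v3
    · rw [hH, max_eq_left hm]
    · intro ρ hρ
      have h1 := Finset.mem_filter.1 hρ
      have h2 := Finset.mem_filter.1 h1.1
      exact ⟨h2.2.1, h1.2.1⟩
  · apply hcol zz.2 v.2 hzz1.2 v4
    · rw [hH, max_eq_right hm]
    · intro ρ hρ
      have h1 := Finset.mem_filter.1 hρ
      have h2 := Finset.mem_filter.1 h1.1
      exact ⟨h2.2.2, h1.2.2⟩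

end Pool.Agent.Helper21.EN
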