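import Pool.Agent.Helper21.EN.Stmts

set_option autoImplicit false

/-!
# Project EN, piece P5

The statement is in EN/Stmts. Paper: /team-store/EN_paper.md.

Proof. k-tuples rho in D^k (Fintype.piFinset or Finset.pi over Fin k): (N, A') = (prod a(rho_i), prod rho_i). The pair satisfies Rel neg e f (kappa2^k) w, N <= A^k <= w^2/2, A' <= B^k <= w^2/2.
The number of k-tuples with prod rho_i = m is at most d(m)^k <= kappa^k (each rho_i is a divisor of m, m <= w^2 <= w^40). So the set of pairs (N, A') has at least |D|^k/kappa^k elements, and by ht (I = J = 1, A = floor(A^k), B = floor(B^k), at most w^2) at most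
4 kappa^2 (w + sqrt(w A^k)) elements. (8 kappa^(k+2) is generous.)
-/

namespace Pool.Agent.Helper21.EN

open Finset

lemma p5_modEq_prod {k : ℕ} (M : ℕ) (f g : Fin k → ℕ) (h : ∀ i, f i ≡ g i [MOD M]) :
    ∏ i, f i ≡ ∏ i, g i [MOD M] := by
  have h1 : ((∏ i, f i : ℕ) : ZMod M) = ((∏ i, g i : ℕ) : ZMod M) := by
    push_cast
    exact Finset.prod_congr rfl (fun i _ => (ZMod.natCast_eq_natCast_iff _ _ _).2 (h i))
  exact (ZMod.natCast_eq_natCast_iff _ _ _).1 h1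

lemma p5_rel {k : ℕ} (neg : Bool) (e f κ₂ w : ℕ) (a r : Fin k → ℕ)
    (h : ∀ i, Rel neg e f κ₂ w (a i) (r i)) :
    Rel neg e f (κ₂ ^ k) w (∏ i, a i) (∏ i, r i) := by
  unfold Rel at h ⊢
  cases neg
  · simp only [Bool.false_eq_true, if_false] at h ⊢
    have h1 := p5_modEq_prod (w ^ 3) _ _ h
    rw [Finset.prod_mul_distrib, Finset.prod_pow, Finset.prod_pow, Finset.prod_const,
      Finset.card_univ, Fintype.card_fin] at h1
    exact h1
  · simp only [if_true] at h ⊢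
    have h1 := p5_modEq_prod (w ^ 3) _ _ h
    rw [Finset.prod_mul_distrib, Finset.prod_pow, Finset.prod_pow, Finset.prod_const,
      Finset.card_univ, Fintype.card_fin] at h1
    exact h1

lemma p5_prod_le {k : ℕ} (r : Fin k → ℕ) (B : ℝ) (h : ∀ i, (r i : ℝ) ≤ B) :
    ((∏ i, r i : ℕ) : ℝ) ≤ B ^ k := by
  push_cast
  calc ∏ i, (r i : ℝ) ≤ ∏ _i : Fin k, B :=
        Finset.prod_le_prod (fun i _ => Nat.cast_nonneg _) (fun i _ => h i)
    _ = B ^ k := by rw [Finset.prod_const, Finset.card_univ, Fintype.card_fin]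

theorem p5_thm (ht : T1Stmt) : P5Stmt := by
  classical
  intro neg e f w κ₂ k κ A B D a he he8 hf hf8 hne hw hbad hK hκ₂ hk hA hB hAk hBk hw2 hD
  have hκ1 : 1 ≤ κ := hK.one
  have hκ0 : (0 : ℝ) ≤ κ := le_trans zero_le_one hκ1
  have hwR : (2 : ℝ) ≤ w := by exact_mod_cast hw2
  have hw0 : (0 : ℝ) ≤ w := by linarith
  have hwsq : (w : ℝ) ^ 2 / 2 ≤ (w : ℝ) ^ 2 := by nlinarith
  have hAk0 : (0 : ℝ) ≤ A ^ k := by positivity
  have hBk0 : (0 : ℝ) ≤ B ^ k := by positivity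
  set P : Finset (Fin k → ℕ) := Fintype.piFinset (fun _ : Fin k => D) with hP
  have hmem : ∀ r ∈ P, ∀ i, r i ∈ D := fun r hr i => Fintype.mem_piFinset.1 hr i
  set Φ : (Fin k → ℕ) → ℕ × ℕ := fun r => (∏ i, a (r i), ∏ i, r i) with hΦ
  have hcardP : P.card = D.card ^ k := by
    rw [hP, Fintype.card_piFinset, Finset.prod_const, Finset.card_univ, Fintype.card_fin]
  -- fibres
  have hfib : ∀ b ∈ P.image Φ, (P.filter (fun x => Φ x = b)).card ≤ ⌊κ ^ k⌋₊ := by
    intro b hb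
    obtain ⟨r, hr, rfl⟩ := Finset.mem_image.1 hb
    have hm0 : 0 < ∏ i, r i := Finset.prod_pos (fun i _ => (hD _ (hmem r hr i)).1)
    have hmB : ((∏ i, r i : ℕ) : ℝ) ≤ B ^ k := p5_prod_le r B (fun i => (hD _ (hmem r hr i)).2.1)
    have hmw : ∏ i, r i ≤ w ^ 40 := by
      have h1 : ((∏ i, r i : ℕ) : ℝ) ≤ (w : ℝ) ^ 2 := le_trans hmB (le_trans hBk hwsq)
      have h2 : ∏ i, r i ≤ w ^ 2 := by exact_mod_cast h1
      exact le_trans h2 (Nat.pow_le_pow_right (by omega) (by norm_num))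
    have hd := hK.div _ hm0 hmw
    have hsub : P.filter (fun x => Φ x = Φ r) ⊆
        Fintype.piFinset (fun _ : Fin k => (∏ i, r i).divisors) := by
      intro x hx
      rw [Finset.mem_filter] at hx
      rw [Fintype.mem_piFinset]
      intro i
      have h2 : ∏ i, x i = ∏ i, r i := congrArg Prod.snd hx.2
      rw [Nat.mem_divisors]
      exact ⟨h2 ▸ Finset.dvd_prod_of_mem x (Finset.mem_univ i), hm0.ne'⟩
    refine le_trans (Finset.card_le_card hsub) ?_
    rw [Fintype.card_piFinset, Finset.prod_const, Finset.card_univ, Fintype.card_fin]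
    apply Nat.le_floor
    push_cast
    exact pow_le_pow_left₀ (Nat.cast_nonneg _) hd k
  have h1 := Finset.card_le_mul_card_image P ⌊κ ^ k⌋₊ hfib
  have h2 : (D.card : ℝ) ^ k ≤ κ ^ k * ((P.image Φ).card : ℝ) := by
    have h3 : ((P.card : ℕ) : ℝ) ≤ ((⌊κ ^ k⌋₊ * (P.image Φ).card : ℕ) : ℝ) := by
      exact_mod_cast h1
    rw [hcardP] at h3
    push_cast at h3
    refine le_trans h3 ?_
    exact mul_le_mul_of_nonneg_right (Nat.floor_le (pow_nonneg hκ0 k)) (Nat.cast_nonneg _)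
  -- the count of the image
  have h4 : ((P.image Φ).card : ℝ) ≤ 4 * κ ^ 2 * (w + Real.sqrt (w * (⌊A ^ k⌋₊ : ℕ))) := by
    apply ht neg e f w (κ₂ ^ k) κ 1 1 ⌊A ^ k⌋₊ ⌊B ^ k⌋₊ (P.image Φ) he he8 hf hf8 hne hw hbad hK
      (hκ₂.pow_left k)
    · have : ((⌊A ^ k⌋₊ : ℕ) : ℝ) ≤ (w : ℝ) ^ 2 :=
        le_trans (Nat.floor_le hAk0) (le_trans hAk hwsq)
      exact_mod_cast this
    · have : ((⌊B ^ k⌋₊ : ℕ) : ℝ) ≤ (w : ℝ) ^ 2 :=
        le_trans (Nat.floor_le hBk0) (le_trans hBk hwsq)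
      exact_mod_cast this
    · intro s hs
      obtain ⟨r, hr, rfl⟩ := Finset.mem_image.1 hs
      have hh := fun i => hD _ (hmem r hr i)
      refine ⟨?_, ?_, ?_, ?_, ?_, ?_, ?_⟩
      · show 0 < ∏ i, a (r i)
        exact Finset.prod_pos (fun i _ => (hh i).2.2.2.1)
      · have : ∏ i, a (r i) ≤ ⌊A ^ k⌋₊ := Nat.le_floor
          (p5_prod_le (fun i => a (r i)) A (fun i => (hh i).2.2.2.2.1))
        show ∏ i, a (r i) < 1 + ⌊A ^ k⌋₊
        omega
      · show 0 < ∏ i, r i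
        exact Finset.prod_pos (fun i _ => (hh i).1)
      · have : ∏ i, r i ≤ ⌊B ^ k⌋₊ := Nat.le_floor
          (p5_prod_le r B (fun i => (hh i).2.1))
        show ∏ i, r i < 1 + ⌊B ^ k⌋₊
        omega
      · show Nat.Coprime (∏ i, a (r i)) w
        exact Nat.Coprime.prod_left (fun i _ => (hh i).2.2.2.2.2.1)
      · show Nat.Coprime (∏ i, r i) w
        exact Nat.Coprime.prod_left (fun i _ => (hh i).2.2.1)
      · exact p5_rel neg e f κ₂ w (fun i => a (r i)) r (fun i => (hh i).2.2.2.2.2.2)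
  have h5 : Real.sqrt (w * (⌊A ^ k⌋₊ : ℕ)) ≤ Real.sqrt (w * A ^ k) :=
    Real.sqrt_le_sqrt (mul_le_mul_of_nonneg_left (Nat.floor_le hAk0) hw0)
  have h6 : (0 : ℝ) ≤ w + Real.sqrt (w * A ^ k) := add_nonneg hw0 (Real.sqrt_nonneg _)
  calc (D.card : ℝ) ^ k ≤ κ ^ k * ((P.image Φ).card : ℝ) := h2
    _ ≤ κ ^ k * (4 * κ ^ 2 * (w + Real.sqrt (w * A ^ k))) := by
        apply mul_le_mul_of_nonneg_left _ (pow_nonneg hκ0 k)
        refine le_trans h4 ?_
        apply mul_le_mul_of_nonneg_left _ (by positivity)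
        linarith
    _ = 4 * (κ ^ (k + 2) * (w + Real.sqrt (w * A ^ k))) := by ring
    _ ≤ 8 * κ ^ (k + 2) * (w + Real.sqrt (w * A ^ k)) := by
        have : 0 ≤ κ ^ (k + 2) * (w + Real.sqrt (w * A ^ k)) :=
          mul_nonneg (pow_nonneg hκ0 _) h6
        linarith

end Pool.Agent.Helper21.EN
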