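import Pool.Agent.Helper21.EN.Stmts

set_option autoImplicit false

/-!
# Project EN, piece PC

Chebyshev lower bound for the number of odd primes up to `L`, from the lower bound of `psi`.
-/

namespace Pool.Agent.Helper21.EN

open Finset

lemma pc_card (n : ℕ) :
    Nat.primeCounting n ≤ ((Finset.Icc 3 n).filter Nat.Prime).card + 1 := by
  have h1 : Nat.primeCounting n = ((Finset.range (n + 1)).filter Nat.Prime).card := by
    rw [Nat.primeCounting, Nat.primeCounting', Nat.count_eq_card_filter_range]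
  rw [h1]
  have h2 : (Finset.range (n + 1)).filter Nat.Prime ⊆
      insert 2 ((Finset.Icc 3 n).filter Nat.Prime) := by
    intro p hp
    rw [mem_filter, mem_range] at hp
    rw [mem_insert, mem_filter, mem_Icc]
    have := hp.2.two_le
    by_cases h : p = 2
    · exact Or.inl h
    · exact Or.inr ⟨⟨by omega, by omega⟩, hp.2⟩
  exact (card_le_card h2).trans (card_insert_le _ _)

lemma pc_log_le {x : ℝ} (hx : 0 < x) : Real.log x ≤ x / 8 + 1.08 := by
  have h1 := Real.log_le_sub_one_of_pos (x := x / 8) (by positivity)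
  have h2 : Real.log (x / 8) = Real.log x - Real.log 8 :=
    Real.log_div hx.ne' (by norm_num)
  have h3 : Real.log 8 = 3 * Real.log 2 := by
    rw [show (8:ℝ) = 2 ^ 3 by norm_num, Real.log_pow]
    norm_num
  have h4 := Real.log_two_lt_d9
  linarith

theorem pc_thm : PCStmt := by
  refine ⟨1 / 12, by norm_num, fun L hL => ?_⟩
  have hlog4 : Real.log 4 = 2 * Real.log 2 := by
    rw [show (4:ℝ) = 2 ^ 2 by norm_num, Real.log_pow]
    norm_num
  have hl2 := Real.log_two_gt_d9
  have hmono : Real.log 4 ≤ Real.log L := Real.log_le_log (by norm_num) hL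
  have hpos : 0 < Real.log L := by linarith
  rw [div_le_iff₀ hpos]
  rcases lt_or_ge L 16 with h16 | h16
  · have h3 : 3 ∈ (Finset.Icc 3 ⌊L⌋₊).filter Nat.Prime := by
      rw [mem_filter, mem_Icc]
      refine ⟨⟨le_rfl, ?_⟩, Nat.prime_three⟩
      apply Nat.le_floor
      push_cast
      linarith
    have h1 : 1 ≤ ((Finset.Icc 3 ⌊L⌋₊).filter Nat.Prime).card := card_pos.mpr ⟨3, h3⟩
    have h1' : (1 : ℝ) ≤ (((Finset.Icc 3 ⌊L⌋₊).filter Nat.Prime).card : ℝ) := by
      exact_mod_cast h1
    nlinarith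
  · have h1 := Chebyshev.psi_le_primeCounting_mul_log' L
    have h2 := Chebyshev.psi_ge' (x := L) (by linarith)
    have h3 : (Nat.primeCounting ⌊L⌋₊ : ℝ) ≤
        (((Finset.Icc 3 ⌊L⌋₊).filter Nat.Prime).card : ℝ) + 1 := by
      exact_mod_cast pc_card ⌊L⌋₊
    have h4 : (Nat.primeCounting ⌊L⌋₊ : ℝ) * Real.log L ≤
        ((((Finset.Icc 3 ⌊L⌋₊).filter Nat.Prime).card : ℝ) + 1) * Real.log L :=
      mul_le_mul_of_nonneg_right h3 hpos.le
    have h5 := pc_log_le (x := L + 2) (by linarith)
    have h6 := pc_log_le (x := L) (by linarith)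
    nlinarith

end Pool.Agent.Helper21.EN
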