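import Pool.Agent.Helper21.EN.Stmts

set_option autoImplicit false

/-!
# Project EN, piece Q1

The statement is in EN/Stmts.lean. Paper: /team-store/EN_paper.md.

Proof. For l not i all coordinates are 1 (T l = 1). The map (a,b) -> (a i, b i) is injective on Sol M T; a_i^i = b_i^i modulo M
(mon a = a_i^i), coprime pairs, coprime to M. hdir with j = i (1 <= i <= 8), c = 1, P = Q = T i, exponent eps/2:
(M T^2)^(eps/2) <= (M T)^eps.
-/

namespace Pool.Agent.Helper21.EN

open Finset

/-- The coordinates of an element of the box. -/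
lemma q1_mem {T : Fin 9 → ℝ} {x : Vec} (hT : ∀ l, 1 ≤ T l) (hx : x ∈ vbox T) (l : Fin 9) :
    1 ≤ x l ∧ (x l : ℝ) ≤ T l := by
  unfold vbox at hx
  rw [Fintype.mem_piFinset] at hx
  have h := Finset.mem_Icc.1 (hx l)
  refine ⟨h.1, ?_⟩
  exact (Nat.le_floor_iff (le_trans zero_le_one (hT l))).1 h.2

/-- Where `T l = 1` the coordinate is `1`. -/
lemma q1_one {T : Fin 9 → ℝ} {x : Vec} (hT : ∀ l, 1 ≤ T l) (hx : x ∈ vbox T) {l : Fin 9}
    (hl : T l = 1) : x l = 1 := by
  obtain ⟨h1, h2⟩ := q1_mem hT hx l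
  rw [hl] at h2
  have h3 : x l ≤ 1 := by exact_mod_cast h2
  omega

/-- The monomial when only one coordinate is different from `1`. -/
lemma q1_mon {x : Vec} {i : Fin 9} (h : ∀ l, l ≠ i → x l = 1) : mon x = x i ^ (i : ℕ) := by
  unfold mon
  rw [Finset.prod_eq_single i]
  · intro l _ hl
    rw [h l hl, one_pow]
  · intro hi
    exact absurd (Finset.mem_univ _) hi

theorem q1_thm (hdir : DIRStmt) : Q1Stmt := by
  classical
  intro ε hε
  obtain ⟨C, hC, h⟩ := hdir (ε / 2) (by positivity)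
  refine ⟨C, hC, ?_⟩
  intro M T i hM hT hi hl
  have hMR : (1 : ℝ) ≤ (M : ℝ) := by exact_mod_cast hM
  have hTi := hT i
  have hsol : ∀ z ∈ Sol M T, z.1 ∈ vbox T ∧ z.2 ∈ vbox T ∧
      (∀ i, Nat.Coprime (z.1 i) (z.2 i)) ∧ (∀ i, Nat.Coprime (z.1 i) M) ∧
      (∀ i, Nat.Coprime (z.2 i) M) ∧ mon z.1 ≡ mon z.2 [MOD M] := by
    intro z hz
    unfold Sol at hz
    rw [Finset.mem_filter, Finset.mem_product] at hz
    exact ⟨hz.1.1, hz.1.2, hz.2⟩
  have hinj : Set.InjOn (fun z : Vec × Vec => (z.1 i, z.2 i)) (Sol M T : Set (Vec × Vec)) := by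
    intro z hz z' hz' hzz
    have a := hsol z hz
    have b := hsol z' hz'
    simp only [Prod.mk.injEq] at hzz
    refine Prod.ext (funext fun l => ?_) (funext fun l => ?_)
    · by_cases hli : l = i
      · rw [hli]; exact hzz.1
      · rw [q1_one hT a.1 (hl l hli), q1_one hT b.1 (hl l hli)]
    · by_cases hli : l = i
      · rw [hli]; exact hzz.2
      · rw [q1_one hT a.2.1 (hl l hli), q1_one hT b.2.1 (hl l hli)]
  have hcard := Finset.card_image_of_injOn hinj
  have hi1 : 1 ≤ (i : ℕ) := by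
    rcases Nat.eq_zero_or_pos (i : ℕ) with h0 | h0
    · exact absurd (Fin.ext h0) hi
    · exact h0
  have hi8 : (i : ℕ) ≤ 8 := by have := i.isLt; omega
  have key := h (i : ℕ) M 1 (T i) (T i) ((Sol M T).image (fun z : Vec × Vec => (z.1 i, z.2 i)))
    hi1 hi8 (by omega) (Nat.coprime_one_left M) hTi hTi (by
      intro s hs
      rw [Finset.mem_image] at hs
      obtain ⟨z, hz, rfl⟩ := hs
      obtain ⟨h1, h2, h3, h4, h5, h6⟩ := hsol z hz
      have e1 := q1_mem hT h1 i
      have e2 := q1_mem hT h2 i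
      have m1 := q1_mon (x := z.1) (i := i) (fun l hli => q1_one hT h1 (hl l hli))
      have m2 := q1_mon (x := z.2) (i := i) (fun l hli => q1_one hT h2 (hl l hli))
      rw [m1, m2] at h6
      refine ⟨by have := e1.1; simp only; omega, by have := e2.1; simp only; omega,
        e1.2, e2.2, h3 i, h4 i, h5 i, ?_⟩
      simp only [one_mul]
      exact h6)
  rw [hcard] at key
  unfold NN
  refine le_trans key ?_
  have hTT : T i * T i = T i ^ 2 := by ring
  have hb : ((M : ℝ) * T i * T i) ^ (ε / 2) ≤ ((M : ℝ) * T i) ^ ε := by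
    have e : ((M : ℝ) * T i) ^ ε = (((M : ℝ) * T i) ^ (2 : ℕ)) ^ (ε / 2) := by
      rw [← Real.rpow_natCast, ← Real.rpow_mul (by positivity)]
      congr 1
      push_cast
      ring
    rw [e]
    apply Real.rpow_le_rpow (by positivity) _ (by positivity)
    have h0 : 0 ≤ T i * T i * (M : ℝ) := by positivity
    nlinarith [mul_le_mul_of_nonneg_left hMR h0]
  rw [hTT]
  have h1 : (0 : ℝ) ≤ 1 + T i ^ 2 / (M : ℝ) := by positivity
  exact mul_le_mul_of_nonneg_right (mul_le_mul_of_nonneg_left hb (by linarith)) h1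

end Pool.Agent.Helper21.EN
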