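import Pool.Agent.Helper21.EN.Stmts

set_option autoImplicit false

/-!
# Project EN, piece Q2

Two indices. For a fixed pair of values at the index `j` the pair of values at the index `i`
satisfies a congruence of the form treated by `DIRStmt`.
-/

namespace Pool.Agent.Helper21.EN

open Finset

lemma q2_one {T : Fin 9 → ℝ} {l : Fin 9} (hl : T l = 1) {a : Vec} (ha : a ∈ vbox T) :
    a l = 1 := by
  unfold vbox at ha
  rw [Fintype.mem_piFinset] at ha
  have h := ha l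
  rw [hl, Nat.floor_one, Finset.mem_Icc] at h
  omega

lemma q2_pos {T : Fin 9 → ℝ} {l : Fin 9} {a : Vec} (ha : a ∈ vbox T) : 0 < a l := by
  unfold vbox at ha
  rw [Fintype.mem_piFinset] at ha
  have h := ha l
  rw [Finset.mem_Icc] at h
  omega

lemma q2_le {T : Fin 9 → ℝ} (hT : ∀ l, 1 ≤ T l) {l : Fin 9} {a : Vec} (ha : a ∈ vbox T) :
    (a l : ℝ) ≤ T l := by
  unfold vbox at ha
  rw [Fintype.mem_piFinset] at ha
  have h := ha l
  rw [Finset.mem_Icc] at h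
  have h0 : (0 : ℝ) ≤ T l := by linarith [hT l]
  exact (Nat.cast_le.2 h.2).trans (Nat.floor_le h0)

lemma q2_mon {T : Fin 9 → ℝ} {i j : Fin 9} (hij : i ≠ j)
    (hT : ∀ l, l ≠ i → l ≠ j → T l = 1) {a : Vec} (ha : a ∈ vbox T) :
    mon a = a i ^ (i : ℕ) * a j ^ (j : ℕ) := by
  unfold mon
  rw [Fintype.prod_eq_mul i j hij]
  intro l hl
  rw [q2_one (hT l hl.1 hl.2) ha, one_pow]

lemma q2_inv {M x y : ℕ} (hM : 1 ≤ M) (hx : Nat.Coprime x M) (hy : Nat.Coprime y M) :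
    ∃ c : ℕ, Nat.Coprime c M ∧ c * x ≡ y [MOD M] := by
  have : NeZero M := ⟨by omega⟩
  refine ⟨((ZMod.unitOfCoprime y hy * (ZMod.unitOfCoprime x hx)⁻¹ : (ZMod M)ˣ) : ZMod M).val,
    ZMod.val_coe_unit_coprime _, ?_⟩
  rw [← ZMod.natCast_eq_natCast_iff]
  rw [Nat.cast_mul, ZMod.natCast_zmod_val]
  have h1 : (x : ZMod M) = ((ZMod.unitOfCoprime x hx : (ZMod M)ˣ) : ZMod M) :=
    (ZMod.coe_unitOfCoprime x hx).symm
  have h2 : (y : ZMod M) = ((ZMod.unitOfCoprime y hy : (ZMod M)ˣ) : ZMod M) :=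
    (ZMod.coe_unitOfCoprime y hy).symm
  rw [h1, h2, ← Units.val_mul]
  congr 1
  simp

theorem q2_thm (hdir : DIRStmt) : Q2Stmt := by
  intro ε hε
  obtain ⟨C, hC1, hC⟩ := hdir (ε / 2) (by positivity)
  refine ⟨C, hC1, ?_⟩
  intro M T i j hM hT hi hj hij hTl
  have hMr : (1 : ℝ) ≤ M := by exact_mod_cast hM
  have hTi := hT i
  have hTj := hT j
  -- the bound for a fibre
  set B : ℝ := C * ((M : ℝ) * T i) ^ ε * (1 + T i ^ 2 / M) with hB
  have hB0 : 0 ≤ B := by positivity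
  have hfib : ∀ s ∈ (Finset.Icc 1 ⌊T j⌋₊) ×ˢ (Finset.Icc 1 ⌊T j⌋₊),
      ((((Sol M T).filter (fun z => (z.1 j, z.2 j) = s)).card : ℕ) : ℝ) ≤ B := by
    rintro ⟨u, v⟩ -
    set F := (Sol M T).filter (fun z => (z.1 j, z.2 j) = (u, v)) with hF
    rcases F.eq_empty_or_nonempty with h0 | ⟨z0, hz0⟩
    · rw [h0]; simpa using hB0
    have key : ∀ z ∈ F, z.1 ∈ vbox T ∧ z.2 ∈ vbox T ∧ (∀ l, Nat.Coprime (z.1 l) (z.2 l)) ∧
        (∀ l, Nat.Coprime (z.1 l) M) ∧ (∀ l, Nat.Coprime (z.2 l) M) ∧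
        mon z.1 ≡ mon z.2 [MOD M] ∧ z.1 j = u ∧ z.2 j = v := by
      intro z hz
      rw [hF, Finset.mem_filter] at hz
      obtain ⟨hz1, hz2⟩ := hz
      unfold Sol at hz1
      rw [Finset.mem_filter, Finset.mem_product] at hz1
      obtain ⟨⟨h1, h2⟩, h3, h4, h5, h6⟩ := hz1
      rw [Prod.mk.injEq] at hz2
      exact ⟨h1, h2, h3, h4, h5, h6, hz2.1, hz2.2⟩
    obtain ⟨-, -, -, g4, g5, -, g7, g8⟩ := key z0 hz0
    have hu : Nat.Coprime (u ^ (j : ℕ)) M := by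
      have := g4 j
      rw [g7] at this
      exact Nat.Coprime.pow_left _ this
    have hv : Nat.Coprime (v ^ (j : ℕ)) M := by
      have := g5 j
      rw [g8] at this
      exact Nat.Coprime.pow_left _ this
    obtain ⟨c, hc, hcu⟩ := q2_inv hM hu hv
    have hcard : F.card = (F.image (fun z => (z.1 i, z.2 i))).card := by
      symm
      apply Finset.card_image_of_injOn
      intro z hz w hw hzw
      have kz := key z hz
      have kw := key w hw
      simp only [Prod.mk.injEq] at hzw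
      apply Prod.ext
      · funext l
        by_cases hli : l = i
        · rw [hli]; exact hzw.1
        by_cases hlj : l = j
        · rw [hlj, kz.2.2.2.2.2.2.1, kw.2.2.2.2.2.2.1]
        · rw [q2_one (hTl l hli hlj) kz.1, q2_one (hTl l hli hlj) kw.1]
      · funext l
        by_cases hli : l = i
        · rw [hli]; exact hzw.2
        by_cases hlj : l = j
        · rw [hlj, kz.2.2.2.2.2.2.2, kw.2.2.2.2.2.2.2]
        · rw [q2_one (hTl l hli hlj) kz.2.1, q2_one (hTl l hli hlj) kw.2.1]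
    have hi1 : 1 ≤ (i : ℕ) := by
      have : (i : ℕ) ≠ 0 := fun h => hi (Fin.ext h)
      omega
    have hi8 : (i : ℕ) ≤ 8 := by omega
    have hS := hC (i : ℕ) M c (T i) (T i) (F.image (fun z => (z.1 i, z.2 i))) hi1 hi8
      (by omega) hc hTi hTi (by
        intro s hs
        rw [Finset.mem_image] at hs
        obtain ⟨z, hz, rfl⟩ := hs
        obtain ⟨h1, h2, h3, h4, h5, h6, h7, h8⟩ := key z hz
        refine ⟨q2_pos h1, q2_pos h2, q2_le hT h1, q2_le hT h2, h3 i, h4 i, h5 i, ?_⟩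
        rw [q2_mon hij hTl h1, q2_mon hij hTl h2, h7, h8] at h6
        have h9 : z.2 i ^ (i : ℕ) * v ^ (j : ℕ) ≡ z.2 i ^ (i : ℕ) * (c * u ^ (j : ℕ)) [MOD M] :=
          Nat.ModEq.mul_left _ hcu.symm
        have h10 : z.1 i ^ (i : ℕ) * u ^ (j : ℕ) ≡ (c * z.2 i ^ (i : ℕ)) * u ^ (j : ℕ) [MOD M] := by
          have := h6.trans h9
          rw [show (c * z.2 i ^ (i : ℕ)) * u ^ (j : ℕ) = z.2 i ^ (i : ℕ) * (c * u ^ (j : ℕ)) by ring]
          exact this
        exact Nat.ModEq.cancel_right_of_coprime (by rw [Nat.gcd_comm]; exact hu) h10)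
    rw [hcard]
    refine hS.trans ?_
    rw [hB]
    have e1 : (M : ℝ) * T i * T i ≤ ((M : ℝ) * T i) ^ 2 := by
      have : (M : ℝ) * T i * T i ≤ M * (M * T i * T i) := by
        have h0 : 0 ≤ (M : ℝ) * T i * T i := by positivity
        nlinarith
      calc (M : ℝ) * T i * T i ≤ M * (M * T i * T i) := this
        _ = ((M : ℝ) * T i) ^ 2 := by ring
    have e2 : ((M : ℝ) * T i * T i) ^ (ε / 2) ≤ ((M : ℝ) * T i) ^ ε := by
      calc ((M : ℝ) * T i * T i) ^ (ε / 2) ≤ (((M : ℝ) * T i) ^ 2) ^ (ε / 2) :=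
            Real.rpow_le_rpow (by positivity) e1 (by positivity)
        _ = ((M : ℝ) * T i) ^ ε := by
            rw [← Real.rpow_natCast, ← Real.rpow_mul (by positivity)]
            congr 1
            push_cast
            ring
    have e3 : T i * T i / (M : ℝ) = T i ^ 2 / M := by ring
    rw [e3]
    gcongr
  -- summation over the fibres
  have hmaps : ∀ z ∈ Sol M T, (z.1 j, z.2 j) ∈
      (Finset.Icc 1 ⌊T j⌋₊) ×ˢ (Finset.Icc 1 ⌊T j⌋₊) := by
    intro z hz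
    unfold Sol at hz
    rw [Finset.mem_filter, Finset.mem_product] at hz
    obtain ⟨⟨h1, h2⟩, -⟩ := hz
    unfold vbox at h1 h2
    rw [Fintype.mem_piFinset] at h1 h2
    rw [Finset.mem_product]
    exact ⟨h1 j, h2 j⟩
  have hsum := Finset.card_eq_sum_card_fiberwise hmaps
  unfold NN
  rw [hsum, Nat.cast_sum]
  calc (∑ s ∈ (Finset.Icc 1 ⌊T j⌋₊) ×ˢ (Finset.Icc 1 ⌊T j⌋₊),
        ((((Sol M T).filter (fun z => (z.1 j, z.2 j) = s)).card : ℕ) : ℝ))
      ≤ ∑ _s ∈ (Finset.Icc 1 ⌊T j⌋₊) ×ˢ (Finset.Icc 1 ⌊T j⌋₊), B := Finset.sum_le_sum hfib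
    _ = ((⌊T j⌋₊ : ℝ) * (⌊T j⌋₊ : ℝ)) * B := by
        rw [Finset.sum_const, Finset.card_product, Nat.card_Icc, nsmul_eq_mul]
        simp
    _ ≤ (T j ^ 2) * B := by
        have hfl : (⌊T j⌋₊ : ℝ) ≤ T j := Nat.floor_le (by linarith)
        have hfl0 : (0 : ℝ) ≤ (⌊T j⌋₊ : ℝ) := Nat.cast_nonneg _
        apply mul_le_mul_of_nonneg_right _ hB0
        nlinarith
    _ = C * ((M : ℝ) * T i) ^ ε * (T j ^ 2 * (1 + T i ^ 2 / M)) := by
        rw [hB]; ring

end Pool.Agent.Helper21.EN
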