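import Pool.Agent.Helper21.EN.Stmts

set_option autoImplicit false

/-!
# Project EN, piece Q3

Replace the sorry. The statement is in EN/Stmts.lean. Paper: /team-store/EN_paper.md.

Proof. h0 with c i = 2, c = 0 elsewhere. K2: U has support {i} (U_l <= T_l^0 = 1), U_i <= T_i^2 <= M:
h1 gives NN <= C (M U_i)^eps' (1 + U_i^2/M) <= C M^(2 eps') 2 U_i. K1: U_l <= T_l^2 for l not i and U_i <= 1; U is supported on {j,k}
(T_l = 1 for the others), U_j U_k <= (T_j T_k)^2 <= M. Put the larger of U_j, U_k in the role of i of h2 and the smaller one in the role of j: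
NN <= C (M U_max)^eps' U_min^2 (1 + U_max^2/M) <= C M^(2eps') (U_jU_k + U_jU_k (U_jU_k/M)) <= 2 C M^(2 eps') U_jU_k.
(prod T)^eps' <= M^(2 eps') since T_i^2 <= M, (T_jT_k)^2 <= M.
-/

namespace Pool.Agent.Helper21.EN

open Finset

/-- Two indices with product at most `M`, the larger one first. -/
theorem q3_two {ε C : ℝ} (hε : 0 < ε) (hC : 1 ≤ C)
    (h : ∀ (M : ℕ) (T : Fin 9 → ℝ) (i j : Fin 9), 1 ≤ M → (∀ l, 1 ≤ T l) → i ≠ 0 → j ≠ 0 →
      i ≠ j → (∀ l, l ≠ i → l ≠ j → T l = 1) →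
      NN M T ≤ C * ((M : ℝ) * T i) ^ ε * (T j ^ 2 * (1 + T i ^ 2 / M)))
    {M : ℕ} {U : Fin 9 → ℝ} {j k : Fin 9} (hM : 1 ≤ M) (hU : ∀ l, 1 ≤ U l) (hj : j ≠ 0)
    (hk : k ≠ 0) (hjk : j ≠ k) (hT : ∀ l, l ≠ j → l ≠ k → U l = 1) (hp : U j * U k ≤ M)
    (hle : U k ≤ U j) : NN M U ≤ 2 * C * ((M : ℝ) * M) ^ ε * (U j * U k) := by
  have hM0 : (1 : ℝ) ≤ M := by exact_mod_cast hM
  have h1 := hU j
  have h2 := hU k
  have h3 : U j ≤ M := by nlinarith
  have h4 : ((M : ℝ) * U j) ^ ε ≤ ((M : ℝ) * M) ^ ε := by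
    refine Real.rpow_le_rpow (by positivity) ?_ hε.le
    exact mul_le_mul_of_nonneg_left h3 (by positivity)
  have h5 : U k ^ 2 * (1 + U j ^ 2 / M) ≤ 2 * (U j * U k) := by
    have e1 : U k ^ 2 * (U j ^ 2 / M) = (U j * U k) * (U j * U k / M) := by ring
    have e2 : U j * U k / M ≤ 1 := by
      rw [div_le_one (by linarith)]
      exact hp
    have e3 : (U j * U k) * (U j * U k / M) ≤ (U j * U k) * 1 :=
      mul_le_mul_of_nonneg_left e2 (by positivity)
    have e4 : U k ^ 2 ≤ U j * U k := by nlinarith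
    rw [mul_add, e1]
    linarith
  have h6 : 0 ≤ ((M : ℝ) * M) ^ ε := by positivity
  have hC0 : 0 ≤ C := by linarith
  calc NN M U ≤ C * ((M : ℝ) * U j) ^ ε * (U k ^ 2 * (1 + U j ^ 2 / M)) :=
        h M U j k hM hU hj hk hjk hT
    _ ≤ C * ((M : ℝ) * M) ^ ε * (2 * (U j * U k)) := by
        refine mul_le_mul (mul_le_mul_of_nonneg_left h4 hC0) h5 (by positivity) (by positivity)
    _ = 2 * C * ((M : ℝ) * M) ^ ε * (U j * U k) := by ring

theorem q3_thm (h1 : Q1Stmt) (h2 : Q2Stmt) (h0 : REC0Stmt) : Q3Stmt := by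
  intro ε hε
  have hη : 0 < ε / 4 := by linarith
  obtain ⟨C1, hC1, H1⟩ := h1 (ε / 4) hη
  obtain ⟨C2, hC2, H2⟩ := h2 (ε / 4) hη
  obtain ⟨C0, hC0, H0⟩ := h0 (ε / 4) hη
  have hC12 : 1 ≤ C1 * C2 := by nlinarith
  refine ⟨2 * C0 * (C1 * C2), by nlinarith, ?_⟩
  intro M T i j k hM hT hi hj hk hij hik hjk hl hTi hTjk
  have hM0 : (1 : ℝ) ≤ M := by exact_mod_cast hM
  have hMp : (0 : ℝ) < M := by linarith
  have hP : 0 < ((M : ℝ) * M) ^ (ε / 4) := by positivity
  have hi1 := hT i
  have hj1 := hT j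
  have hk1 := hT k
  -- the two bounds
  have hK : 0 ≤ 2 * (C1 * C2) * ((M : ℝ) * M) ^ (ε / 4) := by positivity
  have hle1 : 2 * C1 * ((M : ℝ) * M) ^ (ε / 4) ≤ 2 * (C1 * C2) * ((M : ℝ) * M) ^ (ε / 4) := by
    refine mul_le_mul_of_nonneg_right ?_ hP.le
    nlinarith
  have hle2 : 2 * C2 * ((M : ℝ) * M) ^ (ε / 4) ≤ 2 * (C1 * C2) * ((M : ℝ) * M) ^ (ε / 4) := by
    refine mul_le_mul_of_nonneg_right ?_ hP.le
    nlinarith
  have key := H0 M T (fun l => if l = i then 2 else 0)
    (2 * (C1 * C2) * ((M : ℝ) * M) ^ (ε / 4)) (2 * (C1 * C2) * ((M : ℝ) * M) ^ (ε / 4)) hM hT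
    (fun l => by split_ifs <;> omega) hK hK
    (fun U hU => by
      have e0 : ∀ l, l ≠ j → l ≠ k → U l = 1 := by
        intro l hlj hlk
        refine le_antisymm ?_ (hU l).1
        have := (hU l).2
        by_cases hli : l = i
        · simpa [hli] using this
        · rw [hl l hli hlj hlk] at this
          simpa using this
      have ej : U j ≤ T j ^ 2 := by
        have := (hU j).2
        simpa [hij.symm] using this
      have ek : U k ≤ T k ^ 2 := by
        have := (hU k).2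
        simpa [hik.symm] using this
      have hUj := (hU j).1
      have hUk := (hU k).1
      have ep : U j * U k ≤ M := by
        calc U j * U k ≤ T j ^ 2 * T k ^ 2 := mul_le_mul ej ek (by linarith) (by positivity)
          _ = (T j * T k) ^ 2 := by ring
          _ ≤ M := hTjk
      have eprod : ∏ l, U l = U j * U k :=
        Fintype.prod_eq_mul j k hjk (fun l hl' => e0 l hl'.1 hl'.2)
      rw [eprod]
      have hjk0 : 0 ≤ U j * U k := by positivity
      refine le_trans ?_ (mul_le_mul_of_nonneg_right hle2 hjk0)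
      rcases le_total (U k) (U j) with h | h
      · exact q3_two hη hC2 H2 hM (fun l => (hU l).1) hj hk hjk e0 ep h
      · rw [mul_comm (U j) (U k)]
        rw [mul_comm (U j) (U k)] at ep
        exact q3_two hη hC2 H2 hM (fun l => (hU l).1) hk hj hjk.symm
          (fun l a b => e0 l b a) ep h)
    (fun U hU => by
      have e0 : ∀ l, l ≠ i → U l = 1 := by
        intro l hli
        refine le_antisymm ?_ (hU l).1
        have := (hU l).2
        simpa [hli] using this
      have ei : U i ≤ T i ^ 2 := by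
        have := (hU i).2
        simpa using this
      have hUi := (hU i).1
      have eM : U i ≤ M := ei.trans hTi
      have eprod : ∏ l, U l = U i := Fintype.prod_eq_single i e0
      rw [eprod]
      refine le_trans ?_ (mul_le_mul_of_nonneg_right hle1 (by linarith))
      have e4 : ((M : ℝ) * U i) ^ (ε / 4) ≤ ((M : ℝ) * M) ^ (ε / 4) := by
        refine Real.rpow_le_rpow (by positivity) ?_ hη.le
        exact mul_le_mul_of_nonneg_left eM hMp.le
      have e5 : 1 + U i ^ 2 / M ≤ 2 * U i := by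
        have : U i ^ 2 / M ≤ U i := by
          rw [div_le_iff₀ hMp]
          nlinarith
        linarith
      have hC10 : 0 ≤ C1 := by linarith
      calc NN M U ≤ C1 * ((M : ℝ) * U i) ^ (ε / 4) * (1 + U i ^ 2 / M) :=
            H1 M U i hM (fun l => (hU l).1) hi e0
        _ ≤ C1 * ((M : ℝ) * M) ^ (ε / 4) * (2 * U i) := by
            refine mul_le_mul (mul_le_mul_of_nonneg_left e4 hC10) e5 (by positivity)
              (by positivity)
        _ = 2 * C1 * ((M : ℝ) * M) ^ (ε / 4) * U i := by ring)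
  rw [Real.sqrt_mul_self hK] at key
  -- the product
  have hprod : ∏ l, T l ≤ (M : ℝ) * M := by
    have e1 : ∏ l, T l = T i * ∏ l ∈ univ.erase i, T l :=
      (Finset.mul_prod_erase univ T (Finset.mem_univ i)).symm
    have e2 : ∏ l ∈ univ.erase i, T l = T j * T k := by
      have : ∏ l ∈ univ.erase i, T l = ∏ l, (if l = i then 1 else T l) := by
        rw [← Finset.mul_prod_erase univ (fun l => if l = i then 1 else T l)
          (Finset.mem_univ i)]
        simp only [if_true, one_mul]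
        refine Finset.prod_congr rfl fun l hl' => ?_
        rw [if_neg (Finset.ne_of_mem_erase hl')]
      rw [this, Fintype.prod_eq_mul j k hjk]
      · rw [if_neg hij.symm, if_neg hik.symm]
      · rintro l ⟨a, b⟩
        by_cases hli : l = i
        · rw [if_pos hli]
        · rw [if_neg hli, hl l hli a b]
    rw [e1, e2]
    have e3 : T i ≤ M := by nlinarith
    have e4 : T j * T k ≤ M := by nlinarith
    exact mul_le_mul e3 e4 (by positivity) hMp.le
  have hprod0 : 0 ≤ ∏ l, T l := Finset.prod_nonneg fun l _ => by linarith [hT l]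
  have e5 : (∏ l, T l) ^ (ε / 4) ≤ ((M : ℝ) * M) ^ (ε / 4) :=
    Real.rpow_le_rpow hprod0 hprod hη.le
  have e6 : ((M : ℝ) * M) ^ (ε / 4) * ((M : ℝ) * M) ^ (ε / 4) = (M : ℝ) ^ ε := by
    rw [← Real.rpow_add (by positivity), Real.mul_rpow hMp.le hMp.le, ← Real.rpow_add hMp]
    congr 1
    ring
  have hC00 : 0 ≤ C0 := by linarith
  calc NN M T ≤ C0 * (∏ l, T l) ^ (ε / 4) *
        (2 * (C1 * C2) * ((M : ℝ) * M) ^ (ε / 4) * ∏ l, T l) := key
    _ ≤ C0 * ((M : ℝ) * M) ^ (ε / 4) *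
        (2 * (C1 * C2) * ((M : ℝ) * M) ^ (ε / 4) * ∏ l, T l) := by
        refine mul_le_mul_of_nonneg_right (mul_le_mul_of_nonneg_left e5 hC00) ?_
        exact mul_nonneg hK hprod0
    _ = 2 * C0 * (C1 * C2) * (((M : ℝ) * M) ^ (ε / 4) * ((M : ℝ) * M) ^ (ε / 4)) *
        ∏ l, T l := by ring
    _ = 2 * C0 * (C1 * C2) * (M : ℝ) ^ ε * ∏ l, T l := by rw [e6]

end Pool.Agent.Helper21.EN
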