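import Pool.Agent.Helper21.EN.Stmts

set_option autoImplicit false

/-!
# Project EN, piece Q4

Four indices: two groups of two indices, each with the square root bound.
-/

namespace Pool.Agent.Helper21.EN

open Finset

theorem q4_aux (C ε : ℝ) (M : ℕ) (a b : ℝ) (hC : 1 ≤ C) (hε : 0 < ε) (hM : 1 ≤ M)
    (ha : 1 ≤ a) (hb : 1 ≤ b) (hba : b ≤ a) (hab : a * b ≤ M) :
    C * ((M : ℝ) * a) ^ (ε / 2) * (b ^ 2 * (1 + a ^ 2 / M)) ≤ 2 * C * (M : ℝ) ^ ε * (a * b) := by
  have hM1 : (1 : ℝ) ≤ M := by exact_mod_cast hM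
  have hM0 : (0 : ℝ) < M := by linarith
  have haM : a ≤ M := by nlinarith
  have h1 : ((M : ℝ) * a) ^ (ε / 2) ≤ (M : ℝ) ^ ε := by
    have h2 : ((M : ℝ) * a) ^ (ε / 2) ≤ ((M : ℝ) * M) ^ (ε / 2) := by
      apply Real.rpow_le_rpow
      · positivity
      · exact mul_le_mul_of_nonneg_left haM hM0.le
      · linarith
    have h3 : ((M : ℝ) * M) ^ (ε / 2) = (M : ℝ) ^ ε := by
      rw [Real.mul_rpow hM0.le hM0.le, ← Real.rpow_add hM0]
      congr 1
      ring
    rw [h3] at h2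
    exact h2
  have h4 : b ^ 2 * (1 + a ^ 2 / M) ≤ 2 * (a * b) := by
    have h5 : b ^ 2 * (1 + a ^ 2 / M) = b * b + (a * b) * ((a * b) / M) := by
      field_simp
    rw [h5]
    have h6 : (a * b) / M ≤ 1 := by
      rw [div_le_one hM0]
      exact hab
    have h7 : 0 ≤ a * b := by positivity
    nlinarith [mul_le_mul_of_nonneg_left h6 h7, mul_le_mul_of_nonneg_right hba (by linarith : (0:ℝ) ≤ b)]
  have h8 : 0 ≤ b ^ 2 * (1 + a ^ 2 / M) := by positivity
  have h9 : 0 ≤ (M : ℝ) ^ ε := by positivity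
  calc C * ((M : ℝ) * a) ^ (ε / 2) * (b ^ 2 * (1 + a ^ 2 / M))
      ≤ C * (M : ℝ) ^ ε * (2 * (a * b)) := by
        apply mul_le_mul _ h4 h8 (by positivity)
        exact mul_le_mul_of_nonneg_left h1 (by linarith)
    _ = 2 * C * (M : ℝ) ^ ε * (a * b) := by ring

theorem q4_two (h2 : Q2Stmt) : ∀ ε : ℝ, 0 < ε → ∃ C : ℝ, 1 ≤ C ∧
    ∀ (M : ℕ) (U : Fin 9 → ℝ) (a b : Fin 9), 1 ≤ M → (∀ l, 1 ≤ U l) → a ≠ 0 → b ≠ 0 → a ≠ b →
      (∀ l, l ≠ a → l ≠ b → U l = 1) → U a * U b ≤ M →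
      NN M U ≤ C * (M : ℝ) ^ ε * ∏ l, U l := by
  intro ε hε
  obtain ⟨C, hC, h⟩ := h2 (ε / 2) (by linarith)
  refine ⟨2 * C, by linarith, ?_⟩
  intro M U a b hM hU ha hb hab hsupp hle
  have hprod : ∏ l, U l = U a * U b := Fintype.prod_eq_mul a b hab (fun x hx => hsupp x hx.1 hx.2)
  rw [hprod]
  rcases le_total (U b) (U a) with hba | hba
  · exact (h M U a b hM hU ha hb hab hsupp).trans
      (q4_aux C ε M (U a) (U b) hC hε hM (hU a) (hU b) hba hle)
  · have h1 := (h M U b a hM hU hb ha (Ne.symm hab) (fun l h3 h4 => hsupp l h4 h3)).trans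
      (q4_aux C ε M (U b) (U a) hC hε hM (hU b) (hU a) hba (by rw [mul_comm]; exact hle))
    rw [mul_comm (U a) (U b)]
    exact h1

theorem q4_thm (h1 : Q1Stmt) (h2 : Q2Stmt) (h0 : REC0Stmt) : Q4Stmt := by
  intro ε hε
  obtain ⟨C2, hC2, h2'⟩ := q4_two h2 (ε / 2) (by linarith)
  obtain ⟨C0, hC0, h0'⟩ := h0 (ε / 2) (by linarith)
  refine ⟨C0 * C2, by nlinarith, ?_⟩
  intro M T i j k n hM hT hi hj hk hn hij hik hin hjk hjn hkn hsupp hA hB
  have hM1 : (1 : ℝ) ≤ M := by exact_mod_cast hM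
  have hM0 : (0 : ℝ) < M := by linarith
  have hK : 0 ≤ C2 * (M : ℝ) ^ (ε / 2) := by positivity
  have hTi := hT i
  have hTj := hT j
  have hTk := hT k
  have hTn := hT n
  -- the product of all sizes
  have hprod : ∏ l, T l = (T i * T j) * (T k * T n) := by
    have h3 : ∏ l, T l = ∏ l ∈ ({i, j, k, n} : Finset (Fin 9)), T l := by
      symm
      apply Finset.prod_subset (Finset.subset_univ _)
      intro l _ hl
      simp only [Finset.mem_insert, Finset.mem_singleton, not_or] at hl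
      exact hsupp l hl.1 hl.2.1 hl.2.2.1 hl.2.2.2
    rw [h3, Finset.prod_insert, Finset.prod_insert, Finset.prod_insert, Finset.prod_singleton]
    · ring
    · simp only [Finset.mem_singleton]
      exact hkn
    · simp only [Finset.mem_insert, Finset.mem_singleton, not_or]
      exact ⟨hjk, hjn⟩
    · simp only [Finset.mem_insert, Finset.mem_singleton, not_or]
      exact ⟨hij, hik, hin⟩
  have hprodM : ∏ l, T l ≤ M := by
    rw [hprod]
    have h4 : 0 < T i * T j := by positivity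
    have h5 : 0 < T k * T n := by positivity
    nlinarith [sq_nonneg (T i * T j - T k * T n)]
  have hprod1 : (0 : ℝ) < ∏ l, T l := Finset.prod_pos (fun l _ => by linarith [hT l])
  set c : Fin 9 → ℕ := fun l => if l = i ∨ l = j then 2 else 0 with hc
  have hc2 : ∀ l, c l ≤ 2 := by
    intro l
    simp only [hc]
    split_ifs <;> norm_num
  have key1 : ∀ U : Fin 9 → ℝ, (∀ l, 1 ≤ U l ∧ U l ≤ T l ^ (2 - c l)) →
      NN M U ≤ C2 * (M : ℝ) ^ (ε / 2) * ∏ l, U l := by
    intro U hU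
    apply h2' M U k n hM (fun l => (hU l).1) hk hn hkn
    · intro l hlk hln
      apply le_antisymm _ (hU l).1
      have h3 := (hU l).2
      by_cases hl : l = i ∨ l = j
      · have h4 : c l = 2 := by simp only [hc]; rw [if_pos hl]
        rw [h4] at h3
        simpa using h3
      · push Not at hl
        rw [hsupp l hl.1 hl.2 hlk hln] at h3
        simpa using h3
    · have h3 : c k = 0 := by
        simp only [hc]
        rw [if_neg]
        push Not
        exact ⟨Ne.symm hik, Ne.symm hjk⟩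
      have h4 : c n = 0 := by
        simp only [hc]
        rw [if_neg]
        push Not
        exact ⟨Ne.symm hin, Ne.symm hjn⟩
      have h5 := (hU k).2
      have h6 := (hU n).2
      rw [h3] at h5
      rw [h4] at h6
      have h7 := (hU k).1
      have h8 := (hU n).1
      calc U k * U n ≤ T k ^ (2 - 0) * T n ^ (2 - 0) := by
            apply mul_le_mul h5 h6 (by linarith) (by positivity)
        _ = (T k * T n) ^ 2 := by ring
        _ ≤ M := hB
  have key2 : ∀ U : Fin 9 → ℝ, (∀ l, 1 ≤ U l ∧ U l ≤ T l ^ (c l)) →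
      NN M U ≤ C2 * (M : ℝ) ^ (ε / 2) * ∏ l, U l := by
    intro U hU
    apply h2' M U i j hM (fun l => (hU l).1) hi hj hij
    · intro l hli hlj
      apply le_antisymm _ (hU l).1
      have h3 := (hU l).2
      have h4 : c l = 0 := by
        simp only [hc]
        rw [if_neg]
        push Not
        exact ⟨hli, hlj⟩
      rw [h4] at h3
      simpa using h3
    · have h3 : c i = 2 := if_pos (Or.inl rfl)
      have h4 : c j = 2 := if_pos (Or.inr rfl)
      have h5 := (hU i).2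
      have h6 := (hU j).2
      rw [h3] at h5
      rw [h4] at h6
      have h7 := (hU i).1
      have h8 := (hU j).1
      calc U i * U j ≤ T i ^ 2 * T j ^ 2 := by
            apply mul_le_mul h5 h6 (by linarith) (by positivity)
        _ = (T i * T j) ^ 2 := by ring
        _ ≤ M := hA
  have hmain := h0' M T c (C2 * (M : ℝ) ^ (ε / 2)) (C2 * (M : ℝ) ^ (ε / 2)) hM hT hc2 hK hK
    key1 key2
  rw [Real.sqrt_mul_self hK] at hmain
  have h9 : (∏ l, T l) ^ (ε / 2) ≤ (M : ℝ) ^ (ε / 2) :=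
    Real.rpow_le_rpow hprod1.le hprodM (by linarith)
  have h10 : (M : ℝ) ^ (ε / 2) * (M : ℝ) ^ (ε / 2) = (M : ℝ) ^ ε := by
    rw [← Real.rpow_add hM0]
    congr 1
    ring
  calc NN M T ≤ C0 * (∏ l, T l) ^ (ε / 2) * (C2 * (M : ℝ) ^ (ε / 2) * ∏ l, T l) := hmain
    _ ≤ C0 * (M : ℝ) ^ (ε / 2) * (C2 * (M : ℝ) ^ (ε / 2) * ∏ l, T l) := by
        apply mul_le_mul_of_nonneg_right _ (by positivity)
        exact mul_le_mul_of_nonneg_left h9 (by linarith)
    _ = C0 * C2 * ((M : ℝ) ^ (ε / 2) * (M : ℝ) ^ (ε / 2)) * ∏ l, T l := by ring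
    _ = C0 * C2 * (M : ℝ) ^ ε * ∏ l, T l := by rw [h10]

end Pool.Agent.Helper21.EN
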