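import Pool.Agent.Helper21.EN.Stmts

set_option autoImplicit false

/-!
# Project EN, piece REC

The recursion, with the number of far pairs estimated by the energy bounds.
Paper: /team-store/EN_paper.md.
-/

namespace Pool.Agent.Helper21.EN

open Finset

theorem rec_gP_one (T : Fin 9 → ℝ) (c : Fin 9 → ℕ) (hT : ∀ i, 1 ≤ T i) (i : Fin 9) :
    1 ≤ gP T c i := by
  unfold gP
  split_ifs
  · exact hT i
  · exact le_refl 1

theorem rec_gQ_one (T : Fin 9 → ℝ) (c : Fin 9 → ℕ) (hT : ∀ i, 1 ≤ T i) (i : Fin 9) :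
    1 ≤ gQ T c i := by
  unfold gQ
  split_ifs
  · exact hT i
  · exact le_refl 1

theorem rec_mul (T : Fin 9 → ℝ) (c : Fin 9 → ℕ) (hc : ∀ i, c i ≤ 2) (i : Fin 9) :
    gP T c i * gQ T c i = T i ^ (c i) := by
  unfold gP gQ
  have h := hc i
  have h3 : c i = 0 ∨ c i = 1 ∨ c i = 2 := by omega
  rcases h3 with h0 | h0 | h0
  · rw [h0]; norm_num
  · rw [h0]; norm_num
  · rw [h0]; norm_num; ring

theorem rec_ht_one {M : ℕ} {T : Fin 9 → ℝ} {z : Vec × Vec} (hz : z ∈ Sol M T) (i : Fin 9) :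
    1 ≤ ht z i := by
  classical
  unfold Sol at hz
  rw [Finset.mem_filter, Finset.mem_product] at hz
  have h1 := hz.1.1
  unfold vbox at h1
  rw [Fintype.mem_piFinset] at h1
  have h2 := (Finset.mem_Icc.1 (h1 i)).1
  unfold ht
  have h3 : 1 ≤ max (z.1 i) (z.2 i) := le_max_of_le_left h2
  exact_mod_cast h3

theorem rec_thm (hg : RECGStmt) (h1 : E1Stmt) (h2 : E2Stmt) : RECStmt := by
  classical
  intro ε hε
  obtain ⟨C0, hC0, hg'⟩ := hg (ε / 2) (by positivity)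
  obtain ⟨C1, hC1, h1'⟩ := h1 (ε / 8) (by positivity)
  obtain ⟨C2, hC2, h2'⟩ := h2 (ε / 8) (by positivity)
  refine ⟨C0 * Real.sqrt (C1 * C2), ?_, ?_⟩
  · have h : 1 ≤ Real.sqrt (C1 * C2) := by
      rw [Real.one_le_sqrt]
      nlinarith
    nlinarith
  intro M T c T0 K1 K2 hM hT hc hT0 hK1 hK2 hb1 hb2
  have hg1 := hg' M T c T0 K1 hM hT hc hT0 hK1 hb1
  set Pi : ℝ := ∏ i, T i with hPi
  have hPi1 : 1 ≤ Pi := by
    rw [hPi]
    have h : ∏ _i : Fin 9, (1 : ℝ) ≤ ∏ i, T i :=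
      Finset.prod_le_prod (fun _ _ => zero_le_one) (fun i _ => hT i)
    simpa using h
  have hPi0 : 0 < Pi := by linarith
  -- the far pairs
  have hB : ∀ i, 1 ≤ gP T c i * gQ T c i := fun i =>
    one_le_mul_of_one_le_of_one_le (rec_gP_one T c hT i) (rec_gQ_one T c hT i)
  have hfar1 := h1' M (gP T c) (gQ T c) (fun z => ∃ i, T0 ≤ ht z i) (Far M T c T0) hM
    (rec_gP_one T c hT) (rec_gQ_one T c hT) (by
      intro s hs
      unfold Far at hs
      rw [Finset.mem_filter, Finset.mem_product] at hs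
      exact ⟨hs.1.1, hs.1.2, hs.2.2.2.1, hs.2.2.2.2⟩)
    ((Sol M (fun i => gP T c i * gQ T c i)).filter (fun z => ∃ i, T0 ≤ ht z i))
    (fun z hz hp => Finset.mem_filter.2 ⟨hz, hp⟩)
  have hfar2 := h2' M (fun i => gP T c i * gQ T c i)
    ((Sol M (fun i => gP T c i * gQ T c i)).filter (fun z => ∃ i, T0 ≤ ht z i)) K2 hM hB hK2
    (Finset.filter_subset _ _) (by
      intro z hz U hU
      rw [Finset.mem_filter] at hz
      obtain ⟨hz1, i0, hi0⟩ := hz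
      refine hb2 U (fun i => ⟨(rec_ht_one hz1 i).trans (hU i).1, ?_⟩) ⟨i0, hi0.trans (hU i0).1⟩
      rw [← rec_mul T c hc i]
      exact (hU i).2.2)
  set Pc : ℝ := ∏ i, T i ^ (c i) with hPc
  have hPB : ∏ i, gP T c i * gQ T c i = Pc := by
    rw [hPc]
    exact Finset.prod_congr rfl fun i _ => rec_mul T c hc i
  have hPc1 : 1 ≤ Pc := by
    rw [← hPB]
    have h : ∏ _i : Fin 9, (1 : ℝ) ≤ ∏ i, gP T c i * gQ T c i :=
      Finset.prod_le_prod (fun _ _ => zero_le_one) (fun i _ => hB i)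
    simpa using h
  have hPc2 : Pc ≤ Pi ^ 2 := by
    rw [hPc, hPi, ← Finset.prod_pow]
    refine Finset.prod_le_prod (fun i _ => by have := hT i; positivity) fun i _ => ?_
    exact pow_le_pow_right₀ (hT i) (hc i)
  have hPcc : (∏ i, T i ^ (2 - c i)) * Pc = Pi ^ 2 := by
    rw [hPc, hPi, ← Finset.prod_mul_distrib, ← Finset.prod_pow]
    refine Finset.prod_congr rfl fun i _ => ?_
    rw [← pow_add]
    congr 1
    have := hc i
    omega
  simp only [hPB] at hfar1 hfar2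
  have hPe : Pc ^ (ε / 8) ≤ Pi ^ (ε / 4) := by
    calc Pc ^ (ε / 8) ≤ (Pi ^ 2) ^ (ε / 8) :=
          Real.rpow_le_rpow (by linarith) hPc2 (by positivity)
      _ = Pi ^ (ε / 4) := by
          rw [← Real.rpow_natCast Pi 2, ← Real.rpow_mul hPi0.le]
          congr 1
          push_cast
          ring
  have hPe0 : 0 ≤ Pc ^ (ε / 8) := Real.rpow_nonneg (by linarith) _
  have hPe1 : 0 ≤ Pi ^ (ε / 4) := Real.rpow_nonneg hPi0.le _
  have hfar : ((Far M T c T0).card : ℝ) ≤ C1 * C2 * (Pi ^ (ε / 4)) ^ 2 * K2 * Pc := by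
    calc ((Far M T c T0).card : ℝ) ≤ C1 * Pc ^ (ε / 8) * (C2 * Pc ^ (ε / 8) * K2 * Pc) := by
          refine hfar1.trans ?_
          exact mul_le_mul_of_nonneg_left hfar2 (by positivity)
      _ = C1 * C2 * K2 * Pc * (Pc ^ (ε / 8) * Pc ^ (ε / 8)) := by ring
      _ ≤ C1 * C2 * K2 * Pc * (Pi ^ (ε / 4) * Pi ^ (ε / 4)) := by
          refine mul_le_mul_of_nonneg_left ?_ (by positivity)
          exact mul_le_mul hPe hPe hPe0 hPe1
      _ = C1 * C2 * (Pi ^ (ε / 4)) ^ 2 * K2 * Pc := by ring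
  set Pd : ℝ := ∏ i, T i ^ (2 - c i) with hPd
  have hPd0 : 0 ≤ Pd := Finset.prod_nonneg fun i _ => by have := hT i; positivity
  have hsq : Real.sqrt (K1 * Pd * ((Far M T c T0).card : ℝ)) ≤
      Real.sqrt (C1 * C2) * Pi ^ (ε / 4) * (Real.sqrt (K1 * K2) * Pi) := by
    have e1 : K1 * Pd * ((Far M T c T0).card : ℝ) ≤
        (C1 * C2) * (K1 * K2) * (Pi ^ (ε / 4) * Pi) ^ 2 := by
      calc K1 * Pd * ((Far M T c T0).card : ℝ) ≤
            K1 * Pd * (C1 * C2 * (Pi ^ (ε / 4)) ^ 2 * K2 * Pc) :=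
            mul_le_mul_of_nonneg_left hfar (by positivity)
        _ = (C1 * C2) * (K1 * K2) * (Pi ^ (ε / 4)) ^ 2 * (Pd * Pc) := by ring
        _ = (C1 * C2) * (K1 * K2) * (Pi ^ (ε / 4) * Pi) ^ 2 := by rw [hPcc]; ring
    have e2 : 0 ≤ C1 * C2 := by positivity
    have e3 : 0 ≤ K1 * K2 := by positivity
    have e4 : 0 ≤ Pi ^ (ε / 4) * Pi := by positivity
    calc Real.sqrt (K1 * Pd * ((Far M T c T0).card : ℝ)) ≤
          Real.sqrt ((C1 * C2) * (K1 * K2) * (Pi ^ (ε / 4) * Pi) ^ 2) := Real.sqrt_le_sqrt e1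
      _ = Real.sqrt (C1 * C2) * Real.sqrt (K1 * K2) * (Pi ^ (ε / 4) * Pi) := by
          rw [Real.sqrt_mul (by positivity), Real.sqrt_mul e2, Real.sqrt_sq e4]
      _ = _ := by ring
  have hs1 : 1 ≤ Real.sqrt (C1 * C2) := by
    rw [Real.one_le_sqrt]
    nlinarith
  have hp1 : 1 ≤ Pi ^ (ε / 4) := Real.one_le_rpow hPi1 (by positivity)
  have hp2 : Pi ^ (ε / 2) * Pi ^ (ε / 4) ≤ Pi ^ ε := by
    rw [← Real.rpow_add hPi0]
    exact Real.rpow_le_rpow_of_exponent_le hPi1 (by linarith)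
  have hT18 : 0 ≤ T0 ^ 18 * Pd := by positivity
  have hKK : 0 ≤ Real.sqrt (K1 * K2) * Pi := by positivity
  calc NN M T ≤ C0 * Pi ^ (ε / 2) * (T0 ^ 18 * Pd +
        Real.sqrt (K1 * Pd * ((Far M T c T0).card : ℝ))) := hg1
    _ ≤ C0 * Pi ^ (ε / 2) * (Real.sqrt (C1 * C2) * Pi ^ (ε / 4) * (T0 ^ 18 * Pd) +
        Real.sqrt (C1 * C2) * Pi ^ (ε / 4) * (Real.sqrt (K1 * K2) * Pi)) := by
        refine mul_le_mul_of_nonneg_left (add_le_add ?_ hsq) (by positivity)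
        have h : 1 ≤ Real.sqrt (C1 * C2) * Pi ^ (ε / 4) :=
          one_le_mul_of_one_le_of_one_le hs1 hp1
        nlinarith
    _ = C0 * Real.sqrt (C1 * C2) * (Pi ^ (ε / 2) * Pi ^ (ε / 4)) *
        (T0 ^ 18 * Pd + Real.sqrt (K1 * K2) * Pi) := by ring
    _ ≤ C0 * Real.sqrt (C1 * C2) * Pi ^ ε * (T0 ^ 18 * Pd + Real.sqrt (K1 * K2) * Pi) := by
        refine mul_le_mul_of_nonneg_right ?_ (by positivity)
        exact mul_le_mul_of_nonneg_left hp2 (by positivity)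

end Pool.Agent.Helper21.EN
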