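import Pool.Agent.Helper21.EN.Stmts

set_option autoImplicit false

/-!
# Project EN, piece REC0

The recursion without near pairs. The statement is in EN/Stmts.lean. Paper:
/team-store/EN_paper.md.
-/

namespace Pool.Agent.Helper21.EN

open Finset

/-- first group -/
def rec0_f (c : Fin 9 → ℕ) (z : Vec × Vec) : Vec × Vec :=
  (fun i => if c i ≤ 1 then z.2 i else 1, fun i => if c i = 0 then z.1 i else 1)

/-- second group -/
def rec0_g (c : Fin 9 → ℕ) (z : Vec × Vec) : Vec × Vec :=
  (fun i => if 1 ≤ c i then z.1 i else 1, fun i => if c i = 2 then z.2 i else 1)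

/-- sizes of the first group -/
noncomputable def rec0_fP (T : Fin 9 → ℝ) (c : Fin 9 → ℕ) : Fin 9 → ℝ :=
  fun i => if c i ≤ 1 then T i else 1

/-- sizes of the first group -/
noncomputable def rec0_fQ (T : Fin 9 → ℝ) (c : Fin 9 → ℕ) : Fin 9 → ℝ :=
  fun i => if c i = 0 then T i else 1

/-- the value -/
noncomputable def rec0_val (M : ℕ) (z : Vec × Vec) : ZMod M :=
  (mon z.1 : ZMod M) * (mon z.2 : ZMod M)⁻¹

theorem rec0_cop {M : ℕ} {x : Vec} (h : ∀ i, Nat.Coprime (x i) M) : Nat.Coprime (mon x) M :=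
  Nat.Coprime.prod_left fun i _ => Nat.Coprime.pow_left _ (h i)

theorem rec0_val_eq {M : ℕ} {x y x' y' : Vec} (hy : Nat.Coprime (mon y) M)
    (hy' : Nat.Coprime (mon y') M) :
    rec0_val M (x, y) = rec0_val M (x', y') ↔ mon x * mon y' ≡ mon x' * mon y [MOD M] := by
  have e1 := ZMod.coe_mul_inv_eq_one (mon y) hy
  have e2 := ZMod.coe_mul_inv_eq_one (mon y') hy'
  rw [← ZMod.natCast_eq_natCast_iff]
  push_cast
  unfold rec0_val
  simp only
  constructor
  · intro h
    calc (mon x : ZMod M) * (mon y' : ZMod M) =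
        (mon x : ZMod M) * (mon y : ZMod M)⁻¹ * ((mon y : ZMod M) * (mon y' : ZMod M)) := by
          linear_combination (-(mon x : ZMod M) * (mon y' : ZMod M)) * e1
      _ = (mon x' : ZMod M) * (mon y' : ZMod M)⁻¹ * ((mon y : ZMod M) * (mon y' : ZMod M)) := by
          rw [h]
      _ = (mon x' : ZMod M) * (mon y : ZMod M) := by
          linear_combination ((mon x' : ZMod M) * (mon y : ZMod M)) * e2
  · intro h
    calc (mon x : ZMod M) * (mon y : ZMod M)⁻¹ =
        (mon x : ZMod M) * (mon y' : ZMod M) * ((mon y' : ZMod M)⁻¹ * (mon y : ZMod M)⁻¹) := by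
          linear_combination (-(mon x : ZMod M) * (mon y : ZMod M)⁻¹) * e2
      _ = (mon x' : ZMod M) * (mon y : ZMod M) * ((mon y' : ZMod M)⁻¹ * (mon y : ZMod M)⁻¹) := by
          rw [h]
      _ = (mon x' : ZMod M) * (mon y' : ZMod M)⁻¹ := by
          linear_combination ((mon x' : ZMod M) * (mon y' : ZMod M)⁻¹) * e1

theorem rec0_cs {ι V : Type} [DecidableEq ι] [Fintype V] [DecidableEq V] (A B : Finset ι)
    (α : ι → V) :
    (((A ×ˢ B).filter fun p => α p.1 = α p.2).card : ℝ) ^ 2 ≤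
      (((A ×ˢ A).filter fun p => α p.1 = α p.2).card : ℝ) *
        (((B ×ˢ B).filter fun p => α p.1 = α p.2).card : ℝ) := by
  have key : ∀ A B : Finset ι, (((A ×ˢ B).filter fun p => α p.1 = α p.2).card : ℝ) =
      ∑ v : V, ((A.filter fun a => α a = v).card : ℝ) * ((B.filter fun b => α b = v).card : ℝ) := by
    intro A B
    have h1 : (A ×ˢ B).filter (fun p => α p.1 = α p.2) =
        (univ : Finset V).biUnion fun v =>
          (A.filter fun a => α a = v) ×ˢ (B.filter fun b => α b = v) := by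
      ext p
      simp only [Finset.mem_filter, Finset.mem_product, Finset.mem_biUnion, Finset.mem_univ,
        true_and]
      constructor
      · rintro ⟨⟨h1, h2⟩, h3⟩
        exact ⟨α p.1, ⟨h1, rfl⟩, h2, h3.symm⟩
      · rintro ⟨v, ⟨h1, h2⟩, h3, h4⟩
        exact ⟨⟨h1, h3⟩, h2.trans h4.symm⟩
    rw [h1, Finset.card_biUnion]
    · push_cast
      refine Finset.sum_congr rfl fun v _ => ?_
      rw [Finset.card_product]
      push_cast
      rfl
    · intro v _ v' _ hvv
      rw [Function.onFun, Finset.disjoint_left]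
      rintro p hp hp'
      rw [Finset.mem_product, Finset.mem_filter] at hp hp'
      exact hvv (hp.1.2.symm.trans hp'.1.2)
  rw [key, key, key]
  have := Finset.sum_mul_sq_le_sq_mul_sq (univ : Finset V)
    (fun v => ((A.filter fun a => α a = v).card : ℝ))
    (fun v => ((B.filter fun b => α b = v).card : ℝ))
  simpa [sq] using this

theorem rec0_mem_vbox {T : Fin 9 → ℝ} {x : Vec} :
    x ∈ vbox T ↔ ∀ i, 1 ≤ x i ∧ x i ≤ ⌊T i⌋₊ := by
  simp [vbox, Fintype.mem_piFinset]

theorem rec0_energy (h1 : E1Stmt) (h2 : E2Stmt) (ε : ℝ) (hε : 0 < ε) : ∃ C : ℝ, 1 ≤ C ∧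
    ∀ (M : ℕ) (P Q : Fin 9 → ℝ) (K : ℝ), 1 ≤ M → (∀ i, 1 ≤ P i) → (∀ i, 1 ≤ Q i) → 0 ≤ K →
    (∀ U : Fin 9 → ℝ, (∀ i, 1 ≤ U i ∧ U i ≤ P i * Q i) → NN M U ≤ K * ∏ i, U i) →
    ∀ S : Finset ((Vec × Vec) × (Vec × Vec)),
    (∀ s ∈ S, s.1 ∈ GBox M P Q ∧ s.2 ∈ GBox M P Q ∧ SameVal M s.1 s.2) →
    (S.card : ℝ) ≤ C * (∏ i, P i * Q i) ^ (2 * ε) * K * ∏ i, P i * Q i := by
  obtain ⟨C1, hC1, H1⟩ := h1 ε hε
  obtain ⟨C2, hC2, H2⟩ := h2 ε hε
  refine ⟨C1 * C2, by nlinarith, ?_⟩
  intro M P Q K hM hP hQ hK hU S hS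
  have e1 := H1 M P Q (fun _ => True) S hM hP hQ (fun s hs => ⟨(hS s hs).1, (hS s hs).2.1,
    (hS s hs).2.2, trivial⟩) (Sol M fun i => P i * Q i) (fun z hz _ => hz)
  have hPQ : ∀ i, 1 ≤ P i * Q i := fun i => by nlinarith [hP i, hQ i]
  have e2 := H2 M (fun i => P i * Q i) (Sol M fun i => P i * Q i) K hM hPQ hK
    (Finset.Subset.refl _) (by
      intro z hz U hUz
      refine hU U fun i => ⟨?_, (hUz i).2.2⟩
      refine le_trans ?_ (hUz i).1
      unfold Sol at hz
      rw [Finset.mem_filter, Finset.mem_product, rec0_mem_vbox] at hz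
      have h3 : 1 ≤ z.1 i := (hz.1.1 i).1
      unfold ht
      have h4 : 1 ≤ max (z.1 i) (z.2 i) := le_trans h3 (le_max_left _ _)
      exact_mod_cast h4)
  have hprod : 1 ≤ ∏ i, P i * Q i := by
    have := Finset.prod_le_prod (s := (univ : Finset (Fin 9))) (f := fun _ => (1 : ℝ))
      (g := fun i => P i * Q i) (fun _ _ => zero_le_one) (fun i _ => hPQ i)
    simpa using this
  have hp0 : 0 < ∏ i, P i * Q i := by linarith
  have hpe : 0 < (∏ i, P i * Q i) ^ ε := Real.rpow_pos_of_pos hp0 _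
  calc (S.card : ℝ) ≤ C1 * (∏ i, P i * Q i) ^ ε *
        ∑ z ∈ Sol M (fun i => P i * Q i), ∏ i, (P i * Q i) / ht z i := e1
    _ ≤ C1 * (∏ i, P i * Q i) ^ ε * (C2 * (∏ i, P i * Q i) ^ ε * K * ∏ i, P i * Q i) :=
        mul_le_mul_of_nonneg_left e2 (by positivity)
    _ = _ := by
        rw [two_mul, Real.rpow_add hp0]
        ring

theorem rec0_end {Y bf bg K1 K2 C ε n m EF EG : ℝ} (hY : 0 < Y) (hbf0 : 0 < bf) (hbg0 : 0 < bg)
    (hbb : bf * bg = Y ^ 2) (hK1 : 0 ≤ K1) (hK2 : 0 ≤ K2) (hC : 0 ≤ C) (hn : 0 ≤ n) (hnm : n ≤ m)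
    (hEF : 0 ≤ EF) (hEG : 0 ≤ EG) (hcs : m ^ 2 ≤ EF * EG) (hF : EF ≤ C * bf ^ ε * K1 * bf)
    (hG : EG ≤ C * bg ^ ε * K2 * bg) : n ≤ C * Y ^ ε * (Real.sqrt (K1 * K2) * Y) := by
  have h1 : n ^ 2 ≤ m ^ 2 := pow_le_pow_left₀ hn hnm 2
  have h2 : EF * EG ≤ (C * bf ^ ε * K1 * bf) * (C * bg ^ ε * K2 * bg) :=
    mul_le_mul hF hG hEG (hEF.trans hF)
  have h3 : (C * bf ^ ε * K1 * bf) * (C * bg ^ ε * K2 * bg) =
      (C * Y ^ ε * (Real.sqrt (K1 * K2) * Y)) ^ 2 := by
    have e1 : (Y ^ 2) ^ ε = (Y ^ ε) ^ 2 := by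
      rw [← Real.rpow_natCast, ← Real.rpow_mul hY.le, ← Real.rpow_natCast,
        ← Real.rpow_mul hY.le, mul_comm]
    have e2 : Real.sqrt (K1 * K2) ^ 2 = K1 * K2 := Real.sq_sqrt (mul_nonneg hK1 hK2)
    calc (C * bf ^ ε * K1 * bf) * (C * bg ^ ε * K2 * bg) =
        C ^ 2 * (bf ^ ε * bg ^ ε) * (K1 * K2) * (bf * bg) := by ring
      _ = C ^ 2 * (Y ^ 2) ^ ε * (K1 * K2) * Y ^ 2 := by
          rw [← Real.mul_rpow hbf0.le hbg0.le, hbb]
      _ = _ := by
          rw [e1, mul_pow, mul_pow, mul_pow, e2]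
          ring
  have h4 : n ^ 2 ≤ (C * Y ^ ε * (Real.sqrt (K1 * K2) * Y)) ^ 2 := by linarith
  have h5 : 0 ≤ C * Y ^ ε * (Real.sqrt (K1 * K2) * Y) :=
    mul_nonneg (mul_nonneg hC (Real.rpow_nonneg hY.le _)) (mul_nonneg (Real.sqrt_nonneg _) hY.le)
  exact le_of_sq_le_sq h4 h5

theorem rec0_thm (h1 : E1Stmt) (h2 : E2Stmt) : REC0Stmt := by
  classical
  intro ε hε
  obtain ⟨C, hC, H⟩ := rec0_energy h1 h2 (ε / 2) (by linarith)
  refine ⟨C, hC, ?_⟩
  intro M T c K1 K2 hM hT hc hK1 hK2 hU1 hU2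
  have : NeZero M := ⟨by omega⟩
  have hT0 : ∀ i, 0 < T i := fun i => by linarith [hT i]
  have hfP : ∀ i, 1 ≤ rec0_fP T c i := by
    intro i; unfold rec0_fP; split_ifs
    · exact hT i
    · exact le_rfl
  have hfQ : ∀ i, 1 ≤ rec0_fQ T c i := by
    intro i; unfold rec0_fQ; split_ifs
    · exact hT i
    · exact le_rfl
  have hgP : ∀ i, 1 ≤ gP T c i := by
    intro i; unfold gP; split_ifs
    · exact hT i
    · exact le_rfl
  have hgQ : ∀ i, 1 ≤ gQ T c i := by
    intro i; unfold gQ; split_ifs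
    · exact hT i
    · exact le_rfl
  have hf : ∀ i, rec0_fP T c i * rec0_fQ T c i = T i ^ (2 - c i) := by
    intro i
    have := hc i
    unfold rec0_fP rec0_fQ
    interval_cases (c i) <;> norm_num [sq]
  have hg : ∀ i, gP T c i * gQ T c i = T i ^ (c i) := by
    intro i
    have := hc i
    unfold gP gQ
    interval_cases (c i) <;> norm_num [sq]
  set A := GBox M (rec0_fP T c) (rec0_fQ T c) with hA
  set B := GBox M (gP T c) (gQ T c) with hB
  -- same values
  have hval : ∀ (P Q : Fin 9 → ℝ), ∀ s ∈ (GBox M P Q ×ˢ GBox M P Q).filter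
      (fun p => rec0_val M p.1 = rec0_val M p.2),
      s.1 ∈ GBox M P Q ∧ s.2 ∈ GBox M P Q ∧ SameVal M s.1 s.2 := by
    intro P Q s hs
    rw [Finset.mem_filter, Finset.mem_product] at hs
    refine ⟨hs.1.1, hs.1.2, ?_⟩
    have h3 := hs.1.1
    have h4 := hs.1.2
    unfold GBox at h3 h4
    rw [Finset.mem_filter] at h3 h4
    exact (rec0_val_eq (rec0_cop h3.2.2) (rec0_cop h4.2.2)).1 hs.2
  have hF := H M (rec0_fP T c) (rec0_fQ T c) K1 hM hfP hfQ hK1 (by
    intro U hU
    exact hU1 U fun i => ⟨(hU i).1, by rw [← hf i]; exact (hU i).2⟩) _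
    (hval (rec0_fP T c) (rec0_fQ T c))
  have hG := H M (gP T c) (gQ T c) K2 hM hgP hgQ hK2 (by
    intro U hU
    exact hU2 U fun i => ⟨(hU i).1, by rw [← hg i]; exact (hU i).2⟩) _
    (hval (gP T c) (gQ T c))
  have hcs := rec0_cs A B (rec0_val M)
  -- the injection
  have hinj : (Sol M T).card ≤ ((A ×ˢ B).filter fun p => rec0_val M p.1 = rec0_val M p.2).card := by
    refine Finset.card_le_card_of_injOn (fun z => (rec0_f c z, rec0_g c z)) ?_ ?_
    · intro z hz
      have hz' := Finset.mem_coe.1 hz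
      unfold Sol at hz'
      rw [Finset.mem_filter, Finset.mem_product, rec0_mem_vbox, rec0_mem_vbox] at hz'
      obtain ⟨⟨hz1, hz2⟩, -, hc1, hc2, hmod⟩ := hz'
      have m1 : 1 ≤ ⌊(1 : ℝ)⌋₊ := by simp
      rw [Finset.mem_coe, Finset.mem_filter, Finset.mem_product]
      have mA : rec0_f c z ∈ A := by
        rw [hA]
        unfold GBox rec0_f rec0_fP rec0_fQ
        rw [Finset.mem_filter, Finset.mem_product, rec0_mem_vbox, rec0_mem_vbox]
        refine ⟨⟨fun i => ?_, fun i => ?_⟩, fun i => ?_, fun i => ?_⟩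
        · by_cases h : c i ≤ 1
          · simpa [h] using hz2 i
          · simp [h]
        · by_cases h : c i = 0
          · simpa [h] using hz1 i
          · simp [h]
        · by_cases h : c i ≤ 1
          · simpa [h] using hc2 i
          · simp [h]
        · by_cases h : c i = 0
          · simpa [h] using hc1 i
          · simp [h]
      have mB : rec0_g c z ∈ B := by
        rw [hB]
        unfold GBox rec0_g gP gQ
        rw [Finset.mem_filter, Finset.mem_product, rec0_mem_vbox, rec0_mem_vbox]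
        refine ⟨⟨fun i => ?_, fun i => ?_⟩, fun i => ?_, fun i => ?_⟩
        · by_cases h : 1 ≤ c i
          · simpa [h] using hz1 i
          · simp [h]
        · by_cases h : c i = 2
          · simpa [h] using hz2 i
          · simp [h]
        · by_cases h : 1 ≤ c i
          · simpa [h] using hc1 i
          · simp [h]
        · by_cases h : c i = 2
          · simpa [h] using hc2 i
          · simp [h]
      refine ⟨⟨mA, mB⟩, ?_⟩
      have mA' := mA
      have mB' := mB
      rw [hA] at mA'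
      rw [hB] at mB'
      unfold GBox at mA' mB'
      rw [Finset.mem_filter] at mA' mB'
      have e := (rec0_val_eq (M := M) (x := (rec0_f c z).1) (y := (rec0_f c z).2)
        (x' := (rec0_g c z).1) (y' := (rec0_g c z).2) (rec0_cop mA'.2.2) (rec0_cop mB'.2.2)).2
      refine e ?_
      have e1 : mon (rec0_f c z).1 * mon (rec0_g c z).2 = mon z.2 := by
        unfold mon
        rw [← Finset.prod_mul_distrib]
        refine Finset.prod_congr rfl fun i _ => ?_
        have := hc i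
        unfold rec0_f rec0_g
        simp only
        rw [← mul_pow]
        congr 1
        interval_cases (c i) <;> simp
      have e2 : mon (rec0_g c z).1 * mon (rec0_f c z).2 = mon z.1 := by
        unfold mon
        rw [← Finset.prod_mul_distrib]
        refine Finset.prod_congr rfl fun i _ => ?_
        have := hc i
        unfold rec0_f rec0_g
        simp only
        rw [← mul_pow]
        congr 1
        interval_cases (c i) <;> simp
      rw [e1, e2]
      exact hmod.symm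
    · intro z _ z' _ hzz
      have e1 := (Prod.mk.inj hzz).1
      have e2 := (Prod.mk.inj hzz).2
      unfold rec0_f at e1
      unfold rec0_g at e2
      have a1 := (Prod.mk.inj e1).1
      have a2 := (Prod.mk.inj e1).2
      have b1 := (Prod.mk.inj e2).1
      have b2 := (Prod.mk.inj e2).2
      refine Prod.ext (funext fun i => ?_) (funext fun i => ?_)
      · by_cases h : 1 ≤ c i
        · have := congrFun b1 i
          simpa [h] using this
        · have := congrFun a2 i
          have h0 : c i = 0 := by omega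
          simpa [h0] using this
      · by_cases h : c i ≤ 1
        · have := congrFun a1 i
          simpa [h] using this
        · have := congrFun b2 i
          have h0 : c i = 2 := by have := hc i; omega
          simpa [h0] using this
  -- the end
  have hprodT : 0 < ∏ i, T i := Finset.prod_pos fun i _ => hT0 i
  set bf := ∏ i, rec0_fP T c i * rec0_fQ T c i with hbf
  set bg := ∏ i, gP T c i * gQ T c i with hbg
  have hbf0 : 0 < bf := Finset.prod_pos fun i _ => by nlinarith [hfP i, hfQ i]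
  have hbg0 : 0 < bg := Finset.prod_pos fun i _ => by nlinarith [hgP i, hgQ i]
  have hbb : bf * bg = (∏ i, T i) ^ 2 := by
    rw [hbf, hbg, ← Finset.prod_mul_distrib, ← Finset.prod_pow]
    refine Finset.prod_congr rfl fun i _ => ?_
    rw [hf, hg, ← pow_add]
    congr 1
    have := hc i
    omega
  have h5 : (2 : ℝ) * (ε / 2) = ε := by ring
  rw [h5] at hF hG
  have hnn : NN M T ≤
      (((A ×ˢ B).filter fun p => rec0_val M p.1 = rec0_val M p.2).card : ℝ) := by
    have : ((Sol M T).card : ℝ) ≤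
        (((A ×ˢ B).filter fun p => rec0_val M p.1 = rec0_val M p.2).card : ℝ) :=
      Nat.cast_le.2 hinj
    exact this
  have e0 : 0 ≤ NN M T := Nat.cast_nonneg _
  exact rec0_end hprodT hbf0 hbg0 hbb hK1 hK2 (le_trans zero_le_one hC) e0 hnn
    (Nat.cast_nonneg _) (Nat.cast_nonneg _) hcs hF hG

end Pool.Agent.Helper21.EN
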