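import Pool.Agent.Helper21.EN.REC0

set_option autoImplicit false

/-!
# Project EN, piece RECG

The recursion with an explicit number of far pairs (Cauchy-Schwarz off the near pairs). The
statement is in EN/Stmts.lean. Paper: /team-store/EN_paper.md.
-/

namespace Pool.Agent.Helper21.EN

open Finset

/-- A reduced fraction determines its numerator and denominator. -/
theorem recg_frac {x y x' y' : ℕ} (hx : 0 < x) (h : Nat.Coprime x y) (h' : Nat.Coprime x' y')
    (e : x * y' = x' * y) : x = x' ∧ y = y' := by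
  have h1 : x ∣ x' := h.dvd_of_dvd_mul_right ⟨y', e.symm⟩
  have h2 : x' ∣ x := h'.dvd_of_dvd_mul_right ⟨y, e⟩
  have h3 : x = x' := Nat.dvd_antisymm h1 h2
  refine ⟨h3, ?_⟩
  rw [← h3] at e
  exact (Nat.eq_of_mul_eq_mul_left hx e).symm

theorem recg_div {a b a' b' : ℕ} (h1 : a / Nat.gcd a b = a' / Nat.gcd a' b')
    (h2 : b / Nat.gcd a b = b' / Nat.gcd a' b') : a * b' = a' * b := by
  have e1 := Nat.div_mul_cancel (Nat.gcd_dvd_left a b)
  have e2 := Nat.div_mul_cancel (Nat.gcd_dvd_right a b)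
  have e3 := Nat.div_mul_cancel (Nat.gcd_dvd_left a' b')
  have e4 := Nat.div_mul_cancel (Nat.gcd_dvd_right a' b')
  calc a * b' = (a / Nat.gcd a b * Nat.gcd a b) * (b' / Nat.gcd a' b' * Nat.gcd a' b') := by
        rw [e1, e4]
    _ = (a' / Nat.gcd a' b' * Nat.gcd a' b') * (b / Nat.gcd a b * Nat.gcd a b) := by
        rw [h1, h2]; ring
    _ = a' * b := by rw [e3, e2]

theorem recg_card_vbox (T0 : ℝ) (hT0 : 1 ≤ T0) : ((vbox fun _ => T0).card : ℝ) ≤ T0 ^ 9 := by
  unfold vbox
  rw [Fintype.card_piFinset]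
  simp only [Nat.card_Icc, Nat.add_sub_cancel, Finset.prod_const, Finset.card_univ,
    Fintype.card_fin]
  push_cast
  exact pow_le_pow_left₀ (Nat.cast_nonneg _) (Nat.floor_le (by linarith)) 9

/-- Few pairs near to a given one. -/
theorem recg_near (S : Finset (Vec × Vec)) (z : Vec × Vec) (T0 : ℝ) (hT0 : 1 ≤ T0)
    (hz : ∀ i, 0 < z.1 i ∧ 0 < z.2 i)
    (hS : ∀ s ∈ S, (∀ i, 0 < s.1 i ∧ 0 < s.2 i ∧ Nat.Coprime (s.1 i) (s.2 i)) ∧
      ∀ i, ht (redv z s) i < T0) : (S.card : ℝ) ≤ T0 ^ 18 := by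
  classical
  have h1 : S.card ≤ ((vbox fun _ => T0) ×ˢ (vbox fun _ => T0)).card := by
    refine Finset.card_le_card_of_injOn (fun s => redv z s) ?_ ?_
    · intro s hs
      have hs' := hS s (Finset.mem_coe.1 hs)
      rw [Finset.mem_coe, Finset.mem_product, rec0_mem_vbox, rec0_mem_vbox]
      have hpos : ∀ i, 0 < z.1 i * s.2 i ∧ 0 < s.1 i * z.2 i := fun i =>
        ⟨Nat.mul_pos (hz i).1 (hs'.1 i).2.1, Nat.mul_pos (hs'.1 i).1 (hz i).2⟩
      refine ⟨fun i => ⟨?_, ?_⟩, fun i => ⟨?_, ?_⟩⟩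
      · exact Nat.div_pos (Nat.le_of_dvd (hpos i).1 (Nat.gcd_dvd_left _ _))
          (Nat.gcd_pos_of_pos_left _ (hpos i).1)
      · refine Nat.le_floor (le_trans ?_ (hs'.2 i).le)
        unfold ht
        exact_mod_cast le_max_left _ _
      · exact Nat.div_pos (Nat.le_of_dvd (hpos i).2 (Nat.gcd_dvd_right _ _))
          (Nat.gcd_pos_of_pos_left _ (hpos i).1)
      · refine Nat.le_floor (le_trans ?_ (hs'.2 i).le)
        unfold ht
        exact_mod_cast le_max_right _ _
    · intro s hs s' hs' hss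
      have a1 := hS s (Finset.mem_coe.1 hs)
      have a2 := hS s' (Finset.mem_coe.1 hs')
      have b1 := congrArg Prod.fst hss
      have b2 := congrArg Prod.snd hss
      have key : ∀ i, s.1 i = s'.1 i ∧ s.2 i = s'.2 i := by
        intro i
        have c1 := congrFun b1 i
        have c2 := congrFun b2 i
        simp only [redv] at c1 c2
        have e := recg_div c1 c2
        have e' : (z.1 i * z.2 i) * (s.1 i * s'.2 i) = (z.1 i * z.2 i) * (s'.1 i * s.2 i) := by
          linear_combination -e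
        have e'' := Nat.eq_of_mul_eq_mul_left (Nat.mul_pos (hz i).1 (hz i).2) e'
        exact recg_frac (a1.1 i).1 (a1.1 i).2.2 (a2.1 i).2.2 e''
      exact Prod.ext (funext fun i => (key i).1) (funext fun i => (key i).2)
  rw [Finset.card_product] at h1
  have h2 := recg_card_vbox T0 hT0
  have h3 : (0 : ℝ) ≤ ((vbox fun _ => T0).card : ℝ) := Nat.cast_nonneg _
  calc (S.card : ℝ) ≤ (((vbox fun _ => T0).card * (vbox fun _ => T0).card : ℕ) : ℝ) := by
        exact_mod_cast h1
    _ = ((vbox fun _ => T0).card : ℝ) * ((vbox fun _ => T0).card : ℝ) := by push_cast; ring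
    _ ≤ T0 ^ 9 * T0 ^ 9 := mul_le_mul h2 h2 h3 (by positivity)
    _ = T0 ^ 18 := by ring

/-- Counting by the values. -/
theorem recg_key {ι V : Type} [DecidableEq ι] [Fintype V] [DecidableEq V] (A B : Finset ι)
    (α : ι → V) (R : ι → ι → Prop) [∀ x y, Decidable (R x y)] :
    (((A ×ˢ B).filter fun p => α p.1 = α p.2 ∧ R p.1 p.2).card : ℝ) =
      ∑ v : V, ((((A.filter fun a => α a = v) ×ˢ (B.filter fun b => α b = v)).filter
        fun p => R p.1 p.2).card : ℝ) := by
  have h1 : (A ×ˢ B).filter (fun p => α p.1 = α p.2 ∧ R p.1 p.2) =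
      (univ : Finset V).biUnion fun v =>
        ((A.filter fun a => α a = v) ×ˢ (B.filter fun b => α b = v)).filter
          fun p => R p.1 p.2 := by
    ext p
    simp only [Finset.mem_filter, Finset.mem_product, Finset.mem_biUnion, Finset.mem_univ,
      true_and]
    constructor
    · rintro ⟨⟨h1, h2⟩, h3, h4⟩
      exact ⟨α p.1, ⟨⟨h1, rfl⟩, h2, h3.symm⟩, h4⟩
    · rintro ⟨v, ⟨⟨h1, h2⟩, h3, h4⟩, h5⟩
      exact ⟨⟨h1, h3⟩, h2.trans h4.symm, h5⟩
  rw [h1, Finset.card_biUnion]
  · push_cast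
    rfl
  · intro v _ v' _ hvv
    rw [Function.onFun, Finset.disjoint_left]
    rintro p hp hp'
    rw [Finset.mem_filter, Finset.mem_product, Finset.mem_filter] at hp hp'
    exact hvv (hp.1.1.2.symm.trans hp'.1.1.2)

theorem recg_key0 {ι V : Type} [DecidableEq ι] [Fintype V] [DecidableEq V] (A B : Finset ι)
    (α : ι → V) :
    (((A ×ˢ B).filter fun p => α p.1 = α p.2).card : ℝ) =
      ∑ v : V, ((A.filter fun a => α a = v).card : ℝ) * ((B.filter fun b => α b = v).card : ℝ) := by
  have h := recg_key A B α (fun _ _ => True)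
  simp only [and_true] at h
  rw [h]
  refine Finset.sum_congr rfl fun v _ => ?_
  rw [Finset.filter_true_of_mem (fun _ _ => trivial), Finset.card_product]
  push_cast
  rfl

/-- Cauchy-Schwarz off the near pairs. -/
theorem recg_cs {ι V : Type} [DecidableEq ι] [Fintype V] [DecidableEq V] (A B : Finset ι)
    (α : ι → V) (R : ι → ι → Prop) [∀ x y, Decidable (R x y)] (L : ℝ) (hL : 0 ≤ L)
    (hnear : ∀ b ∈ B, ((B.filter (fun b' => α b' = α b ∧ ¬ R b b')).card : ℝ) ≤ L) :
    (((A ×ˢ B).filter fun p => α p.1 = α p.2).card : ℝ) ≤ L * A.card +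
      Real.sqrt ((((A ×ˢ A).filter fun p => α p.1 = α p.2).card : ℝ) *
        (((B ×ˢ B).filter fun p => α p.1 = α p.2 ∧ R p.1 p.2).card : ℝ)) := by
  rw [recg_key0, recg_key0, recg_key]
  have hA : (A.card : ℝ) = ∑ v : V, ((A.filter fun a => α a = v).card : ℝ) := by
    have := Finset.card_eq_sum_card_fiberwise (f := α) (s := A) (t := (univ : Finset V))
      (fun _ _ => Finset.mem_coe.2 (Finset.mem_univ _))
    rw [this]
    push_cast
    rfl
  set F : V → ℝ := fun v => ((A.filter fun a => α a = v).card : ℝ) with hF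
  set N : V → ℝ := fun v => ((B.filter fun b => α b = v).card : ℝ) with hN
  set D : V → ℝ := fun v => ((((B.filter fun a => α a = v) ×ˢ
    (B.filter fun b => α b = v)).filter fun p => R p.1 p.2).card : ℝ) with hD
  have hF0 : ∀ v, 0 ≤ F v := fun v => Nat.cast_nonneg _
  have hN0 : ∀ v, 0 ≤ N v := fun v => Nat.cast_nonneg _
  have hD0 : ∀ v, 0 ≤ D v := fun v => Nat.cast_nonneg _
  -- the near pairs
  have h1 : ∀ v, N v ^ 2 ≤ D v + L * N v := by
    intro v
    set Bv := B.filter fun b => α b = v with hBv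
    have e1 : N v ^ 2 = ((Bv ×ˢ Bv).card : ℝ) := by
      rw [Finset.card_product, hN]
      push_cast
      ring
    have e2 := Finset.card_filter_add_card_filter_not (s := Bv ×ˢ Bv) (fun p => R p.1 p.2)
    have e3 : (((Bv ×ˢ Bv).filter fun p => ¬ R p.1 p.2).card : ℝ) ≤ L * N v := by
      have e4 : ((Bv ×ˢ Bv).filter fun p => ¬ R p.1 p.2).card =
          ∑ b ∈ Bv, (((Bv ×ˢ Bv).filter fun p => ¬ R p.1 p.2).filter
            fun p => p.1 = b).card := by
        refine Finset.card_eq_sum_card_fiberwise ?_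
        intro p hp
        rw [Finset.mem_coe, Finset.mem_filter, Finset.mem_product] at hp
        exact hp.1.1
      rw [e4]
      push_cast
      have e5 : ∀ b ∈ Bv, ((((Bv ×ˢ Bv).filter fun p => ¬ R p.1 p.2).filter
          fun p => p.1 = b).card : ℝ) ≤ L := by
        intro b hb
        have hb' : b ∈ B ∧ α b = v := by
          rw [hBv, Finset.mem_filter] at hb
          exact hb
        refine le_trans ?_ (hnear b hb'.1)
        have : (((Bv ×ˢ Bv).filter fun p => ¬ R p.1 p.2).filter fun p => p.1 = b).card ≤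
            (B.filter (fun b' => α b' = α b ∧ ¬ R b b')).card := by
          refine Finset.card_le_card_of_injOn (fun p => p.2) ?_ ?_
          · intro p hp
            rw [Finset.mem_coe, Finset.mem_filter, Finset.mem_filter, Finset.mem_product, hBv,
              Finset.mem_filter, Finset.mem_filter] at hp
            rw [Finset.mem_coe, Finset.mem_filter]
            obtain ⟨⟨⟨-, hp2⟩, hp3⟩, hp4⟩ := hp
            refine ⟨hp2.1, hp2.2.trans hb'.2.symm, ?_⟩
            rw [← hp4]
            exact hp3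
          · intro p hp p' hp' hpp
            rw [Finset.mem_coe, Finset.mem_filter] at hp hp'
            exact Prod.ext (hp.2.trans hp'.2.symm) hpp
        exact_mod_cast this
      calc ∑ b ∈ Bv, ((((Bv ×ˢ Bv).filter fun p => ¬ R p.1 p.2).filter
          fun p => p.1 = b).card : ℝ) ≤ ∑ b ∈ Bv, L := Finset.sum_le_sum e5
        _ = L * N v := by
          rw [Finset.sum_const, nsmul_eq_mul, mul_comm]
    have e6 : ((Bv ×ˢ Bv).card : ℝ) = D v +
        (((Bv ×ˢ Bv).filter fun p => ¬ R p.1 p.2).card : ℝ) := by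
      rw [hD, ← e2]
      push_cast
      rfl
    rw [e1, e6]
    linarith
  have h2 : ∀ v, (max (N v - L) 0) ^ 2 ≤ D v := by
    intro v
    rcases le_total (N v - L) 0 with h | h
    · rw [max_eq_right h]
      have := hD0 v
      nlinarith
    · rw [max_eq_left h]
      nlinarith [h1 v]
  have h3 : ∀ v, F v * N v ≤ L * F v + F v * max (N v - L) 0 := by
    intro v
    have := le_max_left (N v - L) 0
    nlinarith [hF0 v, mul_le_mul_of_nonneg_left this (hF0 v)]
  have h4 : ∑ v, F v * max (N v - L) 0 ≤ Real.sqrt ((∑ v, F v * F v) * ∑ v, D v) := by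
    refine Real.le_sqrt_of_sq_le ?_
    refine (Finset.sum_mul_sq_le_sq_mul_sq (univ : Finset V) F
      (fun v => max (N v - L) 0)).trans ?_
    have e1 : ∑ v, F v ^ 2 = ∑ v, F v * F v := Finset.sum_congr rfl fun v _ => sq (F v)
    rw [e1]
    exact mul_le_mul_of_nonneg_left (Finset.sum_le_sum fun v _ => h2 v)
      (Finset.sum_nonneg fun v _ => mul_nonneg (hF0 v) (hF0 v))
  rw [hA, Finset.mul_sum]
  calc ∑ v, F v * N v ≤ ∑ v, (L * F v + F v * max (N v - L) 0) :=
        Finset.sum_le_sum fun v _ => h3 v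
    _ = ∑ v, L * F v + ∑ v, F v * max (N v - L) 0 := Finset.sum_add_distrib
    _ ≤ _ := add_le_add (le_refl _) h4

theorem recg_card_vbox' (P : Fin 9 → ℝ) (hP : ∀ i, 1 ≤ P i) :
    ((vbox P).card : ℝ) ≤ ∏ i, P i := by
  unfold vbox
  rw [Fintype.card_piFinset]
  simp only [Nat.card_Icc, Nat.add_sub_cancel]
  push_cast
  exact Finset.prod_le_prod (fun _ _ => Nat.cast_nonneg _)
    (fun i _ => Nat.floor_le (by linarith [hP i]))

theorem recg_card_GBox (M : ℕ) (P Q : Fin 9 → ℝ) (hP : ∀ i, 1 ≤ P i) (hQ : ∀ i, 1 ≤ Q i) :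
    ((GBox M P Q).card : ℝ) ≤ ∏ i, P i * Q i := by
  classical
  have h1 : (GBox M P Q).card ≤ (vbox P ×ˢ vbox Q).card := by
    unfold GBox
    exact Finset.card_filter_le _ _
  rw [Finset.card_product] at h1
  calc ((GBox M P Q).card : ℝ) ≤ (((vbox P).card * (vbox Q).card : ℕ) : ℝ) := by
        exact_mod_cast h1
    _ = ((vbox P).card : ℝ) * ((vbox Q).card : ℝ) := by push_cast; ring
    _ ≤ (∏ i, P i) * ∏ i, Q i := mul_le_mul (recg_card_vbox' P hP) (recg_card_vbox' Q hQ)
        (Nat.cast_nonneg _) (Finset.prod_nonneg fun i _ => by linarith [hP i])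
    _ = ∏ i, P i * Q i := Finset.prod_mul_distrib.symm

theorem recg_end {Y bf K1 C ε n m EF D A L : ℝ} (hY : 1 ≤ Y) (hbf0 : 1 ≤ bf)
    (hbb : bf ≤ Y ^ 2) (hK1 : 0 ≤ K1) (hC : 1 ≤ C) (hε : 0 < ε) (hnm : n ≤ m) (hD : 0 ≤ D)
    (hL : 0 ≤ L) (hcs : m ≤ L * A + Real.sqrt (EF * D)) (hA : A ≤ bf)
    (hF : EF ≤ C * bf ^ ε * K1 * bf) :
    n ≤ C * Y ^ ε * (L * bf + Real.sqrt (K1 * bf * D)) := by
  have hY0 : 0 < Y := by linarith
  have hYe : 1 ≤ Y ^ ε := Real.one_le_rpow hY hε.le
  have hCY : 1 ≤ C * Y ^ ε := by nlinarith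
  have e1 : bf ^ ε ≤ (Y ^ ε) ^ 2 := by
    calc bf ^ ε ≤ (Y ^ 2) ^ ε := Real.rpow_le_rpow (by linarith) hbb hε.le
      _ = (Y ^ ε) ^ 2 := by
        rw [← Real.rpow_natCast, ← Real.rpow_mul hY0.le, ← Real.rpow_natCast,
          ← Real.rpow_mul hY0.le, mul_comm]
  have e2 : EF * D ≤ (C * Y ^ ε) ^ 2 * (K1 * bf * D) := by
    calc EF * D ≤ (C * bf ^ ε * K1 * bf) * D := mul_le_mul_of_nonneg_right hF hD
      _ = (C * bf ^ ε) * (K1 * bf * D) := by ring
      _ ≤ (C * Y ^ ε) ^ 2 * (K1 * bf * D) := by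
          refine mul_le_mul_of_nonneg_right ?_ (by positivity)
          calc C * bf ^ ε ≤ C * (Y ^ ε) ^ 2 := mul_le_mul_of_nonneg_left e1 (by linarith)
            _ ≤ C * C * (Y ^ ε) ^ 2 := by
                refine mul_le_mul_of_nonneg_right ?_ (by positivity)
                nlinarith
            _ = (C * Y ^ ε) ^ 2 := by ring
  have e3 : Real.sqrt (EF * D) ≤ C * Y ^ ε * Real.sqrt (K1 * bf * D) := by
    calc Real.sqrt (EF * D) ≤ Real.sqrt ((C * Y ^ ε) ^ 2 * (K1 * bf * D)) :=
          Real.sqrt_le_sqrt e2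
      _ = C * Y ^ ε * Real.sqrt (K1 * bf * D) := by
          rw [Real.sqrt_mul (by positivity), Real.sqrt_sq (by linarith)]
  have e4 : L * A ≤ C * Y ^ ε * (L * bf) := by
    have h1 : L * A ≤ L * bf := mul_le_mul_of_nonneg_left hA hL
    have h2 : 0 ≤ L * bf := mul_nonneg hL (by linarith)
    nlinarith
  calc n ≤ m := hnm
    _ ≤ L * A + Real.sqrt (EF * D) := hcs
    _ ≤ C * Y ^ ε * (L * bf) + C * Y ^ ε * Real.sqrt (K1 * bf * D) := add_le_add e4 e3
    _ = _ := by ring

theorem recg_thm (h1 : E1Stmt) (h2 : E2Stmt) : RECGStmt := by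
  classical
  intro ε hε
  obtain ⟨C, hC, H⟩ := rec0_energy h1 h2 (ε / 2) (by linarith)
  refine ⟨C, hC, ?_⟩
  intro M T c T0 K1 hM hT hc hT0 hK1 hU1
  have : NeZero M := ⟨by omega⟩
  have hfP : ∀ i, 1 ≤ rec0_fP T c i := by
    intro i; unfold rec0_fP; split_ifs
    · exact hT i
    · exact le_rfl
  have hfQ : ∀ i, 1 ≤ rec0_fQ T c i := by
    intro i; unfold rec0_fQ; split_ifs
    · exact hT i
    · exact le_rfl
  have hf : ∀ i, rec0_fP T c i * rec0_fQ T c i = T i ^ (2 - c i) := by
    intro i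
    have := hc i
    unfold rec0_fP rec0_fQ
    interval_cases (c i) <;> norm_num [sq]
  set A := GBox M (rec0_fP T c) (rec0_fQ T c) with hA
  set B := (GBox M (gP T c) (gQ T c)).filter (fun z => ∀ i, Nat.Coprime (z.1 i) (z.2 i)) with hB
  have hBmem : ∀ z ∈ B, (∀ i, 0 < z.1 i ∧ 0 < z.2 i) ∧ (∀ i, Nat.Coprime (z.1 i) M) ∧
      (∀ i, Nat.Coprime (z.2 i) M) ∧ ∀ i, Nat.Coprime (z.1 i) (z.2 i) := by
    intro z hz
    rw [hB, Finset.mem_filter] at hz
    obtain ⟨hz1, hz2⟩ := hz
    unfold GBox at hz1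
    rw [Finset.mem_filter, Finset.mem_product, rec0_mem_vbox, rec0_mem_vbox] at hz1
    exact ⟨fun i => ⟨(hz1.1.1 i).1, (hz1.1.2 i).1⟩, hz1.2.1, hz1.2.2, hz2⟩
  -- the energy of the first group
  have hval : ∀ s ∈ (A ×ˢ A).filter (fun p => rec0_val M p.1 = rec0_val M p.2),
      s.1 ∈ GBox M (rec0_fP T c) (rec0_fQ T c) ∧ s.2 ∈ GBox M (rec0_fP T c) (rec0_fQ T c) ∧
        SameVal M s.1 s.2 := by
    intro s hs
    rw [Finset.mem_filter, Finset.mem_product] at hs
    refine ⟨hs.1.1, hs.1.2, ?_⟩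
    have h3 := hs.1.1
    have h4 := hs.1.2
    rw [hA] at h3 h4
    unfold GBox at h3 h4
    rw [Finset.mem_filter] at h3 h4
    exact (rec0_val_eq (rec0_cop h3.2.2) (rec0_cop h4.2.2)).1 hs.2
  have hF := H M (rec0_fP T c) (rec0_fQ T c) K1 hM hfP hfQ hK1 (by
    intro U hU
    exact hU1 U fun i => ⟨(hU i).1, by rw [← hf i]; exact (hU i).2⟩) _ hval
  -- near pairs
  have hnear : ∀ b ∈ B, ((B.filter (fun b' => rec0_val M b' = rec0_val M b ∧
      ¬ ∃ i, T0 ≤ ht (redv b b') i)).card : ℝ) ≤ T0 ^ 18 := by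
    intro b hb
    refine recg_near _ b T0 hT0 (hBmem b hb).1 ?_
    intro s hs
    rw [Finset.mem_filter] at hs
    obtain ⟨hs1, -, hs3⟩ := hs
    have h3 := hBmem s hs1
    refine ⟨fun i => ⟨(h3.1 i).1, (h3.1 i).2, h3.2.2.2 i⟩, fun i => ?_⟩
    by_contra h
    exact hs3 ⟨i, not_lt.1 h⟩
  have hcs := recg_cs A B (rec0_val M) (fun b b' => ∃ i, T0 ≤ ht (redv b b') i) (T0 ^ 18)
    (by positivity) hnear
  -- the far pairs
  have hfar : ((B ×ˢ B).filter fun p => rec0_val M p.1 = rec0_val M p.2 ∧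
      ∃ i, T0 ≤ ht (redv p.1 p.2) i) ⊆ Far M T c T0 := by
    intro p hp
    rw [Finset.mem_filter, Finset.mem_product] at hp
    obtain ⟨⟨hp1, hp2⟩, hp3, hp4⟩ := hp
    have q1 := hBmem p.1 hp1
    have q2 := hBmem p.2 hp2
    rw [hB, Finset.mem_filter] at hp1 hp2
    unfold Far
    rw [Finset.mem_filter, Finset.mem_product]
    exact ⟨⟨hp1.1, hp2.1⟩, hp1.2, hp2.2,
      (rec0_val_eq (rec0_cop q1.2.2.1) (rec0_cop q2.2.2.1)).1 hp3, hp4⟩
  -- the injection
  have hinj : (Sol M T).card ≤ ((A ×ˢ B).filter fun p => rec0_val M p.1 = rec0_val M p.2).card := by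
    refine Finset.card_le_card_of_injOn (fun z => (rec0_f c z, rec0_g c z)) ?_ ?_
    · intro z hz
      have hz' := Finset.mem_coe.1 hz
      unfold Sol at hz'
      rw [Finset.mem_filter, Finset.mem_product, rec0_mem_vbox, rec0_mem_vbox] at hz'
      obtain ⟨⟨hz1, hz2⟩, hc0, hc1, hc2, hmod⟩ := hz'
      rw [Finset.mem_coe, Finset.mem_filter, Finset.mem_product]
      have mA : rec0_f c z ∈ A := by
        rw [hA]
        unfold GBox rec0_f rec0_fP rec0_fQ
        rw [Finset.mem_filter, Finset.mem_product, rec0_mem_vbox, rec0_mem_vbox]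
        refine ⟨⟨fun i => ?_, fun i => ?_⟩, fun i => ?_, fun i => ?_⟩
        · by_cases h : c i ≤ 1
          · simpa [h] using hz2 i
          · simp [h]
        · by_cases h : c i = 0
          · simpa [h] using hz1 i
          · simp [h]
        · by_cases h : c i ≤ 1
          · simpa [h] using hc2 i
          · simp [h]
        · by_cases h : c i = 0
          · simpa [h] using hc1 i
          · simp [h]
      have mB0 : rec0_g c z ∈ GBox M (gP T c) (gQ T c) := by
        unfold GBox rec0_g gP gQ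
        rw [Finset.mem_filter, Finset.mem_product, rec0_mem_vbox, rec0_mem_vbox]
        refine ⟨⟨fun i => ?_, fun i => ?_⟩, fun i => ?_, fun i => ?_⟩
        · by_cases h : 1 ≤ c i
          · simpa [h] using hz1 i
          · simp [h]
        · by_cases h : c i = 2
          · simpa [h] using hz2 i
          · simp [h]
        · by_cases h : 1 ≤ c i
          · simpa [h] using hc1 i
          · simp [h]
        · by_cases h : c i = 2
          · simpa [h] using hc2 i
          · simp [h]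
      have mB : rec0_g c z ∈ B := by
        rw [hB, Finset.mem_filter]
        refine ⟨mB0, fun i => ?_⟩
        unfold rec0_g
        by_cases h : 1 ≤ c i
        · by_cases h2 : c i = 2
          · simpa [h, h2] using hc0 i
          · simp [h2]
        · simp [h]
      refine ⟨⟨mA, mB⟩, ?_⟩
      have mA' := mA
      rw [hA] at mA'
      unfold GBox at mA' mB0
      rw [Finset.mem_filter] at mA' mB0
      have e := (rec0_val_eq (M := M) (x := (rec0_f c z).1) (y := (rec0_f c z).2)
        (x' := (rec0_g c z).1) (y' := (rec0_g c z).2) (rec0_cop mA'.2.2) (rec0_cop mB0.2.2)).2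
      refine e ?_
      have e1 : mon (rec0_f c z).1 * mon (rec0_g c z).2 = mon z.2 := by
        unfold mon
        rw [← Finset.prod_mul_distrib]
        refine Finset.prod_congr rfl fun i _ => ?_
        have := hc i
        unfold rec0_f rec0_g
        simp only
        rw [← mul_pow]
        congr 1
        interval_cases (c i) <;> simp
      have e2 : mon (rec0_g c z).1 * mon (rec0_f c z).2 = mon z.1 := by
        unfold mon
        rw [← Finset.prod_mul_distrib]
        refine Finset.prod_congr rfl fun i _ => ?_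
        have := hc i
        unfold rec0_f rec0_g
        simp only
        rw [← mul_pow]
        congr 1
        interval_cases (c i) <;> simp
      rw [e1, e2]
      exact hmod.symm
    · intro z _ z' _ hzz
      have e1 := (Prod.mk.inj hzz).1
      have e2 := (Prod.mk.inj hzz).2
      unfold rec0_f at e1
      unfold rec0_g at e2
      have a1 := (Prod.mk.inj e1).1
      have a2 := (Prod.mk.inj e1).2
      have b1 := (Prod.mk.inj e2).1
      have b2 := (Prod.mk.inj e2).2
      refine Prod.ext (funext fun i => ?_) (funext fun i => ?_)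
      · by_cases h : 1 ≤ c i
        · have := congrFun b1 i
          simpa [h] using this
        · have := congrFun a2 i
          have h0 : c i = 0 := by omega
          simpa [h0] using this
      · by_cases h : c i ≤ 1
        · have := congrFun a1 i
          simpa [h] using this
        · have := congrFun b2 i
          have h0 : c i = 2 := by have := hc i; omega
          simpa [h0] using this
  -- the end
  have hY : 1 ≤ ∏ i, T i := by
    have h := Finset.prod_le_prod (s := (univ : Finset (Fin 9))) (f := fun _ => (1 : ℝ))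
      (g := fun i => T i) (fun _ _ => zero_le_one) (fun i _ => hT i)
    simpa using h
  have hAc := recg_card_GBox M (rec0_fP T c) (rec0_fQ T c) hfP hfQ
  have hbf : ∏ i, rec0_fP T c i * rec0_fQ T c i = ∏ i, T i ^ (2 - c i) :=
    Finset.prod_congr rfl fun i _ => hf i
  rw [hbf] at hF hAc
  set bf := ∏ i, T i ^ (2 - c i) with hbf'
  have hbf1 : 1 ≤ bf := by
    have h := Finset.prod_le_prod (s := (univ : Finset (Fin 9))) (f := fun _ => (1 : ℝ))
      (g := fun i => T i ^ (2 - c i)) (fun _ _ => zero_le_one)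
      (fun i _ => one_le_pow₀ (hT i))
    simpa using h
  have hbb : bf ≤ (∏ i, T i) ^ 2 := by
    rw [hbf', ← Finset.prod_pow]
    refine Finset.prod_le_prod (fun i _ => ?_) fun i _ => ?_
    · have := hT i
      positivity
    · exact pow_le_pow_right₀ (hT i) (by omega)
  have h5 : (2 : ℝ) * (ε / 2) = ε := by ring
  rw [h5] at hF
  have hnn : NN M T ≤
      (((A ×ˢ B).filter fun p => rec0_val M p.1 = rec0_val M p.2).card : ℝ) := by
    have : ((Sol M T).card : ℝ) ≤
        (((A ×ˢ B).filter fun p => rec0_val M p.1 = rec0_val M p.2).card : ℝ) :=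
      Nat.cast_le.2 hinj
    exact this
  have hfar' : (((B ×ˢ B).filter fun p => rec0_val M p.1 = rec0_val M p.2 ∧
      ∃ i, T0 ≤ ht (redv p.1 p.2) i).card : ℝ) ≤ ((Far M T c T0).card : ℝ) :=
    Nat.cast_le.2 (Finset.card_le_card hfar)
  have hcs' : (((A ×ˢ B).filter fun p => rec0_val M p.1 = rec0_val M p.2).card : ℝ) ≤
      T0 ^ 18 * A.card + Real.sqrt ((((A ×ˢ A).filter fun p =>
        rec0_val M p.1 = rec0_val M p.2).card : ℝ) * ((Far M T c T0).card : ℝ)) := by
    refine hcs.trans ?_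
    have := Real.sqrt_le_sqrt (mul_le_mul_of_nonneg_left hfar'
      (Nat.cast_nonneg (((A ×ˢ A).filter fun p => rec0_val M p.1 = rec0_val M p.2).card)))
    linarith
  exact recg_end hY hbf1 hbb hK1 hC hε hnn (Nat.cast_nonneg _) (by positivity) hcs' hAc hF

end Pool.Agent.Helper21.EN
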