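import Pool.Agent.Helper21.EN.Stmts
import Pool.Agent.Helper21.EN.Dec
import Pool.Agent.Helper26.Abc2.Rad
import Pool.Agent.Helper94.Abc.Basic

set_option autoImplicit false

/-!
# Project EN, piece RP

Pairs of integers with small product of radicals. Paper: /team-store/EN_paper.md.
-/

namespace Pool.Agent.Helper21.EN

open Finset

/-- the pairs of radicals -/
noncomputable def rp_I (X : ℕ) (Y : ℝ) : Finset (ℕ × ℕ) :=
  (Finset.Icc 1 X).sigma (fun r => Finset.Icc 1 ⌊Y / r⌋₊) |>.image (fun z => (z.1, z.2))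

theorem rp_harm (X : ℕ) : ∑ r ∈ Finset.Icc 1 X, ((r : ℝ))⁻¹ ≤ 1 + Real.log X := by
  have h := harmonic_le_one_add_log X
  rw [harmonic_eq_sum_Icc] at h
  push_cast at h
  exact h

theorem rp_I_card (X : ℕ) (Y : ℝ) (hY : 0 ≤ Y) :
    ((rp_I X Y).card : ℝ) ≤ Y * (1 + Real.log X) := by
  unfold rp_I
  calc ((((Finset.Icc 1 X).sigma (fun r => Finset.Icc 1 ⌊Y / r⌋₊)).image
        (fun z => (z.1, z.2))).card : ℝ) ≤
        (((Finset.Icc 1 X).sigma (fun r => Finset.Icc 1 ⌊Y / r⌋₊)).card : ℝ) := by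
        exact_mod_cast Finset.card_image_le
    _ = ∑ r ∈ Finset.Icc 1 X, (⌊Y / (r : ℝ)⌋₊ : ℝ) := by
        rw [Finset.card_sigma]
        push_cast
        refine Finset.sum_congr rfl fun r _ => ?_
        rw [Nat.card_Icc]
        simp
    _ ≤ ∑ r ∈ Finset.Icc 1 X, Y * ((r : ℝ))⁻¹ := by
        refine Finset.sum_le_sum fun r _ => ?_
        rw [← div_eq_mul_inv]
        exact Nat.floor_le (by positivity)
    _ = Y * ∑ r ∈ Finset.Icc 1 X, ((r : ℝ))⁻¹ := by rw [Finset.mul_sum]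
    _ ≤ Y * (1 + Real.log X) := mul_le_mul_of_nonneg_left (rp_harm X) hY

theorem rp_mem {X : ℕ} {Y : ℝ} {a b : ℕ} (ha : 1 ≤ a) (haX : a ≤ X) (hb : 1 ≤ b)
    (h : (a : ℝ) * b ≤ Y) : (a, b) ∈ rp_I X Y := by
  unfold rp_I
  rw [Finset.mem_image]
  refine ⟨⟨a, b⟩, ?_, rfl⟩
  rw [Finset.mem_sigma]
  refine ⟨Finset.mem_Icc.2 ⟨ha, haX⟩, Finset.mem_Icc.2 ⟨hb, ?_⟩⟩
  apply Nat.le_floor
  have ha0 : (0 : ℝ) < a := by exact_mod_cast ha
  rw [le_div_iff₀ ha0, mul_comm]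
  exact h

theorem rp_thm : RPStmt := by
  classical
  intro ε hε
  obtain ⟨C, hC, hrad⟩ := Pool.Agent.Helper26.Abc2.card_rad_eq (ε := ε / 3) (by positivity)
  set C' : ℝ := C ^ 2 * (1 + 3 / ε) with hC'
  refine ⟨max 1 C', le_max_left _ _, ?_⟩
  intro X Y S hX hY hS
  have hX1 : (1 : ℝ) ≤ X := by exact_mod_cast hX
  have hX0 : (0 : ℝ) < X := by linarith
  have hF0 : 0 ≤ C * (X : ℝ) ^ (ε / 3) := by positivity
  have hfib : ∀ y ∈ rp_I X Y, ((S.filter (fun s => (rad s.1, rad s.2) = y)).card : ℝ) ≤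
      (C * (X : ℝ) ^ (ε / 3)) ^ 2 := by
    intro y _
    have hsub : S.filter (fun s => (rad s.1, rad s.2) = y) ⊆
        ((Finset.Icc 1 X).filter (fun d => ∏ p ∈ d.primeFactors, p = y.1)) ×ˢ
        ((Finset.Icc 1 X).filter (fun d => ∏ p ∈ d.primeFactors, p = y.2)) := by
      intro s hs
      rw [Finset.mem_filter] at hs
      obtain ⟨h1, h2, h3, h4, _⟩ := hS s hs.1
      have h5 := hs.2
      rw [Prod.ext_iff] at h5
      rw [Finset.mem_product, Finset.mem_filter, Finset.mem_filter, Finset.mem_Icc,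
        Finset.mem_Icc]
      exact ⟨⟨⟨h1, h2⟩, h5.1⟩, ⟨⟨h3, h4⟩, h5.2⟩⟩
    have hc := Finset.card_le_card hsub
    rw [Finset.card_product] at hc
    calc ((S.filter (fun s => (rad s.1, rad s.2) = y)).card : ℝ) ≤
          ((((Finset.Icc 1 X).filter (fun d => ∏ p ∈ d.primeFactors, p = y.1)).card *
          ((Finset.Icc 1 X).filter (fun d => ∏ p ∈ d.primeFactors, p = y.2)).card : ℕ) : ℝ) := by
          exact_mod_cast hc
      _ ≤ (C * (X : ℝ) ^ (ε / 3)) * (C * (X : ℝ) ^ (ε / 3)) := by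
          push_cast
          exact mul_le_mul (hrad X y.1) (hrad X y.2) (Nat.cast_nonneg _) hF0
      _ = _ := by ring
  have hmap : ∀ s ∈ S, (rad s.1, rad s.2) ∈ rp_I X Y := by
    intro s hs
    obtain ⟨h1, h2, h3, h4, h5⟩ := hS s hs
    exact rp_mem (rad_pos _) ((rad_le h1).trans h2) (rad_pos _) h5
  have hcard : (S.card : ℝ) ≤ ((rp_I X Y).card : ℝ) * (C * (X : ℝ) ^ (ε / 3)) ^ 2 := by
    have h := Finset.card_eq_sum_card_fiberwise (f := fun s : ℕ × ℕ => (rad s.1, rad s.2))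
      (s := S) (t := rp_I X Y) (fun s hs => hmap s hs)
    rw [h]
    push_cast
    calc ∑ y ∈ rp_I X Y, ((S.filter (fun s => (rad s.1, rad s.2) = y)).card : ℝ) ≤
          ∑ _y ∈ rp_I X Y, (C * (X : ℝ) ^ (ε / 3)) ^ 2 := Finset.sum_le_sum hfib
      _ = _ := by rw [Finset.sum_const, nsmul_eq_mul]
  have hlog : 1 + Real.log X ≤ (1 + 3 / ε) * (X : ℝ) ^ (ε / 3) := by
    have h1 : Real.log X ≤ (X : ℝ) ^ (ε / 3) / (ε / 3) :=
      Real.log_le_rpow_div hX0.le (by positivity)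
    have h2 : 1 ≤ (X : ℝ) ^ (ε / 3) := Real.one_le_rpow hX1 (by positivity)
    have h3 : (X : ℝ) ^ (ε / 3) / (ε / 3) = 3 / ε * (X : ℝ) ^ (ε / 3) := by
      field_simp
    rw [h3] at h1
    linarith
  have hpow : (X : ℝ) ^ (ε / 3) * ((X : ℝ) ^ (ε / 3)) ^ 2 = (X : ℝ) ^ ε := by
    rw [← Real.rpow_natCast ((X : ℝ) ^ (ε / 3)) 2, ← Real.rpow_mul hX0.le, ← Real.rpow_add hX0]
    congr 1
    push_cast
    ring
  have hY0 : 0 ≤ Y := by linarith
  calc (S.card : ℝ) ≤ ((rp_I X Y).card : ℝ) * (C * (X : ℝ) ^ (ε / 3)) ^ 2 := hcard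
    _ ≤ (Y * ((1 + 3 / ε) * (X : ℝ) ^ (ε / 3))) * (C * (X : ℝ) ^ (ε / 3)) ^ 2 := by
        refine mul_le_mul_of_nonneg_right ?_ (by positivity)
        exact (rp_I_card X Y hY0).trans (mul_le_mul_of_nonneg_left hlog hY0)
    _ = C' * ((X : ℝ) ^ (ε / 3) * ((X : ℝ) ^ (ε / 3)) ^ 2) * Y := by
        rw [hC']
        ring
    _ = C' * (X : ℝ) ^ ε * Y := by rw [hpow]
    _ ≤ max 1 C' * (X : ℝ) ^ ε * Y := by
        refine mul_le_mul_of_nonneg_right ?_ hY0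
        exact mul_le_mul_of_nonneg_right (le_max_right _ _) (by positivity)

end Pool.Agent.Helper21.EN
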