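import Pool.Agent.Helper21.EN.Stmts

set_option autoImplicit false

/-!
# Project EN, piece S2

The statement is in EN/Stmts.lean. Paper: /team-store/EN_paper.md.

Proof. N = bad false e f * bad true e f > 0 (e <> f). w' = w / gcd(w,N): for w squarefree w' is coprime to N, w' | w, w <= N w'. Two e f w V V is contained in Two e f w' V V (congruence and coprimality pass to divisors).
Apply h with sigma and eta/2 when w' >= N^(2/eta); for w' < N^(2/eta) w is bounded by a constant.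
-/

namespace Pool.Agent.Helper21.EN

open Finset

lemma s2_bad_pos {e f : ℕ} (he : 1 ≤ e) (hf : 1 ≤ f) (hef : e ≠ f) :
    2 ≤ bad false e f ∧ 2 ≤ bad true e f := by
  unfold bad
  have h1 : 1 ≤ max e f - min e f := by
    rcases lt_or_gt_of_ne hef with h | h
    · rw [max_eq_right h.le, min_eq_left h.le]; omega
    · rw [max_eq_left h.le, min_eq_right h.le]; omega
  have h2 : 1 ≤ e * f := Nat.mul_pos he hf
  constructor
  · simp only [Bool.false_eq_true, if_false]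
    calc 2 = 2 * 1 * 1 := by norm_num
      _ ≤ 2 * (e * f) * (max e f - min e f) :=
        Nat.mul_le_mul (Nat.mul_le_mul_left _ h2) h1
      _ = 2 * e * f * (max e f - min e f) := by ring
  · simp only [if_true]
    calc 2 = 2 * 1 * 1 := by norm_num
      _ ≤ 2 * (e * f) * (e + f) :=
        Nat.mul_le_mul (Nat.mul_le_mul_left _ h2) (by omega)
      _ = 2 * e * f * (e + f) := by ring

lemma s2_two_mono (e f w w' : ℕ) (V : ℝ) (h : w' ∣ w) : Two e f w V V ⊆ Two e f w' V V := by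
  intro z hz
  unfold Two at hz ⊢
  rw [Finset.mem_filter] at hz ⊢
  obtain ⟨h0, h1, h2, h3, h4, h5, h6, h7⟩ := hz
  exact ⟨h0, h1, h2, h3.coprime_dvd_right h, h4.coprime_dvd_right h, h5.coprime_dvd_right h,
    h6.coprime_dvd_right h, h7.of_dvd (pow_dvd_pow_of_dvd h 3)⟩

lemma s2_card (e f w : ℕ) (V : ℝ) (hV : 1 ≤ V) : ((Two e f w V V).card : ℝ) ≤ V ^ 4 := by
  have h0 : (0 : ℝ) ≤ V := by linarith
  have h1 : (Two e f w V V).card ≤ ⌊V⌋₊ ^ 4 := by
    unfold Two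
    refine (Finset.card_filter_le _ _).trans ?_
    rw [Finset.card_product, Finset.card_product, Nat.card_Icc]
    apply le_of_eq
    simp only [Nat.add_sub_cancel]
    ring
  calc ((Two e f w V V).card : ℝ) ≤ ((⌊V⌋₊ ^ 4 : ℕ) : ℝ) := by exact_mod_cast h1
    _ = (⌊V⌋₊ : ℝ) ^ 4 := by push_cast; ring
    _ ≤ V ^ 4 := pow_le_pow_left₀ (Nat.cast_nonneg _) (Nat.floor_le h0) 4

theorem s2_thm (h : S2cStmt) : S2Stmt := by
  intro e f he he8 hf hf8 hef σ η hσ hη
  obtain ⟨δ, C, hδ, hC, H⟩ := h e f he he8 hf hf8 hef σ (η / 2) hσ (by positivity)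
  obtain ⟨hb1, hb2⟩ := s2_bad_pos he hf hef
  set N : ℕ := bad false e f * bad true e f with hNdef
  have hN4 : 4 ≤ N := by
    calc 4 = 2 * 2 := by norm_num
      _ ≤ N := Nat.mul_le_mul hb1 hb2
  have hNr : (4 : ℝ) ≤ (N : ℝ) := by exact_mod_cast hN4
  have hN0 : (0 : ℝ) < (N : ℝ) := by linarith
  have hN1 : (1 : ℝ) ≤ (N : ℝ) := by linarith
  set R : ℝ := (N : ℝ) ^ (2 / η) with hRdef
  have hR1 : 1 < R := Real.one_lt_rpow (by linarith) (by positivity)
  set B : ℝ := N * R with hBdef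
  have hB1 : 1 ≤ B := by
    rw [hBdef]
    calc (1 : ℝ) = 1 * 1 := by ring
      _ ≤ N * R := mul_le_mul hN1 hR1.le zero_le_one hN0.le
  refine ⟨δ, max (C * (N : ℝ) ^ δ) (B ^ (2 + δ)), hδ,
    le_max_of_le_right (Real.one_le_rpow hB1 (by positivity)), ?_⟩
  intro w V hsq hV1 hVlo hVhi
  have hw0 : w ≠ 0 := hsq.ne_zero
  have hw1 : 1 ≤ w := Nat.one_le_iff_ne_zero.2 hw0
  have hwr : (1 : ℝ) ≤ (w : ℝ) := by exact_mod_cast hw1
  have hwr0 : (0 : ℝ) < (w : ℝ) := by linarith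
  set g : ℕ := Nat.gcd w N with hgdef
  have hgw : g ∣ w := Nat.gcd_dvd_left _ _
  have hgN : g ∣ N := Nat.gcd_dvd_right _ _
  have hgpos : 0 < g := Nat.gcd_pos_of_pos_left _ hw1
  obtain ⟨w', hw'⟩ := hgw
  have hw'dvd : w' ∣ w := ⟨g, by rw [hw']; ring⟩
  have hw'0 : w' ≠ 0 := by rintro rfl; exact hw0 (by rw [hw']; ring)
  have hw'1 : 1 ≤ w' := Nat.one_le_iff_ne_zero.2 hw'0
  have hw'r : (1 : ℝ) ≤ (w' : ℝ) := by exact_mod_cast hw'1
  have hw'r0 : (0 : ℝ) < (w' : ℝ) := by linarith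
  have hgle : g ≤ N := Nat.le_of_dvd (by omega) hgN
  have hwle : (w : ℝ) ≤ N * w' := by
    rw [hw']
    push_cast
    exact mul_le_mul_of_nonneg_right (by exact_mod_cast hgle) hw'r0.le
  have hw'le : (w' : ℝ) ≤ w := by exact_mod_cast Nat.le_of_dvd hw1 hw'dvd
  have hcopg : Nat.Coprime g w' := by
    have := hsq
    rw [hw'] at this
    exact (Nat.squarefree_mul_iff.1 this).1
  have hcopN : Nat.Coprime w' N := by
    rw [Nat.coprime_iff_gcd_eq_one]
    by_contra hne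
    obtain ⟨p, hp, hpd⟩ := Nat.exists_prime_and_dvd hne
    have h1 : p ∣ w' := hpd.trans (Nat.gcd_dvd_left _ _)
    have h2 : p ∣ N := hpd.trans (Nat.gcd_dvd_right _ _)
    have h3 : p ∣ g := Nat.dvd_gcd (h1.trans hw'dvd) h2
    have h4 : p ∣ Nat.gcd g w' := Nat.dvd_gcd h3 h1
    rw [hcopg.gcd_eq_one] at h4
    exact hp.one_lt.ne' (Nat.dvd_one.1 h4)
  have hV0 : (0 : ℝ) < V := by linarith
  have hVw : V ≤ w := by
    refine hVhi.trans ?_
    calc (w : ℝ) ^ (1 - η) ≤ (w : ℝ) ^ (1 : ℝ) :=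
          Real.rpow_le_rpow_of_exponent_le hwr (by linarith)
      _ = w := Real.rpow_one _
  by_cases hbig : R ≤ w'
  · -- large modulus
    have hη1 : η < 1 := by
      by_contra hcon
      push Not at hcon
      have hw2 : (1 : ℝ) < w := by linarith
      have h1 : (1 : ℝ) < (w : ℝ) ^ σ := Real.one_lt_rpow hw2 hσ
      have h2 : (w : ℝ) ^ (1 - η) ≤ 1 := Real.rpow_le_one_of_one_le_of_nonpos hwr (by linarith)
      linarith
    have hNle : (N : ℝ) ≤ (w' : ℝ) ^ (η / 2) := by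
      have h1 : R ^ (η / 2) ≤ (w' : ℝ) ^ (η / 2) :=
        Real.rpow_le_rpow (by linarith) hbig (by positivity)
      have h2 : R ^ (η / 2) = N := by
        rw [hRdef, ← Real.rpow_mul hN0.le]
        have : 2 / η * (η / 2) = 1 := by field_simp
        rw [this, Real.rpow_one]
      linarith
    have hVhi' : V ≤ (w' : ℝ) ^ (1 - η / 2) := by
      calc V ≤ (w : ℝ) ^ (1 - η) := hVhi
        _ ≤ ((N : ℝ) * w') ^ (1 - η) := Real.rpow_le_rpow hwr0.le hwle (by linarith)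
        _ = (N : ℝ) ^ (1 - η) * (w' : ℝ) ^ (1 - η) := Real.mul_rpow hN0.le hw'r0.le
        _ ≤ (N : ℝ) ^ (1 : ℝ) * (w' : ℝ) ^ (1 - η) := by
          apply mul_le_mul_of_nonneg_right _ (by positivity)
          exact Real.rpow_le_rpow_of_exponent_le hN1 (by linarith)
        _ = (N : ℝ) * (w' : ℝ) ^ (1 - η) := by rw [Real.rpow_one]
        _ ≤ (w' : ℝ) ^ (η / 2) * (w' : ℝ) ^ (1 - η) :=
          mul_le_mul_of_nonneg_right hNle (by positivity)
        _ = (w' : ℝ) ^ (1 - η / 2) := by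
          rw [← Real.rpow_add hw'r0]
          congr 1; ring
    have hVlo' : (w' : ℝ) ^ σ ≤ V :=
      (Real.rpow_le_rpow hw'r0.le hw'le hσ.le).trans hVlo
    have key := H w' V (hsq.squarefree_of_dvd hw'dvd)
      (hcopN.coprime_dvd_right (Dvd.intro _ rfl))
      (hcopN.coprime_dvd_right (Dvd.intro_left _ rfl)) hV1 hVlo' hVhi'
    have hcard : ((Two e f w V V).card : ℝ) ≤ ((Two e f w' V V).card : ℝ) := by
      exact_mod_cast Finset.card_le_card (s2_two_mono e f w w' V hw'dvd)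
    have hpow : (w' : ℝ) ^ (-δ) ≤ (N : ℝ) ^ δ * (w : ℝ) ^ (-δ) := by
      have h1 : (w : ℝ) ^ δ ≤ (N : ℝ) ^ δ * (w' : ℝ) ^ δ := by
        rw [← Real.mul_rpow hN0.le hw'r0.le]
        exact Real.rpow_le_rpow hwr0.le hwle hδ.le
      rw [Real.rpow_neg hw'r0.le, Real.rpow_neg hwr0.le]
      have h2 : 0 < (w : ℝ) ^ δ := Real.rpow_pos_of_pos hwr0 _
      have h3 : 0 < (w' : ℝ) ^ δ := Real.rpow_pos_of_pos hw'r0 _
      rw [← div_eq_mul_inv, le_div_iff₀ h2, inv_mul_le_iff₀ h3]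
      calc (w : ℝ) ^ δ ≤ (N : ℝ) ^ δ * (w' : ℝ) ^ δ := h1
        _ = (w' : ℝ) ^ δ * (N : ℝ) ^ δ := by ring
    calc ((Two e f w V V).card : ℝ) ≤ ((Two e f w' V V).card : ℝ) := hcard
      _ ≤ C * V ^ 2 * (w' : ℝ) ^ (-δ) := key
      _ ≤ C * V ^ 2 * ((N : ℝ) ^ δ * (w : ℝ) ^ (-δ)) :=
        mul_le_mul_of_nonneg_left hpow (by positivity)
      _ = C * (N : ℝ) ^ δ * V ^ 2 * (w : ℝ) ^ (-δ) := by ring
      _ ≤ max (C * (N : ℝ) ^ δ) (B ^ (2 + δ)) * V ^ 2 * (w : ℝ) ^ (-δ) := by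
        apply mul_le_mul_of_nonneg_right _ (by positivity)
        exact mul_le_mul_of_nonneg_right (le_max_left _ _) (by positivity)
  · -- bounded modulus
    push Not at hbig
    have hwB : (w : ℝ) ≤ B := by
      calc (w : ℝ) ≤ N * w' := hwle
        _ ≤ N * R := mul_le_mul_of_nonneg_left hbig.le hN0.le
    have hB0 : 0 < B := by linarith
    have h1 : V ^ 2 ≤ B ^ (2 : ℝ) := by
      have : B ^ (2 : ℝ) = B ^ 2 := by norm_num
      rw [this]
      exact pow_le_pow_left₀ hV0.le (hVw.trans hwB) 2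
    have h2 : (1 : ℝ) ≤ B ^ δ * (w : ℝ) ^ (-δ) := by
      rw [Real.rpow_neg hwr0.le, ← div_eq_mul_inv, le_div_iff₀ (Real.rpow_pos_of_pos hwr0 _),
        one_mul]
      exact Real.rpow_le_rpow hwr0.le hwB hδ.le
    calc ((Two e f w V V).card : ℝ) ≤ V ^ 4 := s2_card e f w V hV1
      _ = V ^ 2 * V ^ 2 * 1 := by ring
      _ ≤ B ^ (2 : ℝ) * V ^ 2 * (B ^ δ * (w : ℝ) ^ (-δ)) := by
        apply mul_le_mul _ h2 zero_le_one (by positivity)
        exact mul_le_mul_of_nonneg_right h1 (by positivity)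
      _ = B ^ (2 + δ) * V ^ 2 * (w : ℝ) ^ (-δ) := by
        rw [Real.rpow_add hB0]; ring
      _ ≤ max (C * (N : ℝ) ^ δ) (B ^ (2 + δ)) * V ^ 2 * (w : ℝ) ^ (-δ) := by
        apply mul_le_mul_of_nonneg_right _ (by positivity)
        exact mul_le_mul_of_nonneg_right (le_max_right _ _) (by positivity)

end Pool.Agent.Helper21.EN
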