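import Pool.Agent.Helper21.EN.Stmts
import Pool.Agent.Helper21.EN.P2
import Pool.Agent.Helper21.EN.S2

set_option autoImplicit false

/-!
# Project EN, piece S2c: the rigidity theorem for `w` prime to a fixed number

Parameters: `Λ = w ^ c`, `κ = C w ^ (c / 8)`, `k`-fold products with `A ^ k ≤ w ^ 2 / 2`.
-/

namespace Pool.Agent.Helper21.EN

open Finset

/-- pairs with a given quotient of powers -/
lemma s2c_dir {w j : ℕ} {κ V : ℝ} (hκ : Kap w κ) (hj1 : 1 ≤ j) (hj8 : j ≤ 8) (hw : 2 ≤ w)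
    (hV : 1 ≤ V) (hVw : V ≤ w) (S : Finset (ℕ × ℕ)) (p q : ℕ) (hp : Nat.Coprime p w)
    (hq : Nat.Coprime q w)
    (hS : ∀ s ∈ S, 0 < s.1 ∧ (s.1 : ℝ) ≤ V ∧ 0 < s.2 ∧ (s.2 : ℝ) ≤ V ∧ Nat.Coprime s.1 s.2 ∧
      Nat.Coprime s.1 w ∧ Nat.Coprime s.2 w ∧ p * s.1 ^ j ≡ q * s.2 ^ j [MOD w ^ 3]) :
    (S.card : ℝ) ≤ 2 * κ := by
  obtain ⟨c, hc, hc2⟩ := p2_inv hw hq hp 1
  rw [pow_one, pow_one] at hc2
  have hw1 : (2 : ℝ) ≤ w := by exact_mod_cast hw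
  have hκ0 : 0 ≤ κ := le_trans zero_le_one hκ.one
  have hVw12 : V ≤ (w : ℝ) ^ 12 := by
    calc V ≤ (w : ℝ) := hVw
      _ = (w : ℝ) ^ 1 := (pow_one _).symm
      _ ≤ (w : ℝ) ^ 12 := pow_le_pow_right₀ (by linarith) (by norm_num)
  have h := hκ.dir j hj1 hj8 c hc V V hV hV hVw12 hVw12 S (by
    intro s hs
    obtain ⟨h1, h2, h3, h4, h5, h6, h7, h8⟩ := hS s hs
    refine ⟨h1, h3, h2, h4, h5, h6, h7, ?_⟩
    have h9 : p * s.1 ^ j ≡ p * (c * s.2 ^ j) [MOD w ^ 3] := by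
      refine h8.trans ?_
      rw [← mul_assoc]
      exact (hc2.symm).mul_right _
    exact Nat.ModEq.cancel_left_of_coprime (Nat.Coprime.pow_right 3 hp).symm h9)
  refine h.trans ?_
  have h2 : V * V / (w : ℝ) ^ 3 ≤ 1 := by
    rw [div_le_one (by positivity)]
    calc V * V ≤ (w : ℝ) * w := by nlinarith
      _ ≤ (w : ℝ) * w * w := by nlinarith [mul_nonneg (by linarith : (0:ℝ) ≤ w) (by linarith : (0:ℝ) ≤ w)]
      _ = (w : ℝ) ^ 3 := by ring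
  nlinarith

open scoped Classical in
/-- the set of pairs with a large partner -/
noncomputable def s2cE (e f w : ℕ) (V Λ : ℝ) : Finset (ℕ × ℕ) :=
  ((Two e f w V V).filter (fun z => V / Λ ^ 2 ≤ (z.2.1 : ℝ) ∧ V / Λ ^ 2 ≤ (z.2.2 : ℝ))).image
    (fun z => (z.1.2, z.1.1))

lemma s2c_mem {e f w : ℕ} {V : ℝ} (hV : 1 ≤ V) {z : (ℕ × ℕ) × (ℕ × ℕ)}
    (hz : z ∈ Two e f w V V) :
    (0 < z.1.1 ∧ (z.1.1 : ℝ) ≤ V ∧ 0 < z.1.2 ∧ (z.1.2 : ℝ) ≤ V) ∧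
    (0 < z.2.1 ∧ (z.2.1 : ℝ) ≤ V ∧ 0 < z.2.2 ∧ (z.2.2 : ℝ) ≤ V) ∧
    Nat.Coprime z.1.1 z.1.2 ∧ Nat.Coprime z.2.1 z.2.2 ∧
      Nat.Coprime z.1.1 w ∧ Nat.Coprime z.1.2 w ∧ Nat.Coprime z.2.1 w ∧ Nat.Coprime z.2.2 w ∧
      z.1.1 ^ e * z.2.1 ^ f ≡ z.1.2 ^ e * z.2.2 ^ f [MOD w ^ 3] := by
  unfold Two at hz
  rw [mem_filter, mem_product, mem_product, mem_product, mem_Icc, mem_Icc, mem_Icc, mem_Icc] at hz
  have hV0 : 0 ≤ V := by linarith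
  obtain ⟨⟨⟨⟨a1, a2⟩, b1, b2⟩, ⟨c1, c2⟩, d1, d2⟩, h⟩ := hz
  exact ⟨⟨a1, (Nat.le_floor_iff hV0).1 a2, b1, (Nat.le_floor_iff hV0).1 b2⟩,
    ⟨c1, (Nat.le_floor_iff hV0).1 c2, d1, (Nat.le_floor_iff hV0).1 d2⟩, h⟩

lemma s2c_count {V Y : ℝ} (hV : 1 ≤ V) (hY : 0 ≤ Y) :
    ((((Finset.Icc 1 ⌊V⌋₊) ×ˢ (Finset.Icc 1 ⌊Y⌋₊)).card : ℕ) : ℝ) ≤ V * Y := by
  rw [Finset.card_product, Nat.card_Icc, Nat.card_Icc, Nat.add_sub_cancel, Nat.add_sub_cancel]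
  push_cast
  exact mul_le_mul (Nat.floor_le (by linarith)) (Nat.floor_le hY) (Nat.cast_nonneg _)
    (by linarith)

lemma s2c_step1 {e f w : ℕ} {κ V Λ : ℝ} (hκ : Kap w κ) (he1 : 1 ≤ e) (he8 : e ≤ 8)
    (hf1 : 1 ≤ f) (hf8 : f ≤ 8) (hw : 2 ≤ w) (hV : 1 ≤ V) (hVw : V ≤ w) (hΛ : 1 ≤ Λ) :
    ((Two e f w V V).card : ℝ) ≤ 2 * κ * (s2cE e f w V Λ).card + 4 * κ * V ^ 2 / Λ ^ 2 := by
  classical
  have hκ0 : 0 ≤ κ := le_trans zero_le_one hκ.one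
  have hV0 : 0 ≤ V := by linarith
  have hΛ0 : 0 < Λ := by linarith
  have hY : 0 ≤ V / Λ ^ 2 := by positivity
  have hg : (((Two e f w V V).filter
      (fun z => V / Λ ^ 2 ≤ (z.2.1 : ℝ) ∧ V / Λ ^ 2 ≤ (z.2.2 : ℝ))).card : ℝ) ≤
      2 * κ * (s2cE e f w V Λ).card := by
    refine p2_fib _ (fun z => (z.1.2, z.1.1)) _ _ ?_ ?_
    · intro z hz
      unfold s2cE
      exact mem_image_of_mem _ hz
    · rintro ⟨b, a⟩ hb
      have hba : Nat.Coprime a w ∧ Nat.Coprime b w := by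
        unfold s2cE at hb
        rw [mem_image] at hb
        obtain ⟨z, hz, h⟩ := hb
        rw [mem_filter] at hz
        rw [Prod.mk.injEq] at h
        obtain ⟨-, -, -, -, h1, h2, -, -, -⟩ := s2c_mem hV hz.1
        rw [← h.1, ← h.2]
        exact ⟨h1, h2⟩
      set S := ((Two e f w V V).filter
        (fun z => V / Λ ^ 2 ≤ (z.2.1 : ℝ) ∧ V / Λ ^ 2 ≤ (z.2.2 : ℝ))).filter
          (fun z => (z.1.2, z.1.1) = (b, a)) with hS
      have hinj : S.card = (S.image (fun z => z.2)).card := by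
        rw [card_image_of_injOn]
        intro z hz z' hz' hzz
        rw [mem_coe, hS, mem_filter, Prod.mk.injEq] at hz hz'
        have h1 : z.1 = z'.1 := Prod.ext (hz.2.2.trans hz'.2.2.symm) (hz.2.1.trans hz'.2.1.symm)
        exact Prod.ext h1 hzz
      rw [hinj]
      refine s2c_dir hκ hf1 hf8 hw hV hVw _ (a ^ e) (b ^ e) (Nat.Coprime.pow_left e hba.1)
        (Nat.Coprime.pow_left e hba.2) ?_
      intro s hs
      rw [mem_image] at hs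
      obtain ⟨z, hz, rfl⟩ := hs
      rw [hS, mem_filter, mem_filter, Prod.mk.injEq] at hz
      obtain ⟨⟨h1, -⟩, h2, h3⟩ := hz
      obtain ⟨-, ⟨c1, c2, d1, d2⟩, -, k2, -, -, k5, k6, k7⟩ := s2c_mem hV h1
      rw [h2, h3] at k7
      exact ⟨c1, c2, d1, d2, k2, k5, k6, k7⟩
  have hb : (((Two e f w V V).filter
      (fun z => ¬ (V / Λ ^ 2 ≤ (z.2.1 : ℝ) ∧ V / Λ ^ 2 ≤ (z.2.2 : ℝ)))).card : ℝ) ≤
      2 * κ * (((Finset.Icc 1 ⌊V⌋₊) ×ˢ (Finset.Icc 1 ⌊V / Λ ^ 2⌋₊)) ∪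
        ((Finset.Icc 1 ⌊V / Λ ^ 2⌋₊) ×ˢ (Finset.Icc 1 ⌊V⌋₊)) : Finset (ℕ × ℕ)).card := by
    refine p2_fib _ (fun z => z.2) _ _ ?_ ?_
    · intro z hz
      rw [mem_filter] at hz
      obtain ⟨hz, h⟩ := hz
      obtain ⟨-, ⟨c1, c2, d1, d2⟩, -⟩ := s2c_mem hV hz
      rw [mem_union, mem_product, mem_product, mem_Icc, mem_Icc, mem_Icc, mem_Icc]
      rw [not_and_or, not_le, not_le] at h
      rcases h with h | h
      · right
        exact ⟨⟨c1, Nat.le_floor h.le⟩, d1, Nat.le_floor d2⟩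
      · left
        exact ⟨⟨c1, Nat.le_floor c2⟩, d1, Nat.le_floor h.le⟩
    · rintro ⟨x, y⟩ -
      set S := ((Two e f w V V).filter
        (fun z => ¬ (V / Λ ^ 2 ≤ (z.2.1 : ℝ) ∧ V / Λ ^ 2 ≤ (z.2.2 : ℝ)))).filter
          (fun z => z.2 = (x, y)) with hS
      rcases S.eq_empty_or_nonempty with h0 | ⟨z₀, hz₀⟩
      · rw [h0]
        simpa using hκ0
      have hxy : Nat.Coprime x w ∧ Nat.Coprime y w := by
        rw [hS, mem_filter, mem_filter] at hz₀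
        obtain ⟨⟨h1, -⟩, h2⟩ := hz₀
        obtain ⟨-, -, -, -, -, -, k5, k6, -⟩ := s2c_mem hV h1
        rw [h2] at k5 k6
        exact ⟨k5, k6⟩
      have hinj : S.card = (S.image (fun z => z.1)).card := by
        rw [card_image_of_injOn]
        intro z hz z' hz' hzz
        rw [mem_coe, hS, mem_filter] at hz hz'
        exact Prod.ext hzz (hz.2.trans hz'.2.symm)
      rw [hinj]
      refine s2c_dir hκ he1 he8 hw hV hVw _ (x ^ f) (y ^ f) (Nat.Coprime.pow_left f hxy.1)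
        (Nat.Coprime.pow_left f hxy.2) ?_
      intro s hs
      rw [mem_image] at hs
      obtain ⟨z, hz, rfl⟩ := hs
      rw [hS, mem_filter, mem_filter] at hz
      obtain ⟨⟨h1, -⟩, h2⟩ := hz
      obtain ⟨⟨c1, c2, d1, d2⟩, -, k1, -, k3, k4, -, -, k7⟩ := s2c_mem hV h1
      rw [h2] at k7
      refine ⟨c1, c2, d1, d2, k1, k3, k4, ?_⟩
      rw [mul_comm (x ^ f), mul_comm (y ^ f)]
      exact k7
  have hc : ((((Finset.Icc 1 ⌊V⌋₊) ×ˢ (Finset.Icc 1 ⌊V / Λ ^ 2⌋₊)) ∪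
        ((Finset.Icc 1 ⌊V / Λ ^ 2⌋₊) ×ˢ (Finset.Icc 1 ⌊V⌋₊)) : Finset (ℕ × ℕ)).card : ℝ) ≤
        2 * (V * (V / Λ ^ 2)) := by
    have h1 := card_union_le ((Finset.Icc 1 ⌊V⌋₊) ×ˢ (Finset.Icc 1 ⌊V / Λ ^ 2⌋₊))
      ((Finset.Icc 1 ⌊V / Λ ^ 2⌋₊) ×ˢ (Finset.Icc 1 ⌊V⌋₊))
    have h2 := s2c_count hV hY
    have h3 : ((((Finset.Icc 1 ⌊V / Λ ^ 2⌋₊) ×ˢ (Finset.Icc 1 ⌊V⌋₊)).card : ℕ) : ℝ) ≤
        V * (V / Λ ^ 2) := by
      rw [Finset.card_product, mul_comm, ← Finset.card_product]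
      exact h2
    have h4 : ((((Finset.Icc 1 ⌊V⌋₊) ×ˢ (Finset.Icc 1 ⌊V / Λ ^ 2⌋₊)) ∪
        ((Finset.Icc 1 ⌊V / Λ ^ 2⌋₊) ×ˢ (Finset.Icc 1 ⌊V⌋₊)) : Finset (ℕ × ℕ)).card : ℝ) ≤
        (((Finset.Icc 1 ⌊V⌋₊) ×ˢ (Finset.Icc 1 ⌊V / Λ ^ 2⌋₊)).card : ℝ) +
        (((Finset.Icc 1 ⌊V / Λ ^ 2⌋₊) ×ˢ (Finset.Icc 1 ⌊V⌋₊)).card : ℝ) := by
      exact_mod_cast h1
    linarith
  have hsplit := Finset.card_filter_add_card_filter_not (s := Two e f w V V)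
    (p := fun z => V / Λ ^ 2 ≤ (z.2.1 : ℝ) ∧ V / Λ ^ 2 ≤ (z.2.2 : ℝ))
  have hs : ((Two e f w V V).card : ℝ) = (((Two e f w V V).filter
      (fun z => V / Λ ^ 2 ≤ (z.2.1 : ℝ) ∧ V / Λ ^ 2 ≤ (z.2.2 : ℝ))).card : ℝ) +
      (((Two e f w V V).filter
      (fun z => ¬ (V / Λ ^ 2 ≤ (z.2.1 : ℝ) ∧ V / Λ ^ 2 ≤ (z.2.2 : ℝ)))).card : ℝ) := by
    rw [← Nat.cast_add, hsplit]
  rw [hs]
  have h5 : 2 * κ * (((Finset.Icc 1 ⌊V⌋₊) ×ˢ (Finset.Icc 1 ⌊V / Λ ^ 2⌋₊)) ∪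
        ((Finset.Icc 1 ⌊V / Λ ^ 2⌋₊) ×ˢ (Finset.Icc 1 ⌊V⌋₊)) : Finset (ℕ × ℕ)).card ≤
        2 * κ * (2 * (V * (V / Λ ^ 2))) := mul_le_mul_of_nonneg_left hc (by linarith)
  have h6 : 2 * κ * (2 * (V * (V / Λ ^ 2))) = 4 * κ * V ^ 2 / Λ ^ 2 := by ring
  linarith

/-- from many solutions to a dense set on one curve -/
lemma s2c_step2 (h2 : P2Stmt) (h3 : P3Stmt) (h4 : P4Stmt) {e f w : ℕ} {κ V Λ L : ℝ}
    (hκ : Kap w κ) (he1 : 1 ≤ e) (he8 : e ≤ 8)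
    (hf1 : 1 ≤ f) (hf8 : f ≤ 8) (hw : 2 ≤ w) (hV : 1 ≤ V) (hL : 0 < L) (hLΛ : L ^ 2 = Λ)
    (hκΛ : 100 * κ ^ 4 ≤ Λ) (hVΛ : V * Λ ≤ w)
    (hT : V ^ 2 / L < ((Two e f w V V).card : ℝ)) :
    ∃ (neg : Bool) (κ₂ : ℕ) (B : ℝ) (D : Finset ℕ) (a : ℕ → ℕ), 1 ≤ B ∧ B ≤ V ∧
      V / Λ ^ 3 ≤ B ^ 2 ∧ Nat.Coprime κ₂ w ∧ B / Λ ^ 30 ≤ (D.card : ℝ) ∧
      ∀ ρ ∈ D, 0 < ρ ∧ (ρ : ℝ) ≤ B ∧ Nat.Coprime ρ w ∧ 0 < a ρ ∧ (a ρ : ℝ) ≤ B * Λ ^ 40 ∧
        Nat.Coprime (a ρ) w ∧ Rel neg e f κ₂ w (a ρ) ρ := by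
  classical
  have hκ1 : 1 ≤ κ := hκ.one
  have hκ0 : 0 ≤ κ := by linarith
  have hκ4 : κ ≤ κ ^ 4 := by
    calc κ = κ ^ 1 := (pow_one κ).symm
      _ ≤ κ ^ 4 := pow_le_pow_right₀ hκ1 (by norm_num)
  have hκ34 : κ ^ 3 ≤ κ ^ 4 := pow_le_pow_right₀ hκ1 (by norm_num)
  have hκ24 : κ ^ 2 ≤ κ ^ 4 := pow_le_pow_right₀ hκ1 (by norm_num)
  have hκ13 : 1 ≤ κ ^ 3 := one_le_pow₀ hκ1
  have hΛ100 : 100 ≤ Λ := by nlinarith
  have hΛ1 : 1 ≤ Λ := by linarith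
  have hΛ0 : 0 < Λ := by linarith
  have hV0 : 0 < V := by linarith
  have hVw : V ≤ w := by nlinarith
  have hw0 : (0 : ℝ) < w := by linarith
  have hL10 : 10 * κ ≤ L := by
    by_contra hcon
    rw [not_le] at hcon
    nlinarith
  -- step 1
  have hE : V ^ 2 / Λ ≤ ((s2cE e f w V Λ).card : ℝ) := by
    have h := s2c_step1 hκ he1 he8 hf1 hf8 hw hV hVw hΛ1
    have h5 : 4 * κ * V ^ 2 / Λ ^ 2 ≤ V ^ 2 / L / 2 := by
      rw [div_div, div_le_div_iff₀ (by positivity) (by positivity)]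
      have h6 : 4 * κ * (L * 2) ≤ Λ ^ 2 := by
        have : Λ ^ 2 = L ^ 4 := by rw [← hLΛ]; ring
        rw [this]
        have h7 : 8 * κ ≤ L := by linarith
        have h8 : 1 ≤ L := by linarith
        calc 4 * κ * (L * 2) = (8 * κ) * L := by ring
          _ ≤ L * L := mul_le_mul_of_nonneg_right h7 hL.le
          _ = L ^ 2 := by ring
          _ ≤ L ^ 4 := pow_le_pow_right₀ h8 (by norm_num)
      calc 4 * κ * V ^ 2 * (L * 2) = V ^ 2 * (4 * κ * (L * 2)) := by ring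
        _ ≤ V ^ 2 * Λ ^ 2 := mul_le_mul_of_nonneg_left h6 (by positivity)
    have h6 : V ^ 2 / L / 2 < 2 * κ * ((s2cE e f w V Λ).card : ℝ) := by
      have : V ^ 2 / L = V ^ 2 / L / 2 + V ^ 2 / L / 2 := by ring
      linarith
    rw [div_le_iff₀ hΛ0]
    have h7 : V ^ 2 < 2 * κ * ((s2cE e f w V Λ).card : ℝ) * (2 * L) := by
      rw [div_div, div_lt_iff₀ (by positivity)] at h6
      linarith [h6, mul_comm L 2]
    have h8 : 4 * κ * L ≤ Λ := by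
      rw [← hLΛ]
      nlinarith
    calc V ^ 2 ≤ 2 * κ * ((s2cE e f w V Λ).card : ℝ) * (2 * L) := h7.le
      _ = ((s2cE e f w V Λ).card : ℝ) * (4 * κ * L) := by ring
      _ ≤ ((s2cE e f w V Λ).card : ℝ) * Λ := mul_le_mul_of_nonneg_left h8 (Nat.cast_nonneg _)
  -- partners
  have hpart : ∀ s : ℕ × ℕ, ∃ p : ℕ × ℕ, s ∈ s2cE e f w V Λ →
      (0 < s.1 ∧ (s.1 : ℝ) ≤ V ∧ 0 < s.2 ∧ (s.2 : ℝ) ≤ V ∧ Nat.Coprime s.1 s.2 ∧
      Nat.Coprime s.1 w ∧ Nat.Coprime s.2 w ∧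
      V / Λ ^ 2 ≤ (p.1 : ℝ) ∧ (p.1 : ℝ) ≤ V ∧ V / Λ ^ 2 ≤ (p.2 : ℝ) ∧ (p.2 : ℝ) ≤ V ∧
      Nat.Coprime p.1 p.2 ∧ Nat.Coprime p.1 w ∧ Nat.Coprime p.2 w ∧
      s.2 ^ e * p.2 ^ f ≡ s.1 ^ e * p.1 ^ f [MOD w ^ 3]) := by
    intro s
    by_cases hs : s ∈ s2cE e f w V Λ
    · have hs' := hs
      unfold s2cE at hs'
      rw [mem_image] at hs'
      obtain ⟨z, hz, rfl⟩ := hs'
      rw [mem_filter] at hz
      obtain ⟨hz, hy1, hy2⟩ := hz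
      obtain ⟨⟨a1, a2, b1, b2⟩, ⟨c1, c2, d1, d2⟩, k1, k2, k3, k4, k5, k6, k7⟩ := s2c_mem hV hz
      exact ⟨(z.2.2, z.2.1), fun _ => ⟨b1, b2, a1, a2, k1.symm, k4, k3, hy2, d2, hy1, c2,
        k2.symm, k6, k5, k7⟩⟩
    · exact ⟨(0, 0), fun h => absurd h hs⟩
  choose p hp using hpart
  obtain ⟨u, u₁, J, hu, hJ, hJv⟩ := h2 e f w κ V Λ (s2cE e f w V Λ) (fun s => (p s).1)
    (fun s => (p s).2) he1 he8 hf1 hf8 hw hκ hV hκΛ hVΛ (fun s hs => hp s hs) hE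
  obtain ⟨q1, q2, q3, q4, q5, q6, q7, q8, q9, q10, q11, q12, q13, q14, q15⟩ := hp _ hu
  have hpos : ∀ y : ℕ, V / Λ ^ 2 ≤ (y : ℝ) → 0 < y := by
    intro y hy
    have : (0 : ℝ) < y := lt_of_lt_of_le (by positivity) hy
    exact_mod_cast this
  obtain ⟨R, S, κ₁, K, U, hR, hS, hRS, hκ₁, hK, hKs⟩ := h3 e f w u (p (u, u₁)).1 (p (u, u₁)).2
    κ V Λ J (fun v => (p (u, v)).1) (fun v => (p (u, v)).2) he1 he8 hf1 hf8 hw hκ hV hΛ1 hVΛ q6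
    (hpos _ q8) q9 (hpos _ q10) q11 q12 (by
      intro v hv
      obtain ⟨hv1, hv2⟩ := hJv v hv
      obtain ⟨r1, r2, r3, r4, r5, r6, r7, r8, r9, r10, r11, r12, r13, r14, r15⟩ := hp _ hv1
      exact ⟨r3, r4, r7, hpos _ r8, r9, hpos _ r10, r11, r12, r13, r14, r15, hv2⟩) hJ
  have hR0 : (0 : ℝ) < R := by exact_mod_cast hR
  have hS0 : (0 : ℝ) < S := by exact_mod_cast hS
  -- sizes
  have h2κ3 : 2 * κ ^ 3 ≤ Λ := by nlinarith
  have hKV : V / Λ ^ 3 ≤ (K.card : ℝ) := by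
    refine le_trans ?_ hK
    apply div_le_div_of_nonneg_left hV0.le (by positivity)
    calc 2 * κ ^ 3 * Λ ^ 2 ≤ Λ * Λ ^ 2 := mul_le_mul_of_nonneg_right h2κ3 (by positivity)
      _ = Λ ^ 3 := by ring
  have hKpos : (0 : ℝ) < (K.card : ℝ) := lt_of_lt_of_le (by positivity) hKV
  have hKne : K.Nonempty := by
    rw [← card_pos]
    exact_mod_cast hKpos
  obtain ⟨s₀, hs₀⟩ := hKne
  obtain ⟨t1, t2, t3, t4, -⟩ := hKs s₀ hs₀
  have hB1 : 1 ≤ V / R := by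
    rw [one_le_div hR0]
    have : (1 : ℝ) ≤ s₀.1 := by exact_mod_cast t1
    calc (R : ℝ) = R * 1 := (mul_one _).symm
      _ ≤ R * s₀.1 := mul_le_mul_of_nonneg_left this hR0.le
      _ ≤ V := t2
  have hB2 : 1 ≤ V / S := by
    rw [one_le_div hS0]
    have : (1 : ℝ) ≤ s₀.2 := by exact_mod_cast t3
    calc (S : ℝ) = S * 1 := (mul_one _).symm
      _ ≤ S * s₀.2 := mul_le_mul_of_nonneg_left this hS0.le
      _ ≤ V := t4
  have hR1 : (1 : ℝ) ≤ R := by exact_mod_cast hR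
  have hS1 : (1 : ℝ) ≤ S := by exact_mod_cast hS
  have hB1V : V / R ≤ V := div_le_self hV0.le hR1
  have hB2V : V / S ≤ V := div_le_self hV0.le hS1
  have hBB : V / R * (V / S) ≤ V * Λ ^ 7 := by
    rw [div_mul_div_comm, div_le_iff₀ (by positivity)]
    rw [div_le_iff₀ (by positivity)] at hRS
    calc V * V ≤ V * ((R : ℝ) * S * Λ ^ 7) := mul_le_mul_of_nonneg_left hRS hV0.le
      _ = V * Λ ^ 7 * ((R : ℝ) * S) := by ring
  have hBK : V / R * (V / S) / Λ ^ 10 ≤ (K.card : ℝ) := by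
    refine le_trans ?_ hKV
    rw [div_le_div_iff₀ (by positivity) (by positivity)]
    calc V / R * (V / S) * Λ ^ 3 ≤ V * Λ ^ 7 * Λ ^ 3 :=
        mul_le_mul_of_nonneg_right hBB (by positivity)
      _ = V * Λ ^ 10 := by ring
  have hVK : V / Λ ^ 10 ≤ (K.card : ℝ) := by
    refine le_trans ?_ hKV
    apply div_le_div_of_nonneg_left hV0.le (by positivity)
    exact pow_le_pow_right₀ hΛ1 (by norm_num)
  have hΛ10 : Λ ≤ Λ ^ 10 := by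
    calc Λ = Λ ^ 1 := (pow_one _).symm
      _ ≤ Λ ^ 10 := pow_le_pow_right₀ hΛ1 (by norm_num)
  have hκΛ10 : 10 * κ ≤ Λ ^ 10 := by linarith
  have hKbox : (K.card : ℝ) ≤ V / R * (V / S) := by
    have hsub : K ⊆ (Finset.Icc 1 ⌊V / R⌋₊) ×ˢ (Finset.Icc 1 ⌊V / S⌋₊) := by
      intro s hs
      obtain ⟨g1, g2, g3, g4, -⟩ := hKs s hs
      rw [mem_product, mem_Icc, mem_Icc]
      refine ⟨⟨g1, Nat.le_floor ?_⟩, g3, Nat.le_floor ?_⟩
      · rw [le_div_iff₀ hR0]; linarith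
      · rw [le_div_iff₀ hS0]; linarith
    have h5 : (K.card : ℝ) ≤
        ((((Finset.Icc 1 ⌊V / R⌋₊) ×ˢ (Finset.Icc 1 ⌊V / S⌋₊)).card : ℕ) : ℝ) := by
      exact_mod_cast card_le_card hsub
    exact h5.trans (s2c_count hB1 (by linarith))
  -- the two cases
  rcases le_total (V / S) (V / R) with hcase | hcase
  · obtain ⟨κ₂, D, a, hκ₂, hD, hDa⟩ := h4 false e f w κ₁ κ V (V / R) (V / S) (Λ ^ 10) K U
      he1 he8 hf1 hf8 hw hκ hκΛ10 hV hVw hB1 (hB1V.trans hVw) hB2 (hB2V.trans hVw) hκ₁ hBK hVK (by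
        intro s hs
        obtain ⟨g1, g2, g3, g4, g5, g6, g7, g8, g9, g10⟩ := hKs s hs
        refine ⟨g1, ?_, g3, ?_, g5, g6, g7, g8, g9, by simpa using g10⟩
        · rw [le_div_iff₀ hR0]; linarith
        · rw [le_div_iff₀ hS0]; linarith)
    refine ⟨false, κ₂, V / R, D, a, hB1, hB1V, ?_, hκ₂, ?_, ?_⟩
    · calc V / Λ ^ 3 ≤ (K.card : ℝ) := hKV
        _ ≤ V / R * (V / S) := hKbox
        _ ≤ V / R * (V / R) := mul_le_mul_of_nonneg_left hcase (by linarith)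
        _ = (V / R) ^ 2 := by ring
    · have : (Λ ^ 10) ^ 3 = Λ ^ 30 := by ring
      rw [this] at hD
      exact hD
    · intro ρ hρ
      have : (Λ ^ 10) ^ 4 = Λ ^ 40 := by ring
      rw [this] at hDa
      exact hDa ρ hρ
  · set K' := K.image Prod.swap with hK'
    have hK'c : K'.card = K.card := card_image_of_injective _ Prod.swap_injective
    obtain ⟨κ₂, D, a, hκ₂, hD, hDa⟩ := h4 true e f w κ₁ κ V (V / S) (V / R) (Λ ^ 10) K'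
      (fun s => U s.swap)
      he1 he8 hf1 hf8 hw hκ hκΛ10 hV hVw hB2 (hB2V.trans hVw) hB1 (hB1V.trans hVw) hκ₁
      (by rw [hK'c, mul_comm (V / S)]; exact hBK) (by rw [hK'c]; exact hVK) (by
        intro s hs
        rw [hK', mem_image] at hs
        obtain ⟨s, hs, rfl⟩ := hs
        obtain ⟨g1, g2, g3, g4, g5, g6, g7, g8, g9, g10⟩ := hKs s hs
        simp only [Prod.fst_swap, Prod.snd_swap, Prod.swap_swap, if_true]
        refine ⟨g3, ?_, g1, ?_, g6, g5, g7, g8, g9, g10⟩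
        · rw [le_div_iff₀ hS0]; linarith
        · rw [le_div_iff₀ hR0]; linarith)
    refine ⟨true, κ₂, V / S, D, a, hB2, hB2V, ?_, hκ₂, ?_, ?_⟩
    · calc V / Λ ^ 3 ≤ (K.card : ℝ) := hKV
        _ ≤ V / R * (V / S) := hKbox
        _ ≤ V / S * (V / S) := mul_le_mul_of_nonneg_right hcase (by linarith)
        _ = (V / S) ^ 2 := by ring
    · have : (Λ ^ 10) ^ 3 = Λ ^ 30 := by ring
      rw [this] at hD
      exact hD
    · intro ρ hρ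
      have : (Λ ^ 10) ^ 4 = Λ ^ 40 := by ring
      rw [this] at hDa
      exact hDa ρ hρ

/-- the number of factors -/
lemma s2c_k {A w : ℝ} {k0 : ℕ} (hA : 1 ≤ A) (h1 : A ≤ w ^ 2 / 2) (h2 : w ^ 2 / 2 < A ^ k0) :
    ∃ k : ℕ, 1 ≤ k ∧ k ≤ k0 ∧ A ^ k ≤ w ^ 2 / 2 ∧ w ^ 2 / 2 < A ^ (k + 1) := by
  classical
  have hex : ∃ n : ℕ, w ^ 2 / 2 < A ^ n := ⟨k0, h2⟩
  have hs := Nat.find_spec hex
  have hle : Nat.find hex ≤ k0 := Nat.find_min' hex h2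
  have h0 : 1 < Nat.find hex := by
    by_contra h0
    rw [not_lt] at h0
    have h3 : A ^ Nat.find hex ≤ A ^ 1 := pow_le_pow_right₀ hA h0
    rw [pow_one] at h3
    linarith
  obtain ⟨k, hk⟩ : ∃ k, Nat.find hex = k + 1 := ⟨Nat.find hex - 1, by omega⟩
  refine ⟨k, by omega, by omega, ?_, ?_⟩
  · exact not_lt.1 (Nat.find_min hex (by omega))
  · rw [← hk]; exact hs

/-- the final contradiction -/
lemma s2c_num {w A Λ κ Bd : ℝ} {k : ℕ} (hw : 0 < w) (hk : 1 ≤ k) (hΛ : 1 ≤ Λ) (hκ1 : 1 ≤ κ)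
    (hκ : κ ≤ Λ) (hwA : w ≤ A ^ k)
    (hD : A / Λ ^ 70 ≤ Bd) (hBd : Bd ^ k ≤ 8 * κ ^ (k + 2) * (w + Real.sqrt (w * A ^ k))) 
    (hA : 0 < A) : A ^ k ≤ 256 * Λ ^ (146 * k) * w := by
  have hΛ0 : 0 < Λ := by linarith
  set a := A ^ k with ha
  have ha0 : 0 < a := pow_pos hA k
  have h1 : a / Λ ^ (70 * k) ≤ 8 * κ ^ (k + 2) * (w + Real.sqrt (w * a)) := by
    refine le_trans ?_ hBd
    have h2 : a / Λ ^ (70 * k) = (A / Λ ^ 70) ^ k := by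
      rw [div_pow, ha, ← pow_mul]
    rw [h2]
    exact pow_le_pow_left₀ (by positivity) hD k
  have h3 : κ ^ (k + 2) ≤ Λ ^ (3 * k) := by
    calc κ ^ (k + 2) ≤ Λ ^ (k + 2) := pow_le_pow_left₀ (by linarith) hκ _
      _ ≤ Λ ^ (3 * k) := pow_le_pow_right₀ hΛ (by omega)
  have h4 : w ≤ Real.sqrt (w * a) := by
    apply Real.le_sqrt_of_sq_le
    nlinarith
  have h5 : a ≤ 16 * Λ ^ (73 * k) * Real.sqrt (w * a) := by
    rw [div_le_iff₀ (by positivity)] at h1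
    calc a ≤ 8 * κ ^ (k + 2) * (w + Real.sqrt (w * a)) * Λ ^ (70 * k) := h1
      _ ≤ 8 * Λ ^ (3 * k) * (Real.sqrt (w * a) + Real.sqrt (w * a)) * Λ ^ (70 * k) := by
          gcongr
      _ = 16 * (Λ ^ (3 * k) * Λ ^ (70 * k)) * Real.sqrt (w * a) := by ring
      _ = 16 * Λ ^ (73 * k) * Real.sqrt (w * a) := by
          rw [← pow_add]; congr 3; ring
  have h6 : a ^ 2 ≤ (16 * Λ ^ (73 * k)) ^ 2 * (w * a) := by
    calc a ^ 2 ≤ (16 * Λ ^ (73 * k) * Real.sqrt (w * a)) ^ 2 := pow_le_pow_left₀ ha0.le h5 2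
      _ = (16 * Λ ^ (73 * k)) ^ 2 * (Real.sqrt (w * a)) ^ 2 := by ring
      _ = (16 * Λ ^ (73 * k)) ^ 2 * (w * a) := by rw [Real.sq_sqrt (by positivity)]
  have h7 : (16 * Λ ^ (73 * k)) ^ 2 = 256 * Λ ^ (146 * k) := by
    rw [mul_pow, ← pow_mul]
    norm_num
    ring_nf
  rw [h7] at h6
  have h8 : a * a ≤ (256 * Λ ^ (146 * k) * w) * a := by nlinarith
  exact le_of_mul_le_mul_right h8 ha0

theorem s2c_thm (hk : KAPStmt) (h2 : P2Stmt) (h3 : P3Stmt) (h4 : P4Stmt) (h5 : P5Stmt) :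
    S2cStmt := by
  intro e f he1 he8 hf1 hf8 hef σ η hσ hη
  set k0 : ℕ := ⌈6 / σ⌉₊ + 1 with hk0
  have hk0σ : 6 / σ ≤ (k0 : ℝ) := by
    rw [hk0]
    push_cast
    linarith [Nat.le_ceil (6 / σ)]
  have hk01 : (1 : ℝ) ≤ k0 := by rw [hk0]; push_cast; linarith [Nat.cast_nonneg (α := ℝ) ⌈6 / σ⌉₊]
  set m : ℝ := min (min σ η) 1 with hm
  have hm0 : 0 < m := lt_min (lt_min hσ hη) one_pos
  have hmσ : m ≤ σ := (min_le_left _ _).trans (min_le_left _ _)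
  have hmη : m ≤ η := (min_le_left _ _).trans (min_le_right _ _)
  set c : ℝ := m / (1000 * k0) with hc
  have hc0 : 0 < c := by positivity
  have hck : 1000 * k0 * c = m := by
    rw [hc]; field_simp
  have hcm : 1000 * c ≤ m := by
    rw [← hck]
    nlinarith
  obtain ⟨Cκ, hCκ, hKap⟩ := hk (c / 8) (by positivity)
  set W0 : ℝ := max 2 (max ((100 * Cκ ^ 4) ^ (2 / c)) (513 ^ (4 / η))) with hW0
  have hW02 : 2 ≤ W0 := le_max_left _ _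
  have hW0a : (100 * Cκ ^ 4) ^ (2 / c) ≤ W0 := (le_max_left _ _).trans (le_max_right _ _)
  have hW0b : (513 : ℝ) ^ (4 / η) ≤ W0 := (le_max_right _ _).trans (le_max_right _ _)
  refine ⟨c / 2, W0 ^ (2 + c / 2), by positivity, Real.one_le_rpow (by linarith) (by positivity),
    ?_⟩
  intro w V hsq hb1 hb2 hV hV1 hV2
  have hwpos : 0 < w := Nat.pos_of_ne_zero hsq.ne_zero
  have hw1 : (1 : ℝ) ≤ w := by exact_mod_cast hwpos
  have hw0 : (0 : ℝ) < w := by linarith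
  have hV0 : 0 < V := by linarith
  have hVw : V ≤ w := by
    calc V ≤ (w : ℝ) ^ (1 - η) := hV2
      _ ≤ (w : ℝ) ^ (1 : ℝ) := Real.rpow_le_rpow_of_exponent_le hw1 (by linarith)
      _ = w := Real.rpow_one _
  rcases lt_or_ge (w : ℝ) W0 with hw | hw
  · -- small w
    have h6 := s2_card e f w V hV
    calc ((Two e f w V V).card : ℝ) ≤ V ^ 4 := h6
      _ = V ^ 2 * V ^ 2 := by ring
      _ ≤ V ^ 2 * (w : ℝ) ^ 2 := by gcongr
      _ = V ^ 2 * ((w : ℝ) ^ (2 + c / 2) * (w : ℝ) ^ (-(c / 2))) := by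
          rw [← Real.rpow_add hw0]
          congr 1
          rw [show (2 + c / 2 + -(c / 2) : ℝ) = ((2 : ℕ) : ℝ) by push_cast; ring,
            Real.rpow_natCast]
      _ ≤ V ^ 2 * (W0 ^ (2 + c / 2) * (w : ℝ) ^ (-(c / 2))) := by
          have : (w : ℝ) ^ (2 + c / 2) ≤ W0 ^ (2 + c / 2) :=
            Real.rpow_le_rpow hw0.le hw.le (by positivity)
          gcongr
      _ = W0 ^ (2 + c / 2) * V ^ 2 * (w : ℝ) ^ (-(c / 2)) := by ring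
  -- large w
  have hwn : 2 ≤ w := by
    have : (2 : ℝ) ≤ w := hW02.trans hw
    exact_mod_cast this
  have hT1 : 100 * Cκ ^ 4 ≤ (w : ℝ) ^ (c / 2) := by
    have h6 : (100 * Cκ ^ 4) ^ (2 / c) ≤ (w : ℝ) := hW0a.trans hw
    have h7 := Real.rpow_le_rpow (by positivity) h6 (by positivity : (0 : ℝ) ≤ c / 2)
    rw [← Real.rpow_mul (by positivity)] at h7
    have h8 : 2 / c * (c / 2) = 1 := by field_simp
    rw [h8, Real.rpow_one] at h7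
    exact h7
  have hT2 : 512 < (w : ℝ) ^ (η / 4) := by
    have h6 : (513 : ℝ) ^ (4 / η) ≤ (w : ℝ) := hW0b.trans hw
    have h7 := Real.rpow_le_rpow (by positivity) h6 (by positivity : (0 : ℝ) ≤ η / 4)
    rw [← Real.rpow_mul (by positivity)] at h7
    have h8 : 4 / η * (η / 4) = 1 := by field_simp
    rw [h8, Real.rpow_one] at h7
    linarith
  have hC1 : 1 ≤ W0 ^ (2 + c / 2) := Real.one_le_rpow (by linarith) (by positivity)
  have hkey : ((Two e f w V V).card : ℝ) ≤ V ^ 2 / (w : ℝ) ^ (c / 2) := by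
    by_contra hcon
    rw [not_le] at hcon
    set Λ : ℝ := (w : ℝ) ^ c with hΛ
    have hΛ1 : 1 ≤ Λ := Real.one_le_rpow hw1 hc0.le
    have hΛ0 : 0 < Λ := by linarith
    have hL2 : ((w : ℝ) ^ (c / 2)) ^ 2 = Λ := by
      rw [← Real.rpow_natCast, ← Real.rpow_mul hw0.le, hΛ]
      congr 1
      push_cast
      ring
    have hκ := hKap w hwpos
    have hκΛ : 100 * (Cκ * (w : ℝ) ^ (c / 8)) ^ 4 ≤ Λ := by
      rw [mul_pow, ← Real.rpow_natCast ((w : ℝ) ^ (c / 8)), ← Real.rpow_mul hw0.le]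
      have h6 : c / 8 * ((4 : ℕ) : ℝ) = c / 2 := by push_cast; ring
      rw [h6, ← hL2]
      have h7 : 0 ≤ (w : ℝ) ^ (c / 2) := Real.rpow_nonneg hw0.le _
      calc 100 * (Cκ ^ 4 * (w : ℝ) ^ (c / 2)) = (100 * Cκ ^ 4) * (w : ℝ) ^ (c / 2) := by ring
        _ ≤ (w : ℝ) ^ (c / 2) * (w : ℝ) ^ (c / 2) := mul_le_mul_of_nonneg_right hT1 h7
        _ = ((w : ℝ) ^ (c / 2)) ^ 2 := by ring
    have hκ1 : 1 ≤ Cκ * (w : ℝ) ^ (c / 8) := hκ.one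
    have hκle : Cκ * (w : ℝ) ^ (c / 8) ≤ Λ := by
      have h6 : Cκ * (w : ℝ) ^ (c / 8) ≤ (Cκ * (w : ℝ) ^ (c / 8)) ^ 4 := by
        calc Cκ * (w : ℝ) ^ (c / 8) = (Cκ * (w : ℝ) ^ (c / 8)) ^ 1 := (pow_one _).symm
          _ ≤ _ := pow_le_pow_right₀ hκ1 (by norm_num)
      nlinarith
    have hVΛ : V * Λ ≤ w := by
      calc V * Λ ≤ (w : ℝ) ^ (1 - η) * (w : ℝ) ^ c := by gcongr
        _ = (w : ℝ) ^ (1 - η + c) := (Real.rpow_add hw0 _ _).symm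
        _ ≤ (w : ℝ) ^ (1 : ℝ) := Real.rpow_le_rpow_of_exponent_le hw1 (by linarith)
        _ = w := Real.rpow_one _
    obtain ⟨neg, κ₂, B, D, a, hB1, hBV, hB2, hκ₂, hD, hDa⟩ := s2c_step2 h2 h3 h4 hκ he1 he8 hf1 hf8
      hwn hV (Real.rpow_pos_of_pos hw0 (c / 2)) hL2 hκΛ hVΛ hcon
    have hB0 : 0 < B := by linarith
    -- B is large
    have hBσ : (w : ℝ) ^ (σ / 3) ≤ B := by
      have h6 : ((w : ℝ) ^ (σ / 3)) ^ 2 ≤ B ^ 2 := by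
        refine le_trans ?_ hB2
        rw [le_div_iff₀ (by positivity)]
        refine le_trans ?_ hV1
        rw [← Real.rpow_natCast, ← Real.rpow_natCast, hΛ, ← Real.rpow_mul hw0.le,
          ← Real.rpow_mul hw0.le, ← Real.rpow_add hw0]
        apply Real.rpow_le_rpow_of_exponent_le hw1
        push_cast
        linarith
      exact le_of_sq_le_sq h6 hB0.le
    set A : ℝ := B * Λ ^ 40 with hA
    have hΛ40 : 1 ≤ Λ ^ 40 := one_le_pow₀ hΛ1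
    have hBA : B ≤ A := by rw [hA]; nlinarith
    have hA1 : 1 ≤ A := hB1.trans hBA
    have hA0 : 0 < A := by linarith
    have hAle : A ≤ (w : ℝ) ^ (1 - η / 2) := by
      calc A = B * Λ ^ 40 := rfl
        _ ≤ (w : ℝ) ^ (1 - η) * Λ ^ 40 := by
            have := hBV.trans hV2
            gcongr
        _ = (w : ℝ) ^ (1 - η + c * 40) := by
            rw [hΛ, ← Real.rpow_natCast ((w : ℝ) ^ c), ← Real.rpow_mul hw0.le,
              ← Real.rpow_add hw0]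
            push_cast
            rfl
        _ ≤ (w : ℝ) ^ (1 - η / 2) := by
            apply Real.rpow_le_rpow_of_exponent_le hw1
            linarith
    have hw2 : (2 : ℝ) ≤ w := by exact_mod_cast hwn
    have hAw : A ≤ (w : ℝ) ^ 2 / 2 := by
      have h6 : A ≤ w := by
        calc A ≤ (w : ℝ) ^ (1 - η / 2) := hAle
          _ ≤ (w : ℝ) ^ (1 : ℝ) := Real.rpow_le_rpow_of_exponent_le hw1 (by linarith)
          _ = w := Real.rpow_one _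
      nlinarith
    have hAk0 : (w : ℝ) ^ 2 / 2 < A ^ k0 := by
      have h6 : (w : ℝ) ^ 2 ≤ A ^ k0 := by
        calc (w : ℝ) ^ 2 = (w : ℝ) ^ ((2 : ℕ) : ℝ) := (Real.rpow_natCast _ _).symm
          _ ≤ (w : ℝ) ^ (σ / 3 * k0) := by
              apply Real.rpow_le_rpow_of_exponent_le hw1
              rw [div_le_iff₀ hσ] at hk0σ
              push_cast
              linarith
          _ = ((w : ℝ) ^ (σ / 3)) ^ k0 := by
              rw [Real.rpow_mul hw0.le, Real.rpow_natCast]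
          _ ≤ A ^ k0 := pow_le_pow_left₀ (by positivity) (hBσ.trans hBA) _
      have h7 : 0 < (w : ℝ) ^ 2 := by positivity
      linarith
    obtain ⟨k, hk1, hkk, hAk, hAk1⟩ := s2c_k hA1 hAw hAk0
    -- the lower bound for A ^ k
    have hlow : (w : ℝ) ^ (1 + η / 2) / 2 < A ^ k := by
      have h6 : (w : ℝ) ^ 2 / 2 < A ^ k * (w : ℝ) ^ (1 - η / 2) := by
        refine lt_of_lt_of_le hAk1 ?_
        rw [pow_succ]
        gcongr
      have h7 : (w : ℝ) ^ 2 = (w : ℝ) ^ (1 + η / 2) * (w : ℝ) ^ (1 - η / 2) := by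
        rw [← Real.rpow_add hw0, ← Real.rpow_natCast]
        congr 1
        push_cast
        ring
      rw [h7] at h6
      have h8 : 0 < (w : ℝ) ^ (1 - η / 2) := Real.rpow_pos_of_pos hw0 _
      have h9 : (w : ℝ) ^ (1 + η / 2) / 2 * (w : ℝ) ^ (1 - η / 2) <
          A ^ k * (w : ℝ) ^ (1 - η / 2) := by linarith
      exact lt_of_mul_lt_mul_right h9 h8.le
    have hsplit : (w : ℝ) ^ (1 + η / 2) = w * ((w : ℝ) ^ (η / 4) * (w : ℝ) ^ (η / 4)) := by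
      rw [← Real.rpow_add hw0, Real.rpow_add hw0, Real.rpow_one]
      congr 2
      ring
    have hwη : 0 < (w : ℝ) ^ (η / 4) := Real.rpow_pos_of_pos hw0 _
    have hwA : (w : ℝ) ≤ A ^ k := by
      rw [hsplit] at hlow
      have hx : 2 ≤ (w : ℝ) ^ (η / 4) * (w : ℝ) ^ (η / 4) := by nlinarith
      have hx2 := mul_le_mul_of_nonneg_left hx hw0.le
      linarith
    have hBk : B ^ k ≤ (w : ℝ) ^ 2 / 2 := (pow_le_pow_left₀ hB0.le hBA k).trans hAk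
    have hfin := h5 neg e f w κ₂ k (Cκ * (w : ℝ) ^ (c / 8)) A B D a he1 he8 hf1 hf8
      (fun _ => hef) hsq (by cases neg; exacts [hb1, hb2]) hκ hκ₂ hk1 hA1 hB1 hAk hBk hwn hDa
    have hDA : A / Λ ^ 70 ≤ (D.card : ℝ) := by
      refine le_trans (le_of_eq ?_) hD
      rw [hA, div_eq_div_iff (by positivity) (by positivity)]
      ring
    have h10 := s2c_num hw0 hk1 hΛ1 hκ1 hκle hwA hDA hfin hA0
    have h11 : Λ ^ (146 * k) ≤ (w : ℝ) ^ (η / 4) := by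
      rw [hΛ, ← Real.rpow_natCast, ← Real.rpow_mul hw0.le]
      apply Real.rpow_le_rpow_of_exponent_le hw1
      push_cast
      have h12 : (k : ℝ) ≤ k0 := by exact_mod_cast hkk
      have h13 : c * (k : ℝ) ≤ c * k0 := mul_le_mul_of_nonneg_left h12 hc0.le
      have h14 : 1000 * (c * k0) = m := by rw [← hck]; ring
      nlinarith
    rw [hsplit] at hlow
    have h15 : 256 * Λ ^ (146 * k) * w ≤ 256 * (w : ℝ) ^ (η / 4) * w := by gcongr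
    have h16 : w * ((w : ℝ) ^ (η / 4) * (w : ℝ) ^ (η / 4)) / 2 < 256 * (w : ℝ) ^ (η / 4) * w := by
      linarith
    have h17 : 512 * (w * (w : ℝ) ^ (η / 4)) < (w : ℝ) ^ (η / 4) * (w * (w : ℝ) ^ (η / 4)) :=
      mul_lt_mul_of_pos_right hT2 (by positivity)
    nlinarith
  refine hkey.trans ?_
  rw [Real.rpow_neg hw0.le, ← div_eq_mul_inv]
  have h6 : 0 < (w : ℝ) ^ (c / 2) := Real.rpow_pos_of_pos hw0 _
  apply div_le_div_of_nonneg_right _ h6.le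
  nlinarith [sq_nonneg V]

end Pool.Agent.Helper21.EN
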