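import Pool.Agent.Helper21.EN.Stmts
import Pool.Agent.Helper94.Abc.Basic

set_option autoImplicit false

/-!
# Project EN, piece SQ

The statement is in EN/Stmts.lean. Paper: /team-store/EN_paper.md.

Proof (Heath-Brown square sieve). Primes set Pr = primes in [3, floor L], k = |Pr| >= c L/log L. F(x,y) = tt (P0 x^i + Q0 y^j) (integer). For s in S: F = y^2, 0 < y <= X^2: for p in Pr the Legendre symbol (F/p) = 1 unless p | y; the number of primes dividing y is <= log2 (X^2) (2^omega <= y). So sum_{p in Pr} (F(s)/p) >= k - 2 log2 X - .. >= k/2 for X >= X0(l)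
(k >= c X^l/log X; for X < X0 the statement holds with a large constant: |S| <= Zx Zy <= X^2 and the right side is >= C Zx Zy/L >= C/X.. choose C >= X0^3). Hence (k/2)^2 |S| <= sum over all 1 <= x <= Zx, 1 <= y <= Zy of (sum_p (F/p))^2 = sum_{p,p'} sum_{x,y} (F/p)(F/p').
Diagonal p = p': <= k Zx Zy. For p <> p': (F/p)(F/p') = jacobiSym F (p p') depends only on (x,y) modulo m = pp'; the sum over a complete system (x,y) modulo m is 0: choose a unit lam modulo m with jacobiSym lam m = -1 (nonresidue modulo p and 1 modulo p'); (x,y) -> (lam^j x, lam^i y) is a bijection modulo m and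
multiplies F by lam^(ij), ij odd, so the symbol changes sign. The box [1,floor Zx] x [1,floor Zy] is a union of complete m x m blocks and at most m (Zx + Zy) other points. So |sum| <= m (Zx+Zy) <= L^2 (Zx + Zy).
Total: |S| <= 4 Zx Zy/k + 4 L^2 (Zx+Zy), and k >= c L/log L >= c' L X^(-eps).
-/

namespace Pool.Agent.Helper21.EN

open Finset

/-- the values of the symbol as a function on `ZMod m` -/
def sq_chi (m : ℕ) (z : ZMod m) : ℤ := jacobiSym (z.val : ℤ) m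

theorem sq_chi_int (m : ℕ) [NeZero m] (a : ℤ) : sq_chi m (a : ZMod m) = jacobiSym a m := by
  unfold sq_chi
  rw [ZMod.val_intCast, ← jacobiSym.mod_left]

theorem sq_chi_mul (m : ℕ) [NeZero m] (z w : ZMod m) :
    sq_chi m (z * w) = sq_chi m z * sq_chi m w := by
  have h1 : z * w = (((z.val : ℤ) * (w.val : ℤ) : ℤ) : ZMod m) := by
    push_cast
    rw [ZMod.natCast_zmod_val, ZMod.natCast_zmod_val]
  rw [h1, sq_chi_int, jacobiSym.mul_left]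
  rfl

theorem sq_chi_pow (m : ℕ) [NeZero m] (z : ZMod m) (n : ℕ) :
    sq_chi m (z ^ n) = sq_chi m z ^ n := by
  induction n with
  | zero =>
    have h := sq_chi_int m 1
    rw [Int.cast_one, jacobiSym.one_left] at h
    rw [pow_zero, pow_zero, h]
  | succ n ih => rw [pow_succ, sq_chi_mul, ih, pow_succ]

/-- a unit with symbol `-1` modulo `p p'` -/
theorem sq_lam {p q : ℕ} (hp : p.Prime) (hq : q.Prime) (hp2 : p ≠ 2) (hpq : p ≠ q) :
    ∃ u : (ZMod (p * q))ˣ, sq_chi (p * q) (u : ZMod (p * q)) = -1 := by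
  have : Fact p.Prime := ⟨hp⟩
  have : NeZero p := ⟨hp.ne_zero⟩
  have : NeZero q := ⟨hq.ne_zero⟩
  have : NeZero (p * q) := ⟨mul_ne_zero hp.ne_zero hq.ne_zero⟩
  have hco : Nat.Coprime p q := (Nat.coprime_primes hp hq).mpr hpq
  obtain ⟨a, ha⟩ : ∃ a : ZMod p, quadraticChar (ZMod p) a = -1 := by
    apply quadraticChar_exists_neg_one
    rw [ZMod.ringChar_zmod_n]
    exact hp2
  obtain ⟨k, hk1, hk2⟩ := Nat.chineseRemainder hco a.val 1
  have e1 : jacobiSym (k : ℤ) p = -1 := by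
    rw [← jacobiSym.legendreSym.to_jacobiSym]
    unfold legendreSym
    have : ((k : ℤ) : ZMod p) = a := by
      have h1 : ((k : ℕ) : ZMod p) = ((a.val : ℕ) : ZMod p) := (ZMod.natCast_eq_natCast_iff _ _ _).mpr hk1
      rw [ZMod.natCast_zmod_val] at h1
      exact_mod_cast h1
    rw [this, ha]
  have e2 : jacobiSym (k : ℤ) q = 1 := by
    rw [← jacobiSym.one_left q]
    apply jacobiSym.mod_left'
    have : (k : ℤ) ≡ 1 [ZMOD q] := by
      have := (Int.natCast_modEq_iff (a := k) (b := 1) (n := q)).mpr hk2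
      simpa using this
    exact this
  have e3 : jacobiSym (k : ℤ) (p * q) = -1 := by
    rw [jacobiSym.mul_right, e1, e2]
    norm_num
  have hcop : Nat.Coprime k (p * q) := by
    by_contra hcon
    have h1 : jacobiSym (k : ℤ) (p * q) = 0 := by
      rw [jacobiSym.eq_zero_iff_not_coprime, Int.gcd_natCast_natCast]
      exact hcon
    rw [e3] at h1
    norm_num at h1
  refine ⟨ZMod.unitOfCoprime k hcop, ?_⟩
  rw [ZMod.coe_unitOfCoprime]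
  have := sq_chi_int (p * q) (k : ℤ)
  rw [e3] at this
  exact_mod_cast this

/-- the complete sum vanishes -/
theorem sq_complete {p q : ℕ} (hp : p.Prime) (hq : q.Prime) (hp2 : p ≠ 2) (hpq : p ≠ q)
    {i j : ℕ} (hi : Odd i) (hj : Odd j) (P Q : ZMod (p * q)) [NeZero (p * q)] :
    ∑ x : ZMod (p * q), ∑ y : ZMod (p * q), sq_chi (p * q) (P * x ^ i + Q * y ^ j) = 0 := by
  obtain ⟨u, hu⟩ := sq_lam hp hq hp2 hpq
  have h1 : ∑ x : ZMod (p * q), ∑ y : ZMod (p * q), sq_chi (p * q) (P * x ^ i + Q * y ^ j) =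
      ∑ x : ZMod (p * q), ∑ y : ZMod (p * q), sq_chi (p * q) (P * ((u : ZMod (p * q)) ^ j * x) ^ i +
        Q * ((u : ZMod (p * q)) ^ i * y) ^ j) := by
    rw [← Equiv.sum_comp (Units.mulLeft (u ^ j))]
    refine Finset.sum_congr rfl fun x _ => ?_
    rw [← Equiv.sum_comp (Units.mulLeft (u ^ i))]
    refine Finset.sum_congr rfl fun y _ => ?_
    simp
  have h2 : ∀ x y : ZMod (p * q), sq_chi (p * q) (P * ((u : ZMod (p * q)) ^ j * x) ^ i +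
        Q * ((u : ZMod (p * q)) ^ i * y) ^ j) = - sq_chi (p * q) (P * x ^ i + Q * y ^ j) := by
    intro x y
    have : P * ((u : ZMod (p * q)) ^ j * x) ^ i + Q * ((u : ZMod (p * q)) ^ i * y) ^ j =
        (u : ZMod (p * q)) ^ (i * j) * (P * x ^ i + Q * y ^ j) := by
      ring
    rw [this, sq_chi_mul, sq_chi_pow, hu, (hi.mul hj).neg_one_pow]
    ring
  simp only [h2, Finset.sum_neg_distrib] at h1
  omega

/-- a sum over a period -/
theorem sq_range_sum {m : ℕ} [NeZero m] (φ : ZMod m → ℤ) (c : ZMod m) :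
    ∑ i ∈ Finset.range m, φ ((i : ZMod m) + c) = ∑ z : ZMod m, φ z := by
  rw [← Equiv.sum_comp (Equiv.addRight c) φ]
  refine Finset.sum_nbij' (fun i => (i : ZMod m)) (fun z => z.val) ?_ ?_ ?_ ?_ ?_
  · intro a _
    exact Finset.mem_univ _
  · intro a _
    exact Finset.mem_range.mpr (ZMod.val_lt a)
  · intro a ha
    exact ZMod.val_cast_of_lt (Finset.mem_range.mp ha)
  · intro a _
    exact ZMod.natCast_zmod_val a
  · intro a _
    rfl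

/-- a sum over an interval -/
theorem sq_interval {m : ℕ} [NeZero m] (φ : ZMod m → ℤ) {K : ℤ} (hφ : ∀ z, |φ z| ≤ K) (N : ℕ) :
    |∑ i ∈ Finset.Icc 1 N, φ (i : ZMod m) - ((N / m : ℕ) : ℤ) * ∑ z : ZMod m, φ z| ≤ K * m := by
  have hK : 0 ≤ K := (abs_nonneg _).trans (hφ 0)
  have h0 : ∑ i ∈ Finset.Icc 1 N, φ (i : ZMod m) = ∑ i ∈ Finset.range N, φ ((i : ZMod m) + 1) := by
    have e1 : ∑ i ∈ Finset.Ico 0 N, φ (((i + 1 : ℕ)) : ZMod m) =
        ∑ i ∈ Finset.Ico (0 + 1) (N + 1), φ (i : ZMod m) :=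
      Finset.sum_Ico_add' (fun i : ℕ => φ ((i : ZMod m))) 0 N 1
    have e2 : Finset.Icc 1 N = Finset.Ico (0 + 1) (N + 1) := by
      ext x
      simp only [Finset.mem_Icc, Finset.mem_Ico]
      omega
    rw [e2, ← e1, ← Finset.range_eq_Ico]
    refine Finset.sum_congr rfl fun x _ => ?_
    push_cast
    rfl
  have h1 : ∀ q : ℕ, ∑ i ∈ Finset.range (m * q), φ ((i : ZMod m) + 1) =
      (q : ℤ) * ∑ z : ZMod m, φ z := by
    intro q
    induction q with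
    | zero => simp
    | succ q ih =>
      rw [mul_add, mul_one, Finset.sum_range_add, ih]
      have : ∑ x ∈ Finset.range m, φ (((m * q + x : ℕ) : ZMod m) + 1) = ∑ z : ZMod m, φ z := by
        rw [← sq_range_sum φ 1]
        refine Finset.sum_congr rfl fun x _ => ?_
        congr 2
        push_cast
        simp
      rw [this]
      push_cast
      ring
  have h2 : N = m * (N / m) + N % m := (Nat.div_add_mod N m).symm
  have h3 : ∑ i ∈ Finset.range N, φ ((i : ZMod m) + 1) = ((N / m : ℕ) : ℤ) * ∑ z : ZMod m, φ z +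
      ∑ x ∈ Finset.range (N % m), φ (((m * (N / m) + x : ℕ) : ZMod m) + 1) := by
    conv_lhs => rw [h2]
    rw [Finset.sum_range_add, h1]
  rw [h0, h3, add_sub_cancel_left]
  refine (Finset.abs_sum_le_sum_abs _ _).trans ?_
  refine (Finset.sum_le_sum fun x _ => hφ _).trans ?_
  rw [Finset.sum_const, Finset.card_range, nsmul_eq_mul, mul_comm]
  apply mul_le_mul_of_nonneg_left _ hK
  exact_mod_cast (Nat.mod_lt N (Nat.pos_of_neZero m)).le

/-- the incomplete sum -/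
theorem sq_box {m : ℕ} [NeZero m] (f : ZMod m → ZMod m → ℤ) (hf : ∀ x y, |f x y| ≤ 1)
    (h0 : ∑ x : ZMod m, ∑ y : ZMod m, f x y = 0) (N M : ℕ) :
    |∑ x ∈ Finset.Icc 1 N, ∑ y ∈ Finset.Icc 1 M, f x y| ≤ (m : ℤ) * (N + M) := by
  have hm : (0 : ℤ) < m := by exact_mod_cast Nat.pos_of_neZero m
  -- inner sums
  have h1 : ∀ x : ZMod m, |∑ y ∈ Finset.Icc 1 M, f x y -
      ((M / m : ℕ) : ℤ) * ∑ z : ZMod m, f x z| ≤ 1 * m := fun x => sq_interval (f x) (hf x) M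
  have hA : ∀ x : ZMod m, |∑ z : ZMod m, f x z| ≤ m := by
    intro x
    refine (Finset.abs_sum_le_sum_abs _ _).trans ?_
    refine (Finset.sum_le_sum fun z _ => hf x z).trans ?_
    simp [ZMod.card]
  have h2 := sq_interval (fun x => ∑ z : ZMod m, f x z) hA N
  simp only [h0, mul_zero, sub_zero] at h2
  have h3 : ∑ x ∈ Finset.Icc 1 N, ∑ y ∈ Finset.Icc 1 M, f x y =
      ∑ x ∈ Finset.Icc 1 N, (∑ y ∈ Finset.Icc 1 M, f x y -
        ((M / m : ℕ) : ℤ) * ∑ z : ZMod m, f x z) +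
      ((M / m : ℕ) : ℤ) * ∑ x ∈ Finset.Icc 1 N, ∑ z : ZMod m, f x z := by
    rw [Finset.sum_sub_distrib, Finset.mul_sum]
    ring
  rw [h3]
  refine (abs_add_le _ _).trans ?_
  have h4 : |∑ x ∈ Finset.Icc 1 N, (∑ y ∈ Finset.Icc 1 M, f x y -
        ((M / m : ℕ) : ℤ) * ∑ z : ZMod m, f x z)| ≤ m * N := by
    refine (Finset.abs_sum_le_sum_abs _ _).trans ?_
    refine (Finset.sum_le_sum (s := Finset.Icc 1 N) fun (x : ℕ) _ => h1 (x : ZMod m)).trans ?_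
    simp
    ring_nf
    rfl
  have h5 : |((M / m : ℕ) : ℤ) * ∑ x ∈ Finset.Icc 1 N, ∑ z : ZMod m, f x z| ≤ m * M := by
    rw [abs_mul, abs_of_nonneg (Int.natCast_nonneg _)]
    refine (mul_le_mul_of_nonneg_left h2 (Int.natCast_nonneg _)).trans ?_
    have h6 : ((M / m : ℕ) : ℤ) * m ≤ M := by exact_mod_cast Nat.div_mul_le_self M m
    nlinarith
  linarith

/-- the off diagonal sums -/
theorem sq_off {p q : ℕ} (hp : p.Prime) (hq : q.Prime) (hp2 : p ≠ 2) (hpq : p ≠ q)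
    {i j : ℕ} (hi : Odd i) (hj : Odd j) (P Q t : ℤ) (N M : ℕ) :
    |∑ x ∈ Finset.Icc 1 N, ∑ y ∈ Finset.Icc 1 M,
      jacobiSym (t * (P * (x : ℤ) ^ i + Q * (y : ℤ) ^ j)) p *
      jacobiSym (t * (P * (x : ℤ) ^ i + Q * (y : ℤ) ^ j)) q| ≤ ((p * q : ℕ) : ℤ) * (N + M) := by
  have : NeZero p := ⟨hp.ne_zero⟩
  have : NeZero q := ⟨hq.ne_zero⟩
  have : NeZero (p * q) := ⟨mul_ne_zero hp.ne_zero hq.ne_zero⟩
  have h := sq_box (m := p * q)
    (fun x y => sq_chi (p * q) (((t * P : ℤ) : ZMod (p * q)) * x ^ i + ((t * Q : ℤ) : ZMod (p * q)) * y ^ j))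
    (by
      intro x y
      unfold sq_chi
      rcases jacobiSym.trichotomy ((((t * P : ℤ) : ZMod (p * q)) * x ^ i +
        ((t * Q : ℤ) : ZMod (p * q)) * y ^ j).val : ℤ) (p * q) with h | h | h <;> rw [h] <;> simp)
    (sq_complete hp hq hp2 hpq hi hj _ _) N M
  refine le_trans (le_of_eq ?_) h
  congr 1
  refine Finset.sum_congr rfl fun x _ => Finset.sum_congr rfl fun y _ => ?_
  rw [← jacobiSym.mul_right, ← sq_chi_int]
  congr 1
  push_cast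
  ring

theorem sq_abs_jac (a : ℤ) (m : ℕ) : |jacobiSym a m| ≤ 1 := by
  rcases jacobiSym.trichotomy a m with h | h | h <;> rw [h] <;> simp

/-- few prime divisors -/
theorem sq_few {Pr : Finset ℕ} (hPr : ∀ p ∈ Pr, p.Prime) {y : ℕ} (hy : 0 < y) :
    2 ^ (Pr.filter (fun p => p ∣ y)).card ≤ y := by
  have h1 : (Pr.filter (fun p => p ∣ y)) ⊆ y.primeFactors := by
    intro p hp
    rw [Finset.mem_filter] at hp
    exact Nat.mem_primeFactors.mpr ⟨hPr p hp.1, hp.2, hy.ne'⟩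
  calc 2 ^ (Pr.filter (fun p => p ∣ y)).card ≤ 2 ^ y.primeFactors.card :=
        Nat.pow_le_pow_right (by norm_num) (Finset.card_le_card h1)
    _ ≤ ∏ p ∈ y.primeFactors, p := by
        apply Finset.pow_card_le_prod
        intro p hp
        exact (Nat.prime_of_mem_primeFactors hp).two_le
    _ ≤ y := Nat.le_of_dvd hy (Nat.prod_primeFactors_dvd y)

/-- the weight of a point of `S` -/
theorem sq_weight {Pr : Finset ℕ} (hPr : ∀ p ∈ Pr, p.Prime) {y : ℕ} {F : ℤ}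
    (hF : F = (y : ℤ) ^ 2) :
    (Pr.card : ℤ) - (Pr.filter (fun p => p ∣ y)).card ≤ ∑ p ∈ Pr, jacobiSym F p := by
  have h1 : (Pr.card : ℤ) = (Pr.filter (fun p => p ∣ y)).card +
      (Pr.filter (fun p => ¬ p ∣ y)).card := by
    rw [← Finset.card_filter_add_card_filter_not (s := Pr) (fun p => p ∣ y)]
    push_cast
    ring
  have h2 : ((Pr.filter (fun p => ¬ p ∣ y)).card : ℤ) ≤ ∑ p ∈ Pr, jacobiSym F p := by
    rw [← Finset.sum_filter_add_sum_filter_not Pr (fun p => ¬ p ∣ y)]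
    have e1 : ∑ p ∈ Pr.filter (fun p => ¬ p ∣ y), jacobiSym F p =
        (Pr.filter (fun p => ¬ p ∣ y)).card := by
      rw [Finset.card_eq_sum_ones]
      push_cast
      refine Finset.sum_congr rfl fun p hp => ?_
      rw [Finset.mem_filter] at hp
      rw [hF]
      apply jacobiSym.sq_one'
      have h3 : Nat.Coprime p y := ((hPr p hp.1).coprime_iff_not_dvd).mpr hp.2
      rw [Int.gcd_natCast_natCast]
      exact h3.symm
    have e2 : 0 ≤ ∑ p ∈ Pr.filter (fun p => ¬ ¬ p ∣ y), jacobiSym F p := by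
      apply Finset.sum_nonneg
      intro p _
      rw [hF, jacobiSym.pow_left]
      exact sq_nonneg _
    linarith
  linarith

/-- the second moment -/
theorem sq_moment {Pr : Finset ℕ} (hPr : ∀ p ∈ Pr, p.Prime) (h2 : ∀ p ∈ Pr, p ≠ 2) {i j : ℕ}
    (hi : Odd i) (hj : Odd j) (P Q t : ℤ) (N M Λ : ℕ)
    (hΛ : ∀ p ∈ Pr, ∀ q ∈ Pr, p * q ≤ Λ) :
    ∑ x ∈ Finset.Icc 1 N, ∑ y ∈ Finset.Icc 1 M,
      (∑ p ∈ Pr, jacobiSym (t * (P * (x : ℤ) ^ i + Q * (y : ℤ) ^ j)) p) ^ 2 ≤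
      (Pr.card : ℤ) * (N * M) + (Pr.card : ℤ) ^ 2 * (Λ * (N + M)) := by
  have h1 : ∑ x ∈ Finset.Icc 1 N, ∑ y ∈ Finset.Icc 1 M,
      (∑ p ∈ Pr, jacobiSym (t * (P * (x : ℤ) ^ i + Q * (y : ℤ) ^ j)) p) ^ 2 =
      ∑ p ∈ Pr, ∑ q ∈ Pr, ∑ x ∈ Finset.Icc 1 N, ∑ y ∈ Finset.Icc 1 M,
        jacobiSym (t * (P * (x : ℤ) ^ i + Q * (y : ℤ) ^ j)) p *
        jacobiSym (t * (P * (x : ℤ) ^ i + Q * (y : ℤ) ^ j)) q := by
    have e1 : ∀ x y : ℕ, (∑ p ∈ Pr, jacobiSym (t * (P * (x : ℤ) ^ i + Q * (y : ℤ) ^ j)) p) ^ 2 =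
        ∑ p ∈ Pr, ∑ q ∈ Pr, jacobiSym (t * (P * (x : ℤ) ^ i + Q * (y : ℤ) ^ j)) p *
        jacobiSym (t * (P * (x : ℤ) ^ i + Q * (y : ℤ) ^ j)) q := by
      intro x y
      rw [sq, Finset.sum_mul_sum]
    simp only [e1]
    have e2 : ∀ x : ℕ, ∑ y ∈ Finset.Icc 1 M, ∑ p ∈ Pr, ∑ q ∈ Pr,
        jacobiSym (t * (P * (x : ℤ) ^ i + Q * (y : ℤ) ^ j)) p *
        jacobiSym (t * (P * (x : ℤ) ^ i + Q * (y : ℤ) ^ j)) q =
        ∑ p ∈ Pr, ∑ q ∈ Pr, ∑ y ∈ Finset.Icc 1 M,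
        jacobiSym (t * (P * (x : ℤ) ^ i + Q * (y : ℤ) ^ j)) p *
        jacobiSym (t * (P * (x : ℤ) ^ i + Q * (y : ℤ) ^ j)) q := by
      intro x
      rw [Finset.sum_comm]
      refine Finset.sum_congr rfl fun p _ => ?_
      rw [Finset.sum_comm]
    simp only [e2]
    rw [Finset.sum_comm]
    refine Finset.sum_congr rfl fun p _ => ?_
    rw [Finset.sum_comm]
  rw [h1]
  have h3 : ∀ p ∈ Pr, ∑ q ∈ Pr, ∑ x ∈ Finset.Icc 1 N, ∑ y ∈ Finset.Icc 1 M,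
        jacobiSym (t * (P * (x : ℤ) ^ i + Q * (y : ℤ) ^ j)) p *
        jacobiSym (t * (P * (x : ℤ) ^ i + Q * (y : ℤ) ^ j)) q ≤
        (N : ℤ) * M + Pr.card * (Λ * (N + M)) := by
    intro p hp
    have e3 : ∀ q ∈ Pr, ∑ x ∈ Finset.Icc 1 N, ∑ y ∈ Finset.Icc 1 M,
        jacobiSym (t * (P * (x : ℤ) ^ i + Q * (y : ℤ) ^ j)) p *
        jacobiSym (t * (P * (x : ℤ) ^ i + Q * (y : ℤ) ^ j)) q ≤
        (if p = q then (N : ℤ) * M else 0) + (Λ : ℤ) * (N + M) := by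
      intro q hq
      by_cases hpq : p = q
      · rw [if_pos hpq]
        have e4 : ∑ x ∈ Finset.Icc 1 N, ∑ y ∈ Finset.Icc 1 M,
            jacobiSym (t * (P * (x : ℤ) ^ i + Q * (y : ℤ) ^ j)) p *
            jacobiSym (t * (P * (x : ℤ) ^ i + Q * (y : ℤ) ^ j)) q ≤
            ∑ x ∈ Finset.Icc 1 N, ∑ y ∈ Finset.Icc 1 M, 1 := by
          refine Finset.sum_le_sum fun x _ => Finset.sum_le_sum fun y _ => ?_
          refine (le_abs_self _).trans ?_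
          rw [abs_mul]
          exact mul_le_one₀ (sq_abs_jac _ _) (abs_nonneg _) (sq_abs_jac _ _)
        have e5 : ∑ x ∈ Finset.Icc 1 N, ∑ y ∈ Finset.Icc 1 M, (1 : ℤ) = N * M := by
          simp
        have e6 : (0 : ℤ) ≤ (Λ : ℤ) * (N + M) := by positivity
        linarith
      · rw [if_neg hpq, zero_add]
        refine (le_abs_self _).trans ((sq_off (hPr p hp) (hPr q hq) (h2 p hp) hpq hi hj P Q t
          N M).trans ?_)
        have e4 : ((p * q : ℕ) : ℤ) ≤ Λ := by exact_mod_cast hΛ p hp q hq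
        exact mul_le_mul_of_nonneg_right e4 (by positivity)
    refine (Finset.sum_le_sum e3).trans ?_
    rw [Finset.sum_add_distrib, Finset.sum_ite_eq, if_pos hp, Finset.sum_const, nsmul_eq_mul]
  refine (Finset.sum_le_sum h3).trans ?_
  rw [Finset.sum_const, nsmul_eq_mul]
  apply le_of_eq
  ring

/-- the main inequality -/
theorem sq_main {Pr : Finset ℕ} (hPr : ∀ p ∈ Pr, p.Prime) (h2 : ∀ p ∈ Pr, p ≠ 2) {i j : ℕ}
    (hi : Odd i) (hj : Odd j) (P Q t : ℤ) {Zx Zy L ν : ℝ} (hZx : 1 ≤ Zx) (hZy : 1 ≤ Zy)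
    (hL : 0 ≤ L) (hPL : ∀ p ∈ Pr, (p : ℝ) ≤ L) (S : Finset (ℕ × ℕ)) (Y : ℕ)
    (hS : ∀ s ∈ S, 0 < s.1 ∧ (s.1 : ℝ) ≤ Zx ∧ 0 < s.2 ∧ (s.2 : ℝ) ≤ Zy ∧
      ∃ y : ℕ, 0 < y ∧ y ≤ Y ∧ t * (P * (s.1 : ℤ) ^ i + Q * (s.2 : ℤ) ^ j) = (y : ℤ) ^ 2)
    (hν : ∀ a : ℕ, 2 ^ a ≤ Y → (a : ℝ) ≤ ν) (hk : 2 * ν ≤ Pr.card) :
    ((Pr.card : ℝ) / 2) ^ 2 * S.card ≤
      (Pr.card : ℝ) * (Zx * Zy) + (Pr.card : ℝ) ^ 2 * (L ^ 2 * (Zx + Zy)) := by
  have hm := sq_moment hPr h2 hi hj P Q t ⌊Zx⌋₊ ⌊Zy⌋₊ (⌊L⌋₊ ^ 2) (by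
    intro p hp q hq
    rw [sq]
    exact Nat.mul_le_mul (Nat.le_floor (hPL p hp)) (Nat.le_floor (hPL q hq)))
  have hmR : ((∑ x ∈ Finset.Icc 1 ⌊Zx⌋₊, ∑ y ∈ Finset.Icc 1 ⌊Zy⌋₊,
      (∑ p ∈ Pr, jacobiSym (t * (P * (x : ℤ) ^ i + Q * (y : ℤ) ^ j)) p) ^ 2 : ℤ) : ℝ) ≤
      (((Pr.card : ℤ) * (⌊Zx⌋₊ * ⌊Zy⌋₊) + (Pr.card : ℤ) ^ 2 *
        ((⌊L⌋₊ ^ 2 : ℕ) * (⌊Zx⌋₊ + ⌊Zy⌋₊)) : ℤ) : ℝ) := by exact_mod_cast hm
  have fx : (⌊Zx⌋₊ : ℝ) ≤ Zx := Nat.floor_le (by linarith)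
  have fy : (⌊Zy⌋₊ : ℝ) ≤ Zy := Nat.floor_le (by linarith)
  have fL : (⌊L⌋₊ : ℝ) ≤ L := Nat.floor_le hL
  have hup : (((Pr.card : ℤ) * (⌊Zx⌋₊ * ⌊Zy⌋₊) + (Pr.card : ℤ) ^ 2 *
        ((⌊L⌋₊ ^ 2 : ℕ) * (⌊Zx⌋₊ + ⌊Zy⌋₊)) : ℤ) : ℝ) ≤
      (Pr.card : ℝ) * (Zx * Zy) + (Pr.card : ℝ) ^ 2 * (L ^ 2 * (Zx + Zy)) := by
    push_cast
    gcongr
  have hlow : ((Pr.card : ℝ) / 2) ^ 2 * S.card ≤
      ((∑ x ∈ Finset.Icc 1 ⌊Zx⌋₊, ∑ y ∈ Finset.Icc 1 ⌊Zy⌋₊,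
      (∑ p ∈ Pr, jacobiSym (t * (P * (x : ℤ) ^ i + Q * (y : ℤ) ^ j)) p) ^ 2 : ℤ) : ℝ) := by
    rw [← Finset.sum_product' (Finset.Icc 1 ⌊Zx⌋₊) (Finset.Icc 1 ⌊Zy⌋₊) (fun x y : ℕ =>
      (∑ p ∈ Pr, jacobiSym (t * (P * (x : ℤ) ^ i + Q * (y : ℤ) ^ j)) p) ^ 2)]
    rw [Int.cast_sum]
    have hsub : S ⊆ Finset.Icc 1 ⌊Zx⌋₊ ×ˢ Finset.Icc 1 ⌊Zy⌋₊ := by
      intro s hs
      obtain ⟨a1, a2, a3, a4, _⟩ := hS s hs
      rw [Finset.mem_product, Finset.mem_Icc, Finset.mem_Icc]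
      exact ⟨⟨a1, Nat.le_floor a2⟩, a3, Nat.le_floor a4⟩
    refine le_trans ?_ (Finset.sum_le_sum_of_subset_of_nonneg hsub fun s _ _ => by positivity)
    rw [mul_comm, ← nsmul_eq_mul, ← Finset.sum_const]
    refine Finset.sum_le_sum fun s hs => ?_
    obtain ⟨_, _, _, _, y, hy0, hyY, hyF⟩ := hS s hs
    have hw := sq_weight hPr hyF
    have hf := sq_few hPr hy0
    have h3 := hν _ (hf.trans hyY)
    have h4 : ((Pr.card : ℝ) - (Pr.filter (fun p => p ∣ y)).card) ≤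
        ((∑ p ∈ Pr, jacobiSym (t * (P * (s.1 : ℤ) ^ i + Q * (s.2 : ℤ) ^ j)) p : ℤ) : ℝ) := by
      exact_mod_cast hw
    have h5 : (Pr.card : ℝ) / 2 ≤
        ((∑ p ∈ Pr, jacobiSym (t * (P * (s.1 : ℤ) ^ i + Q * (s.2 : ℤ) ^ j)) p : ℤ) : ℝ) := by
      linarith
    push_cast at h5 ⊢
    gcongr
  linarith

/-- if `L` is bounded by `A X ^ ε` then the trivial bound suffices -/
theorem sq_triv {Zx Zy L B : ℝ} (hZx : 1 ≤ Zx) (hZy : 1 ≤ Zy) (hL : 0 < L) (hLB : L ≤ B)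
    (S : Finset (ℕ × ℕ))
    (hS : ∀ s ∈ S, 0 < s.1 ∧ (s.1 : ℝ) ≤ Zx ∧ 0 < s.2 ∧ (s.2 : ℝ) ≤ Zy) :
    (S.card : ℝ) ≤ B * (Zx * Zy / L) := by
  have hsub : S ⊆ Finset.Icc 1 ⌊Zx⌋₊ ×ˢ Finset.Icc 1 ⌊Zy⌋₊ := by
    intro s hs
    obtain ⟨a1, a2, a3, a4⟩ := hS s hs
    rw [Finset.mem_product, Finset.mem_Icc, Finset.mem_Icc]
    exact ⟨⟨a1, Nat.le_floor a2⟩, a3, Nat.le_floor a4⟩
  have h1 := Finset.card_le_card hsub
  rw [Finset.card_product, Nat.card_Icc, Nat.card_Icc, Nat.add_sub_cancel,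
    Nat.add_sub_cancel] at h1
  have h2 : (S.card : ℝ) ≤ (⌊Zx⌋₊ : ℝ) * ⌊Zy⌋₊ := by exact_mod_cast h1
  have fx : (⌊Zx⌋₊ : ℝ) ≤ Zx := Nat.floor_le (by linarith)
  have fy : (⌊Zy⌋₊ : ℝ) ≤ Zy := Nat.floor_le (by linarith)
  calc (S.card : ℝ) ≤ (⌊Zx⌋₊ : ℝ) * ⌊Zy⌋₊ := h2
    _ ≤ Zx * Zy := by gcongr
    _ = L * (Zx * Zy / L) := by field_simp
    _ ≤ B * (Zx * Zy / L) := by gcongr

theorem sq_thm (hpc : PCStmt) : SQStmt := by
  obtain ⟨c, hc, hpc⟩ := hpc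
  intro ε l hε hl
  have hC1 : 0 ≤ 24 / (c * ε ^ 2) := by positivity
  have hC2 : 0 ≤ 4 / (c * ε) := by positivity
  refine ⟨4 + 24 / (c * ε ^ 2) + 4 / (c * ε), by linarith, ?_⟩
  intro X i j P0 Q0 t Zx Zy L S hX hi hj ht htX hZx hZy hZxX hZyX hXL hLX hS
  have hXR : (2 : ℝ) ≤ X := by exact_mod_cast hX
  have hX0 : (0 : ℝ) < X := by linarith
  have hL0 : 0 < L := lt_of_lt_of_le (Real.rpow_pos_of_pos hX0 l) hXL
  have hXε : 1 ≤ (X : ℝ) ^ ε := Real.one_le_rpow (by linarith) hε.le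
  have hZL : 0 ≤ Zx * Zy / L := by positivity
  have hZZ : 0 ≤ (Zx + Zy) * L ^ 2 := by positivity
  have hS' : ∀ s ∈ S, 0 < s.1 ∧ (s.1 : ℝ) ≤ Zx ∧ 0 < s.2 ∧ (s.2 : ℝ) ≤ Zy := by
    intro s hs
    obtain ⟨a1, a2, a3, a4, _⟩ := hS s hs
    exact ⟨a1, a2, a3, a4⟩
  have hlogX : 0 ≤ Real.log X := Real.log_nonneg (by linarith)
  have hlog1 : Real.log X ≤ (X : ℝ) ^ ε / ε := Real.log_le_rpow_div hX0.le hε
  have hlog2 : Real.log X ^ 2 ≤ 4 / ε ^ 2 * (X : ℝ) ^ ε := by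
    have h1 : Real.log X ≤ (X : ℝ) ^ (ε / 2) / (ε / 2) :=
      Real.log_le_rpow_div hX0.le (by positivity)
    calc Real.log X ^ 2 ≤ ((X : ℝ) ^ (ε / 2) / (ε / 2)) ^ 2 := by gcongr
      _ = 4 / ε ^ 2 * ((X : ℝ) ^ (ε / 2) * (X : ℝ) ^ (ε / 2)) := by
        field_simp
        norm_num
      _ = 4 / ε ^ 2 * (X : ℝ) ^ ε := by
        rw [← Real.rpow_add hX0]
        congr 2
        ring
  -- the trivial case
  have triv : ∀ B : ℝ, L ≤ B → B ≤ (4 + 24 / (c * ε ^ 2) + 4 / (c * ε)) * (X : ℝ) ^ ε →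
      (S.card : ℝ) ≤ (4 + 24 / (c * ε ^ 2) + 4 / (c * ε)) * (X : ℝ) ^ ε *
        (Zx * Zy / L + (Zx + Zy) * L ^ 2) := by
    intro B h1 h2
    refine (sq_triv hZx hZy hL0 h1 S hS').trans ?_
    have h3 : 0 ≤ (4 + 24 / (c * ε ^ 2) + 4 / (c * ε)) * (X : ℝ) ^ ε := by positivity
    calc B * (Zx * Zy / L) ≤ (4 + 24 / (c * ε ^ 2) + 4 / (c * ε)) * (X : ℝ) ^ ε *
          (Zx * Zy / L) := by gcongr
      _ ≤ _ := mul_le_mul_of_nonneg_left (by linarith) h3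
  rcases lt_or_ge L 4 with hL4 | hL4
  · refine triv 4 hL4.le ?_
    nlinarith
  have hlogL : 0 < Real.log L := Real.log_pos (by linarith)
  have hlogLX : Real.log L ≤ Real.log X := Real.log_le_log hL0 hLX
  have hk := hpc L hL4
  obtain ⟨Pr, hPrd⟩ : ∃ Pr : Finset ℕ, Pr = (Finset.Icc 3 ⌊L⌋₊).filter Nat.Prime := ⟨_, rfl⟩
  rw [← hPrd] at hk
  have hPr : ∀ p ∈ Pr, p.Prime := by
    intro p hp
    rw [hPrd, Finset.mem_filter] at hp
    exact hp.2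
  have hPr2 : ∀ p ∈ Pr, p ≠ 2 := by
    intro p hp
    rw [hPrd, Finset.mem_filter, Finset.mem_Icc] at hp
    omega
  have hPrL : ∀ p ∈ Pr, (p : ℝ) ≤ L := by
    intro p hp
    rw [hPrd, Finset.mem_filter, Finset.mem_Icc] at hp
    exact (Nat.le_floor_iff hL0.le).mp hp.1.2
  have hLk : L ≤ (Pr.card : ℝ) * Real.log L / c := by
    rw [div_le_iff₀ hlogL] at hk
    rw [le_div_iff₀ hc]
    linarith
  rcases lt_or_ge (Pr.card : ℝ) (6 * Real.log X) with hcase | hcase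
  · refine triv (24 / (c * ε ^ 2) * (X : ℝ) ^ ε) ?_ ?_
    · calc L ≤ (Pr.card : ℝ) * Real.log L / c := hLk
        _ ≤ (6 * Real.log X) * Real.log X / c := by gcongr
        _ = 6 / c * Real.log X ^ 2 := by ring
        _ ≤ 6 / c * (4 / ε ^ 2 * (X : ℝ) ^ ε) := by gcongr
        _ = 24 / (c * ε ^ 2) * (X : ℝ) ^ ε := by
          field_simp
          norm_num
    · have : 0 ≤ (4 + 4 / (c * ε)) * (X : ℝ) ^ ε := by positivity
      nlinarith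
  · -- the main case
    have hkpos : (0 : ℝ) < Pr.card := by
      have : 0 < Real.log X := lt_of_lt_of_le hlogL hlogLX
      linarith
    have hmain := sq_main hPr hPr2 hi hj P0 Q0 (t : ℤ) hZx hZy hL0.le hPrL S (X ^ 2) hS
      (ν := 3 * Real.log X) (by
        intro a ha
        have h1 : ((2 : ℝ)) ^ a ≤ (X : ℝ) ^ 2 := by exact_mod_cast ha
        have h2 := Real.log_le_log (by positivity) h1
        rw [Real.log_pow, Real.log_pow] at h2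
        have h3 : 0.6931471803 < Real.log 2 := Real.log_two_gt_d9
        have h4 : (0 : ℝ) ≤ a := Nat.cast_nonneg a
        push_cast at h2
        nlinarith) (by linarith)
    have h1 : (S.card : ℝ) ≤ 4 * (Zx * Zy) / Pr.card + 4 * (L ^ 2 * (Zx + Zy)) := by
      have h2 : (Pr.card : ℝ) ^ 2 * S.card ≤ (Pr.card : ℝ) ^ 2 *
          (4 * (Zx * Zy) / Pr.card + 4 * (L ^ 2 * (Zx + Zy))) := by
        have h3 : (Pr.card : ℝ) ^ 2 *
          (4 * (Zx * Zy) / Pr.card + 4 * (L ^ 2 * (Zx + Zy))) = 4 * ((Pr.card : ℝ) * (Zx * Zy) +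
            (Pr.card : ℝ) ^ 2 * (L ^ 2 * (Zx + Zy))) := by
          field_simp
        rw [h3]
        linarith
      exact le_of_mul_le_mul_left h2 (by positivity)
    have h2 : 4 * (Zx * Zy) / Pr.card ≤ 4 / (c * ε) * (X : ℝ) ^ ε * (Zx * Zy / L) := by
      have h3 : 1 / (Pr.card : ℝ) ≤ (X : ℝ) ^ ε / (c * ε * L) := by
        rw [div_le_div_iff₀ hkpos (by positivity), one_mul]
        have h4 : c * L ≤ Pr.card * Real.log L := by
          rw [le_div_iff₀ hc] at hLk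
          linarith
        have h5 : Real.log L * ε ≤ (X : ℝ) ^ ε := by
          rw [le_div_iff₀ hε] at hlog1
          exact (mul_le_mul_of_nonneg_right hlogLX hε.le).trans hlog1
        calc c * ε * L = (c * L) * ε := by ring
          _ ≤ (Pr.card * Real.log L) * ε := by gcongr
          _ = Pr.card * (Real.log L * ε) := by ring
          _ ≤ Pr.card * (X : ℝ) ^ ε := by gcongr
          _ = (X : ℝ) ^ ε * Pr.card := by ring
      calc 4 * (Zx * Zy) / Pr.card = 4 * (Zx * Zy) * (1 / (Pr.card : ℝ)) := by ring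
        _ ≤ 4 * (Zx * Zy) * ((X : ℝ) ^ ε / (c * ε * L)) := by gcongr
        _ = 4 / (c * ε) * (X : ℝ) ^ ε * (Zx * Zy / L) := by
          field_simp
    have h3 : 4 * (L ^ 2 * (Zx + Zy)) ≤ 4 * (X : ℝ) ^ ε * ((Zx + Zy) * L ^ 2) := by
      calc 4 * (L ^ 2 * (Zx + Zy)) = 4 * 1 * ((Zx + Zy) * L ^ 2) := by ring
        _ ≤ 4 * (X : ℝ) ^ ε * ((Zx + Zy) * L ^ 2) := by gcongr
    refine h1.trans ((add_le_add h2 h3).trans ?_)
    have e1 : 4 / (c * ε) * (X : ℝ) ^ ε * (Zx * Zy / L) ≤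
        (4 + 24 / (c * ε ^ 2) + 4 / (c * ε)) * (X : ℝ) ^ ε * (Zx * Zy / L) := by
      gcongr
      linarith
    have e2 : 4 * (X : ℝ) ^ ε * ((Zx + Zy) * L ^ 2) ≤
        (4 + 24 / (c * ε ^ 2) + 4 / (c * ε)) * (X : ℝ) ^ ε * ((Zx + Zy) * L ^ 2) := by
      gcongr
      linarith
    linarith

end Pool.Agent.Helper21.EN
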