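import Pool.Agent.Helper21.EN.Stmts

set_option autoImplicit false

/-!
# Project EN, piece T1a

The statement is in EN/Stmts.lean. Paper: /team-store/EN_paper.md.

Proof. Write W = (w : Z). We use 2 n^2 (n + t)^e = n^e (2 n^2 + 2 e n t + e (e-1) t^2) modulo t^3.
Case neg = false: first order W | e R D - f n D', and the second difference gives
W | R^2 e (e-1) D d - n^2 f (f-1) D' d', so W | e R^2 (e - f) D d.
Case neg = true: W | e R D + f n D' and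
W | R^2 e (e-1) D d + e f n R (D d' + D' d) + n^2 f (f-1) D' d', so W | e^2 R^2 (e + f) D d.
-/

namespace Pool.Agent.Helper21.EN

open Finset

theorem t1a_exp (n t : ℤ) (e : ℕ) : ∃ Q : ℤ,
    2 * n ^ 2 * (n + t) ^ e = n ^ e * (2 * n ^ 2 + 2 * e * n * t + e * (e - 1) * t ^ 2) +
      t ^ 3 * Q := by
  induction e with
  | zero => exact ⟨0, by simp⟩
  | succ e ih =>
    obtain ⟨Q, hQ⟩ := ih
    refine ⟨Q * (n + t) + e * (e - 1) * n ^ e, ?_⟩
    calc 2 * n ^ 2 * (n + t) ^ (e + 1) = (2 * n ^ 2 * (n + t) ^ e) * (n + t) := by ring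
      _ = (n ^ e * (2 * n ^ 2 + 2 * e * n * t + e * (e - 1) * t ^ 2) + t ^ 3 * Q) * (n + t) := by
        rw [hQ]
      _ = _ := by
        push_cast
        ring

theorem t1a_F {W n R x y κ : ℤ} {e f : ℕ} (h : W ^ 3 ∣ (n + W * x) ^ e - κ * (R + W * y) ^ f) :
    W ^ 3 ∣ 2 * R ^ 2 * (n ^ e * (2 * n ^ 2 + 2 * e * n * (W * x) + e * (e - 1) * (W * x) ^ 2)) -
      2 * n ^ 2 * κ * (R ^ f * (2 * R ^ 2 + 2 * f * R * (W * y) + f * (f - 1) * (W * y) ^ 2)) := by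
  obtain ⟨Q1, h1⟩ := t1a_exp n (W * x) e
  obtain ⟨Q2, h2⟩ := t1a_exp R (W * y) f
  obtain ⟨Q, hQ⟩ := h
  refine ⟨4 * n ^ 2 * R ^ 2 * Q - 2 * R ^ 2 * x ^ 3 * Q1 + 2 * n ^ 2 * κ * y ^ 3 * Q2, ?_⟩
  have e1 : n ^ e * (2 * n ^ 2 + 2 * e * n * (W * x) + e * (e - 1) * (W * x) ^ 2) =
      2 * n ^ 2 * (n + W * x) ^ e - (W * x) ^ 3 * Q1 := by rw [h1]; ring
  have e2 : R ^ f * (2 * R ^ 2 + 2 * f * R * (W * y) + f * (f - 1) * (W * y) ^ 2) =
      2 * R ^ 2 * (R + W * y) ^ f - (W * y) ^ 3 * Q2 := by rw [h2]; ring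
  rw [e1, e2]
  have e3 : 2 * R ^ 2 * (2 * n ^ 2 * (n + W * x) ^ e - (W * x) ^ 3 * Q1) -
      2 * n ^ 2 * κ * (2 * R ^ 2 * (R + W * y) ^ f - (W * y) ^ 3 * Q2) =
      4 * n ^ 2 * R ^ 2 * ((n + W * x) ^ e - κ * (R + W * y) ^ f) -
        2 * R ^ 2 * (W * x) ^ 3 * Q1 + 2 * n ^ 2 * κ * (W * y) ^ 3 * Q2 := by ring
  rw [e3, hQ]
  ring

theorem t1a_T {W n R x y κ : ℤ} {e f : ℕ} (h : W ^ 3 ∣ (n + W * x) ^ e * (R + W * y) ^ f - κ) :
    W ^ 3 ∣ n ^ e * R ^ f * (4 * n ^ 2 * R ^ 2 + W * (4 * e * n * R ^ 2 * x + 4 * f * n ^ 2 * R * y)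
      + W ^ 2 * (2 * R ^ 2 * e * (e - 1) * x ^ 2 + 4 * e * f * n * R * x * y +
        2 * n ^ 2 * f * (f - 1) * y ^ 2)) - 4 * n ^ 2 * R ^ 2 * κ := by
  obtain ⟨Q1, h1⟩ := t1a_exp n (W * x) e
  obtain ⟨Q2, h2⟩ := t1a_exp R (W * y) f
  obtain ⟨Q, hQ⟩ := h
  obtain ⟨A, hA⟩ : ∃ A : ℤ, A = n ^ e * (2 * n ^ 2 + 2 * e * n * (W * x) +
    e * (e - 1) * (W * x) ^ 2) := ⟨_, rfl⟩
  obtain ⟨B, hB⟩ : ∃ B : ℤ, B = R ^ f * (2 * R ^ 2 + 2 * f * R * (W * y) +
    f * (f - 1) * (W * y) ^ 2) := ⟨_, rfl⟩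
  rw [← hA] at h1
  rw [← hB] at h2
  -- `(A + t^3 Q1) (B + s^3 Q2) = 4 n^2 R^2 (κ + W^3 Q)`
  have h3 : (A + (W * x) ^ 3 * Q1) * (B + (W * y) ^ 3 * Q2) =
      4 * n ^ 2 * R ^ 2 * (κ + W ^ 3 * Q) := by
    rw [← h1, ← h2, ← hQ]
    ring
  have h4 : n ^ e * R ^ f * (4 * n ^ 2 * R ^ 2 + W * (4 * e * n * R ^ 2 * x +
      4 * f * n ^ 2 * R * y) + W ^ 2 * (2 * R ^ 2 * e * (e - 1) * x ^ 2 +
      4 * e * f * n * R * x * y + 2 * n ^ 2 * f * (f - 1) * y ^ 2)) =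
      A * B - W ^ 3 * (n ^ e * R ^ f * (2 * e * n * x * f * (f - 1) * y ^ 2 +
        2 * f * R * y * e * (e - 1) * x ^ 2 + W * (e * (e - 1) * x ^ 2 * f * (f - 1) * y ^ 2))) := by
    rw [hA, hB]
    ring
  rw [h4]
  refine ⟨4 * n ^ 2 * R ^ 2 * Q - (n ^ e * R ^ f * (2 * e * n * x * f * (f - 1) * y ^ 2 +
        2 * f * R * y * e * (e - 1) * x ^ 2 + W * (e * (e - 1) * x ^ 2 * f * (f - 1) * y ^ 2))) -
        (x ^ 3 * Q1 * B + y ^ 3 * Q2 * A + W ^ 3 * x ^ 3 * y ^ 3 * Q1 * Q2), ?_⟩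
  linear_combination h3

/-- first order -/
theorem t1a_first {W L M : ℤ} (hW : W ≠ 0) (h : W ^ 3 ∣ W * L + W ^ 2 * M) : W ∣ L := by
  have h1 : W * W ^ 2 ∣ W * (L + W * M) := by
    have e1 : W * W ^ 2 = W ^ 3 := by ring
    have e2 : W * (L + W * M) = W * L + W ^ 2 * M := by ring
    rw [e1, e2]
    exact h
  have h2 : W ^ 2 ∣ L + W * M := (mul_dvd_mul_iff_left hW).1 h1
  have h3 : W ∣ L + W * M := (Dvd.intro_left W (by ring : W * W = W ^ 2)).trans h2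
  exact (dvd_add_left (Dvd.intro M rfl)).1 h3

/-- second order -/
theorem t1a_second {W H : ℤ} (hW : W ≠ 0) (h : W ^ 3 ∣ W ^ 2 * H) : W ∣ H := by
  have h1 : W ^ 2 * W ∣ W ^ 2 * H := by
    have e1 : W ^ 2 * W = W ^ 3 := by ring
    rw [e1]
    exact h
  exact (mul_dvd_mul_iff_left (pow_ne_zero 2 hW)).1 h1

theorem t1a_false {W n R κ D D' d d' : ℤ} {e f : ℕ} (hW : W ≠ 0) (h2 : IsCoprime 2 W)
    (he : IsCoprime (e : ℤ) W) (hef : IsCoprime ((e : ℤ) - f) W) (hn : IsCoprime n W)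
    (hR : IsCoprime R W)
    (h00 : W ^ 3 ∣ (n + W * 0) ^ e - κ * (R + W * 0) ^ f)
    (hD : W ^ 3 ∣ (n + W * D) ^ e - κ * (R + W * D') ^ f)
    (hd : W ^ 3 ∣ (n + W * d) ^ e - κ * (R + W * d') ^ f)
    (hDd : W ^ 3 ∣ (n + W * (D + d)) ^ e - κ * (R + W * (D' + d')) ^ f) : W ∣ D * d := by
  have g0 := t1a_F h00
  have gD := t1a_F hD
  have gd := t1a_F hd
  have gDd := t1a_F hDd
  have k0 : W ∣ n ^ e - κ * R ^ f := by
    rw [mul_zero, add_zero, add_zero] at h00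
    exact (dvd_pow_self W (by norm_num)).trans h00
  have h4 : IsCoprime (4 * n * R) W := by
    have : (4 : ℤ) = 2 * 2 := by norm_num
    rw [this]
    exact ((h2.mul_left h2).mul_left hn).mul_left hR
  have hne : IsCoprime (n ^ e) W := hn.pow_left
  have first : ∀ x y : ℤ, W ^ 3 ∣ 2 * R ^ 2 * (n ^ e * (2 * n ^ 2 + 2 * e * n * (W * x) +
      e * (e - 1) * (W * x) ^ 2)) - 2 * n ^ 2 * κ * (R ^ f * (2 * R ^ 2 + 2 * f * R * (W * y) +
      f * (f - 1) * (W * y) ^ 2)) → W ∣ e * R * x - f * n * y := by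
    intro x y h
    have h1 := dvd_sub h g0
    have h3 : W ∣ 4 * n * R * (e * R * n ^ e * x - f * n * κ * R ^ f * y) := by
      apply t1a_first hW (M := 2 * R ^ 2 * n ^ e * e * (e - 1) * x ^ 2 -
        2 * n ^ 2 * κ * R ^ f * f * (f - 1) * y ^ 2)
      refine (Eq.subst ?_ h1 : _)
      ring
    have h5 := h4.symm.dvd_of_dvd_mul_left h3
    have h6 : W ∣ n ^ e * (e * R * x - f * n * y) := by
      have h7 : n ^ e * (e * R * x - f * n * y) =
          (e * R * n ^ e * x - f * n * κ * R ^ f * y) - (n ^ e - κ * R ^ f) * (f * n * y) := by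
        ring
      rw [h7]
      exact dvd_sub h5 (Dvd.dvd.mul_right k0 _)
    exact hne.symm.dvd_of_dvd_mul_left h6
  have f1 := first D D' gD
  have f2 := first d d' gd
  have s1 : W ∣ 4 * (R ^ 2 * n ^ e * e * (e - 1) * (D * d) -
      n ^ 2 * κ * R ^ f * f * (f - 1) * (D' * d')) := by
    apply t1a_second hW
    have h1 := dvd_add (dvd_sub (dvd_sub gDd gD) gd) g0
    refine (Eq.subst ?_ h1 : _)
    ring
  have s2 : W ∣ R ^ 2 * n ^ e * e * (e - 1) * (D * d) -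
      n ^ 2 * κ * R ^ f * f * (f - 1) * (D' * d') := by
    have : (4 : ℤ) = 2 * 2 := by norm_num
    rw [this] at s1
    exact (h2.mul_left h2).symm.dvd_of_dvd_mul_left s1
  have s3 : W ∣ n ^ e * (R ^ 2 * e * (e - 1) * (D * d) - n ^ 2 * f * (f - 1) * (D' * d')) := by
    have h7 : n ^ e * (R ^ 2 * e * (e - 1) * (D * d) - n ^ 2 * f * (f - 1) * (D' * d')) =
        (R ^ 2 * n ^ e * e * (e - 1) * (D * d) - n ^ 2 * κ * R ^ f * f * (f - 1) * (D' * d')) -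
        (n ^ e - κ * R ^ f) * (n ^ 2 * f * (f - 1) * (D' * d')) := by ring
    rw [h7]
    exact dvd_sub s2 (Dvd.dvd.mul_right k0 _)
  have s4 := hne.symm.dvd_of_dvd_mul_left s3
  have s5 : W ∣ e * R ^ 2 * (e - f) * (D * d) := by
    have h7 : (e : ℤ) * R ^ 2 * (e - f) * (D * d) =
        f * (R ^ 2 * e * (e - 1) * (D * d) - n ^ 2 * f * (f - 1) * (D' * d')) -
        (f - 1) * ((e * R * D - f * n * D') * (f * n * d') +
          (e * R * d - f * n * d') * (e * R * D)) := by ring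
    rw [h7]
    apply dvd_sub (Dvd.dvd.mul_left s4 _)
    apply Dvd.dvd.mul_left
    exact dvd_add (Dvd.dvd.mul_right f1 _) (Dvd.dvd.mul_right f2 _)
  exact ((he.mul_left hR.pow_left).mul_left hef).symm.dvd_of_dvd_mul_left s5

theorem t1a_true {W n R κ D D' d d' : ℤ} {e f : ℕ} (hW : W ≠ 0) (h2 : IsCoprime 2 W)
    (he : IsCoprime (e : ℤ) W) (hef : IsCoprime ((e : ℤ) + f) W) (hn : IsCoprime n W)
    (hR : IsCoprime R W)
    (h00 : W ^ 3 ∣ (n + W * 0) ^ e * (R + W * 0) ^ f - κ)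
    (hD : W ^ 3 ∣ (n + W * D) ^ e * (R + W * D') ^ f - κ)
    (hd : W ^ 3 ∣ (n + W * d) ^ e * (R + W * d') ^ f - κ)
    (hDd : W ^ 3 ∣ (n + W * (D + d)) ^ e * (R + W * (D' + d')) ^ f - κ) : W ∣ D * d := by
  have g0 := t1a_T h00
  have gD := t1a_T hD
  have gd := t1a_T hd
  have gDd := t1a_T hDd
  have hnR : IsCoprime (n ^ e * R ^ f) W := hn.pow_left.mul_left hR.pow_left
  have h44 : (4 : ℤ) = 2 * 2 := by norm_num
  have h4 : IsCoprime (n ^ e * R ^ f * (4 * n * R)) W := by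
    rw [h44]
    exact hnR.mul_left (((h2.mul_left h2).mul_left hn).mul_left hR)
  have first : ∀ x y : ℤ, W ^ 3 ∣ n ^ e * R ^ f * (4 * n ^ 2 * R ^ 2 + W * (4 * e * n * R ^ 2 * x
      + 4 * f * n ^ 2 * R * y) + W ^ 2 * (2 * R ^ 2 * e * (e - 1) * x ^ 2 +
      4 * e * f * n * R * x * y + 2 * n ^ 2 * f * (f - 1) * y ^ 2)) - 4 * n ^ 2 * R ^ 2 * κ →
      W ∣ e * R * x + f * n * y := by
    intro x y h
    have h1 := dvd_sub h g0
    have h3 : W ∣ n ^ e * R ^ f * (4 * n * R) * (e * R * x + f * n * y) := by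
      apply t1a_first hW (M := n ^ e * R ^ f * (2 * R ^ 2 * e * (e - 1) * x ^ 2 +
        4 * e * f * n * R * x * y + 2 * n ^ 2 * f * (f - 1) * y ^ 2))
      refine (Eq.subst ?_ h1 : _)
      ring
    exact h4.symm.dvd_of_dvd_mul_left h3
  have f1 := first D D' gD
  have f2 := first d d' gd
  have s1 : W ∣ n ^ e * R ^ f * (2 * 2) * (R ^ 2 * e * (e - 1) * (D * d) +
      e * f * n * R * (D * d' + D' * d) + n ^ 2 * f * (f - 1) * (D' * d')) := by
    apply t1a_second hW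
    have h1 := dvd_add (dvd_sub (dvd_sub gDd gD) gd) g0
    refine (Eq.subst ?_ h1 : _)
    ring
  have s4 := (hnR.mul_left (h2.mul_left h2)).symm.dvd_of_dvd_mul_left s1
  have s5 : W ∣ e * e * R ^ 2 * (e + f) * (D * d) := by
    have h7 : (e : ℤ) * e * R ^ 2 * (e + f) * (D * d) =
        -(e * f * (R ^ 2 * e * (e - 1) * (D * d) + e * f * n * R * (D * d' + D' * d) +
          n ^ 2 * f * (f - 1) * (D' * d'))) +
        (e * R * D + f * n * D') * (e * e * f * R * d + e * (f - 1) * (f * n * d')) +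
        (e * R * d + f * n * d') * (e * e * f * R * D - e * (f - 1) * (e * R * D)) := by ring
    rw [h7]
    apply dvd_add (dvd_add _ (Dvd.dvd.mul_right f1 _)) (Dvd.dvd.mul_right f2 _)
    exact (dvd_neg.2 (Dvd.dvd.mul_left s4 _))
  exact (((he.mul_left he).mul_left hR.pow_left).mul_left hef).symm.dvd_of_dvd_mul_left s5

theorem t1a_thm : T1aStmt := by
  intro neg e f w κ n R D D' d d' he1 _ hf1 _ hef hsq hbad _ hn hR hP
  have hw : w ≠ 0 := hsq.ne_zero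
  have hW : (w : ℤ) ≠ 0 := by exact_mod_cast hw
  have p0 := hP (0, 0) (Or.inl rfl)
  have p1 := hP (D, D') (Or.inr (Or.inl rfl))
  have p2 := hP (d, d') (Or.inr (Or.inr (Or.inl rfl)))
  have p3 := hP (D + d, D' + d') (Or.inr (Or.inr (Or.inr rfl)))
  unfold bad at hbad
  have b1 : Nat.Coprime w (2 * e * f) := hbad.coprime_mul_right_right
  have b2 := hbad.coprime_mul_left_right
  have b3 : Nat.Coprime w (2 * e) := b1.coprime_mul_right_right
  have c2 : IsCoprime (2 : ℤ) (w : ℤ) := by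
    have := Nat.isCoprime_iff_coprime.2 b3.coprime_mul_right_right.symm
    exact_mod_cast this
  have ce : IsCoprime (e : ℤ) (w : ℤ) :=
    Nat.isCoprime_iff_coprime.2 b3.coprime_mul_left_right.symm
  cases neg with
  | true =>
    simp only [if_true] at p0 p1 p2 p3 b2
    have cef : IsCoprime ((e : ℤ) + f) (w : ℤ) := by
      have := Nat.isCoprime_iff_coprime.2 b2.symm
      push_cast at this
      exact this
    exact t1a_true hW c2 ce cef hn hR p0 p1 p2 p3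
  | false =>
    simp only [Bool.false_eq_true, if_false] at p0 p1 p2 p3 b2
    have hne := hef rfl
    have cef : IsCoprime ((e : ℤ) - f) (w : ℤ) := by
      have h1 := Nat.isCoprime_iff_coprime.2 b2.symm
      rcases lt_or_gt_of_ne hne with h | h
      · rw [max_eq_right h.le, min_eq_left h.le, Nat.cast_sub h.le] at h1
        have h3 := h1.neg_left
        rw [neg_sub] at h3
        exact h3
      · rw [max_eq_left h.le, min_eq_right h.le, Nat.cast_sub h.le] at h1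
        exact h1
    exact t1a_false hW c2 ce cef hn hR p0 p1 p2 p3

end Pool.Agent.Helper21.EN
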