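import Pool.Agent.Helper21.EN.Stmts

set_option autoImplicit false

/-!
# Project EN, piece T1b

The statement is in EN/Stmts.lean. Paper: /team-store/EN_paper.md.

Proof. neg = false: if D = 0 then w^3 | kappa ((R + w D')^f - R^f) so w^3 | (R + wD')^f - R^f = w D' (f R^(f-1) + w Q) for an integer Q; f R^(f-1) + w Q is coprime to w
(w is coprime to f: see bad; R coprime to w), so w^2 | D'. neg = true: the same with (n^e) instead of kappa (n^e coprime to w).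
Second claim: w^3 | difference of the two relations = w (first order) + w^2 (..), so w | e n^(e-1) D - kappa f R^(f-1) D' (neg = false); multiply by R and use kappa R^f = n^e modulo w, then divide by n^(e-1):
w | e D R - f D' n. neg = true: w | e n^(e-1) R^f D + f n^e R^(f-1) D', divide by n^(e-1) R^(f-1): w | e R D + f n D'.
-/

namespace Pool.Agent.Helper21.EN

open Finset

/-- expansion to second order -/
lemma t1b_exp (a x : ℤ) (m : ℕ) :
    ∃ k : ℤ, (a + x) ^ m = a ^ m + m * a ^ (m - 1) * x + k * x ^ 2 :=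
  ⟨(Polynomial.powAddExpansion a x m).1, (Polynomial.powAddExpansion a x m).2⟩

/-- the first claim -/
lemma t1b_first (w f : ℕ) (R D' : ℤ) (hw : (w : ℤ) ≠ 0) (hf : IsCoprime (w : ℤ) (f : ℤ))
    (hR : IsCoprime R (w : ℤ)) (h : (w : ℤ) ^ 3 ∣ (R + w * D') ^ f - R ^ f) :
    (w : ℤ) ^ 2 ∣ D' := by
  obtain ⟨k, hk⟩ := t1b_exp R (w * D') f
  have h1 : (R + w * D') ^ f - R ^ f = w * (D' * (f * R ^ (f - 1) + w * (k * D'))) := by
    rw [hk]; ring
  rw [h1] at h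
  have h2 : (w : ℤ) ^ 2 ∣ D' * (f * R ^ (f - 1) + w * (k * D')) := by
    have h3 : (w : ℤ) ^ 3 = w * w ^ 2 := by ring
    rw [h3] at h
    exact (mul_dvd_mul_iff_left hw).1 h
  have h4 : IsCoprime (w : ℤ) (f * R ^ (f - 1) + w * (k * D')) := by
    rw [IsCoprime.add_mul_left_right_iff]
    exact IsCoprime.mul_right hf (hR.symm.pow_right)
  exact (IsCoprime.pow_left h4).dvd_of_dvd_mul_right h2

/-- cancelling one factor `w` -/
lemma t1b_cancel (w : ℕ) (A B : ℤ) (hw : (w : ℤ) ≠ 0)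
    (h : (w : ℤ) ^ 3 ∣ w * A + w ^ 2 * B) : (w : ℤ) ∣ A := by
  have h1 : (w : ℤ) * A + w ^ 2 * B = w * (A + w * B) := by ring
  rw [h1] at h
  have h3 : (w : ℤ) ^ 3 = w * w ^ 2 := by ring
  rw [h3] at h
  have h2 := (mul_dvd_mul_iff_left hw).1 h
  have h4 : (w : ℤ) ∣ A + w * B := (Dvd.intro (w : ℤ) (by ring)).trans h2
  exact (dvd_add_left (Dvd.intro B rfl)).1 h4

theorem t1b_thm : T1bStmt := by
  intro neg e f w κ n R D D' he he8 hf hf8 hsq hbad hκ hn hR hP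
  have hw0 : w ≠ 0 := hsq.ne_zero
  have hw : (w : ℤ) ≠ 0 := by exact_mod_cast hw0
  have hb : Nat.Coprime w (2 * e * f) := by
    unfold bad at hbad
    exact Nat.Coprime.coprime_mul_right_right hbad
  have hcf : IsCoprime (w : ℤ) (f : ℤ) :=
    Nat.isCoprime_iff_coprime.2 (Nat.Coprime.coprime_mul_left_right hb)
  have hcκ : IsCoprime (w : ℤ) (κ : ℤ) := (Nat.isCoprime_iff_coprime.2 hκ).symm
  obtain ⟨e', rfl⟩ : ∃ e', e = e' + 1 := ⟨e - 1, by omega⟩
  obtain ⟨f', rfl⟩ : ∃ f', f = f' + 1 := ⟨f - 1, by omega⟩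
  have H0 := hP (0, 0) (Or.inl rfl)
  have H1 := hP (D, D') (Or.inr rfl)
  obtain ⟨k1, hk1⟩ := t1b_exp n (w * D) (e' + 1)
  obtain ⟨k2, hk2⟩ := t1b_exp R (w * D') (f' + 1)
  simp only [Nat.add_sub_cancel] at hk1 hk2
  cases neg with
  | false =>
    simp only [mul_zero, add_zero] at H0
    simp only [Bool.false_eq_true, if_false] at H0 H1 ⊢
    constructor
    · intro hD
      subst hD
      simp only [mul_zero, add_zero] at H1
      have h1 : (w : ℤ) ^ 3 ∣ κ * ((R + w * D') ^ (f' + 1) - R ^ (f' + 1)) := by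
        have h2 := dvd_sub H0 H1
        have h3 : n ^ (e' + 1) - (κ : ℤ) * R ^ (f' + 1) -
            (n ^ (e' + 1) - κ * (R + w * D') ^ (f' + 1)) =
            κ * ((R + w * D') ^ (f' + 1) - R ^ (f' + 1)) := by ring
        rwa [h3] at h2
      exact t1b_first w _ R D' hw hcf hR ((IsCoprime.pow_left hcκ).dvd_of_dvd_mul_left h1)
    · have h1 : (w : ℤ) ∣ ((e' + 1 : ℕ) : ℤ) * n ^ e' * D - κ * ((f' + 1 : ℕ) * R ^ f' * D') := by
        have h2 := dvd_sub H1 H0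
        rw [hk1, hk2] at h2
        refine t1b_cancel w _ (k1 * D ^ 2 - κ * (k2 * D' ^ 2)) hw ?_
        have h3 : (n ^ (e' + 1) + ((e' + 1 : ℕ) : ℤ) * n ^ e' * (w * D) + k1 * (w * D) ^ 2 -
            κ * (R ^ (f' + 1) + ((f' + 1 : ℕ) : ℤ) * R ^ f' * (w * D') + k2 * (w * D') ^ 2)) -
            (n ^ (e' + 1) - κ * R ^ (f' + 1)) =
            w * (((e' + 1 : ℕ) : ℤ) * n ^ e' * D - κ * ((f' + 1 : ℕ) * R ^ f' * D')) +
            w ^ 2 * (k1 * D ^ 2 - κ * (k2 * D' ^ 2)) := by ring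
        rwa [h3] at h2
      have h4 : (w : ℤ) ∣ n ^ (e' + 1) - (κ : ℤ) * R ^ (f' + 1) :=
        (Dvd.intro_left ((w : ℤ) ^ 2) (by ring)).trans H0
      have h5 : (w : ℤ) ∣ n ^ e' * (((e' + 1 : ℕ) : ℤ) * D * R - 1 * (f' + 1 : ℕ) * D' * n) := by
        have h6 := dvd_sub (dvd_mul_of_dvd_left h1 R)
          (dvd_mul_of_dvd_left h4 (((f' + 1 : ℕ) : ℤ) * D'))
        have h7 : (((e' + 1 : ℕ) : ℤ) * n ^ e' * D - κ * ((f' + 1 : ℕ) * R ^ f' * D')) * R -
            (n ^ (e' + 1) - (κ : ℤ) * R ^ (f' + 1)) * (((f' + 1 : ℕ) : ℤ) * D') =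
            n ^ e' * (((e' + 1 : ℕ) : ℤ) * D * R - 1 * (f' + 1 : ℕ) * D' * n) := by ring
        rwa [h7] at h6
      exact (IsCoprime.pow_right hn.symm).dvd_of_dvd_mul_left h5
  | true =>
    simp only [mul_zero, add_zero] at H0
    simp only [if_true] at H0 H1 ⊢
    constructor
    · intro hD
      subst hD
      simp only [mul_zero, add_zero] at H1
      have h1 : (w : ℤ) ^ 3 ∣ n ^ (e' + 1) * ((R + w * D') ^ (f' + 1) - R ^ (f' + 1)) := by
        have h2 := dvd_sub H1 H0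
        have h3 : n ^ (e' + 1) * (R + w * D') ^ (f' + 1) - (κ : ℤ) -
            (n ^ (e' + 1) * R ^ (f' + 1) - κ) =
            n ^ (e' + 1) * ((R + w * D') ^ (f' + 1) - R ^ (f' + 1)) := by ring
        rwa [h3] at h2
      exact t1b_first w _ R D' hw hcf hR ((IsCoprime.pow hn.symm).dvd_of_dvd_mul_left h1)
    · have h1 : (w : ℤ) ∣ ((e' + 1 : ℕ) : ℤ) * n ^ e' * D * R ^ (f' + 1) +
          n ^ (e' + 1) * ((f' + 1 : ℕ) * R ^ f' * D') := by
        have h2 := dvd_sub H1 H0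
        rw [hk1, hk2] at h2
        refine t1b_cancel w _ (n ^ (e' + 1) * (k2 * D' ^ 2) +
          ((e' + 1 : ℕ) : ℤ) * n ^ e' * D * ((f' + 1 : ℕ) * R ^ f' * D') +
          ((e' + 1 : ℕ) : ℤ) * n ^ e' * D * (k2 * w * D' ^ 2) +
          k1 * D ^ 2 * (R ^ (f' + 1) + ((f' + 1 : ℕ) : ℤ) * R ^ f' * (w * D') +
            k2 * (w * D') ^ 2)) hw ?_
        have h3 : ((n ^ (e' + 1) + ((e' + 1 : ℕ) : ℤ) * n ^ e' * (w * D) + k1 * (w * D) ^ 2) *
            (R ^ (f' + 1) + ((f' + 1 : ℕ) : ℤ) * R ^ f' * (w * D') + k2 * (w * D') ^ 2) - κ) -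
            (n ^ (e' + 1) * R ^ (f' + 1) - κ) =
            w * (((e' + 1 : ℕ) : ℤ) * n ^ e' * D * R ^ (f' + 1) +
              n ^ (e' + 1) * ((f' + 1 : ℕ) * R ^ f' * D')) +
            w ^ 2 * (n ^ (e' + 1) * (k2 * D' ^ 2) +
              ((e' + 1 : ℕ) : ℤ) * n ^ e' * D * ((f' + 1 : ℕ) * R ^ f' * D') +
              ((e' + 1 : ℕ) : ℤ) * n ^ e' * D * (k2 * w * D' ^ 2) +
              k1 * D ^ 2 * (R ^ (f' + 1) + ((f' + 1 : ℕ) : ℤ) * R ^ f' * (w * D') +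
                k2 * (w * D') ^ 2)) := by ring
        rwa [h3] at h2
      have h5 : (w : ℤ) ∣ (n ^ e' * R ^ f') *
          (((e' + 1 : ℕ) : ℤ) * D * R - -1 * (f' + 1 : ℕ) * D' * n) := by
        have h7 : ((e' + 1 : ℕ) : ℤ) * n ^ e' * D * R ^ (f' + 1) +
            n ^ (e' + 1) * ((f' + 1 : ℕ) * R ^ f' * D') =
            (n ^ e' * R ^ f') * (((e' + 1 : ℕ) : ℤ) * D * R - -1 * (f' + 1 : ℕ) * D' * n) := by
          ring
        rwa [h7] at h1
      exact (IsCoprime.mul_right (IsCoprime.pow_right hn.symm)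
        (IsCoprime.pow_right hR.symm)).dvd_of_dvd_mul_left h5

end Pool.Agent.Helper21.EN
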