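import Pool.Agent.Helper21.EN.Stmts
import Pool.Agent.Helper69.EN.T1c

set_option autoImplicit false

/-!
# Project EN, piece T1c

The statement is in EN/Stmts.lean. The proof is `Pool.Agent.Helper69.EN.t1c` (helper69), with one
constant for all pairs of exponents `e, f ≤ 8`.
-/

namespace Pool.Agent.Helper21.EN

open Finset

theorem t1c_thm (_ht : T1Stmt) (_hk : KAPStmt) : T1cStmt := by
  intro ε hε
  have h0 : ∀ e f : ℕ, ∃ C : ℝ, 0 < C ∧ (1 ≤ e → 1 ≤ f → e ≠ f →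
      ∀ (w V : ℕ) (μ : ℝ) (κ : ℤ) (K : Finset (ℕ × ℕ)), Squarefree w →
      0 ≤ μ → μ ≤ 1 → (V : ℝ) ≤ (w : ℝ) ^ (1 + μ) →
      (∀ P ∈ K, 0 < P.1 ∧ 0 < P.2 ∧ P.1 ≤ V ∧ P.2 ≤ V ∧ Nat.Coprime P.1 w ∧
        Nat.Coprime P.2 w ∧ (w : ℤ) ^ 3 ∣ (P.1 : ℤ) ^ e - κ * (P.2 : ℤ) ^ f) →
      (K.card : ℝ) ≤ C * (w : ℝ) ^ (3 / 4 + 2 * μ + ε)) := by
    intro e f
    by_cases hc : 1 ≤ e ∧ 1 ≤ f ∧ e ≠ f
    · obtain ⟨C, hC, h⟩ := Pool.Agent.Helper69.EN.t1c (e := e) (f := f) hc.1 hc.2.1 hc.2.2 hε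
      exact ⟨C, hC, fun _ _ _ => h⟩
    · exact ⟨1, one_pos, fun h1 h2 h3 => absurd ⟨h1, h2, h3⟩ hc⟩
  choose C hC h using h0
  refine ⟨1 + ∑ x ∈ range 9, ∑ y ∈ range 9, C x y, ?_, ?_⟩
  · have : 0 ≤ ∑ x ∈ range 9, ∑ y ∈ range 9, C x y :=
      Finset.sum_nonneg fun x _ => Finset.sum_nonneg fun y _ => (hC x y).le
    linarith
  · intro e f w κ₁ μ V S he he8 hf hf8 hef hw _hκ hμ0 hμ1 hV hS
    have hw0 : 0 < w := Nat.pos_of_ne_zero hw.ne_zero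
    have hwR : (0 : ℝ) < w := by exact_mod_cast hw0
    rcases S.eq_empty_or_nonempty with hSe | ⟨s0, hs0⟩
    · rw [hSe]
      have : 0 ≤ ∑ x ∈ range 9, ∑ y ∈ range 9, C x y :=
        Finset.sum_nonneg fun x _ => Finset.sum_nonneg fun y _ => (hC x y).le
      rw [Finset.card_empty, Nat.cast_zero]
      have h2 : 0 ≤ (w : ℝ) ^ (3 / 4 + 2 * μ + ε) := Real.rpow_nonneg hwR.le _
      exact mul_nonneg (by linarith) h2
    have hV0 : 0 ≤ V := by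
      have h1 := (hS s0 hs0).2.1
      have h2 : (0 : ℝ) ≤ (s0.1 : ℝ) := Nat.cast_nonneg _
      linarith
    have h1 := h e f he hf hef w ⌊V⌋₊ μ (κ₁ : ℤ) S hw hμ0 hμ1 ((Nat.floor_le hV0).trans hV) ?_
    · refine h1.trans (mul_le_mul_of_nonneg_right ?_ (Real.rpow_nonneg hwR.le _))
      have h3 : C e f ≤ ∑ y ∈ range 9, C e y :=
        Finset.single_le_sum (f := fun y => C e y) (fun y _ => (hC e y).le)
          (Finset.mem_range.2 (by omega))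
      have h4 : ∑ y ∈ range 9, C e y ≤ ∑ x ∈ range 9, ∑ y ∈ range 9, C x y :=
        Finset.single_le_sum (f := fun x => ∑ y ∈ range 9, C x y)
          (fun x _ => Finset.sum_nonneg fun y _ => (hC x y).le) (Finset.mem_range.2 (by omega))
      linarith
    · intro P hP
      obtain ⟨a1, a2, a3, a4, a5, a6, a7⟩ := hS P hP
      refine ⟨a1, a3, Nat.le_floor a2, Nat.le_floor a4, a5, a6, ?_⟩
      have h5 := (Nat.modEq_iff_dvd.1 a7.symm)
      push_cast at h5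
      exact h5

end Pool.Agent.Helper21.EN
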