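import Pool.Agent.Helper21.EN.DIR
import Pool.Agent.Helper21.EN.KAP
import Pool.Agent.Helper21.EN.RP
import Pool.Agent.Helper21.EN.E1
import Pool.Agent.Helper21.EN.E2
import Pool.Agent.Helper21.EN.RECG
import Pool.Agent.Helper21.EN.REC
import Pool.Agent.Helper21.EN.REC0
import Pool.Agent.Helper21.EN.Q1
import Pool.Agent.Helper21.EN.Q2
import Pool.Agent.Helper21.EN.Q3
import Pool.Agent.Helper21.EN.Q4
import Pool.Agent.Helper21.EN.T1a
import Pool.Agent.Helper21.EN.T1b
import Pool.Agent.Helper21.EN.T1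
import Pool.Agent.Helper21.EN.T1c
import Pool.Agent.Helper21.EN.P2
import Pool.Agent.Helper21.EN.P3
import Pool.Agent.Helper21.EN.P4
import Pool.Agent.Helper21.EN.P5
import Pool.Agent.Helper21.EN.S2c
import Pool.Agent.Helper21.EN.S2
import Pool.Agent.Helper21.EN.N2
import Pool.Agent.Helper21.EN.G
import Pool.Agent.Helper21.EN.GV
import Pool.Agent.Helper21.EN.N3
import Pool.Agent.Helper21.EN.N4
import Pool.Agent.Helper21.EN.L0
import Pool.Agent.Helper21.EN.L1
import Pool.Agent.Helper21.EN.L2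
import Pool.Agent.Helper21.EN.C1
import Pool.Agent.Helper21.EN.C2a
import Pool.Agent.Helper21.EN.C2p
import Pool.Agent.Helper21.EN.PC
import Pool.Agent.Helper21.EN.SQ
import Pool.Agent.Helper21.EN.C2s
import Pool.Agent.Helper21.EN.FRAD
import Pool.Agent.Helper21.EN.FMesh
import Pool.Agent.Helper21.EN.FCon
import Pool.Agent.Helper21.EN.FSel
import Pool.Agent.Helper21.EN.FTriv
import Pool.Agent.Helper21.EN.FC1
import Pool.Agent.Helper21.EN.FC2
import Pool.Agent.Helper21.EN.FL1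
import Pool.Agent.Helper21.EN.FL0
import Pool.Agent.Helper21.EN.FC3
import Pool.Agent.Helper21.EN.FC4s
import Pool.Agent.Helper21.EN.FC4
import Pool.Agent.Helper21.EN.FSR
import Pool.Agent.Helper21.EN.FFin

set_option autoImplicit false

/-!
# Project EN: all pieces together
-/

namespace Pool.Agent.Helper21.EN

/-- The final theorem. -/
theorem all_thm : FFinStmt := by
  have dir : DIRStmt := dir_thm
  have kap : KAPStmt := kap_thm dir
  have rp : RPStmt := rp_thm
  have e1 : E1Stmt := e1_thm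
  have e2 : E2Stmt := e2_thm
  have recg : RECGStmt := recg_thm e1 e2
  have rec1 : RECStmt := rec_thm recg e1 e2
  have rec0 : REC0Stmt := rec0_thm e1 e2
  have q1 : Q1Stmt := q1_thm dir
  have q2 : Q2Stmt := q2_thm dir
  have q3 : Q3Stmt := q3_thm q1 q2 rec0
  have q4 : Q4Stmt := q4_thm q1 q2 rec0
  have t1a : T1aStmt := t1a_thm
  have t1b : T1bStmt := t1b_thm
  have t1 : T1Stmt := t1_thm t1a t1b
  have t1c : T1cStmt := t1c_thm t1 kap
  have p2 : P2Stmt := p2_thm
  have p3 : P3Stmt := p3_thm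
  have p4 : P4Stmt := p4_thm
  have p5 : P5Stmt := p5_thm t1
  have s2c : S2cStmt := s2c_thm kap p2 p3 p4 p5
  have s2 : S2Stmt := s2_thm s2c
  have n2 : N2Stmt := n2_thm s2 q2
  have g : GStmt := g_thm kap s2
  have gv : GVStmt := gv_thm g
  have n3 : N3Stmt := n3_thm n2 gv q1 q2 e1 e2 rec1 recg
  have n4 : N4Stmt := n4_thm n2 n3 q2 q3 rec1
  have l0 : L0Stmt := l0_thm e1 e2 rp
  have l1 : L1Stmt := l1_thm dir rp
  have l2 : L2Stmt := l2_thm t1c rp
  have c1 : C1Stmt := c1_thm rp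
  have c2a : C2aStmt := c2a_thm rp
  have c2p : C2pStmt := c2p_thm dir rp
  have sq : SQStmt := sq_thm pc_thm
  have c2s : C2sStmt := c2s_thm sq rp
  have frad : FRADStmt := frad_thm
  have fsel : FSelStmt := fsel_thm
  have fl1 : FL1Stmt := fl1_thm l1
  have fl0 : FL0Stmt := fl0_thm l0
  have fc4s : FC4sStmt := fc4s_thm fl0 n2 l2 fsr_thm rp frad
  exact ffin_thm fmesh_thm (fcon_thm frad) (ftriv_thm rp) (fc1_thm c1) (fc2_thm c2a c2p c2s)
    (fc3_thm fl1 fl0 fsel q2 q3 q4 rp frad) (fc4_thm fl1 fl0 fsel n2 n3 n4 frad fc4s)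

end Pool.Agent.Helper21.EN
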