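import Pool.Agent.Helper21.EN.Stmts
import Pool.Agent.Helper94.Abc.Basic
import Pool.Agent.Helper26.Abc2.Roots

set_option autoImplicit false

/-!
# Project EN, piece DIR

Proved. The statement is in EN/Stmts.lean. Paper: /team-store/EN_paper.md.

Proof. Fix eps. Roots: Pool.Agent.Helper26.Abc2.card_roots (or card_roots_int): at most C m^(eps/2)
residues x modulo m with x^j = c. For s = (n, l) in S let om < m be the residue with n = om l modulo m
(l is a unit modulo m); then om^j = c modulo m. So S splits into at most C m^(eps/2) classes.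
In a class two different elements (n,l), (n',l') satisfy m | n l' - n' l and n l' - n' l is not 0
(coprime pairs), so |n l' - n' l| >= m. Fix a dyadic range L < l <= 2L (L = 2^k, k <= log2 Q, or use
Nat.log 2 l as index): the reals n/l lie in (0, P/L], and two different ones differ by
|n l' - n' l|/(l l') >= m/(4 L^2): Pool.Agent.Helper94.Abc.gap_card gives at most
1 + (P/L)(4L^2/m) = 1 + 4PL/m <= 1 + 4PQ/m elements (here L <= Q as some l with L <= l <= Q exists).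
Number of dyadic ranges <= 1 + log2 Q <= C' Q^eps. All j <= 8: take the maximum (or sum) of the eight
constants. Total <= C (mPQ)^eps (1 + PQ/m).
-/

namespace Pool.Agent.Helper21.EN

open Finset

/-- Uniform constant for the numbers of roots. -/
lemma dir_roots {ε : ℝ} (hε : 0 < ε) (n : ℕ) : ∃ C : ℝ, 1 ≤ C ∧ ∀ j : ℕ, 1 ≤ j → j ≤ n →
    ∀ q a : ℕ, 0 < q → Nat.Coprime a q →
      (((Finset.range q).filter (fun x => x ^ j ≡ a [MOD q])).card : ℝ) ≤ C * (q : ℝ) ^ ε := by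
  induction n with
  | zero => exact ⟨1, le_refl _, fun j h1 h2 => by omega⟩
  | succ n ih =>
    obtain ⟨C, hC1, hC⟩ := ih
    obtain ⟨D, hD0, hD⟩ := Pool.Agent.Helper26.Abc2.card_roots (j := n + 1) (by omega) hε
    refine ⟨C + D, by linarith, ?_⟩
    intro j h1 h2 q a hq ha
    have hqe : (0 : ℝ) ≤ (q : ℝ) ^ ε := by positivity
    rcases Nat.lt_or_ge n j with h | h
    · have hj : j = n + 1 := by omega
      subst hj
      have := hD q a hq ha
      nlinarith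
    · have := hC j h1 h q a hq ha
      nlinarith

/-- The class of a pair. -/
noncomputable def dir_cls (m : ℕ) (s : ℕ × ℕ) : ℕ :=
  ((s.1 : ZMod m) * (s.2 : ZMod m)⁻¹).val

lemma dir_cls_mem {m j c : ℕ} (hm : 0 < m) {s : ℕ × ℕ}
    (h2 : Nat.Coprime s.2 m) (h : s.1 ^ j ≡ c * s.2 ^ j [MOD m]) :
    dir_cls m s ∈ (Finset.range m).filter (fun x => x ^ j ≡ c [MOD m]) := by
  haveI : NeZero m := ⟨hm.ne'⟩
  rw [Finset.mem_filter, Finset.mem_range]
  refine ⟨ZMod.val_lt _, ?_⟩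
  rw [← ZMod.natCast_eq_natCast_iff]
  have e := (ZMod.natCast_eq_natCast_iff _ _ _).2 h
  push_cast at e ⊢
  have hu := ZMod.coe_mul_inv_eq_one s.2 h2
  rw [dir_cls, ZMod.natCast_zmod_val, mul_pow, e, mul_assoc, ← mul_pow, hu, one_pow, mul_one]

lemma dir_cls_dvd {m : ℕ} (hm : 0 < m) {s s' : ℕ × ℕ}
    (h2 : Nat.Coprime s.2 m) (h2' : Nat.Coprime s'.2 m) (h : dir_cls m s = dir_cls m s') :
    (m : ℤ) ∣ (s.1 : ℤ) * s'.2 - (s'.1 : ℤ) * s.2 := by
  haveI : NeZero m := ⟨hm.ne'⟩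
  have e : (s.1 : ZMod m) * (s.2 : ZMod m)⁻¹ = (s'.1 : ZMod m) * (s'.2 : ZMod m)⁻¹ :=
    ZMod.val_injective m h
  have hu := ZMod.coe_mul_inv_eq_one s.2 h2
  have hu' := ZMod.coe_mul_inv_eq_one s'.2 h2'
  rw [← ZMod.intCast_zmod_eq_zero_iff_dvd]
  push_cast
  have e3 : (s.1 : ZMod m) * s'.2 = ((s.1 : ZMod m) * (s.2 : ZMod m)⁻¹) * s.2 * s'.2 := by
    rw [mul_assoc (s.1 : ZMod m), mul_comm ((s.2 : ZMod m)⁻¹), hu, mul_one]
  have e4 : ((s'.1 : ZMod m) * (s'.2 : ZMod m)⁻¹) * s.2 * s'.2 = (s'.1 : ZMod m) * s.2 := by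
    calc ((s'.1 : ZMod m) * (s'.2 : ZMod m)⁻¹) * s.2 * s'.2
        = (s'.1 : ZMod m) * s.2 * ((s'.2 : ZMod m) * (s'.2 : ZMod m)⁻¹) := by ring
      _ = (s'.1 : ZMod m) * s.2 := by rw [hu', mul_one]
  rw [e3, e, e4, sub_self]

lemma dir_ne {s s' : ℕ × ℕ} (h2 : 0 < s.2) (h2' : 0 < s'.2)
    (hc : Nat.Coprime s.1 s.2) (hc' : Nat.Coprime s'.1 s'.2) (hne : s ≠ s') :
    s.1 * s'.2 ≠ s'.1 * s.2 := by
  intro h
  apply hne
  have d1 : s.2 ∣ s'.2 := by
    have : s.2 ∣ s.1 * s'.2 := h ▸ Dvd.intro_left _ rfl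
    exact hc.symm.dvd_of_dvd_mul_left this
  have d2 : s'.2 ∣ s.2 := by
    have : s'.2 ∣ s'.1 * s.2 := h ▸ Dvd.intro_left _ rfl
    exact hc'.symm.dvd_of_dvd_mul_left this
  have e2 : s.2 = s'.2 := Nat.dvd_antisymm d1 d2
  have e1 : s.1 = s'.1 := by
    rw [← e2] at h
    exact Nat.eq_of_mul_eq_mul_right h2 h
  exact Prod.ext e1 e2

/-- The bound for one class and one dyadic range. -/
lemma dir_fiber {m k : ℕ} (hm : 0 < m) {P Q : ℝ} (hP : 1 ≤ P) (hQ : 1 ≤ Q)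
    (F : Finset (ℕ × ℕ))
    (hF : ∀ s ∈ F, 0 < s.1 ∧ 0 < s.2 ∧ (s.1 : ℝ) ≤ P ∧ (s.2 : ℝ) ≤ Q ∧ Nat.Coprime s.1 s.2 ∧
      Nat.Coprime s.2 m ∧ 2 ^ k ≤ s.2 ∧ s.2 < 2 ^ (k + 1))
    (hcl : ∀ s ∈ F, ∀ s' ∈ F, dir_cls m s = dir_cls m s') :
    (F.card : ℝ) ≤ 4 * (1 + P * Q / m) := by
  have hm' : (0 : ℝ) < m := by exact_mod_cast hm
  rcases F.eq_empty_or_nonempty with h0 | ⟨s0, hs0⟩
  · rw [h0]
    simp only [Finset.card_empty, Nat.cast_zero]
    positivity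
  · have h2k : (0 : ℝ) < 2 ^ k := by positivity
    have hkQ : (2 : ℝ) ^ k ≤ Q := by
      obtain ⟨-, -, -, h4, -, -, h7, -⟩ := hF s0 hs0
      refine le_trans ?_ h4
      exact_mod_cast h7
    have hG : (0 : ℝ) < (m : ℝ) / (4 * (2 ^ k * 2 ^ k)) := by positivity
    have := Pool.Agent.Helper94.Abc.gap_card F (fun s => (s.1 : ℝ) / s.2) (u := 0)
      (v := P / 2 ^ k) hG (by positivity) ?_ ?_
    · refine this.trans ?_
      have e : (P / 2 ^ k - 0) / ((m : ℝ) / (4 * (2 ^ k * 2 ^ k))) = 4 * (P * 2 ^ k / m) := by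
        field_simp
        ring
      rw [e]
      have : P * 2 ^ k / m ≤ P * Q / m := by gcongr
      linarith
    · intro s hs
      obtain ⟨h1, h2, h3, h4, h5, h6, h7, h8⟩ := hF s hs
      refine ⟨by positivity, ?_⟩
      have : (2 : ℝ) ^ k ≤ (s.2 : ℝ) := by exact_mod_cast h7
      gcongr
    · intro s hs s' hs' hne
      obtain ⟨h1, h2, h3, h4, h5, h6, h7, h8⟩ := hF s hs
      obtain ⟨h1', h2', h3', h4', h5', h6', h7', h8'⟩ := hF s' hs'
      have hd := dir_cls_dvd hm h6 h6' (hcl s hs s' hs')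
      have hn : (s.1 : ℤ) * s'.2 - (s'.1 : ℤ) * s.2 ≠ 0 := by
        intro h
        apply dir_ne h2 h2' h5 h5' hne
        have : (s.1 : ℤ) * s'.2 = (s'.1 : ℤ) * s.2 := by linarith
        exact_mod_cast this
      have hle : (m : ℤ) ≤ |(s.1 : ℤ) * s'.2 - (s'.1 : ℤ) * s.2| :=
        Int.le_of_dvd (abs_pos.2 hn) ((dvd_abs _ _).2 hd)
      have hle' : (m : ℝ) ≤ |(s.1 : ℝ) * s'.2 - (s'.1 : ℝ) * s.2| := by exact_mod_cast hle
      have p2 : (0 : ℝ) < s.2 := by exact_mod_cast h2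
      have p2' : (0 : ℝ) < s'.2 := by exact_mod_cast h2'
      have b2 : (s.2 : ℝ) ≤ 2 * 2 ^ k := by
        have : s.2 ≤ 2 * 2 ^ k := by rw [pow_succ] at h8; omega
        exact_mod_cast this
      have b2' : (s'.2 : ℝ) ≤ 2 * 2 ^ k := by
        have : s'.2 ≤ 2 * 2 ^ k := by rw [pow_succ] at h8'; omega
        exact_mod_cast this
      have e : (s.1 : ℝ) / s.2 - (s'.1 : ℝ) / s'.2
          = ((s.1 : ℝ) * s'.2 - (s'.1 : ℝ) * s.2) / (s.2 * s'.2) := by
        field_simp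
      show (m : ℝ) / (4 * (2 ^ k * 2 ^ k)) ≤ |(s.1 : ℝ) / s.2 - (s'.1 : ℝ) / s'.2|
      rw [e, abs_div, abs_of_pos (mul_pos p2 p2')]
      have hb : (s.2 : ℝ) * s'.2 ≤ 4 * (2 ^ k * 2 ^ k) := by
        have := mul_le_mul b2 b2' p2'.le (by positivity)
        nlinarith
      apply div_le_div₀ (abs_nonneg _) hle' (mul_pos p2 p2') hb

lemma dir_log {ε : ℝ} (hε : 0 < ε) {Q : ℝ} (hQ : 1 ≤ Q) :
    ((Nat.log 2 ⌊Q⌋₊ + 1 : ℕ) : ℝ) ≤ (1 + 1 / (ε * Real.log 2)) * Q ^ ε := by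
  set k := Nat.log 2 ⌊Q⌋₊ with hk
  have hQf : ⌊Q⌋₊ ≠ 0 := by
    have : 1 ≤ ⌊Q⌋₊ := Nat.le_floor (by simpa using hQ)
    omega
  have h1 : 2 ^ k ≤ ⌊Q⌋₊ := Nat.pow_log_le_self 2 hQf
  have h2 : ((2 : ℝ)) ^ k ≤ Q := by
    have : ((2 ^ k : ℕ) : ℝ) ≤ Q := le_trans (by exact_mod_cast h1) (Nat.floor_le (by linarith))
    simpa using this
  have hL : 0 < Real.log 2 := Real.log_pos (by norm_num)
  have h3 : (1 : ℝ) + k * (ε * Real.log 2) ≤ Q ^ ε := by
    have e1 : ((2 : ℝ) ^ k) ^ ε ≤ Q ^ ε := Real.rpow_le_rpow (by positivity) h2 hε.le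
    have e2 : ((2 : ℝ) ^ k) ^ ε = Real.exp (k * (ε * Real.log 2)) := by
      rw [← Real.rpow_natCast, ← Real.rpow_mul (by norm_num),
        Real.rpow_def_of_pos (by norm_num : (0 : ℝ) < 2)]
      congr 1
      ring
    have e3 := Real.add_one_le_exp (k * (ε * Real.log 2))
    linarith
  have hx : 0 < ε * Real.log 2 := by positivity
  have h4 : ((k : ℝ) + 1) ≤ (1 + 1 / (ε * Real.log 2)) * (1 + k * (ε * Real.log 2)) := by
    have : (1 + 1 / (ε * Real.log 2)) * (1 + k * (ε * Real.log 2))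
        = 1 + k * (ε * Real.log 2) + 1 / (ε * Real.log 2) + k := by
      field_simp
      ring
    rw [this]
    have : 0 ≤ (k : ℝ) * (ε * Real.log 2) := by positivity
    have : 0 ≤ 1 / (ε * Real.log 2) := by positivity
    linarith
  push_cast
  refine h4.trans ?_
  gcongr

theorem dir_thm : DIRStmt := by
  classical
  intro ε hε
  obtain ⟨C, hC1, hC⟩ := dir_roots hε 8
  have hL : 0 < Real.log 2 := Real.log_pos (by norm_num)
  set D : ℝ := 1 + 1 / (ε * Real.log 2) with hD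
  have hD1 : 1 ≤ D := by
    have : 0 ≤ 1 / (ε * Real.log 2) := by positivity
    linarith
  refine ⟨C * D * 4, by nlinarith [mul_le_mul hC1 hD1 (by norm_num) (by linarith)], ?_⟩
  intro j m c P Q S hj1 hj8 hm hcm hP hQ hS
  have hm' : (0 : ℝ) < m := by exact_mod_cast hm
  set R := (Finset.range m).filter (fun x => x ^ j ≡ c [MOD m]) with hR
  set T := R ×ˢ Finset.range (Nat.log 2 ⌊Q⌋₊ + 1) with hT
  have hmap : ∀ s ∈ S, (dir_cls m s, Nat.log 2 s.2) ∈ T := by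
    intro s hs
    obtain ⟨h1, h2, h3, h4, h5, h6, h7, h8⟩ := hS s hs
    rw [hT, Finset.mem_product]
    refine ⟨dir_cls_mem hm h7 h8, ?_⟩
    rw [Finset.mem_range]
    have : Nat.log 2 s.2 ≤ Nat.log 2 ⌊Q⌋₊ := Nat.log_mono_right (Nat.le_floor h4)
    simp only
    omega
  have hcard := Finset.card_eq_sum_card_fiberwise hmap
  have hB : ∀ t ∈ T, ((S.filter (fun s => (dir_cls m s, Nat.log 2 s.2) = t)).card : ℝ)
      ≤ 4 * (1 + P * Q / m) := by
    intro t _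
    apply dir_fiber (k := t.2) hm hP hQ
    · intro s hs
      rw [Finset.mem_filter] at hs
      obtain ⟨h1, h2, h3, h4, h5, h6, h7, h8⟩ := hS s hs.1
      have ht2 : Nat.log 2 s.2 = t.2 := by rw [← hs.2]
      refine ⟨h1, h2, h3, h4, h5, h7, ?_, ?_⟩
      · rw [← ht2]; exact Nat.pow_log_le_self 2 h2.ne'
      · rw [← ht2]; exact Nat.lt_pow_succ_log_self (by norm_num) _
    · intro s hs s' hs'
      rw [Finset.mem_filter] at hs hs'
      have e1 : dir_cls m s = t.1 := by rw [← hs.2]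
      have e2 : dir_cls m s' = t.1 := by rw [← hs'.2]
      rw [e1, e2]
  have h1 : (S.card : ℝ) ≤ (T.card : ℝ) * (4 * (1 + P * Q / m)) := by
    rw [hcard]
    push_cast
    refine (Finset.sum_le_sum hB).trans ?_
    rw [Finset.sum_const, nsmul_eq_mul]
  have h2 : (T.card : ℝ) ≤ (C * (m : ℝ) ^ ε) * (D * Q ^ ε) := by
    rw [hT, Finset.card_product, Finset.card_range]
    rw [Nat.cast_mul]
    exact mul_le_mul (hC j hj1 hj8 m c hm hcm) (dir_log hε hQ) (by positivity) (by positivity)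
  have h3 : (m : ℝ) ^ ε * Q ^ ε ≤ ((m : ℝ) * P * Q) ^ ε := by
    rw [← Real.mul_rpow (by positivity) (by positivity)]
    apply Real.rpow_le_rpow (by positivity) _ hε.le
    have : (m : ℝ) * 1 ≤ m * P := by gcongr
    nlinarith
  have hpos : 0 ≤ 1 + P * Q / m := by positivity
  calc (S.card : ℝ) ≤ (T.card : ℝ) * (4 * (1 + P * Q / m)) := h1
    _ ≤ ((C * (m : ℝ) ^ ε) * (D * Q ^ ε)) * (4 * (1 + P * Q / m)) := by gcongr
    _ = (C * D * 4) * ((m : ℝ) ^ ε * Q ^ ε) * (1 + P * Q / m) := by ring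
    _ ≤ (C * D * 4) * ((m : ℝ) * P * Q) ^ ε * (1 + P * Q / m) := by gcongr

end Pool.Agent.Helper21.EN
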