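import Mathlib

set_option autoImplicit false

/-!
# Entries of exceptional abc triples: definitions (project EN, MP_4ab349_nt)

Vectors are indexed by `Fin 9`; the index is also the exponent (index `0` is a dummy).
-/

namespace Pool.Agent.Helper21.EN

open Finset

/-- Vectors of nine natural numbers. -/
abbrev Vec := Fin 9 → ℕ

/-- The vectors with `1 ≤ a i ≤ T i`. -/
noncomputable def vbox (T : Fin 9 → ℝ) : Finset Vec :=
  Fintype.piFinset (fun i => Finset.Icc 1 ⌊T i⌋₊)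

/-- The monomial `∏ a_i ^ i`. -/
def mon (a : Vec) : ℕ := ∏ i, a i ^ (i : ℕ)

open scoped Classical in
/-- The solutions of `∏ a_i ^ i ≡ ∏ b_i ^ i` modulo `M`, `a_i, b_i ≤ T_i` coprime, all coprime
to `M`. -/
noncomputable def Sol (M : ℕ) (T : Fin 9 → ℝ) : Finset (Vec × Vec) :=
  (vbox T ×ˢ vbox T).filter (fun z => (∀ i, Nat.Coprime (z.1 i) (z.2 i)) ∧
    (∀ i, Nat.Coprime (z.1 i) M) ∧ (∀ i, Nat.Coprime (z.2 i) M) ∧ mon z.1 ≡ mon z.2 [MOD M])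

/-- The number of solutions. -/
noncomputable def NN (M : ℕ) (T : Fin 9 → ℝ) : ℝ := ((Sol M T).card : ℝ)

/-- Height of the `i`-th fraction. -/
def ht (z : Vec × Vec) (i : Fin 9) : ℝ := ((max (z.1 i) (z.2 i) : ℕ) : ℝ)

open scoped Classical in
/-- Pairs of vectors `(x, y)`, `x_i ≤ P_i`, `y_i ≤ Q_i`, coprime to `M`. -/
noncomputable def GBox (M : ℕ) (P Q : Fin 9 → ℝ) : Finset (Vec × Vec) :=
  (vbox P ×ˢ vbox Q).filter (fun z => (∀ i, Nat.Coprime (z.1 i) M) ∧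
    (∀ i, Nat.Coprime (z.2 i) M))

/-- The reduced forms of the fractions `x_i y'_i / (x'_i y_i)`. -/
def redv (z z' : Vec × Vec) : Vec × Vec :=
  (fun i => z.1 i * z'.2 i / Nat.gcd (z.1 i * z'.2 i) (z'.1 i * z.2 i),
   fun i => z'.1 i * z.2 i / Nat.gcd (z.1 i * z'.2 i) (z'.1 i * z.2 i))

/-- `z` and `z'` have the same value modulo `M`. -/
def SameVal (M : ℕ) (z z' : Vec × Vec) : Prop :=
  mon z.1 * mon z'.2 ≡ mon z'.1 * mon z.2 [MOD M]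

/-- Sizes of the first and second components of the group `G` for a splitting `c`. -/
noncomputable def gP (T : Fin 9 → ℝ) (c : Fin 9 → ℕ) : Fin 9 → ℝ :=
  fun i => if 1 ≤ c i then T i else 1

/-- See `gP`. -/
noncomputable def gQ (T : Fin 9 → ℝ) (c : Fin 9 → ℕ) : Fin 9 → ℝ :=
  fun i => if c i = 2 then T i else 1

open scoped Classical in
/-- Far pairs of the group `G`: same value, coprime coordinates, some height at least `T0`. -/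
noncomputable def Far (M : ℕ) (T : Fin 9 → ℝ) (c : Fin 9 → ℕ) (T0 : ℝ) :
    Finset ((Vec × Vec) × (Vec × Vec)) :=
  (GBox M (gP T c) (gQ T c) ×ˢ GBox M (gP T c) (gQ T c)).filter (fun zz =>
    (∀ i, Nat.Coprime (zz.1.1 i) (zz.1.2 i)) ∧ (∀ i, Nat.Coprime (zz.2.1 i) (zz.2.2 i)) ∧
    SameVal M zz.1 zz.2 ∧ ∃ i, T0 ≤ ht (redv zz.1 zz.2) i)

/-- The relation of the curve: `neg = false`: `n ^ e ≡ κ R ^ f`; `neg = true`:
`n ^ e R ^ f ≡ κ` modulo `w ^ 3`. -/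
def Rel (neg : Bool) (e f κ w n R : ℕ) : Prop :=
  if neg then n ^ e * R ^ f ≡ κ [MOD w ^ 3] else n ^ e ≡ κ * R ^ f [MOD w ^ 3]

/-- The number which has to be coprime to `w`. -/
def bad (neg : Bool) (e f : ℕ) : ℕ :=
  2 * e * f * (if neg then e + f else max e f - min e f)

open scoped Classical in
/-- Two exponents: `(a, b, x, y)`, `a, b ≤ V`, `x, y ≤ V'`, with `a ^ e x ^ f ≡ b ^ e y ^ f`
modulo `w ^ 3`. -/
noncomputable def Two (e f w : ℕ) (V V' : ℝ) : Finset ((ℕ × ℕ) × (ℕ × ℕ)) :=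
  (((Finset.Icc 1 ⌊V⌋₊) ×ˢ (Finset.Icc 1 ⌊V⌋₊)) ×ˢ
    ((Finset.Icc 1 ⌊V'⌋₊) ×ˢ (Finset.Icc 1 ⌊V'⌋₊))).filter (fun z =>
      Nat.Coprime z.1.1 z.1.2 ∧ Nat.Coprime z.2.1 z.2.2 ∧
      Nat.Coprime z.1.1 w ∧ Nat.Coprime z.1.2 w ∧ Nat.Coprime z.2.1 w ∧ Nat.Coprime z.2.2 w ∧
      z.1.1 ^ e * z.2.1 ^ f ≡ z.1.2 ^ e * z.2.2 ^ f [MOD w ^ 3])

/-- `κ` bounds the divisor function, the numbers of roots and the pair counts modulo `w ^ 3`. -/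
structure Kap (w : ℕ) (κ : ℝ) : Prop where
  one : 1 ≤ κ
  div : ∀ n : ℕ, 0 < n → n ≤ w ^ 40 → (n.divisors.card : ℝ) ≤ κ
  roots : ∀ j : ℕ, 1 ≤ j → j ≤ 8 → ∀ m : ℕ, 0 < m → m ≤ w ^ 3 → ∀ a : ℕ, Nat.Coprime a m →
    (((Finset.range m).filter (fun x => x ^ j ≡ a [MOD m])).card : ℝ) ≤ κ
  dir : ∀ j : ℕ, 1 ≤ j → j ≤ 8 → ∀ c : ℕ, Nat.Coprime c w → ∀ P Q : ℝ, 1 ≤ P → 1 ≤ Q →
    P ≤ (w : ℝ) ^ 12 → Q ≤ (w : ℝ) ^ 12 → ∀ S : Finset (ℕ × ℕ),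
    (∀ s ∈ S, 0 < s.1 ∧ 0 < s.2 ∧ (s.1 : ℝ) ≤ P ∧ (s.2 : ℝ) ≤ Q ∧ Nat.Coprime s.1 s.2 ∧
      Nat.Coprime s.1 w ∧ Nat.Coprime s.2 w ∧ s.1 ^ j ≡ c * s.2 ^ j [MOD w ^ 3]) →
    (S.card : ℝ) ≤ κ * (1 + P * Q / (w : ℝ) ^ 3)

/-! ### Parts of an integer -/

/-- The radical. -/
def rad (n : ℕ) : ℕ := ∏ p ∈ n.primeFactors, p

/-- The product of the primes of exponent exactly `i`. -/
def pc (i n : ℕ) : ℕ := ∏ p ∈ n.primeFactors.filter (fun p => n.factorization p = i), p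

/-- The cubefull part. -/
def cf (n : ℕ) : ℕ :=
  ∏ p ∈ n.primeFactors.filter (fun p => 3 ≤ n.factorization p), p ^ n.factorization p

/-- A coprime triple, one entry being the sum of the two others. -/
structure Tri (X p q r : ℕ) : Prop where
  hp : 0 < p
  hq : 0 < q
  hr : 0 < r
  pq : Nat.Coprime p q
  pr : Nat.Coprime p r
  qr : Nat.Coprime q r
  pX : p ≤ X
  qX : q ≤ X
  rX : r ≤ X
  rel : p + q = r ∨ q + r = p ∨ p + r = q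

end Pool.Agent.Helper21.EN
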