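import Pool.Agent.Helper21.EN.FStmts
import Pool.Agent.Helper21.EN.Dec

set_option autoImplicit false

/-!
# Project EN, final piece FL1

The statement is in EN/FStmts. Paper: /team-store/EN_paper.md, section 8.

Proof. h1 with eps = h, MM = TT.image (Mf r), TT' = image of TT under t -> (p, q, Mf r); |TT| <= 2 |TT'| (given (p,q) there are at most two r: p+q and |p-q|). P = min (X^(a_i+h)) X, Q = min (X^(b_i+h)) X, R = X^(u+v+2h-(a_i+b_i)) >= 1, M0 = X^cM. rad p rad q <= X^(u+v+2h) and pc i p pc i q >= X^(a_i+b_i). i as a natural number is in Icc 1 1000 (InC.a, InC.b).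
M = Mf r divides r: 1 <= M <= X, coprime to p and q, and M | p + q or M | p - q by Tri.rel. P Q/M0 <= X^(a_i+b_i+2h-cM).
-/

namespace Pool.Agent.Helper21.EN

open Finset

theorem fl1_thm (h1 : L1Stmt) : FL1Stmt := by
  classical
  intro h θ i Mf sM cM C1 hh hi hnn ha hb hcM
  obtain ⟨C0, hC0, h1⟩ := h1 h hh
  refine ⟨2 * C0 * |C1|, ?_⟩
  intro X TT hX hCT hMf hcard
  have hX1 : (1 : ℝ) ≤ X := by exact_mod_cast (by omega : 1 ≤ X)
  have hX0 : (0 : ℝ) < X := by linarith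
  have hi1 : (i : ℕ) ∈ Finset.Icc 1 1000 := by
    rw [mem_Icc]
    have h0 : (i : ℕ) ≠ 0 := fun e => hi (Fin.ext e)
    have := i.isLt
    omega
  set f : ℕ × ℕ × ℕ → ℕ × ℕ × ℕ := fun t => (t.1, t.2.1, Mf t.2.2) with hf
  set MM := TT.image (fun t => Mf t.2.2) with hMM
  set x : ℝ := (X : ℝ) with hx
  have hP1 : 1 ≤ min (x ^ (θ.a i + h)) x :=
    le_min (Real.one_le_rpow hX1 (by have := hnn.a i; linarith)) hX1
  have hQ1 : 1 ≤ min (x ^ (θ.b i + h)) x :=
    le_min (Real.one_le_rpow hX1 (by have := hnn.b i; linarith)) hX1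
  have hR1 : 1 ≤ x ^ (θ.u + θ.v + 2 * h - (θ.a i + θ.b i)) :=
    Real.one_le_rpow hX1 (by linarith)
  have key := h1 X i (min (x ^ (θ.a i + h)) x) (min (x ^ (θ.b i + h)) x)
    (x ^ (θ.u + θ.v + 2 * h - (θ.a i + θ.b i))) (x ^ cM) MM (TT.image f) hX hi hP1
    (min_le_right _ _) hQ1 (min_le_right _ _) hR1 (Real.rpow_pos_of_pos hX0 _)
    (fun M hM => by
      rw [hMM, mem_image] at hM
      obtain ⟨t, ht, rfl⟩ := hM
      obtain ⟨m1, m2⟩ := hMf t ht
      have tri := (hCT.mem t ht).tri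
      exact ⟨Nat.pos_of_dvd_of_pos m1 tri.hr, (Nat.le_of_dvd tri.hr m1).trans tri.rX, m2⟩)
    (fun z hz => by
      rw [mem_image] at hz
      obtain ⟨t, ht, rfl⟩ := hz
      obtain ⟨m1, m2⟩ := hMf t ht
      have hin := hCT.mem t ht
      have tri := hin.tri
      have ea := hin.a i hi1
      have eb := hin.b i hi1
      refine ⟨tri.hp, tri.pX, tri.hq, tri.qX, mem_image_of_mem _ ht, tri.pq,
        Nat.Coprime.coprime_dvd_right m1 tri.pr, Nat.Coprime.coprime_dvd_right m1 tri.qr,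
        ?_, ?_, ?_, ?_⟩
      · have m3 : ((Mf t.2.2 : ℕ) : ℤ) ∣ (t.2.2 : ℤ) := by exact_mod_cast m1
        change ((Mf t.2.2 : ℕ) : ℤ) ∣ (t.1 : ℤ) - t.2.1 ∨ ((Mf t.2.2 : ℕ) : ℤ) ∣ (t.1 : ℤ) + t.2.1
        rcases tri.rel with e | e | e
        · right
          have : (t.1 : ℤ) + t.2.1 = t.2.2 := by exact_mod_cast e
          rw [this]; exact m3
        · left
          have : (t.1 : ℤ) - t.2.1 = t.2.2 := by
            have e' : (t.2.1 : ℤ) + t.2.2 = t.1 := by exact_mod_cast e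
            linarith
          rw [this]; exact m3
        · left
          have : (t.1 : ℤ) - t.2.1 = -t.2.2 := by
            have e' : (t.1 : ℤ) + t.2.2 = t.2.1 := by exact_mod_cast e
            linarith
          rw [this]; exact (dvd_neg).2 m3
      · have q1 : pc i t.1 ≤ X := (pc_le tri.hp).trans tri.pX
        have q2 : ((pc i t.1 : ℕ) : ℝ) ≤ (X : ℝ) := Nat.cast_le.2 q1
        exact le_min ea.2 q2
      · have q1 : pc i t.2.1 ≤ X := (pc_le tri.hq).trans tri.qX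
        have q2 : ((pc i t.2.1 : ℕ) : ℝ) ≤ (X : ℝ) := Nat.cast_le.2 q1
        exact le_min eb.2 q2
      · have e1 : (rad t.1 : ℝ) * rad t.2.1 ≤ x ^ (θ.u + h) * x ^ (θ.v + h) :=
          mul_le_mul hin.u.2 hin.v.2 (Nat.cast_nonneg _) (Real.rpow_nonneg hX0.le _)
        have e2 : x ^ (θ.u + h) * x ^ (θ.v + h) =
            x ^ (θ.u + θ.v + 2 * h - (θ.a i + θ.b i)) * x ^ (θ.a i) * x ^ (θ.b i) := by
          rw [← Real.rpow_add hX0, ← Real.rpow_add hX0, ← Real.rpow_add hX0]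
          congr 1
          ring
        refine e1.trans (e2.le.trans ?_)
        refine mul_le_mul (mul_le_mul_of_nonneg_left ea.1 (Real.rpow_nonneg hX0.le _)) eb.1
          (Real.rpow_nonneg hX0.le _) ?_
        exact mul_nonneg (Real.rpow_nonneg hX0.le _) (Nat.cast_nonneg _))
  -- the fibres
  have hfib : TT.card ≤ 2 * (TT.image f).card := by
    refine card_le_mul_card_image _ _ fun z hz => ?_
    refine le_trans (card_le_card (t := {(z.1, z.2.1, z.1 + z.2.1),
      (z.1, z.2.1, (z.1 - z.2.1) + (z.2.1 - z.1))}) ?_) card_le_two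
    intro t ht
    rw [mem_filter] at ht
    obtain ⟨ht1, rfl⟩ := ht
    have tri := (hCT.mem t ht1).tri
    rw [mem_insert, mem_singleton]
    rcases tri.rel with e | e | e
    · left
      exact Prod.ext rfl (Prod.ext rfl e.symm)
    · right
      refine Prod.ext rfl (Prod.ext rfl ?_)
      change t.2.2 = (t.1 - t.2.1) + (t.2.1 - t.1)
      omega
    · right
      refine Prod.ext rfl (Prod.ext rfl ?_)
      change t.2.2 = (t.1 - t.2.1) + (t.2.1 - t.1)
      omega
  have hfib' : (TT.card : ℝ) ≤ 2 * ((TT.image f).card : ℝ) := by exact_mod_cast hfib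
  have hMMc : (MM.card : ℝ) ≤ |C1| * x ^ sM :=
    hcard.trans (mul_le_mul_of_nonneg_right (le_abs_self _) (Real.rpow_nonneg hX0.le _))
  set R := x ^ (θ.u + θ.v + 2 * h - (θ.a i + θ.b i)) with hR
  have hPQ : min (x ^ (θ.a i + h)) x * min (x ^ (θ.b i + h)) x / x ^ cM ≤
      x ^ (θ.a i + θ.b i + 2 * h - cM) := by
    have e1 : min (x ^ (θ.a i + h)) x * min (x ^ (θ.b i + h)) x ≤
        x ^ (θ.a i + h) * x ^ (θ.b i + h) :=
      mul_le_mul (min_le_left _ _) (min_le_left _ _) (by linarith) (Real.rpow_nonneg hX0.le _)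
    have e2 : x ^ (θ.a i + θ.b i + 2 * h - cM) = x ^ (θ.a i + h) * x ^ (θ.b i + h) / x ^ cM := by
      rw [← Real.rpow_add hX0, ← Real.rpow_sub hX0]
      congr 1
      ring
    rw [e2]
    exact div_le_div_of_nonneg_right e1 (Real.rpow_nonneg hX0.le _)
  have hR0 : 0 ≤ R := by linarith
  have hxh : 0 ≤ x ^ h := Real.rpow_nonneg hX0.le _
  have e3 : x ^ h * (MM.card * R * (1 + min (x ^ (θ.a i + h)) x * min (x ^ (θ.b i + h)) x /
      x ^ cM)) ≤ x ^ h * (|C1| * x ^ sM * R * (1 + x ^ (θ.a i + θ.b i + 2 * h - cM))) := by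
    refine mul_le_mul_of_nonneg_left ?_ hxh
    refine mul_le_mul (mul_le_mul_of_nonneg_right hMMc hR0) (by linarith) ?_ ?_
    · have : 0 ≤ min (x ^ (θ.a i + h)) x * min (x ^ (θ.b i + h)) x / x ^ cM :=
        div_nonneg (mul_nonneg (by linarith) (by linarith)) (Real.rpow_nonneg hX0.le _)
      linarith
    · exact mul_nonneg (mul_nonneg (abs_nonneg _) (Real.rpow_nonneg hX0.le _)) hR0
  have e4 : x ^ h * (|C1| * x ^ sM * R * (1 + x ^ (θ.a i + θ.b i + 2 * h - cM))) =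
      |C1| * (x ^ (sM + θ.u + θ.v - (θ.a i + θ.b i) + 3 * h) +
      x ^ (sM + θ.u + θ.v - cM + 5 * h)) := by
    have a1 : x ^ h * x ^ sM * R = x ^ (sM + θ.u + θ.v - (θ.a i + θ.b i) + 3 * h) := by
      rw [hR, ← Real.rpow_add hX0, ← Real.rpow_add hX0]
      congr 1
      ring
    have a2 : x ^ (sM + θ.u + θ.v - (θ.a i + θ.b i) + 3 * h) *
        x ^ (θ.a i + θ.b i + 2 * h - cM) = x ^ (sM + θ.u + θ.v - cM + 5 * h) := by
      rw [← Real.rpow_add hX0]
      congr 1
      ring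
    calc _ = |C1| * ((x ^ h * x ^ sM * R) +
          (x ^ h * x ^ sM * R) * x ^ (θ.a i + θ.b i + 2 * h - cM)) := by ring
      _ = _ := by rw [a1, a2]
  have hC0' : 0 ≤ C0 := by linarith
  calc (TT.card : ℝ) ≤ 2 * ((TT.image f).card : ℝ) := hfib'
    _ ≤ 2 * (C0 * x ^ h * (MM.card * R * (1 + min (x ^ (θ.a i + h)) x *
        min (x ^ (θ.b i + h)) x / x ^ cM))) := by linarith
    _ = 2 * C0 * (x ^ h * (MM.card * R * (1 + min (x ^ (θ.a i + h)) x *
        min (x ^ (θ.b i + h)) x / x ^ cM))) := by ring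
    _ ≤ 2 * C0 * (x ^ h * (|C1| * x ^ sM * R * (1 + x ^ (θ.a i + θ.b i + 2 * h - cM)))) :=
        mul_le_mul_of_nonneg_left e3 (by positivity)
    _ = _ := by rw [e4]; ring

end Pool.Agent.Helper21.EN
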