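import Pool.Agent.Helper21.EN.Stmts

set_option autoImplicit false

/-!
# Final assembly of project EN: classes of triples and statements of the final pieces

All exponents are logarithms in base `X`. `h` is the mesh and also the loss in the radical.
-/

namespace Pool.Agent.Helper21.EN

open Finset

/-- Exponents of a class of triples `(p, q, r)`: `a e` for the class `e` of `p`, `b e` for the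
class `e` of `q`, `u` for `rad p`, `v` for `rad q`, `ρ` for `r`, `R` for `rad r`, `r1`, `r2` for
the classes 1, 2 of `r`, `s` for the radical of the cubefull part of `r`, `c` for the cubefull
part of `r`, `w` for the class 3 of `r`. -/
structure Ex where
  a : ℕ → ℝ
  b : ℕ → ℝ
  u : ℝ
  v : ℝ
  ρ : ℝ
  R : ℝ
  r1 : ℝ
  r2 : ℝ
  s : ℝ
  c : ℝ
  w : ℝ

/-- `n` is between `X ^ α` and `X ^ (α + h)`. -/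
def Bet (X : ℕ) (h α : ℝ) (n : ℕ) : Prop := (X : ℝ) ^ α ≤ n ∧ (n : ℝ) ≤ (X : ℝ) ^ (α + h)

/-- The triple `t = (p, q, r)` lies in the class `θ`. -/
structure InC (X : ℕ) (h : ℝ) (θ : Ex) (t : ℕ × ℕ × ℕ) : Prop where
  tri : Tri X t.1 t.2.1 t.2.2
  a : ∀ e ∈ Finset.Icc 1 1000, Bet X h (θ.a e) (pc e t.1)
  b : ∀ e ∈ Finset.Icc 1 1000, Bet X h (θ.b e) (pc e t.2.1)
  u : Bet X h θ.u (rad t.1)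
  v : Bet X h θ.v (rad t.2.1)
  ρ : Bet X h θ.ρ t.2.2
  R : Bet X h θ.R (rad t.2.2)
  r1 : Bet X h θ.r1 (pc 1 t.2.2)
  r2 : Bet X h θ.r2 (pc 2 t.2.2)
  s : Bet X h θ.s (rad (cf t.2.2))
  c : Bet X h θ.c (cf t.2.2)
  w : Bet X h θ.w (pc 3 t.2.2)

/-- All exponents are nonnegative. -/
structure Ex.Nn (θ : Ex) : Prop where
  a : ∀ e, 0 ≤ θ.a e
  b : ∀ e, 0 ≤ θ.b e
  u : 0 ≤ θ.u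
  v : 0 ≤ θ.v
  ρ : 0 ≤ θ.ρ
  R : 0 ≤ θ.R
  r1 : 0 ≤ θ.r1
  r2 : 0 ≤ θ.r2
  s : 0 ≤ θ.s
  c : 0 ≤ θ.c
  w : 0 ≤ θ.w

/-- The other order of `p` and `q`. -/
def Ex.swap (θ : Ex) : Ex := { θ with a := θ.b, b := θ.a, u := θ.v, v := θ.u }

/-- A set of exceptional triples of the class `θ` with different entries `r`. -/
structure CT (h : ℝ) (θ : Ex) (X : ℕ) (TT : Finset (ℕ × ℕ × ℕ)) : Prop where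
  mem : ∀ t ∈ TT, InC X h θ t
  rad : ∀ t ∈ TT, (rad t.1 : ℝ) * rad t.2.1 * rad t.2.2 ≤ (X : ℝ) ^ (1 + h)
  big : ∀ t ∈ TT, X < 2 * t.1 ∨ X < 2 * t.2.1 ∨ X < 2 * t.2.2
  inj : ∀ t ∈ TT, ∀ t' ∈ TT, t.2.2 = t'.2.2 → t = t'

/-- The number of exceptional entries of the class `θ` is small. -/
def Small (h : ℝ) (θ : Ex) : Prop := ∃ C : ℝ, ∀ (X : ℕ) (TT : Finset (ℕ × ℕ × ℕ)), 2 ≤ X →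
  CT h θ X TT → (TT.card : ℝ) ≤ C * (X : ℝ) ^ (1 / 2 - h)

/-- Linear relations between the exponents of a class which contains a triple. -/
structure Con0 (h : ℝ) (θ : Ex) : Prop where
  asum : ∑ e ∈ Finset.Icc (1 : ℕ) 1000, (e : ℝ) * θ.a e ≤ 1
  bsum : ∑ e ∈ Finset.Icc (1 : ℕ) 1000, (e : ℝ) * θ.b e ≤ 1
  arad : ∑ e ∈ Finset.Icc (1 : ℕ) 1000, θ.a e ≤ θ.u + h
  brad : ∑ e ∈ Finset.Icc (1 : ℕ) 1000, θ.b e ≤ θ.v + h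
  au : 1001 * θ.u ≤ 1 + ∑ e ∈ Finset.Icc (1 : ℕ) 1000, (1001 - (e : ℝ)) * (θ.a e + h)
  bv : 1001 * θ.v ≤ 1 + ∑ e ∈ Finset.Icc (1 : ℕ) 1000, (1001 - (e : ℝ)) * (θ.b e + h)
  a9 : 9 * θ.u ≤ 1 + ∑ e ∈ Finset.Icc (1 : ℕ) 8, (9 - (e : ℝ)) * (θ.a e + h)
  b9 : 9 * θ.v ≤ 1 + ∑ e ∈ Finset.Icc (1 : ℕ) 8, (9 - (e : ℝ)) * (θ.b e + h)
  tot : θ.u + θ.v + θ.R ≤ 1 + h
  ρ1 : θ.ρ ≤ 1
  r_up : θ.r1 + 2 * θ.r2 + θ.c ≤ θ.ρ + h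
  r_lo : θ.ρ ≤ θ.r1 + 2 * θ.r2 + θ.c + 4 * h
  R_up : θ.r1 + θ.r2 + θ.s ≤ θ.R + h
  R_lo : θ.R ≤ θ.r1 + θ.r2 + θ.s + 3 * h
  s3 : 3 * θ.s ≤ θ.c + h
  ws : θ.w ≤ θ.s + h
  w4 : 4 * θ.R ≤ θ.ρ + 3 * θ.r1 + 2 * θ.r2 + θ.w + 7 * h

/-- The same, nonnegative exponents, and the trivial cases are excluded. -/
structure Con (h : ℝ) (θ : Ex) : Prop where
  nn : θ.Nn
  con : Con0 h θ
  Rbig : 1 / 2 - 4 * h < θ.R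
  Wbig : 1 / 2 - 4 * h < θ.u + θ.v

/-! ## Statements of the final pieces -/

/-- EN-FRAD: radicals and classes. -/
def FRADStmt : Prop :=
  (∀ n K : ℕ, 0 < n → rad n ^ (K + 1) ≤ n * ∏ e ∈ Finset.Icc 1 K, pc e n ^ (K + 1 - e)) ∧
  (∀ n : ℕ, 0 < n → n = pc 1 n * pc 2 n ^ 2 * cf n) ∧
  (∀ n : ℕ, 0 < n → rad n = pc 1 n * pc 2 n * rad (cf n)) ∧
  (∀ n : ℕ, 0 < n → rad (cf n) ^ 3 ≤ cf n) ∧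
  (∀ n : ℕ, 0 < n → pc 3 n ∣ rad (cf n)) ∧
  (∀ n : ℕ, 0 < n → cf n ∣ n) ∧
  (∀ n : ℕ, 0 < n → (rad n) ^ 4 ≤ n * (pc 1 n ^ 3 * pc 2 n ^ 2 * pc 3 n))

/-- EN-FMesh: finitely many classes. -/
def FMeshStmt : Prop := ∀ N : ℕ, 0 < N → ∃ (n : ℕ) (Θ : Fin n → Ex), (∀ k, (Θ k).Nn) ∧
  ∀ X : ℕ, 2 ≤ X → ∀ t : ℕ × ℕ × ℕ, Tri X t.1 t.2.1 t.2.2 → ∃ k, InC X (1 / (N : ℝ)) (Θ k) t

/-- EN-FCon, from FRADStmt. -/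
def FConStmt : Prop := ∀ (h : ℝ) (θ : Ex) (X : ℕ) (t : ℕ × ℕ × ℕ), 0 < h → 2 ≤ X →
  InC X h θ t → (rad t.1 : ℝ) * rad t.2.1 * rad t.2.2 ≤ (X : ℝ) ^ (1 + h) → Con0 h θ

/-- EN-FSel: the four largest classes. -/
def FSelStmt : Prop := ∀ c : Fin 9 → ℝ, (∀ i, 0 ≤ c i) → c 0 = 0 →
  245 / 100 ≤ ∑ i : Fin 9, (9 - ((i : ℕ) : ℝ)) * c i →
  ∃ i j k n : Fin 9, i ≠ 0 ∧ j ≠ 0 ∧ k ≠ 0 ∧ n ≠ 0 ∧ i ≠ j ∧ i ≠ k ∧ i ≠ n ∧ j ≠ k ∧ j ≠ n ∧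
    k ≠ n ∧ c j ≤ c i ∧ c k ≤ c j ∧ c n ≤ c k ∧ 27 / 100 ≤ c i + c j + c k + c n ∧
    6 / 100 ≤ c i

/-- EN-FTriv, from RPStmt: the trivial cases. -/
def FTrivStmt : Prop := ∀ (h : ℝ) (θ : Ex), 0 < h → h ≤ 1 / 100 → θ.Nn →
  (θ.R ≤ 1 / 2 - 4 * h ∨ θ.u + θ.v ≤ 1 / 2 - 4 * h) → Small h θ

/-- EN-FC1, from C1Stmt: `r` small. -/
def FC1Stmt : Prop := ∀ (m h : ℝ) (θ : Ex), 0 < m → m ≤ 1 / 10 ^ 8 → 0 < h →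
  h ≤ m / 10 ^ 6 → Con h θ → θ.ρ ≤ 1 - m / 10 → Small h θ

/-- EN-FC2, from C2aStmt, C2pStmt, C2sStmt: `r` almost a square. -/
def FC2Stmt : Prop := ∀ (m h : ℝ) (θ : Ex), 0 < m → m ≤ 1 / 10 ^ 8 → 0 < h →
  h ≤ m / 10 ^ 6 → Con h θ → 1 - m / 10 < θ.ρ → 1 / 2 - 1 / 10 ^ 7 ≤ θ.r2 → Small h θ

/-- EN-FL1, from L1Stmt: one class. `Mf r` is a divisor of `r`. -/
def FL1Stmt : Prop := ∀ (h : ℝ) (θ : Ex) (i : Fin 9) (Mf : ℕ → ℕ) (sM cM C1 : ℝ), 0 < h →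
  i ≠ 0 → θ.Nn → θ.a i ≤ θ.u + h → θ.b i ≤ θ.v + h → 0 ≤ cM →
  ∃ C : ℝ, ∀ (X : ℕ) (TT : Finset (ℕ × ℕ × ℕ)), 2 ≤ X → CT h θ X TT →
    (∀ t ∈ TT, Mf t.2.2 ∣ t.2.2 ∧ (X : ℝ) ^ cM ≤ (Mf t.2.2 : ℝ)) →
    (((TT.image (fun t => Mf t.2.2)).card : ℝ) ≤ C1 * (X : ℝ) ^ sM) →
    (TT.card : ℝ) ≤ C * ((X : ℝ) ^ (sM + θ.u + θ.v - (θ.a i + θ.b i) + 3 * h) +
      (X : ℝ) ^ (sM + θ.u + θ.v - cM + 5 * h))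

/-- EN-FL0, from L0Stmt: several classes. `Sp`, `Sq` are the classes of `p`, `q` which are used,
`k` is the saving. -/
def FL0Stmt : Prop := ∀ (h : ℝ) (θ : Ex) (Sp Sq : Finset (Fin 9)) (Mf : ℕ → ℕ)
  (sM k C1 : ℝ), 0 < h → (0 : Fin 9) ∉ Sp → (0 : Fin 9) ∉ Sq → θ.Nn →
  ∑ i ∈ Sp, θ.a i ≤ θ.u + h → ∑ i ∈ Sq, θ.b i ≤ θ.v + h → 0 ≤ C1 →
  ∃ C : ℝ, ∀ (X : ℕ) (TT : Finset (ℕ × ℕ × ℕ)), 2 ≤ X → CT h θ X TT →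
    (∀ t ∈ TT, Mf t.2.2 ∣ t.2.2) →
    (((TT.image (fun t => Mf t.2.2)).card : ℝ) ≤ C1 * (X : ℝ) ^ sM) →
    (∀ t ∈ TT, ∀ U : Fin 9 → ℝ,
      (∀ i, 1 ≤ U i ∧ U i ≤ (X : ℝ) ^ ((if i ∈ Sp then θ.a i + h else 0) +
        (if i ∈ Sq then θ.b i + h else 0))) →
      (∃ i, (Mf t.2.2 : ℝ) ^ (1 / 36 : ℝ) ≤ U i) →
      NN (Mf t.2.2) U ≤ C1 * (X : ℝ) ^ (-k) * ∏ i, U i) →
    (TT.card : ℝ) ≤ C * (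
      (X : ℝ) ^ (sM + θ.u + θ.v - (∑ i ∈ Sp, θ.a i + ∑ i ∈ Sq, θ.b i) + 3 * h) +
      (X : ℝ) ^ (sM + (θ.u + θ.v - k) / 2 + 10 * h) +
      (X : ℝ) ^ (θ.u + θ.v + (sM - (∑ i ∈ Sp, θ.a i + ∑ i ∈ Sq, θ.b i) - k) / 2 + 11 * h))

/-- EN-FC3, from FL1Stmt, FL0Stmt, FSelStmt, Q2Stmt, Q3Stmt, Q4Stmt, RPStmt, FRADStmt. -/
def FC3Stmt : Prop := ∀ (m h : ℝ) (θ : Ex), 0 < m → m ≤ 1 / 10 ^ 8 → 0 < h →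
  h ≤ m / 10 ^ 6 → Con h θ → 1 - m / 10 < θ.ρ → θ.r2 < 1 / 2 - 1 / 10 ^ 7 →
  θ.s ≤ 1 / 4 - m / 100 → Small h θ

/-- EN-FSR: triples with an entry of very small radical, from `Pool.Agent.Helper1.SR.count_all`. -/
def FSRStmt : Prop := ∃ C : ℝ, ∀ (X : ℕ) (S : Finset (ℕ × ℕ)), 1 ≤ X →
  (∀ s ∈ S, 0 < s.1 ∧ 0 < s.2 ∧ Nat.Coprime s.1 s.2 ∧ s.1 + s.2 ≤ X ∧
    (rad (s.1 * s.2 * (s.1 + s.2)) : ℝ) ≤ ((s.1 + s.2 : ℕ) : ℝ) ^ (1001 / 1000 : ℝ) ∧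
    ((rad s.1 : ℝ) ≤ ((s.1 + s.2 : ℕ) : ℝ) ^ (1 / 100 : ℝ) ∨
      (rad s.2 : ℝ) ≤ ((s.1 + s.2 : ℕ) : ℝ) ^ (1 / 100 : ℝ) ∨
      (rad (s.1 + s.2) : ℝ) ≤ ((s.1 + s.2 : ℕ) : ℝ) ^ (1 / 100 : ℝ))) →
  (S.card : ℝ) ≤ C * (X : ℝ) ^ (45 / 100 : ℝ)

/-- EN-FC4s: case 4 with two classes near `1/4`, from FL0Stmt, N2Stmt, L2Stmt, FSRStmt. -/
def FC4sStmt : Prop := ∃ g : ℝ, 0 < g ∧ ∀ (m h : ℝ) (θ : Ex) (i j : Fin 9), 0 < m →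
  m ≤ 1 / 10 ^ 8 → 0 < h → h ≤ m / 10 ^ 6 → h ≤ g → Con h θ → 1 - m / 10 < θ.ρ →
  1 / 4 - m / 100 < θ.s → i ≠ 0 → j ≠ 0 → i ≠ j →
  θ.a i + θ.b i < 1 / 4 + m → θ.a j + θ.b j ≤ θ.a i + θ.b i →
  1 / 4 - 5 / 10 ^ 4 < θ.a j + θ.b j → Small h θ

/-- EN-FC4, from FL1Stmt, FL0Stmt, FSelStmt, N2Stmt, N3Stmt, N4Stmt, FRADStmt, FC4sStmt. -/
def FC4Stmt : Prop := ∃ m g : ℝ, 0 < m ∧ m ≤ 1 / 10 ^ 8 ∧ 0 < g ∧ g ≤ m / 10 ^ 6 ∧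
  ∀ (h : ℝ) (θ : Ex), 0 < h → h ≤ g → Con h θ → 1 - m / 10 < θ.ρ →
    1 / 4 - m / 100 < θ.s → Small h θ

/-- The entries `n` of exceptional triples `a + b = c ≤ X`. -/
def Entry (δ : ℝ) (X n : ℕ) : Prop := ∃ a b : ℕ, 0 < a ∧ 0 < b ∧ Nat.Coprime a b ∧
  a + b ≤ X ∧ ((∏ p ∈ (a * b * (a + b)).primeFactors, p : ℕ) : ℝ) ≤ ((a + b : ℕ) : ℝ) ^ (1 + δ) ∧
  (n = a ∨ n = b ∨ n = a + b)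

open scoped Classical in
/-- EN-FFin, from FMeshStmt, FConStmt, FTrivStmt, FC1Stmt, FC2Stmt, FC3Stmt, FC4Stmt. -/
def FFinStmt : Prop := ∃ δ C : ℝ, 0 < δ ∧ ∀ X : ℕ, 1 ≤ X →
  (((Finset.Icc 1 X).filter (fun n => Entry δ X n)).card : ℝ) ≤ C * (X : ℝ) ^ (1 / 2 - δ)

end Pool.Agent.Helper21.EN
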