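import Pool.Agent.Helper21.EN.Stmts
import Pool.Agent.Helper21.EN.Dec

set_option autoImplicit false

/-!
# Project EN, piece L2

The statement is in EN/Stmts.lean. Paper: /team-store/EN_paper.md.

Proof. Decomposition: EN/Dec.lean rest_mul_one, rad_rest_mul_one. For t = (p,q,w) fix w, the sign, and (Fp,Fq) = (rest {i} p, rest {j} q): rad Fp rad Fq <= R: at most C X^eps R pairs by hrp. Then (x,y) = (pc i p, pc j q), <= V <= w^(1+mu), coprime to w, Fp x^i = +- Fq y^j modulo w^3, ie x^i = c y^j modulo w^3 with a natural number c coprime to w: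
ht (e = i, f = j): <= C w^(3/4+2mu+eps) <= C X^((3/10)(3/4+2mu)+eps).
-/

namespace Pool.Agent.Helper21.EN

open Finset

theorem l2_inv {x M : ℕ} (hM : 1 ≤ M) (h : Nat.Coprime x M) :
    ∃ a, x * a ≡ 1 [MOD M] ∧ Nat.Coprime a M := by
  have key : ∃ a, x * a ≡ 1 [MOD M] := by
    rcases hM.eq_or_lt with h1 | h1
    · refine ⟨1, ?_⟩
      rw [← h1]
      exact Nat.modEq_one
    · obtain ⟨a, -, ha⟩ := Nat.exists_mul_mod_eq_one_of_coprime h h1
      refine ⟨a, ?_⟩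
      unfold Nat.ModEq
      rw [ha, Nat.mod_eq_of_lt h1]
  obtain ⟨a, ha⟩ := key
  refine ⟨a, ha, ?_⟩
  have h2 : Nat.gcd (x * a) M = Nat.gcd 1 M := ha.gcd_eq
  rw [Nat.gcd_one_left] at h2
  exact Nat.Coprime.coprime_mul_left h2

theorem l2_pred {M : ℕ} (hM : 1 ≤ M) : Nat.Coprime (M - 1) M := by
  have h : Nat.gcd (M - 1) M ∣ 1 := by
    have h1 := Nat.gcd_dvd_left (M - 1) M
    have h2 := Nat.gcd_dvd_right (M - 1) M
    have h3 := Nat.dvd_sub h2 h1
    have e : M - (M - 1) = 1 := by omega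
    rwa [e] at h3
  exact Nat.dvd_one.1 h

/-- the relation with a sign -/
theorem l2_sign {p q M : ℕ} (hM : 1 ≤ M)
    (h : (M : ℤ) ∣ (p : ℤ) - q ∨ (M : ℤ) ∣ (p : ℤ) + q) :
    p ≡ (if (M : ℤ) ∣ (p : ℤ) - q then 1 else M - 1) * q [MOD M] := by
  split_ifs with h1
  · rw [one_mul]
    exact ((Nat.modEq_iff_dvd).2 h1).symm
  · have h2 := h.resolve_left h1
    rw [Nat.modEq_iff_dvd]
    push_cast [hM]
    have e : ((M : ℤ) - 1) * q - p = M * q - (p + q) := by ring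
    rw [e]
    exact dvd_sub (dvd_mul_right _ _) h2

theorem l2_thm (ht : T1cStmt) (hrp : RPStmt) : L2Stmt := by
  classical
  intro ε hε
  obtain ⟨C1, hC1, h1⟩ := ht (ε / 2) (by positivity)
  obtain ⟨C2, hC2, h2⟩ := hrp (ε / 2) (by positivity)
  refine ⟨2 * C1 * C2, by nlinarith, ?_⟩
  intro X i j V R μ WW TT hX hi hj hij hμ0 hμ1 hV hR hWW hTT
  have hi1 : 1 ≤ (i : ℕ) := Nat.one_le_iff_ne_zero.2 fun h => hi (Fin.ext h)
  have hi8 : (i : ℕ) ≤ 8 := by have := i.2; omega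
  have hj1 : 1 ≤ (j : ℕ) := Nat.one_le_iff_ne_zero.2 fun h => hj (Fin.ext h)
  have hj8 : (j : ℕ) ≤ 8 := by have := j.2; omega
  have hij' : (i : ℕ) ≠ (j : ℕ) := fun h => hij (Fin.ext h)
  have hXr : (2 : ℝ) ≤ X := by exact_mod_cast hX
  have hX0 : (0 : ℝ) < X := by linarith
  have hX1 : (1 : ℝ) ≤ X := by linarith
  set FF : Finset (ℕ × ℕ) := TT.image (fun t => (rest {(i : ℕ)} t.1, rest {(j : ℕ)} t.2.1))
    with hFFdef
  have hFF : (FF.card : ℝ) ≤ C2 * (X : ℝ) ^ (ε / 2) * R := by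
    apply h2 X R FF (by omega) hR
    intro s hs
    rw [hFFdef, mem_image] at hs
    obtain ⟨t, ht, rfl⟩ := hs
    obtain ⟨a1, a2, a3, a4, -, -, -, -, -, -, -, a5⟩ := hTT t ht
    refine ⟨rest_pos _ _, (rest_le a1 _).trans a2, rest_pos _ _, (rest_le a3 _).trans a4, ?_⟩
    rw [rad_rest_mul_one i t.1, rad_rest_mul_one j t.2.1] at a5
    push_cast at a5
    have n1 : (0 : ℝ) < pc i t.1 := by exact_mod_cast pc_pos _ _
    have n2 : (0 : ℝ) < pc j t.2.1 := by exact_mod_cast pc_pos _ _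
    have n3 : (0 : ℝ) < (pc i t.1 : ℝ) * pc j t.2.1 := by positivity
    refine le_of_mul_le_mul_right ?_ n3
    calc (rad (rest {(i : ℕ)} t.1) : ℝ) * rad (rest {(j : ℕ)} t.2.1) *
          ((pc i t.1 : ℝ) * pc j t.2.1)
        = (rad (rest {(i : ℕ)} t.1) : ℝ) * pc i t.1 *
          ((rad (rest {(j : ℕ)} t.2.1) : ℝ) * pc j t.2.1) := by ring
      _ ≤ R * pc i t.1 * pc j t.2.1 := a5
      _ = _ := by ring
  set θ : ℝ := (3 / 10) * (3 / 4 + 2 * μ) with hθ
  set B : ℝ := C1 * ((X : ℝ) ^ (ε / 2) * (X : ℝ) ^ θ) with hB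
  have hB0 : 0 ≤ B := by positivity
  set φ : ℕ × ℕ × ℕ → ℕ × Bool × (ℕ × ℕ) := fun t =>
    (t.2.2, decide (((t.2.2 : ℤ) ^ 3) ∣ (t.1 : ℤ) - t.2.1),
      (rest {(i : ℕ)} t.1, rest {(j : ℕ)} t.2.1)) with hφ
  set TG : Finset (ℕ × Bool × (ℕ × ℕ)) := WW ×ˢ ((univ : Finset Bool) ×ˢ FF) with hTG
  have hmaps : ∀ t ∈ TT, φ t ∈ TG := by
    intro t ht
    rw [hTG, mem_product, mem_product]
    refine ⟨(hTT t ht).2.2.2.2.1, mem_univ _, ?_⟩
    rw [hFFdef]
    exact mem_image_of_mem _ ht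
  have hfib : ∀ b ∈ TG, ((TT.filter fun t => φ t = b).card : ℝ) ≤ B := by
    intro b _
    rcases (TT.filter fun t => φ t = b).eq_empty_or_nonempty with hem | ⟨t0, ht0⟩
    · rw [hem, card_empty]
      simpa using hB0
    set F := TT.filter fun t => φ t = b with hF
    rw [hF, mem_filter] at ht0
    obtain ⟨w, sg, x, y⟩ := b
    have hb : ∀ t ∈ F, t ∈ TT ∧ t.2.2 = w ∧
        decide (((t.2.2 : ℤ) ^ 3) ∣ (t.1 : ℤ) - t.2.1) = sg ∧
        rest {(i : ℕ)} t.1 = x ∧ rest {(j : ℕ)} t.2.1 = y := by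
      intro t ht
      rw [hF, mem_filter] at ht
      have h3 := ht.2
      simp only [hφ, Prod.mk.injEq] at h3
      exact ⟨ht.1, h3.1, h3.2.1, h3.2.2.1, h3.2.2.2⟩
    obtain ⟨-, hw, -, hx, hy⟩ := hb t0 (by rw [hF, mem_filter]; exact ht0)
    obtain ⟨a1, a2, a3, a4, a5, a6, a7, a8, -, -, -, -⟩ := hTT t0 ht0.1
    rw [hw] at a5 a7 a8
    obtain ⟨hw1, hwX, hwsq, hVw, hwX3⟩ := hWW w a5
    have hw31 : 1 ≤ w ^ 3 := Nat.one_le_pow _ _ hw1
    have hxw : Nat.Coprime x (w ^ 3) := by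
      rw [← hx]
      exact Nat.Coprime.pow_right 3 (Nat.Coprime.coprime_dvd_left (rest_dvd a1 _) a7)
    have hyw : Nat.Coprime y w := by
      rw [← hy]
      exact Nat.Coprime.coprime_dvd_left (rest_dvd a3 _) a8
    obtain ⟨a', ha', ha'M⟩ := l2_inv hw31 hxw
    have ha'w : Nat.Coprime a' w :=
      Nat.Coprime.coprime_dvd_right (dvd_pow_self w (by norm_num)) ha'M
    set σ : ℕ := if sg = true then 1 else w ^ 3 - 1 with hσ
    have hσw : Nat.Coprime σ w := by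
      rw [hσ]
      split_ifs
      · exact Nat.coprime_one_left w
      · exact Nat.Coprime.coprime_dvd_right (dvd_pow_self w (by norm_num)) (l2_pred hw31)
    set S : Finset (ℕ × ℕ) := F.image (fun t => (pc i t.1, pc j t.2.1)) with hS
    have hinj : Set.InjOn (fun t : ℕ × ℕ × ℕ => (pc i t.1, pc j t.2.1)) (F : Set (ℕ × ℕ × ℕ)) := by
      intro t ht t' ht' htt
      obtain ⟨b1, b2, -, b3, b4⟩ := hb t (by exact_mod_cast ht)
      obtain ⟨c1, c2, -, c3, c4⟩ := hb t' (by exact_mod_cast ht')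
      simp only [Prod.mk.injEq] at htt
      have e1 := rest_mul_one (hTT t b1).1 i
      have e2 := rest_mul_one (hTT t' c1).1 i
      have e3 := rest_mul_one (hTT t b1).2.2.1 j
      have e4 := rest_mul_one (hTT t' c1).2.2.1 j
      refine Prod.ext ?_ (Prod.ext ?_ ?_)
      · rw [e1, e2, b3, c3, htt.1]
      · rw [e3, e4, b4, c4, htt.2]
      · rw [b2, c2]
    have hcard : S.card = F.card := card_image_of_injOn hinj
    rw [← hcard]
    have h4 := h1 (i : ℕ) (j : ℕ) w (a' * (σ * y)) μ V S hi1 hi8 hj1 hj8 hij' hwsq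
      (Nat.Coprime.mul_left ha'w (Nat.Coprime.mul_left hσw hyw)) hμ0 hμ1 hVw (by
        intro s hs
        rw [hS, mem_image] at hs
        obtain ⟨t, ht, rfl⟩ := hs
        obtain ⟨b1, b2, b5, b3, b4⟩ := hb t ht
        obtain ⟨d1, d2, d3, d4, d5, d6, d7, d8, d9, d10, d11, -⟩ := hTT t b1
        rw [b2] at d7 d8 d9 b5
        refine ⟨pc_pos _ _, d10, pc_pos _ _, d11, ?_, ?_, ?_⟩
        · exact Nat.Coprime.coprime_dvd_left (pc_dvd _ _) d7
        · exact Nat.Coprime.coprime_dvd_left (pc_dvd _ _) d8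
        · have d9' : (((w ^ 3 : ℕ)) : ℤ) ∣ (t.1 : ℤ) - t.2.1 ∨
              (((w ^ 3 : ℕ)) : ℤ) ∣ (t.1 : ℤ) + t.2.1 := by
            push_cast
            exact d9
          have h5 := l2_sign hw31 d9'
          have e5 : (if (((w ^ 3 : ℕ)) : ℤ) ∣ (t.1 : ℤ) - t.2.1 then 1 else w ^ 3 - 1) = σ := by
            rw [hσ, ← b5]
            push_cast
            simp
          rw [e5] at h5
          have e1 := rest_mul_one d1 i
          have e3 := rest_mul_one d3 j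
          rw [b3] at e1
          rw [b4] at e3
          calc pc i t.1 ^ (i : ℕ) = 1 * pc i t.1 ^ (i : ℕ) := (one_mul _).symm
            _ ≡ (x * a') * pc i t.1 ^ (i : ℕ) [MOD w ^ 3] := (ha'.symm).mul_right _
            _ = a' * t.1 := by
              conv_rhs => rw [e1]
              ring
            _ ≡ a' * (σ * t.2.1) [MOD w ^ 3] := h5.mul_left _
            _ = a' * (σ * y) * pc j t.2.1 ^ (j : ℕ) := by
              conv_lhs => rw [e3]
              ring)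
    refine h4.trans ?_
    have hw0' : (0 : ℝ) < w := by exact_mod_cast hw1
    have hw1' : (1 : ℝ) ≤ w := by exact_mod_cast hw1
    have hwX' : (w : ℝ) ≤ X := by exact_mod_cast hwX
    rw [hB]
    have e6 : (w : ℝ) ^ (3 / 4 + 2 * μ + ε / 2) =
        (w : ℝ) ^ (ε / 2) * (w : ℝ) ^ (3 / 4 + 2 * μ) := by
      rw [← Real.rpow_add hw0']
      congr 1
      ring
    have e7 : (X : ℝ) ^ θ = ((X : ℝ) ^ (3 / 10 : ℝ)) ^ (3 / 4 + 2 * μ) := by
      rw [← Real.rpow_mul hX0.le]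
    rw [e6, e7]
    have g1 : (w : ℝ) ^ (ε / 2) ≤ (X : ℝ) ^ (ε / 2) :=
      Real.rpow_le_rpow hw0'.le hwX' (by positivity)
    have g2 : (w : ℝ) ^ (3 / 4 + 2 * μ) ≤ ((X : ℝ) ^ (3 / 10 : ℝ)) ^ (3 / 4 + 2 * μ) :=
      Real.rpow_le_rpow hw0'.le hwX3 (by positivity)
    gcongr
  have hsum : (TT.card : ℝ) ≤ TG.card * B := by
    rw [card_eq_sum_card_fiberwise hmaps]
    push_cast
    calc ∑ b ∈ TG, ((TT.filter fun t => φ t = b).card : ℝ) ≤ ∑ _b ∈ TG, B :=
          sum_le_sum fun b hb => hfib b hb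
      _ = TG.card * B := by rw [sum_const, nsmul_eq_mul]
  have hTGc : (TG.card : ℝ) = WW.card * (2 * FF.card) := by
    rw [hTG, card_product, card_product, card_univ, Fintype.card_bool]
    push_cast
    ring
  rw [hTGc] at hsum
  refine hsum.trans ?_
  have hXε : (X : ℝ) ^ ε = (X : ℝ) ^ (ε / 2) * (X : ℝ) ^ (ε / 2) := by
    rw [← Real.rpow_add hX0]
    congr 1
    ring
  rw [hXε, hB]
  calc (WW.card : ℝ) * (2 * FF.card) * (C1 * ((X : ℝ) ^ (ε / 2) * (X : ℝ) ^ θ))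
      ≤ WW.card * (2 * (C2 * (X : ℝ) ^ (ε / 2) * R)) *
        (C1 * ((X : ℝ) ^ (ε / 2) * (X : ℝ) ^ θ)) := by
        gcongr
    _ = _ := by ring

end Pool.Agent.Helper21.EN
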