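import Pool.Agent.Helper21.EN.Defs

set_option autoImplicit false

/-!
# Statements of the pieces of project EN (entries of exceptional abc triples)

Every piece is a `Prop`; a piece file proves `theorem xxx : XXXStmt` (possibly from other
`Stmt`s given as hypotheses, as written in the comment). Paper: /team-store/EN_paper.md.
-/

namespace Pool.Agent.Helper21.EN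

open Finset

/-! ## Basic tools -/

/-- EN-DIR (B4). Coprime pairs `(n, l)` with `n ^ j ≡ c l ^ j` modulo `m`. -/
def DIRStmt : Prop := ∀ ε : ℝ, 0 < ε → ∃ C : ℝ, 1 ≤ C ∧
  ∀ (j m c : ℕ) (P Q : ℝ) (S : Finset (ℕ × ℕ)), 1 ≤ j → j ≤ 8 → 0 < m → Nat.Coprime c m →
    1 ≤ P → 1 ≤ Q →
    (∀ s ∈ S, 0 < s.1 ∧ 0 < s.2 ∧ (s.1 : ℝ) ≤ P ∧ (s.2 : ℝ) ≤ Q ∧ Nat.Coprime s.1 s.2 ∧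
      Nat.Coprime s.1 m ∧ Nat.Coprime s.2 m ∧ s.1 ^ j ≡ c * s.2 ^ j [MOD m]) →
    (S.card : ℝ) ≤ C * ((m : ℝ) * P * Q) ^ ε * (1 + P * Q / m)

/-- EN-KAP: `Kap w (C w ^ ε)`. From DIRStmt, the divisor bound and the bound for roots. -/
def KAPStmt : Prop := ∀ ε : ℝ, 0 < ε → ∃ C : ℝ, 1 ≤ C ∧ ∀ w : ℕ, 0 < w →
  Kap w (C * (w : ℝ) ^ ε)

/-- EN-RP: pairs of integers with small product of radicals. -/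
def RPStmt : Prop := ∀ ε : ℝ, 0 < ε → ∃ C : ℝ, 1 ≤ C ∧
  ∀ (X : ℕ) (Y : ℝ) (S : Finset (ℕ × ℕ)), 1 ≤ X → 1 ≤ Y →
    (∀ s ∈ S, 0 < s.1 ∧ s.1 ≤ X ∧ 0 < s.2 ∧ s.2 ≤ X ∧ (rad s.1 : ℝ) * rad s.2 ≤ Y) →
    (S.card : ℝ) ≤ C * (X : ℝ) ^ ε * Y

/-! ## The recursion (section 2) -/

/-- EN-E1: energy and solutions. -/
def E1Stmt : Prop := ∀ ε : ℝ, 0 < ε → ∃ C : ℝ, 1 ≤ C ∧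
  ∀ (M : ℕ) (P Q : Fin 9 → ℝ) (pred : Vec × Vec → Prop)
    (S : Finset ((Vec × Vec) × (Vec × Vec))), 1 ≤ M → (∀ i, 1 ≤ P i) → (∀ i, 1 ≤ Q i) →
    (∀ s ∈ S, s.1 ∈ GBox M P Q ∧ s.2 ∈ GBox M P Q ∧ SameVal M s.1 s.2 ∧
      pred (redv s.1 s.2)) →
    ∀ S' : Finset (Vec × Vec), (∀ z ∈ Sol M (fun i => P i * Q i), pred z → z ∈ S') →
    (S.card : ℝ) ≤ C * (∏ i, P i * Q i) ^ ε * ∑ z ∈ S', ∏ i, (P i * Q i) / ht z i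

/-- EN-E2: dyadic decomposition of the heights. -/
def E2Stmt : Prop := ∀ ε : ℝ, 0 < ε → ∃ C : ℝ, 1 ≤ C ∧
  ∀ (M : ℕ) (B : Fin 9 → ℝ) (S' : Finset (Vec × Vec)) (K : ℝ), 1 ≤ M → (∀ i, 1 ≤ B i) →
    0 ≤ K → S' ⊆ Sol M B →
    (∀ z ∈ S', ∀ U : Fin 9 → ℝ, (∀ i, ht z i ≤ U i ∧ U i ≤ 2 * ht z i ∧ U i ≤ B i) →
      NN M U ≤ K * ∏ i, U i) →
    ∑ z ∈ S', ∏ i, B i / ht z i ≤ C * (∏ i, B i) ^ ε * K * ∏ i, B i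

/-- EN-RECG: the recursion with an explicit number of far pairs. From E1Stmt, E2Stmt. -/
def RECGStmt : Prop := ∀ ε : ℝ, 0 < ε → ∃ C : ℝ, 1 ≤ C ∧
  ∀ (M : ℕ) (T : Fin 9 → ℝ) (c : Fin 9 → ℕ) (T0 K1 : ℝ), 1 ≤ M → (∀ i, 1 ≤ T i) →
    (∀ i, c i ≤ 2) → 1 ≤ T0 → 0 ≤ K1 →
    (∀ U : Fin 9 → ℝ, (∀ i, 1 ≤ U i ∧ U i ≤ T i ^ (2 - c i)) → NN M U ≤ K1 * ∏ i, U i) →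
    NN M T ≤ C * (∏ i, T i) ^ ε * (T0 ^ 18 * ∏ i, T i ^ (2 - c i) +
      Real.sqrt (K1 * (∏ i, T i ^ (2 - c i)) * ((Far M T c T0).card : ℝ)))

/-- EN-REC: the recursion. From RECGStmt, E1Stmt, E2Stmt. -/
def RECStmt : Prop := ∀ ε : ℝ, 0 < ε → ∃ C : ℝ, 1 ≤ C ∧
  ∀ (M : ℕ) (T : Fin 9 → ℝ) (c : Fin 9 → ℕ) (T0 K1 K2 : ℝ), 1 ≤ M → (∀ i, 1 ≤ T i) →
    (∀ i, c i ≤ 2) → 1 ≤ T0 → 0 ≤ K1 → 0 ≤ K2 →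
    (∀ U : Fin 9 → ℝ, (∀ i, 1 ≤ U i ∧ U i ≤ T i ^ (2 - c i)) → NN M U ≤ K1 * ∏ i, U i) →
    (∀ U : Fin 9 → ℝ, (∀ i, 1 ≤ U i ∧ U i ≤ T i ^ (c i)) → (∃ i, T0 ≤ U i) →
      NN M U ≤ K2 * ∏ i, U i) →
    NN M T ≤ C * (∏ i, T i) ^ ε * (T0 ^ 18 * ∏ i, T i ^ (2 - c i) +
      Real.sqrt (K1 * K2) * ∏ i, T i)

/-- EN-REC0: the recursion without near pairs. From E1Stmt, E2Stmt. -/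
def REC0Stmt : Prop := ∀ ε : ℝ, 0 < ε → ∃ C : ℝ, 1 ≤ C ∧
  ∀ (M : ℕ) (T : Fin 9 → ℝ) (c : Fin 9 → ℕ) (K1 K2 : ℝ), 1 ≤ M → (∀ i, 1 ≤ T i) →
    (∀ i, c i ≤ 2) → 0 ≤ K1 → 0 ≤ K2 →
    (∀ U : Fin 9 → ℝ, (∀ i, 1 ≤ U i ∧ U i ≤ T i ^ (2 - c i)) → NN M U ≤ K1 * ∏ i, U i) →
    (∀ U : Fin 9 → ℝ, (∀ i, 1 ≤ U i ∧ U i ≤ T i ^ (c i)) → NN M U ≤ K2 * ∏ i, U i) →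
    NN M T ≤ C * (∏ i, T i) ^ ε * (Real.sqrt (K1 * K2) * ∏ i, T i)

/-! ## Square root bounds (section 3) -/

/-- EN-Q1, from DIRStmt. -/
def Q1Stmt : Prop := ∀ ε : ℝ, 0 < ε → ∃ C : ℝ, 1 ≤ C ∧
  ∀ (M : ℕ) (T : Fin 9 → ℝ) (i : Fin 9), 1 ≤ M → (∀ l, 1 ≤ T l) → i ≠ 0 →
    (∀ l, l ≠ i → T l = 1) →
    NN M T ≤ C * ((M : ℝ) * T i) ^ ε * (1 + T i ^ 2 / M)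

/-- EN-Q2, from DIRStmt. -/
def Q2Stmt : Prop := ∀ ε : ℝ, 0 < ε → ∃ C : ℝ, 1 ≤ C ∧
  ∀ (M : ℕ) (T : Fin 9 → ℝ) (i j : Fin 9), 1 ≤ M → (∀ l, 1 ≤ T l) → i ≠ 0 → j ≠ 0 → i ≠ j →
    (∀ l, l ≠ i → l ≠ j → T l = 1) →
    NN M T ≤ C * ((M : ℝ) * T i) ^ ε * (T j ^ 2 * (1 + T i ^ 2 / M))

/-- EN-Q3, from Q1Stmt, Q2Stmt, REC0Stmt. -/
def Q3Stmt : Prop := ∀ ε : ℝ, 0 < ε → ∃ C : ℝ, 1 ≤ C ∧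
  ∀ (M : ℕ) (T : Fin 9 → ℝ) (i j k : Fin 9), 1 ≤ M → (∀ l, 1 ≤ T l) →
    i ≠ 0 → j ≠ 0 → k ≠ 0 → i ≠ j → i ≠ k → j ≠ k →
    (∀ l, l ≠ i → l ≠ j → l ≠ k → T l = 1) →
    T i ^ 2 ≤ M → (T j * T k) ^ 2 ≤ M →
    NN M T ≤ C * (M : ℝ) ^ ε * ∏ l, T l

/-- EN-Q4, from Q1Stmt, Q2Stmt, REC0Stmt. -/
def Q4Stmt : Prop := ∀ ε : ℝ, 0 < ε → ∃ C : ℝ, 1 ≤ C ∧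
  ∀ (M : ℕ) (T : Fin 9 → ℝ) (i j k n : Fin 9), 1 ≤ M → (∀ l, 1 ≤ T l) →
    i ≠ 0 → j ≠ 0 → k ≠ 0 → n ≠ 0 → i ≠ j → i ≠ k → i ≠ n → j ≠ k → j ≠ n → k ≠ n →
    (∀ l, l ≠ i → l ≠ j → l ≠ k → l ≠ n → T l = 1) →
    (T i * T j) ^ 2 ≤ M → (T k * T n) ^ 2 ≤ M →
    NN M T ≤ C * (M : ℝ) ^ ε * ∏ l, T l

/-! ## T1: curves modulo `w ^ 3` (section 4) -/

/-- EN-T1a: the second difference. `(n, R)`, `(n + w D, R + w D')`, `(n + w d, R + w d')`,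
`(n + w (D + d), R + w (D' + d'))` are on the curve. -/
def T1aStmt : Prop := ∀ (neg : Bool) (e f w κ : ℕ) (n R D D' d d' : ℤ), 1 ≤ e → e ≤ 8 →
  1 ≤ f → f ≤ 8 → (neg = false → e ≠ f) → Squarefree w → Nat.Coprime w (bad neg e f) →
  Nat.Coprime κ w → IsCoprime n (w : ℤ) → IsCoprime R (w : ℤ) →
  (∀ P : ℤ × ℤ, P = (0, 0) ∨ P = (D, D') ∨ P = (d, d') ∨ P = (D + d, D' + d') →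
    if neg then ((w : ℤ) ^ 3 ∣ (n + w * P.1) ^ e * (R + w * P.2) ^ f - κ)
    else ((w : ℤ) ^ 3 ∣ (n + w * P.1) ^ e - κ * (R + w * P.2) ^ f)) →
  (w : ℤ) ∣ D * d

/-- EN-T1b: in the same class `D = 0` forces `D' = 0`, and `D` determines `D'` modulo `w`. -/
def T1bStmt : Prop := ∀ (neg : Bool) (e f w κ : ℕ) (n R D D' : ℤ), 1 ≤ e → e ≤ 8 →
  1 ≤ f → f ≤ 8 → Squarefree w → Nat.Coprime w (bad neg e f) →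
  Nat.Coprime κ w → IsCoprime n (w : ℤ) → IsCoprime R (w : ℤ) →
  (∀ P : ℤ × ℤ, P = (0, 0) ∨ P = (D, D') →
    if neg then ((w : ℤ) ^ 3 ∣ (n + w * P.1) ^ e * (R + w * P.2) ^ f - κ)
    else ((w : ℤ) ^ 3 ∣ (n + w * P.1) ^ e - κ * (R + w * P.2) ^ f)) →
  (D = 0 → (w : ℤ) ^ 2 ∣ D') ∧
  (w : ℤ) ∣ e * D * R - (if neg then -1 else 1) * f * D' * n

/-- EN-T1, from T1aStmt, T1bStmt. -/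
def T1Stmt : Prop := ∀ (neg : Bool) (e f w κ₁ : ℕ) (κ : ℝ) (I J A B : ℕ)
  (S : Finset (ℕ × ℕ)), 1 ≤ e → e ≤ 8 → 1 ≤ f → f ≤ 8 → (neg = false → e ≠ f) →
  Squarefree w → Nat.Coprime w (bad neg e f) → Kap w κ → Nat.Coprime κ₁ w →
  A ≤ w ^ 2 → B ≤ w ^ 2 →
  (∀ s ∈ S, I ≤ s.1 ∧ s.1 < I + A ∧ J ≤ s.2 ∧ s.2 < J + B ∧ Nat.Coprime s.1 w ∧
    Nat.Coprime s.2 w ∧ Rel neg e f κ₁ w s.1 s.2) →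
  (S.card : ℝ) ≤ 4 * κ ^ 2 * (w + Real.sqrt (w * A))

/-- EN-T1c, from T1Stmt, KAPStmt. -/
def T1cStmt : Prop := ∀ ε : ℝ, 0 < ε → ∃ C : ℝ, 1 ≤ C ∧
  ∀ (e f w κ₁ : ℕ) (μ V : ℝ) (S : Finset (ℕ × ℕ)), 1 ≤ e → e ≤ 8 → 1 ≤ f → f ≤ 8 → e ≠ f →
  Squarefree w → Nat.Coprime κ₁ w → 0 ≤ μ → μ ≤ 1 → V ≤ (w : ℝ) ^ (1 + μ) →
  (∀ s ∈ S, 0 < s.1 ∧ (s.1 : ℝ) ≤ V ∧ 0 < s.2 ∧ (s.2 : ℝ) ≤ V ∧ Nat.Coprime s.1 w ∧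
    Nat.Coprime s.2 w ∧ s.1 ^ e ≡ κ₁ * s.2 ^ f [MOD w ^ 3]) →
  (S.card : ℝ) ≤ C * (w : ℝ) ^ (3 / 4 + 2 * μ + ε)

/-! ## S2: rigidity (section 5) -/

/-- EN-P2. `E` is a set of pairs `(u, u')` with partners `(Y, Y')`. -/
def P2Stmt : Prop := ∀ (e f w : ℕ) (κ V Λ : ℝ) (E : Finset (ℕ × ℕ)) (Y Y' : ℕ × ℕ → ℕ),
  1 ≤ e → e ≤ 8 → 1 ≤ f → f ≤ 8 → 2 ≤ w → Kap w κ → 1 ≤ V → 100 * κ ^ 4 ≤ Λ → V * Λ ≤ w →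
  (∀ s ∈ E, 0 < s.1 ∧ (s.1 : ℝ) ≤ V ∧ 0 < s.2 ∧ (s.2 : ℝ) ≤ V ∧ Nat.Coprime s.1 s.2 ∧
    Nat.Coprime s.1 w ∧ Nat.Coprime s.2 w ∧
    V / Λ ^ 2 ≤ (Y s : ℝ) ∧ (Y s : ℝ) ≤ V ∧ V / Λ ^ 2 ≤ (Y' s : ℝ) ∧ (Y' s : ℝ) ≤ V ∧
    Nat.Coprime (Y s) (Y' s) ∧ Nat.Coprime (Y s) w ∧ Nat.Coprime (Y' s) w ∧
    s.2 ^ e * (Y' s) ^ f ≡ s.1 ^ e * (Y s) ^ f [MOD w ^ 3]) →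
  V ^ 2 / Λ ≤ (E.card : ℝ) →
  ∃ (u u₁ : ℕ) (J : Finset ℕ), (u, u₁) ∈ E ∧ V / (2 * Λ ^ 2) ≤ (J.card : ℝ) ∧
    ∀ v ∈ J, (u, v) ∈ E ∧
      V / Λ ^ 7 ≤ (Nat.gcd (Y (u, u₁) * Y' (u, v)) (Y' (u, u₁) * Y (u, v)) : ℝ)

/-- EN-P3. -/
def P3Stmt : Prop := ∀ (e f w u y₁ y₁' : ℕ) (κ V Λ : ℝ) (J : Finset ℕ) (Y Y' : ℕ → ℕ),
  1 ≤ e → e ≤ 8 → 1 ≤ f → f ≤ 8 → 2 ≤ w → Kap w κ → 1 ≤ V → 1 ≤ Λ → V * Λ ≤ w →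
  Nat.Coprime u w → 0 < y₁ → (y₁ : ℝ) ≤ V → 0 < y₁' → (y₁' : ℝ) ≤ V → Nat.Coprime y₁ y₁' →
  (∀ v ∈ J, 0 < v ∧ (v : ℝ) ≤ V ∧ Nat.Coprime v w ∧ 0 < Y v ∧ (Y v : ℝ) ≤ V ∧
    0 < Y' v ∧ (Y' v : ℝ) ≤ V ∧
    Nat.Coprime (Y v) (Y' v) ∧ Nat.Coprime (Y v) w ∧ Nat.Coprime (Y' v) w ∧
    v ^ e * (Y' v) ^ f ≡ u ^ e * (Y v) ^ f [MOD w ^ 3] ∧
    V / Λ ^ 7 ≤ (Nat.gcd (y₁ * Y' v) (y₁' * Y v) : ℝ)) →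
  V / (2 * Λ ^ 2) ≤ (J.card : ℝ) →
  ∃ (R S κ₁ : ℕ) (K : Finset (ℕ × ℕ)) (U : ℕ × ℕ → ℕ), 0 < R ∧ 0 < S ∧
    V / Λ ^ 7 ≤ (R : ℝ) * S ∧ Nat.Coprime κ₁ w ∧
    V / (2 * κ ^ 3 * Λ ^ 2) ≤ (K.card : ℝ) ∧
    ∀ s ∈ K, 0 < s.1 ∧ (R : ℝ) * s.1 ≤ V ∧ 0 < s.2 ∧ (S : ℝ) * s.2 ≤ V ∧
      Nat.Coprime s.1 w ∧ Nat.Coprime s.2 w ∧ 0 < U s ∧ (U s : ℝ) ≤ V ∧ Nat.Coprime (U s) w ∧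
      (U s) ^ e * s.2 ^ f ≡ κ₁ * s.1 ^ f [MOD w ^ 3]

/-- EN-P4. `s.1` is the big variable (at most `B`), `s.2` the small one (at most `b`). -/
def P4Stmt : Prop := ∀ (neg : Bool) (e f w κ₁ : ℕ) (κ V B b Λ : ℝ) (K : Finset (ℕ × ℕ))
  (U : ℕ × ℕ → ℕ), 1 ≤ e → e ≤ 8 → 1 ≤ f → f ≤ 8 → 2 ≤ w → Kap w κ → 10 * κ ≤ Λ →
  1 ≤ V → V ≤ w → 1 ≤ B → B ≤ w → 1 ≤ b → b ≤ w → Nat.Coprime κ₁ w →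
  B * b / Λ ≤ (K.card : ℝ) → V / Λ ≤ (K.card : ℝ) →
  (∀ s ∈ K, 0 < s.1 ∧ (s.1 : ℝ) ≤ B ∧ 0 < s.2 ∧ (s.2 : ℝ) ≤ b ∧
      Nat.Coprime s.1 w ∧ Nat.Coprime s.2 w ∧ 0 < U s ∧ (U s : ℝ) ≤ V ∧ Nat.Coprime (U s) w ∧
      if neg then (U s) ^ e * s.1 ^ f ≡ κ₁ * s.2 ^ f [MOD w ^ 3]
      else (U s) ^ e * s.2 ^ f ≡ κ₁ * s.1 ^ f [MOD w ^ 3]) →
  ∃ (κ₂ : ℕ) (D : Finset ℕ) (a : ℕ → ℕ), Nat.Coprime κ₂ w ∧ B / Λ ^ 3 ≤ (D.card : ℝ) ∧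
    ∀ ρ ∈ D, 0 < ρ ∧ (ρ : ℝ) ≤ B ∧ Nat.Coprime ρ w ∧ 0 < a ρ ∧ (a ρ : ℝ) ≤ B * Λ ^ 4 ∧
      Nat.Coprime (a ρ) w ∧ Rel neg e f κ₂ w (a ρ) ρ

/-- EN-P5: `k`-fold products, from T1Stmt. -/
def P5Stmt : Prop := ∀ (neg : Bool) (e f w κ₂ k : ℕ) (κ A B : ℝ) (D : Finset ℕ) (a : ℕ → ℕ),
  1 ≤ e → e ≤ 8 → 1 ≤ f → f ≤ 8 → (neg = false → e ≠ f) → Squarefree w →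
  Nat.Coprime w (bad neg e f) → Kap w κ → Nat.Coprime κ₂ w → 1 ≤ k → 1 ≤ A → 1 ≤ B →
  A ^ k ≤ (w : ℝ) ^ 2 / 2 → B ^ k ≤ (w : ℝ) ^ 2 / 2 → 2 ≤ w →
  (∀ ρ ∈ D, 0 < ρ ∧ (ρ : ℝ) ≤ B ∧ Nat.Coprime ρ w ∧ 0 < a ρ ∧ (a ρ : ℝ) ≤ A ∧
      Nat.Coprime (a ρ) w ∧ Rel neg e f κ₂ w (a ρ) ρ) →
  (D.card : ℝ) ^ k ≤ 8 * κ ^ (k + 2) * (w + Real.sqrt (w * A ^ k))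

/-- EN-S2c: the rigidity theorem for `w` prime to a fixed number. From KAPStmt, P2Stmt, P3Stmt,
P4Stmt, P5Stmt. -/
def S2cStmt : Prop := ∀ e f : ℕ, 1 ≤ e → e ≤ 8 → 1 ≤ f → f ≤ 8 → e ≠ f →
  ∀ σ η : ℝ, 0 < σ → 0 < η → ∃ δ C : ℝ, 0 < δ ∧ 1 ≤ C ∧ ∀ (w : ℕ) (V : ℝ),
    Squarefree w → Nat.Coprime w (bad false e f) → Nat.Coprime w (bad true e f) →
    1 ≤ V → (w : ℝ) ^ σ ≤ V → V ≤ (w : ℝ) ^ (1 - η) →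
    ((Two e f w V V).card : ℝ) ≤ C * V ^ 2 * (w : ℝ) ^ (-δ)

/-- EN-S2: the rigidity theorem, from S2cStmt. -/
def S2Stmt : Prop := ∀ e f : ℕ, 1 ≤ e → e ≤ 8 → 1 ≤ f → f ≤ 8 → e ≠ f →
  ∀ σ η : ℝ, 0 < σ → 0 < η → ∃ δ C : ℝ, 0 < δ ∧ 1 ≤ C ∧ ∀ (w : ℕ) (V : ℝ),
    Squarefree w → 1 ≤ V → (w : ℝ) ^ σ ≤ V → V ≤ (w : ℝ) ^ (1 - η) →
    ((Two e f w V V).card : ℝ) ≤ C * V ^ 2 * (w : ℝ) ^ (-δ)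

/-! ## Savings for `M = w ^ 3` (section 6) -/

/-- EN-N2, from S2Stmt, Q2Stmt. -/
def N2Stmt : Prop := ∀ σ η : ℝ, 0 < σ → 0 < η → ∃ δ C : ℝ, 0 < δ ∧ 1 ≤ C ∧
  ∀ (w : ℕ) (T : Fin 9 → ℝ) (i j : Fin 9), Squarefree w → (∀ l, 1 ≤ T l) →
    i ≠ 0 → j ≠ 0 → i ≠ j → (∀ l, l ≠ i → l ≠ j → T l = 1) →
    ((w : ℝ) ^ σ ≤ T i ∨ (w : ℝ) ^ σ ≤ T j) → T i * T j ≤ (w : ℝ) ^ (3 - η) →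
    (T i ≤ (w : ℝ) ^ (1 - η) ∨ T j ≤ (w : ℝ) ^ (1 - η)) →
    NN (w ^ 3) T ≤ C * (w : ℝ) ^ (-δ) * ∏ l, T l

/-- EN-G: generic pairs of fractions of height near `w`, factored. From KAPStmt, S2Stmt.
`s = (((a, b), (x, y)), ((a', b'), (x', y')))`. -/
def GStmt : Prop := ∃ μ η δ C : ℝ, 0 < μ ∧ 0 < η ∧ 0 < δ ∧ 1 ≤ C ∧ ∀ e f : ℕ, 1 ≤ e → e ≤ 8 →
  1 ≤ f → f ≤ 8 → e ≠ f → ∀ (w : ℕ) (V V' : ℝ)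
  (S : Finset (((ℕ × ℕ) × (ℕ × ℕ)) × ((ℕ × ℕ) × (ℕ × ℕ)))), Squarefree w →
  (w : ℝ) ^ (1 / 2 - μ) ≤ V → V ≤ (w : ℝ) ^ (1 / 2 + μ) →
  (w : ℝ) ^ (1 / 2 - μ) ≤ V' → V' ≤ (w : ℝ) ^ (1 / 2 + μ) →
  (∀ s ∈ S, (∀ t : ℕ × ℕ, t = s.1.1 ∨ t = s.2.1 → 0 < t.1 ∧ (t.1 : ℝ) ≤ V ∧ 0 < t.2 ∧
      (t.2 : ℝ) ≤ V ∧ Nat.Coprime t.1 t.2 ∧ Nat.Coprime t.1 w ∧ Nat.Coprime t.2 w) ∧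
    (∀ t : ℕ × ℕ, t = s.1.2 ∨ t = s.2.2 → 0 < t.1 ∧ (t.1 : ℝ) ≤ V' ∧ 0 < t.2 ∧
      (t.2 : ℝ) ≤ V' ∧ Nat.Coprime t.1 t.2 ∧ Nat.Coprime t.1 w ∧ Nat.Coprime t.2 w) ∧
    (s.1.1.1 * s.2.1.2) ^ e * (s.1.2.1 * s.2.2.2) ^ f ≡
      (s.2.1.1 * s.1.1.2) ^ e * (s.2.2.1 * s.1.2.2) ^ f [MOD w ^ 3] ∧
    (w : ℝ) ^ (1 - η) * Nat.gcd (s.1.1.1 * s.2.1.2) (s.2.1.1 * s.1.1.2) ≤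
      max (s.1.1.1 * s.2.1.2) (s.2.1.1 * s.1.1.2) ∧
    (w : ℝ) ^ (1 - η) * Nat.gcd (s.1.2.1 * s.2.2.2) (s.2.2.1 * s.1.2.2) ≤
      max (s.1.2.1 * s.2.2.2) (s.2.2.1 * s.1.2.2)) →
  (S.card : ℝ) ≤ C * (w : ℝ) ^ (-δ) * V ^ 2 * V' ^ 2

/-- EN-GV: vector form, from GStmt. -/
def GVStmt : Prop := ∃ μ η δ C : ℝ, 0 < μ ∧ 0 < η ∧ 0 < δ ∧ 1 ≤ C ∧
  ∀ (w : ℕ) (P : Fin 9 → ℝ) (i j : Fin 9) (S : Finset ((Vec × Vec) × (Vec × Vec))),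
    Squarefree w → i ≠ 0 → j ≠ 0 → i ≠ j → (∀ l, l ≠ i → l ≠ j → P l = 1) →
    (w : ℝ) ^ (1 / 2 - μ) ≤ P i → P i ≤ (w : ℝ) ^ (1 / 2 + μ) →
    (w : ℝ) ^ (1 / 2 - μ) ≤ P j → P j ≤ (w : ℝ) ^ (1 / 2 + μ) →
    (∀ s ∈ S, s.1 ∈ GBox (w ^ 3) P P ∧ s.2 ∈ GBox (w ^ 3) P P ∧
      (∀ l, Nat.Coprime (s.1.1 l) (s.1.2 l)) ∧ (∀ l, Nat.Coprime (s.2.1 l) (s.2.2 l)) ∧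
      SameVal (w ^ 3) s.1 s.2 ∧ (w : ℝ) ^ (1 - η) ≤ ht (redv s.1 s.2) i ∧
      (w : ℝ) ^ (1 - η) ≤ ht (redv s.1 s.2) j) →
    (S.card : ℝ) ≤ C * (w : ℝ) ^ (-δ) * P i ^ 2 * P j ^ 2

/-- EN-N3, from N2Stmt, GVStmt, Q1Stmt, Q2Stmt, E1Stmt, E2Stmt, RECStmt, RECGStmt. -/
def N3Stmt : Prop := ∃ μ : ℝ, 0 < μ ∧ ∀ σ η : ℝ, 0 < σ → 0 < η → ∃ δ C : ℝ, 0 < δ ∧ 1 ≤ C ∧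
  ∀ (w : ℕ) (T : Fin 9 → ℝ) (i j k : Fin 9), Squarefree w → (∀ l, 1 ≤ T l) →
    i ≠ 0 → j ≠ 0 → k ≠ 0 → i ≠ j → i ≠ k → j ≠ k →
    (∀ l, l ≠ i → l ≠ j → l ≠ k → T l = 1) → T k ≤ T j → T j ≤ T i →
    (w : ℝ) ^ σ ≤ T i → T i ^ 2 * T j ≤ (w : ℝ) ^ (3 - η) → T j ≤ (w : ℝ) ^ (1 - η) →
    T k ≤ (w : ℝ) ^ (1 / 2 + μ) →
    NN (w ^ 3) T ≤ C * (w : ℝ) ^ (-δ) * ∏ l, T l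

/-- EN-N4, from N2Stmt, N3Stmt, Q2Stmt, Q3Stmt, RECStmt. -/
def N4Stmt : Prop := ∀ σ : ℝ, 0 < σ → ∃ δ C : ℝ, 0 < δ ∧ 1 ≤ C ∧
  ∀ (w : ℕ) (T : Fin 9 → ℝ) (i j k n : Fin 9), Squarefree w → (∀ l, 1 ≤ T l) →
    i ≠ 0 → j ≠ 0 → k ≠ 0 → n ≠ 0 → i ≠ j → i ≠ k → i ≠ n → j ≠ k → j ≠ n → k ≠ n →
    (∀ l, l ≠ i → l ≠ j → l ≠ k → l ≠ n → T l = 1) → T n ≤ T k → T k ≤ T j → T j ≤ T i →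
    (w : ℝ) ^ σ ≤ T i → T i * T j * T k ≤ (w : ℝ) ^ (11 / 10 : ℝ) →
    NN (w ^ 3) T ≤ C * (w : ℝ) ^ (-δ) * ∏ l, T l

/-! ## Level 0 (section 7) -/

/-- EN-L0, from E1Stmt, E2Stmt, RPStmt. -/
def L0Stmt : Prop := ∀ ε : ℝ, 0 < ε → ∃ C : ℝ, 1 ≤ C ∧
  ∀ (X : ℕ) (Sp Sq : Finset (Fin 9)) (P Q : Fin 9 → ℝ) (R K : ℝ) (MM : Finset ℕ)
    (TT : Finset (ℕ × ℕ × ℕ)), 2 ≤ X → (0 : Fin 9) ∉ Sp → (0 : Fin 9) ∉ Sq →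
    (∀ i, 1 ≤ P i ∧ P i ≤ X) → (∀ i, 1 ≤ Q i ∧ Q i ≤ X) →
    (∀ i, i ∉ Sp → P i = 1) → (∀ i, i ∉ Sq → Q i = 1) → 1 ≤ R → 0 ≤ K →
    (∀ M ∈ MM, 1 ≤ M ∧ M ≤ X) →
    (∀ t ∈ TT, 0 < t.1 ∧ t.1 ≤ X ∧ 0 < t.2.1 ∧ t.2.1 ≤ X ∧ t.2.2 ∈ MM ∧
      Nat.Coprime t.1 t.2.1 ∧ Nat.Coprime t.1 t.2.2 ∧ Nat.Coprime t.2.1 t.2.2 ∧
      ((t.2.2 : ℤ) ∣ (t.1 : ℤ) - t.2.1 ∨ (t.2.2 : ℤ) ∣ (t.1 : ℤ) + t.2.1) ∧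
      (∀ i ∈ Sp, (pc i t.1 : ℝ) ≤ P i) ∧ (∀ i ∈ Sq, (pc i t.2.1 : ℝ) ≤ Q i) ∧
      (rad t.1 : ℝ) * rad t.2.1 ≤ R * (∏ i ∈ Sp, pc i t.1) * (∏ i ∈ Sq, pc i t.2.1)) →
    (∀ M ∈ MM, ∀ U : Fin 9 → ℝ, (∀ i, 1 ≤ U i ∧ U i ≤ P i * Q i) →
      (∃ i, (M : ℝ) ^ (1 / 36 : ℝ) ≤ U i) → NN M U ≤ K * ∏ i, U i) →
    (TT.card : ℝ) ≤ C * (X : ℝ) ^ ε * (MM.card * R +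
      Real.sqrt ((MM.card * R + R ^ 2) * (MM.card * K * ∏ i, P i * Q i)))

/-- EN-L1, from DIRStmt, RPStmt: one index. -/
def L1Stmt : Prop := ∀ ε : ℝ, 0 < ε → ∃ C : ℝ, 1 ≤ C ∧
  ∀ (X : ℕ) (i : Fin 9) (P Q R M0 : ℝ) (MM : Finset ℕ)
    (TT : Finset (ℕ × ℕ × ℕ)), 2 ≤ X → i ≠ 0 →
    1 ≤ P → P ≤ X → 1 ≤ Q → Q ≤ X → 1 ≤ R → 0 < M0 →
    (∀ M ∈ MM, 1 ≤ M ∧ M ≤ X ∧ M0 ≤ (M : ℝ)) →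
    (∀ t ∈ TT, 0 < t.1 ∧ t.1 ≤ X ∧ 0 < t.2.1 ∧ t.2.1 ≤ X ∧ t.2.2 ∈ MM ∧
      Nat.Coprime t.1 t.2.1 ∧ Nat.Coprime t.1 t.2.2 ∧ Nat.Coprime t.2.1 t.2.2 ∧
      ((t.2.2 : ℤ) ∣ (t.1 : ℤ) - t.2.1 ∨ (t.2.2 : ℤ) ∣ (t.1 : ℤ) + t.2.1) ∧
      (pc i t.1 : ℝ) ≤ P ∧ (pc i t.2.1 : ℝ) ≤ Q ∧
      (rad t.1 : ℝ) * rad t.2.1 ≤ R * pc i t.1 * pc i t.2.1) →
    (TT.card : ℝ) ≤ C * (X : ℝ) ^ ε * (MM.card * R * (1 + P * Q / M0))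

/-- EN-L2, from T1cStmt, RPStmt: two single pieces of size about `w` on opposite sides. -/
def L2Stmt : Prop := ∀ ε : ℝ, 0 < ε → ∃ C : ℝ, 1 ≤ C ∧
  ∀ (X : ℕ) (i j : Fin 9) (V R μ : ℝ) (WW : Finset ℕ)
    (TT : Finset (ℕ × ℕ × ℕ)), 2 ≤ X → i ≠ 0 → j ≠ 0 → i ≠ j → 0 ≤ μ → μ ≤ 1 →
    1 ≤ V → 1 ≤ R →
    (∀ w ∈ WW, 1 ≤ w ∧ w ≤ X ∧ Squarefree w ∧ V ≤ (w : ℝ) ^ (1 + μ) ∧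
      (w : ℝ) ≤ (X : ℝ) ^ (3 / 10 : ℝ)) →
    (∀ t ∈ TT, 0 < t.1 ∧ t.1 ≤ X ∧ 0 < t.2.1 ∧ t.2.1 ≤ X ∧ t.2.2 ∈ WW ∧
      Nat.Coprime t.1 t.2.1 ∧ Nat.Coprime t.1 t.2.2 ∧ Nat.Coprime t.2.1 t.2.2 ∧
      ((t.2.2 : ℤ) ^ 3 ∣ (t.1 : ℤ) - t.2.1 ∨ (t.2.2 : ℤ) ^ 3 ∣ (t.1 : ℤ) + t.2.1) ∧
      (pc i t.1 : ℝ) ≤ V ∧ (pc j t.2.1 : ℝ) ≤ V ∧
      (rad t.1 : ℝ) * rad t.2.1 ≤ R * pc i t.1 * pc j t.2.1) →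
    (TT.card : ℝ) ≤ C * (X : ℝ) ^ ε * (WW.card * R * (X : ℝ) ^ ((3 / 10) * (3 / 4 + 2 * μ)))

/-! ## The cases (section 8). `t = (p, q, r)` -/

/-- EN-C1: small entry `r`, from RPStmt. -/
def C1Stmt : Prop := ∀ ε : ℝ, 0 < ε → ∃ C : ℝ, 1 ≤ C ∧
  ∀ (X i : ℕ) (x0 x1 W ρ : ℝ) (TT : Finset (ℕ × ℕ × ℕ)), 2 ≤ X → 1 ≤ i → i ≤ 8 →
    1 ≤ x0 → x0 ≤ x1 → x0 ≤ W → 1 ≤ ρ →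
    (∀ t ∈ TT, Tri X t.1 t.2.1 t.2.2 ∧ (X : ℝ) ≤ 4 * t.1 ∧ (t.2.2 : ℝ) ≤ ρ ∧
      x0 ≤ (pc i t.1 : ℝ) ∧ (pc i t.1 : ℝ) ≤ x1 ∧ (rad t.1 : ℝ) * rad t.2.1 ≤ W) →
    (TT.card : ℝ) ≤ C * (X : ℝ) ^ ε * (W / x0) * (1 + x1 * ρ / X)

/-- EN-C2a: `r = t S ^ 2`, a cheap class of `p`, from RPStmt. -/
def C2aStmt : Prop := ∀ ε : ℝ, 0 < ε → ∃ C : ℝ, 1 ≤ C ∧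
  ∀ (X i : ℕ) (x0 W Y r0 t1 : ℝ) (TT : Finset (ℕ × ℕ × ℕ)), 2 ≤ X → 1 ≤ i →
    1 ≤ x0 → x0 ≤ W → 1 ≤ Y → 1 ≤ r0 → 1 ≤ t1 →
    (∀ t ∈ TT, Tri X t.1 t.2.1 t.2.2 ∧ r0 ≤ (t.2.2 : ℝ) ∧
      (t.2.2 : ℝ) ≤ t1 * (pc 2 t.2.2 : ℝ) ^ 2 ∧
      x0 ≤ (pc i t.1 : ℝ) ∧ (pc i t.1 : ℝ) ^ i ≤ Y ∧ (rad t.1 : ℝ) * rad t.2.1 ≤ W) →
    (TT.card : ℝ) ≤ C * (X : ℝ) ^ ε * t1 * (W / x0) * (1 + Y / Real.sqrt r0)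

/-- EN-C2p: `r = t S ^ 2` and an even class of `p` (Pell), from DIRStmt, RPStmt and
`Pool.Agent.Helper1.SR.pair_fiber_close`. -/
def C2pStmt : Prop := ∀ ε : ℝ, 0 < ε → ∃ C : ℝ, 1 ≤ C ∧
  ∀ (X h : ℕ) (Y t1 : ℝ) (TT : Finset (ℕ × ℕ × ℕ)), 2 ≤ X → 1 ≤ h → 1 ≤ Y → 1 ≤ t1 →
    (∀ t ∈ TT, Tri X t.1 t.2.1 t.2.2 ∧
      (t.2.2 : ℝ) ≤ t1 * (pc 2 t.2.2 : ℝ) ^ 2 ∧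
      (rad t.1 : ℝ) * rad t.2.1 ≤ Y * pc (2 * h) t.1) →
    (TT.card : ℝ) ≤ C * (X : ℝ) ^ ε * t1 * Y

/-- EN-PC: many primes. -/
def PCStmt : Prop := ∃ c : ℝ, 0 < c ∧ ∀ L : ℝ, 4 ≤ L →
  c * L / Real.log L ≤ (((Finset.Icc 3 ⌊L⌋₊).filter Nat.Prime).card : ℝ)

/-- EN-SQ: square sieve, from PCStmt. -/
def SQStmt : Prop := ∀ ε l : ℝ, 0 < ε → 0 < l → ∃ C : ℝ, 1 ≤ C ∧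
  ∀ (X i j : ℕ) (P0 Q0 : ℤ) (t : ℕ) (Zx Zy L : ℝ) (S : Finset (ℕ × ℕ)), 2 ≤ X →
    Odd i → Odd j → 0 < t → t ≤ X → 1 ≤ Zx → 1 ≤ Zy → Zx ≤ X → Zy ≤ X →
    (X : ℝ) ^ l ≤ L → L ≤ X →
    (∀ s ∈ S, 0 < s.1 ∧ (s.1 : ℝ) ≤ Zx ∧ 0 < s.2 ∧ (s.2 : ℝ) ≤ Zy ∧
      ∃ y : ℕ, 0 < y ∧ y ≤ X ^ 2 ∧ (t : ℤ) * (P0 * (s.1 : ℤ) ^ i + Q0 * (s.2 : ℤ) ^ j) =
        (y : ℤ) ^ 2) →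
    (S.card : ℝ) ≤ C * (X : ℝ) ^ ε * (Zx * Zy / L + (Zx + Zy) * L ^ 2)

/-- EN-C2s: `r = t S ^ 2`, odd classes `x` of `p` and `y` of `q`, from SQStmt, RPStmt. -/
def C2sStmt : Prop := ∀ ε l : ℝ, 0 < ε → 0 < l → ∃ C : ℝ, 1 ≤ C ∧
  ∀ (X i j : ℕ) (Y t1 Zx Zy L : ℝ) (TT : Finset (ℕ × ℕ × ℕ)), 2 ≤ X → Odd i → Odd j →
    1 ≤ Y → 1 ≤ t1 → 1 ≤ Zx → 1 ≤ Zy → Zx ≤ X → Zy ≤ X → (X : ℝ) ^ l ≤ L → L ≤ X →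
    (∀ t ∈ TT, Tri X t.1 t.2.1 t.2.2 ∧
      (t.2.2 : ℝ) ≤ t1 * (pc 2 t.2.2 : ℝ) ^ 2 ∧ (pc i t.1 : ℝ) ≤ Zx ∧ (pc j t.2.1 : ℝ) ≤ Zy ∧
      (rad t.1 : ℝ) * rad t.2.1 ≤ Y * pc i t.1 * pc j t.2.1) →
    (TT.card : ℝ) ≤ C * (X : ℝ) ^ ε * t1 * Y * (Zx * Zy / L + (Zx + Zy) * L ^ 2)

end Pool.Agent.Helper21.EN
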