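import Pool.Agent.Helper21.EN.Stmts
import Pool.Agent.Helper69.EN.T1

set_option autoImplicit false

/-!
# Project EN, piece T1

The statement is in EN/Stmts.lean. Paper: /team-store/EN_paper.md.

Classes modulo w: at most kappa w classes (roots), and a class with k elements satisfies
k^2 <= k + 4 (A / w) d(w), so k <= 1 + 2 sqrt(kappa A / w); the total is
<= kappa w + 2 kappa^(3/2) sqrt(w A) <= 4 kappa^2 (w + sqrt(wA)).
-/

namespace Pool.Agent.Helper21.EN

open Finset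

/-- the number of roots modulo `w` over the integers -/
theorem t1_roots {e w : ℕ} (he : 1 ≤ e) (he8 : e ≤ 8) (hw : 0 < w) {κ : ℝ} (hκ : Kap w κ)
    {a : ℤ} (ha : IsCoprime a (w : ℤ)) :
    (((Finset.range w).filter (fun x : ℕ => (w : ℤ) ∣ (x : ℤ) ^ e - a ^ e)).card : ℝ) ≤ κ := by
  have hw' : (0 : ℤ) < w := by exact_mod_cast hw
  set n : ℕ := (a % w).toNat with hn
  have h0 : (n : ℤ) = a % w := Int.toNat_of_nonneg (Int.emod_nonneg _ hw'.ne')
  have h1 : (n : ℤ) ≡ a [ZMOD w] := by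
    rw [h0]
    exact Int.mod_modEq _ _
  have h2 : Nat.Coprime n w := by
    rw [← Nat.isCoprime_iff_coprime]
    have h3 : (n : ℤ) = a + w * (-(a / w)) := by
      rw [h0]
      have := Int.emod_add_mul_ediv a w
      linarith
    rw [h3]
    exact ha.add_mul_left_left _
  have h3 := hκ.roots e he he8 w hw (Nat.le_self_pow (by norm_num) w) (n ^ e) (h2.pow_left e)
  refine le_trans ?_ h3
  have h4 : ((Finset.range w).filter (fun x : ℕ => (w : ℤ) ∣ (x : ℤ) ^ e - a ^ e)) =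
      (Finset.range w).filter (fun x => x ^ e ≡ n ^ e [MOD w]) := by
    refine Finset.filter_congr ?_
    intro x _
    have h5 : ((n : ℤ)) ^ e ≡ a ^ e [ZMOD w] := h1.pow e
    rw [← Int.natCast_modEq_iff]
    push_cast
    constructor
    · intro h
      exact ((Int.modEq_iff_dvd.2 h).symm.trans h5.symm)
    · intro h
      exact Int.modEq_iff_dvd.1 (h.trans h5).symm
  rw [h4]

theorem t1_core {e : ℕ} (he : 1 ≤ e) (he8 : e ≤ 8) (w : ℕ) {κ : ℝ} (hκ : Kap w κ)
    (f a b : ℤ) (A : ℕ) (K : Finset (ℤ × ℤ)) (hw : 0 < w)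
    (hcop : IsCoprime (2 * (e : ℤ) * f * (e - f)) (w : ℤ)) (hA : A ≤ w ^ 2)
    (m1 : ∀ P ∈ K, a ≤ P.1 ∧ P.1 < a + A) (m2 : ∀ P ∈ K, b ≤ P.2 ∧ P.2 < b + (w : ℤ) ^ 2)
    (c1 : ∀ P ∈ K, IsCoprime P.1 (w : ℤ)) (c2 : ∀ P ∈ K, IsCoprime P.2 (w : ℤ))
    (hrel : ∀ P ∈ K, ∀ Q ∈ K, (w : ℤ) ∣ Q.1 - P.1 → (w : ℤ) ∣ Q.2 - P.2 →
      Pool.Agent.Helper69.EN.Rel w e f P Q)
    (hcl : ∀ P ∈ K, ∀ Q ∈ K, (w : ℤ) ∣ Q.2 - P.2 → (w : ℤ) ∣ Q.1 ^ e - P.1 ^ e) :
    (K.card : ℝ) ≤ 4 * κ ^ 2 * (w + √(w * A)) := by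
  classical
  have hw' : (0 : ℤ) < w := by exact_mod_cast hw
  have hwR : (0 : ℝ) < w := by exact_mod_cast hw
  have hw1 : (1 : ℝ) ≤ w := by exact_mod_cast hw
  have hκ1 : 1 ≤ κ := hκ.one
  set φ : ℤ × ℤ → ℤ × ℤ := fun P => (P.1 % w, P.2 % w) with hφ
  set L : ℝ := 1 + √(4 * (A / w) * w.divisors.card) with hL
  -- one class
  have hclass : ∀ c ∈ K.image φ, (((K.filter fun P => φ P = c).card : ℕ) : ℝ) ≤ L := by
    intro c _
    have hC : Pool.Agent.Helper69.EN.Cls w e f a b A (K.filter fun P => φ P = c) := by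
      refine ⟨hw, hcop, hA, ?_, ?_, ?_, ?_, ?_⟩
      · exact fun P hP => m1 P (Finset.mem_filter.1 hP).1
      · exact fun P hP => m2 P (Finset.mem_filter.1 hP).1
      · exact fun P hP => c1 P (Finset.mem_filter.1 hP).1
      · exact fun P hP => c2 P (Finset.mem_filter.1 hP).1
      · intro P hP Q hQ
        rw [Finset.mem_filter] at hP hQ
        have h1 : φ P = φ Q := hP.2.trans hQ.2.symm
        have h2 : P.1 % w = Q.1 % w := congrArg Prod.fst h1
        have h3 : P.2 % w = Q.2 % w := congrArg Prod.snd h1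
        exact hrel P hP.1 Q hQ.1 (Int.modEq_iff_dvd.1 h2) (Int.modEq_iff_dvd.1 h3)
    have h1 := Pool.Agent.Helper69.EN.card_class hC
    set k := (K.filter fun P => φ P = c).card with hk
    have h2 : ((k : ℝ)) ^ 2 ≤ k + 4 * (A / w) * w.divisors.card := by
      have h3 : ((k ^ 2 : ℕ) : ℝ) ≤ ((k + 4 * (A / w * w.divisors.card) : ℕ) : ℝ) := by
        exact_mod_cast h1
      push_cast at h3
      have h4 : ((A / w : ℕ) : ℝ) ≤ (A : ℝ) / w := Nat.cast_div_le
      have h5 : (0 : ℝ) ≤ w.divisors.card := Nat.cast_nonneg _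
      nlinarith [mul_le_mul_of_nonneg_right h4 h5]
    exact Pool.Agent.Helper69.EN.le_one_add_sqrt h2 (by positivity)
  -- the number of classes
  have hnum : ((K.image φ).card : ℝ) ≤ w * κ := by
    rw [Finset.card_eq_sum_card_image Prod.snd (K.image φ)]
    push_cast
    have h1 : ∀ y ∈ (K.image φ).image Prod.snd,
        ((((K.image φ).filter fun c => c.2 = y).card : ℕ) : ℝ) ≤ κ := by
      intro y hy
      obtain ⟨c0, hc0, hc0y⟩ := Finset.mem_image.1 hy
      obtain ⟨P0, hP0, hP0c⟩ := Finset.mem_image.1 hc0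
      have h2 := t1_roots he he8 hw hκ (c1 P0 hP0)
      refine le_trans ?_ h2
      have h3 : ((K.image φ).filter fun c => c.2 = y).card ≤
          ((Finset.range w).filter (fun x : ℕ => (w : ℤ) ∣ (x : ℤ) ^ e - P0.1 ^ e)).card := by
        refine Finset.card_le_card_of_injOn (fun c => c.1.toNat) ?_ ?_
        · intro c hc
          rw [Finset.coe_filter, Set.mem_ofPred_eq] at hc
          obtain ⟨P, hP, hPc⟩ := Finset.mem_image.1 hc.1
          have h4 : 0 ≤ c.1 := by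
            rw [← hPc]
            exact Int.emod_nonneg _ hw'.ne'
          have h5 : c.1 < w := by
            rw [← hPc]
            exact Int.emod_lt_of_pos _ hw'
          rw [Finset.coe_filter, Set.mem_ofPred_eq, Finset.mem_range]
          show c.1.toNat < w ∧ (w : ℤ) ∣ ((c.1.toNat : ℕ) : ℤ) ^ e - P0.1 ^ e
          refine ⟨by omega, ?_⟩
          rw [Int.toNat_of_nonneg h4]
          have h6 : (w : ℤ) ∣ P.2 - P0.2 := by
            have h7 : P0.2 % w = P.2 % w := by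
              have h8 : c0.2 = P0.2 % w := by rw [← hP0c]
              have h9 : c.2 = P.2 % w := by rw [← hPc]
              rw [← h8, ← h9, hc0y, hc.2]
            exact Int.modEq_iff_dvd.1 h7
          have h7 := hcl P0 hP0 P hP h6
          have h8 : (w : ℤ) ∣ c.1 ^ e - P.1 ^ e := by
            have h9 : c.1 ≡ P.1 [ZMOD w] := by
              rw [← hPc]
              exact Int.mod_modEq _ _
            exact (Int.modEq_iff_dvd.1 (h9.pow e).symm)
          have h9 : c.1 ^ e - P0.1 ^ e = (c.1 ^ e - P.1 ^ e) + (P.1 ^ e - P0.1 ^ e) := by ring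
          rw [h9]
          exact dvd_add h8 h7
        · intro c hc c' hc' hcc
          rw [Finset.coe_filter, Set.mem_ofPred_eq] at hc hc'
          obtain ⟨P, hP, hPc⟩ := Finset.mem_image.1 hc.1
          obtain ⟨P', hP', hPc'⟩ := Finset.mem_image.1 hc'.1
          have h4 : 0 ≤ c.1 := by
            rw [← hPc]
            exact Int.emod_nonneg _ hw'.ne'
          have h4' : 0 ≤ c'.1 := by
            rw [← hPc']
            exact Int.emod_nonneg _ hw'.ne'
          simp only at hcc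
          refine Prod.ext ?_ (hc.2.trans hc'.2.symm)
          omega
      exact_mod_cast h3
    have h2 : (((K.image φ).image Prod.snd).card : ℝ) ≤ w := by
      have h3 : ((K.image φ).image Prod.snd).card ≤ (Finset.Ico (0 : ℤ) w).card := by
        refine Finset.card_le_card ?_
        intro y hy
        obtain ⟨c0, hc0, rfl⟩ := Finset.mem_image.1 hy
        obtain ⟨P0, hP0, rfl⟩ := Finset.mem_image.1 hc0
        rw [Finset.mem_Ico]
        exact ⟨Int.emod_nonneg _ hw'.ne', Int.emod_lt_of_pos _ hw'⟩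
      rw [Int.card_Ico] at h3
      have h4 : ((w : ℤ) - 0).toNat = w := by simp
      rw [h4] at h3
      exact_mod_cast h3
    calc _ ≤ ∑ y ∈ (K.image φ).image Prod.snd, κ := Finset.sum_le_sum h1
      _ = (((K.image φ).image Prod.snd).card : ℝ) * κ := by
          rw [Finset.sum_const, nsmul_eq_mul]
      _ ≤ w * κ := mul_le_mul_of_nonneg_right h2 (by linarith)
  have hKL : (K.card : ℝ) ≤ w * κ * L := by
    rw [Finset.card_eq_sum_card_image φ K]
    push_cast
    calc _ ≤ ∑ c ∈ K.image φ, L := Finset.sum_le_sum hclass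
      _ = ((K.image φ).card : ℝ) * L := by rw [Finset.sum_const, nsmul_eq_mul]
      _ ≤ w * κ * L :=
          mul_le_mul_of_nonneg_right hnum (by rw [hL]; positivity)
  -- the final estimate
  have hd : (w.divisors.card : ℝ) ≤ κ := hκ.div w hw (Nat.le_self_pow (by norm_num) w)
  have hL2 : w * L ≤ 2 * κ * (w + √(w * A)) := by
    have h1 : w * √(4 * (A / w) * w.divisors.card) ≤ 2 * κ * √(w * A) := by
      have h2 : (w : ℝ) * √(4 * (A / w) * w.divisors.card) =
          √((w : ℝ) ^ 2 * (4 * (A / w) * w.divisors.card)) := by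
        rw [Real.sqrt_mul (sq_nonneg _), Real.sqrt_sq hwR.le]
      have h3 : 2 * κ * √(w * A) = √((2 * κ) ^ 2 * (w * A)) := by
        rw [Real.sqrt_mul (sq_nonneg _), Real.sqrt_sq (by linarith)]
      rw [h2, h3]
      apply Real.sqrt_le_sqrt
      have h4 : (w : ℝ) ^ 2 * (4 * (A / w) * w.divisors.card) =
          4 * (w * A) * w.divisors.card := by
        field_simp
      rw [h4]
      have h5 : (w.divisors.card : ℝ) ≤ κ ^ 2 := by nlinarith
      calc 4 * (w * A : ℝ) * w.divisors.card ≤ 4 * (w * A) * κ ^ 2 :=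
            mul_le_mul_of_nonneg_left h5 (by positivity)
        _ = (2 * κ) ^ 2 * (w * A) := by ring
    have h2 : (w : ℝ) ≤ 2 * κ * w := by nlinarith
    rw [hL, mul_add, mul_one]
    calc (w : ℝ) + w * √(4 * (A / w) * w.divisors.card) ≤
        2 * κ * w + 2 * κ * √(w * A) := add_le_add h2 h1
      _ = _ := by ring
  have hpos : 0 ≤ w + √((w : ℝ) * A) := by positivity
  calc (K.card : ℝ) ≤ w * κ * L := hKL
    _ = κ * (w * L) := by ring
    _ ≤ κ * (2 * κ * (w + √(w * A))) := mul_le_mul_of_nonneg_left hL2 (by linarith)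
    _ = 2 * κ ^ 2 * (w + √(w * A)) := by ring
    _ ≤ 4 * κ ^ 2 * (w + √(w * A)) := by
        apply mul_le_mul_of_nonneg_right _ hpos
        nlinarith [sq_nonneg κ]

theorem t1_thm (ha : T1aStmt) (hb : T1bStmt) : T1Stmt := by
  classical
  intro neg e f w κ₁ κ I J A B S he he8 hf hf8 hne hsq hbad hκ hκ₁ hA hB hS
  have hw : 0 < w := Nat.pos_of_ne_zero hsq.ne_zero
  set K : Finset (ℤ × ℤ) := S.image (fun s => ((s.1 : ℤ), (s.2 : ℤ))) with hK
  have hcard : K.card = S.card := by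
    apply Finset.card_image_of_injective
    intro s t hst
    simp only [Prod.mk.injEq, Nat.cast_inj] at hst
    exact Prod.ext hst.1 hst.2
  rw [← hcard]
  have hBz : (B : ℤ) ≤ (w : ℤ) ^ 2 := by exact_mod_cast hB
  have m1 : ∀ P ∈ K, (I : ℤ) ≤ P.1 ∧ P.1 < (I : ℤ) + A := by
    intro P hP
    obtain ⟨s, hs, rfl⟩ := Finset.mem_image.1 hP
    obtain ⟨h1, h2, -⟩ := hS s hs
    show (I : ℤ) ≤ (s.1 : ℤ) ∧ (s.1 : ℤ) < (I : ℤ) + A
    constructor
    · exact_mod_cast h1
    · exact_mod_cast h2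
  have m2 : ∀ P ∈ K, (J : ℤ) ≤ P.2 ∧ P.2 < (J : ℤ) + (w : ℤ) ^ 2 := by
    intro P hP
    obtain ⟨s, hs, rfl⟩ := Finset.mem_image.1 hP
    obtain ⟨-, -, h1, h2, -⟩ := hS s hs
    show (J : ℤ) ≤ (s.2 : ℤ) ∧ (s.2 : ℤ) < (J : ℤ) + (w : ℤ) ^ 2
    constructor
    · exact_mod_cast h1
    · have h3 : (s.2 : ℤ) < (J : ℤ) + B := by exact_mod_cast h2
      show (s.2 : ℤ) < (J : ℤ) + (w : ℤ) ^ 2
      linarith
  have c1 : ∀ P ∈ K, IsCoprime P.1 (w : ℤ) := by
    intro P hP
    obtain ⟨s, hs, rfl⟩ := Finset.mem_image.1 hP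
    exact Nat.isCoprime_iff_coprime.2 (hS s hs).2.2.2.2.1
  have c2 : ∀ P ∈ K, IsCoprime P.2 (w : ℤ) := by
    intro P hP
    obtain ⟨s, hs, rfl⟩ := Finset.mem_image.1 hP
    exact Nat.isCoprime_iff_coprime.2 (hS s hs).2.2.2.2.2.1
  cases neg with
  | false =>
    have hne' : e ≠ f := hne rfl
    have hcop0 : IsCoprime (2 * (e : ℤ) * f * ((max e f - min e f : ℕ) : ℤ)) (w : ℤ) := by
      have h1 : Nat.Coprime (2 * e * f * (max e f - min e f)) w := by
        have := hbad.symm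
        simpa [bad] using this
      have h2 := Nat.isCoprime_iff_coprime.2 h1
      rw [Nat.cast_mul, Nat.cast_mul, Nat.cast_mul] at h2
      exact_mod_cast h2
    have hcop : IsCoprime (2 * (e : ℤ) * f * (e - f)) (w : ℤ) := by
      rcases le_total e f with h | h
      · have h1 : ((max e f - min e f : ℕ) : ℤ) = f - e := by
          rw [max_eq_right h, min_eq_left h, Nat.cast_sub h]
        rw [h1] at hcop0
        have h2 : 2 * (e : ℤ) * f * (e - f) = -(2 * (e : ℤ) * f * (f - e)) := by ring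
        rw [h2]
        exact hcop0.neg_left
      · have h1 : ((max e f - min e f : ℕ) : ℤ) = e - f := by
          rw [max_eq_left h, min_eq_right h, Nat.cast_sub h]
        rwa [h1] at hcop0
    have hK3 : ∀ P ∈ K, (w : ℤ) ^ 3 ∣ P.1 ^ e - κ₁ * P.2 ^ f := by
      intro P hP
      obtain ⟨s, hs, rfl⟩ := Finset.mem_image.1 hP
      have h1 := (hS s hs).2.2.2.2.2.2
      have h2 : s.1 ^ e ≡ κ₁ * s.2 ^ f [MOD w ^ 3] := by simpa [Rel] using h1
      have h3 : ((s.1 ^ e : ℕ) : ℤ) ≡ ((κ₁ * s.2 ^ f : ℕ) : ℤ) [ZMOD ((w ^ 3 : ℕ) : ℤ)] :=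
        Int.natCast_modEq_iff.2 h2
      have h4 := Int.modEq_iff_dvd.1 h3.symm
      push_cast at h4
      exact h4
    refine t1_core he he8 w hκ f I J A K hw hcop hA m1 m2 c1 c2 ?_ ?_
    · rintro P hP Q hQ ⟨D, hD⟩ ⟨D', hD'⟩
      have e1 : Q.1 = P.1 + w * D := by linarith
      have e2 : Q.2 = P.2 + w * D' := by linarith
      refine ⟨D, D', e1, e2, ?_⟩
      have h2 := hK3 Q hQ
      rw [e1, e2] at h2
      exact Pool.Agent.Helper69.EN.rel_plus hw
        hcop.of_mul_left_left.of_mul_left_left.of_mul_left_left (c1 P hP) (c2 P hP)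
        (hK3 P hP) h2
    · intro P hP Q hQ hd
      have h1 : (w : ℤ) ∣ P.1 ^ e - κ₁ * P.2 ^ f :=
        (dvd_pow_self _ (by norm_num)).trans (hK3 P hP)
      have h2 : (w : ℤ) ∣ Q.1 ^ e - κ₁ * Q.2 ^ f :=
        (dvd_pow_self _ (by norm_num)).trans (hK3 Q hQ)
      have h3 : (w : ℤ) ∣ Q.2 ^ f - P.2 ^ f := hd.trans (sub_dvd_pow_sub_pow _ _ f)
      have h4 : Q.1 ^ e - P.1 ^ e = (Q.1 ^ e - κ₁ * Q.2 ^ f) - (P.1 ^ e - κ₁ * P.2 ^ f) +
          κ₁ * (Q.2 ^ f - P.2 ^ f) := by ring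
      rw [h4]
      exact dvd_add (dvd_sub h2 h1) (dvd_mul_of_dvd_right h3 _)
  | true =>
    have hcop : IsCoprime (2 * (e : ℤ) * f * (e + f)) (w : ℤ) := by
      have h1 : Nat.Coprime (2 * e * f * (e + f)) w := by
        have := hbad.symm
        simpa [bad] using this
      have h2 := Nat.isCoprime_iff_coprime.2 h1
      rw [Nat.cast_mul, Nat.cast_mul, Nat.cast_mul, Nat.cast_add] at h2
      exact_mod_cast h2
    have hcop' : IsCoprime (2 * (e : ℤ) * (-(f : ℤ)) * (e - (-(f : ℤ)))) (w : ℤ) := by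
      have h1 : 2 * (e : ℤ) * (-(f : ℤ)) * (e - (-(f : ℤ))) = -(2 * (e : ℤ) * f * (e + f)) := by
        ring
      rw [h1]
      exact hcop.neg_left
    have hK3 : ∀ P ∈ K, (w : ℤ) ^ 3 ∣ P.1 ^ e * P.2 ^ f - κ₁ := by
      intro P hP
      obtain ⟨s, hs, rfl⟩ := Finset.mem_image.1 hP
      have h1 := (hS s hs).2.2.2.2.2.2
      have h2 : s.1 ^ e * s.2 ^ f ≡ κ₁ [MOD w ^ 3] := by simpa [Rel] using h1
      have h3 : ((s.1 ^ e * s.2 ^ f : ℕ) : ℤ) ≡ (κ₁ : ℤ) [ZMOD ((w ^ 3 : ℕ) : ℤ)] :=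
        Int.natCast_modEq_iff.2 h2
      have h4 := Int.modEq_iff_dvd.1 h3.symm
      push_cast at h4
      exact h4
    refine t1_core he he8 w hκ (-(f : ℤ)) I J A K hw hcop' hA m1 m2 c1 c2 ?_ ?_
    · rintro P hP Q hQ ⟨D, hD⟩ ⟨D', hD'⟩
      have e1 : Q.1 = P.1 + w * D := by linarith
      have e2 : Q.2 = P.2 + w * D' := by linarith
      refine ⟨D, D', e1, e2, ?_⟩
      have h2 := hK3 Q hQ
      rw [e1, e2] at h2
      exact Pool.Agent.Helper69.EN.rel_minus hw
        hcop.of_mul_left_left.of_mul_left_left.of_mul_left_left (c1 P hP) (c2 P hP)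
        (hK3 P hP) h2
    · intro P hP Q hQ hd
      have h1 : (w : ℤ) ∣ P.1 ^ e * P.2 ^ f - κ₁ :=
        (dvd_pow_self _ (by norm_num)).trans (hK3 P hP)
      have h2 : (w : ℤ) ∣ Q.1 ^ e * Q.2 ^ f - κ₁ :=
        (dvd_pow_self _ (by norm_num)).trans (hK3 Q hQ)
      have h3 : (w : ℤ) ∣ Q.2 ^ f - P.2 ^ f := hd.trans (sub_dvd_pow_sub_pow _ _ f)
      have h4 : (w : ℤ) ∣ P.2 ^ f * (Q.1 ^ e - P.1 ^ e) := by
        have h5 : P.2 ^ f * (Q.1 ^ e - P.1 ^ e) =
            (Q.1 ^ e * Q.2 ^ f - κ₁) - (P.1 ^ e * P.2 ^ f - κ₁) -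
            Q.1 ^ e * (Q.2 ^ f - P.2 ^ f) := by ring
        rw [h5]
        exact dvd_sub (dvd_sub h2 h1) (dvd_mul_of_dvd_right h3 _)
      exact ((c2 P hP).pow_left (m := f)).symm.dvd_of_dvd_mul_left h4

end Pool.Agent.Helper21.EN
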